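import Pool.Agent.PGL.NO

/-! PGL / AB: the sums `A(a) = ∑_{a ⊆ D ⊆ V} ρ(D) α(D)`.

PROOF. `rho_ex`: `F(m) = LamS y m * LamS y' m = ∑_{D ⊆ m} ρ(D)` for `m ⊆ V` (`LamS y m = ∑_{A ⊆ m} λ(A)`, see `lamS_eq`:
expand `∏_{p ∈ B} (1 - p 1[p ∈ m])`), so `∑_D ρ(D) α(D) = E_α[F]`.
`a_bound`: `A(a) = α(a) E_{m' ⊆ V \ a} [∑_{c ⊆ a} (-1)^{|a \ c|} F(m' ∪ c)]` (for one prime:
`∑_{D' ∌ p} ρ(D' ∪ p) α(D') = E[F(m' ∪ p) - F(m')]`), and for fixed `c ⊆ a`
`LamS V y (m' ∪ c) = ∑_{B' ⊆ V \ a} (Y_{B'} / ph B') ∏_{p ∈ B'} ee m' p`, `Y_{B'} = ∑_{b ⊆ a} y(B' ∪ b) ∏_{p ∈ b} (ee c p / (p - 1))`,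
`|ee c p / (p - 1)| ≤ 1`, so `Y` is `Bd (2^|a| c₁) R`; apply `near_orth` to `V \ a`: each expectation is at most
`4^|a| c₁ c₁' G_V(R) ∏ (1 + 24 / p²)`. -/

set_option autoImplicit false

open Finset

noncomputable section

namespace PGL

/-- splitting of the subsets of `V` along `a ⊆ V` -/
private theorem pow_split {V a : Finset ℕ} (ha : a ⊆ V) (f : Finset ℕ → ℝ) :
    ∑ B ∈ V.powerset, f B = ∑ B ∈ (V \ a).powerset, ∑ b ∈ a.powerset, f (B ∪ b) := by
  rw [← Finset.sum_product']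
  refine Finset.sum_nbij' (fun B => (B \ a, B ∩ a)) (fun q => q.1 ∪ q.2) ?_ ?_ ?_ ?_ ?_
  · intro B hB
    rw [mem_powerset] at hB
    rw [mem_product, mem_powerset, mem_powerset]
    exact ⟨sdiff_subset_sdiff hB (le_refl a), inter_subset_right⟩
  · intro q hq
    rw [mem_product, mem_powerset, mem_powerset] at hq
    rw [mem_powerset]
    exact union_subset (hq.1.trans sdiff_subset) (hq.2.trans ha)
  · intro B hB
    exact sdiff_union_inter B a
  · rintro ⟨B, b⟩ hq
    rw [mem_product, mem_powerset, mem_powerset] at hq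
    obtain ⟨h1, h2⟩ := hq
    simp only at h1 h2
    have h3 : Disjoint B a := disjoint_of_subset_left h1 sdiff_disjoint
    refine Prod.ext ?_ ?_
    · show (B ∪ b) \ a = B
      rw [union_sdiff_distrib, sdiff_eq_self_of_disjoint h3, sdiff_eq_empty_iff_subset.2 h2,
        union_empty]
    · show (B ∪ b) ∩ a = b
      rw [union_inter_distrib_right, disjoint_iff_inter_eq_empty.1 h3, empty_union,
        inter_eq_left.2 h2]
  · intro B hB
    show f B = f (B \ a ∪ B ∩ a)
    rw [sdiff_union_inter]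

/-- the subsets containing `D` -/
private theorem sum_sup {V D : Finset ℕ} (hD : D ⊆ V) (f : Finset ℕ → ℝ) :
    ∑ m ∈ V.powerset with D ⊆ m, f m = ∑ m ∈ (V \ D).powerset, f (D ∪ m) := by
  refine Finset.sum_nbij' (fun m => m \ D) (fun m => D ∪ m) ?_ ?_ ?_ ?_ ?_
  · intro m hm
    rw [mem_filter, mem_powerset] at hm
    rw [mem_powerset]
    exact sdiff_subset_sdiff hm.1 (le_refl D)
  · intro m hm
    rw [mem_powerset] at hm
    rw [mem_filter, mem_powerset]
    exact ⟨union_subset hD (hm.trans sdiff_subset), subset_union_left⟩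
  · intro m hm
    rw [mem_filter, mem_powerset] at hm
    exact union_sdiff_of_subset hm.2
  · intro m hm
    rw [mem_powerset] at hm
    have h3 : Disjoint m D := disjoint_of_subset_left hm sdiff_disjoint
    show (D ∪ m) \ D = m
    rw [union_sdiff_left, sdiff_eq_self_of_disjoint h3]
  · intro m hm
    rw [mem_filter, mem_powerset] at hm
    show f m = f (D ∪ m \ D)
    rw [union_sdiff_of_subset hm.2]

/-- a general identity for sums over chains `D ⊆ m ⊆ V` -/
private theorem zeta_sum (V : Finset ℕ) (u v : ℕ → ℝ) (g : Finset ℕ → ℝ) :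
    ∑ m ∈ V.powerset, (∏ p ∈ m, u p) * (∏ p ∈ V \ m, v p) * ∑ D ∈ m.powerset, g D =
      ∑ D ∈ V.powerset, g D * ((∏ p ∈ D, u p) * ∏ p ∈ V \ D, (u p + v p)) := by
  have h1 : ∑ m ∈ V.powerset, (∏ p ∈ m, u p) * (∏ p ∈ V \ m, v p) * ∑ D ∈ m.powerset, g D =
      ∑ m ∈ V.powerset, ∑ D ∈ m.powerset, (∏ p ∈ m, u p) * (∏ p ∈ V \ m, v p) * g D :=
    Finset.sum_congr rfl fun m _ => Finset.mul_sum _ _ _
  rw [h1, Finset.sum_comm' (t' := V.powerset)
    (s' := fun D => V.powerset.filter fun m => D ⊆ m)]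
  · apply Finset.sum_congr rfl
    intro D hD
    rw [mem_powerset] at hD
    rw [sum_sup hD, Finset.prod_add, Finset.mul_sum, Finset.mul_sum]
    apply Finset.sum_congr rfl
    intro m hm
    rw [mem_powerset] at hm
    have h3 : Disjoint D m := (disjoint_of_subset_left hm sdiff_disjoint).symm
    have h5 : (V \ D) \ m = V \ (D ∪ m) := by
      ext x
      simp only [mem_sdiff, mem_union]
      tauto
    rw [Finset.prod_union h3, h5]
    ring
  · intro m D
    simp only [mem_powerset, mem_filter]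
    constructor
    · rintro ⟨h2, h3⟩
      exact ⟨⟨h2, h3⟩, h3.trans h2⟩
    · rintro ⟨⟨h2, h3⟩, _⟩
      exact ⟨h2, h3⟩

theorem lamS_eq (V : Finset ℕ) (y : Finset ℕ → ℝ) {m : Finset ℕ} (hm : m ⊆ V) :
    LamS V y m = ∑ A ∈ m.powerset, lam V y A := by
  have hee : ∀ p, ee m p = 1 + (if p ∈ m then -(p : ℝ) else 0) := by
    intro p
    unfold ee
    split_ifs <;> ring
  have h0 : ∀ A, ∏ p ∈ A, (if p ∈ m then -(p : ℝ) else 0) =
      if A ⊆ m then (-1) ^ A.card * (pr A : ℝ) else 0 := by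
    intro A
    split_ifs with h
    · unfold pr
      push_cast
      rw [← Finset.prod_const, ← Finset.prod_mul_distrib]
      apply Finset.prod_congr rfl
      intro p hp
      rw [if_pos (h hp)]
      ring
    · rw [Finset.not_subset] at h
      obtain ⟨p, hp, hpm⟩ := h
      exact Finset.prod_eq_zero hp (if_neg hpm)
  have h1 : LamS V y m = ∑ B ∈ V.powerset, ∑ A ∈ B.powerset,
      y B / ph B * (if A ⊆ m then (-1) ^ A.card * (pr A : ℝ) else 0) := by
    unfold LamS
    apply Finset.sum_congr rfl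
    intro B _
    rw [Finset.prod_congr rfl fun p _ => hee p, Finset.prod_one_add, Finset.mul_sum]
    apply Finset.sum_congr rfl
    intro A _
    rw [h0]
  rw [h1, Finset.sum_comm' (t' := V.powerset)
    (s' := fun D => V.powerset.filter fun m => D ⊆ m)]
  · have h2 : ∀ A ∈ V.powerset, ∑ B ∈ V.powerset with A ⊆ B,
        y B / ph B * (if A ⊆ m then (-1) ^ A.card * (pr A : ℝ) else 0) =
        if A ⊆ m then lam V y A else 0 := by
      intro A _
      rw [← Finset.sum_mul]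
      unfold lam
      split_ifs
      · ring
      · ring
    rw [Finset.sum_congr rfl h2, ← Finset.sum_filter]
    apply Finset.sum_congr _ fun _ _ => rfl
    ext A
    rw [mem_filter, mem_powerset, mem_powerset]
    exact ⟨fun h => h.2, fun h => ⟨h.trans hm, h⟩⟩
  · intro m D
    simp only [mem_powerset, mem_filter]
    constructor
    · rintro ⟨h2, h3⟩
      exact ⟨⟨h2, h3⟩, h3.trans h2⟩
    · rintro ⟨⟨h2, h3⟩, _⟩
      exact ⟨h2, h3⟩

theorem rho_sum (V : Finset ℕ) (y y' : Finset ℕ → ℝ) {m : Finset ℕ} (hm : m ⊆ V) :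
    LamS V y m * LamS V y' m = ∑ D ∈ m.powerset, rho V y y' D := by
  rw [lamS_eq V y hm, lamS_eq V y' hm, Finset.sum_mul_sum, ← Finset.sum_product',
    ← Finset.sum_fiberwise_of_maps_to (s := m.powerset ×ˢ m.powerset) (t := m.powerset)
      (g := fun q => q.1 ∪ q.2)]
  · apply Finset.sum_congr rfl
    intro D hD
    rw [mem_powerset] at hD
    unfold rho
    apply Finset.sum_congr _ fun _ _ => rfl
    ext q
    simp only [mem_filter, mem_product, mem_powerset]
    constructor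
    · rintro ⟨⟨h1, h2⟩, h3⟩
      exact ⟨⟨h1.trans hm, h2.trans hm⟩, h3⟩
    · rintro ⟨_, h3⟩
      exact ⟨⟨(h3 ▸ subset_union_left).trans hD, (h3 ▸ subset_union_right).trans hD⟩, h3⟩
  · intro q hq
    rw [mem_product, mem_powerset, mem_powerset] at hq
    rw [mem_powerset]
    exact union_subset hq.1 hq.2

/-- expectation of a sum over subsets -/
private theorem ex_sum (V : Finset ℕ) (α : ℕ → ℝ) (g : Finset ℕ → ℝ) :
    Ex V α (fun m => ∑ D ∈ m.powerset, g D) = ∑ D ∈ V.powerset, g D * al α D := by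
  unfold Ex al
  rw [zeta_sum]
  apply Finset.sum_congr rfl
  intro D _
  have h : ∏ p ∈ V \ D, (α p + (1 - α p)) = 1 := by
    apply Finset.prod_eq_one
    intro p _
    ring
  rw [h, mul_one]

private theorem ex_congr {V : Finset ℕ} (α : ℕ → ℝ) {F F' : Finset ℕ → ℝ}
    (h : ∀ m, m ⊆ V → F m = F' m) : Ex V α F = Ex V α F' := by
  unfold Ex
  apply Finset.sum_congr rfl
  intro m hm
  rw [h m (mem_powerset.1 hm)]

theorem rho_ex (V : Finset ℕ) (α : ℕ → ℝ) (y y' : Finset ℕ → ℝ) :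
    ∑ D ∈ V.powerset, rho V y y' D * al α D = Ex V α (fun m => LamS V y m * LamS V y' m) := by
  rw [← ex_sum]
  exact ex_congr α fun m hm => (rho_sum V y y' hm).symm

/-- Moebius inversion -/
private theorem moeb (a : Finset ℕ) (g : Finset ℕ → ℝ) :
    ∑ c ∈ a.powerset, (-1 : ℝ) ^ (a \ c).card * ∑ b ∈ c.powerset, g b = g a := by
  have h1 := zeta_sum a (fun _ => 1) (fun _ => -1) g
  have h2 : ∑ D ∈ a.powerset, g D * ((∏ p ∈ D, (1 : ℝ)) * ∏ p ∈ a \ D, ((1 : ℝ) + -1)) = g a := by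
    rw [Finset.sum_eq_single a]
    · rw [sdiff_self, bot_eq_empty, Finset.prod_empty, Finset.prod_const_one]
      ring
    · intro D hD hne
      rw [mem_powerset] at hD
      obtain ⟨p, hp, hpD⟩ := Finset.exists_of_ssubset (hD.ssubset_of_ne hne)
      rw [Finset.prod_eq_zero (i := p) (mem_sdiff.2 ⟨hp, hpD⟩) (by norm_num)]
      ring
    · intro h
      exact absurd (mem_powerset.2 (le_refl a)) h
  rw [h2] at h1
  rw [← h1]
  apply Finset.sum_congr rfl
  intro c _
  rw [Finset.prod_const_one, one_mul, Finset.prod_const]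

/-- the coefficients of the weight at `m ∪ c` as a function of `m` -/
private def yc (a : Finset ℕ) (y : Finset ℕ → ℝ) (c : Finset ℕ) (B : Finset ℕ) : ℝ :=
  ∑ b ∈ a.powerset, y (B ∪ b) * ∏ p ∈ b, (ee c p / ((p : ℝ) - 1))

private theorem lamS_yc {V a c m : Finset ℕ} (ha : a ⊆ V) (hc : c ⊆ a) (hm : m ⊆ V \ a)
    (y : Finset ℕ → ℝ) : LamS V y (m ∪ c) = LamS (V \ a) (yc a y c) m := by
  unfold LamS
  rw [pow_split ha]
  apply Finset.sum_congr rfl
  intro B hB
  rw [mem_powerset] at hB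
  unfold yc
  rw [Finset.sum_div, Finset.sum_mul]
  apply Finset.sum_congr rfl
  intro b hb
  rw [mem_powerset] at hb
  have hd : Disjoint B b := disjoint_of_subset_left hB (disjoint_of_subset_right hb sdiff_disjoint)
  have h1 : ph (B ∪ b) = ph B * ph b := by
    unfold ph
    exact Finset.prod_union hd
  have h2 : ∏ p ∈ B, ee (m ∪ c) p = ∏ p ∈ B, ee m p := by
    apply Finset.prod_congr rfl
    intro p hp
    have h3 : p ∉ c := fun h => (mem_sdiff.1 (hB hp)).2 (hc h)
    unfold ee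
    simp [h3]
  have h3 : ∏ p ∈ b, ee (m ∪ c) p = ∏ p ∈ b, ee c p := by
    apply Finset.prod_congr rfl
    intro p hp
    have h3 : p ∉ m := fun h => (mem_sdiff.1 (hm h)).2 (hb hp)
    unfold ee
    simp [h3]
  rw [Finset.prod_union hd, h1, h2, h3, Finset.prod_div_distrib]
  unfold ph
  rw [div_mul_eq_div_div, div_mul_eq_mul_div, div_mul_eq_mul_div, div_mul_eq_mul_div,
    mul_div_assoc', div_mul_eq_mul_div, div_div, div_div]
  congr 1 <;> ring

private theorem yc_bd {V a c : Finset ℕ} (hV : Big V 2) (ha : a ⊆ V) {y : Finset ℕ → ℝ}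
    {C R : ℝ} (hC : 0 ≤ C) (hy : Bd y C R) : Bd (yc a y c) (2 ^ a.card * C) R := by
  have hf : ∀ b ⊆ a, |∏ p ∈ b, (ee c p / ((p : ℝ) - 1))| ≤ 1 := by
    intro b hb
    rw [Finset.abs_prod]
    apply Finset.prod_le_one (fun p _ => abs_nonneg _)
    intro p hp
    have h1 : (2 : ℝ) < p := (hV p (ha (hb hp))).2
    have h2 : (0 : ℝ) < (p : ℝ) - 1 := by linarith
    rw [abs_div, abs_of_pos h2, div_le_one h2]
    unfold ee
    split_ifs
    · rw [abs_of_neg (by linarith)]
      linarith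
    · rw [abs_one]
      linarith
  intro B
  constructor
  · unfold yc
    calc |∑ b ∈ a.powerset, y (B ∪ b) * ∏ p ∈ b, (ee c p / ((p : ℝ) - 1))| ≤
          ∑ b ∈ a.powerset, |y (B ∪ b) * ∏ p ∈ b, (ee c p / ((p : ℝ) - 1))| :=
          Finset.abs_sum_le_sum_abs _ _
      _ ≤ ∑ b ∈ a.powerset, C := by
          apply Finset.sum_le_sum
          intro b hb
          rw [abs_mul]
          calc |y (B ∪ b)| * |∏ p ∈ b, (ee c p / ((p : ℝ) - 1))| ≤ C * 1 :=
                mul_le_mul (hy _).1 (hf b (mem_powerset.1 hb)) (abs_nonneg _) hC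
            _ = C := mul_one C
      _ = 2 ^ a.card * C := by
          rw [Finset.sum_const, Finset.card_powerset, nsmul_eq_mul]
          push_cast
          ring
  · intro hR
    unfold yc
    apply Finset.sum_eq_zero
    intro b hb
    rw [mem_powerset] at hb
    have h1 : pr (B ∪ b) = pr B * pr (b \ B) := by
      unfold pr
      rw [← Finset.union_sdiff_self_eq_union, Finset.prod_union disjoint_sdiff]
    have h2 : 1 ≤ pr (b \ B) := by
      unfold pr
      exact Nat.succ_le_of_lt (Finset.prod_pos fun p hp =>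
        (hV p (ha (hb (mem_sdiff.1 hp).1))).1.pos)
    have h3 : (pr B : ℝ) ≤ pr (B ∪ b) := by
      rw [h1]
      exact_mod_cast Nat.le_mul_of_pos_right _ h2
    rw [(hy _).2 (lt_of_lt_of_le hR h3), zero_mul]

private theorem ph_pos {V B : Finset ℕ} (hV : Big V 2) (hB : B ⊆ V) : 0 < ph B := by
  unfold ph
  apply Finset.prod_pos
  intro p hp
  have h1 : (2 : ℝ) < p := (hV p (hB hp)).2
  linarith

private theorem dia_le {V : Finset ℕ} (hV : Big V 2) {Y Y' : Finset ℕ → ℝ} {c c' R R' : ℝ}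
    (hc : 0 ≤ c) (hY : Bd Y c R) (hY' : Bd Y' c' R') :
    |dia V Y Y'| ≤ c * c' * GV V R := by
  unfold dia GV
  rw [Finset.mul_sum, Finset.sum_filter]
  refine (Finset.abs_sum_le_sum_abs _ _).trans (Finset.sum_le_sum fun B hB => ?_)
  rw [mem_powerset] at hB
  have hp := ph_pos hV hB
  split_ifs with h
  · rw [abs_div, abs_mul, abs_of_pos hp, mul_one_div]
    apply div_le_div_of_nonneg_right _ hp.le
    exact mul_le_mul (hY B).1 (hY' B).1 (abs_nonneg _) hc
  · rw [(hY B).2 (lt_of_not_ge h)]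
    simp

private theorem ex_bound {V W : Finset ℕ} (hV : Big V 2) (hW : W ⊆ V) (α : ℕ → ℝ)
    (hα : ∀ p ∈ V, 0 ≤ α p ∧ α p ≤ 1 ∧ |p * α p - 1| ≤ 2 / p) {Y Y' : Finset ℕ → ℝ}
    {c c' R R' : ℝ} (hc : 0 ≤ c) (hc' : 0 ≤ c') (hY : Bd Y c R) (hY' : Bd Y' c' R') :
    |Ex W α (fun m => LamS W Y m * LamS W Y' m)| ≤
      c * c' * GV V R * ∏ p ∈ V, (1 + 24 / (p : ℝ) ^ 2) := by
  have hWb : Big W 2 := fun p hp => hV p (hW hp)
  have h1 := near_orth W hWb α (fun p hp => hα p (hW hp)) hc hc' hY hY'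
  have h2 := dia_le hWb hc hY hY'
  have h3 : GV W R ≤ GV V R := by
    unfold GV
    apply Finset.sum_le_sum_of_subset_of_nonneg
    · intro B hB
      rw [mem_filter, mem_powerset] at hB ⊢
      exact ⟨hB.1.trans hW, hB.2⟩
    · intro B hB _
      rw [mem_filter, mem_powerset] at hB
      exact (one_div_pos.2 (ph_pos hV hB.1)).le
  have h4 : (∏ p ∈ W, (1 + 24 / (p : ℝ) ^ 2)) ≤ ∏ p ∈ V, (1 + 24 / (p : ℝ) ^ 2) := by
    rw [← Finset.prod_sdiff hW]
    have e1 : (1 : ℝ) ≤ ∏ p ∈ V \ W, (1 + 24 / (p : ℝ) ^ 2) := by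
      calc (1 : ℝ) = ∏ _p ∈ V \ W, (1 : ℝ) := Finset.prod_const_one.symm
        _ ≤ _ := by
          apply Finset.prod_le_prod (fun _ _ => zero_le_one)
          intro p _
          have : (0 : ℝ) ≤ 24 / (p : ℝ) ^ 2 := by positivity
          linarith
    have e2 : (0 : ℝ) ≤ ∏ p ∈ W, (1 + 24 / (p : ℝ) ^ 2) := by
      apply Finset.prod_nonneg
      intro p _
      positivity
    nlinarith
  have h5 : (0 : ℝ) ≤ ∏ p ∈ W, (1 + 24 / (p : ℝ) ^ 2) := by
    apply Finset.prod_nonneg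
    intro p _
    positivity
  have h6 : 0 ≤ GV W R := by
    unfold GV
    apply Finset.sum_nonneg
    intro B hB
    rw [mem_filter, mem_powerset] at hB
    exact (one_div_pos.2 (ph_pos hWb hB.1)).le
  have h7 : |Ex W α (fun m => LamS W Y m * LamS W Y' m)| ≤
      c * c' * GV W R * ∏ p ∈ W, (1 + 24 / (p : ℝ) ^ 2) := by
    have h8 := abs_sub_abs_le_abs_sub (Ex W α (fun m => LamS W Y m * LamS W Y' m)) (dia W Y Y')
    linarith
  refine h7.trans (mul_le_mul (mul_le_mul_of_nonneg_left h3 (mul_nonneg hc hc')) h4 h5 ?_)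
  exact mul_nonneg (mul_nonneg hc hc') (h6.trans h3)

theorem a_bound (V : Finset ℕ) (hV : Big V 2) (α : ℕ → ℝ)
    (hα : ∀ p ∈ V, 0 ≤ α p ∧ α p ≤ 1 ∧ |p * α p - 1| ≤ 2 / p) {y y' : Finset ℕ → ℝ} {c c' R R' : ℝ}
    (hc : 0 ≤ c) (hc' : 0 ≤ c') (hy : Bd y c R) (hy' : Bd y' c' R') {a : Finset ℕ} (ha : a ⊆ V) :
    |∑ D ∈ V.powerset with a ⊆ D, rho V y y' D * al α D| ≤
      c * c' * GV V R * (∏ p ∈ V, (1 + 24 / (p : ℝ) ^ 2)) * ∏ p ∈ a, (8 * α p) := by
  set W := V \ a with hW
  have h1 : ∑ D ∈ V.powerset with a ⊆ D, rho V y y' D * al α D =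
      al α a * ∑ D ∈ W.powerset, rho V y y' (a ∪ D) * al α D := by
    rw [sum_sup ha, Finset.mul_sum]
    apply Finset.sum_congr rfl
    intro D hD
    rw [mem_powerset] at hD
    have h3 : Disjoint a D := (disjoint_of_subset_left hD sdiff_disjoint).symm
    have h4 : al α (a ∪ D) = al α a * al α D := by
      unfold al
      exact Finset.prod_union h3
    rw [h4]
    ring
  have h2 : ∀ m, m ⊆ W → ∑ D ∈ m.powerset, rho V y y' (a ∪ D) =
      ∑ c ∈ a.powerset, (-1 : ℝ) ^ (a \ c).card *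
        (LamS W (yc a y c) m * LamS W (yc a y' c) m) := by
    intro m hm
    rw [← moeb a (fun b => ∑ D ∈ m.powerset, rho V y y' (b ∪ D))]
    apply Finset.sum_congr rfl
    intro c hc
    rw [mem_powerset] at hc
    congr 1
    rw [← lamS_yc ha hc hm, ← lamS_yc ha hc hm, rho_sum V y y'
      (union_subset (hm.trans sdiff_subset) (hc.trans ha)), pow_split (a := c) subset_union_right]
    have h5 : (m ∪ c) \ c = m := by
      have h6 : Disjoint m c :=
        disjoint_of_subset_left hm (disjoint_of_subset_right hc sdiff_disjoint)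
      rw [union_sdiff_right, sdiff_eq_self_of_disjoint h6]
    rw [h5, Finset.sum_comm]
    apply Finset.sum_congr rfl
    intro D _
    apply Finset.sum_congr rfl
    intro b _
    rw [union_comm]
  have h3 : ∑ D ∈ W.powerset, rho V y y' (a ∪ D) * al α D =
      ∑ c ∈ a.powerset, (-1 : ℝ) ^ (a \ c).card *
        Ex W α (fun m => LamS W (yc a y c) m * LamS W (yc a y' c) m) := by
    rw [← ex_sum, ex_congr α h2]
    unfold Ex
    simp only [Finset.mul_sum]
    rw [Finset.sum_comm]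
    apply Finset.sum_congr rfl
    intro c _
    apply Finset.sum_congr rfl
    intro m _
    ring
  set P : ℝ := ∏ p ∈ V, (1 + 24 / (p : ℝ) ^ 2) with hP
  set G : ℝ := GV V R with hG
  have hal : 0 ≤ al α a := by
    unfold al
    exact Finset.prod_nonneg fun p hp => (hα p (ha hp)).1
  have h4 : ∀ b ∈ a.powerset, |(-1 : ℝ) ^ (a \ b).card *
      Ex W α (fun m => LamS W (yc a y b) m * LamS W (yc a y' b) m)| ≤
      (2 ^ a.card * c) * (2 ^ a.card * c') * G * P := by
    intro b _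
    rw [abs_mul, abs_pow, abs_neg, abs_one, one_pow, one_mul]
    exact ex_bound hV sdiff_subset α hα (by positivity) (by positivity)
      (yc_bd hV ha hc hy) (yc_bd hV ha hc' hy')
  rw [h1, h3, abs_mul, abs_of_nonneg hal]
  calc al α a * |∑ c ∈ a.powerset, (-1 : ℝ) ^ (a \ c).card *
        Ex W α (fun m => LamS W (yc a y c) m * LamS W (yc a y' c) m)| ≤
      al α a * ∑ b ∈ a.powerset, ((2 ^ a.card * c) * (2 ^ a.card * c') * G * P) := by
        apply mul_le_mul_of_nonneg_left _ hal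
        exact (Finset.abs_sum_le_sum_abs _ _).trans (Finset.sum_le_sum h4)
    _ = c * c' * G * P * ∏ p ∈ a, (8 * α p) := by
        rw [Finset.sum_const, Finset.card_powerset, nsmul_eq_mul, Finset.prod_mul_distrib,
          Finset.prod_const]
        unfold al
        push_cast
        have h8 : (8 : ℝ) ^ a.card = 2 ^ a.card * 2 ^ a.card * 2 ^ a.card := by
          rw [← mul_pow, ← mul_pow]
          norm_num
        rw [h8]
        ring

end PGL
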