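import Pool.Agent.Helper6.PNT

/-! PGL / C1: primes congruent to 1 in short windows.

PROOF. Prime number theorem in the class `1 mod Q` (`pi_ap_real` of `Helper6.PNT`, see the file for its exact form):
`π(x; Q, 1) ~ x / (φ(Q) log x)`, so with `X = log N → ∞` the number of primes `≡ 1 mod Q` in
`(β X, (β + δ) X]` is `~ δ X / (φ(Q) log X) → ∞`. Choose `M` of them (`Finset.exists_subset_card_eq`,
`Finset.orderEmbOfFin` or `equivFin`). -/

set_option autoImplicit false

open Finset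

noncomputable section

namespace PGL

theorem thetaW {q : ℕ} [NeZero q] {a : ZMod q} (ha : IsUnit a) {u v κ : ℝ} (hu : 0 < u)
    (huv : u < v) (hκ : κ < (v - u) / q.totient) : ∀ᶠ x : ℝ in Filter.atTop,
    κ * x ≤ ((((Finset.Icc 1 ⌊v * x⌋₊).filter (fun p : ℕ => p.Prime ∧ (p : ZMod q) = a)).filter
      (fun p : ℕ => u * x < p)).card : ℝ) * Real.log (v * x) := by
  have h0 := Pool.Agent.Helper6.theta_ap (q := q) (a := a) ha
  have hv : 0 < v := hu.trans huv
  have hvt : Filter.Tendsto (fun x : ℝ => v * x) Filter.atTop Filter.atTop :=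
    Filter.tendsto_id.const_mul_atTop hv
  have hut : Filter.Tendsto (fun x : ℝ => u * x) Filter.atTop Filter.atTop :=
    Filter.tendsto_id.const_mul_atTop hu
  have h1 := ((h0.comp hvt).const_mul v).sub ((h0.comp hut).const_mul u)
  have h2 : v * (1 / (q.totient : ℝ)) - u * (1 / (q.totient : ℝ)) = (v - u) / q.totient := by ring
  rw [h2] at h1
  filter_upwards [h1.eventually (lt_mem_nhds hκ), Filter.eventually_gt_atTop 0,
    hvt.eventually (Filter.eventually_ge_atTop 1)] with x hx hx0 hx1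
  simp only [Function.comp_apply] at hx
  have h3 : (∑ p ∈ (Finset.Icc 1 ⌊v * x⌋₊).filter (fun p : ℕ => p.Prime ∧ (p : ZMod q) = a),
      Real.log p) ≤ ((((Finset.Icc 1 ⌊v * x⌋₊).filter
      (fun p : ℕ => p.Prime ∧ (p : ZMod q) = a)).filter
      (fun p : ℕ => u * x < p)).card : ℝ) * Real.log (v * x) +
      ∑ p ∈ (Finset.Icc 1 ⌊u * x⌋₊).filter (fun p : ℕ => p.Prime ∧ (p : ZMod q) = a),
      Real.log p := by
    rw [← Finset.sum_filter_add_sum_filter_not _ (fun p : ℕ => u * x < p)]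
    refine add_le_add ?_ ?_
    · rw [← nsmul_eq_mul]
      refine Finset.sum_le_card_nsmul _ _ _ fun p hp => ?_
      rw [Finset.mem_filter, Finset.mem_filter, Finset.mem_Icc] at hp
      exact Real.log_le_log (by exact_mod_cast hp.1.1.1)
        ((Nat.le_floor_iff (by linarith)).1 hp.1.1.2)
    · refine Finset.sum_le_sum_of_subset_of_nonneg ?_ ?_
      · intro p hp
        rw [Finset.mem_filter, Finset.mem_filter, Finset.mem_Icc, not_lt] at hp
        rw [Finset.mem_filter, Finset.mem_Icc]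
        exact ⟨⟨hp.1.1.1, Nat.le_floor hp.2⟩, hp.1.2⟩
      · intro p hp _
        rw [Finset.mem_filter, Finset.mem_Icc] at hp
        exact Real.log_nonneg (by exact_mod_cast hp.1.1)
  have h4 : ∀ (w S : ℝ), 0 < w → w * (S / (w * x)) = S / x := by
    intro w S hw
    field_simp
  rw [h4 v _ hv, h4 u _ hu, ← sub_div, lt_div_iff₀ hx0] at hx
  linarith

theorem window (Q : ℕ) (hQ : 0 < Q) (M : ℕ) (β δ : ℝ) (hβ : 0 < β) (hδ : 0 < δ) : ∃ N₀ : ℕ, ∀ N : ℕ, N₀ ≤ N →
    ∃ f : Fin M → ℕ, Function.Injective f ∧ ∀ a, (f a).Prime ∧ f a ≡ 1 [MOD Q] ∧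
      β * Real.log N < f a ∧ (f a : ℝ) ≤ (β + δ) * Real.log N := by
  have : NeZero Q := ⟨hQ.ne'⟩
  have hφ : (0 : ℝ) < Q.totient := by exact_mod_cast Nat.totient_pos.2 hQ
  have hκ : δ / (2 * Q.totient) < ((β + δ) - β) / Q.totient := by
    rw [add_sub_cancel_left]
    exact div_lt_div_of_pos_left hδ hφ (by linarith)
  have h1 := thetaW (q := Q) (a := 1) isUnit_one hβ (lt_add_of_pos_right β hδ) hκ
  have hκ0 : 0 < δ / (2 * Q.totient) := by positivity
  have h2 : ∀ᶠ x : ℝ in Filter.atTop, (M : ℝ) * Real.log ((β + δ) * x) ≤ δ / (2 * Q.totient) * x := by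
    have hc : 0 < δ / (2 * Q.totient) / ((M + 1) * (β + δ)) := by positivity
    have h3 : Filter.Tendsto (fun x : ℝ => (β + δ) * x) Filter.atTop Filter.atTop :=
      Filter.tendsto_id.const_mul_atTop (by positivity)
    have h4 := h3.eventually (Real.isLittleO_log_id_atTop.bound hc)
    filter_upwards [h4, h3.eventually (Filter.eventually_ge_atTop 1), Filter.eventually_gt_atTop 0]
      with x hx hx1 hx0
    rw [id, Real.norm_eq_abs, Real.norm_eq_abs, abs_of_nonneg (Real.log_nonneg hx1),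
      abs_of_nonneg (by linarith)] at hx
    have h5 : δ / (2 * Q.totient) / ((M + 1) * (β + δ)) * ((β + δ) * x) =
        (δ / (2 * Q.totient) * x) / (M + 1) := by
      field_simp
    rw [h5, le_div_iff₀ (by positivity)] at hx
    have h6 := Real.log_nonneg hx1
    nlinarith
  have h3 : Filter.Tendsto (fun N : ℕ => Real.log (N : ℝ)) Filter.atTop Filter.atTop :=
    Real.tendsto_log_atTop.comp tendsto_natCast_atTop_atTop
  have h4 : Filter.Tendsto (fun x : ℝ => (β + δ) * x) Filter.atTop Filter.atTop :=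
    Filter.tendsto_id.const_mul_atTop (by positivity)
  have h5 := h3.eventually ((h1.and h2).and (h4.eventually (Filter.eventually_gt_atTop 1)))
  obtain ⟨N₀, hN₀⟩ := Filter.eventually_atTop.1 h5
  refine ⟨N₀, fun N hN => ?_⟩
  obtain ⟨⟨h6, h7⟩, h8⟩ := hN₀ N hN
  obtain ⟨S, hS⟩ : ∃ S, S = ((Finset.Icc 1 ⌊(β + δ) * Real.log N⌋₊).filter
      (fun p : ℕ => p.Prime ∧ (p : ZMod Q) = 1)).filter (fun p : ℕ => β * Real.log N < p) := ⟨_, rfl⟩
  rw [← hS] at h6
  have h9 : (M : ℝ) ≤ S.card := by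
    have hl : 0 < Real.log ((β + δ) * Real.log N) := Real.log_pos h8
    have := h7.trans h6
    exact le_of_mul_le_mul_right this hl
  obtain ⟨T, hTS, hT⟩ := Finset.exists_subset_card_eq (show M ≤ S.card by exact_mod_cast h9)
  refine ⟨fun i => ((T.equivFinOfCardEq hT).symm i).1,
    Subtype.val_injective.comp (T.equivFinOfCardEq hT).symm.injective, fun i => ?_⟩
  have h10 := hTS ((T.equivFinOfCardEq hT).symm i).2
  rw [hS, Finset.mem_filter, Finset.mem_filter, Finset.mem_Icc] at h10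
  refine ⟨h10.1.2.1, ?_, h10.2, ?_⟩
  · rw [← ZMod.natCast_eq_natCast_iff, Nat.cast_one]
    exact h10.1.2.2
  · exact (Nat.le_floor_iff (by linarith)).1 h10.1.1.2

/-- many primes in `(y/2, y]` -/
theorem primes_half : ∃ y₀ : ℝ, ∀ y : ℝ, y₀ ≤ y → ∃ P : Finset ℕ, (∀ p ∈ P, p.Prime ∧ y / 2 < p ∧ (p : ℝ) ≤ y) ∧
    y / (3 * Real.log y) ≤ P.card := by
  have h1 := thetaW (q := 1) (a := 1) isUnit_one (u := 1 / 2) (v := 1) (κ := 1 / 3) (by norm_num)
    (by norm_num) (by rw [Nat.totient_one]; norm_num)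
  obtain ⟨y₀, hy₀⟩ := Filter.eventually_atTop.1 (h1.and (Filter.eventually_gt_atTop 1))
  refine ⟨y₀, fun y hy => ?_⟩
  obtain ⟨h2, h3⟩ := hy₀ y hy
  refine ⟨((Finset.Icc 1 ⌊1 * y⌋₊).filter
      (fun p : ℕ => p.Prime ∧ (p : ZMod 1) = 1)).filter (fun p : ℕ => 1 / 2 * y < p),
      fun p hp => ?_, ?_⟩
  · rw [Finset.mem_filter, Finset.mem_filter, Finset.mem_Icc] at hp
    refine ⟨hp.1.2.1, by linarith [hp.2], ?_⟩
    have h4 := (Nat.le_floor_iff (by linarith)).1 hp.1.1.2
    linarith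
  · rw [one_mul] at h2
    have hl : 0 < Real.log y := Real.log_pos h3
    rw [div_le_iff₀ (by positivity)]
    rw [one_mul]
    linarith

end PGL
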