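import Pool.Agent.Helper6.PNT

/-! PGL / C2: the numbers `r ≤ C y` with a large prime factor and `r + 1` free of small primes.

PROOF. `r = m q`, `q > y / 2` prime, `m ≤ 2 C`. For fixed `m` and `z` let `P' = ∏_{3 ≤ p ≤ z} p`. The condition
`p ∤ m q + 1` for all `3 ≤ p ≤ z` and `q` prime `> z` mean that `q mod P'` is in the set of the classes `a`, `a ≢ 0`,
`m a ≢ -1` for all `p ∣ P'`; their number is `∏_{p ∤ m} (p - 2) ∏_{p ∣ m} (p - 1) = φ(P') θ_m(z)`,
`θ_m(z) = ∏_{3 ≤ p ≤ z, p ∤ m} (1 - 1 / (p - 1)) → 0` as `z → ∞` (`Nat.Primes.not_summable_one_div`;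
`1 - x ≤ exp (-x)`). By the prime number theorem for these classes (`pi_ap_real`, finitely many) the number of
`q ≤ C y / m` is at most `θ_m(z) (C y / m) / log y (1 + o(1))`. Sum over the `m ≤ 2 C`: choose `z` such that
`∑_{m ≤ 2C} C θ_m(z) / m ≤ η / 2`. (The number of classes: count by the Chinese remainder theorem, or avoid the exact
count: it suffices that the proportion of the allowed classes among the reduced classes tends to `0` as `z → ∞`.) -/

set_option autoImplicit false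

open Finset

noncomputable section

namespace PGL

/-- the primes between `K + 3` and `z` -/
private def Ip (K z : ℕ) : Finset ℕ := (range (z + 1)).filter (fun p => p.Prime ∧ K + 3 ≤ p)

private theorem mem_Ip {K z p : ℕ} : p ∈ Ip K z ↔ p ≤ z ∧ p.Prime ∧ K + 3 ≤ p := by
  unfold Ip
  rw [mem_filter, mem_range]
  constructor
  · rintro ⟨h1, h2, h3⟩
    exact ⟨by omega, h2, h3⟩
  · rintro ⟨h1, h2, h3⟩
    exact ⟨by omega, h2, h3⟩

private theorem sum_Ip (K : ℕ) (B : ℝ) : ∃ z : ℕ, 3 ≤ z ∧ B ≤ ∑ p ∈ Ip K z, 1 / (p : ℝ) := by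
  have h1 := not_summable_one_div_on_primes
  rw [not_summable_iff_tendsto_nat_atTop_of_nonneg] at h1
  · obtain ⟨z, hz1, hz2⟩ := ((h1.eventually_ge_atTop (B +
      ∑ i ∈ range (K + 3), Set.indicator {p | Nat.Prime p} (fun n : ℕ => 1 / (n : ℝ)) i)).and
      (Filter.eventually_ge_atTop (K + 10))).exists
    refine ⟨z, by omega, ?_⟩
    have h2 : ∑ i ∈ range z, Set.indicator {p | Nat.Prime p} (fun n : ℕ => 1 / (n : ℝ)) i ≤
        ∑ i ∈ range (K + 3), Set.indicator {p | Nat.Prime p} (fun n : ℕ => 1 / (n : ℝ)) i +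
          ∑ p ∈ Ip K z, 1 / (p : ℝ) := by
      have h3 : ∑ p ∈ Ip K z, 1 / (p : ℝ) =
          ∑ p ∈ Ip K z, Set.indicator {p | Nat.Prime p} (fun n : ℕ => 1 / (n : ℝ)) p := by
        refine sum_congr rfl fun p hp => ?_
        rw [Set.indicator_of_mem]
        exact (mem_Ip.1 hp).2.1
      have hdis : Disjoint (range (K + 3)) (Ip K z) := by
        rw [Finset.disjoint_left]
        intro p hp hp2
        rw [mem_range] at hp
        have := (mem_Ip.1 hp2).2.2
        omega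
      rw [h3, ← Finset.sum_union hdis]
      have h4 : ∑ i ∈ (range z).filter (fun p => p ∈ range (K + 3) ∪ Ip K z),
          Set.indicator {p | Nat.Prime p} (fun n : ℕ => 1 / (n : ℝ)) i =
          ∑ i ∈ range z, Set.indicator {p | Nat.Prime p} (fun n : ℕ => 1 / (n : ℝ)) i := by
        refine Finset.sum_filter_of_ne ?_
        intro p hp hne
        have hpp : p.Prime := by
          by_contra hcon
          exact hne (Set.indicator_of_notMem (by exact hcon) _)
        rw [mem_range] at hp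
        rw [mem_union, mem_range, mem_Ip]
        by_cases h5 : p < K + 3
        · exact Or.inl h5
        · exact Or.inr ⟨by omega, hpp, by omega⟩
      rw [← h4]
      refine Finset.sum_le_sum_of_subset_of_nonneg ?_ ?_
      · intro p hp
        exact (mem_filter.1 hp).2
      · intro p _ _
        exact Set.indicator_nonneg (fun n _ => by positivity) p
    linarith
  · intro n
    exact Set.indicator_nonneg (fun n _ => by positivity) n

private theorem theta_small (K : ℕ) {δ : ℝ} (hδ : 0 < δ) : ∃ z : ℕ, 3 ≤ z ∧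
    ∏ p ∈ Ip K z, (((p : ℝ) - 2) / ((p : ℝ) - 1)) ≤ δ := by
  obtain ⟨z, hz, hs⟩ := sum_Ip K (-Real.log δ)
  refine ⟨z, hz, ?_⟩
  have h1 : ∏ p ∈ Ip K z, (((p : ℝ) - 2) / ((p : ℝ) - 1)) ≤
      ∏ p ∈ Ip K z, Real.exp (-(1 / (p : ℝ))) := by
    refine Finset.prod_le_prod ?_ ?_
    · intro p hp
      have hp3 : (3 : ℝ) ≤ p := by
        have := (mem_Ip.1 hp).2.2
        exact_mod_cast (by omega : 3 ≤ p)
      exact div_nonneg (by linarith) (by linarith)
    · intro p hp
      have hp3 : (3 : ℝ) ≤ p := by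
        have := (mem_Ip.1 hp).2.2
        exact_mod_cast (by omega : 3 ≤ p)
      have h2 : ((p : ℝ) - 2) / ((p : ℝ) - 1) ≤ 1 - 1 / (p : ℝ) := by
        rw [div_le_iff₀ (by linarith)]
        have h3 : (1 - 1 / (p : ℝ)) * ((p : ℝ) - 1) = (p : ℝ) - 2 + 1 / (p : ℝ) := by
          field_simp
          ring
        rw [h3]
        have : 0 ≤ 1 / (p : ℝ) := by positivity
        linarith
      have h4 := Real.add_one_le_exp (-(1 / (p : ℝ)))
      linarith
  rw [← Real.exp_sum, Finset.sum_neg_distrib] at h1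
  refine h1.trans ?_
  rw [← Real.log_le_log_iff (Real.exp_pos _) hδ, Real.log_exp]
  linarith

section crt

variable (K z : ℕ)

private instance fact_prime (i : {p // p ∈ Ip K z}) : Fact (Nat.Prime i.1) :=
  ⟨(mem_Ip.1 i.2).2.1⟩

/-- the modulus -/
private def Pm : ℕ := ∏ i : {p // p ∈ Ip K z}, i.1

private instance ne_Pm : NeZero (Pm K z) :=
  ⟨Finset.prod_ne_zero_iff.2 fun i _ => (mem_Ip.1 i.2).2.1.ne_zero⟩

private theorem cop : Pairwise (Nat.Coprime.onFun fun i : {p // p ∈ Ip K z} => i.1) := by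
  intro i j hij
  exact (Nat.coprime_primes (mem_Ip.1 i.2).2.1 (mem_Ip.1 j.2).2.1).2 fun h => hij (Subtype.ext h)

/-- the Chinese remainder isomorphism -/
private def ph : ZMod (Pm K z) ≃+* ∀ i : {p // p ∈ Ip K z}, ZMod i.1 :=
  ZMod.prodEquivPi (fun i : {p // p ∈ Ip K z} => i.1) (cop K z)

open Classical in
/-- the allowed classes -/
private def Tm (m : ℕ) : Finset (ZMod (Pm K z)) :=
  univ.filter fun x => ∀ i, ph K z x i ≠ 0 ∧ (m : ZMod i.1) * ph K z x i + 1 ≠ 0

private theorem card_Tm {m : ℕ} (hm1 : 1 ≤ m) (hmK : m ≤ K) :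
    ((Tm K z m).card : ℝ) ≤ ∏ p ∈ Ip K z, ((p : ℝ) - 2) := by
  classical
  have h1 : (Tm K z m).card ≤ (Fintype.piFinset fun i : {p // p ∈ Ip K z} =>
      (univ \ {0, -(m : ZMod i.1)⁻¹} : Finset (ZMod i.1))).card := by
    refine Finset.card_le_card_of_injOn (ph K z) ?_ (ph K z).injective.injOn
    intro x hx
    rw [Finset.mem_coe, Tm, mem_filter] at hx
    rw [Finset.mem_coe, Fintype.mem_piFinset]
    intro i
    obtain ⟨h2, h3⟩ := hx.2 i
    have hm0 : (m : ZMod i.1) ≠ 0 := by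
      intro h
      rw [ZMod.natCast_eq_zero_iff] at h
      have h4 := Nat.le_of_dvd (by omega) h
      have h5 := (mem_Ip.1 i.2).2.2
      omega
    rw [mem_sdiff, mem_insert, mem_singleton, not_or]
    refine ⟨mem_univ _, h2, ?_⟩
    intro h4
    apply h3
    rw [h4, mul_neg, mul_inv_cancel₀ hm0]
    ring
  have h2 : (Fintype.piFinset fun i : {p // p ∈ Ip K z} =>
      (univ \ {0, -(m : ZMod i.1)⁻¹} : Finset (ZMod i.1))).card =
      ∏ i : {p // p ∈ Ip K z}, (i.1 - 2) := by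
    rw [Fintype.card_piFinset]
    refine Finset.prod_congr rfl fun i _ => ?_
    have hm0 : (m : ZMod i.1) ≠ 0 := by
      intro h
      rw [ZMod.natCast_eq_zero_iff] at h
      have h4 := Nat.le_of_dvd (by omega) h
      have h5 := (mem_Ip.1 i.2).2.2
      omega
    rw [Finset.card_sdiff_of_subset (subset_univ _), Finset.card_pair, card_univ, ZMod.card]
    intro h
    have h6 : (m : ZMod i.1)⁻¹ = 0 := by
      rw [← neg_eq_zero]
      exact h.symm
    exact inv_ne_zero hm0 h6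
  have h3 : ((∏ i : {p // p ∈ Ip K z}, (i.1 - 2) : ℕ) : ℝ) = ∏ p ∈ Ip K z, ((p : ℝ) - 2) := by
    rw [← Finset.prod_coe_sort (Ip K z) (fun p => ((p : ℝ) - 2)), Nat.cast_prod]
    refine Finset.prod_congr rfl fun i _ => ?_
    have h5 := (mem_Ip.1 i.2).2.2
    rw [Nat.cast_sub (by omega)]
    norm_num
  rw [← h3]
  exact_mod_cast h1.trans_eq h2

private theorem totient_Pm : ((Pm K z).totient : ℝ) = ∏ p ∈ Ip K z, ((p : ℝ) - 1) := by
  classical
  have h1 : (Pm K z).totient = ∏ i : {p // p ∈ Ip K z}, (i.1 - 1) := by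
    rw [← ZMod.card_units_eq_totient]
    rw [Fintype.card_congr ((Units.mapEquiv (ph K z).toMulEquiv).toEquiv.trans
      (MulEquiv.piUnits (M := fun i : {p // p ∈ Ip K z} => ZMod i.1)).toEquiv), Fintype.card_pi]
    refine Finset.prod_congr rfl fun i _ => ?_
    rw [ZMod.card_units_eq_totient, Nat.totient_prime (mem_Ip.1 i.2).2.1]
  rw [h1, ← Finset.prod_coe_sort (Ip K z) (fun p => ((p : ℝ) - 1)), Nat.cast_prod]
  refine Finset.prod_congr rfl fun i _ => ?_
  have h5 := (mem_Ip.1 i.2).2.2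
  rw [Nat.cast_sub (by omega)]
  norm_num

private theorem unit_of_Tm {m : ℕ} {a : ZMod (Pm K z)} (ha : a ∈ Tm K z m) : IsUnit a := by
  classical
  rw [Tm, mem_filter] at ha
  have h1 : IsUnit (ph K z a) := by
    rw [Pi.isUnit_iff]
    intro i
    exact isUnit_iff_ne_zero.2 (ha.2 i).1
  have h2 := h1.map (ph K z).symm
  rwa [RingEquiv.symm_apply_apply] at h2

private theorem mem_Tm {m q : ℕ} (hq : q.Prime) (hqz : z < q)
    (hm : ∀ p : ℕ, p.Prime → 3 ≤ p → p ≤ z → ¬ p ∣ m * q + 1) :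
    (q : ZMod (Pm K z)) ∈ Tm K z m := by
  classical
  rw [Tm, mem_filter]
  refine ⟨mem_univ _, ?_⟩
  intro i
  have h1 : ph K z (q : ZMod (Pm K z)) i = (q : ZMod i.1) := by
    rw [map_natCast, Pi.natCast_apply]
  obtain ⟨h2, h3, h4⟩ := mem_Ip.1 i.2
  rw [h1]
  constructor
  · intro h
    rw [ZMod.natCast_eq_zero_iff] at h
    have h5 := (Nat.prime_dvd_prime_iff_eq h3 hq).1 h
    omega
  · intro h
    apply hm i.1 h3 (by omega) h2
    rw [← ZMod.natCast_eq_zero_iff]
    push_cast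
    exact h

end crt

private theorem count_ev (P : ℕ) [NeZero P] (C : ℝ) (hC : 0 < C) : ∃ y₀ : ℝ, 2 ≤ y₀ ∧
    ∀ y : ℝ, y₀ ≤ y → ∀ a : ZMod P, IsUnit a →
      ((((Icc 1 ⌊C * y⌋₊).filter (fun p : ℕ => p.Prime ∧ (p : ZMod P) = a)).card : ℝ)) ≤
        4 * C / P.totient * (y / Real.log y) := by
  classical
  have h1 : ∀ a ∈ (univ : Finset (ZMod P)).filter (fun a => IsUnit a), ∀ᶠ x : ℝ in Filter.atTop,
      ((((Icc 1 ⌊x⌋₊).filter (fun p : ℕ => p.Prime ∧ (p : ZMod P) = a)).card : ℝ) * Real.log x)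
        / x < 2 / P.totient := by
    intro a ha
    have hφ : (0 : ℝ) < P.totient := by
      exact_mod_cast Nat.totient_pos.2 (Nat.pos_of_ne_zero (NeZero.ne P))
    refine (Pool.Agent.Helper6.pi_ap_real (mem_filter.1 ha).2).eventually_lt_const ?_
    exact div_lt_div_of_pos_right (by norm_num) hφ
  rw [← Filter.eventually_all_finset] at h1
  have h2 : Filter.Tendsto (fun y : ℝ => C * y) Filter.atTop Filter.atTop :=
    Filter.tendsto_id.const_mul_atTop hC
  obtain ⟨y₁, hy₁⟩ := Filter.eventually_atTop.1 (h2.eventually h1)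
  refine ⟨max (max y₁ 2) (1 / C ^ 2), (le_max_right _ _).trans (le_max_left _ _), ?_⟩
  intro y hy a ha
  have hyy1 : y₁ ≤ y := (le_max_left _ _).trans ((le_max_left _ _).trans hy)
  have hy2 : 2 ≤ y := (le_max_right _ _).trans ((le_max_left _ _).trans hy)
  have hyC : 1 / C ^ 2 ≤ y := (le_max_right _ _).trans hy
  have hy0 : 0 < y := by linarith
  have hlog : 0 < Real.log y := Real.log_pos (by linarith)
  have hφ : (0 : ℝ) < P.totient := by
    exact_mod_cast Nat.totient_pos.2 (Nat.pos_of_ne_zero (NeZero.ne P))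
  have h3 := hy₁ y hyy1 a (mem_filter.2 ⟨mem_univ _, ha⟩)
  have hCy : 0 < C * y := by positivity
  rw [div_lt_iff₀ hCy] at h3
  have hlog2 : Real.log y / 2 ≤ Real.log (C * y) := by
    have h4 : y ≤ (C * y) ^ 2 := by
      rw [div_le_iff₀ (by positivity)] at hyC
      have h5 : y * 1 ≤ y * (y * C ^ 2) := mul_le_mul_of_nonneg_left hyC hy0.le
      calc y = y * 1 := by ring
        _ ≤ y * (y * C ^ 2) := h5
        _ = (C * y) ^ 2 := by ring
    have h6 := Real.log_le_log hy0 h4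
    rw [Real.log_pow] at h6
    push_cast at h6
    linarith
  have h7 : ((((Icc 1 ⌊C * y⌋₊).filter (fun p : ℕ => p.Prime ∧ (p : ZMod P) = a)).card : ℝ)) *
      (Real.log y / 2) ≤ 2 / P.totient * (C * y) :=
    (mul_le_mul_of_nonneg_left hlog2 (Nat.cast_nonneg _)).trans h3.le
  have h8 : 4 * C / P.totient * (y / Real.log y) =
      2 / P.totient * (C * y) / (Real.log y / 2) := by
    field_simp
    norm_num
  rw [h8, le_div_iff₀ (by positivity)]
  exact h7

theorem large_factor (C η : ℝ) (hC : 0 < C) (hη : 0 < η) : ∃ z : ℕ, 3 ≤ z ∧ ∃ y₀ : ℝ, ∀ y : ℝ, y₀ ≤ y →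
    ∀ S : Finset ℕ, (∀ r ∈ S, 1 ≤ r ∧ (r : ℝ) ≤ C * y ∧ (∃ q : ℕ, q.Prime ∧ y / 2 < q ∧ q ∣ r) ∧
      ∀ p : ℕ, p.Prime → 3 ≤ p → p ≤ z → ¬ p ∣ r + 1) →
    (S.card : ℝ) ≤ η * y / Real.log y := by
  classical
  obtain ⟨K, hK⟩ : ∃ K : ℕ, K = ⌊2 * C⌋₊ := ⟨_, rfl⟩
  obtain ⟨δ, hδd⟩ : ∃ δ : ℝ, δ = η / (4 * C * (K + 1)) := ⟨_, rfl⟩
  have hδ : 0 < δ := by
    rw [hδd]
    positivity
  obtain ⟨z, hz3, hθ⟩ := theta_small K hδ
  obtain ⟨y₁, hy₁2, hy₁⟩ := count_ev (Pm K z) C hC
  refine ⟨z, hz3, max y₁ (2 * z), ?_⟩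
  intro y hy S hS
  have hyy1 : y₁ ≤ y := (le_max_left _ _).trans hy
  have hy2 : 2 ≤ y := hy₁2.trans hyy1
  have hyz : 2 * (z : ℝ) ≤ y := (le_max_right _ _).trans hy
  have hy0 : 0 < y := by linarith
  have hlog : 0 < Real.log y := Real.log_pos (by linarith)
  have hφ : (0 : ℝ) < (Pm K z).totient := by
    exact_mod_cast Nat.totient_pos.2 (Nat.pos_of_ne_zero (NeZero.ne (Pm K z)))
  have hcov : S ⊆ (Icc 1 K).biUnion fun m => (Tm K z m).biUnion fun a =>
      ((Icc 1 ⌊C * y⌋₊).filter (fun p : ℕ => p.Prime ∧ (p : ZMod (Pm K z)) = a)).image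
        (fun q => m * q) := by
    intro r hr
    obtain ⟨hr1, hr2, ⟨q, hq, hyq, m, hm⟩, hfree⟩ := hS r hr
    have hq0 : (0 : ℝ) < q := by linarith
    have hm0 : 1 ≤ m := by
      rcases Nat.eq_zero_or_pos m with h | h
      · rw [h] at hm
        omega
      · exact h
    have hm1 : (1 : ℝ) ≤ m := by exact_mod_cast hm0
    have hrr : (r : ℝ) = q * m := by
      rw [hm]
      push_cast
      ring
    have hmK : m ≤ K := by
      rw [hK]
      apply Nat.le_floor
      rw [hrr] at hr2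
      by_contra hcon
      rw [not_le] at hcon
      have h1 : y / 2 * (2 * C) < q * m := by
        have h2 : y / 2 * (2 * C) < q * (2 * C) := mul_lt_mul_of_pos_right hyq (by positivity)
        have h3 : (q : ℝ) * (2 * C) < q * m := mul_lt_mul_of_pos_left hcon hq0
        linarith
      nlinarith
    have hqC : (q : ℝ) ≤ C * y := by
      have h1 : (q : ℝ) * 1 ≤ q * m := mul_le_mul_of_nonneg_left hm1 hq0.le
      linarith
    rw [mem_biUnion]
    refine ⟨m, mem_Icc.2 ⟨hm0, hmK⟩, ?_⟩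
    rw [mem_biUnion]
    have hzq : z < q := by
      have : (z : ℝ) < q := by linarith
      exact_mod_cast this
    refine ⟨(q : ZMod (Pm K z)), mem_Tm K z hq hzq ?_, ?_⟩
    · intro p hp h3 hpz
      have := hfree p hp h3 hpz
      rwa [hm, mul_comm q m] at this
    · rw [mem_image]
      refine ⟨q, mem_filter.2 ⟨mem_Icc.2 ⟨hq.one_le, Nat.le_floor hqC⟩, hq, rfl⟩, ?_⟩
      rw [hm, mul_comm]
  have hcard : (S.card : ℝ) ≤ ∑ m ∈ Icc 1 K, ∑ a ∈ Tm K z m,
      4 * C / (Pm K z).totient * (y / Real.log y) := by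
    have h1 : S.card ≤ ∑ m ∈ Icc 1 K, ∑ a ∈ Tm K z m,
        ((Icc 1 ⌊C * y⌋₊).filter (fun p : ℕ => p.Prime ∧ (p : ZMod (Pm K z)) = a)).card := by
      refine (card_le_card hcov).trans (card_biUnion_le.trans (sum_le_sum fun m _ => ?_))
      exact card_biUnion_le.trans (sum_le_sum fun a _ => card_image_le)
    have h2 : (S.card : ℝ) ≤ ∑ m ∈ Icc 1 K, ∑ a ∈ Tm K z m,
        ((((Icc 1 ⌊C * y⌋₊).filter
          (fun p : ℕ => p.Prime ∧ (p : ZMod (Pm K z)) = a)).card : ℕ) : ℝ) := by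
      exact_mod_cast h1
    refine h2.trans (sum_le_sum fun m _ => sum_le_sum fun a ha => ?_)
    exact hy₁ y hyy1 a (unit_of_Tm K z ha)
  have hprod : 0 < ∏ p ∈ Ip K z, ((p : ℝ) - 1) := by
    rw [← totient_Pm]
    exact hφ
  have hT : ∀ m ∈ Icc 1 K, ((Tm K z m).card : ℝ) ≤ δ * (Pm K z).totient := by
    intro m hm
    obtain ⟨h1, h2⟩ := mem_Icc.1 hm
    refine (card_Tm K z h1 h2).trans ?_
    rw [totient_Pm, ← div_le_iff₀ hprod, ← Finset.prod_div_distrib]
    exact hθ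
  refine hcard.trans ?_
  have h5 : ∑ m ∈ Icc 1 K, ∑ a ∈ Tm K z m, 4 * C / (Pm K z).totient * (y / Real.log y) ≤
      ∑ m ∈ Icc 1 K, 4 * C * δ * (y / Real.log y) := by
    refine sum_le_sum fun m hm => ?_
    rw [sum_const, nsmul_eq_mul]
    have h6 : 0 ≤ 4 * C / (Pm K z).totient * (y / Real.log y) := by positivity
    refine (mul_le_mul_of_nonneg_right (hT m hm) h6).trans_eq ?_
    field_simp
  refine h5.trans ?_
  rw [sum_const, nsmul_eq_mul, Nat.card_Icc, hδd]
  have h7 : ((K + 1 - 1 : ℕ) : ℝ) ≤ K + 1 := by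
    rw [Nat.add_sub_cancel]
    linarith
  have h8 : 0 ≤ 4 * C * (η / (4 * C * (K + 1))) * (y / Real.log y) := by positivity
  refine (mul_le_mul_of_nonneg_right h7 h8).trans_eq ?_
  have hK1 : (0 : ℝ) < (K : ℝ) + 1 := by positivity
  field_simp

end PGL
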