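import Mathlib

/-! PGL / C3: smooth numbers, multiples of sparse primes, and a greedy choice.

PROOFS. `smooth_few`: `r` is determined by its exponents at the primes `≤ z` and at `p₀`, all of them
`≤ log₂ (C y)`: at most `(log₂ (C y) + 1)^(z + 2)` numbers. `mult_few`: the number of multiples `≤ U` of `p` is `≤ U / p`.
`greedy`: induction on `R`: when `r` is added, the primes already used and the forbidden ones are fewer than `Q.card`.
`crt_prod`: Chinese remainder theorem for the distinct primes dividing the product (`Nat.chineseRemainderOfFinset` or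
induction on the set). -/

set_option autoImplicit false

open Finset

noncomputable section

namespace PGL

private theorem fac_le {r p n : ℕ} (hr : 1 ≤ r) (hn : r ≤ n) : r.factorization p ≤ Nat.log 2 n := by
  by_cases hp : p.Prime
  · have h1 : p ^ r.factorization p ≤ r := Nat.le_of_dvd hr (Nat.ordProj_dvd r p)
    have h2 : 2 ^ r.factorization p ≤ n :=
      ((Nat.pow_le_pow_left hp.two_le _).trans h1).trans hn
    exact Nat.le_log_of_pow_le one_lt_two h2
  · rw [Nat.factorization_eq_zero_of_not_prime _ hp]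
    exact Nat.zero_le _

private theorem smooth_card (n z p₀ : ℕ) (S : Finset ℕ)
    (hS : ∀ r ∈ S, 1 ≤ r ∧ r ≤ n ∧ ∀ p : ℕ, p.Prime → p ∣ r → p ≤ z ∨ p = p₀) :
    S.card ≤ (Nat.log 2 n + 1) ^ (z + 2) := by
  classical
  set T : Finset ℕ := insert p₀ (range (z + 1)) with hT
  have hTc : T.card ≤ z + 2 := by
    refine (Finset.card_insert_le _ _).trans ?_
    rw [card_range]
  have h1 : (Fintype.piFinset fun _ : T => range (Nat.log 2 n + 1)).card =
      (Nat.log 2 n + 1) ^ T.card := by
    rw [Fintype.card_piFinset]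
    simp
  have h2 : S.card ≤ (Fintype.piFinset fun _ : T => range (Nat.log 2 n + 1)).card := by
    refine Finset.card_le_card_of_injOn (fun r => fun p : T => r.factorization (p : ℕ)) ?_ ?_
    · intro r hr
      rw [mem_coe] at hr
      rw [mem_coe, Fintype.mem_piFinset]
      intro p
      rw [mem_range]
      exact Nat.lt_succ_of_le (fac_le (hS r hr).1 (hS r hr).2.1)
    · intro r hr s hs h
      rw [mem_coe] at hr hs
      have hr0 : r ≠ 0 := by
        have := (hS r hr).1
        omega
      have hs0 : s ≠ 0 := by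
        have := (hS s hs).1
        omega
      refine Nat.eq_of_factorization_eq hr0 hs0 fun p => ?_
      by_cases hp : p ∈ T
      · exact congrFun h ⟨p, hp⟩
      · have hz : ∀ t ∈ S, t.factorization p = 0 := by
          intro t ht
          by_cases hpp : p.Prime
          · refine Nat.factorization_eq_zero_of_not_dvd fun hd => hp ?_
            rw [hT, mem_insert, mem_range]
            rcases (hS t ht).2.2 p hpp hd with h3 | h3
            · right
              omega
            · exact Or.inl h3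
          · exact Nat.factorization_eq_zero_of_not_prime _ hpp
        rw [hz r hr, hz s hs]
  rw [h1] at h2
  exact h2.trans (Nat.pow_le_pow_right (Nat.succ_pos _) hTc)

theorem smooth_few (C η : ℝ) (z : ℕ) (hC : 0 < C) (hη : 0 < η) : ∃ y₀ : ℝ, ∀ y : ℝ, y₀ ≤ y → ∀ p₀ : ℕ,
    ∀ S : Finset ℕ, (∀ r ∈ S, 1 ≤ r ∧ (r : ℝ) ≤ C * y ∧ ∀ p : ℕ, p.Prime → p ∣ r → p ≤ z ∨ p = p₀) →
    (S.card : ℝ) ≤ η * y / Real.log y := by
  have h5 : (0 : ℝ) < 5 ^ (z + 2) := by positivity
  have hlo := (Asymptotics.isLittleO_iff.1 (Real.isLittleO_pow_log_id_atTop (n := z + 3)))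
    (div_pos hη h5)
  obtain ⟨y₁, hy₁⟩ := Filter.eventually_atTop.1 hlo
  refine ⟨max y₁ (max (Real.exp 1) (max C (1 / C))), fun y hy p₀ S hS => ?_⟩
  have hy1 : y₁ ≤ y := (le_max_left _ _).trans hy
  have hy2 : Real.exp 1 ≤ y := (le_max_left _ _).trans ((le_max_right _ _).trans hy)
  have hy3 : C ≤ y := (le_max_left _ _).trans ((le_max_right _ _).trans ((le_max_right _ _).trans hy))
  have hy4 : 1 / C ≤ y :=
    (le_max_right _ _).trans ((le_max_right _ _).trans ((le_max_right _ _).trans hy))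
  have hy0 : 0 < y := (Real.exp_pos 1).trans_le hy2
  have hlog : 1 ≤ Real.log y := by
    rw [Real.le_log_iff_exp_le hy0]
    exact hy2
  have hCy : 1 ≤ C * y := by
    rw [div_le_iff₀ hC] at hy4
    linarith
  set n := ⌊C * y⌋₊ with hn
  have hn1 : 1 ≤ n := Nat.le_floor (by exact_mod_cast hCy)
  have h1 : S.card ≤ (Nat.log 2 n + 1) ^ (z + 2) :=
    smooth_card n z p₀ S fun r hr => ⟨(hS r hr).1, Nat.le_floor (hS r hr).2.1, (hS r hr).2.2⟩
  have h2 : ((Nat.log 2 n : ℕ) : ℝ) ≤ 4 * Real.log y := by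
    have e1 : ((2 : ℕ) ^ Nat.log 2 n : ℕ) ≤ n := Nat.pow_log_le_self 2 (by omega)
    have e2 : (2 : ℝ) ^ Nat.log 2 n ≤ C * y := by
      have e3 : ((2 ^ Nat.log 2 n : ℕ) : ℝ) ≤ (n : ℝ) := by exact_mod_cast e1
      rw [Nat.cast_pow, Nat.cast_ofNat] at e3
      exact e3.trans (Nat.floor_le (by positivity))
    have e4 : (Nat.log 2 n : ℝ) * Real.log 2 ≤ Real.log (C * y) := by
      rw [← Real.log_pow]
      exact Real.log_le_log (by positivity) e2
    have e5 : Real.log (C * y) ≤ 2 * Real.log y := by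
      rw [Real.log_mul hC.ne' hy0.ne']
      have := Real.log_le_log hC hy3
      linarith
    have e6 : (1 / 2 : ℝ) < Real.log 2 := by
      have := Real.log_two_gt_d9
      linarith
    have e7 : (0 : ℝ) ≤ (Nat.log 2 n : ℝ) := Nat.cast_nonneg _
    nlinarith
  have h3 : (S.card : ℝ) ≤ (5 * Real.log y) ^ (z + 2) := by
    have e1 : (S.card : ℝ) ≤ ((Nat.log 2 n : ℝ) + 1) ^ (z + 2) := by exact_mod_cast h1
    refine e1.trans (pow_le_pow_left₀ (by positivity) ?_ _)
    linarith
  have h4 := hy₁ y hy1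
  rw [Real.norm_eq_abs, abs_of_nonneg (by positivity), Real.norm_eq_abs, id, abs_of_pos hy0] at h4
  rw [le_div_iff₀ (by linarith)]
  calc (S.card : ℝ) * Real.log y ≤ (5 * Real.log y) ^ (z + 2) * Real.log y :=
        mul_le_mul_of_nonneg_right h3 (by linarith)
    _ = 5 ^ (z + 2) * Real.log y ^ (z + 3) := by
        rw [mul_pow]
        ring
    _ ≤ 5 ^ (z + 2) * (η / 5 ^ (z + 2) * y) := mul_le_mul_of_nonneg_left h4 h5.le
    _ = η * y := by
        field_simp

theorem mult_few (U : ℝ) (hU : 0 ≤ U) (D S : Finset ℕ) (hD : ∀ p ∈ D, 0 < p)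
    (hS : ∀ r ∈ S, 1 ≤ r ∧ (r : ℝ) ≤ U ∧ ∃ p ∈ D, p ∣ r) : (S.card : ℝ) ≤ U * ∑ p ∈ D, (1 : ℝ) / p := by
  have h1 : S ⊆ D.biUnion fun p => S.filter fun r => p ∣ r := by
    intro r hr
    obtain ⟨-, -, p, hp, hd⟩ := hS r hr
    rw [mem_biUnion]
    exact ⟨p, hp, mem_filter.2 ⟨hr, hd⟩⟩
  have h2 : ∀ p ∈ D, ((S.filter fun r => p ∣ r).card : ℝ) ≤ U * (1 / p) := by
    intro p hp
    have hp0 := hD p hp
    have hp0' : (0 : ℝ) < p := by exact_mod_cast hp0
    have h3 : (S.filter fun r => p ∣ r).card ≤ (Finset.Icc 1 ⌊U / p⌋₊).card := by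
      refine Finset.card_le_card_of_injOn (fun r => r / p) ?_ ?_
      · intro r hr
        rw [mem_coe, mem_filter] at hr
        obtain ⟨hr, k, rfl⟩ := hr
        obtain ⟨a1, a2, -⟩ := hS _ hr
        rw [mem_coe, Finset.mem_Icc]
        show 1 ≤ p * k / p ∧ p * k / p ≤ _
        rw [Nat.mul_div_cancel_left _ hp0]
        refine ⟨?_, Nat.le_floor ?_⟩
        · rcases Nat.eq_zero_or_pos k with hk | hk
          · rw [hk, mul_zero] at a1
            omega
          · exact hk
        · rw [le_div_iff₀ hp0']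
          rw [Nat.cast_mul] at a2
          linarith
      · intro r hr s hs h
        rw [mem_coe, mem_filter] at hr hs
        have h4 : r / p = s / p := h
        rw [← Nat.div_mul_cancel hr.2, ← Nat.div_mul_cancel hs.2, h4]
    rw [Nat.card_Icc, Nat.add_sub_cancel] at h3
    have h5 : ((S.filter fun r => p ∣ r).card : ℝ) ≤ (⌊U / p⌋₊ : ℝ) := by exact_mod_cast h3
    rw [mul_one_div]
    exact h5.trans (Nat.floor_le (by positivity))
  have h6 : (S.card : ℝ) ≤ ∑ p ∈ D, ((S.filter fun r => p ∣ r).card : ℝ) := by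
    have h7 := (Finset.card_le_card h1).trans Finset.card_biUnion_le
    exact_mod_cast h7
  rw [Finset.mul_sum]
  exact h6.trans (Finset.sum_le_sum h2)

theorem greedy (R Q : Finset ℕ) (F : ℕ → Finset ℕ) (f : ℕ) (hF : ∀ r ∈ R, (F r).card ≤ f)
    (h : R.card + f < Q.card) : ∃ g : ℕ → ℕ, Set.InjOn g R ∧ ∀ r ∈ R, g r ∈ Q ∧ g r ∉ F r := by
  classical
  induction R using Finset.induction_on with
  | empty => exact ⟨id, by simp, by simp⟩
  | insert r R hr ih =>
    rw [Finset.card_insert_of_notMem hr] at h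
    obtain ⟨g, hg1, hg2⟩ := ih (fun s hs => hF s (Finset.mem_insert_of_mem hs)) (by omega)
    have h1 : (R.image g ∪ F r).card < Q.card := by
      have e1 := Finset.card_union_le (R.image g) (F r)
      have e2 := Finset.card_image_le (s := R) (f := g)
      have e3 := hF r (Finset.mem_insert_self _ _)
      omega
    obtain ⟨q, hq, hq'⟩ := Finset.exists_mem_notMem_of_card_lt_card h1
    rw [Finset.mem_union, not_or] at hq'
    refine ⟨Function.update g r q, ?_, ?_⟩
    · have hne : ∀ s ∈ R, s ≠ r := fun s hs he => hr (he ▸ hs)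
      intro s hs t ht hst
      rw [mem_coe, Finset.mem_insert] at hs ht
      rcases hs with rfl | hs <;> rcases ht with rfl | ht
      · rfl
      · rw [Function.update_self, Function.update_of_ne (hne t ht)] at hst
        exact absurd (Finset.mem_image.2 ⟨t, ht, hst.symm⟩) hq'.1
      · rw [Function.update_self, Function.update_of_ne (hne s hs)] at hst
        exact absurd (Finset.mem_image.2 ⟨s, hs, hst⟩) hq'.1
      · rw [Function.update_of_ne (hne t ht), Function.update_of_ne (hne s hs)] at hst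
        exact hg1 hs ht hst
    · intro s hs
      rw [Finset.mem_insert] at hs
      rcases hs with rfl | hs
      · rw [Function.update_self]
        exact ⟨hq, hq'.2⟩
      · have hne : s ≠ r := fun he => hr (he ▸ hs)
        rw [Function.update_of_ne hne]
        exact hg2 s hs

theorem crt_prod (P : Finset ℕ) (hP : ∀ p ∈ P, p.Prime) (a : ℕ → ℤ) :
    ∃ b : ℕ, ∀ p ∈ P, (b : ℤ) ≡ a p [ZMOD p] := by
  obtain ⟨b, hb⟩ := Nat.chineseRemainderOfFinset (fun p => (a p % (p : ℤ)).toNat) (fun p => p) P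
    (fun p hp => (hP p hp).ne_zero)
    (fun p hp q hq hpq => (Nat.coprime_primes (hP p hp) (hP q hq)).2 hpq)
  refine ⟨b, fun p hp => ?_⟩
  have h1 := Int.natCast_modEq_iff.2 (hb p hp)
  have hp0 : (p : ℤ) ≠ 0 := by exact_mod_cast (hP p hp).ne_zero
  rw [Int.toNat_of_nonneg (Int.emod_nonneg _ hp0)] at h1
  exact h1.trans (Int.mod_modEq _ _)

end PGL
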