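import Pool.Agent.PGL.WD

/-! PGL / Opt: the choice of the weights.

PROOF. We may assume `e ≤ 1/4` (the statement for a smaller `e` implies it for a larger one) and `ρ ≤ 1`. Let
`L` be large (`L ≥ 2`), `M = 2^L`, `k = 5 M`, `A = 4 k L / (e ρ)`, `T_l = 2^l / A`, and for `l < L`: `b_l = T_l`,
`a_0 = -1`, `a_l = T_{l-1}` for `l ≥ 1`, `c_l = 2^(-l)`, `t_l = b_l - max a_l 0`, i.e. `t_0 = 1 / A`,
`t_l = 2^(l-1) / A`; `J` the set of all `j` with `∑ T(j i) ≤ ρ`. All `b_l ≤ 1`.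
`Z = ∑ c_l² t_l ∈ [1 / A, 3 / (2 A)]`, `m = ∑ c_l t_l = 1 / A + (L - 1) / (2 A) ≥ L / (2 A)`. So
`Z / (M m²) ≤ (3 / (2A)) (4 A² / L²) / M = 6 A / (L² M) = 6 · 4 · 5 M L / (e ρ L² M) = 120 / (e ρ L) ≤ e` for large `L`.
All terms of `JJ` are `≥ 0`; dropping the condition `∑ T ≤ ρ` gives the upper bounds `Z^k`, `Z^(k-1) m²`,
`Z^(k-2) m^4` (`Finset.prod_univ_sum`; choose `j` on the complement of `I` and `j, j'` on `I`). Lower bounds:
`1 - 1[∑ T(j_i) > ρ] ` and Markov `1[∑ T > ρ'] ≤ ∑ T / ρ'`: `Z^k - JJ ∅ ≤ (1 / ρ) ∑_i Z^(k-1) ∑_l c_l² t_l T_l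
≤ (k / ρ) Z^(k-1) L / A² ≤ Z^k k L / (ρ A) = Z^k e / 4` (`c_l² t_l T_l ≤ 1 / A²`, `Z ≥ 1 / A`). For `I = {i₀}`: the pairs
`(j, j')` with `∑_{i ≠ i₀} T(j_i) ≤ ρ - max T` are all allowed, `max T = 2^(L-1) / A ≤ ρ / 2`
(`2^(L-1) / A = M e ρ / (8 k L) ≤ ρ / 2`): `Z^(k-1) m² - JJ {i₀} ≤ m² (2 / ρ) (k - 1) Z^(k-2) L / A² ≤ Z^(k-1) m² e / 2`. -/

set_option autoImplicit false

open Finset

noncomputable section

namespace PGL

namespace OptAux

section gen

variable {ι : Type} [Fintype ι] [DecidableEq ι] {L : ℕ}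

/-- the factor of a pair of indices -/
def gg (c t : Fin L → ℝ) (I : Finset ι) (i : ι) (l l' : Fin L) : ℝ :=
  if i ∈ I then c l * t l * (c l' * t l') else if l' = l then c l ^ 2 * t l else 0

/-- the sum of `gg` over the second index -/
def GG (c t : Fin L → ℝ) (I : Finset ι) (i : ι) (l : Fin L) : ℝ :=
  if i ∈ I then c l * t l * ∑ l', c l' * t l' else c l ^ 2 * t l

/-- the factor of the total sum -/
def PP (c t : Fin L → ℝ) (I : Finset ι) (i : ι) : ℝ :=
  if i ∈ I then (∑ l, c l * t l) ^ 2 else ∑ l, c l ^ 2 * t l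

theorem sum_gg (c t : Fin L → ℝ) (I : Finset ι) (i : ι) (l : Fin L) :
    ∑ l', gg c t I i l l' = GG c t I i l := by
  unfold gg GG
  by_cases h : i ∈ I
  · simp [h, Finset.mul_sum]
  · simp [h]

theorem sum_GG (c t : Fin L → ℝ) (I : Finset ι) (i : ι) : ∑ l, GG c t I i l = PP c t I i := by
  unfold GG PP
  by_cases h : i ∈ I
  · simp only [h, if_true]
    rw [← Finset.sum_mul, sq]
  · simp [h]

theorem tot (F : ι → Fin L → ℝ) : ∑ j : ι → Fin L, ∏ i, F i (j i) = ∏ i, ∑ l, F i l := by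
  rw [Finset.prod_univ_sum, Fintype.piFinset_univ]

theorem gg_nonneg (c t : Fin L → ℝ) (hc : ∀ l, 0 ≤ c l) (ht : ∀ l, 0 ≤ t l) (I : Finset ι) (i : ι)
    (l l' : Fin L) : 0 ≤ gg c t I i l l' := by
  unfold gg
  split_ifs
  · exact mul_nonneg (mul_nonneg (hc _) (ht _)) (mul_nonneg (hc _) (ht _))
  · exact mul_nonneg (sq_nonneg _) (ht _)
  · exact le_rfl

theorem GG_nonneg (c t : Fin L → ℝ) (hc : ∀ l, 0 ≤ c l) (ht : ∀ l, 0 ≤ t l) (I : Finset ι) (i : ι)
    (l : Fin L) : 0 ≤ GG c t I i l := by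
  rw [← sum_gg]
  exact Finset.sum_nonneg fun l' _ => gg_nonneg c t hc ht I i l l'

theorem prod_gg (c t : Fin L → ℝ) (I : Finset ι) (j j' : ι → Fin L) :
    ∏ i, gg c t I i (j i) (j' i) = if (∀ i, i ∉ I → j' i = j i) then
      (∏ i, if i ∈ I then c (j i) * t (j i) * (c (j' i) * t (j' i)) else c (j i) ^ 2 * t (j i)) else 0 := by
  split_ifs with h
  · refine Finset.prod_congr rfl fun i _ => ?_
    unfold gg
    by_cases hi : i ∈ I
    · simp [hi]
    · simp [hi, h i hi]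
  · push Not at h
    obtain ⟨i, hi, hne⟩ := h
    refine Finset.prod_eq_zero (Finset.mem_univ i) ?_
    unfold gg
    simp [hi, hne]

theorem JJ_eq (J : Finset (ι → Fin L)) (c t : Fin L → ℝ) (I : Finset ι) :
    JJ J c t I = ∑ j, ∑ j', if j ∈ J ∧ j' ∈ J then ∏ i, gg c t I i (j i) (j' i) else 0 := by
  unfold JJ
  rw [← Finset.sum_subset (Finset.subset_univ J)]
  · refine Finset.sum_congr rfl fun j hj => ?_
    rw [Finset.sum_filter, ← Finset.sum_subset (Finset.subset_univ J)]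
    · refine Finset.sum_congr rfl fun j' hj' => ?_
      rw [prod_gg, if_pos (show j ∈ J ∧ j' ∈ J from ⟨hj, hj'⟩)]
    · intro j' _ hj'
      rw [if_neg fun h => hj' h.2]
  · intro j _ hj
    refine Finset.sum_eq_zero fun j' _ => ?_
    rw [if_neg fun h => hj h.1]

theorem sum_all (c t : Fin L → ℝ) (I : Finset ι) :
    ∑ j : ι → Fin L, ∑ j' : ι → Fin L, ∏ i, gg c t I i (j i) (j' i) = ∏ i, PP c t I i := by
  have h1 : ∀ j : ι → Fin L, ∑ j' : ι → Fin L, ∏ i, gg c t I i (j i) (j' i) = ∏ i, GG c t I i (j i) := by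
    intro j
    rw [tot fun i l' => gg c t I i (j i) l']
    exact Finset.prod_congr rfl fun i _ => sum_gg c t I i (j i)
  simp only [h1]
  rw [tot]
  exact Finset.prod_congr rfl fun i _ => sum_GG c t I i

theorem upper (J : Finset (ι → Fin L)) (c t : Fin L → ℝ) (hc : ∀ l, 0 ≤ c l) (ht : ∀ l, 0 ≤ t l)
    (I : Finset ι) : JJ J c t I ≤ ∏ i, PP c t I i := by
  rw [JJ_eq, ← sum_all]
  refine Finset.sum_le_sum fun j _ => Finset.sum_le_sum fun j' _ => ?_
  split_ifs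
  · exact le_rfl
  · exact Finset.prod_nonneg fun i _ => gg_nonneg c t hc ht I i _ _

/-- the sum with the additional factor `T (j i₁)` -/
theorem sum_T (c t T : Fin L → ℝ) (I : Finset ι) (i₁ : ι) (hi₁ : i₁ ∉ I) :
    (∑ j : ι → Fin L, T (j i₁) * ∏ i, GG c t I i (j i)) * (∑ l, c l ^ 2 * t l) =
      (∑ l, c l ^ 2 * t l * T l) * ∏ i, PP c t I i := by
  have h1 : ∀ j : ι → Fin L, T (j i₁) * ∏ i, GG c t I i (j i) =
      ∏ i, (if i = i₁ then T (j i) * GG c t I i (j i) else GG c t I i (j i)) := by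
    intro j
    rw [← Finset.mul_prod_erase univ (fun i => GG c t I i (j i)) (Finset.mem_univ i₁),
      ← Finset.mul_prod_erase univ (fun i => if i = i₁ then T (j i) * GG c t I i (j i) else GG c t I i (j i))
        (Finset.mem_univ i₁)]
    rw [if_pos rfl, ← mul_assoc]
    congr 1
    refine Finset.prod_congr rfl fun i hi => ?_
    rw [if_neg (Finset.ne_of_mem_erase hi)]
  simp only [h1]
  rw [tot (fun i l => if i = i₁ then T l * GG c t I i l else GG c t I i l)]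
  rw [← Finset.mul_prod_erase univ (fun i => ∑ l, (if i = i₁ then T l * GG c t I i l else GG c t I i l))
    (Finset.mem_univ i₁), ← Finset.mul_prod_erase univ (fun i => PP c t I i) (Finset.mem_univ i₁)]
  have h2 : ∏ i ∈ univ.erase i₁, (∑ l, (if i = i₁ then T l * GG c t I i l else GG c t I i l)) =
      ∏ i ∈ univ.erase i₁, PP c t I i := by
    refine Finset.prod_congr rfl fun i hi => ?_
    rw [← sum_GG]
    exact Finset.sum_congr rfl fun l _ => if_neg (Finset.ne_of_mem_erase hi)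
  rw [h2]
  have h3 : (∑ l, (if i₁ = i₁ then T l * GG c t I i₁ l else GG c t I i₁ l)) = ∑ l, c l ^ 2 * t l * T l := by
    refine Finset.sum_congr rfl fun l _ => ?_
    rw [if_pos rfl]
    unfold GG
    rw [if_neg hi₁, mul_comm]
  have h4 : PP c t I i₁ = ∑ l, c l ^ 2 * t l := by
    unfold PP
    rw [if_neg hi₁]
  rw [h3, h4]
  ring

/-- Markov -/
theorem markov (ρ : ℝ) (hρ : 0 < ρ) (T : Fin L → ℝ) (hT : ∀ l, 0 ≤ T l) (hT2 : ∀ l, T l ≤ ρ / 2) (I : Finset ι)
    (hI : I.card ≤ 1) (j : ι → Fin L) (h : ρ < ∑ i, T (j i)) : 1 ≤ (2 / ρ) * ∑ i ∈ univ \ I, T (j i) := by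
  have h1 : ∑ i, T (j i) = ∑ i ∈ univ \ I, T (j i) + ∑ i ∈ I, T (j i) :=
    (Finset.sum_sdiff (Finset.subset_univ I)).symm
  have h2 : ∑ i ∈ I, T (j i) ≤ ρ / 2 := by
    calc ∑ i ∈ I, T (j i) ≤ ∑ _i ∈ I, ρ / 2 := Finset.sum_le_sum fun i _ => hT2 _
      _ = I.card * (ρ / 2) := by simp
      _ ≤ 1 * (ρ / 2) := by
        refine mul_le_mul_of_nonneg_right ?_ (by positivity)
        exact_mod_cast hI
      _ = ρ / 2 := one_mul _
  have h3 : ρ / 2 ≤ ∑ i ∈ univ \ I, T (j i) := by linarith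
  calc (1 : ℝ) = (2 / ρ) * (ρ / 2) := by field_simp
    _ ≤ _ := mul_le_mul_of_nonneg_left h3 (by positivity)

theorem lower (ρ : ℝ) (hρ : 0 < ρ) (T : Fin L → ℝ) (hT : ∀ l, 0 ≤ T l) (hT2 : ∀ l, T l ≤ ρ / 2) (I : Finset ι)
    (hI : I.card ≤ 1) (c t : Fin L → ℝ) (hc : ∀ l, 0 ≤ c l) (ht : ∀ l, 0 ≤ t l)
    (hZ : 0 < ∑ l, c l ^ 2 * t l) :
    ∏ i, PP c t I i - JJ (univ.filter fun j : ι → Fin L => ∑ i, T (j i) ≤ ρ) c t I ≤
      (2 / ρ) * (Fintype.card ι * ((∑ l, c l ^ 2 * t l * T l) / (∑ l, c l ^ 2 * t l) * ∏ i, PP c t I i)) := by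
  set J := univ.filter fun j : ι → Fin L => ∑ i, T (j i) ≤ ρ with hJ
  have hmem : ∀ j, j ∉ J → ρ < ∑ i, T (j i) := by
    intro j hj
    by_contra hcon
    exact hj (by rw [hJ, Finset.mem_filter]; exact ⟨Finset.mem_univ _, not_lt.mp hcon⟩)
  rw [JJ_eq]
  conv_lhs => rw [← sum_all, ← Finset.sum_sub_distrib]
  have key : ∀ j j' : ι → Fin L, ∏ i, gg c t I i (j i) (j' i) -
      (if j ∈ J ∧ j' ∈ J then ∏ i, gg c t I i (j i) (j' i) else 0) ≤
      (2 / ρ) * ((∑ i ∈ univ \ I, T (j i)) * ∏ i, gg c t I i (j i) (j' i)) := by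
    intro j j'
    have hn : 0 ≤ ∏ i, gg c t I i (j i) (j' i) := Finset.prod_nonneg fun i _ => gg_nonneg c t hc ht I i _ _
    have hs : 0 ≤ ∑ i ∈ univ \ I, T (j i) := Finset.sum_nonneg fun i _ => hT _
    split_ifs with h
    · rw [sub_self]
      positivity
    · rw [sub_zero]
      by_cases hag : ∀ i, i ∉ I → j' i = j i
      · have h1 : 1 ≤ (2 / ρ) * ∑ i ∈ univ \ I, T (j i) := by
          by_cases hj : j ∈ J
          · have hj' : j' ∉ J := fun hh => h ⟨hj, hh⟩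
            have := markov ρ hρ T hT hT2 I hI j' (hmem j' hj')
            refine this.trans (le_of_eq ?_)
            congr 1
            refine Finset.sum_congr rfl fun i hi => ?_
            rw [hag i (Finset.mem_sdiff.mp hi).2]
          · exact markov ρ hρ T hT hT2 I hI j (hmem j hj)
        calc ∏ i, gg c t I i (j i) (j' i) = 1 * ∏ i, gg c t I i (j i) (j' i) := (one_mul _).symm
          _ ≤ ((2 / ρ) * ∑ i ∈ univ \ I, T (j i)) * ∏ i, gg c t I i (j i) (j' i) :=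
            mul_le_mul_of_nonneg_right h1 hn
          _ = _ := mul_assoc _ _ _
      · have h0 : ∏ i, gg c t I i (j i) (j' i) = 0 := by rw [prod_gg, if_neg hag]
        rw [h0]; simp
  have h2 : ∀ j : ι → Fin L, ∑ j' : ι → Fin L, ∏ i, gg c t I i (j i) (j' i) = ∏ i, GG c t I i (j i) := by
    intro j
    rw [tot fun i l' => gg c t I i (j i) l']
    exact Finset.prod_congr rfl fun i _ => sum_gg c t I i (j i)
  calc ∑ j : ι → Fin L, (∑ j' : ι → Fin L, ∏ i, gg c t I i (j i) (j' i) -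
        ∑ j' : ι → Fin L, (if j ∈ J ∧ j' ∈ J then ∏ i, gg c t I i (j i) (j' i) else 0))
      ≤ ∑ j : ι → Fin L, (2 / ρ) * ((∑ i ∈ univ \ I, T (j i)) * ∏ i, GG c t I i (j i)) := by
        refine Finset.sum_le_sum fun j _ => ?_
        rw [← Finset.sum_sub_distrib, ← h2, Finset.mul_sum, Finset.mul_sum]
        exact Finset.sum_le_sum fun j' _ => key j j'
    _ = (2 / ρ) * ∑ i₁ ∈ univ \ I, ∑ j : ι → Fin L, T (j i₁) * ∏ i, GG c t I i (j i) := by
        rw [← Finset.mul_sum]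
        congr 1
        rw [Finset.sum_comm]
        refine Finset.sum_congr rfl fun j _ => ?_
        rw [Finset.sum_mul]
    _ = (2 / ρ) * ∑ _i₁ ∈ univ \ I, ((∑ l, c l ^ 2 * t l * T l) / (∑ l, c l ^ 2 * t l) * ∏ i, PP c t I i) := by
        congr 1
        refine Finset.sum_congr rfl fun i₁ hi₁ => ?_
        have := sum_T c t T I i₁ (Finset.mem_sdiff.mp hi₁).2
        field_simp
        linarith
    _ ≤ (2 / ρ) * (Fintype.card ι * ((∑ l, c l ^ 2 * t l * T l) / (∑ l, c l ^ 2 * t l) * ∏ i, PP c t I i)) := by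
        have h2ρ : 0 ≤ 2 / ρ := by positivity
        refine mul_le_mul_of_nonneg_left ?_ h2ρ
        rw [Finset.sum_const, nsmul_eq_mul]
        refine mul_le_mul_of_nonneg_right ?_ ?_
        · have : (univ \ I).card ≤ Fintype.card ι := by
            rw [← Finset.card_univ]; exact Finset.card_le_card Finset.sdiff_subset
          exact_mod_cast this
        · have hA : 0 ≤ ∑ l, c l ^ 2 * t l * T l :=
            Finset.sum_nonneg fun l _ => mul_nonneg (mul_nonneg (sq_nonneg _) (ht _)) (hT _)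
          have hB : 0 ≤ ∏ i, PP c t I i := by
            refine Finset.prod_nonneg fun i _ => ?_
            rw [← sum_GG]
            exact Finset.sum_nonneg fun l _ => GG_nonneg c t hc ht I i l
          exact mul_nonneg (div_nonneg hA hZ.le) hB

theorem prod_PP (c t : Fin L → ℝ) (I : Finset ι) :
    ∏ i, PP c t I i = (∑ l, c l ^ 2 * t l) ^ (Fintype.card ι - I.card) * (∑ l, c l * t l) ^ (2 * I.card) := by
  have : ∏ i, PP c t I i = (∏ i ∈ univ \ I, PP c t I i) * ∏ i ∈ I, PP c t I i :=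
    (Finset.prod_sdiff (Finset.subset_univ I)).symm
  rw [this]
  congr 1
  · rw [Finset.prod_congr rfl (g := fun _ => ∑ l, c l ^ 2 * t l), Finset.prod_const,
      Finset.card_sdiff_of_subset (Finset.subset_univ I), Finset.card_univ]
    intro i hi
    unfold PP
    rw [if_neg (Finset.mem_sdiff.mp hi).2]
  · rw [Finset.prod_congr rfl (g := fun _ => (∑ l, c l * t l) ^ 2), Finset.prod_const, ← pow_mul]
    intro i hi
    unfold PP
    rw [if_pos hi]

end gen

section num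

/-- values of the lengths -/
def tn (l : ℕ) : ℝ := if l = 0 then 1 else 2 ^ (l - 1)

theorem tn_nonneg (l : ℕ) : 0 ≤ tn l := by
  unfold tn; split_ifs <;> positivity

theorem Z_eq (A : ℝ) (L' : ℕ) :
    ∑ l : Fin (L' + 1), ((1 / 2 : ℝ) ^ (l : ℕ)) ^ 2 * (tn l / A) = (1 + (1 / 4) * ∑ i ∈ range L', (1 / 2 : ℝ) ^ i) / A := by
  rw [Fin.sum_univ_eq_sum_range (fun l => ((1 / 2 : ℝ) ^ l) ^ 2 * (tn l / A)) (L' + 1), Finset.sum_range_succ']
  have h : ∀ i : ℕ, ((1 / 2 : ℝ) ^ (i + 1)) ^ 2 * (tn (i + 1) / A) = (1 / 4) * (1 / 2 : ℝ) ^ i / A := by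
    intro i
    have h1 : tn (i + 1) = 2 ^ i := by simp [tn]
    have h2 : ((1 / 2 : ℝ) ^ (i + 1)) ^ 2 * 2 ^ i = (1 / 4) * (1 / 2 : ℝ) ^ i := by
      have h3 : (1 / 2 : ℝ) ^ i * 2 ^ i = 1 := by rw [← mul_pow]; norm_num
      calc ((1 / 2 : ℝ) ^ (i + 1)) ^ 2 * 2 ^ i = (1 / 4) * (1 / 2 : ℝ) ^ i * ((1 / 2 : ℝ) ^ i * 2 ^ i) := by ring
        _ = _ := by rw [h3, mul_one]
    rw [h1, ← mul_div_assoc, h2]
  rw [Finset.sum_congr rfl fun i _ => h i, ← Finset.sum_div, ← Finset.mul_sum]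
  simp [tn]
  ring

theorem m_eq (A : ℝ) (L' : ℕ) :
    ∑ l : Fin (L' + 1), ((1 / 2 : ℝ) ^ (l : ℕ)) * (tn l / A) = (1 + L' / 2) / A := by
  rw [Fin.sum_univ_eq_sum_range (fun l => ((1 / 2 : ℝ) ^ l) * (tn l / A)) (L' + 1), Finset.sum_range_succ']
  have h : ∀ i : ℕ, ((1 / 2 : ℝ) ^ (i + 1)) * (tn (i + 1) / A) = (1 / 2) / A := by
    intro i
    have h1 : tn (i + 1) = 2 ^ i := by simp [tn]
    have h3 : (1 / 2 : ℝ) ^ i * 2 ^ i = 1 := by rw [← mul_pow]; norm_num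
    rw [h1, ← mul_div_assoc]
    congr 1
    calc (1 / 2 : ℝ) ^ (i + 1) * 2 ^ i = (1 / 2) * ((1 / 2 : ℝ) ^ i * 2 ^ i) := by ring
      _ = _ := by rw [h3, mul_one]
  rw [Finset.sum_congr rfl fun i _ => h i, Finset.sum_const]
  simp [tn]
  ring

theorem X_eq (A : ℝ) (L' : ℕ) :
    ∑ l : Fin (L' + 1), ((1 / 2 : ℝ) ^ (l : ℕ)) ^ 2 * (tn l / A) * (2 ^ (l : ℕ) / A) = (1 + L' / 2) / A ^ 2 := by
  rw [Fin.sum_univ_eq_sum_range (fun l => ((1 / 2 : ℝ) ^ l) ^ 2 * (tn l / A) * (2 ^ l / A)) (L' + 1),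
    Finset.sum_range_succ']
  have h : ∀ i : ℕ, ((1 / 2 : ℝ) ^ (i + 1)) ^ 2 * (tn (i + 1) / A) * (2 ^ (i + 1) / A) = (1 / 2) / A ^ 2 := by
    intro i
    have h1 : tn (i + 1) = 2 ^ i := by simp [tn]
    have h3 : (1 / 2 : ℝ) ^ i * 2 ^ i = 1 := by rw [← mul_pow]; norm_num
    rw [h1]
    calc ((1 / 2 : ℝ) ^ (i + 1)) ^ 2 * (2 ^ i / A) * (2 ^ (i + 1) / A)
        = (1 / 2) * ((1 / 2 : ℝ) ^ i * 2 ^ i) * ((1 / 2 : ℝ) ^ i * 2 ^ i) / A ^ 2 := by ring
      _ = _ := by rw [h3]; ring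
  rw [Finset.sum_congr rfl fun i _ => h i, Finset.sum_const]
  simp [tn]
  ring

end num

end OptAux

theorem opt (e ρ : ℝ) (he : 0 < e) (hρ : 0 < ρ) : ∃ (M L : ℕ) (J : Finset (Fin 5 × Fin M → Fin L))
    (c a b t : Fin L → ℝ) (Z m : ℝ), 0 < M ∧ 0 < Z ∧ 0 < m ∧ Dat ρ J a b t ∧
      (1 - e) * Z ^ (5 * M) ≤ JJ J c t ∅ ∧ JJ J c t ∅ ≤ Z ^ (5 * M) ∧
      (∀ i₀, (1 - e) * (Z ^ (5 * M - 1) * m ^ 2) ≤ JJ J c t {i₀} ∧ JJ J c t {i₀} ≤ Z ^ (5 * M - 1) * m ^ 2) ∧
      (∀ i₀ i₁, i₀ ≠ i₁ → JJ J c t {i₀, i₁} ≤ Z ^ (5 * M - 2) * m ^ 4) ∧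
      Z ≤ e * (M * m ^ 2) := by
  -- smaller parameters
  obtain ⟨e', he', he1, hee⟩ : ∃ e' : ℝ, 0 < e' ∧ e' ≤ 1 ∧ e' ≤ e :=
    ⟨min e 1, lt_min he one_pos, min_le_right _ _, min_le_left _ _⟩
  obtain ⟨ρ', hρ', hρ1, hρρ⟩ : ∃ ρ' : ℝ, 0 < ρ' ∧ ρ' ≤ 1 ∧ ρ' ≤ ρ :=
    ⟨min ρ 1, lt_min hρ one_pos, min_le_right _ _, min_le_left _ _⟩
  obtain ⟨L', hL'⟩ := exists_nat_ge (120 / (e' ^ 2 * ρ'))
  set M : ℕ := 2 ^ L' with hM
  have hMpos : 0 < M := by positivity
  have hMR : (M : ℝ) = 2 ^ L' := by rw [hM]; push_cast; rfl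
  set L : ℕ := L' + 1 with hL
  set A : ℝ := 4 * (5 * M) * L / (e' * ρ') with hA
  have hLpos : (0 : ℝ) < L := by rw [hL]; positivity
  have hMposR : (0 : ℝ) < M := by exact_mod_cast hMpos
  have hApos : 0 < A := by positivity
  have hMA : (M : ℝ) / A ≤ e' * ρ' / 20 := by
    rw [div_le_iff₀ hApos, hA]
    have h1 : e' * ρ' / 20 * (4 * (5 * M) * L / (e' * ρ')) = M * L := by field_simp; ring
    rw [h1]
    have : (1 : ℝ) ≤ L := by rw [hL]; push_cast; linarith [Nat.cast_nonneg (α := ℝ) L']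
    nlinarith
  have hep : e' * ρ' ≤ 1 := by nlinarith
  have hep2 : e' * ρ' ≤ ρ' := by nlinarith
  let b : Fin L → ℝ := fun l => 2 ^ (l : ℕ) / A
  let a : Fin L → ℝ := fun l => if (l : ℕ) = 0 then -1 else 2 ^ ((l : ℕ) - 1) / A
  let t : Fin L → ℝ := fun l => OptAux.tn l / A
  let c : Fin L → ℝ := fun l => (1 / 2) ^ (l : ℕ)
  have hb : ∀ l : Fin L, b l ≤ M / A := by
    intro l
    show 2 ^ (l : ℕ) / A ≤ M / A
    rw [hMR]
    refine div_le_div_of_nonneg_right ?_ hApos.le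
    exact pow_le_pow_right₀ (by norm_num) (by have := l.2; omega)
  have hbpos : ∀ l : Fin L, 0 < b l := fun l => by
    show 0 < 2 ^ (l : ℕ) / A
    positivity
  have hc : ∀ l, 0 ≤ c l := fun l => by show (0 : ℝ) ≤ (1 / 2) ^ (l : ℕ); positivity
  have ht : ∀ l, 0 ≤ t l := fun l => div_nonneg (OptAux.tn_nonneg _) hApos.le
  set Z : ℝ := ∑ l, c l ^ 2 * t l with hZdef
  set m : ℝ := ∑ l, c l * t l with hmdef
  set X : ℝ := ∑ l, c l ^ 2 * t l * b l with hXdef
  have hZ : Z = (1 + (1 / 4) * ∑ i ∈ range L', (1 / 2 : ℝ) ^ i) / A := OptAux.Z_eq A L'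
  have hm : m = (1 + L' / 2) / A := OptAux.m_eq A L'
  have hX : X = (1 + L' / 2) / A ^ 2 := OptAux.X_eq A L'
  have hgeo0 : 0 ≤ ∑ i ∈ range L', (1 / 2 : ℝ) ^ i := Finset.sum_nonneg fun i _ => by positivity
  have hgeo1 : ∑ i ∈ range L', (1 / 2 : ℝ) ^ i ≤ 2 := by
    rw [geom_sum_eq (by norm_num)]
    have : (0 : ℝ) ≤ (1 / 2) ^ L' := by positivity
    rw [div_le_iff_of_neg (by norm_num)]
    linarith
  have hZlow : 1 / A ≤ Z := by
    rw [hZ]
    refine div_le_div_of_nonneg_right ?_ hApos.le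
    linarith
  have hZup : Z ≤ (3 / 2) / A := by
    rw [hZ]
    refine div_le_div_of_nonneg_right ?_ hApos.le
    linarith
  have hZpos : 0 < Z := lt_of_lt_of_le (by positivity) hZlow
  have hL'0 : (0 : ℝ) ≤ L' := Nat.cast_nonneg _
  have hmpos : 0 < m := by rw [hm]; positivity
  have hcard : Fintype.card (Fin 5 × Fin M) = 5 * M := by simp
  -- the error
  have hXZ : X / Z ≤ L / A := by
    rw [div_le_iff₀ hZpos]
    calc X = (1 + L' / 2) / A ^ 2 := hX
      _ ≤ L / A ^ 2 := by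
        refine div_le_div_of_nonneg_right ?_ (by positivity)
        rw [hL]; push_cast; linarith
      _ = L / A * (1 / A) := by field_simp
      _ ≤ L / A * Z := mul_le_mul_of_nonneg_left hZlow (by positivity)
  have herr : (2 / ρ') * ((5 * M) * (X / Z)) ≤ e' := by
    calc (2 / ρ') * ((5 * M) * (X / Z)) ≤ (2 / ρ') * ((5 * M) * (L / A)) := by gcongr
      _ = e' / 2 := by rw [hA]; field_simp; ring
      _ ≤ e' := by linarith
  set J : Finset (Fin 5 × Fin M → Fin L) := univ.filter fun j => ∑ i, b (j i) ≤ ρ' with hJ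
  have hprod : ∀ I : Finset (Fin 5 × Fin M),
      ∏ i, OptAux.PP c t I i = Z ^ (5 * M - I.card) * m ^ (2 * I.card) := by
    intro I
    rw [OptAux.prod_PP, hcard]
  have hlow : ∀ I : Finset (Fin 5 × Fin M), I.card ≤ 1 →
      (1 - e) * (Z ^ (5 * M - I.card) * m ^ (2 * I.card)) ≤ JJ J c t I := by
    intro I hI
    have h1 := OptAux.lower (ι := Fin 5 × Fin M) ρ' hρ' b (fun l => (hbpos l).le)
      (fun l => (hb l).trans (hMA.trans (by linarith))) I hI c t hc ht hZpos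
    rw [hprod, hcard] at h1
    set P := Z ^ (5 * M - I.card) * m ^ (2 * I.card) with hP
    have hPpos : 0 < P := by positivity
    have h2 : (2 / ρ') * (((5 * M : ℕ) : ℝ) * (X / Z * P)) ≤ e' * P := by
      have : (2 / ρ') * (((5 * M : ℕ) : ℝ) * (X / Z * P)) = ((2 / ρ') * ((5 * M) * (X / Z))) * P := by
        push_cast; ring
      rw [this]
      exact mul_le_mul_of_nonneg_right herr hPpos.le
    have h3 : e' * P ≤ e * P := mul_le_mul_of_nonneg_right hee hPpos.le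
    have h4 := h1.trans h2
    linarith
  have hup : ∀ I : Finset (Fin 5 × Fin M), JJ J c t I ≤ Z ^ (5 * M - I.card) * m ^ (2 * I.card) := by
    intro I
    rw [← hprod]
    exact OptAux.upper J c t hc ht I
  refine ⟨M, L, J, c, a, b, t, Z, m, hMpos, hZpos, hmpos, ⟨?_, ?_, ?_⟩, ?_, ?_, ?_, ?_, ?_⟩
  · -- St
    intro l
    have hb1 : b l ≤ 1 := (hb l).trans (hMA.trans (by linarith))
    show (a l = -1 ∨ 0 < a l) ∧ a l ≤ b l ∧ 0 < b l ∧ b l ≤ 1
    refine ⟨?_, ?_, hbpos l, hb1⟩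
    · show ((if (l : ℕ) = 0 then (-1 : ℝ) else 2 ^ ((l : ℕ) - 1) / A) = -1 ∨ 0 < (if (l : ℕ) = 0 then (-1 : ℝ) else 2 ^ ((l : ℕ) - 1) / A))
      split_ifs
      · left; rfl
      · right; positivity
    · show (if (l : ℕ) = 0 then (-1 : ℝ) else 2 ^ ((l : ℕ) - 1) / A) ≤ 2 ^ (l : ℕ) / A
      split_ifs with h
      · have : 0 < 2 ^ (l : ℕ) / A := by positivity
        linarith
      · refine div_le_div_of_nonneg_right ?_ hApos.le
        exact pow_le_pow_right₀ (by norm_num) (by omega)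
  · -- ov
    have hmax : ∀ l : Fin L, max (a l) 0 = if (l : ℕ) = 0 then 0 else 2 ^ ((l : ℕ) - 1) / A := by
      intro l
      show max (if (l : ℕ) = 0 then (-1 : ℝ) else 2 ^ ((l : ℕ) - 1) / A) 0 = _
      split_ifs with h
      · norm_num
      · exact max_eq_left (by positivity)
    have hlt : ∀ l l' : Fin L, l < l' → b l ≤ max (a l') 0 := by
      intro l l' hll
      have hll' : (l : ℕ) < (l' : ℕ) := hll
      rw [hmax, if_neg (by omega)]
      show 2 ^ (l : ℕ) / A ≤ _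
      refine div_le_div_of_nonneg_right ?_ hApos.le
      exact pow_le_pow_right₀ (by norm_num) (by omega)
    intro l l'
    unfold ov
    rcases lt_trichotomy l l' with h | h | h
    · rw [if_neg (ne_of_lt h)]
      refine max_eq_left ?_
      have h1 := hlt l l' h
      have h2 : max (a l') 0 ≤ max (max (a l) (a l')) 0 := max_le_max (le_max_right _ _) le_rfl
      have h3 : min (b l) (b l') ≤ b l := min_le_left _ _
      linarith
    · subst h
      rw [if_pos rfl, max_self, min_self, hmax]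
      have h4 : b l - (if (l : ℕ) = 0 then 0 else 2 ^ ((l : ℕ) - 1) / A) = t l := by
        show 2 ^ (l : ℕ) / A - _ = OptAux.tn l / A
        unfold OptAux.tn
        split_ifs with h
        · rw [h]; simp
        · obtain ⟨s, hs⟩ := Nat.exists_eq_succ_of_ne_zero h
          rw [hs, Nat.succ_sub_one, pow_succ]
          ring
      rw [h4]
      exact max_eq_right (ht l)
    · rw [if_neg (ne_of_gt h)]
      refine max_eq_left ?_
      have h1 := hlt l' l h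
      have h2 : max (a l) 0 ≤ max (max (a l) (a l')) 0 := max_le_max (le_max_left _ _) le_rfl
      have h3 : min (b l) (b l') ≤ b l' := min_le_right _ _
      linarith
  · intro j hj
    rw [hJ, Finset.mem_filter] at hj
    exact hj.2.trans hρρ
  · have := hlow ∅ (by simp)
    simpa using this
  · have := hup ∅
    simpa using this
  · intro i₀
    constructor
    · have := hlow {i₀} (by simp)
      simpa using this
    · have := hup {i₀}
      simpa using this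
  · intro i₀ i₁ hne
    have := hup {i₀, i₁}
    rw [Finset.card_pair hne] at this
    simpa using this
  · -- the last inequality
    have h1 : (L : ℝ) / (2 * A) ≤ m := by
      rw [hm, hL]
      push_cast
      rw [div_le_div_iff₀ (by positivity) hApos]
      nlinarith
    have h2 : Z ≤ e' * (M * (L / (2 * A)) ^ 2) := by
      refine hZup.trans ?_
      have h3 : e' * (M * (L / (2 * A)) ^ 2) = (e' * M * L ^ 2 / (4 * A)) / A := by
        field_simp
        norm_num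
      rw [h3]
      refine div_le_div_of_nonneg_right ?_ hApos.le
      have h5 : e' * M * L ^ 2 / (4 * A) = e' ^ 2 * ρ' * L / 80 := by
        rw [hA]; field_simp; ring
      rw [h5]
      have h6 : 120 ≤ L' * (e' ^ 2 * ρ') := by
        rwa [div_le_iff₀ (by positivity)] at hL'
      have h7 : (L' : ℝ) * (e' ^ 2 * ρ') ≤ L * (e' ^ 2 * ρ') := by
        refine mul_le_mul_of_nonneg_right ?_ (by positivity)
        rw [hL]; push_cast; linarith
      linarith
    calc Z ≤ e' * (M * (L / (2 * A)) ^ 2) := h2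
      _ ≤ e * (M * m ^ 2) := by gcongr

end PGL
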