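import Pool.Agent.PGL.W2

/-! PGL / W3: the sum of the weight over pairs of primes (upper bound).

PROOF. Let `K = Lam V (ys N (-1) κ)`, `G = G_V(N^κ) = mass V (ys N (-1) κ) = (κ + o(1)) Γ > 0`. If `n + h i₁` is a
prime then `K(n + h i₁) = G` and `Lam V y (n + h i₁) = mass V y` (`Lam_prime`). So
`ww n 1_P(n + h i₁) ≤ G^(-2) w'(n) K(n + h i₁)²`, where `w'` is the square of the same combination with the factors
`Lam V y_{j i₁} (n + h i₁)` replaced by `mass V y_{j i₁}` (a square, `≥ 0`). Multiply by `fp (n + h i₀)`, treat the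
coordinate `i₀` as in `w2` and apply `s2` to every pair `(j, j')` with the data `(-1, κ)`, `(-1, κ)` at `i₁`
(`ov (-1) κ (-1) κ = κ`): the limit is
`(κ Γ)^(-2) Γ^(k-1) κ ∏_{i ≠ i₀, i₁} ov_i · (t t' t t') Γ^4 = Γ^(k+1) / κ · ...`. Level: `2 ρ + 2 κ ≤ 1/2 - δ`.
Sum over `(j, j')`: `JJ J c t {i₀, i₁} / κ`. -/

set_option autoImplicit false

open Finset

noncomputable section

namespace PGL

/-- the coefficient of a pair -/
private def w3C {ι : Type} [Fintype ι] {L : ℕ} (c : Fin L → ℝ) (p : (ι → Fin L) × (ι → Fin L)) : ℝ :=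
  (∏ i, c (p.1 i)) * ∏ i, c (p.2 i)

/-- the step data with the coordinate `i₁` replaced -/
private def w3u {ι : Type} [DecidableEq ι] {L : ℕ} (u : Fin L → ℝ) (v : ℝ) (i₁ : ι) (j : ι → Fin L) (i : ι) : ℝ :=
  if i = i₁ then v else u (j i)

private theorem w3_expand {ι : Type} [Fintype ι] [DecidableEq ι] {L : ℕ} (J : Finset (ι → Fin L))
    (c a b : Fin L → ℝ) {i₀ i₁ : ι} (hi : i₀ ≠ i₁) {ε C κ : ℝ} {N : ℕ} {D D' V : Finset ℕ} {h : ι → ℕ} {b₀ : ℕ}
    (hC : Ctx ε C N D D' V h b₀) (hG : 0 < mass V (ys N (-1) κ)) {n : ℕ} (hn : N < n) :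
    ww J c a b N V h n * fp (n + h i₀) * (if (n + h i₁).Prime then 1 else 0) ≤ ∑ p ∈ J ×ˢ J, w3C c p *
      (mass V (ys N (a (p.1 i₀)) (b (p.1 i₀))) * mass V (ys N (a (p.2 i₀)) (b (p.2 i₀))) *
      (mass V (ys N (a (p.1 i₁)) (b (p.1 i₁))) * mass V (ys N (a (p.2 i₁)) (b (p.2 i₁))))) /
      mass V (ys N (-1) κ) ^ 2 *
      (fp (n + h i₀) * ∏ i ∈ univ.erase i₀, (Lam V (ys N (w3u a (-1) i₁ p.1 i) (w3u b κ i₁ p.1 i)) (n + h i) *
        Lam V (ys N (w3u a (-1) i₁ p.2 i) (w3u b κ i₁ p.2 i)) (n + h i))) := by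
  have hi1 : i₁ ∈ univ.erase i₀ := Finset.mem_erase.2 ⟨hi.symm, mem_univ _⟩
  obtain ⟨P, hP⟩ : ∃ P : (ι → Fin L) → ℝ, P = fun j => (∏ i, c (j i)) *
      (mass V (ys N (a (j i₀)) (b (j i₀))) * mass V (ys N (a (j i₁)) (b (j i₁)))) *
      ∏ i ∈ (univ.erase i₀).erase i₁, Lam V (ys N (a (j i)) (b (j i))) (n + h i) := ⟨_, rfl⟩
  have hR : ∑ p ∈ J ×ˢ J, w3C c p *
      (mass V (ys N (a (p.1 i₀)) (b (p.1 i₀))) * mass V (ys N (a (p.2 i₀)) (b (p.2 i₀))) *
      (mass V (ys N (a (p.1 i₁)) (b (p.1 i₁))) * mass V (ys N (a (p.2 i₁)) (b (p.2 i₁))))) /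
      mass V (ys N (-1) κ) ^ 2 *
      (fp (n + h i₀) * ∏ i ∈ univ.erase i₀, (Lam V (ys N (w3u a (-1) i₁ p.1 i) (w3u b κ i₁ p.1 i)) (n + h i) *
        Lam V (ys N (w3u a (-1) i₁ p.2 i) (w3u b κ i₁ p.2 i)) (n + h i))) =
      (∑ j ∈ J, P j) ^ 2 * fp (n + h i₀) *
        (Lam V (ys N (-1) κ) (n + h i₁) ^ 2 / mass V (ys N (-1) κ) ^ 2) := by
    rw [pow_two (∑ j ∈ J, P j), Finset.sum_mul_sum, ← Finset.sum_product', Finset.sum_mul, Finset.sum_mul]
    refine sum_congr rfl fun p _ => ?_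
    rw [← mul_prod_erase (univ.erase i₀) _ hi1]
    have e1 : ∀ j : ι → Fin L, Lam V (ys N (w3u a (-1) i₁ j i₁) (w3u b κ i₁ j i₁)) (n + h i₁) =
        Lam V (ys N (-1) κ) (n + h i₁) := fun j => by
      unfold w3u
      rw [if_pos rfl, if_pos rfl]
    have e2 : ∏ i ∈ (univ.erase i₀).erase i₁,
        (Lam V (ys N (w3u a (-1) i₁ p.1 i) (w3u b κ i₁ p.1 i)) (n + h i) *
        Lam V (ys N (w3u a (-1) i₁ p.2 i) (w3u b κ i₁ p.2 i)) (n + h i)) =
        (∏ i ∈ (univ.erase i₀).erase i₁, Lam V (ys N (a (p.1 i)) (b (p.1 i))) (n + h i)) *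
        ∏ i ∈ (univ.erase i₀).erase i₁, Lam V (ys N (a (p.2 i)) (b (p.2 i))) (n + h i) := by
      rw [← Finset.prod_mul_distrib]
      refine prod_congr rfl fun i hi' => ?_
      have h1 : i ≠ i₁ := (Finset.mem_erase.1 hi').1
      unfold w3u
      rw [if_neg h1, if_neg h1, if_neg h1, if_neg h1]
    rw [e1, e1, e2, hP]
    unfold w3C
    simp only
    ring
  rw [hR]
  have hf : 0 ≤ fp (n + h i₀) := by
    unfold fp
    split_ifs
    · exact Real.log_natCast_nonneg _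
    · exact le_rfl
  have hR0 : 0 ≤ (∑ j ∈ J, P j) ^ 2 * fp (n + h i₀) *
      (Lam V (ys N (-1) κ) (n + h i₁) ^ 2 / mass V (ys N (-1) κ) ^ 2) := by positivity
  by_cases hp1 : (n + h i₁).Prime
  · by_cases hp0 : (n + h i₀).Prime
    · have e1 : ∀ y : Finset ℕ → ℝ, Lam V y (n + h i₁) = mass V y := fun y =>
        Lam_prime hC y hp1 (by omega)
      have e0 : ∀ y : Finset ℕ → ℝ, Lam V y (n + h i₀) = mass V y := fun y =>
        Lam_prime hC y hp0 (by omega)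
      rw [e1, div_self (by positivity), if_pos hp1]
      refine le_of_eq ?_
      congr 2
      unfold ww
      congr 1
      refine sum_congr rfl fun j _ => ?_
      rw [Finset.prod_mul_distrib, hP,
        ← mul_prod_erase univ (fun i => Lam V (ys N (a (j i)) (b (j i))) (n + h i)) (mem_univ i₀),
        ← mul_prod_erase (univ.erase i₀) (fun i => Lam V (ys N (a (j i)) (b (j i))) (n + h i)) hi1]
      simp only
      rw [e0, e1]
      ring
    · have h0 : fp (n + h i₀) = 0 := by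
        unfold fp
        rw [if_neg hp0]
      rw [h0]
      simp
  · rw [if_neg hp1, mul_zero]
    exact hR0

private theorem w3_JJ {ι : Type} [Fintype ι] [DecidableEq ι] {L : ℕ} {ρ : ℝ} (J : Finset (ι → Fin L))
    (c : Fin L → ℝ) {a b t : Fin L → ℝ} (hD : Dat ρ J a b t) {i₀ i₁ : ι} (hi : i₀ ≠ i₁) :
    JJ J c t {i₀, i₁} = ∑ p ∈ J ×ˢ J, w3C c p * (t (p.1 i₀) * t (p.2 i₀) * (t (p.1 i₁) * t (p.2 i₁))) *
      ∏ i ∈ (univ.erase i₀).erase i₁, ov (a (p.1 i)) (b (p.1 i)) (a (p.2 i)) (b (p.2 i)) := by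
  have hi1 : i₁ ∈ univ.erase i₀ := Finset.mem_erase.2 ⟨hi.symm, mem_univ _⟩
  have hnot : ∀ i ∈ (univ.erase i₀).erase i₁, i ∉ ({i₀, i₁} : Finset ι) := by
    intro i hi'
    rw [Finset.mem_insert, Finset.mem_singleton]
    rintro (h | h)
    · exact (Finset.mem_erase.1 (Finset.mem_erase.1 hi').2).1 h
    · exact (Finset.mem_erase.1 hi').1 h
  have hsplit : ∀ f : ι → ℝ, ∏ i, f i = f i₀ * (f i₁ * ∏ i ∈ (univ.erase i₀).erase i₁, f i) := by
    intro f
    rw [mul_prod_erase (univ.erase i₀) f hi1, mul_prod_erase univ f (mem_univ i₀)]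
  unfold JJ
  rw [Finset.sum_product]
  refine sum_congr rfl fun j _ => ?_
  rw [Finset.sum_filter]
  refine sum_congr rfl fun j' _ => ?_
  have hov : ∀ i, ov (a (j i)) (b (j i)) (a (j' i)) (b (j' i)) =
      if j i = j' i then t (j i) else 0 := fun i => hD.ov _ _
  simp only [hov]
  by_cases hc : ∀ i, i ∉ ({i₀, i₁} : Finset ι) → j' i = j i
  · rw [if_pos hc]
    unfold w3C
    simp only
    rw [hsplit, hsplit (fun i => c (j i)), hsplit (fun i => c (j' i))]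
    have e1 : ∏ i ∈ (univ.erase i₀).erase i₁, c (j' i) = ∏ i ∈ (univ.erase i₀).erase i₁, c (j i) :=
      prod_congr rfl fun i hi' => by rw [hc i (hnot i hi')]
    have e2 : (∏ i ∈ (univ.erase i₀).erase i₁, if j i = j' i then t (j i) else 0) =
        ∏ i ∈ (univ.erase i₀).erase i₁, t (j i) :=
      prod_congr rfl fun i hi' => by rw [hc i (hnot i hi'), if_pos rfl]
    have e3 : (∏ x ∈ (univ.erase i₀).erase i₁, if x ∈ ({i₀, i₁} : Finset ι) then
        c (j x) * t (j x) * (c (j' x) * t (j' x)) else c (j x) ^ 2 * t (j x)) =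
        (∏ i ∈ (univ.erase i₀).erase i₁, c (j i)) ^ 2 * ∏ i ∈ (univ.erase i₀).erase i₁, t (j i) := by
      rw [← Finset.prod_pow, ← Finset.prod_mul_distrib]
      refine prod_congr rfl fun i hi' => ?_
      rw [if_neg (hnot i hi')]
    rw [e1, e2, e3, if_pos (by simp), if_pos (by simp)]
    ring
  · rw [if_neg hc]
    push Not at hc
    obtain ⟨i, hi', hne⟩ := hc
    rw [Finset.mem_insert, Finset.mem_singleton] at hi'
    push Not at hi'
    symm
    rw [Finset.prod_eq_zero (Finset.mem_erase.2 ⟨hi'.2, Finset.mem_erase.2 ⟨hi'.1, mem_univ i⟩⟩), mul_zero]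
    rw [if_neg (Ne.symm hne)]

theorem w3 {ι : Type} [Fintype ι] [DecidableEq ι] (δ ρ κ : ℝ) (hδ : 0 < δ) (hδ2 : δ < 1 / 2) (hκ : 0 < κ)
    (hρ0 : 0 ≤ ρ) (hρ : 2 * ρ + 2 * κ ≤ 1 / 2 - δ) : ∃ A : ℝ,
    ∀ {L : ℕ} (J : Finset (ι → Fin L)) (c a b t : Fin L → ℝ), Dat ρ J a b t →
    ∀ (i₀ i₁ : ι) (ε C η : ℝ), i₀ ≠ i₁ → 0 < ε → 8 * ε ≤ δ → 0 < η →
    ∃ N₀ : ℕ, ∀ N : ℕ, N₀ ≤ N → ∀ (D D' V : Finset ℕ) (h : ι → ℕ) (b₀ : ℕ), Ctx ε C N D D' V h b₀ →
      MB δ A ε N D →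
      ∑ n ∈ (Ioc N (2 * N)).filter (· ≡ b₀ [MOD PGB.qz (ε * Real.log N) D]),
          ww J c a b N V h n * fp (n + h i₀) * (if (n + h i₁).Prime then 1 else 0) ≤
        N / (Nat.totient (PGB.qz (ε * Real.log N) D) : ℝ) * Gam ε N ^ (Fintype.card ι + 1) *
          (JJ J c t {i₀, i₁} / κ + η) := by
  obtain ⟨A, hA⟩ := s2 (ι := ι) δ hδ hδ2
  refine ⟨A, ?_⟩
  intro L J c a b t hD i₀ i₁ ε C η hi hε hε8 hη
  have hi1 : i₁ ∈ univ.erase i₀ := Finset.mem_erase.2 ⟨hi.symm, mem_univ _⟩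
  have hκ4 : κ ≤ 1 / 4 := by linarith
  have hStκ : St (-1) κ := ⟨Or.inl rfl, by linarith, hκ, by linarith⟩
  have hSt : ∀ (j : ι → Fin L) (i : ι), St (w3u a (-1) i₁ j i) (w3u b κ i₁ j i) := by
    intro j i
    unfold w3u
    by_cases h1 : i = i₁
    · rw [if_pos h1, if_pos h1]
      exact hStκ
    · rw [if_neg h1, if_neg h1]
      exact hD.st _
  have hb0 : ∀ l, 0 < b l := fun l => (hD.st l).2.2.1
  -- the limit of the sums of the pairs
  obtain ⟨o, ho⟩ : ∃ o : (ι → Fin L) × (ι → Fin L) → ℝ, o = fun p =>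
      ∏ i ∈ univ.erase i₀, ov (w3u a (-1) i₁ p.1 i) (w3u b κ i₁ p.1 i) (w3u a (-1) i₁ p.2 i)
        (w3u b κ i₁ p.2 i) := ⟨_, rfl⟩
  have hoκ : ∀ p, o p = κ * ∏ i ∈ (univ.erase i₀).erase i₁,
      ov (a (p.1 i)) (b (p.1 i)) (a (p.2 i)) (b (p.2 i)) := by
    intro p
    rw [ho]
    simp only
    rw [← mul_prod_erase (univ.erase i₀) _ hi1]
    congr 1
    · unfold w3u
      rw [if_pos rfl, if_pos rfl, if_pos rfl, if_pos rfl]
      unfold ov
      rw [min_self, max_self, max_eq_right (by norm_num : (-1 : ℝ) ≤ 0), sub_zero,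
        max_eq_right hκ.le]
    · refine prod_congr rfl fun i hi' => ?_
      have h1 : i ≠ i₁ := (Finset.mem_erase.1 hi').1
      unfold w3u
      rw [if_neg h1, if_neg h1, if_neg h1, if_neg h1]
  -- the function of the normalised data
  obtain ⟨Φ, hΦ⟩ : ∃ Φ : (Fin L → ℝ) × ℝ × ((ι → Fin L) × (ι → Fin L) → ℝ) → ℝ, Φ = fun y =>
      ∑ p ∈ J ×ˢ J, w3C c p * (y.1 (p.1 i₀) * y.1 (p.2 i₀) * (y.1 (p.1 i₁) * y.1 (p.2 i₁))) /
        y.2.1 ^ 2 * y.2.2 p := ⟨_, rfl⟩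
  have hΦc : ContinuousAt Φ (t, κ, o) := by
    rw [hΦ]
    refine tendsto_finset_sum _ fun p _ => ?_
    refine Filter.Tendsto.mul (Filter.Tendsto.div ?_ ?_ ?_) ?_
    · refine Continuous.continuousAt ?_
      fun_prop
    · refine Continuous.continuousAt ?_
      fun_prop
    · simp only
      positivity
    · refine Continuous.continuousAt ?_
      fun_prop
  have hΦ0 : Φ (t, κ, o) = JJ J c t {i₀, i₁} / κ := by
    rw [hΦ, w3_JJ J c hD hi, Finset.sum_div]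
    refine sum_congr rfl fun p _ => ?_
    simp only
    rw [hoκ]
    field_simp
  obtain ⟨ξ₀, hξ₀, hξΦ⟩ := Metric.continuousAt_iff.1 hΦc η hη
  obtain ⟨ξ, hξ⟩ : ∃ ξ : ℝ, ξ = min ξ₀ κ / 2 := ⟨_, rfl⟩
  have hξ0 : 0 < ξ := by
    rw [hξ]
    exact half_pos (lt_min hξ₀ hκ)
  have hξ1 : ξ < ξ₀ := by
    have := min_le_left ξ₀ κ
    rw [hξ]
    rw [hξ] at hξ0
    linarith
  have hξ2 : ξ < κ := by
    have := min_le_right ξ₀ κ
    rw [hξ]
    rw [hξ] at hξ0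
    linarith
  -- the sums of the pairs
  have hE : ∀ᶠ N : ℕ in Filter.atTop, ∀ p ∈ J ×ˢ J,
      ∀ (D D' V : Finset ℕ) (h : ι → ℕ) (b₀ : ℕ), Ctx ε C N D D' V h b₀ → MB δ A ε N D →
      |∑ n ∈ (Ioc N (2 * N)).filter (· ≡ b₀ [MOD PGB.qz (ε * Real.log N) D]), fp (n + h i₀) *
          ∏ i ∈ univ.erase i₀, (Lam V (ys N (w3u a (-1) i₁ p.1 i) (w3u b κ i₁ p.1 i)) (n + h i) *
            Lam V (ys N (w3u a (-1) i₁ p.2 i) (w3u b κ i₁ p.2 i)) (n + h i)) -
        N / (Nat.totient (PGB.qz (ε * Real.log N) D) : ℝ) * Gam ε N ^ (Fintype.card ι - 1) * o p| ≤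
        ξ * (N / (Nat.totient (PGB.qz (ε * Real.log N) D) : ℝ) *
          Gam ε N ^ (Fintype.card ι - 1)) := by
    rw [Filter.eventually_all_finset]
    intro p hp
    rw [Finset.mem_product] at hp
    have hlev : ∀ j ∈ J, ∑ i ∈ univ.erase i₀, w3u b κ i₁ j i ≤ κ + ρ := by
      intro j hj
      rw [← add_sum_erase (univ.erase i₀) _ hi1]
      have h1 : w3u b κ i₁ j i₁ = κ := by
        unfold w3u
        rw [if_pos rfl]
      have h2 : ∑ i ∈ (univ.erase i₀).erase i₁, w3u b κ i₁ j i ≤ ∑ i, b (j i) := by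
        have h3 : ∑ i ∈ (univ.erase i₀).erase i₁, w3u b κ i₁ j i =
            ∑ i ∈ (univ.erase i₀).erase i₁, b (j i) :=
          sum_congr rfl fun i hi' => by
            unfold w3u
            rw [if_neg (Finset.mem_erase.1 hi').1]
        rw [h3]
        exact sum_le_sum_of_subset_of_nonneg ((erase_subset _ _).trans (erase_subset _ _))
          fun i _ _ => (hb0 _).le
      have h4 := hD.lev j hj
      rw [h1]
      linarith
    obtain ⟨N₀, hN₀⟩ := hA i₀ ε C ξ hε hε8 hξ0 (w3u a (-1) i₁ p.1) (w3u b κ i₁ p.1)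
      (w3u a (-1) i₁ p.2) (w3u b κ i₁ p.2) (hSt p.1) (hSt p.2) (by
        rw [Finset.sum_add_distrib]
        have h2 := hlev p.1 hp.1
        have h3 := hlev p.2 hp.2
        linarith)
    filter_upwards [Filter.eventually_ge_atTop N₀] with N hN
    intro D D' V h b₀ hC hM
    rw [ho]
    exact hN₀ N hN D D' V h b₀ hC hM
  have hMs : ∀ᶠ N : ℕ in Filter.atTop, ∀ l ∈ (univ : Finset (Fin L)),
      ∀ (D D' V : Finset ℕ) (h : ι → ℕ) (b₀ : ℕ), Ctx ε C N D D' V h b₀ →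
        |mass V (ys N (a l) (b l)) - t l * Gam ε N| ≤ ξ * Gam ε N := by
    rw [Filter.eventually_all_finset]
    intro l _
    obtain ⟨N₀, hN₀⟩ := dia_step (ι := ι) ε C ξ (a l) (b l) (a l) (b l) hε hξ0 (hD.st l) (hD.st l)
    filter_upwards [Filter.eventually_ge_atTop N₀] with N hN
    intro D D' V h b₀ hC
    have h1 := hN₀ N hN D D' V h b₀ hC
    rw [hD.ov l l, if_pos rfl, ← mass_step] at h1
    exact h1
  obtain ⟨N₃, hN₃⟩ := dia_step (ι := ι) ε C ξ (-1) κ (-1) κ hε hξ0 hStκ hStκ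
  obtain ⟨N₁, hN₁⟩ := Gam_ge ε hε
  obtain ⟨N₂, hN₂⟩ := Filter.eventually_atTop.1 (hE.and hMs)
  refine ⟨max (max N₁ N₂) (max N₃ 1), fun N hN D D' V h b₀ hC hM => ?_⟩
  have hNa : N₁ ≤ N := (le_max_left _ _).trans ((le_max_left _ _).trans hN)
  have hNb : N₂ ≤ N := (le_max_right _ _).trans ((le_max_left _ _).trans hN)
  have hNc : N₃ ≤ N := (le_max_left _ _).trans ((le_max_right _ _).trans hN)
  have hNd : 1 ≤ N := (le_max_right _ _).trans ((le_max_right _ _).trans hN)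
  obtain ⟨hE', hM'⟩ := hN₂ N hNb
  have hG : 0 < Gam ε N := lt_of_lt_of_le (by positivity) (hN₁ N hNa)
  have hK := hN₃ N hNc D D' V h b₀ hC
  have hovκ : ov (-1) κ (-1) κ = κ := by
    unfold ov
    rw [min_self, max_self, max_eq_right (by norm_num : (-1 : ℝ) ≤ 0), sub_zero, max_eq_right hκ.le]
  rw [hovκ, ← mass_step] at hK
  obtain ⟨K, hKdef⟩ : ∃ K : ℝ, K = mass V (ys N (-1) κ) := ⟨_, rfl⟩
  obtain ⟨m, hm⟩ : ∃ m : Fin L → ℝ, m = fun l => mass V (ys N (a l) (b l)) := ⟨_, rfl⟩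
  have hK0 : 0 < K := by
    rw [← hKdef] at hK
    have h1 := (abs_le.1 hK).1
    nlinarith
  obtain ⟨Q, hQ⟩ : ∃ Q : ℝ, Q = N / (Nat.totient (PGB.qz (ε * Real.log N) D) : ℝ) := ⟨_, rfl⟩
  have hQ0 : 0 < Q := by
    rw [hQ]
    have h1 : 0 < Nat.totient (PGB.qz (ε * Real.log N) D) := Nat.totient_pos.2 (qz_pos _ _)
    have h2 : (0 : ℝ) < N := by exact_mod_cast hNd
    positivity
  have hk : 1 ≤ Fintype.card ι := Fintype.card_pos_iff.2 ⟨i₀⟩
  have hpow : Gam ε N ^ (Fintype.card ι + 1) = Gam ε N ^ (Fintype.card ι - 1) * Gam ε N ^ 2 := by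
    rw [← pow_add]
    congr 1
    omega
  obtain ⟨S, hS⟩ : ∃ S : (ι → Fin L) × (ι → Fin L) → ℝ, S = fun p =>
      ∑ n ∈ (Ioc N (2 * N)).filter (· ≡ b₀ [MOD PGB.qz (ε * Real.log N) D]), fp (n + h i₀) *
          ∏ i ∈ univ.erase i₀, (Lam V (ys N (w3u a (-1) i₁ p.1 i) (w3u b κ i₁ p.1 i)) (n + h i) *
            Lam V (ys N (w3u a (-1) i₁ p.2 i) (w3u b κ i₁ p.2 i)) (n + h i)) := ⟨_, rfl⟩
  have hup : ∑ n ∈ (Ioc N (2 * N)).filter (· ≡ b₀ [MOD PGB.qz (ε * Real.log N) D]),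
          ww J c a b N V h n * fp (n + h i₀) * (if (n + h i₁).Prime then 1 else 0) ≤
      ∑ p ∈ J ×ˢ J, w3C c p * (m (p.1 i₀) * m (p.2 i₀) * (m (p.1 i₁) * m (p.2 i₁))) / K ^ 2 * S p := by
    have h1 : ∀ n ∈ (Ioc N (2 * N)).filter (· ≡ b₀ [MOD PGB.qz (ε * Real.log N) D]),
        ww J c a b N V h n * fp (n + h i₀) * (if (n + h i₁).Prime then 1 else 0) ≤ _ := fun n hn =>
      w3_expand (κ := κ) J c a b hi hC (by rw [← hKdef]; exact hK0)
        (Finset.mem_Ioc.1 (Finset.mem_filter.1 hn).1).1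
    refine (sum_le_sum h1).trans (le_of_eq ?_)
    rw [Finset.sum_comm]
    refine sum_congr rfl fun p _ => ?_
    rw [← Finset.mul_sum, hS, hm, hKdef]
  refine hup.trans ?_
  -- normalised data
  obtain ⟨s, hs⟩ : ∃ s : (ι → Fin L) × (ι → Fin L) → ℝ, s = fun p =>
      if p ∈ J ×ˢ J then S p / (Q * Gam ε N ^ (Fintype.card ι - 1)) else o p := ⟨_, rfl⟩
  have hd : dist (Φ (fun l => m l / Gam ε N, K / Gam ε N, s)) (Φ (t, κ, o)) < η := by
    apply hξΦ
    refine lt_of_le_of_lt ?_ hξ1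
    rw [Prod.dist_eq, Prod.dist_eq, max_le_iff, max_le_iff]
    refine ⟨?_, ?_, ?_⟩
    · rw [dist_pi_le_iff hξ0.le]
      intro l
      rw [Real.dist_eq]
      have h1 := hM' l (mem_univ _) D D' V h b₀ hC
      have e : m l / Gam ε N - t l = (mass V (ys N (a l) (b l)) - t l * Gam ε N) / Gam ε N := by
        rw [hm]
        field_simp
      rw [e, abs_div, abs_of_pos hG, div_le_iff₀ hG]
      exact h1
    · rw [Real.dist_eq]
      have e : K / Gam ε N - κ = (K - κ * Gam ε N) / Gam ε N := by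
        field_simp
      simp only
      rw [e, abs_div, abs_of_pos hG, div_le_iff₀ hG, hKdef]
      exact hK
    · rw [dist_pi_le_iff hξ0.le]
      intro p
      rw [Real.dist_eq, hs]
      simp only
      by_cases hp : p ∈ J ×ˢ J
      · rw [if_pos hp]
        have h1 := hE' p hp D D' V h b₀ hC hM
        have hM0 : 0 < Q * Gam ε N ^ (Fintype.card ι - 1) := by positivity
        have e : S p / (Q * Gam ε N ^ (Fintype.card ι - 1)) - o p =
            (S p - Q * Gam ε N ^ (Fintype.card ι - 1) * o p) /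
            (Q * Gam ε N ^ (Fintype.card ι - 1)) := by
          field_simp
        rw [e, abs_div, abs_of_pos hM0, div_le_iff₀ hM0, hS, hQ]
        exact h1
      · rw [if_neg hp, sub_self, abs_zero]
        exact hξ0.le
  rw [Real.dist_eq, hΦ0] at hd
  have hfin : Φ (fun l => m l / Gam ε N, K / Gam ε N, s) ≤ JJ J c t {i₀, i₁} / κ + η := by
    have := (abs_lt.1 hd).2
    linarith
  have hscale : ∑ p ∈ J ×ˢ J, w3C c p * (m (p.1 i₀) * m (p.2 i₀) * (m (p.1 i₁) * m (p.2 i₁))) / K ^ 2 * S p =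
      Q * Gam ε N ^ (Fintype.card ι + 1) * Φ (fun l => m l / Gam ε N, K / Gam ε N, s) := by
    rw [hΦ, Finset.mul_sum]
    refine sum_congr rfl fun p hp => ?_
    simp only
    rw [hs]
    simp only
    rw [if_pos hp, hpow]
    have hG' : Gam ε N ^ (Fintype.card ι - 1) ≠ 0 := by positivity
    field_simp
  rw [hscale, ← hQ]
  exact mul_le_mul_of_nonneg_left hfin (by positivity)

end PGL
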