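import Pool.Agent.PGL.W1
import Pool.Agent.PGL.W3
import Pool.Agent.PGL.Opt

/-! PGL / Core: primes in two different clusters.

PROOF. `δ = 1/50`, `ρ = 1/100`, `κ = 9/40` (`2 ρ + 2 κ = 0.47 ≤ 0.48 = 1/2 - δ`), `e = 1/100`. Take the data from `opt e ρ`
(`Dat (1/4)` follows from `Dat ρ`), `k = 5 M`, `A` the maximum of the constants of `w2`, `w3` (`MB` for `A` implies
`MB` for smaller `A` when `log N ≥ 1`), `ε₀ ≤ δ / 8` from `PGB.mbv δ A`, `K₀ = 100`. Let `η` be small, `y = ε log N`,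
`q = qz y D`, `u = (q / φ(q)) Γ / log N = ∏_{p ≤ y, p ∈ D} (1 - 1/p) ≥ 1 - ∑_{p ∈ D} 1 / p ≥ 1 - 1/K - 1/(log y)² ≥ 0.98`,
`u ≤ 1`, `U = (N / q) Γ^k`. Suppose there is no such `n`; then for every `n` in the range at most one cluster contains
a prime `n + h (c, a)`. Let `w = ww n ≥ 0`, `X_c(n) = #{a : n + h (c, a) prime}`, `A_c = 1[X_c > 0]`, so
`∑_c ∑_n w A_c ≤ ∑_n w =: W ≤ (Z^k + η) U` (`w1`). Cauchy-Schwarz: `(∑ w X_c)² ≤ (∑ w A_c) (∑ w X_c²)`. For large `N`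
`log N ≤ log (n + h) ≤ (1 + η) log N`, so by `w2`:
`S_a := ∑_n w 1_P(n + h_a)` satisfies
`u (1 - η) ((1 - e) Z^(k-1) m² - η) U ≤ S_a ≤ u (Z^(k-1) m² + η) U` (as `(N / φ(q)) Γ^(k+1) / log N = u U`), and by `w3`
`S_{a a'} := ∑_n w 1_P(n + h_a) 1_P(n + h_a') ≤ u (Z^(k-2) m^4 / κ + η) U` for `a ≠ a'`. So
`∑ w X_c² ≤ u (M (Z^(k-1) m² + η) + M² (Z^(k-2) m^4 / κ + η)) U` and
`W ≥ ∑_c (∑ w X_c)² / ∑ w X_c² ≥ 5 u (1-η)² M² ((1 - e) Z^(k-1) m² - η)² U / (M (...) + M² (...))`.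
As `η → 0` the inequality would give `5 u (1 - e)² ≤ Z / (M m²) + 1/κ ≤ e + 40/9` (divide by `Z^k`), but
`5 · 0.98 · 0.9801 = 4.80 > 4.4545`: choose `η` small depending on `Z, m, M, k` only. -/

set_option autoImplicit false

open Finset

noncomputable section

namespace PGL

/-- the properties of the exceptional set of primes -/
def DP (ε : ℝ) (K N : ℕ) (D D' : Finset ℕ) : Prop :=
  D' ⊆ D ∧ (D \ D').card ≤ 1 ∧ (∀ p ∈ D, p.Prime ∧ K < p) ∧ (∀ p ∈ D', (p : ℝ) ≤ ε * Real.log N) ∧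
    ∑ p ∈ D', (1 : ℝ) / p ≤ 1 / Real.log (ε * Real.log N) ^ 2

private theorem cMB_mono {δ A A' ε : ℝ} {N : ℕ} {D : Finset ℕ} (hA : A' ≤ A) (hN : 1 ≤ Real.log N)
    (h : MB δ A ε N D) : MB δ A' ε N D := by
  intro R hR a ha
  refine (h R hR a ha).trans ?_
  have hφ : (0 : ℝ) < Nat.totient (PGB.qz (ε * Real.log N) D) := by
    exact_mod_cast Nat.totient_pos.2 (PGB.qz_pos _ _)
  have h1 : 0 < Real.log N ^ A' := Real.rpow_pos_of_pos (by linarith) _
  have h2 : Real.log N ^ A' ≤ Real.log N ^ A := Real.rpow_le_rpow_of_exponent_le hN hA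
  gcongr

private theorem c_prod_lower {s : Finset ℕ} {f : ℕ → ℝ} (h0 : ∀ i ∈ s, 0 ≤ f i) (h1 : ∀ i ∈ s, f i ≤ 1) :
    1 - ∑ i ∈ s, f i ≤ ∏ i ∈ s, (1 - f i) ∧ 0 ≤ ∏ i ∈ s, (1 - f i) ∧ ∏ i ∈ s, (1 - f i) ≤ 1 := by
  classical
  induction s using Finset.induction_on with
  | empty => simp
  | insert a s ha ih =>
    have ih := ih (fun i hi => h0 i (Finset.mem_insert_of_mem hi)) (fun i hi => h1 i (Finset.mem_insert_of_mem hi))
    have a0 := h0 a (Finset.mem_insert_self _ _)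
    have a1 := h1 a (Finset.mem_insert_self _ _)
    rw [Finset.sum_insert ha, Finset.prod_insert ha]
    obtain ⟨i1, i2, i3⟩ := ih
    refine ⟨?_, mul_nonneg (by linarith) i2, ?_⟩
    · nlinarith [mul_le_mul_of_nonneg_left i3 a0]
    · nlinarith [mul_nonneg a0 i2]

private theorem c_u_eq (y : ℝ) (D : Finset ℕ) :
    (PGB.qz y D : ℝ) / Nat.totient (PGB.qz y D) * MP y =
      ∏ p ∈ (PP y).filter (· ∈ D), (1 - 1 / (p : ℝ)) := by
  classical
  have hS : ∀ p ∈ (PP y).filter (· ∉ D), p.Prime := fun p hp => by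
    rw [PP, Finset.filter_filter, Finset.mem_filter] at hp
    exact hp.2.1
  have hq : PGB.qz y D = ∏ p ∈ (PP y).filter (· ∉ D), p := by
    rw [PGB.qz, PP, Finset.filter_filter]
  have h1 : (Nat.totient (PGB.qz y D) : ℝ) =
      (PGB.qz y D : ℝ) * ∏ p ∈ (PP y).filter (· ∉ D), (1 - 1 / (p : ℝ)) := by
    have h := Nat.totient_eq_mul_prod_factors (PGB.qz y D)
    have h2 : (PGB.qz y D).primeFactors = (PP y).filter (· ∉ D) := by
      rw [hq]
      exact Nat.primeFactors_prod hS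
    rw [h2] at h
    have h3 := congrArg (fun x : ℚ => (x : ℝ)) h
    push_cast at h3
    rw [h3]
    simp only [one_div]
  have hq0 : (0 : ℝ) < PGB.qz y D := by exact_mod_cast PGB.qz_pos y D
  have hP : 0 < ∏ p ∈ (PP y).filter (· ∉ D), (1 - 1 / (p : ℝ)) := by
    refine Finset.prod_pos fun p hp => ?_
    have h2 : (2 : ℝ) ≤ p := by exact_mod_cast (hS p hp).two_le
    have : 1 / (p : ℝ) ≤ 1 / 2 := by gcongr
    linarith
  rw [h1, MP, ← Finset.prod_filter_mul_prod_filter_not (PP y) (· ∈ D)]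
  field_simp

private theorem c_u_bd {y : ℝ} {K : ℕ} (hK : 100 ≤ K) {D D' : Finset ℕ} (h1 : D' ⊆ D)
    (h2 : (D \ D').card ≤ 1) (h3 : ∀ p ∈ D, p.Prime ∧ K < p)
    (h4 : ∑ p ∈ D', (1 : ℝ) / p ≤ 1 / Real.log y ^ 2) (hy : 10 ≤ Real.log y) :
    49 / 50 ≤ (PGB.qz y D : ℝ) / Nat.totient (PGB.qz y D) * MP y ∧
      (PGB.qz y D : ℝ) / Nat.totient (PGB.qz y D) * MP y ≤ 1 := by
  classical
  rw [c_u_eq]
  have hp0 : ∀ p ∈ (PP y).filter (· ∈ D), (0 : ℝ) ≤ 1 / (p : ℝ) := fun p _ => by positivity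
  have hp1 : ∀ p ∈ (PP y).filter (· ∈ D), 1 / (p : ℝ) ≤ 1 := fun p hp => by
    have h5 := (h3 p (Finset.mem_filter.1 hp).2).1.one_le
    rw [div_le_one (by exact_mod_cast h5)]
    exact_mod_cast h5
  obtain ⟨i1, i2, i3⟩ := c_prod_lower hp0 hp1
  refine ⟨?_, i3⟩
  have h6 : ∑ p ∈ (PP y).filter (· ∈ D), 1 / (p : ℝ) ≤ ∑ p ∈ D, 1 / (p : ℝ) :=
    Finset.sum_le_sum_of_subset_of_nonneg (fun p hp => (Finset.mem_filter.1 hp).2)
      (fun p _ _ => by positivity)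
  have h7 : ∑ p ∈ D, 1 / (p : ℝ) = ∑ p ∈ D \ D', 1 / (p : ℝ) + ∑ p ∈ D', 1 / (p : ℝ) :=
    (Finset.sum_sdiff h1).symm
  have h8 : ∑ p ∈ D \ D', 1 / (p : ℝ) ≤ 1 / 100 := by
    calc ∑ p ∈ D \ D', 1 / (p : ℝ) ≤ ∑ p ∈ D \ D', (1 / 100 : ℝ) := by
          refine Finset.sum_le_sum fun p hp => ?_
          have h9 := (h3 p (Finset.mem_sdiff.1 hp).1).2
          have h10 : (100 : ℝ) ≤ p := by exact_mod_cast (by omega : 100 ≤ p)
          gcongr
      _ = ((D \ D').card : ℝ) * (1 / 100) := by rw [Finset.sum_const, nsmul_eq_mul]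
      _ ≤ 1 * (1 / 100) := by
          gcongr
          exact_mod_cast h2
      _ = 1 / 100 := by norm_num
  have h9 : 1 / Real.log y ^ 2 ≤ 1 / 100 := by
    have : (100 : ℝ) ≤ Real.log y ^ 2 := by nlinarith
    gcongr
  linarith

/-- the Cauchy-Schwarz step -/
private theorem c_cs {T : Finset ℕ} {M : ℕ} (w : ℕ → ℝ) (hw : ∀ n, 0 ≤ w n)
    (P : Fin 5 × Fin M → ℕ → ℝ) (hP : ∀ i n, P i n = 0 ∨ P i n = 1)
    (hno : ∀ n ∈ T, ∀ i j, i.1 ≠ j.1 → P i n * P j n = 0) (s₁ S₁ S₂ : ℝ) (hs : 0 ≤ s₁)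
    (h1 : ∀ i, s₁ ≤ ∑ n ∈ T, w n * P i n) (h2 : ∀ i, ∑ n ∈ T, w n * P i n ≤ S₁)
    (h3 : ∀ i j, i ≠ j → ∑ n ∈ T, w n * P i n * P j n ≤ S₂) (hS₁ : 0 ≤ S₁) (hS₂ : 0 ≤ S₂) :
    5 * (M * s₁) ^ 2 ≤ (∑ n ∈ T, w n) * (M * S₁ + M ^ 2 * S₂) := by
  classical
  have hP0 : ∀ i n, 0 ≤ P i n := fun i n => by rcases hP i n with h | h <;> simp [h]
  set X : Fin 5 → ℕ → ℝ := fun c n => ∑ a : Fin M, P (c, a) n with hX
  set A : Fin 5 → ℕ → ℝ := fun c n => if ∃ a : Fin M, P (c, a) n = 1 then 1 else 0 with hA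
  have hX0 : ∀ c n, 0 ≤ X c n := fun c n => Finset.sum_nonneg fun a _ => hP0 _ _
  have hAX : ∀ c n, A c n * X c n ^ 2 = X c n ^ 2 := by
    intro c n
    simp only [hA]
    split_ifs with h
    · simp
    · have : X c n = 0 := Finset.sum_eq_zero fun a _ => by
        rcases hP (c, a) n with h' | h'
        · exact h'
        · exact absurd ⟨a, h'⟩ h
      simp [this]
  have hA0 : ∀ c n, 0 ≤ A c n := fun c n => by simp only [hA]; split_ifs <;> norm_num
  have hA1 : ∀ n ∈ T, ∑ c, A c n ≤ 1 := by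
    intro n hn
    by_cases h : ∃ c : Fin 5, ∃ a : Fin M, P (c, a) n = 1
    · obtain ⟨c, a, hca⟩ := h
      rw [Finset.sum_eq_single c]
      · simp only [hA]; split_ifs <;> norm_num
      · intro c' _ hc'
        simp only [hA]
        rw [if_neg]
        rintro ⟨a', ha'⟩
        have := hno n hn (c', a') (c, a) hc'
        rw [ha', hca] at this
        norm_num at this
      · intro h; exact absurd (Finset.mem_univ _) h
    · rw [Finset.sum_eq_zero]
      · norm_num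
      · intro c _
        simp only [hA]
        rw [if_neg]
        exact fun h' => h ⟨c, h'⟩
  have hB : ∀ c, ∑ n ∈ T, w n * X c n ^ 2 ≤ M * S₁ + M ^ 2 * S₂ := by
    intro c
    have e1 : ∀ n, w n * X c n ^ 2 = ∑ a : Fin M, ∑ a' : Fin M, w n * P (c, a) n * P (c, a') n := by
      intro n
      simp only [hX]
      rw [sq, Finset.sum_mul_sum, Finset.mul_sum]
      refine Finset.sum_congr rfl fun a _ => ?_
      rw [Finset.mul_sum]
      refine Finset.sum_congr rfl fun a' _ => ?_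
      ring
    calc ∑ n ∈ T, w n * X c n ^ 2
        = ∑ a : Fin M, ∑ a' : Fin M, ∑ n ∈ T, w n * P (c, a) n * P (c, a') n := by
          rw [Finset.sum_congr rfl fun n _ => e1 n, Finset.sum_comm]
          refine Finset.sum_congr rfl fun a _ => ?_
          rw [Finset.sum_comm]
      _ ≤ ∑ a : Fin M, ∑ a' : Fin M, ((if a = a' then S₁ else 0) + S₂) := by
          refine Finset.sum_le_sum fun a _ => Finset.sum_le_sum fun a' _ => ?_
          split_ifs with h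
          · subst h
            have : ∑ n ∈ T, w n * P (c, a) n * P (c, a) n = ∑ n ∈ T, w n * P (c, a) n := by
              refine Finset.sum_congr rfl fun n _ => ?_
              rcases hP (c, a) n with h' | h' <;> simp [h']
            rw [this]
            linarith [h2 (c, a)]
          · rw [zero_add]
            refine h3 _ _ fun h' => h ?_
            exact (Prod.mk.inj h').2
      _ = M * S₁ + M ^ 2 * S₂ := by
          simp only [Finset.sum_add_distrib, Finset.sum_ite_eq, Finset.mem_univ, if_true,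
            Finset.sum_const, Finset.card_univ, Fintype.card_fin, nsmul_eq_mul]
          ring
  have hBn : 0 ≤ M * S₁ + M ^ 2 * S₂ := by positivity
  have hc : ∀ c, (M * s₁) ^ 2 ≤ (∑ n ∈ T, w n * A c n) * (M * S₁ + M ^ 2 * S₂) := by
    intro c
    have e1 : M * s₁ ≤ ∑ n ∈ T, w n * X c n := by
      calc (M : ℝ) * s₁ = ∑ a : Fin M, s₁ := by simp
        _ ≤ ∑ a : Fin M, ∑ n ∈ T, w n * P (c, a) n := Finset.sum_le_sum fun a _ => h1 _
        _ = ∑ n ∈ T, w n * X c n := by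
            rw [Finset.sum_comm]
            refine Finset.sum_congr rfl fun n _ => ?_
            rw [← Finset.mul_sum]
    have e2 : (∑ n ∈ T, w n * X c n) ^ 2 ≤ (∑ n ∈ T, w n * A c n) * ∑ n ∈ T, w n * X c n ^ 2 := by
      refine Finset.sum_sq_le_sum_mul_sum_of_sq_le_mul T (fun n _ => mul_nonneg (hw n) (hA0 _ _))
        (fun n _ => mul_nonneg (hw n) (sq_nonneg _)) fun n _ => le_of_eq ?_
      have := hAX c n
      calc (w n * X c n) ^ 2 = w n * w n * X c n ^ 2 := by ring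
        _ = w n * w n * (A c n * X c n ^ 2) := by rw [this]
        _ = _ := by ring
    calc (M * s₁) ^ 2 ≤ (∑ n ∈ T, w n * X c n) ^ 2 := by
          gcongr
      _ ≤ _ := e2
      _ ≤ _ := by
          refine mul_le_mul_of_nonneg_left (hB c) ?_
          exact Finset.sum_nonneg fun n _ => mul_nonneg (hw n) (hA0 _ _)
  calc 5 * (M * s₁) ^ 2 = ∑ c : Fin 5, (M * s₁) ^ 2 := by simp
    _ ≤ ∑ c : Fin 5, (∑ n ∈ T, w n * A c n) * (M * S₁ + M ^ 2 * S₂) := Finset.sum_le_sum fun c _ => hc c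
    _ = (∑ n ∈ T, w n * ∑ c, A c n) * (M * S₁ + M ^ 2 * S₂) := by
        rw [← Finset.sum_mul, Finset.sum_comm]
        congr 1
        refine Finset.sum_congr rfl fun n _ => ?_
        rw [Finset.mul_sum]
    _ ≤ (∑ n ∈ T, w n) * (M * S₁ + M ^ 2 * S₂) := by
        refine mul_le_mul_of_nonneg_right (Finset.sum_le_sum fun n hn => ?_) hBn
        have := mul_le_mul_of_nonneg_left (hA1 n hn) (hw n)
        linarith

/-- the choice of `η` -/
private theorem c_eta {M Z m P : ℝ} (hM : 0 < M) (hZ : 0 < Z) (hm : 0 < m) (hP : 0 < P)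
    (hZm : Z ≤ 1 / 100 * (M * m ^ 2)) :
    ∃ η : ℝ, 0 < η ∧ η < 1 ∧ 0 < (1 - 1 / 100) * (P * Z * m ^ 2) - η ∧
      (P * Z ^ 2 + η) * (M * (P * Z * m ^ 2 + η) + M ^ 2 * (P * m ^ 4 / (9 / 40) + η)) <
        5 * (49 / 50) * (M * ((1 - η) * ((1 - 1 / 100) * (P * Z * m ^ 2) - η))) ^ 2 := by
  have key : (P * Z ^ 2 + 0) * (M * (P * Z * m ^ 2 + 0) + M ^ 2 * (P * m ^ 4 / (9 / 40) + 0)) <
        5 * (49 / 50) * (M * ((1 - 0) * ((1 - 1 / 100) * (P * Z * m ^ 2) - 0))) ^ 2 := by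
    have h1 : M * Z * m ^ 2 ≤ 1 / 100 * (M ^ 2 * m ^ 4) := by
      have := mul_le_mul_of_nonneg_right hZm (by positivity : 0 ≤ M * m ^ 2)
      nlinarith
    have h2 : 0 < P ^ 2 * Z ^ 2 := by positivity
    have h3 : 0 < M ^ 2 * m ^ 4 := by positivity
    have h4 : (P * Z ^ 2 + 0) * (M * (P * Z * m ^ 2 + 0) + M ^ 2 * (P * m ^ 4 / (9 / 40) + 0)) =
        P ^ 2 * Z ^ 2 * (M * Z * m ^ 2 + M ^ 2 * m ^ 4 * (40 / 9)) := by ring
    have h5 : 5 * (49 / 50) * (M * ((1 - 0) * ((1 - 1 / 100) * (P * Z * m ^ 2) - 0))) ^ 2 =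
        P ^ 2 * Z ^ 2 * (5 * (49 / 50) * (99 / 100) ^ 2 * (M ^ 2 * m ^ 4)) := by ring
    rw [h4, h5]
    refine mul_lt_mul_of_pos_left ?_ h2
    nlinarith
  have hcont : Filter.Tendsto (fun η : ℝ =>
      5 * (49 / 50) * (M * ((1 - η) * ((1 - 1 / 100) * (P * Z * m ^ 2) - η))) ^ 2 -
      (P * Z ^ 2 + η) * (M * (P * Z * m ^ 2 + η) + M ^ 2 * (P * m ^ 4 / (9 / 40) + η)))
      (nhdsWithin 0 (Set.Ioi 0)) (nhds (
      5 * (49 / 50) * (M * ((1 - 0) * ((1 - 1 / 100) * (P * Z * m ^ 2) - 0))) ^ 2 -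
      (P * Z ^ 2 + 0) * (M * (P * Z * m ^ 2 + 0) + M ^ 2 * (P * m ^ 4 / (9 / 40) + 0)))) := by
    refine Filter.Tendsto.mono_left ?_ nhdsWithin_le_nhds
    refine Continuous.tendsto (f := fun η : ℝ =>
      5 * (49 / 50) * (M * ((1 - η) * ((1 - 1 / 100) * (P * Z * m ^ 2) - η))) ^ 2 -
      (P * Z ^ 2 + η) * (M * (P * Z * m ^ 2 + η) + M ^ 2 * (P * m ^ 4 / (9 / 40) + η))) ?_ 0
    fun_prop
  have e1 := hcont.eventually (lt_mem_nhds (sub_pos.2 key))
  have hc : 0 < (1 - 1 / 100) * (P * Z * m ^ 2) := by positivity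
  have e2 : ∀ᶠ η : ℝ in nhdsWithin 0 (Set.Ioi 0), η < 1 :=
    (Filter.Tendsto.mono_left Filter.tendsto_id nhdsWithin_le_nhds).eventually (gt_mem_nhds one_pos)
  have e3 : ∀ᶠ η : ℝ in nhdsWithin 0 (Set.Ioi 0), η < (1 - 1 / 100) * (P * Z * m ^ 2) :=
    (Filter.Tendsto.mono_left Filter.tendsto_id nhdsWithin_le_nhds).eventually (gt_mem_nhds hc)
  have e4 : ∀ᶠ η : ℝ in nhdsWithin 0 (Set.Ioi 0), 0 < η := self_mem_nhdsWithin
  obtain ⟨η, h1, h2, h3, h4⟩ := (e1.and (e2.and (e3.and e4))).exists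
  exact ⟨η, h4, h2, by linarith, by linarith⟩

theorem core : ∃ M : ℕ, 0 < M ∧ ∃ ε₀ : ℝ, 0 < ε₀ ∧ ∃ K₀ : ℕ, ∀ ε : ℝ, 0 < ε → ε ≤ ε₀ → ∀ K : ℕ, K₀ ≤ K →
    ∀ C : ℝ, ∃ N₀ : ℕ, ∀ N : ℕ, N₀ ≤ N → ∃ D D' : Finset ℕ, DP ε K N D D' ∧
      ∀ h : Fin 5 × Fin M → ℕ, Function.Injective h → (∀ i, (h i : ℝ) ≤ C * Real.log N) →
        ∀ b : ℕ, (∀ i, (b + h i).Coprime (PGB.qz (ε * Real.log N) D)) →
          ∃ n : ℕ, N < n ∧ n ≤ 2 * N ∧ n ≡ b [MOD PGB.qz (ε * Real.log N) D] ∧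
            ∃ i j : Fin 5 × Fin M, i.1 ≠ j.1 ∧ (n + h i).Prime ∧ (n + h j).Prime := by
  classical
  obtain ⟨M, L, J, c, a, b', t, Z, m, hM, hZ, hm, hDat, hJ0, hJ0', hJ1, hJ2, hZm⟩ :=
    opt (1 / 100) (1 / 100) (by norm_num) (by norm_num)
  have hD4 : Dat (1 / 4) J a b' t :=
    ⟨hDat.st, hDat.ov, fun j hj => (hDat.lev j hj).trans (by norm_num)⟩
  obtain ⟨A₂, hw2⟩ := w2 (ι := Fin 5 × Fin M) (1 / 50) (1 / 100) (by norm_num) (by norm_num)
    (by norm_num)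
  obtain ⟨A₃, hw3⟩ := w3 (ι := Fin 5 × Fin M) (1 / 50) (1 / 100) (9 / 40) (by norm_num) (by norm_num)
    (by norm_num) (by norm_num) (by norm_num)
  obtain ⟨ε₁, hε₁, hmbv⟩ := PGB.mbv (1 / 50) (max A₂ A₃) (by norm_num) (by norm_num)
  refine ⟨M, hM, min ε₁ (1 / 400), by positivity, 100, fun ε hε hεle K hK C => ?_⟩
  have hεa : ε ≤ ε₁ := hεle.trans (min_le_left _ _)
  have hεb : ε ≤ 1 / 400 := hεle.trans (min_le_right _ _)
  have hMr : (0 : ℝ) < M := by exact_mod_cast hM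
  set P : ℝ := Z ^ (5 * M - 2) with hPdef
  have hP : 0 < P := by positivity
  have hP1 : Z ^ (5 * M - 1) = P * Z := by
    rw [hPdef, ← pow_succ]
    congr 1
    omega
  have hP2 : Z ^ (5 * M) = P * Z ^ 2 := by
    rw [hPdef, ← pow_add]
    congr 1
    omega
  obtain ⟨η, hη, hη1, hηs, hηF⟩ := c_eta hMr hZ hm hP hZm
  obtain ⟨N₁, hN₁⟩ := w1 J c a b' t hD4 ε C η hε (hεb.trans (by norm_num)) hη
  have H2 : ∀ᶠ N : ℕ in Filter.atTop, ∀ i₀ : Fin 5 × Fin M, ∀ (D D' V : Finset ℕ) (h : Fin 5 × Fin M → ℕ)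
      (b₀ : ℕ), Ctx ε C N D D' V h b₀ → MB (1 / 50) A₂ ε N D →
      |∑ n ∈ (Ioc N (2 * N)).filter (· ≡ b₀ [MOD PGB.qz (ε * Real.log N) D]),
          ww J c a b' N V h n * fp (n + h i₀) -
        N / (Nat.totient (PGB.qz (ε * Real.log N) D) : ℝ) *
          Gam ε N ^ (Fintype.card (Fin 5 × Fin M) + 1) * JJ J c t {i₀}| ≤
        η * (N / (Nat.totient (PGB.qz (ε * Real.log N) D) : ℝ) *
          Gam ε N ^ (Fintype.card (Fin 5 × Fin M) + 1)) := by
    rw [Filter.eventually_all]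
    intro i₀
    obtain ⟨N₂, h⟩ := hw2 J c a b' t hDat i₀ ε C η hε (by linarith) hη
    exact Filter.eventually_atTop.2 ⟨N₂, fun N hN => h N hN⟩
  have H3 : ∀ᶠ N : ℕ in Filter.atTop, ∀ i₀ i₁ : Fin 5 × Fin M, i₀ ≠ i₁ →
      ∀ (D D' V : Finset ℕ) (h : Fin 5 × Fin M → ℕ) (b₀ : ℕ), Ctx ε C N D D' V h b₀ →
      MB (1 / 50) A₃ ε N D →
      ∑ n ∈ (Ioc N (2 * N)).filter (· ≡ b₀ [MOD PGB.qz (ε * Real.log N) D]),
          ww J c a b' N V h n * fp (n + h i₀) * (if (n + h i₁).Prime then 1 else 0) ≤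
        N / (Nat.totient (PGB.qz (ε * Real.log N) D) : ℝ) *
          Gam ε N ^ (Fintype.card (Fin 5 × Fin M) + 1) * (JJ J c t {i₀, i₁} / (9 / 40) + η) := by
    rw [Filter.eventually_all]
    intro i₀
    rw [Filter.eventually_all]
    intro i₁
    by_cases hi : i₀ = i₁
    · exact Filter.Eventually.of_forall fun N h => absurd hi h
    · obtain ⟨N₂, h⟩ := hw3 J c a b' t hDat i₀ i₁ ε C η hi hε (by linarith) hη
      exact Filter.eventually_atTop.2 ⟨N₂, fun N hN _ => h N hN⟩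
  obtain ⟨N₂, hN₂⟩ := Filter.eventually_atTop.1 H2
  obtain ⟨N₃, hN₃⟩ := Filter.eventually_atTop.1 H3
  obtain ⟨N₄, hN₄⟩ := hmbv ε hε hεa K
  have hlog : Filter.Tendsto (fun N : ℕ => Real.log N) Filter.atTop Filter.atTop :=
    Real.tendsto_log_atTop.comp tendsto_natCast_atTop_atTop
  have hlog2 : Filter.Tendsto (fun N : ℕ => Real.log (ε * Real.log N)) Filter.atTop Filter.atTop :=
    Real.tendsto_log_atTop.comp (hlog.const_mul_atTop hε)
  have H4 : ∀ᶠ N : ℕ in Filter.atTop, C * Real.log N ≤ N := by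
    have h := (Real.isLittleO_log_id_atTop.bound (show (0 : ℝ) < 1 / (|C| + 1) by positivity))
    filter_upwards [tendsto_natCast_atTop_atTop.eventually h, Filter.eventually_ge_atTop 1] with N h1 h2
    have hL : 0 ≤ Real.log N := Real.log_nonneg (by exact_mod_cast h2)
    rw [Real.norm_of_nonneg hL, id, Real.norm_of_nonneg (by positivity), one_div,
      ← div_eq_inv_mul, le_div_iff₀ (by positivity)] at h1
    nlinarith [le_abs_self C]
  obtain ⟨N₅, hN₅⟩ := Filter.eventually_atTop.1 ((hlog.eventually (Filter.eventually_ge_atTop 1)).and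
    ((hlog2.eventually (Filter.eventually_ge_atTop 10)).and (H4.and
      ((hlog.eventually (Filter.eventually_ge_atTop (Real.log 3 / η))).and
        (Filter.eventually_ge_atTop 1)))))
  refine ⟨max (max (max N₁ N₂) (max N₃ N₄)) N₅, fun N hN => ?_⟩
  have g1 : N₁ ≤ N := ((le_max_left _ _).trans ((le_max_left _ _).trans (le_max_left _ _))).trans hN
  have g2 : N₂ ≤ N := ((le_max_right _ _).trans ((le_max_left _ _).trans (le_max_left _ _))).trans hN
  have g3 : N₃ ≤ N := ((le_max_left _ _).trans ((le_max_right _ _).trans (le_max_left _ _))).trans hN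
  have g4 : N₄ ≤ N := ((le_max_right _ _).trans ((le_max_right _ _).trans (le_max_left _ _))).trans hN
  have g5 : N₅ ≤ N := (le_max_right _ _).trans hN
  obtain ⟨l1, l2, l3, l4, l5⟩ := hN₅ N g5
  obtain ⟨D, D', d1, d2, d3, d4, d5, hMB⟩ := hN₄ N g4
  refine ⟨D, D', ⟨d1, d2, d3, d4, d5⟩, fun h hinj hle b hcop => ?_⟩
  by_contra hcon
  push Not at hcon
  set y : ℝ := ε * Real.log N with hy
  set q : ℕ := PGB.qz y D with hq
  set V : Finset ℕ := (VN y N).filter (fun p => p ∉ D ∧ ∀ i j, i ≠ j → ¬ h i ≡ h j [MOD p]) with hV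
  have hC : Ctx ε C N D D' V h b :=
    ⟨d1, d2, fun p hp => (d3 p hp).1, d4, fun p => by rw [hV, Finset.mem_filter], hinj, hle, hcop⟩
  have hMB' : MB (1 / 50) (max A₂ A₃) ε N D := hMB
  have M2 := cMB_mono (le_max_left _ _) l1 hMB'
  have M3 := cMB_mono (le_max_right _ _) l1 hMB'
  obtain ⟨u1, u2⟩ := c_u_bd hK d1 d2 d3 d5 l2
  set w : ℕ → ℝ := fun n => ww J c a b' N V h n with hw
  set T : Finset ℕ := (Ioc N (2 * N)).filter (· ≡ b [MOD q]) with hT
  have hw0 : ∀ n, 0 ≤ w n := fun n => sq_nonneg _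
  have W1 := hN₁ N g1 D D' V h b hC
  have W2 := fun i => hN₂ N g2 i D D' V h b hC M2
  have W3 := fun i j hij => hN₃ N g3 i j hij D D' V h b hC M3
  have hcard : Fintype.card (Fin 5 × Fin M) = 5 * M := by simp
  simp only [hcard] at W1 W2 W3
  have hq0 : (0 : ℝ) < q := by exact_mod_cast PGB.qz_pos y D
  have hφ0 : (0 : ℝ) < Nat.totient q := by exact_mod_cast Nat.totient_pos.2 (PGB.qz_pos y D)
  have hN0 : (0 : ℝ) < N := by exact_mod_cast l5
  have hL0 : 0 < Real.log N := by linarith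
  have hΓ : 0 < Gam ε N := mul_pos (MP_pos _) hL0
  set u : ℝ := (q : ℝ) / Nat.totient q * MP y with hu
  set U : ℝ := N / (q : ℝ) * Gam ε N ^ (5 * M) with hU
  have hU0 : 0 < U := by positivity
  have hu0 : 0 < u := by linarith
  have huU : N / (Nat.totient q : ℝ) * Gam ε N ^ (5 * M + 1) = u * U * Real.log N := by
    rw [hu, hU, pow_succ]
    have : Gam ε N = MP y * Real.log N := rfl
    have h2 : Gam ε N ^ (5 * M) * Gam ε N = Gam ε N ^ (5 * M) * (MP y * Real.log N) := by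
      rw [this]
    rw [h2]
    field_simp
  rw [huU] at W3 W2
  set Pf : Fin 5 × Fin M → ℕ → ℝ := fun i n => if (n + h i).Prime then 1 else 0 with hPf
  have hPf0 : ∀ i n, 0 ≤ Pf i n := fun i n => by simp only [hPf]; split_ifs <;> norm_num
  have hTN : ∀ n ∈ T, N < n ∧ n ≤ 2 * N ∧ n ≡ b [MOD q] := fun n hn => by
    rw [hT, Finset.mem_filter, Finset.mem_Ioc] at hn
    exact ⟨hn.1.1, hn.1.2, hn.2⟩
  have hlo : ∀ i, ∀ n ∈ T, Pf i n * Real.log N ≤ fp (n + h i) := by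
    intro i n hn
    simp only [hPf, fp]
    split_ifs with hp
    · rw [one_mul]
      refine Real.log_le_log hN0 ?_
      exact_mod_cast (by have := (hTN n hn).1; omega : N ≤ n + h i)
    · simp
  have hhi : ∀ i, ∀ n ∈ T, fp (n + h i) ≤ (1 + η) * (Real.log N * Pf i n) := by
    intro i n hn
    simp only [hPf, fp]
    split_ifs with hp
    · have h1 : ((n + h i : ℕ) : ℝ) ≤ 3 * N := by
        have h2 : (n : ℝ) ≤ 2 * N := by exact_mod_cast (hTN n hn).2.1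
        have h3 := hle i
        push_cast
        linarith
      have h2 : (0 : ℝ) < ((n + h i : ℕ) : ℝ) := by exact_mod_cast hp.pos
      have h3 := Real.log_le_log h2 h1
      rw [Real.log_mul (by norm_num) hN0.ne'] at h3
      have h4 : Real.log 3 ≤ η * Real.log N := by
        rw [div_le_iff₀ hη] at l4
        linarith
      linarith
    · simp
  have hs1 : ∀ i, u * U * ((1 - η) * ((1 - 1 / 100) * (P * Z * m ^ 2) - η)) ≤ ∑ n ∈ T, w n * Pf i n := by
    intro i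
    have e1 : ∑ n ∈ T, w n * fp (n + h i) ≤ (1 + η) * (Real.log N * ∑ n ∈ T, w n * Pf i n) := by
      rw [Finset.mul_sum, Finset.mul_sum]
      refine Finset.sum_le_sum fun n hn => ?_
      have := mul_le_mul_of_nonneg_left (hhi i n hn) (hw0 n)
      linarith
    have e2 := (abs_le.1 (W2 i)).1
    have e3 : u * U * Real.log N * ((1 - 1 / 100) * (P * Z * m ^ 2)) ≤ u * U * Real.log N * JJ J c t {i} := by
      have := (hJ1 i).1
      rw [hP1] at this
      exact mul_le_mul_of_nonneg_left this (by positivity)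
    have e4 : u * U * Real.log N * ((1 - 1 / 100) * (P * Z * m ^ 2) - η) ≤
        (1 + η) * (Real.log N * ∑ n ∈ T, w n * Pf i n) := by
      have e5 : u * U * Real.log N * ((1 - 1 / 100) * (P * Z * m ^ 2) - η) =
        u * U * Real.log N * ((1 - 1 / 100) * (P * Z * m ^ 2)) - η * (u * U * Real.log N) := by ring
      rw [e5]
      linarith
    have e6 : u * U * ((1 - 1 / 100) * (P * Z * m ^ 2) - η) ≤ (1 + η) * ∑ n ∈ T, w n * Pf i n := by
      refine le_of_mul_le_mul_right ?_ hL0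
      calc _ = u * U * Real.log N * ((1 - 1 / 100) * (P * Z * m ^ 2) - η) := by ring
        _ ≤ _ := e4
        _ = _ := by ring
    have e7 : 0 ≤ ∑ n ∈ T, w n * Pf i n :=
      Finset.sum_nonneg fun n _ => mul_nonneg (hw0 n) (hPf0 i n)
    calc u * U * ((1 - η) * ((1 - 1 / 100) * (P * Z * m ^ 2) - η))
        = (1 - η) * (u * U * ((1 - 1 / 100) * (P * Z * m ^ 2) - η)) := by ring
      _ ≤ (1 - η) * ((1 + η) * ∑ n ∈ T, w n * Pf i n) :=
          mul_le_mul_of_nonneg_left e6 (by linarith)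
      _ = ∑ n ∈ T, w n * Pf i n - η ^ 2 * ∑ n ∈ T, w n * Pf i n := by ring
      _ ≤ _ := by
          have := mul_nonneg (sq_nonneg η) e7
          linarith
  have hS1 : ∀ i, ∑ n ∈ T, w n * Pf i n ≤ u * U * (P * Z * m ^ 2 + η) := by
    intro i
    have e1 : (∑ n ∈ T, w n * Pf i n) * Real.log N ≤ ∑ n ∈ T, w n * fp (n + h i) := by
      rw [Finset.sum_mul]
      refine Finset.sum_le_sum fun n hn => ?_
      have := mul_le_mul_of_nonneg_left (hlo i n hn) (hw0 n)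
      linarith
    have e2 := (abs_le.1 (W2 i)).2
    have e3 : u * U * Real.log N * JJ J c t {i} ≤ u * U * Real.log N * (P * Z * m ^ 2) := by
      have := (hJ1 i).2
      rw [hP1] at this
      exact mul_le_mul_of_nonneg_left this (by positivity)
    refine le_of_mul_le_mul_right ?_ hL0
    calc _ ≤ _ := e1
      _ ≤ u * U * Real.log N * (P * Z * m ^ 2) + η * (u * U * Real.log N) := by linarith
      _ = _ := by ring
  have hS2 : ∀ i j, i ≠ j → ∑ n ∈ T, w n * Pf i n * Pf j n ≤ u * U * (P * m ^ 4 / (9 / 40) + η) := by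
    intro i j hij
    have e1 : (∑ n ∈ T, w n * Pf i n * Pf j n) * Real.log N ≤ ∑ n ∈ T, w n * fp (n + h i) * Pf j n := by
      rw [Finset.sum_mul]
      refine Finset.sum_le_sum fun n hn => ?_
      have := mul_le_mul_of_nonneg_left (hlo i n hn) (mul_nonneg (hw0 n) (hPf0 j n))
      linarith
    have e2 := W3 i j hij
    have e3 : u * U * Real.log N * (JJ J c t {i, j} / (9 / 40) + η) ≤
        u * U * Real.log N * (P * m ^ 4 / (9 / 40) + η) := by
      have := hJ2 i j hij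
      refine mul_le_mul_of_nonneg_left ?_ (by positivity)
      gcongr
    refine le_of_mul_le_mul_right ?_ hL0
    calc _ ≤ _ := e1
      _ ≤ u * U * Real.log N * (P * m ^ 4 / (9 / 40) + η) := e2.trans e3
      _ = _ := by ring
  have hWW : ∑ n ∈ T, w n ≤ (P * Z ^ 2 + η) * U := by
    have e2 := (abs_le.1 W1).2
    have e3 : U * JJ J c t ∅ ≤ U * (P * Z ^ 2) := by
      rw [hP2] at hJ0'
      exact mul_le_mul_of_nonneg_left hJ0' hU0.le
    calc ∑ n ∈ T, w n ≤ U * (P * Z ^ 2) + η * U := by linarith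
      _ = _ := by ring
  have hfin := c_cs (T := T) w hw0 Pf (fun i n => by simp only [hPf]; split_ifs <;> simp) (by
      intro n hn i j hij
      obtain ⟨n1, n2, n3⟩ := hTN n hn
      have h2 := hcon n n1 n2 n3 i j hij
      by_cases h3 : (n + h i).Prime
      · have h4 := h2 h3
        simp only [hPf]
        rw [if_neg h4, mul_zero]
      · simp only [hPf]
        rw [if_neg h3, zero_mul])
    (u * U * ((1 - η) * ((1 - 1 / 100) * (P * Z * m ^ 2) - η)))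
    (u * U * (P * Z * m ^ 2 + η)) (u * U * (P * m ^ 4 / (9 / 40) + η)) (by
      refine mul_nonneg (by positivity) (mul_nonneg (by linarith) hηs.le)) hs1 hS1 hS2
    (by positivity) (by positivity)
  have hfin2 : 5 * ((M : ℝ) * (u * U * ((1 - η) * ((1 - 1 / 100) * (P * Z * m ^ 2) - η)))) ^ 2 ≤
      ((P * Z ^ 2 + η) * U) * (M * (u * U * (P * Z * m ^ 2 + η)) +
        M ^ 2 * (u * U * (P * m ^ 4 / (9 / 40) + η))) :=
    hfin.trans (mul_le_mul_of_nonneg_right hWW (by positivity))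
  set B : ℝ := M * ((1 - η) * ((1 - 1 / 100) * (P * Z * m ^ 2) - η)) with hB
  set F : ℝ := (P * Z ^ 2 + η) * (M * (P * Z * m ^ 2 + η) + M ^ 2 * (P * m ^ 4 / (9 / 40) + η)) with hF
  have hfin3 : (u * U ^ 2) * (5 * u * B ^ 2) ≤ (u * U ^ 2) * F := by
    calc (u * U ^ 2) * (5 * u * B ^ 2) = 5 * ((M : ℝ) * (u * U * ((1 - η) *
          ((1 - 1 / 100) * (P * Z * m ^ 2) - η)))) ^ 2 := by rw [hB]; ring
      _ ≤ _ := hfin2
      _ = (u * U ^ 2) * F := by rw [hF]; ring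
  have hfin4 : 5 * u * B ^ 2 ≤ F := le_of_mul_le_mul_left hfin3 (by positivity)
  have hfin5 : 5 * (49 / 50) * B ^ 2 ≤ 5 * u * B ^ 2 := by
    have : 0 ≤ B ^ 2 := sq_nonneg _
    nlinarith
  linarith

end PGL
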