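import Pool.Agent.PGL.C1
import Pool.Agent.PGL.C2
import Pool.Agent.PGL.C3
import Pool.Agent.PGL.Core

/-! PGL / C4: the Erdős-Rankin covering.

PROOF. `y = ε log N`, `C = B / ε`, `U = C y = B log N`, `z` from `large_factor C (1/32)`, `K = z`, `Q = ∏_{p ≤ z} p`,
`h (i, a)` from `window Q M (β i) δ` (injective since the windows of different clusters are disjoint: `hsep`). For large
`N` all `h > log N ≥ y` are primes `≡ 1 mod Q`. Residue classes `a_p` for the primes `p ≤ y`, `p ∉ D`: `a_2 = 0`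
(`2 ∉ D` as the primes of `D` are `> K = z ≥ 3`), `a_p = -1` for `3 ≤ p ≤ z`, `a_p = 0` for `z < p ≤ y / 2`; the
primes in `(y/2, y]` below; finally `b ≡ -a_p mod p` for all of them (`crt_prod`; the primes `p ≤ y`, `p ∉ D` are the
prime factors of `qz y D`). No `h` is in a class `a_p` with `p ≤ y / 2`: `h` is odd, `h + 1 ≡ 2 mod p` for `3 ≤ p ≤ z`,
`p ∤ h` for `p ≤ y < h`. Let `R` be the set of the `r ∈ [1, U]`, not of the form `h i`, which are in no class `a_p`,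
`p ≤ y / 2`, `p ∉ D`. All prime factors of such an `r` are `≤ z`, or in `D`, or `> y / 2`. `R` is contained in the
union of: the multiples of primes of `D'` (`mult_few`: `≤ U / (log y)² ≤ y / (32 log y)`); the numbers all of whose
prime factors are `≤ z` or equal to the element `p₀` of `D \ D'` (`smooth_few` with `η = 1/32`); the numbers of
`large_factor`. So `R.card ≤ 3 y / (32 log y)`. The primes in `(y/2, y]` outside `D`: at least
`y / (3 log y) - y / (log y)² - 1 ≥ y / (4 log y)` (`primes_half`; the number of `p ∈ D'`, `p > y / 2`, is at most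
`y ∑_{D'} 1/p`). For `r ∈ R` let `F r` be the set of the primes `p > y / 2`, `p ≤ y`, dividing `h i - r` for some `i`:
`0 < |h i - r| ≤ U < (y/2)²`, so one prime at most for each `i` and `(F r).card ≤ 5 M`. `greedy` gives `g`; put
`a_{g r} = r`; for the primes of `(y/2, y] \ D` which are not values of `g` choose a class which contains no `h i`
(`5 M < p`). -/

set_option autoImplicit false

open Finset

noncomputable section

namespace PGL

private theorem c4_log_le (A : ℝ) (hA : 0 < A) : ∀ᶠ y : ℝ in Filter.atTop, A * Real.log y ≤ y := by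
  have h := Real.isLittleO_log_id_atTop.bound (inv_pos.mpr hA)
  filter_upwards [h, Filter.eventually_ge_atTop (1 : ℝ)] with y hy hy1
  have h1 : 0 ≤ Real.log y := Real.log_nonneg hy1
  rw [Real.norm_of_nonneg h1, id, Real.norm_of_nonneg (by linarith)] at hy
  calc A * Real.log y ≤ A * (A⁻¹ * y) := mul_le_mul_of_nonneg_left hy hA.le
    _ = y := by rw [← mul_assoc, mul_inv_cancel₀ hA.ne', one_mul]

private theorem c4_large (C : ℝ) (z M : ℕ) : ∃ y₀ : ℝ, ∀ y : ℝ, y₀ ≤ y →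
    4 < y ∧ 24 ≤ Real.log y ∧ 32 * C ≤ Real.log y ∧ 24 * Real.log y ≤ y ∧
      (32 * (M : ℝ) + 1) * Real.log y ≤ y ∧ 4 * C < y ∧ 2 * (z : ℝ) ≤ y ∧ 10 * (M : ℝ) < y := by
  have h : ∀ᶠ y : ℝ in Filter.atTop, 4 < y ∧ 24 ≤ Real.log y ∧ 32 * C ≤ Real.log y ∧ 24 * Real.log y ≤ y ∧
      (32 * (M : ℝ) + 1) * Real.log y ≤ y ∧ 4 * C < y ∧ 2 * (z : ℝ) ≤ y ∧ 10 * (M : ℝ) < y := by
    filter_upwards [Filter.eventually_gt_atTop (4 : ℝ),
      Real.tendsto_log_atTop.eventually (Filter.eventually_ge_atTop (24 : ℝ)),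
      Real.tendsto_log_atTop.eventually (Filter.eventually_ge_atTop (32 * C)),
      c4_log_le 24 (by norm_num), c4_log_le (32 * (M : ℝ) + 1) (by positivity),
      Filter.eventually_gt_atTop (4 * C), Filter.eventually_ge_atTop (2 * (z : ℝ)),
      Filter.eventually_gt_atTop (10 * (M : ℝ))] with y h1 h2 h3 h4 h5 h6 h7 h8
    exact ⟨h1, h2, h3, h4, h5, h6, h7, h8⟩
  exact Filter.eventually_atTop.mp h

private theorem c4_F (M : ℕ) (U y : ℝ) (hy : 0 ≤ y) (hU : U < (y / 2) ^ 2) (h : Fin 5 × Fin M → ℕ)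
    (P₁ : Finset ℕ) (hP : ∀ p ∈ P₁, p.Prime ∧ y / 2 < p ∧ (p : ℝ) ≤ y) (r : ℕ) (hr : (r : ℝ) ≤ U)
    (hhU : ∀ i, (h i : ℝ) ≤ U) (hne : ∀ i, r ≠ h i) :
    (P₁.filter (fun p : ℕ => ∃ i, (p : ℤ) ∣ (h i : ℤ) - (r : ℤ))).card ≤ 5 * M := by
  classical
  have h1 : P₁.filter (fun p : ℕ => ∃ i, (p : ℤ) ∣ (h i : ℤ) - (r : ℤ)) ⊆
      (univ : Finset (Fin 5 × Fin M)).biUnion (fun i => P₁.filter (fun p : ℕ => (p : ℤ) ∣ (h i : ℤ) - (r : ℤ))) := by
    intro p hp
    rw [mem_filter] at hp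
    obtain ⟨hp1, i, hi⟩ := hp
    rw [mem_biUnion]
    exact ⟨i, mem_univ i, mem_filter.mpr ⟨hp1, hi⟩⟩
  have h2 : ((univ : Finset (Fin 5 × Fin M)).biUnion
      (fun i => P₁.filter (fun p : ℕ => (p : ℤ) ∣ (h i : ℤ) - (r : ℤ)))).card ≤
        (univ : Finset (Fin 5 × Fin M)).card * 1 := by
    apply card_biUnion_le_card_mul
    intro i _
    rw [card_le_one]
    intro p hp q hq
    rw [mem_filter] at hp hq
    by_contra hpq
    obtain ⟨hpP, hpy, -⟩ := hP p hp.1
    obtain ⟨hqP, hqy, -⟩ := hP q hq.1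
    have hcop : p.Coprime q := (Nat.coprime_primes hpP hqP).mpr hpq
    have hp' : p ∣ ((h i : ℤ) - (r : ℤ)).natAbs := Int.natCast_dvd.mp hp.2
    have hq' : q ∣ ((h i : ℤ) - (r : ℤ)).natAbs := Int.natCast_dvd.mp hq.2
    have hd : p * q ∣ ((h i : ℤ) - (r : ℤ)).natAbs := hcop.mul_dvd_of_dvd_of_dvd hp' hq'
    have hpos : 0 < ((h i : ℤ) - (r : ℤ)).natAbs := by
      rw [Int.natAbs_pos]
      intro h0
      have : (r : ℤ) = (h i : ℤ) := by linarith
      exact hne i (by exact_mod_cast this)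
    have hle : p * q ≤ ((h i : ℤ) - (r : ℤ)).natAbs := Nat.le_of_dvd hpos hd
    have hle2 : ((((h i : ℤ) - (r : ℤ)).natAbs : ℕ) : ℝ) ≤ U := by
      rw [Nat.cast_natAbs]
      push_cast
      rw [abs_le]
      have a1 := hhU i
      have a2 : (0 : ℝ) ≤ (h i : ℝ) := Nat.cast_nonneg _
      have a3 : (0 : ℝ) ≤ (r : ℝ) := Nat.cast_nonneg _
      constructor <;> linarith
    have hle3 : ((p * q : ℕ) : ℝ) ≤ U := le_trans (by exact_mod_cast hle) hle2
    have hlt : (y / 2) ^ 2 < (p : ℝ) * q := by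
      rw [pow_two]
      exact mul_lt_mul'' hpy hqy (by linarith) (by linarith)
    push_cast at hle3
    linarith
  have h3 : (univ : Finset (Fin 5 × Fin M)).card = 5 * M := by
    rw [card_univ, Fintype.card_prod, Fintype.card_fin, Fintype.card_fin]
  calc _ ≤ _ := card_le_card h1
    _ ≤ _ := h2
    _ = 5 * M := by rw [h3, mul_one]

private theorem c4_R (C y : ℝ) (hCy : 0 ≤ C * y) (z : ℕ) (D D' : Finset ℕ) (hDD : (D \ D').card ≤ 1)
    (hD'pos : ∀ p ∈ D', 0 < p) (R : Finset ℕ)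
    (hR1 : ∀ r ∈ R, 1 ≤ r ∧ (r : ℝ) ≤ C * y)
    (hR2 : ∀ r ∈ R, ∀ p : ℕ, p.Prime → 3 ≤ p → p ≤ z → ¬ p ∣ r + 1)
    (hR3 : ∀ r ∈ R, ∀ p : ℕ, p.Prime → z < p → (p : ℝ) ≤ y / 2 → p ∉ D → ¬ p ∣ r)
    (hs : ∀ p₀ : ℕ, ∀ S : Finset ℕ, (∀ r ∈ S, 1 ≤ r ∧ (r : ℝ) ≤ C * y ∧ ∀ p : ℕ, p.Prime → p ∣ r → p ≤ z ∨ p = p₀) →
      (S.card : ℝ) ≤ 1 / 32 * y / Real.log y)
    (hl : ∀ S : Finset ℕ, (∀ r ∈ S, 1 ≤ r ∧ (r : ℝ) ≤ C * y ∧ (∃ q : ℕ, q.Prime ∧ y / 2 < q ∧ q ∣ r) ∧
      ∀ p : ℕ, p.Prime → 3 ≤ p → p ≤ z → ¬ p ∣ r + 1) → (S.card : ℝ) ≤ 1 / 32 * y / Real.log y)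
    (hm : C * y * ∑ p ∈ D', (1 : ℝ) / p ≤ 1 / 32 * y / Real.log y) :
    (R.card : ℝ) ≤ 3 * (1 / 32 * y / Real.log y) := by
  classical
  obtain ⟨p₀, hp₀⟩ := card_le_one_iff_subset_singleton.mp hDD
  have c1 : ((R.filter (fun r => ∃ p ∈ D', p ∣ r)).card : ℝ) ≤ 1 / 32 * y / Real.log y := by
    refine le_trans (mult_few (C * y) hCy D' _ hD'pos ?_) hm
    intro r hr
    rw [mem_filter] at hr
    exact ⟨(hR1 r hr.1).1, (hR1 r hr.1).2, hr.2⟩
  have c2 : ((R.filter (fun r => ∀ p : ℕ, p.Prime → p ∣ r → p ≤ z ∨ p = p₀)).card : ℝ) ≤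
      1 / 32 * y / Real.log y := by
    apply hs p₀
    intro r hr
    rw [mem_filter] at hr
    exact ⟨(hR1 r hr.1).1, (hR1 r hr.1).2, hr.2⟩
  have c3 : ((R.filter (fun r => ∃ q : ℕ, q.Prime ∧ y / 2 < q ∧ q ∣ r)).card : ℝ) ≤
      1 / 32 * y / Real.log y := by
    apply hl
    intro r hr
    rw [mem_filter] at hr
    exact ⟨(hR1 r hr.1).1, (hR1 r hr.1).2, hr.2, hR2 r hr.1⟩
  have hsub : R ⊆ (R.filter (fun r => ∃ p ∈ D', p ∣ r)) ∪
      ((R.filter (fun r => ∀ p : ℕ, p.Prime → p ∣ r → p ≤ z ∨ p = p₀)) ∪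
        (R.filter (fun r => ∃ q : ℕ, q.Prime ∧ y / 2 < q ∧ q ∣ r))) := by
    intro r hr
    rw [mem_union, mem_union, mem_filter, mem_filter, mem_filter]
    by_cases h1 : ∃ p ∈ D', p ∣ r
    · exact Or.inl ⟨hr, h1⟩
    by_cases h3 : ∃ q : ℕ, q.Prime ∧ y / 2 < q ∧ q ∣ r
    · exact Or.inr (Or.inr ⟨hr, h3⟩)
    refine Or.inr (Or.inl ⟨hr, ?_⟩)
    intro p hp hpr
    by_cases hpz : p ≤ z
    · exact Or.inl hpz
    right
    have hpy : (p : ℝ) ≤ y / 2 := by
      by_contra hh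
      exact h3 ⟨p, hp, lt_of_not_ge hh, hpr⟩
    have hpD : p ∈ D := by
      by_contra hh
      exact hR3 r hr p hp (lt_of_not_ge hpz) hpy hh hpr
    have hpD' : p ∉ D' := fun hh => h1 ⟨p, hh, hpr⟩
    exact mem_singleton.mp (hp₀ (mem_sdiff.mpr ⟨hpD, hpD'⟩))
  have hc : R.card ≤ (R.filter (fun r => ∃ p ∈ D', p ∣ r)).card +
      ((R.filter (fun r => ∀ p : ℕ, p.Prime → p ∣ r → p ≤ z ∨ p = p₀)).card +
        (R.filter (fun r => ∃ q : ℕ, q.Prime ∧ y / 2 < q ∧ q ∣ r)).card) :=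
    le_trans (card_le_card hsub) (le_trans (card_union_le _ _) (Nat.add_le_add_left (card_union_le _ _) _))
  have hc' : (R.card : ℝ) ≤ ((R.filter (fun r => ∃ p ∈ D', p ∣ r)).card : ℝ) +
      (((R.filter (fun r => ∀ p : ℕ, p.Prime → p ∣ r → p ≤ z ∨ p = p₀)).card : ℝ) +
        ((R.filter (fun r => ∃ q : ℕ, q.Prime ∧ y / 2 < q ∧ q ∣ r)).card : ℝ)) := by
    exact_mod_cast hc
  linarith

/-- the primes of `P₁` outside `D` -/
private theorem c4_Q (y : ℝ) (hy : 0 < y) (D D' P₁ : Finset ℕ) (hDD : (D \ D').card ≤ 1)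
    (hP : ∀ p ∈ P₁, p.Prime ∧ y / 2 < p ∧ (p : ℝ) ≤ y) :
    (P₁.card : ℝ) ≤ (P₁ \ D).card + 1 + y * ∑ p ∈ D', (1 : ℝ) / p := by
  classical
  have h1 : P₁ ⊆ (P₁ \ D) ∪ ((D \ D') ∪ (P₁ ∩ D')) := by
    intro p hp
    rw [mem_union, mem_union, mem_sdiff, mem_sdiff, mem_inter]
    by_cases hD : p ∈ D
    · by_cases hD' : p ∈ D'
      · exact Or.inr (Or.inr ⟨hp, hD'⟩)
      · exact Or.inr (Or.inl ⟨hD, hD'⟩)
    · exact Or.inl ⟨hp, hD⟩
  have h2 : P₁.card ≤ (P₁ \ D).card + ((D \ D').card + (P₁ ∩ D').card) :=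
    le_trans (card_le_card h1) (le_trans (card_union_le _ _) (Nat.add_le_add_left (card_union_le _ _) _))
  have h3 : ((P₁ ∩ D').card : ℝ) ≤ y * ∑ p ∈ D', (1 : ℝ) / p := by
    calc ((P₁ ∩ D').card : ℝ) = ∑ p ∈ P₁ ∩ D', (1 : ℝ) := by simp
      _ ≤ ∑ p ∈ P₁ ∩ D', y * (1 / (p : ℝ)) := by
          apply sum_le_sum
          intro p hp
          rw [mem_inter] at hp
          obtain ⟨hpP, -, hpy⟩ := hP p hp.1
          have hp0 : (0 : ℝ) < p := by exact_mod_cast hpP.pos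
          rw [mul_one_div, le_div_iff₀ hp0]
          linarith
      _ ≤ ∑ p ∈ D', y * (1 / (p : ℝ)) := by
          apply sum_le_sum_of_subset_of_nonneg inter_subset_right
          intro p _ _
          positivity
      _ = y * ∑ p ∈ D', (1 : ℝ) / p := by rw [mul_sum]
  have h2' : (P₁.card : ℝ) ≤ ((P₁ \ D).card : ℝ) + (((D \ D').card : ℝ) + ((P₁ ∩ D').card : ℝ)) := by
    exact_mod_cast h2
  have h4 : ((D \ D').card : ℝ) ≤ 1 := by exact_mod_cast hDD
  linarith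

/-- a class modulo `p` without the `h i` -/
private theorem c4_free (M p : ℕ) (hp : 5 * M < p) (h : Fin 5 × Fin M → ℕ) :
    ∃ c : ℤ, ∀ i, ¬ (p : ℤ) ∣ c + (h i : ℤ) := by
  classical
  have hp0 : 0 < p := by omega
  have h1 : ((univ : Finset (Fin 5 × Fin M)).image (fun i => h i % p)).card < (range p).card := by
    rw [card_range]
    refine lt_of_le_of_lt card_image_le ?_
    rw [card_univ, Fintype.card_prod, Fintype.card_fin, Fintype.card_fin]
    exact hp
  obtain ⟨t, ht, ht2⟩ := exists_mem_notMem_of_card_lt_card h1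
  refine ⟨-(t : ℤ), fun i hi => ht2 ?_⟩
  rw [mem_image]
  refine ⟨i, mem_univ i, ?_⟩
  have h2 : (p : ℤ) ∣ (h i : ℤ) - (t : ℤ) := by
    have : (h i : ℤ) - (t : ℤ) = -(t : ℤ) + (h i : ℤ) := by ring
    rw [this]; exact hi
  have h3 : t ≡ h i [MOD p] := (Nat.modEq_iff_dvd).mpr h2
  have h4 : t % p = h i % p := h3
  rw [Nat.mod_eq_of_lt (mem_range.mp ht)] at h4
  exact h4.symm

theorem covering (M : ℕ) (ε B δ : ℝ) (hε : 0 < ε) (hε1 : ε ≤ 1) (β : Fin 5 → ℝ) (hβ : ∀ i, 1 ≤ β i)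
    (hδ : 0 < δ) (hB : ∀ i, β i + δ ≤ B) (hsep : ∀ i j, i ≠ j → δ < |β i - β j|) :
    ∃ K : ℕ, ∃ N₀ : ℕ, ∀ N : ℕ, N₀ ≤ N → ∀ D D' : Finset ℕ, DP ε K N D D' →
      ∃ h : Fin 5 × Fin M → ℕ, Function.Injective h ∧
        (∀ i, β i.1 * Real.log N < h i ∧ (h i : ℝ) ≤ (β i.1 + δ) * Real.log N) ∧
        ∃ b : ℕ, (∀ i, (b + h i).Coprime (PGB.qz (ε * Real.log N) D)) ∧
          ∀ r : ℕ, 1 ≤ r → (r : ℝ) ≤ B * Real.log N → (∀ i, r ≠ h i) →
            ∃ p : ℕ, p.Prime ∧ p ∣ PGB.qz (ε * Real.log N) D ∧ p ∣ b + r := by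
  classical
  have hBpos : 0 < B := by
    have := hB 0
    have := hβ 0
    linarith
  have hC : 0 < B / ε := div_pos hBpos hε
  obtain ⟨z, hz3, y1, hy1⟩ := large_factor (B / ε) (1 / 32) hC (by norm_num)
  obtain ⟨y2, hy2⟩ := smooth_few (B / ε) (1 / 32) z hC (by norm_num)
  obtain ⟨y3, hy3⟩ := primes_half
  obtain ⟨y4, hy4⟩ := c4_large (B / ε) z M
  set Q : ℕ := ∏ p ∈ (range (z + 1)).filter Nat.Prime, p with hQdef
  have hQ : 0 < Q := by
    rw [hQdef]
    exact prod_pos (fun p hp => (mem_filter.mp hp).2.pos)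
  have hQd : ∀ p : ℕ, p.Prime → p ≤ z → p ∣ Q := by
    intro p hp hpz
    rw [hQdef]
    exact dvd_prod_of_mem _ (mem_filter.mpr ⟨mem_range.mpr (by omega), hp⟩)
  choose NW hNW using fun i : Fin 5 => window Q hQ M (β i) δ (by linarith [hβ i]) hδ
  -- the bound for `N`
  have hlogt : ∀ᶠ N : ℕ in Filter.atTop, max (max y1 y2) (max y3 y4) ≤ ε * Real.log N := by
    have h1 : Filter.Tendsto (fun N : ℕ => ε * Real.log N) Filter.atTop Filter.atTop :=
      Filter.Tendsto.const_mul_atTop hε (Real.tendsto_log_atTop.comp tendsto_natCast_atTop_atTop)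
    exact h1.eventually (Filter.eventually_ge_atTop _)
  obtain ⟨N1, hN1⟩ := Filter.eventually_atTop.mp hlogt
  refine ⟨z, max N1 (univ.sup NW), ?_⟩
  intro N hN D D' hDP
  have hyN := hN1 N (le_trans (le_max_left _ _) hN)
  have hNW' : ∀ i, NW i ≤ N := fun i =>
    le_trans (le_trans (le_sup (f := NW) (mem_univ i)) (le_max_right _ _)) hN
  obtain ⟨hsubD, hDD, hDp, hD'y, hD'sum⟩ := hDP
  set L : ℝ := Real.log N with hLdef
  set y : ℝ := ε * L with hydef
  have hyy1 : y1 ≤ y := le_trans (le_trans (le_max_left _ _) (le_max_left _ _)) hyN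
  have hyy2 : y2 ≤ y := le_trans (le_trans (le_max_right _ _) (le_max_left _ _)) hyN
  have hyy3 : y3 ≤ y := le_trans (le_trans (le_max_left _ _) (le_max_right _ _)) hyN
  have hyy4 : y4 ≤ y := le_trans (le_trans (le_max_right _ _) (le_max_right _ _)) hyN
  obtain ⟨hy4', hlog24, hlogC, hylog, hyM, hyC, hyz, hyM2⟩ := hy4 y hyy4
  have hy0 : 0 < y := by linarith
  have hlog0 : 0 < Real.log y := by linarith
  have hL0 : 0 < L := by
    by_contra hh
    have : y ≤ 0 := by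
      rw [hydef]
      exact mul_nonpos_of_nonneg_of_nonpos hε.le (not_lt.mp hh)
    linarith
  have hyL : y ≤ L := by
    rw [hydef]
    nlinarith
  have hCy : B / ε * y = B * L := by
    rw [hydef]
    field_simp
  -- the shifts
  choose f hfinj hf using fun i : Fin 5 => hNW i N (hNW' i)
  set h : Fin 5 × Fin M → ℕ := fun x => f x.1 x.2 with hhdef
  have hhprime : ∀ i, (h i).Prime := fun i => (hf i.1 i.2).1
  have hhmod : ∀ i, h i ≡ 1 [MOD Q] := fun i => (hf i.1 i.2).2.1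
  have hhlow : ∀ i, β i.1 * L < h i := fun i => (hf i.1 i.2).2.2.1
  have hhup : ∀ i, (h i : ℝ) ≤ (β i.1 + δ) * L := fun i => (hf i.1 i.2).2.2.2
  have hhy : ∀ i, y < h i := by
    intro i
    have h1 := hhlow i
    have h2 := hβ i.1
    have h3 : L ≤ β i.1 * L := by nlinarith
    linarith
  have hhU : ∀ i, (h i : ℝ) ≤ B * L := fun i =>
    le_trans (hhup i) (mul_le_mul_of_nonneg_right (hB i.1) hL0.le)
  have hinj : Function.Injective h := by
    rintro ⟨i, a⟩ ⟨j, b⟩ hab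
    by_cases hij : i = j
    · subst hij
      have : a = b := hfinj i hab
      rw [this]
    · exfalso
      have h1 := hsep i j hij
      have e1 := hhlow (i, a)
      have e2 := hhup (i, a)
      have e3 := hhlow (j, b)
      have e4 := hhup (j, b)
      rw [hab] at e1 e2
      dsimp only at e1 e2 e3 e4
      have l1 : (β i - β j) * L < δ * L := by linarith [mul_comm (β i) L]
      have l2 : (β j - β i) * L < δ * L := by linarith [mul_comm (β i) L]
      have l3 : β i - β j < δ := lt_of_mul_lt_mul_right l1 hL0.le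
      have l4 : β j - β i < δ := lt_of_mul_lt_mul_right l2 hL0.le
      have : |β i - β j| < δ := abs_lt.mpr ⟨by linarith, l3⟩
      linarith
  -- the primes
  obtain ⟨P₁, hP₁, hP₁card⟩ := hy3 y hyy3
  set P : Finset ℕ := (range (⌊y⌋₊ + 1)).filter (fun p => p.Prime ∧ p ∉ D) with hPdef
  have hPmem : ∀ p : ℕ, p ∈ P ↔ (p : ℝ) ≤ y ∧ p.Prime ∧ p ∉ D := by
    intro p
    rw [hPdef, mem_filter, mem_range, Nat.lt_succ_iff, Nat.le_floor_iff hy0.le]
  -- the small classes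
  set c₀ : ℕ → ℤ := fun p => if p = 2 then 0 else if p ≤ z then 1 else 0 with hc₀def
  set R : Finset ℕ := (range (⌊B * L⌋₊ + 1)).filter (fun r => 1 ≤ r ∧ (∀ i, r ≠ h i) ∧
    ∀ p ∈ P, (p : ℝ) ≤ y / 2 → ¬ (p : ℤ) ∣ c₀ p + (r : ℤ)) with hRdef
  have hRmem : ∀ r : ℕ, r ∈ R ↔ (r : ℝ) ≤ B * L ∧ 1 ≤ r ∧ (∀ i, r ≠ h i) ∧
      ∀ p ∈ P, (p : ℝ) ≤ y / 2 → ¬ (p : ℤ) ∣ c₀ p + (r : ℤ) := by
    intro r
    rw [hRdef, mem_filter, mem_range, Nat.lt_succ_iff, Nat.le_floor_iff (by positivity)]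
  have hRcard : (R.card : ℝ) ≤ 3 * (1 / 32 * y / Real.log y) := by
    apply c4_R (B / ε) y (by positivity) z D D' hDD (fun p hp => (hDp p (hsubD hp)).1.pos) R
    · intro r hr
      rw [hRmem] at hr
      rw [hCy]
      exact ⟨hr.2.1, hr.1⟩
    · intro r hr p hp hp3 hpz hdvd
      rw [hRmem] at hr
      have hpD : p ∉ D := fun hh => by
        have := (hDp p hh).2
        omega
      have hpzR : (p : ℝ) ≤ z := by exact_mod_cast hpz
      have hpP : p ∈ P := (hPmem p).mpr ⟨by linarith, hp, hpD⟩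
      refine hr.2.2.2 p hpP (by linarith) ?_
      have : c₀ p = 1 := by
        rw [hc₀def]
        dsimp only
        rw [if_neg (by omega), if_pos hpz]
      rw [this, add_comm]
      exact_mod_cast hdvd
    · intro r hr p hp hpz hpy hpD hdvd
      rw [hRmem] at hr
      have hpP : p ∈ P := (hPmem p).mpr ⟨by linarith, hp, hpD⟩
      refine hr.2.2.2 p hpP hpy ?_
      have : c₀ p = 0 := by
        rw [hc₀def]
        dsimp only
        rw [if_neg (by omega), if_neg (by omega)]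
      rw [this, zero_add]
      exact_mod_cast hdvd
    · exact hy2 y hyy2
    · exact hy1 y hyy1
    · have hlog2 : 0 < Real.log y ^ 2 := by positivity
      calc B / ε * y * ∑ p ∈ D', (1 : ℝ) / p ≤ B / ε * y * (1 / Real.log y ^ 2) :=
            mul_le_mul_of_nonneg_left hD'sum (by positivity)
        _ ≤ 1 / 32 * y / Real.log y := by
            rw [mul_one_div, div_le_div_iff₀ hlog2 hlog0]
            have e1 : B / ε ≤ 1 / 32 * Real.log y := by linarith
            have e2 : 0 ≤ y * Real.log y := by positivity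
            nlinarith [mul_le_mul_of_nonneg_right e1 e2]
  -- the large primes
  have hQcard : R.card + 5 * M < (P₁ \ D).card := by
    have h1 := c4_Q y hy0 D D' P₁ hDD hP₁
    have h2 : y * ∑ p ∈ D', (1 : ℝ) / p ≤ y / (24 * Real.log y) := by
      calc y * ∑ p ∈ D', (1 : ℝ) / p ≤ y * (1 / Real.log y ^ 2) := mul_le_mul_of_nonneg_left hD'sum hy0.le
        _ ≤ y / (24 * Real.log y) := by
            rw [mul_one_div]
            apply div_le_div_of_nonneg_left hy0.le (by positivity)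
            rw [pow_two]
            exact mul_le_mul_of_nonneg_right hlog24 hlog0.le
    have h3 : 1 ≤ y / (24 * Real.log y) := by
      rw [le_div_iff₀ (by positivity)]
      linarith
    have h4 : 32 * (M : ℝ) + 1 ≤ y / Real.log y := by
      rw [le_div_iff₀ hlog0]
      exact hyM
    have h5 : y / (24 * Real.log y) = (y / Real.log y) / 24 := by
      rw [mul_comm, div_mul_eq_div_div]
    have h6 : y / (3 * Real.log y) = (y / Real.log y) / 3 := by
      rw [mul_comm, div_mul_eq_div_div]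
    have h7 : 1 / 32 * y / Real.log y = (y / Real.log y) / 32 := by ring
    rw [h5] at h2 h3
    rw [h6] at hP₁card
    rw [h7] at hRcard
    have h8 : ((R.card + 5 * M : ℕ) : ℝ) < ((P₁ \ D).card : ℝ) := by
      push_cast
      linarith
    exact_mod_cast h8
  have hUlt : B * L < (y / 2) ^ 2 := by
    rw [← hCy]
    nlinarith
  obtain ⟨g, hginj, hg⟩ := greedy R (P₁ \ D) (fun r => P₁.filter (fun p : ℕ => ∃ i, (p : ℤ) ∣ (h i : ℤ) - (r : ℤ)))
    (5 * M) (by
      intro r hr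
      rw [hRmem] at hr
      exact c4_F M (B * L) y hy0.le hUlt h P₁ hP₁ r hr.1 hhU hr.2.2.1) hQcard
  -- the classes of the large primes
  have hex : ∀ p : ℕ, y / 2 < p → ∃ c : ℤ, (p.Prime → ∀ i, ¬ (p : ℤ) ∣ c + (h i : ℤ)) ∧
      ∀ r ∈ R, g r = p → (p : ℤ) ∣ c + (r : ℤ) := by
    intro p hpy
    by_cases hex : ∃ r ∈ R, g r = p
    · obtain ⟨r, hr, hgr⟩ := hex
      refine ⟨-(r : ℤ), ?_, ?_⟩
      · intro _ i hdvd
        obtain ⟨h1, h2⟩ := hg r hr
        rw [hgr] at h1 h2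
        apply h2
        rw [mem_filter]
        refine ⟨(mem_sdiff.mp h1).1, i, ?_⟩
        have : (h i : ℤ) - (r : ℤ) = -(r : ℤ) + (h i : ℤ) := by ring
        rw [this]; exact hdvd
      · intro r' hr' hgr'
        have : r' = r := hginj hr' hr (by rw [hgr, hgr'])
        rw [this]
        simp
    · have hpM : 5 * M < p := by
        have : (5 : ℝ) * M < p := by linarith
        exact_mod_cast this
      obtain ⟨c, hc⟩ := c4_free M p hpM h
      exact ⟨c, fun _ => hc, fun r hr hgr => absurd ⟨r, hr, hgr⟩ hex⟩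
  choose c₁ hc₁ hc₁' using hex
  set c : ℕ → ℤ := fun p => if hp : y / 2 < (p : ℝ) then c₁ p hp else c₀ p with hcdef
  obtain ⟨b, hb⟩ := crt_prod P (fun p hp => ((hPmem p).mp hp).2.1) c
  have hdvd_iff : ∀ p ∈ P, ∀ r : ℕ, p ∣ b + r ↔ (p : ℤ) ∣ c p + (r : ℤ) := by
    intro p hp r
    have h1 := hb p hp
    have h2 : (b : ℤ) + (r : ℤ) ≡ c p + (r : ℤ) [ZMOD p] := Int.ModEq.add_right _ h1
    rw [← Int.natCast_dvd_natCast]
    push_cast
    constructor
    · intro h3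
      exact (Int.ModEq.dvd_iff h2).mp h3
    · intro h3
      exact (Int.ModEq.dvd_iff h2).mpr h3
  have hqz : PGB.qz (ε * L) D = ∏ p ∈ P, p := rfl
  refine ⟨h, hinj, fun i => ⟨hhlow i, hhup i⟩, b, ?_, ?_⟩
  · intro i
    rw [hqz]
    apply Nat.Coprime.prod_right
    intro p hp
    obtain ⟨hpy, hpP, hpD⟩ := (hPmem p).mp hp
    rw [Nat.coprime_comm, hpP.coprime_iff_not_dvd, hdvd_iff p hp (h i), hcdef]
    dsimp only
    by_cases hlarge : y / 2 < (p : ℝ)
    · rw [dif_pos hlarge]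
      exact hc₁ p hlarge hpP i
    · rw [dif_neg hlarge]
      intro hdvd
      have hpne : p ≠ h i := by
        intro hh
        have := hhy i
        rw [← hh] at this
        linarith
      have hpndvd : ¬ p ∣ h i := fun hh => hpne ((Nat.prime_dvd_prime_iff_eq hpP (hhprime i)).mp hh)
      by_cases h2 : p = 2
      · have : c₀ p = 0 := by
          rw [hc₀def]
          dsimp only
          rw [if_pos h2]
        rw [this, zero_add] at hdvd
        exact hpndvd (by exact_mod_cast hdvd)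
      · by_cases h3 : p ≤ z
        · have : c₀ p = 1 := by
            rw [hc₀def]
            dsimp only
            rw [if_neg h2, if_pos h3]
          rw [this] at hdvd
          have h4 : (p : ℤ) ∣ (h i : ℤ) - 1 := by
            have h5 : 1 ≡ h i [MOD Q] := (hhmod i).symm
            have h6 := (Nat.modEq_iff_dvd).mp h5
            have h7 : (p : ℤ) ∣ (Q : ℤ) := by exact_mod_cast hQd p hpP h3
            push_cast at h6
            exact dvd_trans h7 h6
          have h8 : (p : ℤ) ∣ 2 := by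
            have h9 := dvd_sub hdvd h4
            have h10 : (1 : ℤ) + (h i : ℤ) - ((h i : ℤ) - 1) = 2 := by ring
            rw [h10] at h9
            exact h9
          have h9 : p ∣ 2 := by exact_mod_cast h8
          have h10 : p ≤ 2 := Nat.le_of_dvd (by norm_num) h9
          have h11 := hpP.two_le
          omega
        · have : c₀ p = 0 := by
            rw [hc₀def]
            dsimp only
            rw [if_neg h2, if_neg h3]
          rw [this, zero_add] at hdvd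
          exact hpndvd (by exact_mod_cast hdvd)
  · intro r hr1 hrU hrh
    rw [hqz]
    by_cases hsm : ∃ p ∈ P, (p : ℝ) ≤ y / 2 ∧ (p : ℤ) ∣ c₀ p + (r : ℤ)
    · obtain ⟨p, hp, hpy, hdvd⟩ := hsm
      refine ⟨p, ((hPmem p).mp hp).2.1, dvd_prod_of_mem _ hp, ?_⟩
      rw [hdvd_iff p hp r, hcdef]
      dsimp only
      rw [dif_neg (not_lt.mpr hpy)]
      exact hdvd
    · have hrR : r ∈ R := by
        rw [hRmem]
        refine ⟨hrU, hr1, hrh, ?_⟩
        intro p hp hpy hdvd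
        exact hsm ⟨p, hp, hpy, hdvd⟩
      obtain ⟨h1, -⟩ := hg r hrR
      rw [mem_sdiff] at h1
      obtain ⟨hgP, hgy, hgy'⟩ := hP₁ (g r) h1.1
      have hgP' : g r ∈ P := (hPmem (g r)).mpr ⟨hgy', hgP, h1.2⟩
      refine ⟨g r, hgP, dvd_prod_of_mem _ hgP', ?_⟩
      rw [hdvd_iff (g r) hgP' r, hcdef]
      dsimp only
      rw [dif_pos hgy]
      exact hc₁' (g r) hgy r hrR rfl

end PGL
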