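import Pool.Agent.PGL.D1

/-! PGL / D2: the set of the limit points is closed and meets the differences of any five reals.

PROOFS. `mem_SG`: for `C ≥ 0` membership is equivalent to: for every `δ > 0` and `X` there is `m ≥ X` with
`|ng m - C| < δ` (construct `φ` recursively; conversely from convergence). `SG_closed`: immediate from `mem_SG`.
`p5`: for every `n` take `m_n ≥ n` from `gaps` with `δ = 1 / (n + 1)`; one pair `(i, j)` occurs for infinitely many `n`;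
for this pair the criterion `mem_SG` holds. -/

set_option autoImplicit false

open Finset Filter

noncomputable section

namespace PGL

/-- the set of the finite limit points of the normalised prime gaps -/
def SG : Set ℝ := {C | 0 ≤ C ∧ ∃ φ : ℕ → ℕ, StrictMono φ ∧
  Tendsto (fun i : ℕ => ((Nat.nth Nat.Prime (φ i) : ℝ) - (Nat.nth Nat.Prime (φ i - 1) : ℝ)) /
    Real.log (φ i : ℝ)) atTop (nhds C)}

theorem mem_SG {C : ℝ} : C ∈ SG ↔ 0 ≤ C ∧ ∀ δ : ℝ, 0 < δ → ∀ X : ℕ, ∃ m : ℕ, X ≤ m ∧ |ng m - C| < δ := by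
  constructor
  · rintro ⟨h0, φ, hφ, ht⟩
    refine ⟨h0, fun δ hδ X => ?_⟩
    have h1 := (Metric.tendsto_atTop.1 ht) δ hδ
    obtain ⟨N, hN⟩ := h1
    refine ⟨φ (max N X), le_trans (le_max_right N X) (hφ.id_le _), ?_⟩
    have h2 := hN (max N X) (le_max_left N X)
    rw [Real.dist_eq] at h2
    exact h2
  · rintro ⟨h0, h⟩
    refine ⟨h0, ?_⟩
    have h1 : ∀ n : ℕ, ∃ᶠ m in atTop, |ng m - C| < 1 / ((n : ℝ) + 1) := by
      intro n
      rw [Filter.frequently_atTop]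
      intro X
      obtain ⟨m, hm, hm'⟩ := h (1 / ((n : ℝ) + 1)) (by positivity) X
      exact ⟨m, hm, hm'⟩
    obtain ⟨φ, hφ, hφ'⟩ := Filter.extraction_forall_of_frequently h1
    refine ⟨φ, hφ, ?_⟩
    rw [Metric.tendsto_atTop]
    intro ε hε
    obtain ⟨N, hN⟩ := exists_nat_one_div_lt hε
    refine ⟨N, fun n hn => ?_⟩
    rw [Real.dist_eq]
    have h2 := hφ' n
    have h3 : 1 / ((n : ℝ) + 1) ≤ 1 / ((N : ℝ) + 1) := by
      apply one_div_le_one_div_of_le (by positivity)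
      have : (N : ℝ) ≤ n := by exact_mod_cast hn
      linarith
    have h4 : |ng (φ n) - C| < ε := lt_of_lt_of_le h2 (h3.trans hN.le)
    exact h4

theorem SG_closed : IsClosed SG := by
  rw [← closure_subset_iff_isClosed]
  intro C hC
  rw [Metric.mem_closure_iff] at hC
  rw [mem_SG]
  constructor
  · by_contra hneg
    push Not at hneg
    obtain ⟨b, hb, hb'⟩ := hC (-C) (by linarith)
    have h0 : 0 ≤ b := hb.1
    rw [Real.dist_eq, abs_lt] at hb'
    linarith [hb'.1, hb'.2]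
  · intro δ hδ X
    obtain ⟨b, hb, hb'⟩ := hC (δ / 2) (by linarith)
    obtain ⟨m, hm, hm'⟩ := (mem_SG.1 hb).2 (δ / 2) (by linarith) X
    refine ⟨m, hm, ?_⟩
    rw [Real.dist_eq] at hb'
    rw [abs_lt] at hb' hm' ⊢
    constructor <;> linarith [hb'.1, hb'.2, hm'.1, hm'.2]

theorem p5 (β : Fin 5 → ℝ) (hinj : Function.Injective β) : ∃ i j, β i < β j ∧ β j - β i ∈ SG := by
  by_contra hcon
  push Not at hcon
  have h1 : ∀ q : Fin 5 × Fin 5, β q.1 < β q.2 → ∃ δ : ℝ, 0 < δ ∧ ∃ X : ℕ, ∀ m : ℕ, X ≤ m →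
      δ ≤ |ng m - (β q.2 - β q.1)| := by
    intro q hq
    have h2 := hcon q.1 q.2 hq
    rw [mem_SG] at h2
    push Not at h2
    obtain ⟨δ, hδ, X, hX⟩ := h2 (by linarith)
    exact ⟨δ, hδ, X, hX⟩
  have h3 : ∀ q : Fin 5 × Fin 5, ∃ δ : ℝ, 0 < δ ∧ ∃ X : ℕ, β q.1 < β q.2 → ∀ m : ℕ, X ≤ m →
      δ ≤ |ng m - (β q.2 - β q.1)| := by
    intro q
    by_cases hq : β q.1 < β q.2
    · obtain ⟨δ, hδ, X, hX⟩ := h1 q hq
      exact ⟨δ, hδ, X, fun _ => hX⟩
    · exact ⟨1, one_pos, 0, fun h => absurd h hq⟩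
  choose δ hδ X hX using h3
  obtain ⟨q₀, -, hq₀⟩ := Finset.exists_min_image (Finset.univ : Finset (Fin 5 × Fin 5)) δ ⟨(0, 0), Finset.mem_univ _⟩
  obtain ⟨m, hm, i, j, hij, hlt⟩ := gaps β hinj (δ q₀) (hδ q₀) (Finset.univ.sup X)
  have h4 : X (i, j) ≤ m := le_trans (Finset.le_sup (f := X) (Finset.mem_univ (i, j))) hm
  have h5 := hX (i, j) hij m h4
  have h6 := hq₀ (i, j) (Finset.mem_univ _)
  exact absurd hlt (not_lt.2 (h6.trans h5))

end PGL
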