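import Mathlib

/-! PGL / Defs: basic definitions for the Maynard-Tao sieve with step functions (MP_133aef_nt).

Squarefree numbers are represented by finite sets `A` of primes, `pr A` is their product, `ph A` the value of `φ`.
`V` is the set of the primes which are allowed in the sieve weights.
For a function `y` on finite sets of primes `LamS V y m` is the value of the Selberg weight
`Λ_y(n) = ∑_{d ∣ n} λ_d`, `λ_d = μ(d) d ∑_{d ∣ r} y_r / φ(r)`, at a number `n` for which `m` is the set of the primes of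
`V` dividing `n`: `Λ_y(n) = ∑_r (y_r / φ(r)) ∏_{p ∣ r} (1 - p 1[p ∣ n])`. -/

set_option autoImplicit false

open Finset

noncomputable section

namespace PGL

/-- product of a set of primes -/
def pr (A : Finset ℕ) : ℕ := ∏ p ∈ A, p

/-- `∏ (p - 1)` -/
def ph (A : Finset ℕ) : ℝ := ∏ p ∈ A, ((p : ℝ) - 1)

/-- `∏ α p` -/
def al (α : ℕ → ℝ) (A : Finset ℕ) : ℝ := ∏ p ∈ A, α p

/-- `G_V(R) = ∑ 1 / φ(r)`, `r ≤ R` -/
def GV (V : Finset ℕ) (R : ℝ) : ℝ := ∑ B ∈ V.powerset with (pr B : ℝ) ≤ R, 1 / ph B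

/-- the total mass `∑ y_r / φ(r)` -/
def mass (V : Finset ℕ) (y : Finset ℕ → ℝ) : ℝ := ∑ B ∈ V.powerset, y B / ph B

/-- local factor `1 - p 1[p ∈ m]` -/
def ee (m : Finset ℕ) (p : ℕ) : ℝ := if p ∈ m then 1 - (p : ℝ) else 1

/-- the Selberg weight at a pattern `m` -/
def LamS (V : Finset ℕ) (y : Finset ℕ → ℝ) (m : Finset ℕ) : ℝ :=
  ∑ B ∈ V.powerset, y B / ph B * ∏ p ∈ B, ee m p

/-- the Selberg weight at an integer `n` -/
def Lam (V : Finset ℕ) (y : Finset ℕ → ℝ) (n : ℕ) : ℝ := LamS V y (V.filter (· ∣ n))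

/-- expectation over random patterns, `p ∈ m` with probability `α p` -/
def Ex (V : Finset ℕ) (α : ℕ → ℝ) (F : Finset ℕ → ℝ) : ℝ :=
  ∑ m ∈ V.powerset, al α m * al (fun p => 1 - α p) (V \ m) * F m

/-- the coefficients `λ_d` -/
def lam (V : Finset ℕ) (y : Finset ℕ → ℝ) (A : Finset ℕ) : ℝ :=
  (-1) ^ A.card * pr A * ∑ B ∈ V.powerset with A ⊆ B, y B / ph B

/-- coefficients of the product of two Selberg weights -/
def rho (V : Finset ℕ) (y y' : Finset ℕ → ℝ) (D : Finset ℕ) : ℝ :=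
  ∑ q ∈ V.powerset ×ˢ V.powerset with q.1 ∪ q.2 = D, lam V y q.1 * lam V y' q.2

/-- `∑ y_r y'_r / φ(r)` -/
def dia (V : Finset ℕ) (y y' : Finset ℕ → ℝ) : ℝ := ∑ B ∈ V.powerset, y B * y' B / ph B

/-- `y` is bounded by `c` and supported on products at most `R` -/
def Bd (y : Finset ℕ → ℝ) (c R : ℝ) : Prop := ∀ B, |y B| ≤ c ∧ (R < (pr B : ℝ) → y B = 0)

/-- the primes of `V` are greater than `z` -/
def Big (V : Finset ℕ) (z : ℝ) : Prop := ∀ p ∈ V, p.Prime ∧ z < (p : ℝ)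

/-- pairwise disjoint families -/
def PDj {ι : Type*} (D : ι → Finset ℕ) : Prop := ∀ i j, i ≠ j → Disjoint (D i) (D j)

open Classical in
/-- the tuples of pairwise disjoint subsets of `V` -/
def tup (ι : Type*) [Fintype ι] (V : Finset ℕ) : Finset (ι → Finset ℕ) :=
  (Fintype.piFinset fun _ : ι => V.powerset).filter PDj

/-- the sum of `∏ φ_i(D_i)` over pairwise disjoint tuples -/
def TT {ι : Type*} [Fintype ι] (V : Finset ℕ) (φ : ι → Finset ℕ → ℝ) : ℝ :=
  ∑ D ∈ tup ι V, ∏ i, φ i (D i)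

/-- the function `1[B = ∅]` -/
def dl : Finset ℕ → ℝ := fun B => if B = ∅ then 1 else 0

/-- the step function `1[N^a < pr B ≤ N^b]` -/
def ys (N : ℕ) (a b : ℝ) : Finset ℕ → ℝ :=
  fun B => if (N : ℝ) ^ a < (pr B : ℝ) ∧ (pr B : ℝ) ≤ (N : ℝ) ^ b then 1 else 0

/-- `1_P(n) log n` -/
def fp (n : ℕ) : ℝ := if n.Prime then Real.log n else 0

theorem mem_tup {ι : Type*} [Fintype ι] {V : Finset ℕ} {D : ι → Finset ℕ} :
    D ∈ tup ι V ↔ (∀ i, D i ⊆ V) ∧ PDj D := by
  classical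
  unfold tup
  simp [Fintype.mem_piFinset, Finset.mem_powerset]

end PGL
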