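import Mathlib

/-! PGL / E1: invariant means on the bounded functions on `ℚ` (definitions and basic properties).

PROOFS. All elementary. `PF.abs_le`: `-C ≤ f ≤ C`. `PF.cs`: discriminant of `c ↦ L ((f + c g)²) ≥ 0`.
`norm_Lc_le`: choose `z` of norm one with `z * Lc L f = ‖Lc L f‖`; then `‖Lc L f‖ = L (Re (z f)) ≤ L ‖f‖`.
`norm_Lc_sq_le`: `norm_Lc_le` and `PF.cs` with `g = 1`. -/

set_option autoImplicit false

open Finset

noncomputable section

namespace PGL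

/-- bounded real functions on `ℚ` -/
def Bdf (f : ℚ → ℝ) : Prop := ∃ C : ℝ, ∀ x, |f x| ≤ C

/-- bounded complex functions on `ℚ` -/
def Bdc (f : ℚ → ℂ) : Prop := ∃ C : ℝ, ∀ x, ‖f x‖ ≤ C

/-- positive translation invariant functionals on the bounded functions -/
structure PF (L : (ℚ → ℝ) → ℝ) : Prop where
  add : ∀ f g, Bdf f → Bdf g → L (fun x => f x + g x) = L f + L g
  smul : ∀ (c : ℝ) f, Bdf f → L (fun x => c * f x) = c * L f
  pos : ∀ f, Bdf f → (∀ x, 0 ≤ f x) → 0 ≤ L f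
  inv : ∀ f v, Bdf f → L (fun x => f (x + v)) = L f

/-- invariant means -/
structure IM (L : (ℚ → ℝ) → ℝ) : Prop extends PF L where
  one : L (fun _ => 1) = 1

/-- ergodic invariant means: every dominated positive invariant functional is a multiple -/
structure Erg (L : (ℚ → ℝ) → ℝ) : Prop extends IM L where
  erg : ∀ Λ : (ℚ → ℝ) → ℝ, PF Λ → (∀ f, Bdf f → (∀ x, 0 ≤ f x) → Λ f ≤ L f) →
    ∀ f, Bdf f → Λ f = Λ (fun _ => 1) * L f

/-- the complex extension -/
def Lc (L : (ℚ → ℝ) → ℝ) (f : ℚ → ℂ) : ℂ := ⟨L (fun x => (f x).re), L (fun x => (f x).im)⟩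

/-- the characters of `ℚ` -/
abbrev Ch : Type := AddChar ℚ Circle

theorem Bdf.const (c : ℝ) : Bdf (fun _ => c) := ⟨|c|, fun _ => le_rfl⟩

theorem Bdf.of_le {f : ℚ → ℝ} {C : ℝ} (h : ∀ x, |f x| ≤ C) : Bdf f := ⟨C, h⟩

theorem Bdf.add {f g : ℚ → ℝ} (hf : Bdf f) (hg : Bdf g) : Bdf (fun x => f x + g x) := by
  obtain ⟨C, hC⟩ := hf
  obtain ⟨D, hD⟩ := hg
  exact ⟨C + D, fun x => (abs_add_le _ _).trans (add_le_add (hC x) (hD x))⟩

theorem Bdf.mul {f g : ℚ → ℝ} (hf : Bdf f) (hg : Bdf g) : Bdf (fun x => f x * g x) := by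
  obtain ⟨C, hC⟩ := hf
  obtain ⟨D, hD⟩ := hg
  refine ⟨C * D, fun x => ?_⟩
  rw [abs_mul]
  exact mul_le_mul (hC x) (hD x) (abs_nonneg _) ((abs_nonneg _).trans (hC x))

theorem Bdf.neg {f : ℚ → ℝ} (hf : Bdf f) : Bdf (fun x => - f x) := by
  obtain ⟨C, hC⟩ := hf
  exact ⟨C, fun x => by rw [abs_neg]; exact hC x⟩

theorem Bdf.sub {f g : ℚ → ℝ} (hf : Bdf f) (hg : Bdf g) : Bdf (fun x => f x - g x) := by
  simpa [sub_eq_add_neg] using hf.add hg.neg

theorem Bdf.shift {f : ℚ → ℝ} (hf : Bdf f) (v : ℚ) : Bdf (fun x => f (x + v)) := by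
  obtain ⟨C, hC⟩ := hf
  exact ⟨C, fun x => hC _⟩

theorem Bdf.sum {α : Type*} (s : Finset α) {f : α → ℚ → ℝ} (hf : ∀ a ∈ s, Bdf (f a)) :
    Bdf (fun x => ∑ a ∈ s, f a x) := by
  classical
  induction s using Finset.induction_on with
  | empty => exact ⟨0, fun x => by simp⟩
  | insert a s ha ih =>
    have h1 := (hf a (mem_insert_self a s)).add (ih fun b hb => hf b (mem_insert_of_mem hb))
    have e : (fun x => ∑ b ∈ insert a s, f b x) = fun x => f a x + ∑ b ∈ s, f b x := by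
      funext x
      rw [sum_insert ha]
    rw [e]
    exact h1

theorem Bdf.pow {f : ℚ → ℝ} (hf : Bdf f) (n : ℕ) : Bdf (fun x => f x ^ n) := by
  obtain ⟨C, hC⟩ := hf
  refine ⟨C ^ n, fun x => ?_⟩
  rw [abs_pow]
  exact pow_le_pow_left₀ (abs_nonneg _) (hC x) n

theorem Bdc.re {f : ℚ → ℂ} (hf : Bdc f) : Bdf (fun x => (f x).re) := by
  obtain ⟨C, hC⟩ := hf
  exact ⟨C, fun x => (Complex.abs_re_le_norm _).trans (hC x)⟩

theorem Bdc.im {f : ℚ → ℂ} (hf : Bdc f) : Bdf (fun x => (f x).im) := by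
  obtain ⟨C, hC⟩ := hf
  exact ⟨C, fun x => (Complex.abs_im_le_norm _).trans (hC x)⟩

theorem Bdc.norm {f : ℚ → ℂ} (hf : Bdc f) : Bdf (fun x => ‖f x‖) := by
  obtain ⟨C, hC⟩ := hf
  exact ⟨C, fun x => by rw [abs_norm]; exact hC x⟩

theorem Bdc.mul {f g : ℚ → ℂ} (hf : Bdc f) (hg : Bdc g) : Bdc (fun x => f x * g x) := by
  obtain ⟨C, hC⟩ := hf
  obtain ⟨D, hD⟩ := hg
  refine ⟨C * D, fun x => ?_⟩
  rw [norm_mul]
  exact mul_le_mul (hC x) (hD x) (norm_nonneg _) ((norm_nonneg _).trans (hC x))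

theorem Bdc.add {f g : ℚ → ℂ} (hf : Bdc f) (hg : Bdc g) : Bdc (fun x => f x + g x) := by
  obtain ⟨C, hC⟩ := hf
  obtain ⟨D, hD⟩ := hg
  exact ⟨C + D, fun x => (norm_add_le _ _).trans (add_le_add (hC x) (hD x))⟩

theorem Bdc.const (c : ℂ) : Bdc (fun _ => c) := ⟨‖c‖, fun _ => le_rfl⟩

theorem Bdc.star {f : ℚ → ℂ} (hf : Bdc f) : Bdc (fun x => (starRingEnd ℂ) (f x)) := by
  obtain ⟨C, hC⟩ := hf
  exact ⟨C, fun x => by rw [RCLike.norm_conj]; exact hC x⟩

theorem Bdc.sum {α : Type*} (s : Finset α) {f : α → ℚ → ℂ} (hf : ∀ a ∈ s, Bdc (f a)) :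
    Bdc (fun x => ∑ a ∈ s, f a x) := by
  classical
  induction s using Finset.induction_on with
  | empty => exact ⟨0, fun x => by simp⟩
  | insert a s ha ih =>
    have h1 := (hf a (mem_insert_self a s)).add (ih fun b hb => hf b (mem_insert_of_mem hb))
    have e : (fun x => ∑ b ∈ insert a s, f b x) = fun x => f a x + ∑ b ∈ s, f b x := by
      funext x
      rw [sum_insert ha]
    rw [e]
    exact h1

theorem Bdc.shift {f : ℚ → ℂ} (hf : Bdc f) (v : ℚ) : Bdc (fun x => f (x + v)) := by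
  obtain ⟨C, hC⟩ := hf
  exact ⟨C, fun x => hC _⟩

theorem Bdc.char (χ : Ch) : Bdc (fun x => (χ x : ℂ)) := ⟨1, fun x => (Circle.norm_coe (χ x)).le⟩

theorem Bdf.toC {f : ℚ → ℝ} (hf : Bdf f) : Bdc (fun x => (f x : ℂ)) := by
  obtain ⟨C, hC⟩ := hf
  exact ⟨C, fun x => by rw [Complex.norm_real]; exact hC x⟩

section

variable {L : (ℚ → ℝ) → ℝ}

theorem PF.zero (hL : PF L) : L (fun _ => 0) = 0 := by
  have h := hL.smul 0 (fun _ => 0) (Bdf.const 0)
  simpa using h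

theorem PF.neg (hL : PF L) {f : ℚ → ℝ} (hf : Bdf f) : L (fun x => - f x) = - L f := by
  have h := hL.smul (-1) f hf
  simpa using h

theorem PF.sub (hL : PF L) {f g : ℚ → ℝ} (hf : Bdf f) (hg : Bdf g) :
    L (fun x => f x - g x) = L f - L g := by
  have h := hL.add f (fun x => - g x) hf hg.neg
  rw [hL.neg hg] at h
  simpa [sub_eq_add_neg] using h

theorem PF.mono (hL : PF L) {f g : ℚ → ℝ} (hf : Bdf f) (hg : Bdf g) (h : ∀ x, f x ≤ g x) : L f ≤ L g := by
  have h1 := hL.pos (fun x => g x - f x) (hg.sub hf) fun x => sub_nonneg.2 (h x)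
  rw [hL.sub hg hf] at h1
  linarith

theorem PF.sum (hL : PF L) {α : Type*} (s : Finset α) {f : α → ℚ → ℝ} (hf : ∀ a ∈ s, Bdf (f a)) :
    L (fun x => ∑ a ∈ s, f a x) = ∑ a ∈ s, L (f a) := by
  classical
  induction s using Finset.induction_on with
  | empty =>
    simp only [sum_empty]
    exact hL.zero
  | insert a s ha ih =>
    have hs : ∀ b ∈ s, Bdf (f b) := fun b hb => hf b (mem_insert_of_mem hb)
    have e : (fun x => ∑ b ∈ insert a s, f b x) = fun x => f a x + ∑ b ∈ s, f b x := by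
      funext x
      rw [sum_insert ha]
    rw [e, sum_insert ha, ← ih hs]
    exact hL.add (f a) _ (hf a (mem_insert_self a s)) (Bdf.sum s hs)

theorem PF.abs_le (hL : PF L) {f : ℚ → ℝ} {C : ℝ} (h : ∀ x, |f x| ≤ C) : |L f| ≤ C * L (fun _ => 1) := by
  have hf : Bdf f := ⟨C, h⟩
  have h1 : L (fun _ => C) = C * L (fun _ => 1) := by
    have h2 := hL.smul C (fun _ => 1) (Bdf.const 1)
    simpa using h2
  have h3 := hL.mono hf (Bdf.const C) fun x => (_root_.abs_le.1 (h x)).2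
  have h4 := hL.mono hf.neg (Bdf.const C) fun x => by linarith [(_root_.abs_le.1 (h x)).1]
  rw [hL.neg hf] at h4
  rw [_root_.abs_le]
  constructor <;> linarith

theorem IM.const (hL : IM L) (c : ℝ) : L (fun _ => c) = c := by
  have h2 := hL.smul c (fun _ => 1) (Bdf.const 1)
  rw [hL.one, mul_one] at h2
  simpa using h2

theorem IM.abs_le (hL : IM L) {f : ℚ → ℝ} {C : ℝ} (h : ∀ x, |f x| ≤ C) : |L f| ≤ C := by
  have h1 := hL.toPF.abs_le h
  rwa [hL.one, mul_one] at h1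

theorem PF.cs (hL : PF L) {f g : ℚ → ℝ} (hf : Bdf f) (hg : Bdf g) :
    L (fun x => f x * g x) ^ 2 ≤ L (fun x => f x ^ 2) * L (fun x => g x ^ 2) := by
  have hq : ∀ t : ℝ, 0 ≤ L (fun x => g x ^ 2) * (t * t) + (2 * L (fun x => f x * g x)) * t +
      L (fun x => f x ^ 2) := by
    intro t
    have h1 := hL.pos (fun x => (f x + t * g x) ^ 2)
      ((hf.add ((Bdf.const t).mul hg)).pow 2) fun x => sq_nonneg _
    have e : (fun x => (f x + t * g x) ^ 2) =
        fun x => (f x ^ 2 + (2 * t) * (f x * g x)) + (t * t) * g x ^ 2 := by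
      funext x
      ring
    rw [e, hL.add _ _ ((hf.pow 2).add ((Bdf.const (2 * t)).mul (hf.mul hg)))
      ((Bdf.const (t * t)).mul (hg.pow 2)), hL.add _ _ (hf.pow 2)
      ((Bdf.const (2 * t)).mul (hf.mul hg)), hL.smul _ _ (hf.mul hg),
      hL.smul _ _ (hg.pow 2)] at h1
    linarith
  have h2 := discrim_le_zero hq
  unfold discrim at h2
  nlinarith

theorem Lc_add (hL : PF L) {f g : ℚ → ℂ} (hf : Bdc f) (hg : Bdc g) :
    Lc L (fun x => f x + g x) = Lc L f + Lc L g := by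
  apply Complex.ext
  · exact hL.add _ _ hf.re hg.re
  · exact hL.add _ _ hf.im hg.im

theorem Lc_smul (hL : PF L) (c : ℂ) {f : ℚ → ℂ} (hf : Bdc f) : Lc L (fun x => c * f x) = c * Lc L f := by
  apply Complex.ext
  · have h1 : (Lc L (fun x => c * f x)).re = L (fun x => c.re * (f x).re - c.im * (f x).im) := rfl
    have h2 : (c * Lc L f).re = c.re * L (fun x => (f x).re) - c.im * L (fun x => (f x).im) := rfl
    rw [h1, h2, hL.sub ((Bdf.const _).mul hf.re) ((Bdf.const _).mul hf.im), hL.smul _ _ hf.re,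
      hL.smul _ _ hf.im]
  · have h1 : (Lc L (fun x => c * f x)).im = L (fun x => c.re * (f x).im + c.im * (f x).re) := rfl
    have h2 : (c * Lc L f).im = c.re * L (fun x => (f x).im) + c.im * L (fun x => (f x).re) := rfl
    rw [h1, h2, hL.add _ _ ((Bdf.const _).mul hf.im) ((Bdf.const _).mul hf.re),
      hL.smul _ _ hf.re, hL.smul _ _ hf.im]

theorem Lc_sum (hL : PF L) {α : Type*} (s : Finset α) {f : α → ℚ → ℂ} (hf : ∀ a ∈ s, Bdc (f a)) :
    Lc L (fun x => ∑ a ∈ s, f a x) = ∑ a ∈ s, Lc L (f a) := by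
  classical
  induction s using Finset.induction_on with
  | empty =>
    simp only [sum_empty]
    apply Complex.ext
    · exact hL.zero
    · exact hL.zero
  | insert a s ha ih =>
    have hs : ∀ b ∈ s, Bdc (f b) := fun b hb => hf b (mem_insert_of_mem hb)
    have e : (fun x => ∑ b ∈ insert a s, f b x) = fun x => f a x + ∑ b ∈ s, f b x := by
      funext x
      rw [sum_insert ha]
    rw [e, sum_insert ha, ← ih hs]
    exact Lc_add hL (hf a (mem_insert_self a s)) (Bdc.sum s hs)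

theorem Lc_conj (hL : PF L) {f : ℚ → ℂ} (hf : Bdc f) :
    Lc L (fun x => (starRingEnd ℂ) (f x)) = (starRingEnd ℂ) (Lc L f) := by
  apply Complex.ext
  · rfl
  · exact hL.neg hf.im

theorem Lc_inv (hL : PF L) {f : ℚ → ℂ} (hf : Bdc f) (v : ℚ) : Lc L (fun x => f (x + v)) = Lc L f := by
  apply Complex.ext
  · exact hL.inv (fun x => (f x).re) v hf.re
  · exact hL.inv (fun x => (f x).im) v hf.im

theorem Lc_ofReal (hL : PF L) (f : ℚ → ℝ) : Lc L (fun x => (f x : ℂ)) = (L f : ℂ) := by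
  apply Complex.ext
  · rfl
  · exact hL.zero

theorem Lc_one (hL : IM L) : Lc L (fun _ => 1) = 1 := by
  apply Complex.ext
  · exact hL.one
  · exact hL.toPF.zero

theorem norm_Lc_le (hL : PF L) {f : ℚ → ℂ} (hf : Bdc f) : ‖Lc L f‖ ≤ L (fun x => ‖f x‖) := by
  rcases eq_or_ne (Lc L f) 0 with h0 | h0
  · rw [h0, norm_zero]
    exact hL.pos _ hf.norm fun x => norm_nonneg _
  · have hn : (‖Lc L f‖ : ℂ) ≠ 0 := by
      rw [Ne, Complex.ofReal_eq_zero, norm_eq_zero]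
      exact h0
    obtain ⟨z, hz⟩ : ∃ z : ℂ, z = (starRingEnd ℂ) (Lc L f) / (‖Lc L f‖ : ℂ) := ⟨_, rfl⟩
    have hz1 : ‖z‖ = 1 := by
      rw [hz, norm_div, RCLike.norm_conj, Complex.norm_real, norm_norm,
        div_self (norm_ne_zero_iff.2 h0)]
    have hz2 : z * Lc L f = (‖Lc L f‖ : ℂ) := by
      rw [hz, div_mul_eq_mul_div, mul_comm, Complex.mul_conj, Complex.normSq_eq_norm_sq,
        div_eq_iff hn]
      push_cast
      ring
    have h1 : Lc L (fun x => z * f x) = (‖Lc L f‖ : ℂ) := by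
      rw [Lc_smul hL z hf, hz2]
    have h2 : L (fun x => (z * f x).re) = ‖Lc L f‖ := by
      have := congrArg Complex.re h1
      rwa [Complex.ofReal_re] at this
    rw [← h2]
    refine hL.mono ((Bdc.const z).mul hf).re hf.norm fun x => ?_
    refine (Complex.re_le_norm _).trans ?_
    rw [norm_mul, hz1, one_mul]

theorem norm_Lc_sq_le (hL : IM L) {f : ℚ → ℂ} (hf : Bdc f) : ‖Lc L f‖ ^ 2 ≤ L (fun x => ‖f x‖ ^ 2) := by
  have h1 := norm_Lc_le hL.toPF hf
  have h2 := hL.toPF.cs hf.norm (Bdf.const 1)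
  have h3 : L (fun x => ‖f x‖ * 1) = L (fun x => ‖f x‖) := by
    simp only [mul_one]
  have h4 : L (fun _ => (1 : ℝ) ^ 2) = 1 := by
    simp only [one_pow]
    exact hL.one
  rw [h3, h4, mul_one] at h2
  exact (pow_le_pow_left₀ (norm_nonneg _) h1 2).trans h2

end

end PGL
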