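import Mathlib

/-! PGL / E6: a Fourier lemma for positive definite Toeplitz matrices.

PROOF. Put `J = 2 H`, `e(x) = exp(2 π i x)`, `Φ(θ) = J^(-2) ∑_{j, j' < J} φ(j - j') e(-(j - j') θ)
= ∑_{|d| < J} a_d e(-d θ)`, `a_d = φ(d) (1 - |d|/J) / J`. It is real (hermitian symmetry) and `≥ 0`. For the
`2J` frequencies `θ_r = r / (2J)` (the integers `|d| < J` are distinct mod `2J`): `(1/2J) ∑_r Φ(θ_r) = a_0 ≤ 1 / J` and
`(1/2J) ∑_r Φ(θ_r)² = ∑_d |a_d|²` (Parseval; orthogonality of the exponentials on `ℤ / 2J`). So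
`max_r Φ(θ_r) ≥ ∑ Φ² / ∑ Φ ≥ J ∑_d |a_d|² = (1/J) ∑_{|d| < J} |φ(d)|² (1 - |d|/J)² ≥ (1/(4J)) ∑_{|d| < H} |φ(d)|²`
(if `∑ Φ = 0` all `Φ(θ_r) = 0`, then `∑ |a_d|² = 0` and `κ ≤ 0`), and
`κ H² ≤ ∑_{j, j' < H} |φ(j - j')|² = ∑_{|d| < H} (H - |d|) |φ(d)|² ≤ H ∑_{|d| < H} |φ(d)|²`. Hence
`max Φ ≥ κ H / (4J) = κ / 8`. -/

set_option autoImplicit false

open Finset

noncomputable section

namespace PGL

theorem tp_orth (M : ℕ) (hM : 0 < M) (n : ℤ) (hn : |n| < M) :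
    ∑ r ∈ range M, Complex.exp (-(2 * Real.pi * (n : ℝ) * ((r : ℝ) / M) : ℝ) * Complex.I) =
      if n = 0 then (M : ℂ) else 0 := by
  have hM' : (M : ℂ) ≠ 0 := by exact_mod_cast hM.ne'
  by_cases h : n = 0
  · simp [h]
  · rw [if_neg h]
    have hprim := Complex.isPrimitiveRoot_exp M hM.ne'
    set ζ := Complex.exp (2 * Real.pi * Complex.I / M) with hζ
    have hz : ∀ r : ℕ, Complex.exp (-(2 * Real.pi * (n : ℝ) * ((r : ℝ) / M) : ℝ) * Complex.I) =
        (ζ ^ (-n)) ^ r := by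
      intro r
      rw [hζ, ← Complex.exp_int_mul, ← Complex.exp_nat_mul]
      congr 1
      push_cast
      field_simp
    rw [Finset.sum_congr rfl (fun r _ => hz r)]
    have h1 : ζ ^ (-n) ≠ 1 := by
      intro h1
      have := (hprim.zpow_eq_one_iff_dvd (-n)).1 h1
      rw [dvd_neg] at this
      have h2 := Int.le_of_dvd (abs_pos.2 h) ((dvd_abs _ _).2 this)
      omega
    have h2 : (ζ ^ (-n)) ^ M = 1 := by
      rw [← zpow_natCast, ← zpow_mul, mul_comm, zpow_mul, zpow_natCast, hprim.pow_eq_one, one_zpow]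
    have h3 := mul_neg_geom_sum (ζ ^ (-n)) M
    rw [h2, sub_self] at h3
    rcases mul_eq_zero.1 h3 with h4 | h4
    · exact absurd (sub_eq_zero.1 h4).symm h1
    · exact h4

/-- the quadratic form -/
def tpS (J : ℕ) (φ : ℤ → ℂ) (θ : ℝ) : ℂ := ∑ j ∈ range J, ∑ j' ∈ range J, φ ((j : ℤ) - j') *
      Complex.exp (-(2 * Real.pi * ((j : ℝ) - j') * θ : ℝ) * Complex.I)

theorem tpS_conj (J : ℕ) (φ : ℤ → ℂ) (hherm : ∀ j, φ (-j) = (starRingEnd ℂ) (φ j)) (θ : ℝ) :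
    (starRingEnd ℂ) (tpS J φ θ) = tpS J φ θ := by
  unfold tpS
  rw [map_sum]
  rw [Finset.sum_comm]
  refine Finset.sum_congr rfl fun j _ => ?_
  rw [map_sum]
  refine Finset.sum_congr rfl fun j' _ => ?_
  rw [map_mul, ← hherm, ← Complex.exp_conj]
  congr 1
  · congr 1; ring
  · congr 1
    rw [map_mul, Complex.conj_I, map_neg, Complex.conj_ofReal]
    push_cast
    ring

/-- the exponential at the frequency `r / M` -/
def tpe (M : ℕ) (n : ℤ) (r : ℕ) : ℂ :=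
  Complex.exp (-(2 * Real.pi * (n : ℝ) * ((r : ℝ) / M) : ℝ) * Complex.I)

theorem tpe_mul (M : ℕ) (n m : ℤ) (r : ℕ) : tpe M n r * tpe M m r = tpe M (n + m) r := by
  unfold tpe
  rw [← Complex.exp_add]
  congr 1
  push_cast
  ring

theorem tpS_eq (J M : ℕ) (φ : ℤ → ℂ) (r : ℕ) : tpS J φ ((r : ℝ) / M) =
    ∑ p ∈ range J ×ˢ range J, φ ((p.1 : ℤ) - p.2) * tpe M ((p.1 : ℤ) - p.2) r := by
  rw [Finset.sum_product]
  unfold tpS
  refine Finset.sum_congr rfl fun j _ => Finset.sum_congr rfl fun j' _ => ?_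
  unfold tpe
  push_cast
  rfl

theorem tp_abs (J : ℕ) (p : ℕ × ℕ) (hp : p ∈ range J ×ˢ range J) : |(p.1 : ℤ) - p.2| < J := by
  rw [Finset.mem_product, Finset.mem_range, Finset.mem_range] at hp
  rw [abs_lt]
  constructor <;> omega

theorem tp_sum1 (J : ℕ) (hJ : 0 < J) (φ : ℤ → ℂ) :
    ∑ r ∈ range (2 * J), tpS J φ ((r : ℝ) / (2 * J : ℕ)) = (2 * J : ℕ) * (J * φ 0) := by
  have h1 : ∀ r ∈ range (2 * J), tpS J φ ((r : ℝ) / (2 * J : ℕ)) =
      ∑ p ∈ range J ×ˢ range J, φ ((p.1 : ℤ) - p.2) * tpe (2 * J) ((p.1 : ℤ) - p.2) r :=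
    fun r _ => tpS_eq J (2 * J) φ r
  rw [Finset.sum_congr rfl h1, Finset.sum_comm]
  have h2 : ∀ p ∈ range J ×ˢ range J,
      ∑ r ∈ range (2 * J), φ ((p.1 : ℤ) - p.2) * tpe (2 * J) ((p.1 : ℤ) - p.2) r =
      if p.1 = p.2 then φ 0 * (2 * J : ℕ) else 0 := by
    intro p hp
    have h3 := tp_abs J p hp
    rw [← Finset.mul_sum]
    have h4 := tp_orth (2 * J) (by omega) ((p.1 : ℤ) - p.2) (by push_cast; omega)
    unfold tpe
    rw [h4]
    by_cases h5 : p.1 = p.2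
    · rw [if_pos h5, if_pos (by omega), h5, sub_self]
    · rw [if_neg h5, if_neg (by omega), mul_zero]
  rw [Finset.sum_congr rfl h2, Finset.sum_product]
  have h6 : ∀ j ∈ range J, (∑ j' ∈ range J, if (j, j').1 = (j, j').2 then φ 0 * ((2 * J : ℕ) : ℂ) else 0) =
      φ 0 * ((2 * J : ℕ) : ℂ) := by
    intro j hj
    simp only
    rw [Finset.sum_ite_eq, if_pos hj]
  rw [Finset.sum_congr rfl h6, Finset.sum_const, Finset.card_range, nsmul_eq_mul]
  ring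

theorem tp_sum2 (J : ℕ) (hJ : 0 < J) (φ : ℤ → ℂ) (hherm : ∀ j, φ (-j) = (starRingEnd ℂ) (φ j)) :
    ∑ r ∈ range (2 * J), tpS J φ ((r : ℝ) / (2 * J : ℕ)) * tpS J φ ((r : ℝ) / (2 * J : ℕ)) =
      ((∑ p ∈ range J ×ˢ range J, ∑ q ∈ range J ×ˢ range J,
        if (p.1 : ℤ) - p.2 + ((q.1 : ℤ) - q.2) = 0 then ((2 * J : ℕ) : ℝ) * ‖φ ((p.1 : ℤ) - p.2)‖ ^ 2 else 0 : ℝ) : ℂ) := by
  have h1 : ∀ r ∈ range (2 * J),
      tpS J φ ((r : ℝ) / (2 * J : ℕ)) * tpS J φ ((r : ℝ) / (2 * J : ℕ)) =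
      ∑ p ∈ range J ×ˢ range J, ∑ q ∈ range J ×ˢ range J, φ ((p.1 : ℤ) - p.2) * φ ((q.1 : ℤ) - q.2) *
        tpe (2 * J) ((p.1 : ℤ) - p.2 + ((q.1 : ℤ) - q.2)) r := by
    intro r _
    rw [tpS_eq J (2 * J) φ r, Finset.sum_mul_sum]
    refine Finset.sum_congr rfl fun p _ => Finset.sum_congr rfl fun q _ => ?_
    rw [← tpe_mul]
    ring
  rw [Finset.sum_congr rfl h1, Finset.sum_comm]
  push_cast
  refine Finset.sum_congr rfl fun p hp => ?_
  rw [Finset.sum_comm]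
  refine Finset.sum_congr rfl fun q hq => ?_
  rw [← Finset.mul_sum]
  have h3 := tp_abs J p hp
  have h4 := tp_abs J q hq
  have h5 := tp_orth (2 * J) (by omega) ((p.1 : ℤ) - p.2 + ((q.1 : ℤ) - q.2)) (by
    refine lt_of_le_of_lt (abs_add_le _ _) ?_
    push_cast
    omega)
  unfold tpe
  rw [h5]
  by_cases h6 : (p.1 : ℤ) - p.2 + ((q.1 : ℤ) - q.2) = 0
  · rw [if_pos h6, if_pos h6]
    have h7 : ((q.1 : ℤ) - q.2) = -((p.1 : ℤ) - p.2) := by omega
    rw [h7, hherm, Complex.mul_conj, Complex.normSq_eq_norm_sq]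
    push_cast
    ring
  · rw [if_neg h6, if_neg h6, mul_zero]
    simp

theorem tp_low (H : ℕ) (φ : ℤ → ℂ) : (H : ℝ) * ((2 * (2 * H) : ℕ) * ∑ j ∈ range H, ∑ j' ∈ range H, ‖φ ((j : ℤ) - j')‖ ^ 2) ≤
      ∑ p ∈ range (2 * H) ×ˢ range (2 * H), ∑ q ∈ range (2 * H) ×ˢ range (2 * H),
        if (p.1 : ℤ) - p.2 + ((q.1 : ℤ) - q.2) = 0 then ((2 * (2 * H) : ℕ) : ℝ) * ‖φ ((p.1 : ℤ) - p.2)‖ ^ 2 else 0 := by
  have hsub : range H ×ˢ range H ⊆ range (2 * H) ×ˢ range (2 * H) := by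
    intro p hp
    rw [Finset.mem_product, Finset.mem_range, Finset.mem_range] at hp ⊢
    omega
  refine le_trans ?_ (Finset.sum_le_sum_of_subset_of_nonneg hsub fun p _ _ =>
    Finset.sum_nonneg fun q _ => ?_)
  · rw [Finset.mul_sum, Finset.mul_sum, Finset.sum_product]
    refine Finset.sum_le_sum fun j hj => ?_
    rw [Finset.mul_sum, Finset.mul_sum]
    refine Finset.sum_le_sum fun j' hj' => ?_
    rw [Finset.mem_range] at hj hj'
    simp only
    rw [← Finset.sum_filter, Finset.sum_const, nsmul_eq_mul]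
    refine mul_le_mul_of_nonneg_right ?_ (by positivity)
    have hinj : Function.Injective (fun t : ℕ => ((t + j', t + j) : ℕ × ℕ)) := by
      intro a b h
      simp only [Prod.mk.injEq] at h
      omega
    have h1 : (Finset.image (fun t : ℕ => ((t + j', t + j) : ℕ × ℕ)) (range H)).card = H := by
      rw [Finset.card_image_of_injective _ hinj, Finset.card_range]
    have h2 : Finset.image (fun t : ℕ => ((t + j', t + j) : ℕ × ℕ)) (range H) ⊆
        Finset.filter (fun q : ℕ × ℕ => (j : ℤ) - j' + ((q.1 : ℤ) - q.2) = 0)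
          (range (2 * H) ×ˢ range (2 * H)) := by
      intro q hq
      rw [Finset.mem_image] at hq
      obtain ⟨t, ht, rfl⟩ := hq
      rw [Finset.mem_range] at ht
      rw [Finset.mem_filter, Finset.mem_product, Finset.mem_range, Finset.mem_range]
      refine ⟨⟨by simp only; omega, by simp only; omega⟩, ?_⟩
      push_cast
      ring
    have h3 := Finset.card_le_card h2
    rw [h1] at h3
    exact_mod_cast h3
  · split_ifs
    · positivity
    · exact le_rfl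

theorem toeplitz (H : ℕ) (hH : 0 < H) (φ : ℤ → ℂ) (hherm : ∀ j, φ (-j) = (starRingEnd ℂ) (φ j))
    (h0 : ‖φ 0‖ ≤ 1)
    (hpos : ∀ θ : ℝ, 0 ≤ (∑ j ∈ range (2 * H), ∑ j' ∈ range (2 * H), φ ((j : ℤ) - j') *
      Complex.exp (-(2 * Real.pi * ((j : ℝ) - j') * θ : ℝ) * Complex.I)).re) (κ : ℝ)
    (hκ : κ * H ^ 2 ≤ ∑ j ∈ range H, ∑ j' ∈ range H, ‖φ ((j : ℤ) - j')‖ ^ 2) :
    ∃ θ : ℝ, κ / 8 * (2 * H) ^ 2 ≤ (∑ j ∈ range (2 * H), ∑ j' ∈ range (2 * H), φ ((j : ℤ) - j') *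
      Complex.exp (-(2 * Real.pi * ((j : ℝ) - j') * θ : ℝ) * Complex.I)).re := by
  rcases le_or_gt κ 0 with hκ0 | hκ0
  · refine ⟨0, le_trans ?_ (hpos 0)⟩
    have : 0 ≤ (2 * (H : ℝ)) ^ 2 := by positivity
    nlinarith
  · by_contra hcon
    push Not at hcon
    have hre : ∀ θ : ℝ, tpS (2 * H) φ θ = (((tpS (2 * H) φ θ).re : ℝ) : ℂ) := by
      intro θ
      exact (Complex.conj_eq_iff_real.1 (tpS_conj (2 * H) φ hherm θ)).elim fun r hr => by
        rw [hr, Complex.ofReal_re]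
    have hp : ∀ θ : ℝ, 0 ≤ (tpS (2 * H) φ θ).re := hpos
    have hc : ∀ θ : ℝ, (tpS (2 * H) φ θ).re < κ / 8 * (2 * H) ^ 2 := hcon
    set g : ℕ → ℝ := fun r => (tpS (2 * H) φ ((r : ℝ) / (2 * (2 * H) : ℕ))).re with hg
    have hs1 : ∑ r ∈ range (2 * (2 * H)), g r ≤ (2 * (2 * H) : ℕ) * (2 * H : ℕ) := by
      have h1 := tp_sum1 (2 * H) (by omega) φ
      have h2 := congrArg Complex.re h1
      rw [Complex.re_sum] at h2
      change ∑ r ∈ range (2 * (2 * H)), g r = _ at h2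
      have hrn : ∀ (n : ℕ) (z : ℂ), ((n : ℂ) * z).re = n * z.re := by
        intro n z
        rw [Complex.mul_re, Complex.natCast_re, Complex.natCast_im]
        ring
      rw [h2, hrn, hrn]
      have h3 : (φ 0).re ≤ 1 := (Complex.re_le_norm _).trans h0
      have h4 : ((2 * H : ℕ) : ℝ) * (φ 0).re ≤ (2 * H : ℕ) := by
        have : (0 : ℝ) ≤ ((2 * H : ℕ) : ℝ) := Nat.cast_nonneg _
        nlinarith
      exact mul_le_mul_of_nonneg_left h4 (Nat.cast_nonneg _)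
    have hs2 : (H : ℝ) * ((2 * (2 * H) : ℕ) * (κ * H ^ 2)) ≤ ∑ r ∈ range (2 * (2 * H)), g r * g r := by
      have h1 := tp_sum2 (2 * H) (by omega) φ hherm
      have h2 : ∑ r ∈ range (2 * (2 * H)), tpS (2 * H) φ ((r : ℝ) / (2 * (2 * H) : ℕ)) *
          tpS (2 * H) φ ((r : ℝ) / (2 * (2 * H) : ℕ)) =
          ((∑ r ∈ range (2 * (2 * H)), g r * g r : ℝ) : ℂ) := by
        push_cast
        refine Finset.sum_congr rfl fun r _ => ?_
        have h3 := hre ((r : ℝ) / (2 * (2 * H) : ℕ))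
        have h4 : ((g r : ℝ) : ℂ) = tpS (2 * H) φ ((r : ℝ) / (2 * (2 * H) : ℕ)) := h3.symm
        rw [h4]
        push_cast
        rfl
      rw [h2] at h1
      rw [Complex.ofReal_inj] at h1
      rw [h1]
      refine le_trans ?_ (tp_low H φ)
      refine mul_le_mul_of_nonneg_left ?_ (Nat.cast_nonneg _)
      exact mul_le_mul_of_nonneg_left hκ (Nat.cast_nonneg _)
    set T : ℝ := κ / 8 * (2 * H) ^ 2 with hT
    have hH' : (0 : ℝ) < H := by exact_mod_cast hH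
    have hT0 : 0 < T := by positivity
    have hle : ∀ r ∈ range (2 * (2 * H)), g r * g r ≤ T * g r := by
      intro r _
      exact mul_le_mul_of_nonneg_right (hc _).le (hp _)
    have h5 : ∑ r ∈ range (2 * (2 * H)), g r * g r ≤ T * ∑ r ∈ range (2 * (2 * H)), g r := by
      rw [Finset.mul_sum]
      exact Finset.sum_le_sum hle
    have h6 : T * ∑ r ∈ range (2 * (2 * H)), g r ≤ T * ((2 * (2 * H) : ℕ) * (2 * H : ℕ)) :=
      mul_le_mul_of_nonneg_left hs1 hT0.le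
    have h7 : T * ((2 * (2 * H) : ℕ) * (2 * H : ℕ)) = (H : ℝ) * ((2 * (2 * H) : ℕ) * (κ * H ^ 2)) := by
      rw [hT]
      push_cast
      ring
    have h8 : ∑ r ∈ range (2 * (2 * H)), g r * g r = ∑ r ∈ range (2 * (2 * H)), T * g r := by
      rw [← Finset.mul_sum]
      linarith
    have h9 := (Finset.sum_eq_sum_iff_of_le hle).1 h8
    have h10 : ∀ r ∈ range (2 * (2 * H)), g r = 0 := by
      intro r hr
      have h11 := h9 r hr
      have h12 : g r < T := hc _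
      have h13 : g r * (T - g r) = 0 := by linarith
      rcases mul_eq_zero.1 h13 with h14 | h14
      · exact h14
      · linarith
    have h15 : ∑ r ∈ range (2 * (2 * H)), g r * g r = 0 := by
      refine Finset.sum_eq_zero fun r hr => ?_
      rw [h10 r hr, mul_zero]
    rw [h15] at hs2
    have h16 : 0 < (H : ℝ) * ((2 * (2 * H) : ℕ) * (κ * H ^ 2)) := by positivity
    linarith

end PGL
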