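import Pool.Agent.PGL.E5
import Pool.Agent.PGL.E6

/-! PGL / E7: the inverse theorem, a large autocorrelation gives a character.

PROOF. For every `n` we have `d_n, H_n` with `n! ∣ d_n`, `0 < d_n`, `n d_n ≤ H_n`. The sequence `φ_n(j) = phi L h (j / d_n)`
satisfies the hypotheses of `toeplitz` (`phi_conj`, `norm_phi_le`; positivity by `phi_sum`: the sum is the norm squared
of `∑_j e(-jθ) h(x + j/d_n)`). Get `θ_n`. Let `χ_n : ℚ → Circle`, `χ_n(j / d_n) = e(j θ_n)` for `j ∈ ℤ` and `1` at the other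
rationals; it is a homomorphism on `(1/d_n) ℤ`. By compactness of `ℚ → Circle` take an ultrafilter limit (along
`hyperfilter ℕ`) `χ` of the sequence `χ_n`: for `a, b ∈ ℚ` we have `χ_n(a + b) = χ_n(a) χ_n(b)` for all large `n`
(`a d_n, b d_n` integers), so `χ` is an additive character. Claim: for all `d, J > 0` with `m! ∣ d`-type boxes (fixed)
`N(χ; d, J) := L(‖(1/J) ∑_{i < J} conj χ(i/d) h(x + i/d)‖²) ≥ κ / 8`. Fix `d, J`. For large `n`, `d ∣ d_n`; write
`A_n h = (1/(2H_n)) ∑_{j < 2 H_n} conj χ_n(j/d_n) h(x + j/d_n)`, `B_n h = (1/J) ∑_{i < J} conj χ_n(i/d) h(x + i/d)`. By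
`toeplitz` and `phi_sum` `L ‖A_n h‖² ≥ κ/8`. The function `A_n (B_n h)` is an average of translates (with unimodular
factors) of `B_n h`, so by convexity of `L ‖·‖²` (Cauchy-Schwarz / `norm_sq` of an average `≤` average of the squares)
and invariance `L ‖A_n B_n h‖² ≤ L ‖B_n h‖²`; and `‖A_n B_n h - A_n h‖ ≤ 2 (J/d) d_n / (2 H_n) ≤ J / (d n)` pointwise
(for `i/d = i' / d_n`, shifting the box by `i'` costs `2 i' / (2 H_n)`; `χ_n` is a homomorphism on `(1/d_n) ℤ`). So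
`L ‖B_n h‖² ≥ κ/8 - O(J / (d n))`, and `B_n h` converges along the ultrafilter uniformly to the same expression with
`χ` (finitely many coefficients). Finally `me_char` along the boxes: `‖Lc (h conj χ)‖² ≥ κ / 8`. -/

set_option autoImplicit false

open Finset

noncomputable section

namespace PGL

/-- the exponential characters -/
private def ec (t : ℝ) : Ch where
  toFun q := Circle.exp (t * (q : ℝ))
  map_zero_eq_one' := by simp
  map_add_eq_mul' a b := by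
    rw [Rat.cast_add, mul_add, Circle.exp_add]

private theorem ec_coe (t : ℝ) (q : ℚ) : ((ec t q : Circle) : ℂ) = Complex.exp ((t * (q : ℝ) : ℝ) * Complex.I) := by
  show ((Circle.exp (t * (q : ℝ)) : Circle) : ℂ) = _
  rw [Circle.coe_exp]

private theorem char_sub' (χ : Ch) (x y : ℚ) :
    ((χ (x - y) : Circle) : ℂ) = (χ x : ℂ) * (starRingEnd ℂ) (χ y : ℂ) := by
  rw [sub_eq_add_neg, AddChar.map_add_eq_mul, Circle.coe_mul, AddChar.map_neg_eq_inv,
    Circle.coe_inv_eq_conj]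

/-- the box average -/
private def bx (χ : Ch) (d N : ℕ) (h : ℚ → ℂ) (x : ℚ) : ℂ :=
  (∑ i ∈ range N, (starRingEnd ℂ) (χ ((i : ℚ) / d) : ℂ) * h (x + i / d)) / N

private theorem bx_bd (χ : Ch) (d N : ℕ) {h : ℚ → ℂ} (hh : ∀ x, ‖h x‖ ≤ 1) (x : ℚ) : ‖bx χ d N h x‖ ≤ 1 := by
  unfold bx
  rw [norm_div, Complex.norm_natCast]
  have h1 : ‖∑ i ∈ range N, (starRingEnd ℂ) (χ ((i : ℚ) / d) : ℂ) * h (x + i / d)‖ ≤ N := by
    calc _ ≤ ∑ i ∈ range N, ‖(starRingEnd ℂ) (χ ((i : ℚ) / d) : ℂ) * h (x + i / d)‖ := norm_sum_le _ _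
      _ ≤ ∑ i ∈ range N, (1 : ℝ) := sum_le_sum fun i _ => by
          rw [norm_mul, Complex.norm_conj, Circle.norm_coe, one_mul]
          exact hh _
      _ = N := by rw [sum_const, card_range, nsmul_eq_mul, mul_one]
  exact div_le_one_of_le₀ h1 (Nat.cast_nonneg N)

private theorem bdc_of_one {h : ℚ → ℂ} (hh : ∀ x, ‖h x‖ ≤ 1) : Bdc h := ⟨1, hh⟩

/-- box averages contract the square norm -/
private theorem bx_contr {L : (ℚ → ℝ) → ℝ} (hL : IM L) (χ : Ch) (d N : ℕ) (hN : 0 < N) {g : ℚ → ℂ}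
    (hg : ∀ x, ‖g x‖ ≤ 1) : L (fun x => ‖bx χ d N g x‖ ^ 2) ≤ L (fun x => ‖g x‖ ^ 2) := by
  have hN' : (0 : ℝ) < N := by exact_mod_cast hN
  have hb : Bdf (fun x => ‖g x‖ ^ 2) := (bdc_of_one hg).norm.pow 2
  have hbx : Bdf (fun x => ‖bx χ d N g x‖ ^ 2) := (bdc_of_one (bx_bd χ d N hg)).norm.pow 2
  have hs : Bdf (fun x => ∑ i ∈ range N, ‖g (x + (i : ℚ) / d)‖ ^ 2) :=
    Bdf.sum _ fun i _ => hb.shift ((i : ℚ) / d)
  have h1 : L (fun x => ‖bx χ d N g x‖ ^ 2) ≤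
      L (fun x => (1 / (N : ℝ)) * ∑ i ∈ range N, ‖g (x + (i : ℚ) / d)‖ ^ 2) := by
    refine hL.toPF.mono hbx ((Bdf.const _).mul hs) fun x => ?_
    unfold bx
    rw [norm_div, Complex.norm_natCast, div_pow]
    have h2 : ‖∑ i ∈ range N, (starRingEnd ℂ) (χ ((i : ℚ) / d) : ℂ) * g (x + i / d)‖ ≤
        ∑ i ∈ range N, ‖g (x + (i : ℚ) / d)‖ := by
      refine (norm_sum_le _ _).trans (le_of_eq ?_)
      refine sum_congr rfl fun i _ => ?_
      rw [norm_mul, Complex.norm_conj, Circle.norm_coe, one_mul]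
    have h3 : ‖∑ i ∈ range N, (starRingEnd ℂ) (χ ((i : ℚ) / d) : ℂ) * g (x + i / d)‖ ^ 2 ≤
        N * ∑ i ∈ range N, ‖g (x + (i : ℚ) / d)‖ ^ 2 := by
      calc _ ≤ (∑ i ∈ range N, ‖g (x + (i : ℚ) / d)‖) ^ 2 := pow_le_pow_left₀ (norm_nonneg _) h2 2
        _ ≤ _ := by
          have := sq_sum_le_card_mul_sum_sq (s := range N) (f := fun i : ℕ => ‖g (x + (i : ℚ) / d)‖)
          rwa [card_range] at this
    rw [div_le_iff₀ (by positivity)]
    calc _ ≤ N * ∑ i ∈ range N, ‖g (x + (i : ℚ) / d)‖ ^ 2 := h3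
      _ = 1 / (N : ℝ) * (∑ i ∈ range N, ‖g (x + (i : ℚ) / d)‖ ^ 2) * (N : ℝ) ^ 2 := by
        field_simp
  refine h1.trans (le_of_eq ?_)
  rw [hL.toPF.smul _ _ hs, hL.toPF.sum (range N) (f := fun (i : ℕ) x => ‖g (x + (i : ℚ) / d)‖ ^ 2)
    (fun i _ => hb.shift ((i : ℚ) / d))]
  have hinv : ∀ i ∈ range N, L (fun x => ‖g (x + (i : ℚ) / d)‖ ^ 2) = L (fun x => ‖g x‖ ^ 2) :=
    fun i _ => hL.toPF.inv (fun x => ‖g x‖ ^ 2) ((i : ℚ) / d) hb
  rw [sum_congr rfl hinv, sum_const, card_range, nsmul_eq_mul]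
  field_simp

private theorem L_close {L : (ℚ → ℝ) → ℝ} (hL : IM L) {f g : ℚ → ℂ} (hf : ∀ x, ‖f x‖ ≤ 1) (hg : ∀ x, ‖g x‖ ≤ 1)
    {ε : ℝ} (h : ∀ x, ‖f x - g x‖ ≤ ε) : L (fun x => ‖f x‖ ^ 2) ≤ L (fun x => ‖g x‖ ^ 2) + 2 * ε := by
  have hb : Bdf (fun x => ‖g x‖ ^ 2) := (bdc_of_one hg).norm.pow 2
  have hb' : Bdf (fun x => ‖f x‖ ^ 2) := (bdc_of_one hf).norm.pow 2
  have h1 : L (fun x => ‖f x‖ ^ 2) ≤ L (fun x => ‖g x‖ ^ 2 + 2 * ε) := by
    refine hL.toPF.mono hb' (hb.add (Bdf.const _)) fun x => ?_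
    have h2 : ‖f x‖ ≤ ‖g x‖ + ε := by
      have := norm_sub_norm_le (f x) (g x)
      linarith [h x]
    have h3 := hf x
    have h4 := hg x
    have h5 := norm_nonneg (f x)
    have h6 := norm_nonneg (g x)
    have h7 : 0 ≤ ε := (norm_nonneg _).trans (h x)
    by_cases h8 : ‖f x‖ ≤ ‖g x‖
    · nlinarith
    · nlinarith
  rw [hL.toPF.add _ _ hb (Bdf.const _), hL.const] at h1
  exact h1

private theorem shift_sum (F : ℕ → ℂ) (hF : ∀ j, ‖F j‖ ≤ 1) (N k : ℕ) :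
    ‖∑ j ∈ range N, F (j + k) - ∑ j ∈ range N, F j‖ ≤ 2 * k := by
  induction k with
  | zero => simp
  | succ k ih =>
    have h1 : ∑ j ∈ range N, F (j + (k + 1)) = ∑ j ∈ range N, F (j + k) + F (N + k) - F k := by
      have e1 := sum_range_succ (fun j => F (j + k)) N
      have e2 := sum_range_succ' (fun j => F (j + k)) N
      rw [e1] at e2
      have e3 : ∑ j ∈ range N, F (j + (k + 1)) = ∑ j ∈ range N, F (j + 1 + k) :=
        sum_congr rfl fun j _ => by rw [add_assoc, add_comm 1 k]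
      rw [e3]
      simp only [zero_add] at e2
      rw [e2]
      ring
    rw [h1]
    have h2 : ∑ j ∈ range N, F (j + k) + F (N + k) - F k - ∑ j ∈ range N, F j =
        (∑ j ∈ range N, F (j + k) - ∑ j ∈ range N, F j) + (F (N + k) - F k) := by ring
    rw [h2]
    calc _ ≤ ‖∑ j ∈ range N, F (j + k) - ∑ j ∈ range N, F j‖ + ‖F (N + k) - F k‖ := norm_add_le _ _
      _ ≤ 2 * k + 2 := by
          have := norm_sub_le (F (N + k)) (F k)
          linarith [hF (N + k), hF k]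
      _ = 2 * ((k + 1 : ℕ) : ℝ) := by push_cast; ring

/-- comparison of the big box with a small box -/
private theorem box_cmp {L : (ℚ → ℝ) → ℝ} (hL : IM L) (χ : Ch) {d e J N : ℕ} (hd : 0 < d) (he : 0 < e) (hJ : 0 < J)
    (hN : 0 < N) {h : ℚ → ℂ} (hh : ∀ x, ‖h x‖ ≤ 1) :
    L (fun x => ‖bx χ (d * e) N h x‖ ^ 2) ≤ L (fun x => ‖bx χ d J h x‖ ^ 2) + 2 * (2 * (J * e) / N) := by
  have hN' : (0 : ℝ) < N := by exact_mod_cast hN
  have hJ' : (0 : ℝ) < J := by exact_mod_cast hJ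
  have hJc : (J : ℂ) ≠ 0 := by exact_mod_cast hJ.ne'
  have hNc : (N : ℂ) ≠ 0 := by exact_mod_cast hN.ne'
  have hdq : (d : ℚ) ≠ 0 := by exact_mod_cast hd.ne'
  have heq : (e : ℚ) ≠ 0 := by exact_mod_cast he.ne'
  refine (L_close hL (bx_bd χ (d * e) N hh) (bx_bd χ (d * e) N (bx_bd χ d J hh))
    (ε := 2 * (J * e) / N) ?_).trans ?_
  · intro x
    set F : ℕ → ℂ := fun j => (starRingEnd ℂ) (χ ((j : ℚ) / (d * e : ℕ)) : ℂ) * h (x + (j : ℚ) / (d * e : ℕ)) with hF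
    have hF1 : ∀ j, ‖F j‖ ≤ 1 := by
      intro j
      rw [hF]
      simp only
      rw [norm_mul, Complex.norm_conj, Circle.norm_coe, one_mul]
      exact hh _
    have h1 : bx χ (d * e) N (bx χ d J h) x = (∑ i ∈ range J, ∑ j ∈ range N, F (j + i * e)) / (J * N) := by
      unfold bx
      rw [sum_comm, div_eq_iff hNc]
      have e1 : (∑ j ∈ range N, ∑ i ∈ range J, F (j + i * e)) / ((J : ℂ) * N) * N =
          (∑ j ∈ range N, ∑ i ∈ range J, F (j + i * e)) / J := by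
        field_simp
      rw [e1, sum_div]
      refine sum_congr rfl fun j _ => ?_
      rw [← mul_div_assoc, mul_sum]
      congr 1
      refine sum_congr rfl fun i _ => ?_
      rw [hF]
      simp only
      have e2 : (((j + i * e : ℕ)) : ℚ) / ((d * e : ℕ) : ℚ) = (j : ℚ) / ((d * e : ℕ) : ℚ) + (i : ℚ) / d := by
        push_cast
        field_simp
      rw [e2, AddChar.map_add_eq_mul, Circle.coe_mul, map_mul, add_assoc]
      ring
    have h2 : bx χ (d * e) N h x = (∑ i ∈ range J, ∑ j ∈ range N, F j) / (J * N) := by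
      show (∑ j ∈ range N, F j) / (N : ℂ) = _
      rw [sum_const, card_range, nsmul_eq_mul, mul_div_mul_left _ _ hJc]
    rw [h1, h2, ← sub_div, ← sum_sub_distrib, norm_div, norm_mul, Complex.norm_natCast, Complex.norm_natCast]
    rw [div_le_div_iff₀ (by positivity) hN']
    have h3 : ‖∑ i ∈ range J, (∑ j ∈ range N, F j - ∑ j ∈ range N, F (j + i * e))‖ ≤ J * (2 * (J * e)) := by
      calc _ ≤ ∑ i ∈ range J, ‖∑ j ∈ range N, F j - ∑ j ∈ range N, F (j + i * e)‖ := norm_sum_le _ _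
        _ ≤ ∑ i ∈ range J, (2 * (J * e) : ℝ) := by
            refine sum_le_sum fun i hi => ?_
            rw [norm_sub_rev]
            refine (shift_sum F hF1 N (i * e)).trans ?_
            have : (i : ℝ) ≤ J := by exact_mod_cast (mem_range.1 hi).le
            push_cast
            have he' : (0 : ℝ) ≤ e := Nat.cast_nonneg e
            nlinarith
        _ = J * (2 * (J * e)) := by rw [sum_const, card_range, nsmul_eq_mul]
    calc _ ≤ (J : ℝ) * (2 * (J * e)) * N := mul_le_mul_of_nonneg_right h3 hN'.le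
      _ = _ := by ring
  · have := bx_contr hL χ (d * e) N hN (bx_bd χ d J hh)
    linarith

/-- the square norm of a box sum as a Toeplitz form -/
private theorem box_id {L : (ℚ → ℝ) → ℝ} (hL : IM L) {h : ℚ → ℂ} (hh : Bdc h) (χ : Ch) (d N : ℕ) :
    ((L (fun x => ‖∑ i ∈ range N, (starRingEnd ℂ) (χ ((i : ℚ) / d) : ℂ) * h (x + i / d)‖ ^ 2) : ℝ) : ℂ) =
      ∑ i ∈ range N, ∑ j ∈ range N, phi L h (((i : ℚ) - j) / d) *
        (starRingEnd ℂ) (χ (((i : ℚ) - j) / d) : ℂ) := by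
  rw [phi_sum hL hh N (fun i => (starRingEnd ℂ) (χ ((i : ℚ) / d) : ℂ)) (fun i => (i : ℚ) / d)]
  refine sum_congr rfl fun i _ => sum_congr rfl fun j _ => ?_
  have e1 : ((i : ℚ) - j) / d = (i : ℚ) / d - j / d := sub_div _ _ _
  rw [e1, char_sub', map_mul]
  ring

/-- the existence of a good exponential character for one box -/
private theorem one_box {L : (ℚ → ℝ) → ℝ} (hL : IM L) {h : ℚ → ℂ} (hh : ∀ x, ‖h x‖ ≤ 1) (κ : ℝ) (d H : ℕ)
    (hd : 0 < d) (hH : 0 < H)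
    (hκ : κ * H ^ 2 ≤ ∑ j ∈ range H, ∑ j' ∈ range H, ‖phi L h (((j : ℚ) - j') / d)‖ ^ 2) :
    ∃ χ : Ch, κ / 8 ≤ L (fun x => ‖bx χ d (2 * H) h x‖ ^ 2) := by
  have hb : Bdc h := bdc_of_one hh
  have hdr : (d : ℝ) ≠ 0 := by exact_mod_cast hd.ne'
  have hHr : (0 : ℝ) < H := by exact_mod_cast hH
  have key : ∀ θ : ℝ, ∑ j ∈ range (2 * H), ∑ j' ∈ range (2 * H), phi L h (((((j : ℤ) - j' : ℤ)) : ℚ) / d) *
      Complex.exp (-(2 * Real.pi * ((j : ℝ) - j') * θ : ℝ) * Complex.I) =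
      ((L (fun x => ‖∑ i ∈ range (2 * H), (starRingEnd ℂ) (ec (2 * Real.pi * θ * d) ((i : ℚ) / d) : ℂ) *
        h (x + i / d)‖ ^ 2) : ℝ) : ℂ) := by
    intro θ
    rw [box_id hL hb]
    refine sum_congr rfl fun j _ => sum_congr rfl fun j' _ => ?_
    have e1 : ((((j : ℤ) - j' : ℤ)) : ℚ) = (j : ℚ) - j' := by push_cast; rfl
    rw [e1]
    congr 1
    rw [ec_coe, ← Complex.exp_conj, map_mul, Complex.conj_ofReal, Complex.conj_I]
    congr 1
    push_cast
    have hdc : (d : ℂ) ≠ 0 := by exact_mod_cast hd.ne'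
    field_simp
  obtain ⟨θ, hθ⟩ := toeplitz H hH (fun j => phi L h ((j : ℚ) / d)) (fun j => by
      rw [← phi_conj hL hb]
      congr 1
      push_cast
      ring) (norm_phi_le hL hh _) (fun θ => by
      rw [key θ, Complex.ofReal_re]
      refine hL.pos _ ?_ fun x => by positivity
      have : Bdc (fun x => ∑ i ∈ range (2 * H), (starRingEnd ℂ) (ec (2 * Real.pi * θ * d) ((i : ℚ) / d) : ℂ) *
          h (x + i / d)) := Bdc.sum _ fun i _ => (Bdc.const _).mul (hb.shift _)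
      exact this.norm.pow 2) κ (by
      refine hκ.trans (le_of_eq ?_)
      refine sum_congr rfl fun j _ => sum_congr rfl fun j' _ => ?_
      congr 3
      push_cast
      rfl)
  refine ⟨ec (2 * Real.pi * θ * d), ?_⟩
  rw [key θ, Complex.ofReal_re] at hθ
  have hB : Bdf (fun x => ‖∑ i ∈ range (2 * H), (starRingEnd ℂ) (ec (2 * Real.pi * θ * d) ((i : ℚ) / d) : ℂ) *
        h (x + i / d)‖ ^ 2) := by
    have : Bdc (fun x => ∑ i ∈ range (2 * H), (starRingEnd ℂ) (ec (2 * Real.pi * θ * d) ((i : ℚ) / d) : ℂ) *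
          h (x + i / d)) := Bdc.sum _ fun i _ => (Bdc.const _).mul (hb.shift _)
    exact this.norm.pow 2
  have e2 : (fun x => ‖bx (ec (2 * Real.pi * θ * d)) d (2 * H) h x‖ ^ 2) =
      fun x => (1 / (2 * (H : ℝ)) ^ 2) * ‖∑ i ∈ range (2 * H), (starRingEnd ℂ) (ec (2 * Real.pi * θ * d) ((i : ℚ) / d) : ℂ) *
        h (x + i / d)‖ ^ 2 := by
    funext x
    unfold bx
    rw [norm_div, Complex.norm_natCast, div_pow]
    push_cast
    ring
  rw [e2, hL.toPF.smul _ _ hB]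
  rw [one_div, inv_mul_eq_div, le_div_iff₀ (by positivity)]
  exact hθ

theorem inverse {L : (ℚ → ℝ) → ℝ} (hL : Erg L) {h : ℚ → ℂ} (hh : ∀ x, ‖h x‖ ≤ 1) (κ : ℝ)
    (hκ : ∀ n : ℕ, ∃ d H : ℕ, Nat.factorial n ∣ d ∧ 0 < d ∧ n * d ≤ H ∧ 0 < H ∧
      κ * H ^ 2 ≤ ∑ j ∈ range H, ∑ j' ∈ range H, ‖phi L h (((j : ℚ) - j') / d)‖ ^ 2) :
    ∃ χ : Ch, κ / 8 ≤ ‖Lc L (fun x => h x * (starRingEnd ℂ) (χ x : ℂ))‖ ^ 2 := by
  have hI : IM L := hL.toIM
  have hb : Bdc h := bdc_of_one hh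
  choose D H hdvd hD hDH hH hk using hκ
  choose X hX using fun n => one_box hI hh κ (D n) (H n) (hD n) (hH n) (hk n)
  have hlim : ∀ q : ℚ, ∃ z : Circle, Filter.Tendsto (fun n => X n q) (Filter.hyperfilter ℕ : Filter ℕ) (nhds z) := by
    intro q
    obtain ⟨z, _, hz⟩ := isCompact_univ.ultrafilter_le_nhds ((Filter.hyperfilter ℕ).map (fun n => X n q))
      (by simp)
    exact ⟨z, hz⟩
  choose χ₀ hχ₀ using hlim
  let χ : Ch :=
    { toFun := χ₀
      map_zero_eq_one' := by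
        refine tendsto_nhds_unique (hχ₀ 0) ?_
        simp only [AddChar.map_zero_eq_one]
        exact tendsto_const_nhds
      map_add_eq_mul' := by
        intro a b
        refine tendsto_nhds_unique (hχ₀ (a + b)) ?_
        simp only [AddChar.map_add_eq_mul]
        exact (hχ₀ a).mul (hχ₀ b) }
  have hχ : ∀ q, Filter.Tendsto (fun n => X n q) (Filter.hyperfilter ℕ : Filter ℕ) (nhds (χ q)) := hχ₀
  refine ⟨χ, ?_⟩
  have claim : ∀ d J : ℕ, 0 < d → 0 < J → κ / 8 ≤ L (fun x => ‖bx χ d J h x‖ ^ 2) := by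
    intro d J hd hJ
    have hJr : (0 : ℝ) < J := by exact_mod_cast hJ
    -- the error terms
    have herr1 : Filter.Tendsto (fun n : ℕ => 2 * (J : ℝ) * (1 / (n : ℝ))) (Filter.hyperfilter ℕ : Filter ℕ) (nhds 0) := by
      have h1 : Filter.Tendsto (fun n : ℕ => 2 * (J : ℝ) * (1 / (n : ℝ))) Filter.atTop (nhds (2 * (J : ℝ) * 0)) :=
        tendsto_one_div_atTop_nhds_zero_nat.const_mul _
      rw [mul_zero] at h1
      exact h1.mono_left Nat.hyperfilter_le_atTop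
    have herr2 : Filter.Tendsto (fun n : ℕ => ∑ i ∈ range J, ‖((X n ((i : ℚ) / d) : Circle) : ℂ) - (χ ((i : ℚ) / d) : ℂ)‖)
        (Filter.hyperfilter ℕ : Filter ℕ) (nhds 0) := by
      have h1 : Filter.Tendsto (fun n : ℕ => ∑ i ∈ range J, ‖((X n ((i : ℚ) / d) : Circle) : ℂ) - (χ ((i : ℚ) / d) : ℂ)‖)
          (Filter.hyperfilter ℕ : Filter ℕ) (nhds (∑ i ∈ range J, ‖(χ ((i : ℚ) / d) : ℂ) - (χ ((i : ℚ) / d) : ℂ)‖)) := by
        refine tendsto_finsetSum _ fun i _ => ?_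
        refine Filter.Tendsto.norm ?_
        refine Filter.Tendsto.sub_const ?_ _
        exact (continuous_subtype_val.tendsto _).comp (hχ ((i : ℚ) / d))
      simpa using h1
    have hev : ∀ᶠ n : ℕ in (Filter.hyperfilter ℕ : Filter ℕ),
        κ / 8 - 2 * (∑ i ∈ range J, ‖((X n ((i : ℚ) / d) : Circle) : ℂ) - (χ ((i : ℚ) / d) : ℂ)‖) -
          2 * (J : ℝ) * (1 / (n : ℝ)) ≤ L (fun x => ‖bx χ d J h x‖ ^ 2) := by
      have h0 : ∀ᶠ n : ℕ in Filter.atTop, max d 1 ≤ n := Filter.eventually_ge_atTop _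
      filter_upwards [Nat.hyperfilter_le_atTop h0] with n hn
      have hdn : d ≤ n := (le_max_left _ _).trans hn
      have hn1 : 1 ≤ n := (le_max_right _ _).trans hn
      obtain ⟨e, he⟩ : d ∣ D n := (Nat.dvd_factorial hd hdn).trans (hdvd n)
      have he0 : 0 < e := by
        rcases Nat.eq_zero_or_pos e with h | h
        · have := hD n
          rw [he, h, mul_zero] at this
          exact absurd this (lt_irrefl 0)
        · exact h
      have h1 := box_cmp hI (X n) hd he0 hJ (N := 2 * H n) (by have := hH n; omega) hh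
      rw [← he] at h1
      have h2 := hX n
      have h3 : L (fun x => ‖bx (X n) d J h x‖ ^ 2) ≤ L (fun x => ‖bx χ d J h x‖ ^ 2) +
          2 * (∑ i ∈ range J, ‖((X n ((i : ℚ) / d) : Circle) : ℂ) - (χ ((i : ℚ) / d) : ℂ)‖) := by
        refine L_close hI (bx_bd _ _ _ hh) (bx_bd _ _ _ hh) fun x => ?_
        unfold bx
        rw [← sub_div, ← sum_sub_distrib, norm_div, Complex.norm_natCast, div_le_iff₀ hJr]
        have h4 : ‖∑ i ∈ range J, ((starRingEnd ℂ) ((X n ((i : ℚ) / d) : Circle) : ℂ) * h (x + i / d) -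
            (starRingEnd ℂ) (χ ((i : ℚ) / d) : ℂ) * h (x + i / d))‖ ≤
            ∑ i ∈ range J, ‖((X n ((i : ℚ) / d) : Circle) : ℂ) - (χ ((i : ℚ) / d) : ℂ)‖ := by
          refine (norm_sum_le _ _).trans (sum_le_sum fun i _ => ?_)
          rw [← sub_mul, ← map_sub, norm_mul, Complex.norm_conj]
          exact mul_le_of_le_one_right (norm_nonneg _) (hh _)
        refine h4.trans ?_
        have h5 : (1 : ℝ) ≤ J := by exact_mod_cast hJ
        have h6 : 0 ≤ ∑ i ∈ range J, ‖((X n ((i : ℚ) / d) : Circle) : ℂ) - (χ ((i : ℚ) / d) : ℂ)‖ :=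
          sum_nonneg fun _ _ => norm_nonneg _
        nlinarith
      have h7 : 2 * (2 * ((J : ℝ) * e) / ((2 * H n : ℕ) : ℝ)) ≤ 2 * (J : ℝ) * (1 / (n : ℝ)) := by
        have hnr : (0 : ℝ) < n := by exact_mod_cast hn1
        have hHr : (0 : ℝ) < H n := by exact_mod_cast hH n
        have h8 : n * e ≤ H n := by
          calc n * e ≤ n * D n := by
                apply Nat.mul_le_mul_left
                rw [he]
                exact Nat.le_mul_of_pos_left e hd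
            _ ≤ H n := hDH n
        have h9 : (n : ℝ) * e ≤ H n := by exact_mod_cast h8
        push_cast
        have e1 : 2 * (2 * ((J : ℝ) * e) / (2 * (H n : ℝ))) = 2 * J * (e / H n) := by
          field_simp
        rw [e1]
        refine mul_le_mul_of_nonneg_left ?_ (by positivity)
        rw [div_le_div_iff₀ hHr hnr]
        linarith
      linarith
    have hl : Filter.Tendsto (fun n : ℕ => κ / 8 - 2 * (∑ i ∈ range J, ‖((X n ((i : ℚ) / d) : Circle) : ℂ) -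
        (χ ((i : ℚ) / d) : ℂ)‖) - 2 * (J : ℝ) * (1 / (n : ℝ))) (Filter.hyperfilter ℕ : Filter ℕ) (nhds (κ / 8)) := by
      have := ((herr2.const_mul 2).const_sub (κ / 8)).sub herr1
      simpa using this
    exact le_of_tendsto hl hev
  refine le_of_forall_pos_le_add fun η hη => ?_
  obtain ⟨n₀, hn₀, hme⟩ := me_char hL hb χ η hη
  have h1 := hme (Nat.factorial n₀) (n₀ * Nat.factorial n₀) dvd_rfl (Nat.factorial_pos _) le_rfl
  have h2 := claim (Nat.factorial n₀) (n₀ * Nat.factorial n₀) (Nat.factorial_pos _)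
    (Nat.mul_pos hn₀ (Nat.factorial_pos _))
  unfold bx at h2
  have h3 := (abs_le.1 h1).2
  linarith

/-- functions with small Fourier coefficients are invisible for weighted averages over large boxes -/
theorem small_box {L : (ℚ → ℝ) → ℝ} (hL : Erg L) {f : ℚ → ℝ} (hf : ∀ x, |f x| ≤ 1) (σ : ℝ) (hσ : 0 < σ)
    (hsm : ∀ χ : Ch, ‖Lc L (fun x => (f x : ℂ) * (starRingEnd ℂ) (χ x : ℂ))‖ ^ 2 ≤ σ) :
    ∃ n₀ : ℕ, 0 < n₀ ∧ ∀ d H : ℕ, Nat.factorial n₀ ∣ d → 0 < d → n₀ * d ≤ H → ∀ b : ℕ → ℝ, (∀ i, |b i| ≤ 1) →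
      L (fun x => ((∑ i ∈ range H, b i * f (x - i / d)) / H) ^ 2) ≤ √(9 * σ) := by
  by_contra hcon
  push Not at hcon
  have hI : IM L := hL.toIM
  have hfc : ∀ x, ‖(f x : ℂ)‖ ≤ 1 := fun x => by
    rw [Complex.norm_real, Real.norm_eq_abs]
    exact hf x
  have hb : Bdc (fun x => (f x : ℂ)) := ⟨1, hfc⟩
  obtain ⟨χ, hχ⟩ := inverse hL hfc (9 * σ) (fun n => by
    obtain ⟨d, H, h1, h2, h3, b, hb1, h4⟩ := hcon (n + 1) (Nat.succ_pos n)
    have hH : 0 < H := lt_of_lt_of_le (Nat.mul_pos (Nat.succ_pos n) h2) h3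
    have hHr : (0 : ℝ) < H := by exact_mod_cast hH
    refine ⟨d, H, (Nat.factorial_dvd_factorial (Nat.le_succ n)).trans h1, h2,
      (Nat.mul_le_mul_right d (Nat.le_succ n)).trans h3, hH, ?_⟩
    set T : ℝ := ∑ j ∈ range H, ∑ j' ∈ range H, ‖phi L (fun x => (f x : ℂ)) (((j : ℚ) - j') / d)‖ ^ 2 with hT
    have hT0 : 0 ≤ T := sum_nonneg fun _ _ => sum_nonneg fun _ _ => by positivity
    set W : ℝ := L (fun x => (∑ i ∈ range H, b i * f (x - i / d)) ^ 2) with hW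
    have hWb : Bdf (fun x => (∑ i ∈ range H, b i * f (x - i / d)) ^ 2) := by
      refine Bdf.pow (Bdf.sum _ fun i _ => (Bdf.const _).mul ?_) 2
      exact ⟨1, fun x => hf _⟩
    have e1 : L (fun x => ((∑ i ∈ range H, b i * f (x - i / d)) / H) ^ 2) = W / H ^ 2 := by
      have : (fun x => ((∑ i ∈ range H, b i * f (x - i / d)) / H) ^ 2) =
          fun x => (1 / (H : ℝ) ^ 2) * (∑ i ∈ range H, b i * f (x - i / d)) ^ 2 := by
        funext x
        rw [div_pow]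
        ring
      rw [this, hI.toPF.smul _ _ hWb]
      ring
    rw [e1, lt_div_iff₀ (by positivity)] at h4
    have e2 : ((W : ℝ) : ℂ) = ∑ i ∈ range H, ∑ j ∈ range H, (b i : ℂ) * (starRingEnd ℂ) (b j : ℂ) *
        phi L (fun x => (f x : ℂ)) (-((i : ℚ) / d) - -((j : ℚ) / d)) := by
      have := phi_sum hI hb H (fun i => (b i : ℂ)) (fun i => -((i : ℚ) / d))
      rw [← this, hW]
      congr 2
      funext x
      have e3 : ∑ i ∈ range H, (b i : ℂ) * ((f (x + -((i : ℚ) / d)) : ℝ) : ℂ) =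
          ((∑ i ∈ range H, b i * f (x - i / d) : ℝ) : ℂ) := by
        rw [Complex.ofReal_sum]
        refine sum_congr rfl fun i _ => ?_
        rw [Complex.ofReal_mul, sub_eq_add_neg]
      rw [e3, Complex.norm_real, Real.norm_eq_abs, sq_abs]
    have e4 : W ≤ ∑ i ∈ range H, ∑ j ∈ range H, ‖phi L (fun x => (f x : ℂ)) (((j : ℚ) - i) / d)‖ := by
      have e5 : W ≤ ‖((W : ℝ) : ℂ)‖ := by
        rw [Complex.norm_real]
        exact le_abs_self W
      refine e5.trans ?_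
      rw [e2]
      refine (norm_sum_le _ _).trans (sum_le_sum fun i _ => (norm_sum_le _ _).trans (sum_le_sum fun j _ => ?_))
      rw [norm_mul, norm_mul, Complex.norm_conj, Complex.norm_real, Complex.norm_real, Real.norm_eq_abs,
        Real.norm_eq_abs]
      have e6 : -((i : ℚ) / d) - -((j : ℚ) / d) = ((j : ℚ) - i) / d := by ring
      rw [e6]
      have e7 : |b i| * |b j| ≤ 1 := mul_le_one₀ (hb1 i) (abs_nonneg _) (hb1 j)
      exact mul_le_of_le_one_left (norm_nonneg _) e7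
    rw [sum_comm] at e4
    have e8 : (∑ j ∈ range H, ∑ i ∈ range H, ‖phi L (fun x => (f x : ℂ)) (((j : ℚ) - i) / d)‖) ^ 2 ≤
        (H : ℝ) ^ 2 * T := by
      rw [hT, ← sum_product', ← sum_product']
      have := sq_sum_le_card_mul_sum_sq (s := range H ×ˢ range H)
        (f := fun q : ℕ × ℕ => ‖phi L (fun x => (f x : ℂ)) (((q.1 : ℚ) - q.2) / d)‖)
      rw [card_product, card_range] at this
      push_cast at this
      rw [sq (H : ℝ)]
      exact this
    have e9 : 0 ≤ √(9 * σ) := Real.sqrt_nonneg _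
    have e10 : √(9 * σ) ^ 2 = 9 * σ := Real.sq_sqrt (by positivity)
    have e11 : √(9 * σ) * (H : ℝ) ^ 2 ≤
        ∑ j ∈ range H, ∑ i ∈ range H, ‖phi L (fun x => (f x : ℂ)) (((j : ℚ) - i) / d)‖ := h4.le.trans e4
    have e12 : (√(9 * σ) * (H : ℝ) ^ 2) ^ 2 ≤ (H : ℝ) ^ 2 * T :=
      (pow_le_pow_left₀ (by positivity) e11 2).trans e8
    rw [mul_pow, e10] at e12
    have e13 : (H : ℝ) ^ 2 * (9 * σ * (H : ℝ) ^ 2) ≤ (H : ℝ) ^ 2 * T := by
      calc _ = 9 * σ * ((H : ℝ) ^ 2) ^ 2 := by ring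
        _ ≤ _ := e12
    exact le_of_mul_le_mul_left e13 (by positivity))
  have := hsm χ
  linarith

end PGL
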