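import Pool.Agent.PGL.E9
import Pool.Agent.PGL.E7

/-! PGL / E10: the structure theorem.

PROOF. `Ξ₀` from `spec_tail` for `u` and `η / 4`, `M₀` with `(2 / M₀)² ≤ η / 4`, `Q = Sm L u Ξ₀ M₀`. `L Q = hat Q 1 = aK 1 hat u 1
= L u`. Given `η₃` choose `σ > 0` with `√(9 σ) ≤ η₃`; `Ξ = Ξ₀ ∪ {ψ : σ ≤ ‖hat u ψ‖²}` (`spec_finite`), `M ≥ M₀` with
`(2 / M)² ≤ σ`, `P = Sm L u Ξ M`. `f = u - P` has `|f| ≤ 1` and `hat f ψ = (1 - aK ψ) hat u ψ`: for `ψ ∈ Ξ` at most `2/M`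
(`‖hat u ψ‖ ≤ 1`), for `ψ ∉ Ξ` at most `√σ`; so `small_box` applies with `σ`. `P - Q` is a trigonometric polynomial (sum
over a common finite set `s`; enlarge the sets of `Sm_poly`: where a character does not occur in one of the two
polynomials its coefficient there is zero by `hat_poly`/`hat_Sm`), `L((P - Q)²) = ∑_{ψ ∈ s} (aK_P - aK_Q)² ‖hat u ψ‖²`
(`parseval`); for `ψ ∈ Ξ₀` both multipliers are in `[1 - 2/M₀, 1]` (`M ≥ M₀`), so these terms give at most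
`(2/M₀)² ∑ ‖hat u ψ‖² ≤ η/4` (`bessel`), the others at most `∑_{s \ Ξ₀} ‖hat u‖² ≤ η/4`. -/

set_option autoImplicit false

open Finset

noncomputable section

namespace PGL

variable {L : (ℚ → ℝ) → ℝ}

private theorem exists_M (M₀ : ℕ) {ε : ℝ} (hε : 0 < ε) : ∃ M : ℕ, 0 < M ∧ M₀ ≤ M ∧ (2 / (M : ℝ)) ^ 2 ≤ ε := by
  obtain ⟨n, hn⟩ := exists_nat_gt (4 / ε)
  refine ⟨max (max n 1) M₀, ?_, le_max_right _ _, ?_⟩
  · exact lt_of_lt_of_le Nat.one_pos ((le_max_right n 1).trans (le_max_left _ _))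
  · set M : ℕ := max (max n 1) M₀ with hM
    have h1 : (1 : ℝ) ≤ M := by
      have : 1 ≤ M := (le_max_right n 1).trans (le_max_left _ _)
      exact_mod_cast this
    have h2 : 4 / ε < M := by
      refine lt_of_lt_of_le hn ?_
      have : n ≤ M := (le_max_left n 1).trans (le_max_left _ _)
      exact_mod_cast this
    have hMpos : (0 : ℝ) < M := by linarith
    rw [div_lt_iff₀ hε] at h2
    rw [div_pow, div_le_iff₀ (by positivity)]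
    nlinarith

/-- the smoothing as a sum over any large finite set -/
private theorem Sm_big (hL : IM L) {u : ℚ → ℝ} (hu : Bdf u) (Ξ : Finset Ch) {M : ℕ} (hM : 0 < M) :
    ∃ s₀ : Finset Ch, ∀ s : Finset Ch, s₀ ⊆ s → ∀ x, (Sm L u Ξ M x : ℂ) =
      ∑ ψ ∈ s, (aK L Ξ M ψ : ℂ) * hat L (fun x => (u x : ℂ)) ψ * (ψ x : ℂ) := by
  classical
  obtain ⟨s₀, hs₀⟩ := Sm_poly hL hu Ξ hM
  refine ⟨s₀, fun s hs x => ?_⟩
  rw [hs₀ x]
  refine sum_subset hs fun ψ _ hψ => ?_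
  have h1 := hat_poly hL s₀ (fun ψ => (aK L Ξ M ψ : ℂ) * hat L (fun x => (u x : ℂ)) ψ) hs₀ ψ
  rw [if_neg hψ, hat_Sm hL hu Ξ hM ψ] at h1
  rw [h1, zero_mul]

private theorem hat_one {f : ℚ → ℝ} (hL : IM L) : hat L (fun x => (f x : ℂ)) 1 = (L f : ℂ) := by
  unfold hat
  have h : (fun x : ℚ => (f x : ℂ) * (starRingEnd ℂ) (((1 : Ch) x : Circle) : ℂ)) = fun x => (f x : ℂ) := by
    funext x
    simp
  rw [h, Lc_ofReal hL.toPF]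

theorem structure_thm {L : (ℚ → ℝ) → ℝ} (hL : Erg L) {u : ℚ → ℝ} (hu : ∀ x, 0 ≤ u x ∧ u x ≤ 1) (η : ℝ) (hη : 0 < η) :
    ∃ Q : ℚ → ℝ, TPr Q ∧ (∀ x, 0 ≤ Q x ∧ Q x ≤ 1) ∧ L Q = L u ∧ ∀ η₃ : ℝ, 0 < η₃ →
      ∃ P : ℚ → ℝ, (∀ x, 0 ≤ P x ∧ P x ≤ 1) ∧ L (fun x => (P x - Q x) ^ 2) ≤ η ∧
        ∃ n₀ : ℕ, 0 < n₀ ∧ ∀ d H : ℕ, Nat.factorial n₀ ∣ d → 0 < d → n₀ * d ≤ H → ∀ b : ℕ → ℝ, (∀ i, |b i| ≤ 1) →
          L (fun x => ((∑ i ∈ range H, b i * (u (x - i / d) - P (x - i / d))) / H) ^ 2) ≤ η₃ := by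
  classical
  have hI : IM L := hL.toIM
  have hub : Bdf u := ⟨1, fun x => abs_le.2 ⟨by linarith [(hu x).1], (hu x).2⟩⟩
  have huc : Bdc (fun x => (u x : ℂ)) := hub.toC
  have huL : L (fun x => ‖(u x : ℂ)‖ ^ 2) ≤ 1 := by
    have h1 : L (fun x => ‖(u x : ℂ)‖ ^ 2) ≤ L (fun _ => 1) := by
      refine hI.toPF.mono (huc.norm.pow 2) (Bdf.const 1) fun x => ?_
      rw [Complex.norm_real, Real.norm_eq_abs, sq_abs]
      have := hu x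
      nlinarith
    rw [hI.one] at h1
    exact h1
  obtain ⟨Ξ₀, hΞ₀⟩ := spec_tail hI huc (η / 4) (by positivity)
  obtain ⟨M₀, hM₀, _, hM₀'⟩ := exists_M 0 (show (0 : ℝ) < η / 4 by positivity)
  refine ⟨Sm L u Ξ₀ M₀, ?_, Sm_mem hI hu Ξ₀ hM₀, ?_, ?_⟩
  · obtain ⟨s, hs⟩ := Sm_poly hI hub Ξ₀ hM₀
    exact ⟨s, fun ψ => (aK L Ξ₀ M₀ ψ : ℂ) * hat L (fun x => (u x : ℂ)) ψ, hs⟩
  · have h1 := hat_Sm hI hub Ξ₀ hM₀ 1
    rw [hat_one hI, hat_one hI, aK_one hI Ξ₀ hM₀, Complex.ofReal_one, one_mul] at h1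
    exact_mod_cast h1
  intro η₃ hη₃
  set σ : ℝ := η₃ ^ 2 / 9 with hσ
  have hσ0 : 0 < σ := by positivity
  have hσ1 : √(9 * σ) = η₃ := by
    rw [hσ, mul_div_cancel₀ _ (by norm_num : (9 : ℝ) ≠ 0), Real.sqrt_sq hη₃.le]
  set S : Finset Ch := (spec_finite hI huc σ hσ0).toFinset with hS
  set Ξ : Finset Ch := Ξ₀ ∪ S with hΞ
  obtain ⟨M, hM, hMM, hM'⟩ := exists_M M₀ hσ0
  have hMr : (0 : ℝ) < M := by exact_mod_cast hM
  have hM₀r : (0 : ℝ) < M₀ := by exact_mod_cast hM₀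
  have h2M : 2 / (M : ℝ) ≤ 2 / (M₀ : ℝ) :=
    div_le_div_of_nonneg_left (by norm_num) hM₀r (by exact_mod_cast hMM)
  refine ⟨Sm L u Ξ M, Sm_mem hI hu Ξ hM, ?_, ?_⟩
  · obtain ⟨s₁, hs₁⟩ := Sm_big hI hub Ξ hM
    obtain ⟨s₂, hs₂⟩ := Sm_big hI hub Ξ₀ hM₀
    set s := s₁ ∪ s₂ with hs
    have e1 : ∀ x, (((Sm L u Ξ M x - Sm L u Ξ₀ M₀ x : ℝ)) : ℂ) =
        ∑ ψ ∈ s, ((aK L Ξ M ψ : ℂ) - aK L Ξ₀ M₀ ψ) * hat L (fun x => (u x : ℂ)) ψ * (ψ x : ℂ) := by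
      intro x
      rw [Complex.ofReal_sub, hs₁ s subset_union_left x, hs₂ s subset_union_right x, ← sum_sub_distrib]
      refine sum_congr rfl fun ψ _ => ?_
      ring
    have e2 := parseval hI s (fun ψ => ((aK L Ξ M ψ : ℂ) - aK L Ξ₀ M₀ ψ) * hat L (fun x => (u x : ℂ)) ψ) e1
    have e3 : (fun x => ‖(((Sm L u Ξ M x - Sm L u Ξ₀ M₀ x : ℝ)) : ℂ)‖ ^ 2) =
        fun x => (Sm L u Ξ M x - Sm L u Ξ₀ M₀ x) ^ 2 := by
      funext x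
      rw [Complex.norm_real, Real.norm_eq_abs, sq_abs]
    rw [e3] at e2
    rw [e2]
    have e4 : ∀ ψ : Ch, ‖((aK L Ξ M ψ : ℂ) - aK L Ξ₀ M₀ ψ) * hat L (fun x => (u x : ℂ)) ψ‖ ^ 2 =
        (aK L Ξ M ψ - aK L Ξ₀ M₀ ψ) ^ 2 * ‖hat L (fun x => (u x : ℂ)) ψ‖ ^ 2 := by
      intro ψ
      rw [norm_mul, mul_pow, ← Complex.ofReal_sub, Complex.norm_real, Real.norm_eq_abs, sq_abs]
    rw [sum_congr rfl (fun ψ _ => e4 ψ)]
    rw [← sum_filter_add_sum_filter_not s (fun ψ => ψ ∈ Ξ₀)]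
    have e5 : ∑ ψ ∈ s.filter (fun ψ => ψ ∈ Ξ₀), (aK L Ξ M ψ - aK L Ξ₀ M₀ ψ) ^ 2 *
        ‖hat L (fun x => (u x : ℂ)) ψ‖ ^ 2 ≤ η / 4 := by
      calc _ ≤ ∑ ψ ∈ s.filter (fun ψ => ψ ∈ Ξ₀), η / 4 * ‖hat L (fun x => (u x : ℂ)) ψ‖ ^ 2 := by
            refine sum_le_sum fun ψ hψ => mul_le_mul_of_nonneg_right ?_ (by positivity)
            have hψ0 : ψ ∈ Ξ₀ := (mem_filter.1 hψ).2
            have a1 := aK_conc hI Ξ₀ hM₀ hψ0
            have a2 := aK_conc hI Ξ hM (ψ := ψ) (mem_union_left _ hψ0)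
            have a3 := (aK_mem hI Ξ₀ hM₀ ψ).2
            have a4 := (aK_mem hI Ξ hM ψ).2
            have a5 : |aK L Ξ M ψ - aK L Ξ₀ M₀ ψ| ≤ 2 / M₀ := abs_le.2 ⟨by linarith, by linarith⟩
            calc (aK L Ξ M ψ - aK L Ξ₀ M₀ ψ) ^ 2 ≤ (2 / (M₀ : ℝ)) ^ 2 := sq_le_sq' (abs_le.1 a5).1 (abs_le.1 a5).2
              _ ≤ η / 4 := hM₀'
        _ = η / 4 * ∑ ψ ∈ s.filter (fun ψ => ψ ∈ Ξ₀), ‖hat L (fun x => (u x : ℂ)) ψ‖ ^ 2 :=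
            (mul_sum _ _ _).symm
        _ ≤ η / 4 * 1 := by
            refine mul_le_mul_of_nonneg_left ?_ (by positivity)
            exact (bessel hI huc _).trans huL
        _ = η / 4 := mul_one _
    have e6 : ∑ ψ ∈ s.filter (fun ψ => ¬ ψ ∈ Ξ₀), (aK L Ξ M ψ - aK L Ξ₀ M₀ ψ) ^ 2 *
        ‖hat L (fun x => (u x : ℂ)) ψ‖ ^ 2 ≤ η / 4 := by
      calc _ ≤ ∑ ψ ∈ s.filter (fun ψ => ¬ ψ ∈ Ξ₀), ‖hat L (fun x => (u x : ℂ)) ψ‖ ^ 2 := by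
            refine sum_le_sum fun ψ _ => ?_
            have a1 := aK_mem hI Ξ₀ hM₀ ψ
            have a2 := aK_mem hI Ξ hM ψ
            have a5 : |aK L Ξ M ψ - aK L Ξ₀ M₀ ψ| ≤ 1 := abs_le.2 ⟨by linarith [a1.2, a2.1], by linarith [a1.1, a2.2]⟩
            have a6 : (aK L Ξ M ψ - aK L Ξ₀ M₀ ψ) ^ 2 ≤ 1 := by
              calc (aK L Ξ M ψ - aK L Ξ₀ M₀ ψ) ^ 2 ≤ (1 : ℝ) ^ 2 := sq_le_sq' (abs_le.1 a5).1 (abs_le.1 a5).2
                _ = 1 := one_pow 2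
            exact mul_le_of_le_one_left (by positivity) a6
        _ ≤ η / 4 := by
            refine hΞ₀ _ ?_
            rw [disjoint_left]
            intro ψ hψ
            exact (mem_filter.1 hψ).2
    linarith
  · have hPb : Bdf (Sm L u Ξ M) := ⟨1, fun x => abs_le.2
      ⟨by linarith [(Sm_mem hI hu Ξ hM x).1], (Sm_mem hI hu Ξ hM x).2⟩⟩
    have hf1 : ∀ x, |u x - Sm L u Ξ M x| ≤ 1 := fun x => abs_le.2
      ⟨by linarith [(Sm_mem hI hu Ξ hM x).2, (hu x).1], by linarith [(Sm_mem hI hu Ξ hM x).1, (hu x).2]⟩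
    have hhat : ∀ χ : Ch, Lc L (fun x => (((u x - Sm L u Ξ M x : ℝ)) : ℂ) * (starRingEnd ℂ) (χ x : ℂ)) =
        ((1 - aK L Ξ M χ : ℝ) : ℂ) * hat L (fun x => (u x : ℂ)) χ := by
      intro χ
      have b1 : (fun x => (((u x - Sm L u Ξ M x : ℝ)) : ℂ) * (starRingEnd ℂ) (χ x : ℂ)) =
          fun x => (u x : ℂ) * (starRingEnd ℂ) (χ x : ℂ) + (-1) * ((Sm L u Ξ M x : ℂ) * (starRingEnd ℂ) (χ x : ℂ)) := by
        funext x
        push_cast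
        ring
      have b2 : Bdc (fun x => (Sm L u Ξ M x : ℂ) * (starRingEnd ℂ) (χ x : ℂ)) := hPb.toC.mul (Bdc.char χ).star
      have b3 : Bdc (fun x => (u x : ℂ) * (starRingEnd ℂ) (χ x : ℂ)) := huc.mul (Bdc.char χ).star
      rw [b1, Lc_add hI.toPF b3 ((Bdc.const (-1)).mul b2), Lc_smul hI.toPF (-1) b2]
      have b4 := hat_Sm hI hub Ξ hM χ
      unfold hat at b4 ⊢
      rw [b4]
      push_cast
      ring
    obtain ⟨n₀, hn₀, hbox⟩ := small_box hL hf1 σ hσ0 (fun χ => by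
      rw [hhat χ, norm_mul, mul_pow, Complex.norm_real, Real.norm_eq_abs, sq_abs]
      have a2 := aK_mem hI Ξ hM χ
      by_cases hχ : χ ∈ Ξ
      · have a1 := aK_conc hI Ξ hM hχ
        have c1 : (1 - aK L Ξ M χ) ^ 2 ≤ σ := by
          calc (1 - aK L Ξ M χ) ^ 2 ≤ (2 / (M : ℝ)) ^ 2 :=
                pow_le_pow_left₀ (by linarith [a2.2]) (by linarith) 2
            _ ≤ σ := hM'
        have c2 : ‖hat L (fun x => (u x : ℂ)) χ‖ ^ 2 ≤ 1 := by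
          have := bessel hI huc {χ}
          rw [sum_singleton] at this
          exact this.trans huL
        calc _ ≤ σ * 1 := mul_le_mul c1 c2 (by positivity) hσ0.le
          _ = σ := mul_one _
      · have hχS : χ ∉ S := fun h => hχ (mem_union_right _ h)
        have c1 : ‖hat L (fun x => (u x : ℂ)) χ‖ ^ 2 < σ := by
          by_contra hcon
          exact hχS ((Set.Finite.mem_toFinset _).2 (not_lt.1 hcon))
        have c2 : (1 - aK L Ξ M χ) ^ 2 ≤ 1 := by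
          calc (1 - aK L Ξ M χ) ^ 2 ≤ (1 : ℝ) ^ 2 :=
                pow_le_pow_left₀ (by linarith [a2.2]) (by linarith [a2.1]) 2
            _ = 1 := one_pow 2
        calc _ ≤ 1 * σ := mul_le_mul c2 c1.le (by positivity) zero_le_one
          _ = σ := one_mul _)
    refine ⟨n₀, hn₀, fun d H h1 h2 h3 b hb => ?_⟩
    rw [← hσ1]
    exact hbox d H h1 h2 h3 b hb

end PGL
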