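import Pool.Agent.PGL.E9

/-! PGL / E11: an almost period `p t` with equidistributed multiples `r t`.

PROOF of `lemmaT`. `R = 8 |Λ| + 1`, `c = 1 / (2 R)`. Given `ρ` take `R₂ ≥ (16 |Λ| + 1) / ρ²`. For a prime `p` let
`Λ_p = {χ^p : χ ∈ Λ}` (the map `χ ↦ χ^p` is injective since `AddChar ℚ Circle` is torsion-free: `ψ^m = 1`, `m ≠ 0`, implies
`ψ x = ψ(x/m)^m = 1`), `K = Kf Λ_p R₂`. (i) `L(K (1 - Re χ^p)) ≤ (2/R₂) L K` for `χ ∈ Λ` (`Kf_conc`).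
(ii) For all but finitely many primes `p`: `L(K · FJ R (χ)) = L K` for all `χ ∈ Λ`: expand `FJ R χ = ∑_{|j|<R} w_j χ^j`
(`FJ_expand`) and `K = ∑_n ∏ w_n ∏_{χ' ∈ Λ} χ'^(p n_χ')`, `|n_χ'| < R₂`; `Lc (K χ^j) = 0` unless
`χ^j ∏ χ'^(p n_χ') = 1` for some such `n`; for fixed `χ ∈ Λ`, `0 < |j| < R` and `n` at most one prime `p` satisfies this (two
primes: `(∏ χ'^(n_χ'))^(p - p') = 1`, so `∏ χ'^(n_χ') = 1`, `χ^j = 1`, `χ = 1`, a contradiction). Let `p` be larger than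
all these exceptional primes. Then
`L(K (1 - ∑_χ (2/R) FJ R (χ) - ∑_χ (2/ρ²)(1 - Re χ^p))) ≥ L K (1 - 2|Λ|/R - 4|Λ|/(ρ² R₂)) > 0` (`L K ≥ 1`), so there is `t`
with `∑_χ (2/R) FJ R (χ t) < 1` and `∑_χ (2/ρ²)(1 - Re χ(t)^p) < 1`: `FJ R (χ t) < R/2` gives `‖χ t - 1‖ > 1/(2R)`
(`FJ_large`), and `‖χ(p t) - 1‖² = 2 (1 - Re χ(pt)) < ρ²`.
PROOF of `good_step`. `Q x = ∑_{ψ ∈ s} c_ψ ψ(x)`, `Λ = s \ {1}`, `C = ∑ ‖c_ψ‖ + 1`, `ρ = η / C`, `p₀` large with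
`2 / (p₀ c) ≤ η / C`: `|Q(y + pt) - Q y| ≤ ∑ ‖c_ψ‖ ‖ψ(pt) - 1‖ ≤ η`, and
`(1/p) ∑_{r<p} Q(y + rt) - L Q = ∑_{ψ ≠ 1} c_ψ ψ(y) (1/p) (ψ(pt) - 1) / (ψ(t) - 1)` (`L Q = c_1` if `1 ∈ s`, else `0`). -/

set_option autoImplicit false

open Finset

noncomputable section

namespace PGL

theorem torsion_free {ψ : Ch} {m : ℤ} (hm : m ≠ 0) (h : ψ ^ m = 1) : ψ = 1 := by
  ext x
  have hm' : (m : ℚ) ≠ 0 := by exact_mod_cast hm
  have e : m • (x / m) = x := by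
    rw [zsmul_eq_mul]
    field_simp
  have h1 : ψ x = (ψ ^ m) (x / m) := by
    rw [AddChar.zpow_apply, ← AddChar.map_zsmul_eq_zpow, e]
  rw [h1, h]
  simp

/-- a relation with a large power -/
private theorem e11_bad {χ T : Ch} (hχ : χ ≠ 1) {j : ℤ} (hj : j ≠ 0) :
    ∀ᶠ p : ℕ in Filter.atTop, T ^ p * χ ^ j ≠ 1 := by
  by_cases h : ∃ q : ℕ, T ^ q * χ ^ j = 1
  · obtain ⟨q, hq⟩ := h
    filter_upwards [Filter.eventually_gt_atTop q] with p hp hpe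
    have h1 : T ^ p = T ^ q := mul_right_cancel (hpe.trans hq.symm)
    have h2 : T ^ ((p : ℤ) - q) = 1 := by
      rw [zpow_sub, zpow_natCast, zpow_natCast, h1, mul_inv_cancel]
    have h3 : T = 1 := torsion_free (by omega) h2
    rw [h3, one_pow, one_mul] at hpe
    exact hχ (torsion_free hj hpe)
  · exact Filter.Eventually.of_forall fun p hp => h ⟨p, hp⟩

/-- the coefficient of the Fejér kernel -/
private def e11w (M : ℕ) (j : ℤ) : ℂ := ((1 - |(j : ℝ)| / M : ℝ) : ℂ)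

open Classical in
private theorem e11_K (Λ : Finset Ch) {M : ℕ} (hM : 0 < M) {p : ℕ} (hp : 0 < p) (x : ℚ) :
    (Kf (Λ.image fun χ => χ ^ p) M x : ℂ) =
      ∑ n ∈ Fintype.piFinset (fun _ : {χ // χ ∈ Λ} => Ioo (-(M : ℤ)) M),
        (∏ i, e11w M (n i)) * (((∏ i, i.1 ^ (n i) : Ch) ^ p) x : ℂ) := by
  have hinj : Function.Injective (fun χ : Ch => χ ^ p) := by
    intro χ χ' h
    have h1 : (χ * χ'⁻¹) ^ (p : ℤ) = 1 := by
      rw [zpow_natCast, mul_pow, inv_pow]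
      simp only at h
      rw [h, mul_inv_cancel]
    have h2 := torsion_free (by omega : (p : ℤ) ≠ 0) h1
    exact mul_inv_eq_one.1 h2
  unfold Kf
  rw [Finset.prod_image fun χ _ χ' _ h => hinj h, Complex.ofReal_prod, ← Finset.prod_coe_sort Λ]
  have e1 : ∀ i : {χ // χ ∈ Λ}, ((FJ M ((i.1 ^ p : Ch) x : ℂ) : ℝ) : ℂ) =
      ∑ j ∈ Ioo (-(M : ℤ)) M, e11w M j * ((((i.1 ^ j : Ch) ^ p : Ch) x : Circle) : ℂ) := by
    intro i
    rw [FJ_expand hM]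
    refine sum_congr rfl fun j _ => ?_
    unfold e11w
    have e : ((i.1 ^ p : Ch) ^ j : Ch) = (i.1 ^ j : Ch) ^ p := by
      rw [← zpow_natCast, ← zpow_natCast, ← zpow_mul, ← zpow_mul, mul_comm]
    rw [e]
  rw [Finset.prod_congr rfl fun i _ => e1 i, Finset.prod_univ_sum]
  refine sum_congr rfl fun n _ => ?_
  rw [Finset.prod_mul_distrib]
  congr 1
  have e2 : (((∏ i : {χ // χ ∈ Λ}, i.1 ^ (n i) : Ch) ^ p : Ch) x : Circle) =
      ∏ i : {χ // χ ∈ Λ}, ((i.1 ^ (n i) : Ch) ^ p : Ch) x := by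
    rw [← Finset.prod_pow, AddChar.prod_apply]
  rw [e2]
  exact (map_prod Circle.coeHom (fun i : {χ // χ ∈ Λ} => ((i.1 ^ (n i) : Ch) ^ p : Ch) x) univ).symm

open Classical in
private theorem e11_eq {L : (ℚ → ℝ) → ℝ} (hL : IM L) (Λ : Finset Ch) (hΛ : ∀ χ ∈ Λ, χ ≠ 1) {R M : ℕ}
    (hR : 0 < R) (hM : 0 < M) : ∀ᶠ p : ℕ in Filter.atTop, ∀ χ ∈ Λ,
      L (fun x => Kf (Λ.image fun χ => χ ^ p) M x * FJ R (χ x : ℂ)) =
        L (Kf (Λ.image fun χ => χ ^ p) M) := by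
  obtain ⟨T, hT⟩ : ∃ T : ({χ // χ ∈ Λ} → ℤ) → Ch, T = fun n => ∏ i, i.1 ^ (n i) := ⟨_, rfl⟩
  have hbad : ∀ᶠ p : ℕ in Filter.atTop, ∀ χ ∈ Λ, ∀ j ∈ (Ioo (-(R : ℤ)) R).filter (· ≠ 0),
      ∀ n ∈ Fintype.piFinset (fun _ : {χ // χ ∈ Λ} => Ioo (-(M : ℤ)) M), T n ^ p * χ ^ j ≠ 1 := by
    rw [Filter.eventually_all_finset]
    intro χ hχ
    rw [Filter.eventually_all_finset]
    intro j hj
    rw [Filter.eventually_all_finset]
    intro n _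
    exact e11_bad (hΛ χ hχ) (Finset.mem_filter.1 hj).2
  filter_upwards [hbad, Filter.eventually_gt_atTop 0] with p hp hp0 χ hχ
  have h0R : (0 : ℤ) ∈ Ioo (-(R : ℤ)) R := by
    rw [Finset.mem_Ioo]
    omega
  have h1 : ((L (fun x => Kf (Λ.image fun χ => χ ^ p) M x * FJ R (χ x : ℂ)) : ℝ) : ℂ) =
      ((L (Kf (Λ.image fun χ => χ ^ p) M) : ℝ) : ℂ) := by
    rw [← Lc_ofReal hL.toPF, ← Lc_ofReal hL.toPF]
    have e2 : (fun x => ((Kf (Λ.image fun χ => χ ^ p) M x : ℝ) : ℂ)) = fun x =>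
        ∑ n ∈ Fintype.piFinset (fun _ : {χ // χ ∈ Λ} => Ioo (-(M : ℤ)) M),
        (∏ i, e11w M (n i)) * (((T n ^ p : Ch) x : Circle) : ℂ) := by
      funext x
      rw [e11_K Λ hM hp0 x, hT]
    have e1 : (fun x => ((Kf (Λ.image fun χ => χ ^ p) M x * FJ R (χ x : ℂ) : ℝ) : ℂ)) = fun x =>
        ∑ n ∈ Fintype.piFinset (fun _ : {χ // χ ∈ Λ} => Ioo (-(M : ℤ)) M),
        ∑ j ∈ Ioo (-(R : ℤ)) R, ((∏ i, e11w M (n i)) * e11w R j) *
          (((T n ^ p * χ ^ j : Ch) x : Circle) : ℂ) := by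
      funext x
      have e3 := congrFun e2 x
      rw [Complex.ofReal_mul, e3, FJ_expand hR, Finset.sum_mul_sum]
      refine sum_congr rfl fun n _ => sum_congr rfl fun j _ => ?_
      rw [AddChar.mul_apply, Circle.coe_mul]
      unfold e11w
      ring
    rw [e1, e2, Lc_sum hL.toPF _ fun n _ => Bdc.sum _ fun j _ => (Bdc.const _).mul (Bdc.char _),
      Lc_sum hL.toPF _ fun n _ => (Bdc.const _).mul (Bdc.char _)]
    refine sum_congr rfl fun n hn => ?_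
    rw [Lc_sum hL.toPF _ fun j _ => (Bdc.const _).mul (Bdc.char _), Finset.sum_eq_single (0 : ℤ)]
    · have e4 : e11w R 0 = 1 := by
        unfold e11w
        simp
      rw [e4, mul_one, zpow_zero, mul_one]
    · intro j hj hj0
      rw [Lc_smul hL.toPF _ (Bdc.char _), Lc_char_ne hL (hp χ hχ j (Finset.mem_filter.2 ⟨hj, hj0⟩) n hn),
        mul_zero]
    · intro h
      exact absurd h0R h
  exact_mod_cast h1

theorem lemmaT {L : (ℚ → ℝ) → ℝ} (hL : IM L) (Λ : Finset Ch) (hΛ : ∀ χ ∈ Λ, χ ≠ 1) : ∃ c : ℝ, 0 < c ∧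
    ∀ ρ : ℝ, 0 < ρ → ∃ p₀ : ℕ, ∀ p : ℕ, p.Prime → p₀ ≤ p → ∃ t : ℚ, ∀ χ ∈ Λ,
      ‖(χ (p * t) : ℂ) - 1‖ ≤ ρ ∧ c ≤ ‖(χ t : ℂ) - 1‖ := by
  classical
  obtain ⟨R, hR⟩ : ∃ R : ℕ, R = 8 * Λ.card + 1 := ⟨_, rfl⟩
  have hR0 : 0 < R := by omega
  have hR1 : (0 : ℝ) < R := by exact_mod_cast hR0
  refine ⟨1 / (2 * R), by positivity, fun ρ hρ => ?_⟩
  obtain ⟨M, hM⟩ : ∃ M : ℕ, M = ⌈(16 * (Λ.card : ℝ) + 1) / ρ ^ 2⌉₊ := ⟨_, rfl⟩
  have hM1 : (16 * (Λ.card : ℝ) + 1) / ρ ^ 2 ≤ M := by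
    rw [hM]
    exact Nat.le_ceil _
  have hM2 : (0 : ℝ) < M := lt_of_lt_of_le (by positivity) hM1
  have hM0 : 0 < M := by exact_mod_cast hM2
  obtain ⟨p₀, hp₀⟩ := Filter.eventually_atTop.1 (e11_eq hL Λ hΛ (M := M) hR0 hM0)
  refine ⟨p₀, fun p _ hpp => ?_⟩
  have hFJ := hp₀ p hpp
  obtain ⟨K, hK⟩ : ∃ K : ℚ → ℝ, K = Kf (Λ.image fun χ => χ ^ p) M := ⟨_, rfl⟩
  rw [← hK] at hFJ
  have hKb : Bdf K := by
    rw [hK]
    exact (Kf_NN _ hM0).bdf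
  have hK0 : ∀ x, 0 ≤ K x := fun x => by
    rw [hK]
    exact Kf_nonneg _ _ _
  have hK1 : 1 ≤ L K := by
    rw [hK]
    exact Kf_ge_one hL _ hM0
  have hKc : ∀ χ ∈ Λ, L (fun x => K x * (1 - ((χ ^ p : Ch) x : ℂ).re)) ≤ 2 / M * L K := by
    intro χ hχ
    rw [hK]
    exact Kf_conc hL _ hM0 (Finset.mem_image_of_mem _ hχ)
  have hFb : ∀ χ : Ch, Bdf (fun x => FJ R (χ x : ℂ)) := fun χ => (NN.FJ hR0 χ).bdf
  have hRb : ∀ χ : Ch, Bdf (fun x => 1 - (χ x : ℂ).re) := fun χ => (Bdf.const 1).sub (Bdc.char χ).re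
  by_contra hcon
  push Not at hcon
  have hneg : ∀ x, K x * (1 - (∑ χ ∈ Λ, 2 / R * FJ R (χ x : ℂ) +
      ∑ χ ∈ Λ, 2 / ρ ^ 2 * (1 - ((χ ^ p : Ch) x : ℂ).re))) ≤ 0 := by
    intro x
    refine mul_nonpos_of_nonneg_of_nonpos (hK0 x) ?_
    obtain ⟨χ, hχ, hx⟩ := hcon x
    have hn1 : ∀ χ ∈ Λ, 0 ≤ 2 / R * FJ R (χ x : ℂ) := fun χ _ =>
      mul_nonneg (by positivity) (FJ_nonneg _ _)
    have hre : ∀ ψ : Ch, (ψ x : ℂ).re ≤ 1 := fun ψ =>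
      (Complex.re_le_norm _).trans (Circle.norm_coe _).le
    have hn2 : ∀ χ ∈ Λ, 0 ≤ 2 / ρ ^ 2 * (1 - ((χ ^ p : Ch) x : ℂ).re) := fun χ _ =>
      mul_nonneg (by positivity) (sub_nonneg.2 (hre _))
    have hs1 : 2 / R * FJ R (χ x : ℂ) ≤ ∑ χ ∈ Λ, 2 / R * FJ R (χ x : ℂ) :=
      Finset.single_le_sum hn1 hχ
    have hs2 : 2 / ρ ^ 2 * (1 - ((χ ^ p : Ch) x : ℂ).re) ≤
        ∑ χ ∈ Λ, 2 / ρ ^ 2 * (1 - ((χ ^ p : Ch) x : ℂ).re) :=
      Finset.single_le_sum hn2 hχ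
    have ht1 := Finset.sum_nonneg hn1
    have ht2 := Finset.sum_nonneg hn2
    by_cases hc : ‖(χ (p * x) : ℂ) - 1‖ ≤ ρ
    · have h3 := hx hc
      have h4 := FJ_large hR0 (Circle.norm_coe (χ x)) h3.le
      have h5 : (1 : ℝ) ≤ 2 / R * FJ R (χ x : ℂ) := by
        have : 2 / (R : ℝ) * (R / 2) ≤ 2 / R * FJ R (χ x : ℂ) :=
          mul_le_mul_of_nonneg_left h4 (by positivity)
        have e : 2 / (R : ℝ) * (R / 2) = 1 := by field_simp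
        linarith
      linarith
    · push Not at hc
      have e1 : (χ (p * x) : ℂ) = ((χ ^ p : Ch) x : ℂ) := by
        rw [AddChar.pow_apply, ← AddChar.map_nsmul_eq_pow, nsmul_eq_mul]
      rw [e1] at hc
      obtain ⟨z, hz⟩ : ∃ z : ℂ, z = ((χ ^ p : Ch) x : ℂ) := ⟨_, rfl⟩
      have hz1 : ‖z‖ = 1 := by
        rw [hz]
        exact Circle.norm_coe _
      have h3 : ‖z - 1‖ ^ 2 = 2 * (1 - z.re) := by
        rw [← Complex.normSq_eq_norm_sq]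
        have h4 : Complex.normSq z = 1 := by
          rw [Complex.normSq_eq_norm_sq, hz1, one_pow]
        rw [Complex.normSq_apply] at h4 ⊢
        rw [Complex.sub_re, Complex.sub_im, Complex.one_re, Complex.one_im]
        linarith
      rw [← hz] at hc hs2
      have h5 : ρ ^ 2 ≤ 2 * (1 - z.re) := by
        rw [← h3]
        exact pow_le_pow_left₀ hρ.le hc.le 2
      have h6 : 1 ≤ 2 / ρ ^ 2 * (1 - z.re) := by
        have h7 : 2 / ρ ^ 2 * (1 - z.re) = (2 * (1 - z.re)) / ρ ^ 2 := by ring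
        rw [h7, le_div_iff₀ (by positivity)]
        linarith
      linarith
  have hb1 : Bdf (fun x => ∑ χ ∈ Λ, 2 / R * (K x * FJ R (χ x : ℂ))) :=
    Bdf.sum _ fun χ _ => (Bdf.const _).mul (hKb.mul (hFb χ))
  have hb2 : Bdf (fun x => ∑ χ ∈ Λ, 2 / ρ ^ 2 * (K x * (1 - ((χ ^ p : Ch) x : ℂ).re))) :=
    Bdf.sum _ fun χ _ => (Bdf.const _).mul (hKb.mul (hRb _))
  have hexp : (fun x => K x * (1 - (∑ χ ∈ Λ, 2 / R * FJ R (χ x : ℂ) +
      ∑ χ ∈ Λ, 2 / ρ ^ 2 * (1 - ((χ ^ p : Ch) x : ℂ).re)))) =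
      fun x => K x - (∑ χ ∈ Λ, 2 / R * (K x * FJ R (χ x : ℂ)) +
        ∑ χ ∈ Λ, 2 / ρ ^ 2 * (K x * (1 - ((χ ^ p : Ch) x : ℂ).re))) := by
    funext x
    rw [mul_sub, mul_one, mul_add, Finset.mul_sum, Finset.mul_sum]
    congr 2
    · exact sum_congr rfl fun χ _ => by ring
    · exact sum_congr rfl fun χ _ => by ring
  have hle : L (fun x => K x - (∑ χ ∈ Λ, 2 / R * (K x * FJ R (χ x : ℂ)) +
        ∑ χ ∈ Λ, 2 / ρ ^ 2 * (K x * (1 - ((χ ^ p : Ch) x : ℂ).re)))) ≤ 0 := by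
    rw [← hexp]
    have hb : Bdf (fun x => K x * (1 - (∑ χ ∈ Λ, 2 / R * FJ R (χ x : ℂ) +
      ∑ χ ∈ Λ, 2 / ρ ^ 2 * (1 - ((χ ^ p : Ch) x : ℂ).re)))) := by
      rw [hexp]
      exact hKb.sub (hb1.add hb2)
    have h1 := hL.toPF.mono hb (Bdf.const 0) hneg
    rwa [hL.toPF.zero] at h1
  rw [hL.toPF.sub hKb (hb1.add hb2), hL.add _ _ hb1 hb2,
    hL.toPF.sum _ fun χ _ => (Bdf.const _).mul (hKb.mul (hFb χ)),
    hL.toPF.sum _ fun χ _ => (Bdf.const _).mul (hKb.mul (hRb _))] at hle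
  have hu1 : ∑ χ ∈ Λ, L (fun x => 2 / R * (K x * FJ R (χ x : ℂ))) ≤ Λ.card • (2 / R * L K) := by
    refine Finset.sum_le_card_nsmul _ _ _ fun χ hχ => ?_
    rw [hL.smul _ _ (hKb.mul (hFb χ)), hFJ χ hχ]
  have hu2 : ∑ χ ∈ Λ, L (fun x => 2 / ρ ^ 2 * (K x * (1 - ((χ ^ p : Ch) x : ℂ).re))) ≤
      Λ.card • (2 / ρ ^ 2 * (2 / M * L K)) := by
    refine Finset.sum_le_card_nsmul _ _ _ fun χ hχ => ?_
    rw [hL.smul _ _ (hKb.mul (hRb _))]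
    exact mul_le_mul_of_nonneg_left (hKc χ hχ) (by positivity)
  rw [nsmul_eq_mul] at hu1 hu2
  have hc0 : (0 : ℝ) ≤ Λ.card := Nat.cast_nonneg _
  have hv1 : (Λ.card : ℝ) * (2 / R) ≤ 1 / 4 := by
    have hRe : (R : ℝ) = 8 * Λ.card + 1 := by
      rw [hR]
      push_cast
      ring
    rw [← mul_div_assoc, div_le_iff₀ hR1, hRe]
    linarith
  have hv2 : (Λ.card : ℝ) * (2 / ρ ^ 2 * (2 / M)) ≤ 1 / 4 := by
    rw [div_le_iff₀ (by positivity)] at hM1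
    have e : (Λ.card : ℝ) * (2 / ρ ^ 2 * (2 / M)) = 4 * Λ.card / (M * ρ ^ 2) := by
      field_simp
      ring
    rw [e, div_le_iff₀ (by positivity)]
    linarith
  have hw1 : (Λ.card : ℝ) * (2 / R * L K) ≤ 1 / 4 * L K := by
    rw [← mul_assoc]
    exact mul_le_mul_of_nonneg_right hv1 (by linarith)
  have hw2 : (Λ.card : ℝ) * (2 / ρ ^ 2 * (2 / M * L K)) ≤ 1 / 4 * L K := by
    have e : (Λ.card : ℝ) * (2 / ρ ^ 2 * (2 / M * L K)) =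
        (Λ.card : ℝ) * (2 / ρ ^ 2 * (2 / M)) * L K := by ring
    rw [e]
    exact mul_le_mul_of_nonneg_right hv2 (by linarith)
  linarith

theorem good_step {L : (ℚ → ℝ) → ℝ} (hL : IM L) {Q : ℚ → ℝ} (hQ : TPr Q) (η : ℝ) (hη : 0 < η) : ∃ p₀ : ℕ,
    ∀ p : ℕ, p.Prime → p₀ ≤ p → ∃ t : ℚ, (∀ y, |Q (y + p * t) - Q y| ≤ η) ∧
      ∀ y, |(∑ r ∈ range p, Q (y + r * t)) / p - L Q| ≤ η := by
  classical
  obtain ⟨s, c, hQ⟩ := hQ
  obtain ⟨c₀, hc₀, hT⟩ := lemmaT hL (s.erase 1) fun χ hχ => (Finset.mem_erase.1 hχ).1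
  obtain ⟨C, hC⟩ : ∃ C : ℝ, C = ∑ ψ ∈ s, ‖c ψ‖ + 1 := ⟨_, rfl⟩
  have hs0 : 0 ≤ ∑ ψ ∈ s, ‖c ψ‖ := sum_nonneg fun ψ _ => norm_nonneg _
  have hC0 : 0 < C := by
    rw [hC]
    linarith
  obtain ⟨p₁, hp₁⟩ := hT (η / C) (div_pos hη hC0)
  obtain ⟨p₂, hp₂⟩ := exists_nat_ge (2 / (c₀ * (η / C)))
  have hsum : ∑ ψ ∈ s, ‖c ψ‖ * (η / C) ≤ η := by
    rw [← Finset.sum_mul]
    have h1 : ∑ ψ ∈ s, ‖c ψ‖ ≤ C := by
      rw [hC]
      linarith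
    calc (∑ ψ ∈ s, ‖c ψ‖) * (η / C) ≤ C * (η / C) :=
          mul_le_mul_of_nonneg_right h1 (div_pos hη hC0).le
      _ = η := by field_simp
  refine ⟨max p₁ p₂, fun p hp hpp => ?_⟩
  obtain ⟨t, ht⟩ := hp₁ p hp ((le_max_left _ _).trans hpp)
  have hp0 : (0 : ℝ) < p := by exact_mod_cast hp.pos
  have hp2 : 2 / (c₀ * (η / C)) ≤ p :=
    hp₂.trans (by exact_mod_cast (le_max_right p₁ p₂).trans hpp)
  have hQf : (fun x => (Q x : ℂ)) = fun x => ∑ ψ ∈ s, c ψ * (ψ x : ℂ) := funext hQ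
  have hLQ : ((L Q : ℝ) : ℂ) = ∑ ψ ∈ s, c ψ * Lc L (fun x => (ψ x : ℂ)) := by
    rw [← Lc_ofReal hL.toPF, hQf, Lc_sum hL.toPF _ fun ψ _ => (Bdc.const _).mul (Bdc.char _)]
    exact sum_congr rfl fun ψ _ => Lc_smul hL.toPF _ (Bdc.char _)
  refine ⟨t, fun y => ?_, fun y => ?_⟩
  · have e1 : ((Q (y + p * t) - Q y : ℝ) : ℂ) = ∑ ψ ∈ s, c ψ * ((ψ y : ℂ) * ((ψ (p * t) : ℂ) - 1)) := by
      push_cast
      rw [hQ, hQ, ← Finset.sum_sub_distrib]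
      refine sum_congr rfl fun ψ _ => ?_
      rw [AddChar.map_add_eq_mul]
      push_cast
      ring
    have e2 : |Q (y + p * t) - Q y| = ‖((Q (y + p * t) - Q y : ℝ) : ℂ)‖ := by
      rw [Complex.norm_real, Real.norm_eq_abs]
    rw [e2, e1]
    refine (norm_sum_le _ _).trans ((sum_le_sum fun ψ hψ => ?_).trans hsum)
    rw [norm_mul, norm_mul, Circle.norm_coe, one_mul]
    refine mul_le_mul_of_nonneg_left ?_ (norm_nonneg _)
    by_cases h1 : ψ = 1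
    · rw [h1, AddChar.one_apply]
      simp only [Circle.coe_one, sub_self, norm_zero]
      exact (div_pos hη hC0).le
    · exact (ht ψ (Finset.mem_erase.2 ⟨h1, hψ⟩)).1
  · have e1 : (((∑ r ∈ range p, Q (y + r * t)) / p - L Q : ℝ) : ℂ) =
        ∑ ψ ∈ s, c ψ * ((ψ y : ℂ) * ((∑ r ∈ range p, (ψ t : ℂ) ^ r) / p) - Lc L (fun x => (ψ x : ℂ))) := by
      push_cast
      rw [hLQ]
      have e3 : ∑ r ∈ range p, (Q (y + r * t) : ℂ) =
          ∑ ψ ∈ s, c ψ * ((ψ y : ℂ) * ∑ r ∈ range p, (ψ t : ℂ) ^ r) := by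
        rw [Finset.sum_congr rfl fun (r : ℕ) _ => hQ (y + (r : ℚ) * t), Finset.sum_comm]
        refine sum_congr rfl fun ψ _ => ?_
        rw [← Finset.mul_sum]
        congr 1
        rw [Finset.mul_sum]
        refine sum_congr rfl fun r _ => ?_
        rw [AddChar.map_add_eq_mul, ← nsmul_eq_mul, AddChar.map_nsmul_eq_pow]
        push_cast
        ring
      rw [e3, Finset.sum_div, ← Finset.sum_sub_distrib]
      refine sum_congr rfl fun ψ _ => ?_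
      ring
    have e2 : |(∑ r ∈ range p, Q (y + r * t)) / p - L Q| =
        ‖(((∑ r ∈ range p, Q (y + r * t)) / p - L Q : ℝ) : ℂ)‖ := by
      rw [Complex.norm_real, Real.norm_eq_abs]
    rw [e2, e1]
    refine (norm_sum_le _ _).trans ((sum_le_sum fun ψ hψ => ?_).trans hsum)
    rw [norm_mul]
    refine mul_le_mul_of_nonneg_left ?_ (norm_nonneg _)
    by_cases h1 : ψ = 1
    · rw [h1]
      have e4 : Lc L (fun x => (((1 : Ch) x : Circle) : ℂ)) = 1 := by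
        have : (fun x : ℚ => (((1 : Ch) x : Circle) : ℂ)) = fun _ => 1 := by
          funext x
          rw [AddChar.one_apply, Circle.coe_one]
        rw [this]
        exact Lc_one hL
      rw [e4, AddChar.one_apply, AddChar.one_apply, Circle.coe_one]
      have hpc : (p : ℂ) ≠ 0 := by exact_mod_cast hp.pos.ne'
      simp only [one_pow, sum_const, card_range, nsmul_eq_mul, mul_one]
      rw [div_self hpc, mul_one, sub_self, norm_zero]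
      exact (div_pos hη hC0).le
    · rw [Lc_char_ne hL h1, sub_zero, norm_mul, Circle.norm_coe, one_mul]
      have h2 := (ht ψ (Finset.mem_erase.2 ⟨h1, hψ⟩)).2
      have h3 : (ψ t : ℂ) - 1 ≠ 0 := by
        intro h
        rw [h, norm_zero] at h2
        linarith
      have h4 : (ψ t : ℂ) ≠ 1 := fun h => h3 (by rw [h, sub_self])
      rw [geom_sum_eq h4, norm_div, norm_div]
      have h5 : ‖(ψ t : ℂ) ^ p - 1‖ ≤ 2 := by
        refine (norm_sub_le _ _).trans ?_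
        rw [norm_pow, Circle.norm_coe, one_pow, norm_one]
        norm_num
      have h6 : ‖(ψ t : ℂ) ^ p - 1‖ / ‖(ψ t : ℂ) - 1‖ ≤ 2 / c₀ := by
        gcongr
      have h7 : ‖(p : ℂ)‖ = p := by simp
      rw [h7, div_le_iff₀ hp0]
      have h8 : 0 < η / C := div_pos hη hC0
      rw [div_le_iff₀ (by positivity)] at hp2
      have h9 : 2 / c₀ ≤ η / C * p := by
        rw [div_le_iff₀ hc₀]
        linarith
      exact h6.trans h9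

end PGL
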