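import Pool.Agent.PGL.E1

/-! PGL / E12: finitely supported approximations of a mean.

PROOFS. `approx`: the vector `(L g_i)_i` lies in the closed convex hull of the points `(g_i x)_i`, `x ∈ ℚ`, in `Fin n → ℝ`:
otherwise a linear functional `∑ a_i v_i` separates (`geometric_hahn_banach_point_closed` or similar), i.e.
`∑ a_i g_i(x) ≤ s < ∑ a_i L g_i` for all `x`, against `PF.mono` and linearity. So some point of the convex hull
(finite convex combination, `mem_convexHull_iff_exists_fintype` or `Finset.mem_convexHull`...) is within `η`.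
`approx_box`: apply `approx` to the functions `x ↦ (1/H) ∑_{i<H} g_j(x + i/d)` (same mean, invariance) to get `ν`; let `μ`
be the distribution of `n + i/d`, `n` with law `ν`, `i < H` uniform: `μ.1 = image`, `μ.2 x = ∑_{(n,i) : n + i/d = x} ν(n)/H`.
Then `∑_x μ(x) b(x) f(y - x + c) = ∑_n ν(n) (1/H) ∑_i b(n + i/d) f(y - n - i/d + c)`; by Jensen the square is at most
`∑_n ν(n) ((1/H) ∑_i b(n + i/d) f(y - n + c - i/d))²`; apply `L`, invariance (shift by `c - n`) and `hbox`. -/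

set_option autoImplicit false

open Finset

noncomputable section

namespace PGL

/-- finitely supported probability weights on `ℚ` -/
def IsW (μ : Finset ℚ × (ℚ → ℝ)) : Prop := (∀ x ∈ μ.1, 0 ≤ μ.2 x) ∧ ∑ x ∈ μ.1, μ.2 x = 1

/-- expectation -/
def EW (μ : Finset ℚ × (ℚ → ℝ)) (g : ℚ → ℝ) : ℝ := ∑ x ∈ μ.1, μ.2 x * g x

/-- push forward of a weight -/
private def psh {ι : Type*} (t : Finset ι) (w : ι → ℝ) (q : ι → ℚ) : Finset ℚ × (ℚ → ℝ) :=
  (t.image q, fun x => ∑ i ∈ t with q i = x, w i)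

private theorem EW_psh {ι : Type*} (t : Finset ι) (w : ι → ℝ) (q : ι → ℚ) (g : ℚ → ℝ) :
    EW (psh t w q) g = ∑ i ∈ t, w i * g (q i) := by
  unfold EW psh
  rw [← Finset.sum_fiberwise_of_maps_to (s := t) (t := t.image q) (g := q)
    (fun i hi => Finset.mem_image_of_mem q hi)]
  refine Finset.sum_congr rfl fun x _ => ?_
  rw [Finset.sum_mul]
  refine Finset.sum_congr rfl fun i hi => ?_
  rw [(Finset.mem_filter.1 hi).2]

private theorem isW_psh {ι : Type*} {t : Finset ι} {w : ι → ℝ} (q : ι → ℚ) (h0 : ∀ i ∈ t, 0 ≤ w i)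
    (h1 : ∑ i ∈ t, w i = 1) : IsW (psh t w q) := by
  refine ⟨fun x _ => Finset.sum_nonneg fun i hi => h0 i (Finset.mem_filter.1 hi).1, ?_⟩
  have h2 := EW_psh t w q (fun _ => 1)
  simp only [EW, mul_one] at h2
  rw [h2, h1]

theorem approx {L : (ℚ → ℝ) → ℝ} (hL : IM L) {n : ℕ} (g : Fin n → ℚ → ℝ) (hg : ∀ i, Bdf (g i)) (η : ℝ) (hη : 0 < η) :
    ∃ μ, IsW μ ∧ ∀ i, |EW μ (g i) - L (g i)| ≤ η := by
  classical
  set G : ℚ → Fin n → ℝ := fun x i => g i x with hG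
  set v : Fin n → ℝ := fun i => L (g i) with hv
  have hcl : v ∈ closure (convexHull ℝ (Set.range G)) := by
    by_contra hne
    obtain ⟨φ, u, h1, h2⟩ := geometric_hahn_banach_point_closed
      (convex_convexHull ℝ (Set.range G)).closure isClosed_closure hne
    have hφ : ∀ w : Fin n → ℝ, φ w = ∑ i, φ (Pi.single i 1) * w i := by
      intro w
      conv_lhs => rw [pi_eq_sum_univ' w]
      rw [map_sum]
      refine Finset.sum_congr rfl fun i _ => ?_
      rw [map_smul, smul_eq_mul, mul_comm]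
    have h3 : ∀ x, u ≤ ∑ i, φ (Pi.single i 1) * g i x := by
      intro x
      have h4 := h2 (G x) (subset_closure (subset_convexHull ℝ _ ⟨x, rfl⟩))
      rw [hφ] at h4
      exact h4.le
    have h5 : L (fun _ => u) ≤ L (fun x => ∑ i, φ (Pi.single i 1) * g i x) :=
      hL.toPF.mono (Bdf.const u) (Bdf.sum _ fun i _ => (Bdf.const _).mul (hg i)) h3
    rw [hL.const, hL.toPF.sum _ fun i _ => (Bdf.const _).mul (hg i)] at h5
    have h6 : ∑ i, L (fun x => φ (Pi.single i 1) * g i x) = φ v := by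
      rw [hφ v]
      exact Finset.sum_congr rfl fun i _ => hL.smul _ _ (hg i)
    linarith
  obtain ⟨w, hw, hd⟩ := Metric.mem_closure_iff.1 hcl η hη
  rw [_root_.convexHull_eq] at hw
  obtain ⟨ι, t, wt, z, h0, h1, hz, hc⟩ := hw
  choose! q hq using hz
  rw [Finset.centerMass_eq_of_sum_1 _ _ h1] at hc
  refine ⟨psh t wt q, isW_psh q h0 h1, fun i => ?_⟩
  rw [EW_psh]
  have h2 : ∑ k ∈ t, wt k * g i (q k) = w i := by
    rw [← hc, Finset.sum_apply]
    refine Finset.sum_congr rfl fun k hk => ?_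
    rw [Pi.smul_apply, smul_eq_mul, ← hq k hk]
  rw [h2, abs_sub_comm]
  have h3 := dist_le_pi_dist v w i
  rw [Real.dist_eq] at h3
  exact h3.trans hd.le

private theorem Bdf.sub_shift {f : ℚ → ℝ} (hf : Bdf f) (v : ℚ) : Bdf (fun x => f (x - v)) := by
  obtain ⟨C, hC⟩ := hf
  exact ⟨C, fun x => hC _⟩

theorem approx_box {L : (ℚ → ℝ) → ℝ} (hL : IM L) {f : ℚ → ℝ} (hf : Bdf f) {d H : ℕ} (hd : 0 < d) (hH : 0 < H) {η₃ : ℝ}
    (hbox : ∀ b : ℕ → ℝ, (∀ i, |b i| ≤ 1) → L (fun x => ((∑ i ∈ range H, b i * f (x - i / d)) / H) ^ 2) ≤ η₃)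
    {n : ℕ} (g : Fin n → ℚ → ℝ) (hg : ∀ i, Bdf (g i)) (η : ℝ) (hη : 0 < η) :
    ∃ μ, IsW μ ∧ (∀ i, |EW μ (g i) - L (g i)| ≤ η) ∧
      ∀ (c : ℚ) (b : ℚ → ℝ), (∀ x, |b x| ≤ 1) →
        L (fun y => (∑ x ∈ μ.1, μ.2 x * b x * f (y - x + c)) ^ 2) ≤ η₃ := by
  have hH0 : (H : ℝ) ≠ 0 := by exact_mod_cast hH.ne'
  set g' : Fin n → ℚ → ℝ := fun j x => (1 / (H : ℝ)) * ∑ i ∈ range H, g j (x + (i : ℚ) / d) with hg'
  have hsum : ∀ j, Bdf (fun x => ∑ i ∈ range H, g j (x + (i : ℚ) / d)) := fun j =>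
    Bdf.sum _ fun i _ => (hg j).shift _
  have hb' : ∀ j, Bdf (g' j) := fun j => (Bdf.const _).mul (hsum j)
  have hLg : ∀ j, L (g' j) = L (g j) := by
    intro j
    have e1 : L (g' j) = (1 / (H : ℝ)) * L (fun x => ∑ i ∈ range H, g j (x + (i : ℚ) / d)) :=
      hL.smul _ _ (hsum j)
    rw [e1, hL.toPF.sum _ fun i _ => (hg j).shift _]
    have e2 : ∀ i ∈ range H, L (fun x => g j (x + (i : ℚ) / d)) = L (g j) := fun i _ =>
      hL.inv _ _ (hg j)
    rw [Finset.sum_congr rfl e2, Finset.sum_const, card_range, nsmul_eq_mul]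
    field_simp
  obtain ⟨ν, hν, hνa⟩ := approx hL g' hb' η hη
  set μ := psh (ν.1 ×ˢ range H) (fun z : ℚ × ℕ => ν.2 z.1 / H)
    (fun z : ℚ × ℕ => z.1 + (z.2 : ℚ) / d) with hμ
  have hEW : ∀ h : ℚ → ℝ, EW μ h = ∑ m ∈ ν.1, ν.2 m * ((∑ i ∈ range H, h (m + (i : ℚ) / d)) / H) := by
    intro h
    rw [hμ, EW_psh, Finset.sum_product]
    refine Finset.sum_congr rfl fun m _ => ?_
    rw [Finset.sum_div, Finset.mul_sum]
    refine Finset.sum_congr rfl fun i _ => ?_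
    show ν.2 m / H * h (m + (i : ℚ) / d) = ν.2 m * (h (m + (i : ℚ) / d) / H)
    ring
  refine ⟨μ, ?_, ?_, ?_⟩
  · refine isW_psh _ (fun z hz => div_nonneg (hν.1 z.1 (Finset.mem_product.1 hz).1)
      (Nat.cast_nonneg _)) ?_
    rw [Finset.sum_product]
    have e1 : ∀ m ∈ ν.1, ∑ _i ∈ range H, ν.2 m / (H : ℝ) = ν.2 m := by
      intro m _
      rw [Finset.sum_const, card_range, nsmul_eq_mul]
      field_simp
    show ∑ m ∈ ν.1, ∑ _i ∈ range H, ν.2 m / (H : ℝ) = 1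
    rw [Finset.sum_congr rfl e1, hν.2]
  · intro j
    have e1 : EW μ (g j) = EW ν (g' j) := by
      rw [hEW]
      refine Finset.sum_congr rfl fun m _ => ?_
      show ν.2 m * ((∑ i ∈ range H, g j (m + (i : ℚ) / d)) / H) =
        ν.2 m * ((1 / (H : ℝ)) * ∑ i ∈ range H, g j (m + (i : ℚ) / d))
      ring
    rw [e1, ← hLg j]
    exact hνa j
  · intro c b hb
    set A : ℚ → ℚ → ℝ := fun m y =>
      (∑ i ∈ range H, b (m + (i : ℚ) / d) * f (y + (c - m) - (i : ℚ) / d)) / H with hA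
    have hAb0 : ∀ m, Bdf (fun x => (∑ i ∈ range H, b (m + (i : ℚ) / d) * f (x - (i : ℚ) / d)) / H) := by
      intro m
      have e1 : Bdf (fun x => (1 / (H : ℝ)) *
          ∑ i ∈ range H, b (m + (i : ℚ) / d) * f (x - (i : ℚ) / d)) :=
        (Bdf.const _).mul (Bdf.sum _ fun i _ => (Bdf.const _).mul (hf.sub_shift _))
      have e2 : (fun x => (∑ i ∈ range H, b (m + (i : ℚ) / d) * f (x - (i : ℚ) / d)) / (H : ℝ)) =
          fun x => (1 / (H : ℝ)) * ∑ i ∈ range H, b (m + (i : ℚ) / d) * f (x - (i : ℚ) / d) := by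
        funext x
        ring
      rw [e2]
      exact e1
    have hAb : ∀ m, Bdf (A m) := fun m => (hAb0 m).shift (c - m)
    have h1 : ∀ y, ∑ x ∈ μ.1, μ.2 x * b x * f (y - x + c) = ∑ m ∈ ν.1, ν.2 m * A m y := by
      intro y
      have e1 := hEW (fun x => b x * f (y - x + c))
      unfold EW at e1
      have e2 : ∑ x ∈ μ.1, μ.2 x * b x * f (y - x + c) =
          ∑ x ∈ μ.1, μ.2 x * (b x * f (y - x + c)) :=
        Finset.sum_congr rfl fun x _ => mul_assoc _ _ _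
      rw [e2, e1]
      refine Finset.sum_congr rfl fun m _ => ?_
      rw [hA]
      congr 2
      refine Finset.sum_congr rfl fun i _ => ?_
      have e3 : y - (m + (i : ℚ) / d) + c = y + (c - m) - (i : ℚ) / d := by ring
      rw [e3]
    have h2 : ∀ y, (∑ x ∈ μ.1, μ.2 x * b x * f (y - x + c)) ^ 2 ≤ ∑ m ∈ ν.1, ν.2 m * A m y ^ 2 := by
      intro y
      rw [h1]
      exact Real.pow_arith_mean_le_arith_mean_pow_of_even _ _ _ hν.1 hν.2 even_two
    have hbl : Bdf (fun y => (∑ x ∈ μ.1, μ.2 x * b x * f (y - x + c)) ^ 2) := by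
      have e1 : (fun y => (∑ x ∈ μ.1, μ.2 x * b x * f (y - x + c)) ^ 2) =
          fun y => (∑ m ∈ ν.1, ν.2 m * A m y) ^ 2 := by
        funext y
        rw [h1]
      rw [e1]
      exact (Bdf.sum _ fun m _ => (Bdf.const _).mul (hAb m)).pow 2
    have hbr : ∀ m ∈ ν.1, Bdf (fun y => ν.2 m * A m y ^ 2) := fun m _ =>
      (Bdf.const _).mul ((hAb m).pow 2)
    have h3 := hL.toPF.mono hbl (Bdf.sum _ hbr) h2
    rw [hL.toPF.sum _ hbr] at h3
    refine h3.trans ?_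
    have h4 : ∀ m ∈ ν.1, L (fun y => ν.2 m * A m y ^ 2) ≤ ν.2 m * η₃ := by
      intro m hm
      rw [hL.smul _ _ ((hAb m).pow 2)]
      refine mul_le_mul_of_nonneg_left ?_ (hν.1 m hm)
      have e1 : L (fun y => A m y ^ 2) = L (fun x =>
          ((∑ i ∈ range H, b (m + (i : ℚ) / d) * f (x - (i : ℚ) / d)) / H) ^ 2) :=
        hL.inv _ (c - m) ((hAb0 m).pow 2)
      rw [e1]
      exact hbox (fun i => b (m + (i : ℚ) / d)) fun i => hb _
    refine (Finset.sum_le_sum h4).trans ?_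
    rw [← Finset.sum_mul, hν.2, one_mul]

end PGL
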