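import Pool.Agent.PGL.E12

/-! PGL / E13: a chain of weights; replacing `u` by `P` in a product over pairs.

PROOFS. `chain`: induction on `k` (the list of the previous elements).
`replace`: enumerate the pairs `i < j`; change the factors one after the other; for one pair `(i, j)` the product of the
other factors is, for fixed `m_l` (`l ≠ i, j`), of the form `b₁(m_i) b₂(m_j)` times a constant of absolute value `≤ 1`
with `|b₁|, |b₂| ≤ 1`: no other factor depends on both. So the difference is at most `η` (sum over the remaining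
coordinates with the product weights, total mass 1; `Fintype.piFinset`, split off the coordinates `i, j`, e.g. by
summing first over `m i`, `m j` with `Function.update`). At most `k²` pairs. -/

set_option autoImplicit false

open Finset

noncomputable section

namespace PGL

theorem chain {α : Type*} (W : α → Prop) (R : α → α → Prop)
    (h : ∀ l : List α, (∀ v ∈ l, W v) → ∃ w, W w ∧ ∀ v ∈ l, R v w) (k : ℕ) :
    ∃ μ : Fin k → α, (∀ i, W (μ i)) ∧ ∀ i j, i < j → R (μ i) (μ j) := by
  induction k with
  | zero => exact ⟨fun i => i.elim0, fun i => i.elim0, fun i => i.elim0⟩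
  | succ k ih =>
    obtain ⟨μ, h1, h2⟩ := ih
    obtain ⟨w, hw, hR⟩ := h (List.ofFn μ) (by
      intro v hv
      rw [List.mem_ofFn] at hv
      obtain ⟨i, rfl⟩ := hv
      exact h1 i)
    refine ⟨Fin.snoc μ w, fun i => ?_, fun i j hij => ?_⟩
    · refine Fin.lastCases ?_ (fun i => ?_) i
      · simpa using hw
      · simpa using h1 i
    · revert hij
      refine Fin.lastCases (fun hij => ?_) (fun j hij => ?_) j
      · have hi : i ≠ Fin.last k := ne_of_lt hij
        obtain ⟨i', rfl⟩ := Fin.exists_castSucc_eq.2 hi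
        rw [Fin.snoc_castSucc, Fin.snoc_last]
        exact hR _ (by rw [List.mem_ofFn]; exact ⟨i', rfl⟩)
      · have hi : i ≠ Fin.last k := ne_of_lt (lt_trans hij (Fin.castSucc_lt_last j))
        obtain ⟨i', rfl⟩ := Fin.exists_castSucc_eq.2 hi
        rw [Fin.snoc_castSucc, Fin.snoc_castSucc]
        exact h2 i' j (by simpa using hij)

/-- expectation over independent coordinates -/
def EM {k : ℕ} (μ : Fin k → Finset ℚ × (ℚ → ℝ)) (F : (Fin k → ℚ) → ℝ) : ℝ :=
  ∑ m ∈ Fintype.piFinset (fun j => (μ j).1), (∏ j, (μ j).2 (m j)) * F m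

/-- the product over the pairs `i < j` -/
def PrP {k : ℕ} (u : ℚ → ℝ) (e : Fin k → Fin k → ℚ) (m : Fin k → ℚ) : ℝ :=
  ∏ q ∈ (univ : Finset (Fin k × Fin k)).filter (fun q => q.1 < q.2), u (m q.2 - m q.1 + e q.1 q.2)

theorem EM_one {k : ℕ} (μ : Fin k → Finset ℚ × (ℚ → ℝ)) (hμ : ∀ j, IsW (μ j)) : EM μ (fun _ => 1) = 1 := by
  unfold EM
  simp only [mul_one]
  rw [← Finset.prod_univ_sum]
  exact Finset.prod_eq_one fun j _ => (hμ j).2

private theorem em_resample {k : ℕ} (μ : Fin k → Finset ℚ × (ℚ → ℝ)) (hμ : ∀ j, IsW (μ j)) (i : Fin k)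
    (F : (Fin k → ℚ) → ℝ) :
    EM μ F = EM μ (fun m => ∑ x ∈ (μ i).1, (μ i).2 x * F (Function.update m i x)) := by
  classical
  have h1 : EM μ F = ∑ q ∈ Fintype.piFinset (fun j => (μ j).1) ×ˢ (μ i).1,
      (∏ j, (μ j).2 (q.1 j)) * (μ i).2 q.2 * F q.1 := by
    rw [Finset.sum_product]
    unfold EM
    refine Finset.sum_congr rfl fun m _ => ?_
    have e1 : ∀ x, (∏ j, (μ j).2 (m j)) * (μ i).2 x * F m = (∏ j, (μ j).2 (m j)) * F m * (μ i).2 x := by
      intro x
      ring
    rw [Finset.sum_congr rfl fun x _ => e1 x, ← Finset.mul_sum, (hμ i).2, mul_one]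
  have h2 : EM μ (fun m => ∑ x ∈ (μ i).1, (μ i).2 x * F (Function.update m i x))
      = ∑ q ∈ Fintype.piFinset (fun j => (μ j).1) ×ˢ (μ i).1,
        (∏ j, (μ j).2 (q.1 j)) * (μ i).2 q.2 * F (Function.update q.1 i q.2) := by
    rw [Finset.sum_product]
    unfold EM
    refine Finset.sum_congr rfl fun m _ => ?_
    rw [Finset.mul_sum]
    refine Finset.sum_congr rfl fun x _ => ?_
    ring
  rw [h1, h2]
  refine Finset.sum_nbij' (fun q => (Function.update q.1 i q.2, q.1 i))
    (fun q => (Function.update q.1 i q.2, q.1 i)) ?_ ?_ ?_ ?_ ?_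
  · intro q hq
    rw [Finset.mem_product, Fintype.mem_piFinset] at hq ⊢
    refine ⟨fun j => ?_, hq.1 i⟩
    by_cases hj : j = i
    · subst hj
      simpa using hq.2
    · simpa [Function.update_of_ne hj] using hq.1 j
  · intro q hq
    rw [Finset.mem_product, Fintype.mem_piFinset] at hq ⊢
    refine ⟨fun j => ?_, hq.1 i⟩
    by_cases hj : j = i
    · subst hj
      simpa using hq.2
    · simpa [Function.update_of_ne hj] using hq.1 j
  · intro q _
    simp
  · intro q _
    simp
  · intro q _
    simp only [Function.update_idem, Function.update_eq_self]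
    have e1 : (∏ j, (μ j).2 (q.1 j)) * (μ i).2 q.2
        = (∏ j, (μ j).2 (Function.update q.1 i q.2 j)) * (μ i).2 (q.1 i) := by
      rw [← Finset.mul_prod_erase univ (fun j => (μ j).2 (q.1 j)) (Finset.mem_univ i),
        ← Finset.mul_prod_erase univ (fun j => (μ j).2 (Function.update q.1 i q.2 j)) (Finset.mem_univ i),
        Function.update_self]
      have e2 : ∏ j ∈ univ.erase i, (μ j).2 (Function.update q.1 i q.2 j)
          = ∏ j ∈ univ.erase i, (μ j).2 (q.1 j) := by
        refine Finset.prod_congr rfl fun j hj => ?_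
        rw [Function.update_of_ne (Finset.ne_of_mem_erase hj)]
      rw [e2]
      ring
    rw [e1]

private theorem em_resample2 {k : ℕ} (μ : Fin k → Finset ℚ × (ℚ → ℝ)) (hμ : ∀ j, IsW (μ j)) (i j : Fin k)
    (F : (Fin k → ℚ) → ℝ) :
    EM μ F = EM μ (fun m => ∑ x ∈ (μ i).1, (μ i).2 x *
      ∑ y ∈ (μ j).1, (μ j).2 y * F (Function.update (Function.update m i x) j y)) := by
  rw [em_resample μ hμ j F, em_resample μ hμ i]

private theorem em_const {k : ℕ} (μ : Fin k → Finset ℚ × (ℚ → ℝ)) (hμ : ∀ j, IsW (μ j)) (c : ℝ) :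
    EM μ (fun _ => c) = c := by
  have h1 := EM_one μ hμ
  unfold EM at h1 ⊢
  simp only [mul_one] at h1
  rw [← Finset.sum_mul, h1, one_mul]

private theorem em_abs {k : ℕ} (μ : Fin k → Finset ℚ × (ℚ → ℝ)) (hμ : ∀ j, IsW (μ j)) (F : (Fin k → ℚ) → ℝ)
    {η : ℝ} (hF : ∀ m, |F m| ≤ η) : |EM μ F| ≤ η := by
  have h1 := em_const μ hμ η
  rw [← h1]
  unfold EM
  refine (Finset.abs_sum_le_sum_abs _ _).trans (Finset.sum_le_sum fun m hm => ?_)
  rw [Fintype.mem_piFinset] at hm
  have h2 : 0 ≤ ∏ j, (μ j).2 (m j) := Finset.prod_nonneg fun j _ => (hμ j).1 _ (hm j)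
  rw [abs_mul, abs_of_nonneg h2]
  exact mul_le_mul_of_nonneg_left (hF m) h2

private theorem em_sub {k : ℕ} (μ : Fin k → Finset ℚ × (ℚ → ℝ)) (F G : (Fin k → ℚ) → ℝ) :
    EM μ F - EM μ G = EM μ (fun m => F m - G m) := by
  unfold EM
  rw [← Finset.sum_sub_distrib]
  refine Finset.sum_congr rfl fun m _ => ?_
  ring

private theorem abs_prod_le {ι : Type*} (S : Finset ι) (f : ι → ℝ) (hf : ∀ q ∈ S, |f q| ≤ 1) :
    |∏ q ∈ S, f q| ≤ 1 := by
  rw [Finset.abs_prod]
  exact Finset.prod_le_one (fun q _ => abs_nonneg _) hf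

/-- the expectation of a function of two coordinates -/
theorem EM_two {k : ℕ} (μ : Fin k → Finset ℚ × (ℚ → ℝ)) (hμ : ∀ j, IsW (μ j)) {i j : Fin k} (hij : i ≠ j)
    (F : ℚ → ℚ → ℝ) : EM μ (fun m => F (m i) (m j)) = ∑ x ∈ (μ i).1, (μ i).2 x * ∑ y ∈ (μ j).1, (μ j).2 y * F x y := by
  rw [em_resample2 μ hμ i j]
  have h1 : ∀ m : Fin k → ℚ, (∑ x ∈ (μ i).1, (μ i).2 x * ∑ y ∈ (μ j).1, (μ j).2 y *
      F (Function.update (Function.update m i x) j y i) (Function.update (Function.update m i x) j y j))
      = ∑ x ∈ (μ i).1, (μ i).2 x * ∑ y ∈ (μ j).1, (μ j).2 y * F x y := by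
    intro m
    refine Finset.sum_congr rfl fun x _ => ?_
    congr 1
    refine Finset.sum_congr rfl fun y _ => ?_
    rw [Function.update_self, Function.update_of_ne hij, Function.update_self]
  simp only [h1]
  exact em_const μ hμ _

theorem replace {k : ℕ} (μ : Fin k → Finset ℚ × (ℚ → ℝ)) (hμ : ∀ j, IsW (μ j)) (u P : ℚ → ℝ)
    (hu : ∀ x, |u x| ≤ 1) (hP : ∀ x, |P x| ≤ 1) (e : Fin k → Fin k → ℚ) (η : ℝ) (hη : 0 ≤ η)
    (hC : ∀ i j : Fin k, i < j → ∀ b₁ b₂ : ℚ → ℝ, (∀ x, |b₁ x| ≤ 1) → (∀ x, |b₂ x| ≤ 1) →
      |∑ x ∈ (μ i).1, (μ i).2 x * ∑ y ∈ (μ j).1, (μ j).2 y * (b₁ x * b₂ y * (u (y - x + e i j) - P (y - x + e i j)))| ≤ η) :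
    |EM μ (PrP u e) - EM μ (PrP P e)| ≤ (k : ℝ) ^ 2 * η := by
  classical
  set S := (univ : Finset (Fin k × Fin k)).filter (fun q => q.1 < q.2) with hS
  have key : ∀ T : Finset (Fin k × Fin k), T ⊆ S →
      |EM μ (fun m => ∏ q ∈ S, (if q ∈ T then u else P) (m q.2 - m q.1 + e q.1 q.2))
        - EM μ (PrP P e)| ≤ T.card * η := by
    intro T
    induction T using Finset.induction_on with
    | empty =>
      intro _
      have e1 : (fun m : Fin k → ℚ => ∏ q ∈ S, (if q ∈ (∅ : Finset (Fin k × Fin k)) then u else P)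
          (m q.2 - m q.1 + e q.1 q.2)) = PrP P e := by
        funext m
        unfold PrP
        refine Finset.prod_congr rfl fun q _ => ?_
        simp
      rw [e1]
      simp
    | insert q0 T hq0 ih =>
      intro hT
      have hT' : T ⊆ S := fun q hq => hT (Finset.mem_insert_of_mem hq)
      have hq0S : q0 ∈ S := hT (Finset.mem_insert_self _ _)
      have ih' := ih hT'
      have hlt : q0.1 < q0.2 := by
        rw [hS, Finset.mem_filter] at hq0S
        exact hq0S.2
      have hw : ∀ (q : Fin k × Fin k) (x : ℚ), |(if q ∈ T then u else P) x| ≤ 1 := by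
        intro q x
        split_ifs
        · exact hu x
        · exact hP x
      have step : |EM μ (fun m => ∏ q ∈ S, (if q ∈ insert q0 T then u else P) (m q.2 - m q.1 + e q.1 q.2))
          - EM μ (fun m => ∏ q ∈ S, (if q ∈ T then u else P) (m q.2 - m q.1 + e q.1 q.2))| ≤ η := by
        rw [em_sub]
        have e1 : (fun m : Fin k → ℚ =>
            (∏ q ∈ S, (if q ∈ insert q0 T then u else P) (m q.2 - m q.1 + e q.1 q.2))
            - ∏ q ∈ S, (if q ∈ T then u else P) (m q.2 - m q.1 + e q.1 q.2))
            = fun m => (∏ q ∈ S.erase q0, (if q ∈ T then u else P) (m q.2 - m q.1 + e q.1 q.2))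
              * (u (m q0.2 - m q0.1 + e q0.1 q0.2) - P (m q0.2 - m q0.1 + e q0.1 q0.2)) := by
          funext m
          rw [← Finset.mul_prod_erase S _ hq0S, ← Finset.mul_prod_erase S (fun q =>
            (if q ∈ T then u else P) (m q.2 - m q.1 + e q.1 q.2)) hq0S]
          have e2 : ∏ q ∈ S.erase q0, (if q ∈ insert q0 T then u else P) (m q.2 - m q.1 + e q.1 q.2)
              = ∏ q ∈ S.erase q0, (if q ∈ T then u else P) (m q.2 - m q.1 + e q.1 q.2) := by
            refine Finset.prod_congr rfl fun q hq => ?_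
            have : q ≠ q0 := Finset.ne_of_mem_erase hq
            simp [this]
          rw [e2, if_pos (Finset.mem_insert_self _ _), if_neg hq0]
          ring
        rw [e1, em_resample2 μ hμ q0.1 q0.2]
        refine em_abs μ hμ _ fun m => ?_
        have hb := hC q0.1 q0.2 hlt
          (fun x => ∏ q ∈ (S.erase q0).filter (fun q => q.1 = q0.1 ∨ q.2 = q0.1),
            (if q ∈ T then u else P)
              (Function.update m q0.1 x q.2 - Function.update m q0.1 x q.1 + e q.1 q.2))
          (fun y => ∏ q ∈ (S.erase q0).filter (fun q => ¬ (q.1 = q0.1 ∨ q.2 = q0.1)),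
            (if q ∈ T then u else P)
              (Function.update m q0.2 y q.2 - Function.update m q0.2 y q.1 + e q.1 q.2))
          (fun x => abs_prod_le _ _ fun q _ => hw q _) (fun y => abs_prod_le _ _ fun q _ => hw q _)
        have e3 : (∑ x ∈ (μ q0.1).1, (μ q0.1).2 x * ∑ y ∈ (μ q0.2).1, (μ q0.2).2 y *
            ((∏ q ∈ S.erase q0, (if q ∈ T then u else P)
              (Function.update (Function.update m q0.1 x) q0.2 y q.2
                - Function.update (Function.update m q0.1 x) q0.2 y q.1 + e q.1 q.2))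
            * (u (Function.update (Function.update m q0.1 x) q0.2 y q0.2
                - Function.update (Function.update m q0.1 x) q0.2 y q0.1 + e q0.1 q0.2)
              - P (Function.update (Function.update m q0.1 x) q0.2 y q0.2
                - Function.update (Function.update m q0.1 x) q0.2 y q0.1 + e q0.1 q0.2))))
            = ∑ x ∈ (μ q0.1).1, (μ q0.1).2 x * ∑ y ∈ (μ q0.2).1, (μ q0.2).2 y *
              ((∏ q ∈ (S.erase q0).filter (fun q => q.1 = q0.1 ∨ q.2 = q0.1),
                (if q ∈ T then u else P)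
                  (Function.update m q0.1 x q.2 - Function.update m q0.1 x q.1 + e q.1 q.2))
              * (∏ q ∈ (S.erase q0).filter (fun q => ¬ (q.1 = q0.1 ∨ q.2 = q0.1)),
                (if q ∈ T then u else P)
                  (Function.update m q0.2 y q.2 - Function.update m q0.2 y q.1 + e q.1 q.2))
              * (u (y - x + e q0.1 q0.2) - P (y - x + e q0.1 q0.2))) := by
          refine Finset.sum_congr rfl fun x _ => ?_
          congr 1
          refine Finset.sum_congr rfl fun y _ => ?_
          congr 1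
          rw [Function.update_self, Function.update_of_ne (ne_of_lt hlt), Function.update_self]
          congr 1
          rw [← Finset.prod_filter_mul_prod_filter_not (S.erase q0)
            (fun q => q.1 = q0.1 ∨ q.2 = q0.1)]
          have hmem : ∀ q ∈ S.erase q0, q.1 < q.2 ∧ q ≠ q0 := by
            intro q hq
            rw [Finset.mem_erase, hS, Finset.mem_filter] at hq
            exact ⟨hq.2.2, hq.1⟩
          congr 1
          · refine Finset.prod_congr rfl fun q hq => ?_
            rw [Finset.mem_filter] at hq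
            obtain ⟨hq1, hq2⟩ := hq
            obtain ⟨hlt', hne⟩ := hmem q hq1
            have n1 : q.1 ≠ q0.2 := by
              intro h
              rcases hq2 with h' | h'
              · rw [h] at h'
                exact absurd h' (ne_of_gt hlt)
              · rw [h, h'] at hlt'
                exact absurd hlt (not_lt.2 hlt'.le)
            have n2 : q.2 ≠ q0.2 := by
              intro h
              rcases hq2 with h' | h'
              · exact hne (Prod.ext h' h)
              · rw [h] at h'
                exact absurd h' (ne_of_gt hlt)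
            rw [Function.update_of_ne n1, Function.update_of_ne n2]
          · refine Finset.prod_congr rfl fun q hq => ?_
            rw [Finset.mem_filter] at hq
            obtain ⟨hq1, hq2⟩ := hq
            push Not at hq2
            have up : ∀ l : Fin k, l ≠ q0.1 → Function.update (Function.update m q0.1 x) q0.2 y l
                = Function.update m q0.2 y l := by
              intro l hl
              by_cases hl2 : l = q0.2
              · rw [hl2, Function.update_self, Function.update_self]
              · rw [Function.update_of_ne hl2, Function.update_of_ne hl, Function.update_of_ne hl2]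
            rw [up _ hq2.1, up _ hq2.2]
        rw [e3]
        exact hb
      rw [Finset.card_insert_of_notMem hq0]
      push_cast
      have tri := abs_add_le
        (EM μ (fun m => ∏ q ∈ S, (if q ∈ insert q0 T then u else P) (m q.2 - m q.1 + e q.1 q.2))
          - EM μ (fun m => ∏ q ∈ S, (if q ∈ T then u else P) (m q.2 - m q.1 + e q.1 q.2)))
        (EM μ (fun m => ∏ q ∈ S, (if q ∈ T then u else P) (m q.2 - m q.1 + e q.1 q.2))
          - EM μ (PrP P e))
      have e4 : (EM μ (fun m => ∏ q ∈ S, (if q ∈ insert q0 T then u else P) (m q.2 - m q.1 + e q.1 q.2))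
          - EM μ (fun m => ∏ q ∈ S, (if q ∈ T then u else P) (m q.2 - m q.1 + e q.1 q.2)))
        + (EM μ (fun m => ∏ q ∈ S, (if q ∈ T then u else P) (m q.2 - m q.1 + e q.1 q.2))
          - EM μ (PrP P e))
        = EM μ (fun m => ∏ q ∈ S, (if q ∈ insert q0 T then u else P) (m q.2 - m q.1 + e q.1 q.2))
          - EM μ (PrP P e) := by ring
      rw [e4] at tri
      linarith
  have h1 := key S (Finset.Subset.refl S)
  have e5 : (fun m : Fin k → ℚ => ∏ q ∈ S, (if q ∈ S then u else P) (m q.2 - m q.1 + e q.1 q.2))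
      = PrP u e := by
    funext m
    unfold PrP
    refine Finset.prod_congr rfl fun q hq => ?_
    rw [if_pos hq]
  rw [e5] at h1
  refine h1.trans (mul_le_mul_of_nonneg_right ?_ hη)
  have h2 : S.card ≤ k ^ 2 := by
    have h3 := Finset.card_filter_le (univ : Finset (Fin k × Fin k)) (fun q => q.1 < q.2)
    rw [Finset.card_univ, Fintype.card_prod, Fintype.card_fin] at h3
    rw [pow_two]
    exact h3
  exact_mod_cast h2

end PGL
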