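import Pool.Agent.PGL.E13

/-! PGL / E14: the choice of the weights for all coordinates.

PROOF. Apply `chain` with `W μ`: `IsW μ` and `∀ c b, |b| ≤ 1 → L (y ↦ (∑_x μ(x) b(x) f(y - x + c))²) ≤ η₃`, and
`R v w` the two required properties. For a list of previous weights `v` take the finite family consisting of the functions
`y ↦ f(y - x + n t) f(y - x' + n t)` (`x, x' ∈ v.1`, `|n| < p`) and `y ↦ ∑_{|n|<p} g(y - x + n t)` (`x ∈ v.1`), and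
`w` from `approx_box` with `η = min η₃ η₂`. First property: with `G(y) = ∑_x v(x) b₁(x) f(y - x + n t)` the expression is
`E_w[b₂ G]` and its square is at most `E_w[G²] = ∑_{x,x'} v v b₁ b₁ E_w[f f] ≤ L(G²) + η₃ ≤ 2 η₃` (Cauchy-Schwarz,
`W v`). Second: `E_w ≤ L + η₂ = (2p - 1) L g + η₂ ≤ 4 p η₂`. -/

set_option autoImplicit false

open Finset

noncomputable section

namespace PGL

/-- `approx_box` for a finite set of functions. -/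
private theorem approx_fin {L : (ℚ → ℝ) → ℝ} (hL : IM L) {f : ℚ → ℝ} (hf : Bdf f) {d H : ℕ} (hd : 0 < d) (hH : 0 < H)
    {η₃ : ℝ} (hbox : ∀ b : ℕ → ℝ, (∀ i, |b i| ≤ 1) → L (fun x => ((∑ i ∈ range H, b i * f (x - i / d)) / H) ^ 2) ≤ η₃)
    (Φ : Finset (ℚ → ℝ)) (hg : ∀ φ ∈ Φ, Bdf φ) (η : ℝ) (hη : 0 < η) :
    ∃ μ, IsW μ ∧ (∀ φ ∈ Φ, |EW μ φ - L φ| ≤ η) ∧
      ∀ (c : ℚ) (b : ℚ → ℝ), (∀ x, |b x| ≤ 1) →
        L (fun y => (∑ x ∈ μ.1, μ.2 x * b x * f (y - x + c)) ^ 2) ≤ η₃ := by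
  classical
  obtain ⟨μ, h1, h2, h3⟩ := approx_box hL hf hd hH hbox (fun i => ((Φ.equivFin.symm i : Φ) : ℚ → ℝ))
    (fun i => hg _ (Φ.equivFin.symm i).2) η hη
  refine ⟨μ, h1, ?_, h3⟩
  intro φ hφ
  have h4 := h2 (Φ.equivFin ⟨φ, hφ⟩)
  simpa using h4

private theorem exists_cover (l : List (Finset ℚ × (ℚ → ℝ))) : ∃ S : Finset ℚ, ∀ v ∈ l, v.1 ⊆ S := by
  classical
  induction l with
  | nil => exact ⟨∅, by simp⟩
  | cons a l ih =>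
    obtain ⟨S, hS⟩ := ih
    refine ⟨a.1 ∪ S, ?_⟩
    intro v hv
    rcases List.mem_cons.1 hv with rfl | h
    · exact subset_union_left
    · exact (hS v h).trans subset_union_right

/-- Cauchy-Schwarz for weights -/
private theorem EW_cs {w : Finset ℚ × (ℚ → ℝ)} (hw : IsW w) (b G : ℚ → ℝ) (hb : ∀ x, |b x| ≤ 1) :
    (∑ y ∈ w.1, w.2 y * (b y * G y)) ^ 2 ≤ EW w (fun y => G y ^ 2) := by
  have h1 : (∑ y ∈ w.1, w.2 y * (b y * G y)) ^ 2 ≤ (∑ y ∈ w.1, w.2 y) * ∑ y ∈ w.1, w.2 y * (b y * G y) ^ 2 := by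
    refine Finset.sum_sq_le_sum_mul_sum_of_sq_le_mul _ (fun i hi => hw.1 i hi)
      (fun i hi => mul_nonneg (hw.1 i hi) (sq_nonneg _)) ?_
    intro i hi
    exact le_of_eq (by ring)
  rw [hw.2, one_mul] at h1
  refine h1.trans ?_
  unfold EW
  refine sum_le_sum fun y hy => mul_le_mul_of_nonneg_left ?_ (hw.1 y hy)
  rw [mul_pow]
  have h2 : b y ^ 2 ≤ 1 := by
    rw [← sq_abs]
    exact pow_le_one₀ (abs_nonneg _) (hb y)
  exact mul_le_of_le_one_left (sq_nonneg _) h2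

private theorem Lsq {L : (ℚ → ℝ) → ℝ} (hL : IM L) (s : Finset ℚ) (c : ℚ → ℝ) (F : ℚ → ℚ → ℝ)
    (hF : ∀ x, Bdf (F x)) :
    L (fun y => (∑ x ∈ s, c x * F x y) ^ 2) = ∑ x ∈ s, ∑ x' ∈ s, c x * c x' * L (fun y => F x y * F x' y) := by
  have e : (fun y => (∑ x ∈ s, c x * F x y) ^ 2) =
      fun y => ∑ x ∈ s, ∑ x' ∈ s, (c x * c x') * (F x y * F x' y) := by
    funext y
    rw [sq, sum_mul_sum]
    refine sum_congr rfl fun x _ => sum_congr rfl fun x' _ => by ring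
  have hb : ∀ x x', Bdf (fun y => (c x * c x') * (F x y * F x' y)) := fun x x' =>
    (Bdf.const _).mul ((hF x).mul (hF x'))
  rw [e, hL.toPF.sum s fun x _ => Bdf.sum s fun x' _ => hb x x']
  refine sum_congr rfl fun x _ => ?_
  rw [hL.toPF.sum s fun x' _ => hb x x']
  refine sum_congr rfl fun x' _ => ?_
  exact hL.smul _ _ ((hF x).mul (hF x'))

private theorem EWsq (w : Finset ℚ × (ℚ → ℝ)) (s : Finset ℚ) (c : ℚ → ℝ) (F : ℚ → ℚ → ℝ) :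
    EW w (fun y => (∑ x ∈ s, c x * F x y) ^ 2) =
      ∑ x ∈ s, ∑ x' ∈ s, c x * c x' * EW w (fun y => F x y * F x' y) := by
  unfold EW
  have e : ∀ y, w.2 y * (∑ x ∈ s, c x * F x y) ^ 2 =
      ∑ x ∈ s, ∑ x' ∈ s, (c x * c x') * (w.2 y * (F x y * F x' y)) := by
    intro y
    rw [sq, sum_mul_sum, mul_sum]
    refine sum_congr rfl fun x _ => ?_
    rw [mul_sum]
    refine sum_congr rfl fun x' _ => by ring
  simp only [e]
  rw [sum_comm]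
  refine sum_congr rfl fun x _ => ?_
  rw [sum_comm]
  refine sum_congr rfl fun x' _ => ?_
  rw [mul_sum]

theorem weights {L : (ℚ → ℝ) → ℝ} (hL : IM L) {f g : ℚ → ℝ} (hf : ∀ x, |f x| ≤ 1) (hg : Bdf g) (hg0 : ∀ x, 0 ≤ g x)
    {d H : ℕ} (hd : 0 < d) (hH : 0 < H) {η₂ η₃ : ℝ} (hη₂ : 0 < η₂) (hη₃ : 0 < η₃) (hgL : L g ≤ η₂)
    (hbox : ∀ b : ℕ → ℝ, (∀ i, |b i| ≤ 1) → L (fun x => ((∑ i ∈ range H, b i * f (x - i / d)) / H) ^ 2) ≤ η₃)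
    (p : ℕ) (hp : 0 < p) (t : ℚ) (k : ℕ) :
    ∃ μ : Fin k → Finset ℚ × (ℚ → ℝ), (∀ i, IsW (μ i)) ∧ ∀ i j, i < j →
      (∀ n ∈ Ioo (-(p : ℤ)) p, ∀ b₁ b₂ : ℚ → ℝ, (∀ x, |b₁ x| ≤ 1) → (∀ x, |b₂ x| ≤ 1) →
        |∑ x ∈ (μ i).1, (μ i).2 x * ∑ y ∈ (μ j).1, (μ j).2 y * (b₁ x * b₂ y * f (y - x + n * t))| ≤ √(2 * η₃)) ∧
      ∀ x ∈ (μ i).1, EW (μ j) (fun y => ∑ n ∈ Ioo (-(p : ℤ)) p, g (y - x + n * t)) ≤ 4 * p * η₂ := by
  classical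
  have hfb : Bdf f := ⟨1, hf⟩
  suffices key : ∀ l : List (Finset ℚ × (ℚ → ℝ)), (∀ v ∈ l, IsW v ∧ ∀ (c : ℚ) (b : ℚ → ℝ), (∀ x, |b x| ≤ 1) →
        L (fun y => (∑ x ∈ v.1, v.2 x * b x * f (y - x + c)) ^ 2) ≤ η₃) → ∃ w : Finset ℚ × (ℚ → ℝ),
      (IsW w ∧ ∀ (c : ℚ) (b : ℚ → ℝ), (∀ x, |b x| ≤ 1) →
        L (fun y => (∑ x ∈ w.1, w.2 x * b x * f (y - x + c)) ^ 2) ≤ η₃) ∧ ∀ v ∈ l,
      ((∀ n ∈ Ioo (-(p : ℤ)) p, ∀ b₁ b₂ : ℚ → ℝ, (∀ x, |b₁ x| ≤ 1) → (∀ x, |b₂ x| ≤ 1) →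
        |∑ x ∈ v.1, v.2 x * ∑ y ∈ w.1, w.2 y * (b₁ x * b₂ y * f (y - x + n * t))| ≤ √(2 * η₃)) ∧
      ∀ x ∈ v.1, EW w (fun y => ∑ n ∈ Ioo (-(p : ℤ)) p, g (y - x + n * t)) ≤ 4 * p * η₂) by
    obtain ⟨μ, hμ1, hμ2⟩ := chain
      (fun μ : Finset ℚ × (ℚ → ℝ) => IsW μ ∧ ∀ (c : ℚ) (b : ℚ → ℝ), (∀ x, |b x| ≤ 1) →
          L (fun y => (∑ x ∈ μ.1, μ.2 x * b x * f (y - x + c)) ^ 2) ≤ η₃)
      (fun v w : Finset ℚ × (ℚ → ℝ) =>
        (∀ n ∈ Ioo (-(p : ℤ)) p, ∀ b₁ b₂ : ℚ → ℝ, (∀ x, |b₁ x| ≤ 1) → (∀ x, |b₂ x| ≤ 1) →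
          |∑ x ∈ v.1, v.2 x * ∑ y ∈ w.1, w.2 y * (b₁ x * b₂ y * f (y - x + n * t))| ≤ √(2 * η₃)) ∧
        ∀ x ∈ v.1, EW w (fun y => ∑ n ∈ Ioo (-(p : ℤ)) p, g (y - x + n * t)) ≤ 4 * p * η₂) key k
    exact ⟨μ, fun i => (hμ1 i).1, hμ2⟩
  intro l hl
  obtain ⟨S, hS⟩ := exists_cover l
  obtain ⟨I, hI⟩ : ∃ I : Finset ℤ, I = Ioo (-(p : ℤ)) p := ⟨_, rfl⟩
  rw [← hI]
  have hsh : ∀ (x : ℚ) (n : ℤ), Bdf (fun y : ℚ => f (y - x + n * t)) := fun x n => ⟨1, fun y => hf _⟩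
  have hgs : ∀ (x : ℚ) (n : ℤ), Bdf (fun y : ℚ => g (y - x + n * t)) := by
    intro x n
    obtain ⟨C, hC⟩ := hg
    exact ⟨C, fun y => hC _⟩
  obtain ⟨w, hw1, hw2, hw3⟩ := approx_fin hL hfb hd hH hbox
    ((I ×ˢ S ×ˢ S).image (fun q => fun y : ℚ => f (y - q.2.1 + q.1 * t) * f (y - q.2.2 + q.1 * t)) ∪
      S.image (fun x => fun y : ℚ => ∑ n ∈ I, g (y - x + n * t)))
    (by
      intro φ hφ
      rcases mem_union.1 hφ with h | h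
      · obtain ⟨q, hq, rfl⟩ := mem_image.1 h
        exact (hsh q.2.1 q.1).mul (hsh q.2.2 q.1)
      · obtain ⟨x, hx, rfl⟩ := mem_image.1 h
        exact Bdf.sum I fun n _ => hgs x n)
    (min η₃ η₂) (lt_min hη₃ hη₂)
  refine ⟨w, ⟨hw1, hw3⟩, ?_⟩
  intro v hv
  have hvS := hS v hv
  obtain ⟨hv1, hv2⟩ := hl v hv
  constructor
  · intro n hn b₁ b₂ hb₁ hb₂
    obtain ⟨F, hF⟩ : ∃ F : ℚ → ℚ → ℝ, F = fun x y => f (y - x + n * t) := ⟨_, rfl⟩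
    obtain ⟨c, hc⟩ : ∃ c : ℚ → ℝ, c = fun x => v.2 x * b₁ x := ⟨_, rfl⟩
    have hFb : ∀ x, Bdf (F x) := by
      intro x
      rw [hF]
      exact hsh x n
    have e1 : ∑ x ∈ v.1, v.2 x * ∑ y ∈ w.1, w.2 y * (b₁ x * b₂ y * f (y - x + n * t)) =
        ∑ y ∈ w.1, w.2 y * (b₂ y * ∑ x ∈ v.1, c x * F x y) := by
      simp only [mul_sum]
      rw [sum_comm]
      refine sum_congr rfl fun y _ => sum_congr rfl fun x _ => ?_
      rw [hF, hc]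
      ring
    have h2 := EW_cs hw1 b₂ (fun y => ∑ x ∈ v.1, c x * F x y) hb₂
    have h3 : EW w (fun y => (∑ x ∈ v.1, c x * F x y) ^ 2) ≤ 2 * η₃ := by
      have h4 : L (fun y => (∑ x ∈ v.1, c x * F x y) ^ 2) ≤ η₃ := by
        have h5 := hv2 (n * t) b₁ hb₁
        simpa only [hc, hF] using h5
      rw [Lsq hL v.1 c F hFb] at h4
      rw [EWsq]
      have h6 : ∑ x ∈ v.1, ∑ x' ∈ v.1, c x * c x' * EW w (fun y => F x y * F x' y) -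
          ∑ x ∈ v.1, ∑ x' ∈ v.1, c x * c x' * L (fun y => F x y * F x' y) ≤
          ∑ x ∈ v.1, ∑ x' ∈ v.1, v.2 x * v.2 x' * η₃ := by
        rw [← sum_sub_distrib]
        refine sum_le_sum fun x hx => ?_
        rw [← sum_sub_distrib]
        refine sum_le_sum fun x' hx' => ?_
        have h7 : |EW w (fun y => F x y * F x' y) - L (fun y => F x y * F x' y)| ≤ η₃ := by
          refine (hw2 (fun y => F x y * F x' y) ?_).trans (min_le_left _ _)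
          refine mem_union_left _ (mem_image.2 ⟨(n, x, x'), ?_, ?_⟩)
          · rw [mem_product, mem_product]
            exact ⟨hn, hvS hx, hvS hx'⟩
          · rw [hF]
        rw [← mul_sub]
        refine (le_abs_self _).trans ?_
        rw [abs_mul]
        refine mul_le_mul ?_ h7 (abs_nonneg _) (mul_nonneg (hv1.1 x hx) (hv1.1 x' hx'))
        rw [hc, abs_mul, abs_mul, abs_mul, abs_of_nonneg (hv1.1 x hx), abs_of_nonneg (hv1.1 x' hx')]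
        refine mul_le_mul (mul_le_of_le_one_right (hv1.1 x hx) (hb₁ x))
          (mul_le_of_le_one_right (hv1.1 x' hx') (hb₁ x')) ?_ (hv1.1 x hx)
        exact mul_nonneg (hv1.1 x' hx') (abs_nonneg _)
      have h8 : ∑ x ∈ v.1, ∑ x' ∈ v.1, v.2 x * v.2 x' * η₃ = η₃ := by
        simp only [← sum_mul, ← mul_sum]
        rw [hv1.2]
        ring
      linarith
    rw [e1]
    exact Real.abs_le_sqrt (h2.trans h3)
  · intro x hx
    have h1 : |EW w (fun y => ∑ n ∈ I, g (y - x + n * t)) - L (fun y => ∑ n ∈ I, g (y - x + n * t))| ≤ η₂ := by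
      refine (hw2 (fun y => ∑ n ∈ I, g (y - x + n * t)) ?_).trans (min_le_right _ _)
      exact mem_union_right _ (mem_image.2 ⟨x, hvS hx, rfl⟩)
    have h2 : L (fun y => ∑ n ∈ I, g (y - x + n * t)) = I.card * L g := by
      rw [hL.toPF.sum I fun n _ => hgs x n]
      have h3 : ∀ n ∈ I, L (fun y => g (y - x + n * t)) = L g := by
        intro n _
        have h4 := hL.inv g (-x + n * t) hg
        rw [← h4]
        congr 1
        funext y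
        congr 1
        ring
      rw [sum_congr rfl h3, sum_const, nsmul_eq_mul]
    have h5 : (I.card : ℝ) ≤ 2 * p := by
      have h6 : I.card ≤ 2 * p := by
        rw [hI, Int.card_Ioo]
        omega
      exact_mod_cast h6
    have h7 : (0 : ℝ) ≤ L g := hL.pos g hg hg0
    have h8 : (I.card : ℝ) * L g ≤ 2 * p * η₂ :=
      mul_le_mul h5 hgL h7 (by positivity)
    have h9 : (1 : ℝ) ≤ p := by exact_mod_cast hp
    have h10 := (abs_le.1 h1).2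
    rw [h2] at h10
    nlinarith

end PGL
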