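import Mathlib

/-! PGL / E15: the Dyson constant term identity (polynomial form).

PROOF. `G_{s,a} = ∏_{i,j ∈ s, i ≠ j} (X_j - X_i)^(a_i)`; the claim is that the coefficient of `∏_{j ∈ s} X_j^(∑_{i ∈ s, i ≠ j} a_i)` is the
multinomial coefficient. Induction on `∑_{i ∈ s} a_i + |s|`. (i) If `a_j = 0` for some `j ∈ s`: `X_j` occurs only in the
factors `(X_j - X_i)^(a_i)`, `i ≠ j`, and the exponent `∑_{i ≠ j} a_i` of `X_j` is the largest possible, so the
coefficient is that of the remaining monomial in `G_{s \ j, a}` (the factors contribute `X_j^(a_i)`). Multinomial: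
`a_j = 0` may be dropped. (ii) If all `a_j ≥ 1`: Lagrange interpolation of the constant polynomial `1` at the nodes `X_i`
(in the fraction field), evaluated at `0` (`Lagrange.sum_basis`): `∑_j ∏_{i ≠ j} X_i / (X_i - X_j) = 1`, so
`G_a = ∑_{j ∈ s} (∏_{i ≠ j} X_i) G_{a - e_j}` (in `G_a` the pair `(j, i)` contributes `(X_i - X_j)^(a_j)`). Compare the
coefficients: the monomial divided by `∏_{i ≠ j} X_i` is the one of `a - e_j`. Multinomial coefficients satisfy
`M(a) = ∑_j M(a - e_j)`. -/

set_option autoImplicit false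

open Finset

noncomputable section

namespace PGL

/-- the Dyson product -/
def dysP {σ : Type*} [DecidableEq σ] (s : Finset σ) (a : σ → ℕ) : MvPolynomial σ ℤ :=
  ∏ q ∈ s.offDiag, (MvPolynomial.X q.2 - MvPolynomial.X q.1) ^ a q.1

private theorem dysP_eq {σ : Type*} [DecidableEq σ] (s : Finset σ) (a : σ → ℕ) :
    dysP s a = ∏ i ∈ s, ∏ j ∈ s.erase i, (MvPolynomial.X j - MvPolynomial.X i : MvPolynomial σ ℤ) ^ a i := by
  unfold dysP
  have h1 : s.offDiag = (s ×ˢ s).filter (fun q => q.1 ≠ q.2) := by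
    ext q
    simp only [mem_offDiag, mem_filter, mem_product, and_assoc]
  rw [h1, prod_filter, prod_product]
  refine prod_congr rfl fun i hi => ?_
  have h2 : s.erase i = s.filter (fun j => i ≠ j) := by
    ext j
    rw [mem_erase, mem_filter]
    exact ⟨fun h => ⟨h.2, h.1.symm⟩, fun h => ⟨h.2.symm, h.1⟩⟩
  rw [h2, prod_filter]

private theorem dysP_zero {σ : Type*} [DecidableEq σ] (s : Finset σ) (a : σ → ℕ) {j : σ} (hj : j ∈ s)
    (h0 : a j = 0) : dysP s a = dysP (s.erase j) a *
      ∏ i ∈ s.erase j, (MvPolynomial.X j - MvPolynomial.X i : MvPolynomial σ ℤ) ^ a i := by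
  rw [dysP_eq, dysP_eq, ← mul_prod_erase s _ hj, h0]
  simp only [pow_zero, prod_const_one, one_mul]
  rw [← prod_mul_distrib]
  refine prod_congr rfl fun i hi => ?_
  have h1 : j ∈ s.erase i := mem_erase.2 ⟨(ne_of_mem_erase hi).symm, hj⟩
  rw [← mul_prod_erase _ _ h1, erase_right_comm, mul_comm]

private theorem dysP_pos {σ : Type*} [DecidableEq σ] (s : Finset σ) (a : σ → ℕ) {j : σ} (hj : j ∈ s)
    (h0 : 1 ≤ a j) : dysP s a = dysP s (Function.update a j (a j - 1)) *
      ∏ i ∈ s.erase j, (MvPolynomial.X i - MvPolynomial.X j : MvPolynomial σ ℤ) := by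
  rw [dysP_eq, dysP_eq, ← mul_prod_erase s _ hj, ← mul_prod_erase s _ hj, Function.update_self]
  have h1 : ∏ i ∈ s.erase j, ∏ l ∈ s.erase i, (MvPolynomial.X l - MvPolynomial.X i :
      MvPolynomial σ ℤ) ^ (Function.update a j (a j - 1)) i =
      ∏ i ∈ s.erase j, ∏ l ∈ s.erase i, (MvPolynomial.X l - MvPolynomial.X i :
      MvPolynomial σ ℤ) ^ a i := by
    refine prod_congr rfl fun i hi => ?_
    rw [Function.update_of_ne (ne_of_mem_erase hi)]
  rw [h1]
  have h2 : ∏ l ∈ s.erase j, (MvPolynomial.X l - MvPolynomial.X j : MvPolynomial σ ℤ) ^ a j =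
      (∏ l ∈ s.erase j, (MvPolynomial.X l - MvPolynomial.X j : MvPolynomial σ ℤ) ^ (a j - 1)) *
        ∏ l ∈ s.erase j, (MvPolynomial.X l - MvPolynomial.X j : MvPolynomial σ ℤ) := by
    rw [← prod_mul_distrib]
    refine prod_congr rfl fun l _ => ?_
    rw [← pow_succ, Nat.sub_add_cancel h0]
  rw [h2]
  ring

private theorem coeff_step {σ : Type*} [DecidableEq σ] {P : MvPolynomial σ ℤ} {i j : σ} (hij : i ≠ j)
    {d : ℕ} (hP : MvPolynomial.degreeOf j P ≤ d) {m : σ →₀ ℕ} (hm : m j = 0) :
    MvPolynomial.coeff (m + Finsupp.single j (d + 1)) (P * (MvPolynomial.X j - MvPolynomial.X i)) =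
      MvPolynomial.coeff (m + Finsupp.single j d) P := by
  rw [mul_sub, MvPolynomial.coeff_sub]
  have h1 : m + Finsupp.single j (d + 1) = m + Finsupp.single j d + Finsupp.single j 1 := by
    rw [add_assoc, ← Finsupp.single_add]
  rw [h1, MvPolynomial.coeff_mul_X, MvPolynomial.coeff_mul_X']
  have h2 : MvPolynomial.coeff (m + Finsupp.single j d + Finsupp.single j 1 - Finsupp.single i 1) P = 0 := by
    by_contra h3
    have h4 := MvPolynomial.degreeOf_le_iff.1 hP _ (MvPolynomial.mem_support_iff.2 h3)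
    simp only [Finsupp.tsub_apply, Finsupp.add_apply, Finsupp.single_eq_same,
      Finsupp.single_eq_of_ne hij.symm] at h4
    omega
  rw [h2, ite_self, sub_zero]

private theorem degree_step {σ : Type*} [DecidableEq σ] {P : MvPolynomial σ ℤ} {i j : σ} (hij : i ≠ j)
    {d : ℕ} (hP : MvPolynomial.degreeOf j P ≤ d) :
    MvPolynomial.degreeOf j (P * (MvPolynomial.X j - MvPolynomial.X i)) ≤ d + 1 := by
  refine (MvPolynomial.degreeOf_mul_le _ _ _).trans (Nat.add_le_add hP ?_)
  refine (MvPolynomial.degreeOf_sub_le _ _ _).trans (max_le ?_ ?_)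
  · rw [MvPolynomial.degreeOf_X, if_pos rfl]
  · rw [MvPolynomial.degreeOf_X_of_ne hij.symm]
    exact Nat.zero_le _

private theorem coeff_pow {σ : Type*} [DecidableEq σ] {P : MvPolynomial σ ℤ} {i j : σ} (hij : i ≠ j)
    {d : ℕ} (hP : MvPolynomial.degreeOf j P ≤ d) {m : σ →₀ ℕ} (hm : m j = 0) (e : ℕ) :
    MvPolynomial.degreeOf j (P * (MvPolynomial.X j - MvPolynomial.X i) ^ e) ≤ d + e ∧
    MvPolynomial.coeff (m + Finsupp.single j (d + e)) (P * (MvPolynomial.X j - MvPolynomial.X i) ^ e) =
      MvPolynomial.coeff (m + Finsupp.single j d) P := by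
  induction e with
  | zero =>
    rw [pow_zero, mul_one]
    exact ⟨hP, rfl⟩
  | succ e ih =>
    rw [pow_succ, ← mul_assoc]
    exact ⟨degree_step hij ih.1, (coeff_step hij ih.1 hm).trans ih.2⟩

private theorem coeff_prod {σ : Type*} [DecidableEq σ] {P : MvPolynomial σ ℤ} {j : σ} (a : σ → ℕ)
    {d : ℕ} (hP : MvPolynomial.degreeOf j P ≤ d) {m : σ →₀ ℕ} (hm : m j = 0) (t : Finset σ)
    (ht : j ∉ t) :
    MvPolynomial.degreeOf j (P * ∏ i ∈ t, (MvPolynomial.X j - MvPolynomial.X i) ^ a i) ≤
      d + ∑ i ∈ t, a i ∧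
    MvPolynomial.coeff (m + Finsupp.single j (d + ∑ i ∈ t, a i))
      (P * ∏ i ∈ t, (MvPolynomial.X j - MvPolynomial.X i) ^ a i) =
      MvPolynomial.coeff (m + Finsupp.single j d) P := by
  induction t using Finset.induction_on with
  | empty =>
    rw [prod_empty, sum_empty, mul_one, add_zero]
    exact ⟨hP, rfl⟩
  | insert i t hi ih =>
    have h1 : i ≠ j := fun h => ht (h ▸ mem_insert_self i t)
    have h2 := ih fun h => ht (mem_insert_of_mem h)
    have h3 := coeff_pow h1 h2.1 hm (a i)
    rw [prod_insert hi, sum_insert hi, mul_comm ((MvPolynomial.X j - MvPolynomial.X i :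
      MvPolynomial σ ℤ) ^ a i), ← mul_assoc, add_comm (a i), ← add_assoc]
    exact ⟨h3.1, h3.2.trans h2.2⟩

private theorem degree_dysP {σ : Type*} [DecidableEq σ] (s : Finset σ) (a : σ → ℕ) {j : σ}
    (hj : j ∉ s) : MvPolynomial.degreeOf j (dysP s a) ≤ 0 := by
  unfold dysP
  refine (MvPolynomial.degreeOf_prod_le _ _ _).trans ?_
  rw [Nat.le_zero, sum_eq_zero_iff]
  intro q hq
  rw [mem_offDiag] at hq
  have h1 : j ≠ q.1 := fun h => hj (h ▸ hq.1)
  have h2 : j ≠ q.2 := fun h => hj (h ▸ hq.2.1)
  have h3 := MvPolynomial.degreeOf_pow_le (R := ℤ) j (MvPolynomial.X q.2 - MvPolynomial.X q.1) (a q.1)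
  have h4 := MvPolynomial.degreeOf_sub_le (R := ℤ) j (MvPolynomial.X q.2) (MvPolynomial.X q.1)
  rw [MvPolynomial.degreeOf_X_of_ne h1, MvPolynomial.degreeOf_X_of_ne h2, max_self] at h4
  rw [Nat.le_zero.1 h4, mul_zero] at h3
  exact Nat.le_zero.1 h3

private theorem lagr {σ : Type*} [DecidableEq σ] {s : Finset σ} (hs : s.Nonempty) {a : σ → ℕ}
    (ha : ∀ j ∈ s, 1 ≤ a j) : dysP s a = ∑ j ∈ s, (∏ i ∈ s.erase j, MvPolynomial.X i) *
      dysP s (Function.update a j (a j - 1)) := by
  let K := FractionRing (MvPolynomial σ ℤ)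
  have hinj : Function.Injective (algebraMap (MvPolynomial σ ℤ) K) := IsFractionRing.injective _ _
  let v : σ → K := fun i => algebraMap (MvPolynomial σ ℤ) K (MvPolynomial.X i)
  have hv : Function.Injective v := hinj.comp MvPolynomial.X_injective
  have h1 := congrArg (Polynomial.eval (0 : K)) (Lagrange.sum_basis (hv.injOn (s := (s : Set σ))) hs)
  rw [Polynomial.eval_finsetSum, Polynomial.eval_one] at h1
  apply hinj
  rw [map_sum, ← mul_one (algebraMap (MvPolynomial σ ℤ) K (dysP s a)), ← h1, mul_sum]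
  refine sum_congr rfl fun j hj => ?_
  rw [dysP_pos s a hj (ha j hj), map_mul, map_mul, map_prod, map_prod, Lagrange.basis,
    Polynomial.eval_prod]
  have h2 : ∏ i ∈ s.erase j, algebraMap (MvPolynomial σ ℤ) K (MvPolynomial.X i - MvPolynomial.X j) *
      Polynomial.eval 0 (Lagrange.basisDivisor (v j) (v i)) =
      ∏ i ∈ s.erase j, algebraMap (MvPolynomial σ ℤ) K (MvPolynomial.X i) := by
    refine prod_congr rfl fun i hi => ?_
    have h3 : v j - v i ≠ 0 := sub_ne_zero.2 fun h => (ne_of_mem_erase hi) (hv h).symm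
    rw [map_sub]
    simp only [Lagrange.basisDivisor, Polynomial.eval_mul, Polynomial.eval_C, Polynomial.eval_sub,
      Polynomial.eval_X, zero_sub]
    change (v i - v j) * ((v j - v i)⁻¹ * -v i) = v i
    have h5 : (v j - v i) * (v j - v i)⁻¹ = 1 := mul_inv_cancel₀ h3
    linear_combination (v i) * h5
  rw [prod_mul_distrib] at h2
  rw [mul_assoc, h2, mul_comm]

private theorem multi {σ : Type*} [DecidableEq σ] {s : Finset σ} (hs : s.Nonempty) {a : σ → ℕ}
    (ha : ∀ j ∈ s, 1 ≤ a j) :
    Nat.multinomial s a = ∑ j ∈ s, Nat.multinomial s (Function.update a j (a j - 1)) := by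
  have hpos : 0 < ∏ i ∈ s, (a i).factorial := prod_pos fun i _ => Nat.factorial_pos _
  apply Nat.eq_of_mul_eq_mul_left hpos
  rw [Nat.multinomial_spec, mul_sum]
  have h1 : ∀ j ∈ s, (∏ i ∈ s, (a i).factorial) *
      Nat.multinomial s (Function.update a j (a j - 1)) = a j * (∑ i ∈ s, a i - 1).factorial := by
    intro j hj
    have h2 := Nat.multinomial_spec s (Function.update a j (a j - 1))
    have h3 : ∏ i ∈ s, (a i).factorial =
        a j * ∏ i ∈ s, ((Function.update a j (a j - 1)) i).factorial := by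
      rw [← mul_prod_erase s _ hj, ← mul_prod_erase s _ hj, Function.update_self, ← mul_assoc,
        Nat.mul_factorial_pred (by have := ha j hj; omega)]
      congr 1
      refine prod_congr rfl fun i hi => ?_
      rw [Function.update_of_ne (ne_of_mem_erase hi)]
    have h4 : ∑ i ∈ s, (Function.update a j (a j - 1)) i = ∑ i ∈ s, a i - 1 := by
      rw [← add_sum_erase s _ hj, ← add_sum_erase s _ hj, Function.update_self]
      have h5 : ∑ i ∈ s.erase j, (Function.update a j (a j - 1)) i = ∑ i ∈ s.erase j, a i :=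
        sum_congr rfl fun i hi => by rw [Function.update_of_ne (ne_of_mem_erase hi)]
      rw [h5]
      have := ha j hj
      omega
    rw [h3, mul_assoc, h2, h4]
  rw [sum_congr rfl h1, ← sum_mul]
  obtain ⟨j, hj⟩ := hs
  have h6 : ∑ i ∈ s, a i ≠ 0 := by
    have h7 := ha j hj
    have h8 := single_le_sum (f := a) (fun i _ => Nat.zero_le _) hj
    omega
  rw [Nat.mul_factorial_pred h6]

theorem dyson {σ : Type*} [DecidableEq σ] (s : Finset σ) (a : σ → ℕ) :
    MvPolynomial.coeff (∑ j ∈ s, Finsupp.single j (∑ i ∈ s.erase j, a i)) (dysP s a) = (Nat.multinomial s a : ℤ) := by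
  obtain ⟨N, hN⟩ : ∃ N, ∑ i ∈ s, a i + s.card = N := ⟨_, rfl⟩
  induction N using Nat.strong_induction_on generalizing s a with
  | _ N ih =>
    by_cases hz : ∃ j ∈ s, a j = 0
    · obtain ⟨j, hj, h0⟩ := hz
      have hc : (s.erase j).card + 1 = s.card := card_erase_add_one hj
      have hs : a j + ∑ i ∈ s.erase j, a i = ∑ i ∈ s, a i := add_sum_erase s a hj
      have h1 := ih (∑ i ∈ s.erase j, a i + (s.erase j).card) (by omega) (s.erase j) a rfl
      have h2 : (∑ l ∈ s, Finsupp.single l (∑ i ∈ s.erase l, a i) : σ →₀ ℕ) =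
          ∑ l ∈ s.erase j, Finsupp.single l (∑ i ∈ (s.erase j).erase l, a i) +
            Finsupp.single j (0 + ∑ i ∈ s.erase j, a i) := by
        rw [← add_sum_erase s _ hj, add_comm, zero_add]
        congr 1
        refine sum_congr rfl fun l hl => ?_
        have h3 : j ∈ s.erase l := mem_erase.2 ⟨(ne_of_mem_erase hl).symm, hj⟩
        rw [← add_sum_erase _ _ h3, h0, zero_add, erase_right_comm]
      have hm : (∑ l ∈ s.erase j, Finsupp.single l (∑ i ∈ (s.erase j).erase l, a i) : σ →₀ ℕ) j = 0 := by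
        rw [Finsupp.finsetSum_apply]
        refine sum_eq_zero fun l hl => ?_
        rw [Finsupp.single_eq_of_ne (ne_of_mem_erase hl).symm]
      rw [h2, dysP_zero s a hj h0,
        (coeff_prod a (degree_dysP (s.erase j) a (notMem_erase j s)) hm (s.erase j)
          (notMem_erase j s)).2, Finsupp.single_zero, add_zero, h1]
      congr 1
      have h4 := Nat.multinomial_insert (notMem_erase j s) a
      rw [insert_erase hj, h0, Nat.choose_zero_right, one_mul] at h4
      exact h4.symm
    · push Not at hz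
      rcases s.eq_empty_or_nonempty with rfl | hne
      · simp [dysP]
      · have ha : ∀ j ∈ s, 1 ≤ a j := fun j hj => Nat.one_le_iff_ne_zero.2 (hz j hj)
        rw [lagr hne ha, MvPolynomial.coeff_sum, multi hne ha]
        push_cast
        refine sum_congr rfl fun j hj => ?_
        have hX : (∏ i ∈ s.erase j, MvPolynomial.X i : MvPolynomial σ ℤ) =
            MvPolynomial.monomial (∑ i ∈ s.erase j, Finsupp.single i 1) 1 := by
          rw [MvPolynomial.monomial_sum_one]
          rfl
        have h4 : ∑ i ∈ s, (Function.update a j (a j - 1)) i + 1 = ∑ i ∈ s, a i := by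
          rw [← add_sum_erase s _ hj, ← add_sum_erase s a hj, Function.update_self]
          have h5 : ∑ i ∈ s.erase j, (Function.update a j (a j - 1)) i = ∑ i ∈ s.erase j, a i :=
            sum_congr rfl fun i hi => by rw [Function.update_of_ne (ne_of_mem_erase hi)]
          rw [h5]
          have := ha j hj
          omega
        have hmon : (∑ l ∈ s, Finsupp.single l (∑ i ∈ s.erase l, a i) : σ →₀ ℕ) =
            ∑ i ∈ s.erase j, Finsupp.single i 1 +
              ∑ l ∈ s, Finsupp.single l (∑ i ∈ s.erase l, (Function.update a j (a j - 1)) i) := by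
          rw [← add_sum_erase s _ hj, ← add_sum_erase s (fun l => Finsupp.single l
            (∑ i ∈ s.erase l, (Function.update a j (a j - 1)) i)) hj]
          have e1 : ∑ i ∈ s.erase j, (Function.update a j (a j - 1)) i = ∑ i ∈ s.erase j, a i :=
            sum_congr rfl fun i hi => by rw [Function.update_of_ne (ne_of_mem_erase hi)]
          have e2 : (∑ l ∈ s.erase j, Finsupp.single l (∑ i ∈ s.erase l, a i) : σ →₀ ℕ) =
              ∑ i ∈ s.erase j, Finsupp.single i 1 + ∑ l ∈ s.erase j, Finsupp.single l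
                (∑ i ∈ s.erase l, (Function.update a j (a j - 1)) i) := by
            rw [← sum_add_distrib]
            refine sum_congr rfl fun l hl => ?_
            rw [← Finsupp.single_add]
            congr 1
            have h6 : j ∈ s.erase l := mem_erase.2 ⟨(ne_of_mem_erase hl).symm, hj⟩
            rw [← add_sum_erase _ a h6, ← add_sum_erase _ (Function.update a j (a j - 1)) h6,
              Function.update_self]
            have h7 : ∑ i ∈ (s.erase l).erase j, (Function.update a j (a j - 1)) i =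
                ∑ i ∈ (s.erase l).erase j, a i :=
              sum_congr rfl fun i hi => by rw [Function.update_of_ne (ne_of_mem_erase hi)]
            rw [h7]
            have := ha j hj
            omega
          rw [e1, e2]
          abel
        rw [hX, hmon, MvPolynomial.coeff_monomial_mul, one_mul]
        refine ih (∑ i ∈ s, (Function.update a j (a j - 1)) i + s.card) (by omega) s _ rfl

end PGL
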