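import Pool.Agent.PGL.E15

/-! PGL / E16: the clique theorem in `ℤ / p`.

PROOF. If `k ≤ 1` there is nothing to show (any `a`). Let `k ≥ 2`; `2 c ≤ k c < p`, so enlarge every `E i j` (`i < j`) to a set
with exactly `2 c` elements (`Finset.exists_superset_card_eq`). Let
`f = ∏_{i<j} ∏_{e ∈ E i j} (X_j - X_i - C e)` over `ZMod p`, of total degree `≤ c k (k - 1)`, and `t = (c (k - 1))_i`. The
coefficient of `t` in `f` is that in the leading form `∏_{i<j} (X_j - X_i)^(2c)`, which is
`(-1)^(c k (k-1)/2) ∏_{i ≠ j} (X_j - X_i)^c`, so by `dyson` (mapped to `ZMod p`, `a = c`) it is `± (k c)! / (c!)^k ≠ 0` in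
`ZMod p` as `k c < p` (`Nat.multinomial`, `Nat.Prime.dvd_factorial`). So the total degree is exactly the degree of `t`
and `MvPolynomial.combinatorial_nullstellensatz_exists_eval_nonzero` with `S i = univ`, `t i = c (k - 1) < p`, gives `a`
with `eval a f ≠ 0`. -/

set_option autoImplicit false

open Finset

noncomputable section

namespace PGL

section Lead

variable {σ R : Type*} [CommRing R]

/-- all monomials have degree at most `d` -/
def LeD (d : ℕ) (f : MvPolynomial σ R) : Prop := ∀ m ∈ f.support, m.degree ≤ d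

/-- all monomials have degree less than `d` -/
def LtD (d : ℕ) (f : MvPolynomial σ R) : Prop := ∀ m ∈ f.support, m.degree < d

theorem LtD.le {d : ℕ} {f : MvPolynomial σ R} (h : LtD d f) : LeD d f := fun m hm => (h m hm).le

theorem LtD.zero (d : ℕ) : LtD d (0 : MvPolynomial σ R) := fun m hm => by simp at hm

theorem LtD.add {d : ℕ} {f g : MvPolynomial σ R} (hf : LtD d f) (hg : LtD d g) : LtD d (f + g) := by
  classical
  intro m hm
  rcases Finset.mem_union.1 (MvPolynomial.support_add hm) with h | h
  · exact hf m h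
  · exact hg m h

theorem LeD.add {d : ℕ} {f g : MvPolynomial σ R} (hf : LeD d f) (hg : LeD d g) : LeD d (f + g) := by
  classical
  intro m hm
  rcases Finset.mem_union.1 (MvPolynomial.support_add hm) with h | h
  · exact hf m h
  · exact hg m h

theorem LtD.neg {d : ℕ} {f : MvPolynomial σ R} (hf : LtD d f) : LtD d (-f) := by
  intro m hm
  rw [MvPolynomial.support_neg] at hm
  exact hf m hm

theorem LeD.neg {d : ℕ} {f : MvPolynomial σ R} (hf : LeD d f) : LeD d (-f) := by
  intro m hm
  rw [MvPolynomial.support_neg] at hm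
  exact hf m hm

theorem LeD.mul {d e : ℕ} {f g : MvPolynomial σ R} (hf : LeD d f) (hg : LeD e g) :
    LeD (d + e) (f * g) := by
  classical
  intro m hm
  obtain ⟨a, ha, b, hb, rfl⟩ := Finset.mem_add.1 (MvPolynomial.support_mul _ _ hm)
  rw [map_add]
  exact add_le_add (hf a ha) (hg b hb)

theorem LtD.mul_le {d e : ℕ} {f g : MvPolynomial σ R} (hf : LtD d f) (hg : LeD e g) :
    LtD (d + e) (f * g) := by
  classical
  intro m hm
  obtain ⟨a, ha, b, hb, rfl⟩ := Finset.mem_add.1 (MvPolynomial.support_mul _ _ hm)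
  rw [map_add]
  exact add_lt_add_of_lt_of_le (hf a ha) (hg b hb)

theorem LeD.mul_lt {d e : ℕ} {f g : MvPolynomial σ R} (hf : LeD d f) (hg : LtD e g) :
    LtD (d + e) (f * g) := by
  rw [mul_comm, add_comm]
  exact hg.mul_le hf

theorem LeD.one : LeD 0 (1 : MvPolynomial σ R) := by
  classical
  intro m hm
  have h : m = 0 := by
    by_contra h
    rw [MvPolynomial.mem_support_iff, MvPolynomial.coeff_one, if_neg (fun e => h e.symm)] at hm
    exact hm rfl
  rw [h, map_zero]

theorem LeD.X (i : σ) : LeD 1 (MvPolynomial.X i : MvPolynomial σ R) := by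
  classical
  intro m hm
  have h : m = Finsupp.single i 1 := by
    by_contra h
    rw [MvPolynomial.mem_support_iff, MvPolynomial.coeff_X, if_neg (fun e => h e.symm)] at hm
    exact hm rfl
  rw [h, Finsupp.degree_single]

theorem LtD.C (c : R) : LtD 1 (MvPolynomial.C c : MvPolynomial σ R) := by
  classical
  intro m hm
  have h : m = 0 := by
    by_contra h
    rw [MvPolynomial.mem_support_iff, MvPolynomial.coeff_C, if_neg (fun e => h e.symm)] at hm
    exact hm rfl
  rw [h, map_zero]
  exact one_pos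

theorem LeD.prod {ι : Type*} (s : Finset ι) {g : ι → MvPolynomial σ R} {d : ι → ℕ}
    (hg : ∀ i ∈ s, LeD (d i) (g i)) : LeD (∑ i ∈ s, d i) (∏ i ∈ s, g i) := by
  classical
  induction s using Finset.induction_on with
  | empty => simpa using LeD.one
  | insert a s ha ih =>
    rw [Finset.sum_insert ha, Finset.prod_insert ha]
    exact (hg a (Finset.mem_insert_self _ _)).mul
      (ih fun i hi => hg i (Finset.mem_insert_of_mem hi))

theorem LtD.prod_sub {ι : Type*} (s : Finset ι) {f g : ι → MvPolynomial σ R} {d : ι → ℕ}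
    (hg : ∀ i ∈ s, LeD (d i) (g i)) (hfg : ∀ i ∈ s, LtD (d i) (f i - g i)) :
    LtD (∑ i ∈ s, d i) (∏ i ∈ s, f i - ∏ i ∈ s, g i) := by
  classical
  induction s using Finset.induction_on with
  | empty => simpa using LtD.zero _
  | insert a s ha ih =>
    rw [Finset.sum_insert ha, Finset.prod_insert ha, Finset.prod_insert ha]
    have hg' : ∀ i ∈ s, LeD (d i) (g i) := fun i hi => hg i (Finset.mem_insert_of_mem hi)
    have h1 := ih hg' fun i hi => hfg i (Finset.mem_insert_of_mem hi)
    have h2 := LeD.prod s hg'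
    have ha1 := hg a (Finset.mem_insert_self _ _)
    have ha2 := hfg a (Finset.mem_insert_self _ _)
    have e : f a * ∏ i ∈ s, f i - g a * ∏ i ∈ s, g i =
        (f a - g a) * (∏ i ∈ s, f i - ∏ i ∈ s, g i) + (f a - g a) * ∏ i ∈ s, g i +
          g a * (∏ i ∈ s, f i - ∏ i ∈ s, g i) := by ring
    rw [e]
    exact ((ha2.mul_le h1.le).add (ha2.mul_le h2)).add (ha1.mul_lt h1)

end Lead

/-- the pairs `i < j` -/
def prs (k : ℕ) : Finset (Fin k × Fin k) := univ.filter fun q => q.1 < q.2

theorem mem_prs {k : ℕ} {q : Fin k × Fin k} : q ∈ prs k ↔ q.1 < q.2 := by simp [prs]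

theorem prod_offDiag {k : ℕ} {N : Type*} [CommMonoid N] (F : Fin k × Fin k → N) :
    ∏ q ∈ (univ : Finset (Fin k)).offDiag, F q = ∏ q ∈ prs k, (F q * F q.swap) := by
  classical
  rw [← Finset.prod_filter_mul_prod_filter_not _ (fun q : Fin k × Fin k => q.1 < q.2),
    Finset.prod_mul_distrib]
  congr 1
  · apply Finset.prod_congr _ (fun _ _ => rfl)
    ext q
    simp only [Finset.mem_filter, Finset.mem_offDiag, Finset.mem_univ, true_and, mem_prs]
    exact ⟨fun h => h.2, fun h => ⟨h.ne, h⟩⟩
  · apply Finset.prod_nbij' Prod.swap Prod.swap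
    · intro q hq
      simp only [Finset.mem_filter, Finset.mem_offDiag, Finset.mem_univ, true_and] at hq
      rw [mem_prs]
      exact lt_of_le_of_ne (not_lt.1 hq.2) (fun e => hq.1 e.symm)
    · intro q hq
      rw [mem_prs] at hq
      simp only [Finset.mem_filter, Finset.mem_offDiag, Finset.mem_univ, true_and]
      exact ⟨hq.ne', not_lt.2 hq.le⟩
    · intro q _
      exact Prod.swap_swap q
    · intro q _
      exact Prod.swap_swap q
    · intro q _
      rw [Prod.swap_swap]

theorem sum_offDiag {k : ℕ} (c : ℕ) :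
    ∑ _q ∈ (univ : Finset (Fin k)).offDiag, c = ∑ _q ∈ prs k, 2 * c := by
  have h := prod_offDiag (k := k) (fun _ => Multiplicative.ofAdd c)
  have h1 := congrArg Multiplicative.toAdd h
  rw [toAdd_prod, toAdd_prod] at h1
  simp only [toAdd_ofAdd, toAdd_mul] at h1
  rw [h1]
  exact Finset.sum_congr rfl fun _ _ => (two_mul c).symm

theorem degree_t (k c : ℕ) :
    (∑ j ∈ (univ : Finset (Fin k)), Finsupp.single j (∑ _i ∈ univ.erase j, c) : Fin k →₀ ℕ).degree =
      ∑ _q ∈ prs k, 2 * c := by
  rw [map_sum, ← sum_offDiag]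
  simp only [Finsupp.degree_single, Finset.sum_const, smul_eq_mul, Finset.card_erase_of_mem,
    Finset.mem_univ, Finset.card_univ, Fintype.card_fin, Finset.offDiag_card]
  rw [← mul_assoc, Nat.mul_sub, mul_one]

theorem clique (p : ℕ) [Fact p.Prime] (k c : ℕ) (hkc : k * c < p) (E : Fin k → Fin k → Finset (ZMod p))
    (hE : ∀ i j, i < j → (E i j).card ≤ 2 * c) : ∃ a : Fin k → ZMod p, ∀ i j, i < j → a j - a i ∉ E i j := by
  classical
  have hp : p.Prime := Fact.out
  by_cases hk : k ≤ 1
  · refine ⟨0, fun i j hij => ?_⟩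
    exfalso
    have h1 := i.2
    have h2 := j.2
    have h3 : (i : ℕ) < j := hij
    omega
  push Not at hk
  have h2c : 2 * c ≤ Fintype.card (ZMod p) := by
    rw [ZMod.card]
    have : 2 * c ≤ k * c := Nat.mul_le_mul_right c hk
    omega
  have hE' : ∀ q : Fin k × Fin k, ∃ S : Finset (ZMod p),
      q ∈ prs k → E q.1 q.2 ⊆ S ∧ S.card = 2 * c := by
    intro q
    by_cases hq : q ∈ prs k
    · obtain ⟨S, h1, -, h3⟩ := Finset.exists_subsuperset_card_eq (Finset.subset_univ (E q.1 q.2))
        (hE q.1 q.2 (mem_prs.1 hq)) (by rw [Finset.card_univ]; exact h2c)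
      exact ⟨S, fun _ => ⟨h1, h3⟩⟩
    · exact ⟨∅, fun h => absurd h hq⟩
  choose S hS using hE'
  -- the polynomials
  set f : MvPolynomial (Fin k) (ZMod p) :=
    ∏ q ∈ prs k, ∏ e ∈ S q, (MvPolynomial.X q.2 - MvPolynomial.X q.1 - MvPolynomial.C e) with hf
  set g : MvPolynomial (Fin k) (ZMod p) :=
    ∏ q ∈ prs k, (MvPolynomial.X q.2 - MvPolynomial.X q.1) ^ (2 * c) with hg
  set t : Fin k →₀ ℕ := ∑ j ∈ (univ : Finset (Fin k)), Finsupp.single j (∑ _i ∈ univ.erase j, c)
    with ht
  have hdeg : t.degree = ∑ _q ∈ prs k, 2 * c := degree_t k c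
  have hlin : ∀ q : Fin k × Fin k, LeD 1
      (MvPolynomial.X q.2 - MvPolynomial.X q.1 : MvPolynomial (Fin k) (ZMod p)) := fun q => by
    rw [sub_eq_add_neg]
    exact (LeD.X _).add (LeD.X _).neg
  have hgq : ∀ q ∈ prs k, LeD (2 * c)
      ((MvPolynomial.X q.2 - MvPolynomial.X q.1 : MvPolynomial (Fin k) (ZMod p)) ^ (2 * c)) := by
    intro q _
    have := LeD.prod (Finset.range (2 * c)) (d := fun _ => 1) (fun _ _ => hlin q)
    simpa using this
  have hfgq : ∀ q ∈ prs k, LtD (2 * c)
      ((∏ e ∈ S q, (MvPolynomial.X q.2 - MvPolynomial.X q.1 - MvPolynomial.C e) :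
        MvPolynomial (Fin k) (ZMod p)) - (MvPolynomial.X q.2 - MvPolynomial.X q.1) ^ (2 * c)) := by
    intro q hq
    have h1 := LtD.prod_sub (S q) (d := fun _ => 1)
      (g := fun _ => (MvPolynomial.X q.2 - MvPolynomial.X q.1 : MvPolynomial (Fin k) (ZMod p)))
      (f := fun e => MvPolynomial.X q.2 - MvPolynomial.X q.1 - MvPolynomial.C e)
      (fun _ _ => hlin q) (fun e _ => by
        have h2 : (MvPolynomial.X q.2 - MvPolynomial.X q.1 - MvPolynomial.C e -
            (MvPolynomial.X q.2 - MvPolynomial.X q.1) : MvPolynomial (Fin k) (ZMod p)) =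
            -MvPolynomial.C e := by ring
        rw [h2]
        exact (LtD.C e).neg)
    simp only [Finset.sum_const, Finset.prod_const, (hS q hq).2, smul_eq_mul, mul_one] at h1
    exact h1
  have hlt : LtD t.degree (f - g) := by
    rw [hdeg]
    exact LtD.prod_sub (prs k) hgq hfgq
  have hgle : LeD t.degree g := by
    rw [hdeg]
    exact LeD.prod (prs k) hgq
  have hfle : LeD t.degree f := by
    have : f = (f - g) + g := by ring
    rw [this]
    exact hlt.le.add hgle
  have hcoef : f.coeff t = g.coeff t := by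
    have h1 : (f - g).coeff t = 0 := by
      by_contra h
      exact lt_irrefl _ (hlt t (MvPolynomial.mem_support_iff.2 h))
    rw [MvPolynomial.coeff_sub] at h1
    exact sub_eq_zero.1 h1
  -- the coefficient of the leading form
  have hD : MvPolynomial.map (Int.castRingHom (ZMod p)) (dysP (univ : Finset (Fin k)) fun _ => c) =
      MvPolynomial.C (((-1) ^ c) ^ (prs k).card) * g := by
    unfold dysP
    rw [map_prod]
    rw [prod_offDiag, hg, map_pow, ← Finset.prod_const, ← Finset.prod_mul_distrib]
    apply Finset.prod_congr rfl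
    intro q _
    simp only [map_pow, map_sub, MvPolynomial.map_X, Prod.fst_swap, Prod.snd_swap, map_neg,
      map_one]
    rw [← mul_pow, two_mul c, pow_add, ← mul_assoc, ← mul_pow, ← mul_pow]
    congr 1
    ring
  have hgne : g.coeff t ≠ 0 := by
    intro h0
    have h1 := congrArg (MvPolynomial.coeff t) hD
    rw [MvPolynomial.coeff_map, MvPolynomial.coeff_C_mul, h0, mul_zero, ht, dyson] at h1
    have h2 : ((Nat.multinomial (univ : Finset (Fin k)) fun _ => c : ℕ) : ZMod p) = 0 := by
      simpa using h1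
    rw [ZMod.natCast_eq_zero_iff] at h2
    have h3 := Nat.multinomial_spec (univ : Finset (Fin k)) fun _ => c
    have h4 : p ∣ (∑ _i ∈ (univ : Finset (Fin k)), c).factorial := by
      rw [← h3]
      exact h2.mul_left _
    rw [hp.dvd_factorial] at h4
    simp only [Finset.sum_const, Finset.card_univ, Fintype.card_fin, smul_eq_mul] at h4
    omega
  have hfne : f.coeff t ≠ 0 := by rw [hcoef]; exact hgne
  have htot : f.totalDegree = t.degree := by
    apply le_antisymm
    · unfold MvPolynomial.totalDegree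
      apply Finset.sup_le
      intro m hm
      exact hfle m hm
    · exact MvPolynomial.le_totalDegree (MvPolynomial.mem_support_iff.2 hfne)
  have htlt : ∀ i, t i < ((univ : Finset (ZMod p))).card := by
    intro i
    rw [Finset.card_univ, ZMod.card]
    have h1 : t i = (k - 1) * c := by
      rw [ht, Finsupp.finsetSum_apply]
      simp only [Finset.sum_const, smul_eq_mul, Finset.card_erase_of_mem, Finset.mem_univ,
        Finset.card_univ, Fintype.card_fin]
      rw [Finset.sum_eq_single i]
      · simp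
      · intro j _ hj
        simp [hj]
      · intro h
        exact absurd (Finset.mem_univ i) h
    rw [h1]
    have h2 : (k - 1) * c ≤ k * c := Nat.mul_le_mul_right c (by omega)
    omega
  obtain ⟨a, -, ha⟩ := MvPolynomial.combinatorial_nullstellensatz_exists_eval_nonzero f t hfne htot
    (fun _ => univ) htlt
  refine ⟨a, fun i j hij hmem => ?_⟩
  have hq : (i, j) ∈ prs k := mem_prs.2 hij
  rw [hf, map_prod, Finset.prod_ne_zero_iff] at ha
  have h1 := ha (i, j) hq
  rw [map_prod, Finset.prod_ne_zero_iff] at h1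
  have h2 := h1 _ ((hS (i, j) hq).1 hmem)
  apply h2
  simp

end PGL
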