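import Pool.Agent.PGL.E10
import Pool.Agent.PGL.E11
import Pool.Agent.PGL.E14
import Pool.Agent.PGL.E16

/-! PGL / E17: a set of density more than `1 - 2/k` contains all differences of `k` points.

PROOF. (`ε ≤ 1` since `L u ≤ 1` and `2/k ≤ 1`.) `η' = ε / 16`, `θ = η' / 2`, `η₂ = ε η'² / (64 k²)`. `Q` from `structure_thm` with
`η = η₂`; `p₀` from `good_step` for `Q` with `η' / 2`; a prime `p ≥ p₀`, `p > 16 / ε`, and its `t`. `η₃ > 0` with
`p^k k² √(2 η₃) < θ^(k²) / 4`; `P` from `structure_thm`, `d = n₀!`, `H = n₀ d`. Weights `μ` from `weights` with `f = u - P`,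
`g = (P - Q)²`. For a tuple `m` and `i < j` let `y = m_j - m_i`. `m` is good if `∑_{|n|<p} g(y + n t) ≤ (ε/8) p η'²` for all
`i < j`. By Markov and `EM_two` the `μ`-probability of not good is at most
`k² · 4 p η₂ / ((ε/8) p η'²) = 32 k² η₂ / (ε η'²) ≤ 1/2`.
`bad_count`: for such `y` the set of the `r < p` with not (`θ ≤ P(y + r t)` and, if `r ≠ 0`, `θ ≤ P(y + (r - p) t)`) has at most
`(2/k - 3ε/8) p` elements: the number `B` of `r` with `Q(y + rt) < 2 η'` satisfies
`p (L Q - η'/2) ≤ ∑_r Q(y + rt) ≤ 2 η' B + (p - B)`, so `B ≤ p (1 - L Q + η') / (1 - 2 η') ≤ (2/k - ε/2) p`; at most `ε p / 8` of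
the numbers `|n| < p` have `|P - Q|(y + n t) > η'`; for the other `r`: `P(y + rt) ≥ Q - η' ≥ η'`,
`P(y + (r-p)t) ≥ Q(y + (r - p) t) - η' ≥ Q(y + rt) - η'/2 - η' ≥ η'/2`.
For a good `m` apply `clique` with `E i j` the image of the bad set in `ZMod p`, `c = ⌈(1/k - 3ε/16) p⌉₊` (`k c < p` as
`3 ε k p / 16 > k`; `|E| ≤ 2 c`): there is `a ∈ [0, p)^k` with `(a_j - a_i) mod p ∉ E i j`; the integer `a_j - a_i` is
`r` or (if `r ≠ 0`) `r - p` for `r = (a_j - a_i) mod p`, so `P(m_j - m_i + (a_j - a_i) t) ≥ θ` for all `i < j` and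
`∑_a PrP P e_a m ≥ θ^(k²)`, `e_a i j = (a_j - a_i) t`. So `∑_a EM μ (PrP P e_a) ≥ θ^(k²) / 2`, and by `replace`
(with `η = √(2 η₃)`; the offsets `n = a_j - a_i`, `|n| < p`) `∑_a EM μ (PrP u e_a) ≥ θ^(k²)/2 - p^k k² √(2 η₃) > 0`. So
`PrP u e_a m ≠ 0` for some `a, m`; `x_j = m_j + a_j t`. -/

set_option autoImplicit false

open Finset

noncomputable section

namespace PGL

theorem bad_count {P Q : ℚ → ℝ} (hP : ∀ x, 0 ≤ P x ∧ P x ≤ 1) (hQ : ∀ x, 0 ≤ Q x ∧ Q x ≤ 1) {ε α q : ℝ} (hε : 0 < ε)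
    (hε1 : ε ≤ 1) (hα : α ≤ 1) (hq : 1 - α + ε ≤ q) {p : ℕ} (hp : 0 < p) {t : ℚ}
    (h1 : ∀ y, |Q (y + p * t) - Q y| ≤ ε / 32) (h2 : ∀ y, |(∑ r ∈ range p, Q (y + r * t)) / p - q| ≤ ε / 32)
    {y : ℚ} (hy : ∑ n ∈ Ioo (-(p : ℤ)) p, (P (y + n * t) - Q (y + n * t)) ^ 2 ≤ ε / 8 * p * (ε / 16) ^ 2)
    (s : Finset ℕ) (hs : ∀ r ∈ s, r < p ∧
      ¬ (ε / 32 ≤ P (y + r * t) ∧ (r ≠ 0 → ε / 32 ≤ P (y + ((r : ℚ) - p) * t)))) :
    (s.card : ℝ) ≤ (α - 3 * ε / 8) * p := by
  classical
  have hp' : (0 : ℝ) < p := by exact_mod_cast hp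
  set B : Finset ℕ := (range p).filter (fun r : ℕ => Q (y + r * t) < ε / 8) with hB
  set C : Finset ℤ := (Ioo (-(p : ℤ)) p).filter
    (fun n => ε / 16 < |P (y + n * t) - Q (y + n * t)|) with hC
  -- the size of `B`
  have hBc : (B.card : ℝ) ≤ (α - ε / 2) * p := by
    have e1 : ∑ r ∈ range p, Q (y + r * t) ≤ B.card * (ε / 8) + (p - B.card) := by
      rw [← Finset.sum_filter_add_sum_filter_not (range p) (fun r : ℕ => Q (y + r * t) < ε / 8)]
      have e2 : ∑ r ∈ (range p).filter (fun r : ℕ => Q (y + r * t) < ε / 8), Q (y + r * t) ≤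
          B.card * (ε / 8) := by
        rw [← nsmul_eq_mul, ← Finset.sum_const, ← hB]
        refine Finset.sum_le_sum fun r hr => ?_
        rw [hB, Finset.mem_filter] at hr
        exact hr.2.le
      have e3 : ∑ r ∈ (range p).filter (fun r : ℕ => ¬ Q (y + r * t) < ε / 8), Q (y + r * t) ≤
          (p : ℝ) - B.card := by
        have e4 : (B.card : ℝ) + ((range p).filter (fun r : ℕ => ¬ Q (y + r * t) < ε / 8)).card = p := by
          have := Finset.card_filter_add_card_filter_not (s := range p) (fun r : ℕ => Q (y + r * t) < ε / 8)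
          rw [card_range] at this
          exact_mod_cast this
        calc ∑ r ∈ (range p).filter (fun r : ℕ => ¬ Q (y + r * t) < ε / 8), Q (y + r * t)
            ≤ ∑ r ∈ (range p).filter (fun r : ℕ => ¬ Q (y + r * t) < ε / 8), (1 : ℝ) :=
              Finset.sum_le_sum fun r _ => (hQ _).2
          _ = (p : ℝ) - B.card := by
              rw [Finset.sum_const, nsmul_eq_mul, mul_one]; linarith
      linarith
    have e5 := (abs_le.1 (h2 y)).1
    have e6 : p * (q - ε / 32) ≤ ∑ r ∈ range p, Q (y + r * t) := by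
      have : q - ε / 32 ≤ (∑ r ∈ range p, Q (y + r * t)) / p := by linarith
      rw [le_div_iff₀ hp'] at this
      linarith
    have e7 : (B.card : ℝ) * (1 - ε / 8) ≤ p * (1 - q + ε / 32) := by nlinarith
    have e8 : p * (1 - q + ε / 32) ≤ ((α - ε / 2) * p) * (1 - ε / 8) := by
      have e9 : 1 - q + ε / 32 ≤ (α - ε / 2) * (1 - ε / 8) := by nlinarith
      nlinarith
    have e10 : 0 < 1 - ε / 8 := by linarith
    exact le_of_mul_le_mul_right (e7.trans e8) e10
  have hCc : (C.card : ℝ) ≤ ε / 8 * p := by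
    have e1 : (C.card : ℝ) * (ε / 16) ^ 2 ≤ ∑ n ∈ Ioo (-(p : ℤ)) p, (P (y + n * t) - Q (y + n * t)) ^ 2 := by
      calc (C.card : ℝ) * (ε / 16) ^ 2 = ∑ n ∈ C, (ε / 16) ^ 2 := by rw [Finset.sum_const, nsmul_eq_mul]
        _ ≤ ∑ n ∈ C, (P (y + n * t) - Q (y + n * t)) ^ 2 := by
            refine Finset.sum_le_sum fun n hn => ?_
            rw [hC, Finset.mem_filter] at hn
            rw [← sq_abs (P (y + n * t) - Q (y + n * t))]
            exact pow_le_pow_left₀ (by linarith) hn.2.le 2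
        _ ≤ _ := Finset.sum_le_sum_of_subset_of_nonneg (Finset.filter_subset _ _)
            (fun _ _ _ => sq_nonneg _)
    have e2 : 0 < (ε / 16) ^ 2 := by positivity
    exact le_of_mul_le_mul_right (e1.trans hy) e2
  -- the map
  have hmap : ((s \ B).card : ℝ) ≤ C.card := by
    have : (s \ B).card ≤ C.card := by
      refine Finset.card_le_card_of_injOn
        (fun r : ℕ => if P (y + r * t) < ε / 32 then (r : ℤ) else (r : ℤ) - p) ?_ ?_
      · intro r hr
        have hr := Finset.mem_coe.1 hr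
        rw [Finset.mem_sdiff] at hr
        obtain ⟨hr1, hr2⟩ := hs r hr.1
        have hQr : ε / 8 ≤ Q (y + r * t) := by
          by_contra hcon
          exact hr.2 (by rw [hB, Finset.mem_filter]; exact ⟨Finset.mem_range.2 hr1, not_le.1 hcon⟩)
        rw [Finset.mem_coe, hC, Finset.mem_filter]
        dsimp only
        split_ifs with h
        · refine ⟨by rw [Finset.mem_Ioo]; constructor <;> omega, ?_⟩
          push_cast
          rw [abs_sub_comm]
          exact lt_of_lt_of_le (by linarith) (le_abs_self _)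
        · have h' : r ≠ 0 ∧ P (y + ((r : ℚ) - p) * t) < ε / 32 := by
            by_contra hcon
            apply hr2
            refine ⟨not_lt.1 h, fun h0 => ?_⟩
            by_contra h3
            exact hcon ⟨h0, not_le.1 h3⟩
          refine ⟨by rw [Finset.mem_Ioo]; constructor <;> omega, ?_⟩
          push_cast
          have h4 := (abs_le.1 (h1 (y + ((r : ℚ) - p) * t))).2
          have h5 : y + ((r : ℚ) - p) * t + p * t = y + r * t := by ring
          rw [h5] at h4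
          rw [abs_sub_comm]
          exact lt_of_lt_of_le (by linarith) (le_abs_self _)
      · intro r hr r' hr' hrr
        have hr1 := (hs r (Finset.mem_sdiff.1 (Finset.mem_coe.1 hr)).1).1
        have hr1' := (hs r' (Finset.mem_sdiff.1 (Finset.mem_coe.1 hr')).1).1
        dsimp only at hrr
        split_ifs at hrr <;> omega
    exact_mod_cast this
  have hcard : (s.card : ℝ) ≤ B.card + (s \ B).card := by
    have : s.card ≤ B.card + (s \ B).card := by
      rw [← Finset.card_inter_add_card_sdiff s B]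
      have := Finset.card_le_card (Finset.inter_subset_right (s₁ := s) (s₂ := B))
      omega
    exact_mod_cast this
  nlinarith

private theorem val_sub_cases {p : ℕ} [Fact p.Prime] (a b : ZMod p) :
    ((a - b).val : ℤ) = (a.val : ℤ) - b.val ∨
      ((a - b).val ≠ 0 ∧ ((a - b).val : ℤ) - p = (a.val : ℤ) - b.val) := by
  have : NeZero p := ⟨(Fact.out : p.Prime).ne_zero⟩
  have ha := ZMod.val_lt a
  have hb := ZMod.val_lt b
  rcases le_or_gt b.val a.val with h | h
  · left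
    rw [ZMod.val_sub h]
    omega
  · right
    have h1 : (a - b).val = p - (b.val - a.val) := by
      have h2 : a - b = ((p - (b.val - a.val) : ℕ) : ZMod p) := by
        rw [Nat.cast_sub (by omega), Nat.cast_sub h.le]
        simp
      rw [h2, ZMod.val_natCast, Nat.mod_eq_of_lt (by omega)]
    omega

/-- the clique step: for a good tuple there are shifts for which all values of `P` are large -/
private theorem clique_step {P Q : ℚ → ℝ} (hP : ∀ x, 0 ≤ P x ∧ P x ≤ 1) (hQ : ∀ x, 0 ≤ Q x ∧ Q x ≤ 1) {ε q : ℝ}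
    (hε : 0 < ε) (hε1 : ε ≤ 1) {k : ℕ} (hk : 2 ≤ k) (hq : 1 - 2 / k + ε ≤ q) {p : ℕ} (hp : p.Prime)
    (hpε : 16 / ε < p) {t : ℚ}
    (h1 : ∀ y, |Q (y + p * t) - Q y| ≤ ε / 32) (h2 : ∀ y, |(∑ r ∈ range p, Q (y + r * t)) / p - q| ≤ ε / 32)
    (m : Fin k → ℚ)
    (hm : ∀ i j, i < j → ∑ n ∈ Ioo (-(p : ℤ)) p, (P (m j - m i + n * t) - Q (m j - m i + n * t)) ^ 2 ≤
      ε / 8 * p * (ε / 16) ^ 2) :
    ∃ a ∈ Fintype.piFinset (fun _ : Fin k => range p), ∀ i j, i < j →
      ε / 32 ≤ P (m j - m i + ((a j : ℚ) - a i) * t) := by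
  classical
  have : Fact p.Prime := ⟨hp⟩
  have : NeZero p := ⟨hp.ne_zero⟩
  have hk0 : (0 : ℝ) < k := by exact_mod_cast (by omega : 0 < k)
  have hk2 : (2 : ℝ) ≤ k := by exact_mod_cast hk
  have hp0 : (0 : ℝ) < p := by exact_mod_cast hp.pos
  set s : Fin k → Fin k → Finset ℕ := fun i j => (range p).filter (fun r : ℕ =>
    ¬ (ε / 32 ≤ P (m j - m i + r * t) ∧ (r ≠ 0 → ε / 32 ≤ P (m j - m i + ((r : ℚ) - p) * t)))) with hs
  set c : ℕ := ⌈(1 / k - 3 * ε / 16) * p⌉₊ with hc
  have hsc : ∀ i j, i < j → ((s i j).card : ℝ) ≤ 2 * c := by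
    intro i j hij
    have e1 := bad_count (α := 2 / k) hP hQ hε hε1 (by rw [div_le_one hk0]; exact hk2) hq hp.pos h1 h2
      (hm i j hij) (s i j) (fun r hr => by
        rw [hs, Finset.mem_filter, Finset.mem_range] at hr
        exact hr)
    have e2 : (1 / k - 3 * ε / 16) * p ≤ c := Nat.le_ceil _
    have e3 : ((2 : ℝ) / k - 3 * ε / 8) * p = 2 * ((1 / k - 3 * ε / 16) * p) := by ring
    linarith
  have hkc : k * c < p := by
    rcases le_or_gt 0 ((1 / k - 3 * ε / 16) * p : ℝ) with h | h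
    · have e1 : (c : ℝ) < (1 / k - 3 * ε / 16) * p + 1 := Nat.ceil_lt_add_one h
      have e2 : (k : ℝ) * c < p := by
        have e3 : (k : ℝ) * ((1 / k - 3 * ε / 16) * p + 1) = p - k * (3 * ε / 16 * p - 1) := by
          field_simp
          ring
        have e4 : 1 < 3 * ε / 16 * p := by
          rw [div_lt_iff₀ hε] at hpε
          linarith
        have e5 : 0 < k * (3 * ε / 16 * p - 1) := mul_pos hk0 (by linarith)
        have e6 : (k : ℝ) * c < k * ((1 / k - 3 * ε / 16) * p + 1) := mul_lt_mul_of_pos_left e1 hk0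
        linarith
      exact_mod_cast e2
    · have : c = 0 := by rw [hc, Nat.ceil_eq_zero]; exact h.le
      rw [this, mul_zero]
      exact hp.pos
  obtain ⟨a, ha⟩ := clique p k c hkc (fun i j => (s i j).image (fun r : ℕ => (r : ZMod p))) (fun i j hij => by
    refine Finset.card_image_le.trans ?_
    exact_mod_cast hsc i j hij)
  refine ⟨fun i => (a i).val, ?_, ?_⟩
  · rw [Fintype.mem_piFinset]
    intro i
    exact Finset.mem_range.2 (ZMod.val_lt _)
  · intro i j hij
    have e1 : (a j - a i).val ∉ s i j := fun h => ha i j hij (by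
      rw [Finset.mem_image]
      exact ⟨_, h, ZMod.natCast_zmod_val _⟩)
    have e2 : ε / 32 ≤ P (m j - m i + (a j - a i).val * t) ∧ ((a j - a i).val ≠ 0 →
        ε / 32 ≤ P (m j - m i + (((a j - a i).val : ℚ) - p) * t)) := by
      by_contra hcon
      exact e1 (by
        rw [hs, Finset.mem_filter]
        exact ⟨Finset.mem_range.2 (ZMod.val_lt _), hcon⟩)
    rcases val_sub_cases (a j) (a i) with h | ⟨h0, h⟩
    · have h' : ((a j).val : ℚ) - (a i).val = (a j - a i).val := by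
        have := congrArg (fun z : ℤ => (z : ℚ)) h
        push_cast at this
        linarith
      rw [h']
      exact e2.1
    · have h' : ((a j).val : ℚ) - (a i).val = ((a j - a i).val : ℚ) - p := by
        have := congrArg (fun z : ℤ => (z : ℚ)) h
        push_cast at this
        linarith
      rw [h']
      exact e2.2 h0

private theorem EM_sum {k : ℕ} (μ : Fin k → Finset ℚ × (ℚ → ℝ)) {α : Type*} (s : Finset α)
    (F : α → (Fin k → ℚ) → ℝ) : EM μ (fun m => ∑ a ∈ s, F a m) = ∑ a ∈ s, EM μ (F a) := by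
  unfold EM
  rw [Finset.sum_comm]
  exact Finset.sum_congr rfl fun m _ => by rw [Finset.mul_sum]

private theorem EM_smul {k : ℕ} (μ : Fin k → Finset ℚ × (ℚ → ℝ)) (c : ℝ)
    (F : (Fin k → ℚ) → ℝ) : EM μ (fun m => c * F m) = c * EM μ F := by
  unfold EM
  rw [Finset.mul_sum]
  exact Finset.sum_congr rfl fun m _ => by ring

private theorem EM_mono {k : ℕ} (μ : Fin k → Finset ℚ × (ℚ → ℝ)) (hμ : ∀ j, IsW (μ j))
    {F G : (Fin k → ℚ) → ℝ} (h : ∀ m, F m ≤ G m) : EM μ F ≤ EM μ G := by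
  unfold EM
  refine Finset.sum_le_sum fun m hm => mul_le_mul_of_nonneg_left (h m) ?_
  exact Finset.prod_nonneg fun j _ => (hμ j).1 _ (Fintype.mem_piFinset.1 hm j)

theorem comb {L : (ℚ → ℝ) → ℝ} (hL : Erg L) {u : ℚ → ℝ} (hu : ∀ x, u x = 0 ∨ u x = 1) (k : ℕ) (hk : 2 ≤ k) (ε : ℝ)
    (hε : 0 < ε) (hLu : 1 - 2 / k + ε ≤ L u) : ∃ x : Fin k → ℚ, ∀ i j, i < j → u (x j - x i) = 1 := by
  classical
  have hk0 : (0 : ℝ) < k := by exact_mod_cast (by omega : 0 < k)
  have hk2 : (2 : ℝ) ≤ k := by exact_mod_cast hk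
  have hu01 : ∀ x, 0 ≤ u x ∧ u x ≤ 1 := fun x => by rcases hu x with h | h <;> rw [h] <;> norm_num
  have hLu1 : L u ≤ 1 := by
    have := hL.toIM.abs_le (f := u) (C := 1) (fun x => abs_le.2 ⟨by linarith [(hu01 x).1], (hu01 x).2⟩)
    exact (abs_le.1 this).2
  have hε1 : ε ≤ 1 := by
    have : (2 : ℝ) / k ≤ 1 := by rw [div_le_one hk0]; exact hk2
    linarith
  set η₂ : ℝ := ε * (ε / 16) ^ 2 / (64 * k ^ 2) with hη₂
  have hη₂0 : 0 < η₂ := by positivity
  obtain ⟨Q, hQ, hQ01, hLQ, hst⟩ := structure_thm hL hu01 η₂ hη₂0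
  obtain ⟨p₀, hp₀⟩ := good_step hL.toIM hQ (ε / 32) (by positivity)
  obtain ⟨p, hpp, hp⟩ := Nat.exists_infinite_primes (max p₀ (⌊16 / ε⌋₊ + 1))
  have hp1 : p₀ ≤ p := (le_max_left _ _).trans hpp
  have hp2 : 16 / ε < p := Nat.lt_of_floor_lt ((le_max_right _ _).trans hpp)
  have hp0 : (0 : ℝ) < p := by exact_mod_cast hp.pos
  obtain ⟨t, ht1, ht2⟩ := hp₀ p hp hp1
  set θ : ℝ := ε / 32 with hθ
  have hθ0 : 0 < θ := by positivity
  have hθ1 : θ ≤ 1 := by rw [hθ]; linarith
  set δ : ℝ := θ ^ (k ^ 2) / (4 * (p : ℝ) ^ k * k ^ 2) with hδ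
  have hδ0 : 0 < δ := by positivity
  obtain ⟨P, hP01, hPQ, n₀, hn₀, hbox⟩ := hst (δ ^ 2 / 2) (by positivity)
  have hsq : √(2 * (δ ^ 2 / 2)) = δ := by
    rw [mul_div_cancel₀ _ (two_ne_zero)]
    exact Real.sqrt_sq hδ0.le
  have hg : Bdf (fun x => (P x - Q x) ^ 2) := by
    refine Bdf.of_le (C := 1) fun x => ?_
    rw [abs_of_nonneg (sq_nonneg _)]
    have h1 := hP01 x
    have h2 := hQ01 x
    nlinarith
  obtain ⟨μ, hμ, hW⟩ := weights hL.toIM (f := fun x => u x - P x) (g := fun x => (P x - Q x) ^ 2)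
    (fun x => abs_le.2 ⟨by linarith [(hu01 x).1, (hP01 x).2], by linarith [(hu01 x).2, (hP01 x).1]⟩) hg
    (fun x => sq_nonneg _) (d := Nat.factorial n₀) (H := n₀ * Nat.factorial n₀) (Nat.factorial_pos _)
    (Nat.mul_pos hn₀ (Nat.factorial_pos _)) hη₂0 (η₃ := δ ^ 2 / 2) (by positivity) hPQ
    (fun b hb => hbox _ _ (dvd_refl _) (Nat.factorial_pos _) le_rfl b hb) p hp.pos t k
  rw [hsq] at hW
  set K : ℝ := ε / 8 * p * (ε / 16) ^ 2 with hK
  have hK0 : 0 < K := by positivity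
  set S : Fin k → Fin k → (Fin k → ℚ) → ℝ := fun i j m =>
    ∑ n ∈ Ioo (-(p : ℤ)) p, (P (m j - m i + n * t) - Q (m j - m i + n * t)) ^ 2 with hS
  have hS0 : ∀ i j m, 0 ≤ S i j m := fun i j m => Finset.sum_nonneg fun _ _ => sq_nonneg _
  set pairs : Finset (Fin k × Fin k) := (univ : Finset (Fin k × Fin k)).filter (fun q => q.1 < q.2) with hpairs
  have hpc : (pairs.card : ℝ) ≤ k ^ 2 := by
    have : pairs.card ≤ k ^ 2 := by
      refine (Finset.card_filter_le _ _).trans ?_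
      rw [Finset.card_univ, Fintype.card_prod, Fintype.card_fin, sq]
    exact_mod_cast this
  -- expectation of `S`
  have hES : ∀ i j : Fin k, i < j → EM μ (S i j) ≤ 4 * p * η₂ := by
    intro i j hij
    have e1 : EM μ (S i j) = ∑ x ∈ (μ i).1, (μ i).2 x * ∑ y ∈ (μ j).1, (μ j).2 y *
        (∑ n ∈ Ioo (-(p : ℤ)) p, (P (y - x + n * t) - Q (y - x + n * t)) ^ 2) :=
      EM_two μ hμ hij.ne (fun x y => ∑ n ∈ Ioo (-(p : ℤ)) p, (P (y - x + n * t) - Q (y - x + n * t)) ^ 2)
    rw [e1]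
    calc _ ≤ ∑ x ∈ (μ i).1, (μ i).2 x * (4 * p * η₂) := by
          refine Finset.sum_le_sum fun x hx => mul_le_mul_of_nonneg_left ?_ ((hμ i).1 x hx)
          exact (hW i j hij).2 x hx
      _ = 4 * p * η₂ := by rw [← Finset.sum_mul, (hμ i).2, one_mul]
  set G : (Fin k → ℚ) → ℝ := fun m => if ∀ i j, i < j → S i j m ≤ K then 1 else 0 with hG
  have hEG : 1 / 2 ≤ EM μ G := by
    have e1 : ∀ m, 1 - ∑ q ∈ pairs, (1 / K) * S q.1 q.2 m ≤ G m := by
      intro m
      have e0 : 0 ≤ ∑ q ∈ pairs, (1 / K) * S q.1 q.2 m :=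
        Finset.sum_nonneg fun q _ => mul_nonneg (by positivity) (hS0 _ _ _)
      simp only [hG]
      split_ifs with h
      · linarith
      · push Not at h
        obtain ⟨i, j, hij, hlt⟩ := h
        have e2 : (1 / K) * S i j m ≤ ∑ q ∈ pairs, (1 / K) * S q.1 q.2 m :=
          Finset.single_le_sum (f := fun q : Fin k × Fin k => (1 / K) * S q.1 q.2 m)
            (fun q _ => mul_nonneg (by positivity) (hS0 _ _ _))
            (show (i, j) ∈ pairs by rw [hpairs, Finset.mem_filter]; exact ⟨Finset.mem_univ _, hij⟩)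
        have e3 : 1 ≤ (1 / K) * S i j m := by
          rw [one_div, inv_mul_eq_div, one_le_div hK0]
          exact hlt.le
        linarith
    have e2 := EM_mono μ hμ e1
    have e3 : EM μ (fun m => 1 - ∑ q ∈ pairs, (1 / K) * S q.1 q.2 m) =
        1 - ∑ q ∈ pairs, (1 / K) * EM μ (S q.1 q.2) := by
      have e4 : EM μ (fun m => 1 - ∑ q ∈ pairs, (1 / K) * S q.1 q.2 m) =
          EM μ (fun _ => 1) - EM μ (fun m => ∑ q ∈ pairs, (1 / K) * S q.1 q.2 m) := by
        unfold EM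
        rw [← Finset.sum_sub_distrib]
        exact Finset.sum_congr rfl fun m _ => by ring
      rw [e4, EM_one μ hμ, EM_sum μ pairs (fun q m => (1 / K) * S q.1 q.2 m)]
      congr 1
      exact Finset.sum_congr rfl fun q _ => EM_smul μ (1 / K) (S q.1 q.2)
    rw [e3] at e2
    have e5 : ∑ q ∈ pairs, (1 / K) * EM μ (S q.1 q.2) ≤ 1 / 2 := by
      calc ∑ q ∈ pairs, (1 / K) * EM μ (S q.1 q.2) ≤ ∑ q ∈ pairs, (1 / K) * (4 * p * η₂) := by
            refine Finset.sum_le_sum fun q hq => ?_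
            rw [hpairs, Finset.mem_filter] at hq
            exact mul_le_mul_of_nonneg_left (hES _ _ hq.2) (by positivity)
        _ = pairs.card * ((1 / K) * (4 * p * η₂)) := by rw [Finset.sum_const, nsmul_eq_mul]
        _ ≤ k ^ 2 * ((1 / K) * (4 * p * η₂)) := by
            refine mul_le_mul_of_nonneg_right hpc (by positivity)
        _ = 1 / 2 := by
            rw [hK, hη₂]
            field_simp
            ring
    linarith
  -- the sum over the shifts
  set A : Finset (Fin k → ℕ) := Fintype.piFinset (fun _ : Fin k => range p) with hA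
  have hAc : (A.card : ℝ) = (p : ℝ) ^ k := by
    rw [hA, Fintype.card_piFinset]
    simp
  set e : (Fin k → ℕ) → Fin k → Fin k → ℚ := fun a i j => ((a j : ℚ) - a i) * t with he
  have hPr0 : ∀ a m, 0 ≤ PrP P (e a) m := fun a m => Finset.prod_nonneg fun q _ => (hP01 _).1
  have hsum : θ ^ (k ^ 2) / 2 ≤ ∑ a ∈ A, EM μ (PrP P (e a)) := by
    rw [← EM_sum μ A (fun a => PrP P (e a))]
    have e1 : ∀ m, θ ^ (k ^ 2) * G m ≤ ∑ a ∈ A, PrP P (e a) m := by
      intro m
      have e0 : 0 ≤ ∑ a ∈ A, PrP P (e a) m := Finset.sum_nonneg fun a _ => hPr0 a m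
      simp only [hG]
      split_ifs with h
      · rw [mul_one]
        obtain ⟨a, haA, ha⟩ := clique_step hP01 hQ01 hε hε1 hk (q := L Q) (by rw [hLQ]; exact hLu) hp hp2
          ht1 ht2 m (fun i j hij => h i j hij)
        have e2 : θ ^ (k ^ 2) ≤ PrP P (e a) m := by
          calc θ ^ (k ^ 2) ≤ θ ^ pairs.card := by
                refine pow_le_pow_of_le_one hθ0.le hθ1 ?_
                exact_mod_cast hpc
            _ = ∏ q ∈ pairs, θ := by rw [Finset.prod_const]
            _ ≤ PrP P (e a) m := by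
                unfold PrP
                refine Finset.prod_le_prod (fun _ _ => hθ0.le) fun q hq => ?_
                rw [hpairs, Finset.mem_filter] at hq
                exact ha _ _ hq.2
        exact e2.trans (Finset.single_le_sum (f := fun a => PrP P (e a) m) (fun a _ => hPr0 a m) haA)
      · rw [mul_zero]
        exact e0
    have e2 := EM_mono μ hμ e1
    rw [EM_smul μ (θ ^ (k ^ 2)) G] at e2
    have e3 : 0 < θ ^ (k ^ 2) := by positivity
    nlinarith
  have hrep : ∀ a ∈ A, EM μ (PrP P (e a)) - k ^ 2 * δ ≤ EM μ (PrP u (e a)) := by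
    intro a ha
    have ha' : ∀ i, a i < p := fun i => Finset.mem_range.1 (Fintype.mem_piFinset.1 ha i)
    have e1 := replace μ hμ u P (fun x => abs_le.2 ⟨by linarith [(hu01 x).1], (hu01 x).2⟩)
      (fun x => abs_le.2 ⟨by linarith [(hP01 x).1], (hP01 x).2⟩) (e a) δ hδ0.le (by
        intro i j hij b₁ b₂ hb₁ hb₂
        have e2 := (hW i j hij).1 ((a j : ℤ) - a i) (by
          rw [Finset.mem_Ioo]
          have := ha' i
          have := ha' j
          constructor <;> omega) b₁ b₂ hb₁ hb₂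
        push_cast at e2
        exact e2)
    linarith [(abs_le.1 e1).1]
  have hpos : 0 < ∑ a ∈ A, EM μ (PrP u (e a)) := by
    have e1 : ∑ a ∈ A, (EM μ (PrP P (e a)) - k ^ 2 * δ) ≤ ∑ a ∈ A, EM μ (PrP u (e a)) :=
      Finset.sum_le_sum hrep
    rw [Finset.sum_sub_distrib, Finset.sum_const, nsmul_eq_mul, hAc] at e1
    have e2 : (p : ℝ) ^ k * (k ^ 2 * δ) = θ ^ (k ^ 2) / 4 := by
      rw [hδ]
      field_simp
    have e3 : 0 < θ ^ (k ^ 2) := by positivity
    linarith
  obtain ⟨a, -, ha⟩ : ∃ a ∈ A, EM μ (PrP u (e a)) ≠ 0 := by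
    by_contra hcon
    push Not at hcon
    rw [Finset.sum_eq_zero hcon] at hpos
    exact lt_irrefl _ hpos
  obtain ⟨m, hm⟩ : ∃ m, PrP u (e a) m ≠ 0 := by
    by_contra hcon
    push Not at hcon
    apply ha
    unfold EM
    exact Finset.sum_eq_zero fun m _ => by rw [hcon m, mul_zero]
  refine ⟨fun i => m i + a i * t, fun i j hij => ?_⟩
  have e1 : u (m j - m i + e a i j) ≠ 0 := by
    intro h0
    apply hm
    unfold PrP
    exact Finset.prod_eq_zero (i := (i, j)) (by rw [Finset.mem_filter]; exact ⟨Finset.mem_univ _, hij⟩) h0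
  have e2 : m j + a j * t - (m i + a i * t) = m j - m i + e a i j := by
    simp only [he]
    ring
  rw [e2]
  exact (hu _).resolve_left e1

end PGL
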