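import Pool.Agent.PGL.E1

/-! PGL / E3: ergodic means exist (Krein-Milman).

PROOF. Let `K` be the set of the `L : (ℚ → ℝ) → ℝ` with `IM L` and `L f = 0` for all unbounded `f`. It is nonempty
(change `L₀` on unbounded functions), convex, and compact in the product topology: it is closed (every condition
is a closed condition on finitely many values) and contained in the product of the intervals `[-C_f, C_f]`, `C_f` a bound
of `|f|` (`0` if `f` is unbounded), `isCompact_univ_pi`. Let `F` be the set of the `L ∈ K` with maximal `L u` (attained,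
`IsCompact.exists_isMaxOn`): compact nonempty, so it has an extreme point `L` (`IsCompact.extremePoints_nonempty`),
which is an extreme point of `K` (`F` is an extreme subset: if `L = s L₁ + t L₂` has maximal value at `u` then so have
`L₁, L₂`). Let `Λ` be as in `Erg`, `t = Λ 1 ∈ [0, 1]`; we may change `Λ` to `0` on unbounded functions. If `t = 0` then
`Λ f = 0` (`PF.abs_le`). If `t = 1` then `L - Λ` is positive with value `0` at `1`, so `Λ = L`. Otherwise
`L = t (Λ / t) + (1 - t) ((L - Λ) / (1 - t))` with both in `K`, so `Λ / t = L`. -/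

set_option autoImplicit false

open Finset

noncomputable section

namespace PGL

open Classical in
/-- the normalised restriction to the bounded functions -/
def nrm3 (Θ : (ℚ → ℝ) → ℝ) : (ℚ → ℝ) → ℝ := fun f => if Bdf f then Θ f / Θ (fun _ => 1) else 0

/-- the compact convex set of the invariant means vanishing on the unbounded functions -/
def K3 : Set ((ℚ → ℝ) → ℝ) := {L | IM L ∧ ∀ f, ¬ Bdf f → L f = 0}

theorem nrm3_of {Θ : (ℚ → ℝ) → ℝ} {f : ℚ → ℝ} (hf : Bdf f) : nrm3 Θ f = Θ f / Θ (fun _ => 1) := by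
  unfold nrm3
  rw [if_pos hf]

theorem nrm3_not {Θ : (ℚ → ℝ) → ℝ} {f : ℚ → ℝ} (hf : ¬ Bdf f) : nrm3 Θ f = 0 := by
  unfold nrm3
  rw [if_neg hf]

theorem Bdf.cmul {f : ℚ → ℝ} (hf : Bdf f) (c : ℝ) : Bdf (fun x => c * f x) :=
  (Bdf.const c).mul hf

theorem nrm3_mem {Θ : (ℚ → ℝ) → ℝ} (hΘ : PF Θ) (h1 : 0 < Θ (fun _ => 1)) : nrm3 Θ ∈ K3 := by
  refine ⟨⟨⟨?_, ?_, ?_, ?_⟩, ?_⟩, fun f hf => nrm3_not hf⟩
  · intro f g hf hg
    rw [nrm3_of hf, nrm3_of hg, nrm3_of (hf.add hg), hΘ.add f g hf hg, add_div]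
  · intro c f hf
    rw [nrm3_of hf, nrm3_of (hf.cmul c), hΘ.smul c f hf, mul_div_assoc]
  · intro f hf hp
    rw [nrm3_of hf]
    exact div_nonneg (hΘ.pos f hf hp) h1.le
  · intro f v hf
    rw [nrm3_of hf, nrm3_of (hf.shift v), hΘ.inv f v hf]
  · rw [nrm3_of (Bdf.const 1)]
    exact div_self h1.ne'

theorem isClosed_K3 : IsClosed K3 := by
  have e : K3 = ({L | ∀ f g, Bdf f → Bdf g → L (fun x => f x + g x) = L f + L g} ∩
      {L | ∀ (c : ℝ) f, Bdf f → L (fun x => c * f x) = c * L f}) ∩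
      ({L | ∀ f, Bdf f → (∀ x, 0 ≤ f x) → 0 ≤ L f} ∩
      {L | ∀ f v, Bdf f → L (fun x => f (x + v)) = L f}) ∩
      ({L | L (fun _ => 1) = 1} ∩ {L | ∀ f, ¬ Bdf f → L f = 0}) := by
    ext L
    constructor
    · intro h
      exact ⟨⟨⟨h.1.add, h.1.smul⟩, ⟨h.1.pos, h.1.inv⟩⟩, ⟨h.1.one, h.2⟩⟩
    · rintro ⟨⟨⟨a, b⟩, ⟨c, d⟩⟩, ⟨e, f⟩⟩
      exact ⟨⟨⟨a, b, c, d⟩, e⟩, f⟩
  rw [e]
  refine IsClosed.inter (IsClosed.inter (IsClosed.inter ?_ ?_) (IsClosed.inter ?_ ?_)) (IsClosed.inter ?_ ?_)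
  · simp only [Set.ofPred_forall]
    refine isClosed_iInter fun f => isClosed_iInter fun g => isClosed_iInter fun _ => isClosed_iInter fun _ => ?_
    have h1 : Continuous fun x : (ℚ → ℝ) → ℝ => x f + x g := (continuous_apply f).add (continuous_apply g)
    exact isClosed_eq (continuous_apply _) h1
  · simp only [Set.ofPred_forall]
    refine isClosed_iInter fun c => isClosed_iInter fun f => isClosed_iInter fun _ => ?_
    exact isClosed_eq (continuous_apply _) (continuous_const.mul (continuous_apply _))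
  · simp only [Set.ofPred_forall]
    refine isClosed_iInter fun f => isClosed_iInter fun _ => isClosed_iInter fun _ => ?_
    exact isClosed_le continuous_const (continuous_apply _)
  · simp only [Set.ofPred_forall]
    refine isClosed_iInter fun f => isClosed_iInter fun v => isClosed_iInter fun _ => ?_
    exact isClosed_eq (continuous_apply _) (continuous_apply _)
  · exact isClosed_eq (continuous_apply _) continuous_const
  · simp only [Set.ofPred_forall]
    refine isClosed_iInter fun f => isClosed_iInter fun _ => ?_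
    exact isClosed_eq (continuous_apply _) continuous_const

theorem isCompact_K3 : IsCompact K3 := by
  classical
  have hC : ∀ f : ℚ → ℝ, ∃ C : ℝ, 0 ≤ C ∧ (Bdf f → ∀ x, |f x| ≤ C) := by
    intro f
    by_cases hf : Bdf f
    · obtain ⟨C, hC⟩ := hf
      exact ⟨C, (abs_nonneg _).trans (hC 0), fun _ => hC⟩
    · exact ⟨0, le_rfl, fun h => absurd h hf⟩
  choose C hC0 hC using hC
  refine IsCompact.of_isClosed_subset
    (isCompact_univ_pi fun f : ℚ → ℝ => (isCompact_Icc : IsCompact (Set.Icc (- C f) (C f)))) isClosed_K3 ?_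
  intro L hL f _
  by_cases hf : Bdf f
  · exact abs_le.1 (hL.1.abs_le (hC f hf))
  · rw [hL.2 f hf]
    exact ⟨by linarith [hC0 f], hC0 f⟩

theorem exists_erg (u : ℚ → ℝ) (hu : Bdf u) (L₀ : (ℚ → ℝ) → ℝ) (h : IM L₀) : ∃ L, Erg L ∧ L₀ u ≤ L u := by
  have h01 : 0 < L₀ (fun _ => 1) := by rw [h.one]; exact one_pos
  have hmem : nrm3 L₀ ∈ K3 := nrm3_mem h.toPF h01
  obtain ⟨Lm, hLm, hmax⟩ := isCompact_K3.exists_isMaxOn ⟨_, hmem⟩
    (f := fun L : (ℚ → ℝ) → ℝ => L u) (continuous_apply u).continuousOn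
  let F : Set ((ℚ → ℝ) → ℝ) := K3 ∩ {L | Lm u ≤ L u}
  have hFc : IsCompact F :=
    isCompact_K3.inter_right (isClosed_le continuous_const (continuous_apply u))
  obtain ⟨L, hL⟩ := hFc.extremePoints_nonempty ⟨Lm, hLm, le_refl (Lm u)⟩
  have hLK : L ∈ K3 := hL.1.1
  have hLu : Lm u ≤ L u := hL.1.2
  refine ⟨L, ⟨hLK.1, ?_⟩, ?_⟩
  · intro Λ hΛ hd f hf
    have ht0 : 0 ≤ Λ (fun _ => 1) := hΛ.pos _ (Bdf.const 1) fun _ => zero_le_one
    have ht1 : Λ (fun _ => 1) ≤ 1 := by
      have := hd (fun _ => 1) (Bdf.const 1) fun _ => zero_le_one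
      rwa [hLK.1.one] at this
    -- the complementary functional
    let Θ : (ℚ → ℝ) → ℝ := fun g => L g - Λ g
    have hΘ : PF Θ := by
      refine ⟨?_, ?_, ?_, ?_⟩
      · intro a b ha hb
        change L _ - Λ _ = (L a - Λ a) + (L b - Λ b)
        rw [hLK.1.add a b ha hb, hΛ.add a b ha hb]
        ring
      · intro c a ha
        change L _ - Λ _ = c * (L a - Λ a)
        rw [hLK.1.smul c a ha, hΛ.smul c a ha]
        ring
      · intro a ha hp
        exact sub_nonneg.2 (hd a ha hp)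
      · intro a v ha
        change L _ - Λ _ = L a - Λ a
        rw [hLK.1.inv a v ha, hΛ.inv a v ha]
    have hΘ1 : Θ (fun _ => 1) = 1 - Λ (fun _ => 1) := by
      change L _ - Λ _ = _
      rw [hLK.1.one]
    obtain ⟨C, hC⟩ := hf
    rcases ht0.eq_or_lt with e0 | h0
    · have := hΛ.abs_le hC
      rw [← e0, mul_zero] at this
      rw [← e0, zero_mul]
      exact abs_nonpos_iff.1 this
    rcases ht1.eq_or_lt with e1 | h1
    · have := hΘ.abs_le hC
      rw [hΘ1, e1, sub_self, mul_zero] at this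
      have h2 : L f - Λ f = 0 := abs_nonpos_iff.1 this
      rw [e1]
      linarith
    have hf : Bdf f := ⟨C, hC⟩
    have hΘ1p : 0 < Θ (fun _ => 1) := by rw [hΘ1]; linarith
    have m1 : nrm3 Λ ∈ K3 := nrm3_mem hΛ h0
    have m2 : nrm3 Θ ∈ K3 := nrm3_mem hΘ hΘ1p
    have hcomb : Λ (fun _ => 1) • nrm3 Λ + Θ (fun _ => 1) • nrm3 Θ = L := by
      funext g
      change Λ (fun _ => 1) * nrm3 Λ g + Θ (fun _ => 1) * nrm3 Θ g = L g
      by_cases hg : Bdf g
      · rw [nrm3_of hg, nrm3_of hg, mul_div_cancel₀ _ h0.ne', mul_div_cancel₀ _ hΘ1p.ne']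
        change Λ g + (L g - Λ g) = L g
        ring
      · rw [nrm3_not hg, nrm3_not hg, hLK.2 g hg]
        ring
    have u1 : nrm3 Λ u ≤ Lm u := hmax m1
    have u2 : nrm3 Θ u ≤ Lm u := hmax m2
    have hcu : Λ (fun _ => 1) * nrm3 Λ u + Θ (fun _ => 1) * nrm3 Θ u = L u := congrFun hcomb u
    rw [hΘ1] at hcu
    have v1 : Lm u ≤ nrm3 Λ u := by
      have h3 : (1 - Λ (fun _ => 1)) * nrm3 Θ u ≤ (1 - Λ (fun _ => 1)) * Lm u :=
        mul_le_mul_of_nonneg_left u2 (by linarith)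
      have h4 : Λ (fun _ => 1) * Lm u ≤ Λ (fun _ => 1) * nrm3 Λ u := by nlinarith
      exact le_of_mul_le_mul_left h4 h0
    have v2 : Lm u ≤ nrm3 Θ u := by
      have h3 : Λ (fun _ => 1) * nrm3 Λ u ≤ Λ (fun _ => 1) * Lm u :=
        mul_le_mul_of_nonneg_left u1 ht0
      have h4 : (1 - Λ (fun _ => 1)) * Lm u ≤ (1 - Λ (fun _ => 1)) * nrm3 Θ u := by nlinarith
      exact le_of_mul_le_mul_left h4 (by linarith)
    have hseg : L ∈ openSegment ℝ (nrm3 Λ) (nrm3 Θ) :=
      ⟨Λ (fun _ => 1), Θ (fun _ => 1), h0, hΘ1p, by rw [hΘ1]; ring, hcomb⟩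
    have heq : nrm3 Λ = L := hL.2 ⟨m1, v1⟩ ⟨m2, v2⟩ hseg
    have h5 := congrFun heq f
    rw [nrm3_of hf, div_eq_iff h0.ne'] at h5
    rw [h5, mul_comm]
  · have h6 : nrm3 L₀ u ≤ Lm u := hmax hmem
    rw [nrm3_of hu, h.one, div_one] at h6
    exact h6.trans hLu

end PGL
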