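import Pool.Agent.PGL.E1

/-! PGL / E2: an invariant mean which sees the density of an open set; ultralimits.

PROOFS. `exists_ulim`: the limit along `Filter.hyperfilter ℕ` (for a bounded sequence the pushforward ultrafilter lies in
a compact interval, so it converges, `IsCompact.ultrafilter_le_nhds`; `U a = limUnder` or a chosen limit, `0` for
unbounded `a`).
`exists_mean`: for every `j` choose `T_j ≥ j` with `c T_j ≤ vol (O ∩ [0, T_j])`, and then `m_j`, divisible by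
`(j + 1)!`, such that with `n_j = ⌊m_j T_j⌋₊` the number of `1 ≤ i ≤ n_j` with `i / m_j ∈ O` is at least
`(c T_j - 1 / (j + 1)) m_j`: `riemann_open` (the measure of an open set is approximated from below by that of finitely
many intervals; an interval of length `ℓ` contains at least `m ℓ - 1` points of `ℤ / m`). Put
`L f = U (j ↦ (1 / n_j) ∑_{1 ≤ i ≤ n_j} f(i / m_j))` for bounded `f`. Invariance under `v ∈ ℚ`: for large `j`
`v m_j` is an integer, so the two averages differ by at most `2 C |v| m_j / n_j → 0` (`n_j ≥ m_j T_j - 1`,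
`T_j → ∞`). `L u ≥ c` since `(c T_j - 1/(j+1)) m_j / n_j ≥ c - 1 / ((j + 1) T_j) - ...`. -/

set_option autoImplicit false

open Finset MeasureTheory Filter

noncomputable section

namespace PGL

/-- ultralimits of bounded real sequences -/
theorem exists_ulim : ∃ U : (ℕ → ℝ) → ℝ,
    (∀ a b : ℕ → ℝ, (∃ C, ∀ n, |a n| ≤ C) → (∃ C, ∀ n, |b n| ≤ C) → U (fun n => a n + b n) = U a + U b) ∧
    (∀ (c : ℝ) (a : ℕ → ℝ), (∃ C, ∀ n, |a n| ≤ C) → U (fun n => c * a n) = c * U a) ∧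
    (∀ a b : ℕ → ℝ, (∃ C, ∀ n, |a n| ≤ C) → (∃ C, ∀ n, |b n| ≤ C) → (∀ᶠ n in atTop, a n ≤ b n) → U a ≤ U b) ∧
    (∀ (a : ℕ → ℝ) (l : ℝ), Tendsto a atTop (nhds l) → U a = l) := by
  have hlim : ∀ a : ℕ → ℝ, (∃ C, ∀ n, |a n| ≤ C) →
      ∃ l, Tendsto a (hyperfilter ℕ : Filter ℕ) (nhds l) := by
    rintro a ⟨C, hC⟩
    have h1 : ((Ultrafilter.map a (hyperfilter ℕ) : Ultrafilter ℝ) : Filter ℝ) ≤
        Filter.principal (Set.Icc (-C) C) := by
      rw [Filter.le_principal_iff]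
      rw [Ultrafilter.mem_coe, Ultrafilter.mem_map]
      have : a ⁻¹' (Set.Icc (-C) C) = Set.univ := by
        ext n
        simp only [Set.mem_preimage, Set.mem_Icc, Set.mem_univ, iff_true]
        exact abs_le.mp (hC n)
      rw [this]
      exact Filter.univ_mem
    obtain ⟨l, _, hl⟩ := isCompact_Icc.ultrafilter_le_nhds _ h1
    exact ⟨l, hl⟩
  refine ⟨fun a => limUnder (hyperfilter ℕ : Filter ℕ) a, ?_, ?_, ?_, ?_⟩
  · intro a b ha hb
    obtain ⟨x, hx⟩ := hlim a ha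
    obtain ⟨y, hy⟩ := hlim b hb
    show limUnder _ _ = limUnder _ _ + limUnder _ _
    rw [hx.limUnder_eq, hy.limUnder_eq, (hx.add hy).limUnder_eq]
  · intro c a ha
    obtain ⟨x, hx⟩ := hlim a ha
    show limUnder _ _ = c * limUnder _ _
    rw [hx.limUnder_eq, (hx.const_mul c).limUnder_eq]
  · intro a b ha hb hab
    obtain ⟨x, hx⟩ := hlim a ha
    obtain ⟨y, hy⟩ := hlim b hb
    show limUnder _ _ ≤ limUnder _ _
    rw [hx.limUnder_eq, hy.limUnder_eq]
    exact le_of_tendsto_of_tendsto hx hy (Nat.hyperfilter_le_atTop hab)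
  · intro a l hl
    show limUnder _ _ = l
    exact (hl.mono_left Nat.hyperfilter_le_atTop).limUnder_eq

/-- the points of `ℤ / m` in an open set -/
theorem riemann_open (O : Set ℝ) (hO : IsOpen O) (T η : ℝ) (hT : 0 < T) (hη : 0 < η) : ∃ m₀ : ℕ, ∀ m : ℕ, m₀ ≤ m →
    ∃ s : Finset ℕ, (∀ i ∈ s, 1 ≤ i ∧ i ≤ ⌊m * T⌋₊ ∧ ((i : ℝ) / m) ∈ O) ∧
      ((volume (O ∩ Set.Icc 0 T)).toReal - η) * m ≤ s.card := by
  classical
  have hvol : volume (O ∩ Set.Icc 0 T) = volume (O ∩ Set.Ioo 0 T) :=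
    measure_congr ((ae_eq_refl O).inter Ioo_ae_eq_Icc.symm)
  rw [hvol]
  have hfin : volume (O ∩ Set.Ioo 0 T) ≠ ⊤ := by
    apply ne_top_of_le_ne_top _ (measure_mono Set.inter_subset_right)
    rw [Real.volume_Ioo]
    exact ENNReal.ofReal_ne_top
  set V : ℝ := (volume (O ∩ Set.Ioo 0 T)).toReal with hV
  by_cases hneg : V - η < 0
  · refine ⟨0, fun m _ => ⟨∅, by simp, ?_⟩⟩
    rw [Finset.card_empty, Nat.cast_zero]
    exact mul_nonpos_of_nonpos_of_nonneg hneg.le (Nat.cast_nonneg _)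
  have hpos : 0 ≤ V - η := not_lt.mp hneg
  have hopen : IsOpen (O ∩ Set.Ioo 0 T) := hO.inter isOpen_Ioo
  have hlt : ENNReal.ofReal (V - η) < volume (O ∩ Set.Ioo 0 T) := by
    rw [ENNReal.ofReal_lt_iff_lt_toReal hpos hfin]
    linarith
  obtain ⟨K, hKU, hK, hlt2⟩ := hopen.exists_lt_isCompact hlt
  obtain ⟨δ, hδ, hthick⟩ := hK.exists_thickening_subset_open hopen hKU
  obtain ⟨m₀, hm₀⟩ := exists_nat_gt (1 / δ)
  refine ⟨m₀ + 1, fun m hm => ?_⟩
  have hm0 : (0 : ℝ) < m := by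
    have : 0 < m := by omega
    exact_mod_cast this
  have hmδ : 1 / (m : ℝ) < δ := by
    have h1 : 1 / δ < m := by
      have : (m₀ : ℝ) ≤ m := by exact_mod_cast (by omega : m₀ ≤ m)
      linarith
    rw [div_lt_iff₀ hm0]
    rw [div_lt_iff₀ hδ] at h1
    linarith
  refine ⟨(Finset.Icc 1 ⌊m * T⌋₊).filter (fun i : ℕ => ((i : ℝ) / m) ∈ O), ?_, ?_⟩
  · intro i hi
    rw [Finset.mem_filter, Finset.mem_Icc] at hi
    exact ⟨hi.1.1, hi.1.2, hi.2⟩
  · set s : Finset ℕ := (Finset.Icc 1 ⌊m * T⌋₊).filter (fun i : ℕ => ((i : ℝ) / m) ∈ O) with hs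
    have hcov : K ⊆ ⋃ i ∈ s, Set.Ioc (((i : ℝ) - 1) / m) ((i : ℝ) / m) := by
      intro x hx
      have hxU := hKU hx
      have hx0 : 0 < x := hxU.2.1
      have hmx : 0 < m * x := mul_pos hm0 hx0
      have hc1 : m * x ≤ (⌈m * x⌉₊ : ℝ) := Nat.le_ceil _
      have hc2 : (⌈m * x⌉₊ : ℝ) < m * x + 1 := Nat.ceil_lt_add_one hmx.le
      have hc3 : x ≤ (⌈m * x⌉₊ : ℝ) / m := by
        rw [le_div_iff₀ hm0]
        linarith
      have hc4 : ((⌈m * x⌉₊ : ℝ) - 1) / m < x := by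
        rw [div_lt_iff₀ hm0]
        linarith
      have hin : ((⌈m * x⌉₊ : ℝ) / m) ∈ O ∩ Set.Ioo 0 T := by
        apply hthick
        rw [Metric.mem_thickening_iff]
        refine ⟨x, hx, ?_⟩
        rw [Real.dist_eq, abs_of_nonneg (by linarith)]
        have : (⌈m * x⌉₊ : ℝ) / m < x + 1 / m := by
          rw [div_lt_iff₀ hm0, add_mul, one_div, inv_mul_cancel₀ hm0.ne']
          linarith
        linarith
      simp only [Set.mem_iUnion, Set.mem_Ioc]
      refine ⟨⌈m * x⌉₊, ?_, hc4, hc3⟩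
      rw [hs, Finset.mem_filter, Finset.mem_Icc]
      refine ⟨⟨Nat.ceil_pos.mpr hmx, Nat.le_floor ?_⟩, hin.1⟩
      have := hin.2.2
      rw [div_lt_iff₀ hm0] at this
      linarith
    have hvolK : volume K ≤ ENNReal.ofReal (s.card * (1 / m)) := by
      calc volume K ≤ volume (⋃ i ∈ s, Set.Ioc (((i : ℝ) - 1) / m) ((i : ℝ) / m)) := measure_mono hcov
        _ ≤ ∑ i ∈ s, volume (Set.Ioc (((i : ℝ) - 1) / m) ((i : ℝ) / m)) := measure_biUnion_finset_le _ _
        _ = ∑ i ∈ s, ENNReal.ofReal (1 / m) := by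
          apply Finset.sum_congr rfl
          intro i _
          rw [Real.volume_Ioc]
          congr 1
          ring
        _ = ENNReal.ofReal (s.card * (1 / m)) := by
          rw [Finset.sum_const, nsmul_eq_mul, ENNReal.ofReal_mul (Nat.cast_nonneg _), ENNReal.ofReal_natCast]
    have hfinal : ENNReal.ofReal (V - η) < ENNReal.ofReal (s.card * (1 / m)) := lt_of_lt_of_le hlt2 hvolK
    have hreal : V - η < s.card * (1 / m) := by
      rw [ENNReal.ofReal_lt_ofReal_iff_of_nonneg hpos] at hfinal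
      exact hfinal
    have : (V - η) * m < s.card * (1 / m) * m := mul_lt_mul_of_pos_right hreal hm0
    rw [mul_assoc, one_div, inv_mul_cancel₀ hm0.ne', mul_one] at this
    exact this.le

private theorem tele (F : ℤ → ℝ) (n : ℕ) :
    ∑ i ∈ Finset.Icc 1 n, F ((i : ℤ) + 1) - ∑ i ∈ Finset.Icc 1 n, F (i : ℤ) = F ((n : ℤ) + 1) - F 1 := by
  induction n with
  | zero => simp
  | succ n ih =>
    rw [Finset.sum_Icc_succ_top (by omega), Finset.sum_Icc_succ_top (by omega)]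
    push_cast
    linarith

private theorem shift_nat (C : ℝ) (n k : ℕ) : ∀ F : ℤ → ℝ, (∀ x, |F x| ≤ C) →
    |∑ i ∈ Finset.Icc 1 n, F ((i : ℤ) + k) - ∑ i ∈ Finset.Icc 1 n, F (i : ℤ)| ≤ 2 * C * k := by
  induction k with
  | zero =>
    intro F hF
    simp
  | succ k ih =>
    intro F hF
    have h1 := ih F hF
    have h2 := tele (fun x => F (x + k)) n
    have e1 : ∑ i ∈ Finset.Icc 1 n, F ((i : ℤ) + ((k + 1 : ℕ) : ℤ)) =
        ∑ i ∈ Finset.Icc 1 n, F ((i : ℤ) + 1 + k) := by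
      apply Finset.sum_congr rfl
      intro i _
      congr 1
      push_cast
      ring
    rw [e1]
    have h3 : |F ((n : ℤ) + 1 + k) - F (1 + k)| ≤ 2 * C := by
      calc |F ((n : ℤ) + 1 + k) - F (1 + k)| ≤ |F ((n : ℤ) + 1 + k)| + |F (1 + k)| := abs_sub _ _
        _ ≤ 2 * C := by linarith [hF ((n : ℤ) + 1 + k), hF (1 + k)]
    have h4 : ∑ i ∈ Finset.Icc 1 n, F ((i : ℤ) + 1 + k) - ∑ i ∈ Finset.Icc 1 n, F (i : ℤ) =
        (F ((n : ℤ) + 1 + k) - F (1 + k)) +
          (∑ i ∈ Finset.Icc 1 n, F ((i : ℤ) + k) - ∑ i ∈ Finset.Icc 1 n, F (i : ℤ)) := by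
      linarith
    rw [h4]
    calc _ ≤ |F ((n : ℤ) + 1 + k) - F (1 + k)| +
          |∑ i ∈ Finset.Icc 1 n, F ((i : ℤ) + k) - ∑ i ∈ Finset.Icc 1 n, F (i : ℤ)| := abs_add_le _ _
      _ ≤ 2 * C + 2 * C * k := add_le_add h3 h1
      _ = 2 * C * ((k + 1 : ℕ) : ℝ) := by
        push_cast
        ring

private theorem shift_int (C : ℝ) (n : ℕ) (w : ℤ) (F : ℤ → ℝ) (hF : ∀ x, |F x| ≤ C) :
    |∑ i ∈ Finset.Icc 1 n, F ((i : ℤ) + w) - ∑ i ∈ Finset.Icc 1 n, F (i : ℤ)| ≤ 2 * C * |(w : ℝ)| := by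
  rcases le_total 0 w with hw | hw
  · obtain ⟨k, rfl⟩ := Int.eq_ofNat_of_zero_le hw
    have := shift_nat C n k F hF
    have e : |(((k : ℕ) : ℤ) : ℝ)| = (k : ℝ) := by
      rw [Int.cast_natCast, abs_of_nonneg (Nat.cast_nonneg _)]
    rw [e]
    exact this
  · obtain ⟨k, hk⟩ := Int.eq_ofNat_of_zero_le (by omega : 0 ≤ -w)
    have := shift_nat C n k (fun x => F (x + w)) (fun x => hF _)
    have e : |(w : ℝ)| = (k : ℝ) := by
      have : w = -(k : ℤ) := by omega
      rw [this]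
      push_cast
      rw [abs_neg, abs_of_nonneg (Nat.cast_nonneg _)]
    rw [e]
    have e1 : ∑ i ∈ Finset.Icc 1 n, F ((i : ℤ) + k + w) = ∑ i ∈ Finset.Icc 1 n, F (i : ℤ) := by
      apply Finset.sum_congr rfl
      intro i _
      congr 1
      omega
    rw [abs_sub_comm]
    rw [← e1]
    exact this

open Classical in
theorem exists_mean (O : Set ℝ) (hO : IsOpen O) (c : ℝ) (hc : 0 ≤ c)
    (h : ∀ T₀ : ℝ, ∃ T : ℝ, T₀ ≤ T ∧ c * T ≤ (volume (O ∩ Set.Icc 0 T)).toReal) :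
    ∃ L : (ℚ → ℝ) → ℝ, IM L ∧ c ≤ L (fun x => if (x : ℝ) ∈ O then 1 else 0) := by
  obtain ⟨U, hUadd, hUsmul, hUmono, hUlim⟩ := exists_ulim
  choose T hT1 hT2 using fun j : ℕ => h ((j : ℝ) + 1)
  have hTpos : ∀ j, 0 < T j := by
    intro j
    have h1 := hT1 j
    have h2 : (0 : ℝ) ≤ j := Nat.cast_nonneg _
    linarith
  choose m₀ hm₀ using fun j : ℕ => riemann_open O hO (T j) (1 / ((j : ℝ) + 1)) (hTpos j) (by positivity)
  -- the moduli
  obtain ⟨m, hm⟩ : ∃ m : ℕ → ℕ, ∀ j, m j = (j + 1).factorial * (m₀ j + 1) := ⟨_, fun _ => rfl⟩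
  have hmpos : ∀ j, 0 < m j := by
    intro j
    rw [hm]
    exact Nat.mul_pos (Nat.factorial_pos _) (Nat.succ_pos _)
  have hmge : ∀ j, m₀ j ≤ m j := by
    intro j
    rw [hm]
    calc m₀ j ≤ 1 * (m₀ j + 1) := by omega
      _ ≤ (j + 1).factorial * (m₀ j + 1) := Nat.mul_le_mul_right _ (Nat.factorial_pos _)
  have hmR : ∀ j, (0 : ℝ) < m j := fun j => by exact_mod_cast hmpos j
  have hm1 : ∀ j, (1 : ℝ) ≤ m j := fun j => by exact_mod_cast hmpos j
  obtain ⟨n, hn⟩ : ∃ n : ℕ → ℕ, ∀ j, n j = ⌊(m j : ℝ) * T j⌋₊ := ⟨_, fun _ => rfl⟩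
  have hn1 : ∀ j, (m j : ℝ) * ((j : ℝ) + 1) - 1 ≤ n j := by
    intro j
    have h1 := Nat.lt_floor_add_one ((m j : ℝ) * T j)
    rw [← hn] at h1
    have h2 := mul_le_mul_of_nonneg_left (hT1 j) (hmR j).le
    linarith
  have hn2 : ∀ j, (n j : ℝ) ≤ m j * T j := by
    intro j
    rw [hn]
    exact Nat.floor_le (mul_pos (hmR j) (hTpos j)).le
  have hnpos : ∀ j, 0 < n j := by
    intro j
    rw [hn]
    apply Nat.floor_pos.mpr
    have h1 := hT1 j
    have h2 : (0 : ℝ) ≤ j := Nat.cast_nonneg _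
    have h3 := mul_le_mul (hm1 j) (by linarith : (1 : ℝ) ≤ T j) (by norm_num) (hmR j).le
    linarith
  have hnR : ∀ j, (0 : ℝ) < n j := fun j => by exact_mod_cast hnpos j
  -- the averages
  set A : (ℚ → ℝ) → ℕ → ℝ := fun f j => 1 / (n j : ℝ) * ∑ i ∈ Finset.Icc 1 (n j), f ((i : ℚ) / m j) with hA
  have hAb : ∀ (f : ℚ → ℝ) (C : ℝ), (∀ x, |f x| ≤ C) → ∀ j, |A f j| ≤ C := by
    intro f C hf j
    show |1 / (n j : ℝ) * ∑ i ∈ Finset.Icc 1 (n j), f ((i : ℚ) / m j)| ≤ C
    rw [abs_mul, abs_of_nonneg (by positivity), one_div, inv_mul_le_iff₀ (hnR j)]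
    calc |∑ i ∈ Finset.Icc 1 (n j), f ((i : ℚ) / m j)| ≤ ∑ i ∈ Finset.Icc 1 (n j), |f ((i : ℚ) / m j)| :=
          Finset.abs_sum_le_sum_abs _ _
      _ ≤ ∑ _i ∈ Finset.Icc 1 (n j), C := Finset.sum_le_sum fun i _ => hf _
      _ = n j * C := by
        rw [Finset.sum_const, Nat.card_Icc, nsmul_eq_mul]
        norm_num
  have hAbd : ∀ f : ℚ → ℝ, Bdf f → ∃ C, ∀ j, |A f j| ≤ C := fun f ⟨C, hC⟩ => ⟨C, hAb f C hC⟩
  refine ⟨fun f => U (A f), ⟨⟨?_, ?_, ?_, ?_⟩, ?_⟩, ?_⟩
  · intro f g hf hg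
    have e : A (fun x => f x + g x) = fun j => A f j + A g j := by
      funext j
      show 1 / (n j : ℝ) * ∑ i ∈ Finset.Icc 1 (n j), (f ((i : ℚ) / m j) + g ((i : ℚ) / m j)) =
        1 / (n j : ℝ) * ∑ i ∈ Finset.Icc 1 (n j), f ((i : ℚ) / m j) +
        1 / (n j : ℝ) * ∑ i ∈ Finset.Icc 1 (n j), g ((i : ℚ) / m j)
      rw [Finset.sum_add_distrib, mul_add]
    show U (A (fun x => f x + g x)) = U (A f) + U (A g)
    rw [e]
    exact hUadd _ _ (hAbd f hf) (hAbd g hg)
  · intro a f hf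
    have e : A (fun x => a * f x) = fun j => a * A f j := by
      funext j
      show 1 / (n j : ℝ) * ∑ i ∈ Finset.Icc 1 (n j), (a * f ((i : ℚ) / m j)) =
        a * (1 / (n j : ℝ) * ∑ i ∈ Finset.Icc 1 (n j), f ((i : ℚ) / m j))
      rw [← Finset.mul_sum]
      ring
    show U (A (fun x => a * f x)) = a * U (A f)
    rw [e]
    exact hUsmul _ _ (hAbd f hf)
  · intro f hf hf0
    have h0 : U (fun _ => 0) = 0 := hUlim _ _ tendsto_const_nhds
    show 0 ≤ U (A f)
    rw [← h0]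
    apply hUmono _ _ ⟨0, fun _ => by simp⟩ (hAbd f hf)
    filter_upwards with j
    exact mul_nonneg (by positivity) (Finset.sum_nonneg fun i _ => hf0 _)
  · intro f v hf
    obtain ⟨C, hC⟩ := hf
    have hC0 : 0 ≤ C := (abs_nonneg _).trans (hC 0)
    have hfb : Bdf f := ⟨C, hC⟩
    show U (A (fun x => f (x + v))) = U (A f)
    have hdiff : Tendsto (fun j => A (fun x => f (x + v)) j + (-1) * A f j) atTop (nhds 0) := by
      have hbig : ∀ᶠ j : ℕ in atTop, |A (fun x => f (x + v)) j + (-1) * A f j| ≤ 2 * C * |(v : ℝ)| / j := by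
        filter_upwards [Filter.eventually_ge_atTop (v.den + 1)] with j hj
        have hjR : (0 : ℝ) < j := by
          have : 0 < j := by omega
          exact_mod_cast this
        -- `v m_j` is an integer
        have hdvd : v.den ∣ m j := by
          rw [hm]
          exact Dvd.dvd.mul_right (Nat.dvd_factorial v.den_pos (by omega)) _
        obtain ⟨q, hq⟩ := hdvd
        set w : ℤ := v.num * q with hw
        have hmQ : (m j : ℚ) ≠ 0 := by
          have := (hmpos j).ne'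
          exact_mod_cast this
        have hvw : v = (w : ℚ) / m j := by
          rw [eq_div_iff hmQ, hq, hw]
          push_cast
          rw [← mul_assoc, Rat.mul_den_eq_num]
        have hvwR : (w : ℝ) = v * m j := by
          have : (w : ℚ) = v * m j := by
            rw [eq_div_iff hmQ] at hvw
            exact hvw.symm
          exact_mod_cast this
        set F : ℤ → ℝ := fun x => f ((x : ℚ) / m j) with hF
        have hsh := shift_int C (n j) w F (fun x => hC _)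
        have e1 : ∑ i ∈ Finset.Icc 1 (n j), f ((i : ℚ) / m j + v) =
            ∑ i ∈ Finset.Icc 1 (n j), F ((i : ℤ) + w) := by
          apply Finset.sum_congr rfl
          intro i _
          show f ((i : ℚ) / m j + v) = f ((((i : ℤ) + w : ℤ) : ℚ) / m j)
          congr 1
          push_cast
          rw [add_div, ← hvw]
        have e2 : ∑ i ∈ Finset.Icc 1 (n j), f ((i : ℚ) / m j) =
            ∑ i ∈ Finset.Icc 1 (n j), F (i : ℤ) := by
          apply Finset.sum_congr rfl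
          intro i _
          show f ((i : ℚ) / m j) = f ((((i : ℤ) : ℤ) : ℚ) / m j)
          congr 1
        have e3 : A (fun x => f (x + v)) j + (-1) * A f j = 1 / (n j : ℝ) *
            (∑ i ∈ Finset.Icc 1 (n j), F ((i : ℤ) + w) - ∑ i ∈ Finset.Icc 1 (n j), F (i : ℤ)) := by
          show 1 / (n j : ℝ) * ∑ i ∈ Finset.Icc 1 (n j), f ((i : ℚ) / m j + v) +
            (-1) * (1 / (n j : ℝ) * ∑ i ∈ Finset.Icc 1 (n j), f ((i : ℚ) / m j)) = _
          rw [e1, e2]
          ring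
        rw [e3, abs_mul, abs_of_nonneg (by positivity), one_div, inv_mul_le_iff₀ (hnR j)]
        refine hsh.trans ?_
        rw [hvwR, abs_mul, abs_of_pos (hmR j)]
        -- `m_j j ≤ n_j`
        have hnm : (m j : ℝ) * j ≤ n j := by
          have h1 := hn1 j
          have h2 := hm1 j
          nlinarith
        have hnonneg : 0 ≤ 2 * C * |(v : ℝ)| := by positivity
        have h5 : (m j : ℝ) ≤ n j / j := by
          rw [le_div_iff₀ hjR]
          exact hnm
        calc 2 * C * (|(v : ℝ)| * m j) = (2 * C * |(v : ℝ)|) * m j := by ring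
          _ ≤ (2 * C * |(v : ℝ)|) * (n j / j) := mul_le_mul_of_nonneg_left h5 hnonneg
          _ = n j * (2 * C * |(v : ℝ)| / j) := by ring
      have hz : Tendsto (fun j : ℕ => 2 * C * |(v : ℝ)| / (j : ℝ)) atTop (nhds 0) :=
        tendsto_const_div_atTop_nhds_zero_nat _
      exact squeeze_zero_norm' (by simpa only [Real.norm_eq_abs] using hbig) hz
    have hU0 := hUlim _ _ hdiff
    have hbneg : ∃ C, ∀ j, |(-1) * A f j| ≤ C := by
      refine ⟨C, fun j => ?_⟩
      rw [abs_mul, abs_neg, abs_one, one_mul]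
      exact hAb f C hC j
    have hadd := hUadd (A (fun x => f (x + v))) (fun j => (-1) * A f j)
      (hAbd _ (hfb.shift v)) hbneg
    rw [hU0, hUsmul (-1) (A f) (hAbd f hfb)] at hadd
    linarith
  · show U (A (fun _ => 1)) = 1
    have e : A (fun _ => 1) = fun _ => (1 : ℝ) := by
      funext j
      show 1 / (n j : ℝ) * ∑ _i ∈ Finset.Icc 1 (n j), (1 : ℝ) = 1
      rw [Finset.sum_const, Nat.card_Icc, nsmul_eq_mul]
      have := (hnR j).ne'
      field_simp
      norm_num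
    rw [e]
    exact hUlim _ _ tendsto_const_nhds
  · -- the density of `O`
    have hlim : Tendsto (fun j : ℕ => c - 1 / ((j : ℝ) + 1)) atTop (nhds c) := by
      have h1 := tendsto_one_div_add_atTop_nhds_zero_nat (𝕜 := ℝ)
      have h2 := h1.const_sub c
      rw [sub_zero] at h2
      exact h2
    have hUc := hUlim _ _ hlim
    show c ≤ U (A (fun x => if (x : ℝ) ∈ O then 1 else 0))
    rw [← hUc]
    have hind : Bdf (fun x : ℚ => if (x : ℝ) ∈ O then (1 : ℝ) else 0) := by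
      refine ⟨1, fun x => ?_⟩
      show |if (x : ℝ) ∈ O then (1 : ℝ) else 0| ≤ 1
      split_ifs <;> simp
    apply hUmono _ _ ?_ (hAbd _ hind)
    · filter_upwards with j
      show c - 1 / ((j : ℝ) + 1) ≤ 1 / (n j : ℝ) *
        ∑ i ∈ Finset.Icc 1 (n j), (if ((((i : ℚ) / m j : ℚ)) : ℝ) ∈ O then (1 : ℝ) else 0)
      rw [one_div (n j : ℝ), le_inv_mul_iff₀ (hnR j)]
      obtain ⟨s, hs1, hs2⟩ := hm₀ j (m j) (hmge j)
      have hcard : (s.card : ℝ) ≤
          ∑ i ∈ Finset.Icc 1 (n j), (if ((((i : ℚ) / m j : ℚ)) : ℝ) ∈ O then (1 : ℝ) else 0) := by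
        have h1 : (s.card : ℝ) = ∑ i ∈ s, (1 : ℝ) := by simp
        rw [h1]
        have h2 : ∑ i ∈ s, (1 : ℝ) =
            ∑ i ∈ s, (if ((((i : ℚ) / m j : ℚ)) : ℝ) ∈ O then (1 : ℝ) else 0) := by
          apply Finset.sum_congr rfl
          intro i hi
          have h3 : ((((i : ℚ) / m j : ℚ)) : ℝ) = (i : ℝ) / m j := by push_cast; rfl
          rw [h3, if_pos (hs1 i hi).2.2]
        rw [h2]
        apply Finset.sum_le_sum_of_subset_of_nonneg
        · intro i hi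
          rw [Finset.mem_Icc, hn]
          exact ⟨(hs1 i hi).1, (hs1 i hi).2.1⟩
        · intro i _ _
          split_ifs <;> norm_num
      refine le_trans ?_ hcard
      by_cases hcj : c - 1 / ((j : ℝ) + 1) ≤ 0
      · exact (mul_nonpos_of_nonneg_of_nonpos (hnR j).le hcj).trans (Nat.cast_nonneg _)
      · have hcj' : 0 ≤ c - 1 / ((j : ℝ) + 1) := (not_le.mp hcj).le
        have hj1 : (0 : ℝ) < 1 / ((j : ℝ) + 1) := by positivity
        have hT1' : 1 ≤ T j := by
          have h1 := hT1 j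
          have h2 : (0 : ℝ) ≤ j := Nat.cast_nonneg _
          linarith
        calc (n j : ℝ) * (c - 1 / ((j : ℝ) + 1)) ≤ (m j * T j) * (c - 1 / ((j : ℝ) + 1)) :=
              mul_le_mul_of_nonneg_right (hn2 j) hcj'
          _ = (c * T j - T j * (1 / ((j : ℝ) + 1))) * m j := by ring
          _ ≤ ((volume (O ∩ Set.Icc 0 (T j))).toReal - 1 / ((j : ℝ) + 1)) * m j := by
              apply mul_le_mul_of_nonneg_right _ (hmR j).le
              have h1 := hT2 j
              nlinarith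
          _ ≤ s.card := hs2
    · refine ⟨|c| + 1, fun j => ?_⟩
      have h1 : |1 / ((j : ℝ) + 1)| ≤ 1 := by
        rw [abs_of_nonneg (by positivity), div_le_one (by positivity)]
        have h2 : (0 : ℝ) ≤ j := Nat.cast_nonneg _
        linarith
      exact (abs_sub _ _).trans (add_le_add le_rfl h1)

end PGL
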