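import Pool.Agent.PGL.E2

/-! PGL / E4: mean ergodic theorem along boxes.

PROOF of `me`. By linearity (replace `g` by `a g + b`, `a > 0`) we may assume `0 ≤ g ≤ 1`. Suppose the statement fails
for `η`: for every `n` there are `d_n, J_n, v_n` with `n! ∣ d_n`, `0 < d_n`, `n d_n ≤ J_n` and
`|(1/J_n) ∑_{i < J_n} L(f · g(· + v_n + i / d_n)) - L f L g| > η`. Let `U` be an ultralimit (`exists_ulim`) and
`Λ f' = U (n ↦ (1/J_n) ∑_{i < J_n} L(f' · g(· + v_n + i/d_n)))` for bounded `f'` (`0` otherwise). `Λ` is linear and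
positive, `Λ f' ≤ L f'` for `f' ≥ 0` (as `g ≤ 1`), and invariant: for `w ∈ ℚ` and large `n` the number `w d_n` is an
integer, `L(f'(· + w) g(· + v_n + i/d_n)) = L(f' g(· + v_n + (i - w d_n)/d_n))`, and shifting the range of `i` by
`w d_n` changes the average by at most `2 |w| d_n C / J_n ≤ 2 |w| C / n → 0`. By ergodicity `Λ f = Λ(1) L f`, and
`Λ(1) = L g` by the invariance of `L`. But `|Λ f - L f L g| ≥ η` (the sequence is always `> η` away; take signs:
`U` of the absolute value... or pass to a subsequence where the difference has a fixed sign before defining `Λ`).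
`avg_shift`: shifting a box. -/

set_option autoImplicit false

open Finset

noncomputable section

namespace PGL

private theorem tele4 (F : ℤ → ℝ) (n : ℕ) :
    ∑ i ∈ range n, F ((i : ℤ) + 1) - ∑ i ∈ range n, F (i : ℤ) = F (n : ℤ) - F 0 := by
  induction n with
  | zero => simp
  | succ n ih =>
    rw [sum_range_succ, sum_range_succ]
    push_cast
    linarith

private theorem shift_nat4 (C : ℝ) (n k : ℕ) : ∀ F : ℤ → ℝ, (∀ x, |F x| ≤ C) →
    |∑ i ∈ range n, F ((i : ℤ) + k) - ∑ i ∈ range n, F (i : ℤ)| ≤ 2 * C * k := by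
  induction k with
  | zero =>
    intro F hF
    simp
  | succ k ih =>
    intro F hF
    have h1 := ih F hF
    have h2 := tele4 (fun x => F (x + k)) n
    have e1 : ∑ i ∈ range n, F ((i : ℤ) + ((k + 1 : ℕ) : ℤ)) =
        ∑ i ∈ range n, F ((i : ℤ) + 1 + k) := by
      apply Finset.sum_congr rfl
      intro i _
      congr 1
      push_cast
      ring
    rw [e1]
    have h3 : |F ((n : ℤ) + k) - F (0 + k)| ≤ 2 * C := by
      calc |F ((n : ℤ) + k) - F (0 + k)| ≤ |F ((n : ℤ) + k)| + |F (0 + k)| := abs_sub _ _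
        _ ≤ 2 * C := by linarith [hF ((n : ℤ) + k), hF (0 + k)]
    have h4 : ∑ i ∈ range n, F ((i : ℤ) + 1 + k) - ∑ i ∈ range n, F (i : ℤ) =
        (F ((n : ℤ) + k) - F (0 + k)) +
          (∑ i ∈ range n, F ((i : ℤ) + k) - ∑ i ∈ range n, F (i : ℤ)) := by
      linarith
    rw [h4]
    calc _ ≤ |F ((n : ℤ) + k) - F (0 + k)| +
          |∑ i ∈ range n, F ((i : ℤ) + k) - ∑ i ∈ range n, F (i : ℤ)| := abs_add_le _ _
      _ ≤ 2 * C + 2 * C * k := add_le_add h3 h1
      _ = 2 * C * ((k + 1 : ℕ) : ℝ) := by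
        push_cast
        ring

private theorem shift_int4 (C : ℝ) (n : ℕ) (w : ℤ) (F : ℤ → ℝ) (hF : ∀ x, |F x| ≤ C) :
    |∑ i ∈ range n, F ((i : ℤ) + w) - ∑ i ∈ range n, F (i : ℤ)| ≤ 2 * C * |(w : ℝ)| := by
  rcases le_total 0 w with hw | hw
  · obtain ⟨k, rfl⟩ := Int.eq_ofNat_of_zero_le hw
    have := shift_nat4 C n k F hF
    have e : |(((k : ℕ) : ℤ) : ℝ)| = (k : ℝ) := by
      rw [Int.cast_natCast, abs_of_nonneg (Nat.cast_nonneg _)]
    rw [e]
    exact this
  · obtain ⟨k, hk⟩ := Int.eq_ofNat_of_zero_le (by omega : 0 ≤ -w)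
    have := shift_nat4 C n k (fun x => F (x + w)) (fun x => hF _)
    have e : |(w : ℝ)| = (k : ℝ) := by
      have : w = -(k : ℤ) := by omega
      rw [this]
      push_cast
      rw [abs_neg, abs_of_nonneg (Nat.cast_nonneg _)]
    rw [e]
    have e1 : ∑ i ∈ range n, F ((i : ℤ) + k + w) = ∑ i ∈ range n, F (i : ℤ) := by
      apply Finset.sum_congr rfl
      intro i _
      congr 1
      omega
    rw [abs_sub_comm]
    rw [← e1]
    exact this

/-- one sided version for `0 ≤ g ≤ 1` -/
private theorem me_one {L : (ℚ → ℝ) → ℝ} (hL : Erg L) {f g : ℚ → ℝ} (hf : Bdf f) (hg0 : ∀ x, 0 ≤ g x)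
    (hg1 : ∀ x, g x ≤ 1) (η : ℝ) (hη : 0 < η) :
    ∃ n₀ : ℕ, 0 < n₀ ∧ ∀ d J : ℕ, Nat.factorial n₀ ∣ d → 0 < d → n₀ * d ≤ J → ∀ v : ℚ,
      (∑ i ∈ range J, L (fun x => f x * g (x + v + i / d))) / J ≤ L f * L g + η := by
  by_contra hcon
  push Not at hcon
  choose d J h1 h2 h3 v h4 using fun n : ℕ => hcon (n + 1) (Nat.succ_pos n)
  obtain ⟨U, hUadd, hUsmul, hUmono, hUlim⟩ := exists_ulim
  have hga : ∀ x, |g x| ≤ 1 := fun x => by
    rw [abs_of_nonneg (hg0 x)]
    exact hg1 x
  have hgb : Bdf g := ⟨1, hga⟩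
  have hJ : ∀ n, (0 : ℝ) < J n := by
    intro n
    have h5 : 0 < J n := lt_of_lt_of_le (Nat.mul_pos (Nat.succ_pos n) (h2 n)) (h3 n)
    exact_mod_cast h5
  have hgs : ∀ t : ℚ, Bdf (fun x => g (x + t)) := fun t => hgb.shift t
  obtain ⟨A, hA⟩ : ∃ A : (ℚ → ℝ) → ℕ → ℝ, ∀ f' n, A f' n =
      (∑ i ∈ range (J n), L (fun x => f' x * g (x + v n + i / d n))) / J n := ⟨_, fun _ _ => rfl⟩
  have hgs2 : ∀ (n : ℕ) (t : ℚ), Bdf (fun x => g (x + v n + t)) := fun n t => by
    have := hgb.shift (v n + t)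
    simpa only [← add_assoc] using this
  have hprod : ∀ f' : ℚ → ℝ, Bdf f' → ∀ (n : ℕ) (t : ℚ), Bdf (fun x => f' x * g (x + v n + t)) :=
    fun f' hf' n t => hf'.mul (hgs2 n t)
  have hLb : ∀ (f' : ℚ → ℝ) (C : ℝ), (∀ x, |f' x| ≤ C) → ∀ (n : ℕ) (t : ℚ),
      |L (fun x => f' x * g (x + v n + t))| ≤ C := by
    intro f' C hC n t
    refine hL.toIM.abs_le fun x => ?_
    rw [abs_mul]
    have h5 : 0 ≤ |f' x| := abs_nonneg _
    calc |f' x| * |g (x + v n + t)| ≤ |f' x| * 1 := mul_le_mul_of_nonneg_left (hga _) h5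
      _ = |f' x| := mul_one _
      _ ≤ C := hC x
  have hAb : ∀ (f' : ℚ → ℝ) (C : ℝ), (∀ x, |f' x| ≤ C) → ∀ n, |A f' n| ≤ C := by
    intro f' C hC n
    rw [hA, abs_div, abs_of_pos (hJ n), div_le_iff₀ (hJ n)]
    calc |∑ i ∈ range (J n), L (fun x => f' x * g (x + v n + i / d n))|
        ≤ ∑ i ∈ range (J n), |L (fun x => f' x * g (x + v n + i / d n))| :=
          Finset.abs_sum_le_sum_abs _ _
      _ ≤ ∑ _i ∈ range (J n), C := Finset.sum_le_sum fun i _ => hLb f' C hC n _
      _ = C * J n := by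
        rw [Finset.sum_const, Finset.card_range, nsmul_eq_mul, mul_comm]
  have hAbd : ∀ f' : ℚ → ℝ, Bdf f' → ∃ C, ∀ n, |A f' n| ≤ C := fun f' ⟨C, hC⟩ => ⟨C, hAb f' C hC⟩
  have hPF : PF (fun f' => U (A f')) := by
    refine ⟨?_, ?_, ?_, ?_⟩
    · intro f₁ f₂ hf₁ hf₂
      have e : A (fun x => f₁ x + f₂ x) = fun n => A f₁ n + A f₂ n := by
        funext n
        rw [hA, hA, hA, ← add_div, ← Finset.sum_add_distrib]
        congr 1
        refine Finset.sum_congr rfl fun i _ => ?_
        rw [← hL.add _ _ (hprod f₁ hf₁ n _) (hprod f₂ hf₂ n _)]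
        congr 1
        funext x
        ring
      show U (A (fun x => f₁ x + f₂ x)) = U (A f₁) + U (A f₂)
      rw [e]
      exact hUadd _ _ (hAbd f₁ hf₁) (hAbd f₂ hf₂)
    · intro c f₁ hf₁
      have e : A (fun x => c * f₁ x) = fun n => c * A f₁ n := by
        funext n
        rw [hA, hA, ← mul_div_assoc, Finset.mul_sum]
        congr 1
        refine Finset.sum_congr rfl fun i _ => ?_
        rw [← hL.smul _ _ (hprod f₁ hf₁ n _)]
        congr 1
        funext x
        ring
      show U (A (fun x => c * f₁ x)) = c * U (A f₁)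
      rw [e]
      exact hUsmul _ _ (hAbd f₁ hf₁)
    · intro f₁ hf₁ hf0
      have h0 : U (fun _ => 0) = 0 := hUlim _ _ tendsto_const_nhds
      show 0 ≤ U (A f₁)
      rw [← h0]
      refine hUmono _ _ ⟨0, fun _ => by simp⟩ (hAbd f₁ hf₁) (Filter.Eventually.of_forall fun n => ?_)
      rw [hA]
      refine div_nonneg (Finset.sum_nonneg fun i _ => ?_) (hJ n).le
      exact hL.pos _ (hprod f₁ hf₁ n _) fun x => mul_nonneg (hf0 x) (hg0 _)
    · intro f₁ w hf₁
      obtain ⟨C, hC⟩ := hf₁
      have hC0 : 0 ≤ C := (abs_nonneg _).trans (hC 0)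
      have hfb : Bdf f₁ := ⟨C, hC⟩
      show U (A (fun x => f₁ (x + w))) = U (A f₁)
      have hdiff : Filter.Tendsto (fun n => A (fun x => f₁ (x + w)) n + (-1) * A f₁ n)
          Filter.atTop (nhds 0) := by
        have hbig : ∀ᶠ n : ℕ in Filter.atTop,
            |A (fun x => f₁ (x + w)) n + (-1) * A f₁ n| ≤ 2 * C * |(w : ℝ)| / n := by
          filter_upwards [Filter.eventually_ge_atTop (w.den + 1)] with n hn
          have hnR : (0 : ℝ) < n := by
            have : 0 < n := by omega
            exact_mod_cast this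
          have hdR : (0 : ℝ) < d n := by exact_mod_cast h2 n
          have hdvd : w.den ∣ d n :=
            (Nat.dvd_factorial w.den_pos (by omega : w.den ≤ n + 1)).trans (h1 n)
          obtain ⟨q, hq⟩ := hdvd
          obtain ⟨W, hW⟩ : ∃ W : ℤ, W = w.num * q := ⟨_, rfl⟩
          have hdQ : (d n : ℚ) ≠ 0 := by
            have := (h2 n).ne'
            exact_mod_cast this
          have hwW : w = (W : ℚ) / d n := by
            rw [eq_div_iff hdQ, hq, hW]
            push_cast
            rw [← mul_assoc, Rat.mul_den_eq_num]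
          have hWR : (W : ℝ) = w * d n := by
            have : (W : ℚ) = w * d n := by
              rw [eq_div_iff hdQ] at hwW
              exact hwW.symm
            exact_mod_cast this
          obtain ⟨F, hF⟩ : ∃ F : ℤ → ℝ, ∀ j, F j = L (fun x => f₁ x * g (x + v n + (j : ℚ) / d n)) :=
            ⟨_, fun _ => rfl⟩
          have hFb : ∀ j, |F j| ≤ C := fun j => by
            rw [hF]
            exact hLb f₁ C hC n _
          have hsh := shift_int4 C (J n) (-W) F hFb
          have e1 : A (fun x => f₁ (x + w)) n = (∑ i ∈ range (J n), F ((i : ℤ) + (-W))) / J n := by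
            rw [hA]
            congr 1
            refine Finset.sum_congr rfl fun i _ => ?_
            rw [hF, ← hL.inv (fun x => f₁ x * g (x + v n + (((i : ℤ) + (-W) : ℤ) : ℚ) / d n)) w
              (hprod f₁ hfb n _)]
            congr 1
            funext x
            show f₁ (x + w) * g (x + v n + (i : ℚ) / d n) =
              f₁ (x + w) * g (x + w + v n + (((i : ℤ) + (-W) : ℤ) : ℚ) / d n)
            congr 2
            have e5 : (((i : ℤ) + (-W) : ℤ) : ℚ) / d n = (i : ℚ) / d n - w := by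
              rw [hwW]
              push_cast
              ring
            rw [e5]
            ring
          have e2 : A f₁ n = (∑ i ∈ range (J n), F (i : ℤ)) / J n := by
            rw [hA]
            congr 1
            refine Finset.sum_congr rfl fun i _ => ?_
            rw [hF]
            push_cast
            rfl
          have e3 : A (fun x => f₁ (x + w)) n + (-1) * A f₁ n =
              (∑ i ∈ range (J n), F ((i : ℤ) + (-W)) - ∑ i ∈ range (J n), F (i : ℤ)) / J n := by
            rw [e1, e2]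
            ring
          rw [e3, abs_div, abs_of_pos (hJ n), div_le_iff₀ (hJ n)]
          refine hsh.trans ?_
          have e4 : |((-W : ℤ) : ℝ)| = |(w : ℝ)| * d n := by
            push_cast
            rw [abs_neg, hWR, abs_mul, abs_of_pos hdR]
          rw [e4]
          have h5 : (d n : ℝ) * n ≤ J n := by
            have h6 : ((n + 1 : ℕ) : ℝ) * d n ≤ J n := by exact_mod_cast h3 n
            push_cast at h6
            nlinarith
          have hnonneg : 0 ≤ 2 * C * |(w : ℝ)| := by positivity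
          have h7 : (d n : ℝ) ≤ J n / n := by
            rw [le_div_iff₀ hnR]
            exact h5
          calc 2 * C * (|(w : ℝ)| * d n) = (2 * C * |(w : ℝ)|) * d n := by ring
            _ ≤ (2 * C * |(w : ℝ)|) * (J n / n) := mul_le_mul_of_nonneg_left h7 hnonneg
            _ = 2 * C * |(w : ℝ)| / n * J n := by ring
        have hz : Filter.Tendsto (fun n : ℕ => 2 * C * |(w : ℝ)| / (n : ℝ)) Filter.atTop (nhds 0) :=
          tendsto_const_div_atTop_nhds_zero_nat _
        exact squeeze_zero_norm' (by simpa only [Real.norm_eq_abs] using hbig) hz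
      have hU0 := hUlim _ _ hdiff
      have hbneg : ∃ C, ∀ n, |(-1) * A f₁ n| ≤ C := by
        refine ⟨C, fun n => ?_⟩
        rw [abs_mul, abs_neg, abs_one, one_mul]
        exact hAb f₁ C hC n
      have hadd := hUadd (A (fun x => f₁ (x + w))) (fun n => (-1) * A f₁ n)
        (hAbd _ (hfb.shift w)) hbneg
      rw [hU0, hUsmul (-1) (A f₁) (hAbd f₁ hfb)] at hadd
      linarith
  have hdom : ∀ f', Bdf f' → (∀ x, 0 ≤ f' x) → U (A f') ≤ L f' := by
    intro f' hf' hf0
    have hc : U (fun _ => L f') = L f' := hUlim _ _ tendsto_const_nhds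
    rw [← hc]
    refine hUmono _ _ (hAbd f' hf') ⟨|L f'|, fun _ => le_rfl⟩ (Filter.Eventually.of_forall fun n => ?_)
    rw [hA, div_le_iff₀ (hJ n)]
    calc ∑ i ∈ range (J n), L (fun x => f' x * g (x + v n + i / d n))
        ≤ ∑ _i ∈ range (J n), L f' := by
          refine Finset.sum_le_sum fun i _ => hL.mono (hprod f' hf' n _) hf' fun x => ?_
          calc f' x * g (x + v n + i / d n) ≤ f' x * 1 :=
                mul_le_mul_of_nonneg_left (hg1 _) (hf0 x)
            _ = f' x := mul_one _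
      _ = L f' * J n := by
        rw [Finset.sum_const, Finset.card_range, nsmul_eq_mul, mul_comm]
  have herg := hL.erg _ hPF hdom f hf
  have hone : U (A (fun _ => 1)) = L g := by
    have e : A (fun _ => 1) = fun _ => L g := by
      funext n
      rw [hA, div_eq_iff (hJ n).ne']
      have e2 : ∀ i ∈ range (J n), L (fun x => 1 * g (x + v n + i / d n)) = L g := by
        intro i _
        rw [← hL.inv g (v n + i / d n) hgb]
        congr 1
        funext x
        rw [one_mul, add_assoc]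
      rw [Finset.sum_congr rfl e2, Finset.sum_const, Finset.card_range, nsmul_eq_mul, mul_comm]
    rw [e]
    exact hUlim _ _ tendsto_const_nhds
  have herg' : U (A f) = L g * L f := by
    rw [← hone]
    exact herg
  have hlow : L f * L g + η ≤ U (A f) := by
    have hc : U (fun _ => L f * L g + η) = L f * L g + η := hUlim _ _ tendsto_const_nhds
    rw [← hc]
    refine hUmono _ _ ⟨|L f * L g + η|, fun _ => le_rfl⟩ (hAbd f hf)
      (Filter.Eventually.of_forall fun n => ?_)
    rw [hA]
    exact (h4 n).le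
  rw [herg'] at hlow
  nlinarith

theorem me {L : (ℚ → ℝ) → ℝ} (hL : Erg L) {f g : ℚ → ℝ} (hf : Bdf f) (hg : Bdf g) (η : ℝ) (hη : 0 < η) :
    ∃ n₀ : ℕ, 0 < n₀ ∧ ∀ d J : ℕ, Nat.factorial n₀ ∣ d → 0 < d → n₀ * d ≤ J → ∀ v : ℚ,
      |(∑ i ∈ range J, L (fun x => f x * g (x + v + i / d))) / J - L f * L g| ≤ η := by
  obtain ⟨C₀, hC₀⟩ := hg
  have hg : Bdf g := ⟨C₀, hC₀⟩
  obtain ⟨C, hC, hCpos⟩ : ∃ C : ℝ, (∀ x, |g x| ≤ C) ∧ 0 < C :=
    ⟨|C₀| + 1, fun x => by linarith [hC₀ x, le_abs_self C₀], by positivity⟩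
  obtain ⟨g', hg'⟩ : ∃ g' : ℚ → ℝ, ∀ x, g' x = (g x + C) / (2 * C) := ⟨_, fun _ => rfl⟩
  have hg0 : ∀ x, 0 ≤ g' x := fun x => by
    rw [hg']
    have := (abs_le.1 (hC x)).1
    exact div_nonneg (by linarith) (by linarith)
  have hg1 : ∀ x, g' x ≤ 1 := fun x => by
    rw [hg', div_le_one (by linarith)]
    have := (abs_le.1 (hC x)).2
    linarith
  have hg'b : Bdf g' := ⟨1, fun x => by
    rw [abs_of_nonneg (hg0 x)]
    exact hg1 x⟩
  obtain ⟨n₁, hn₁, H1⟩ := me_one hL hf hg0 hg1 (η / (2 * C)) (by positivity)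
  obtain ⟨n₂, hn₂, H2⟩ := me_one hL hf.neg hg0 hg1 (η / (2 * C)) (by positivity)
  refine ⟨max n₁ n₂, lt_of_lt_of_le hn₁ (le_max_left _ _), fun d J hd hd0 hJ v => ?_⟩
  have hJpos : (0 : ℝ) < J := by
    have h5 : 0 < J := lt_of_lt_of_le (Nat.mul_pos (lt_of_lt_of_le hn₁ (le_max_left _ _)) hd0) hJ
    exact_mod_cast h5
  have h1 := H1 d J ((Nat.factorial_dvd_factorial (le_max_left _ _)).trans hd) hd0
    ((Nat.mul_le_mul_right _ (le_max_left _ _)).trans hJ) v
  have h2 := H2 d J ((Nat.factorial_dvd_factorial (le_max_right _ _)).trans hd) hd0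
    ((Nat.mul_le_mul_right _ (le_max_right _ _)).trans hJ) v
  -- negation
  have e2 : ∑ i ∈ range J, L (fun x => -f x * g' (x + v + i / d)) =
      -∑ i ∈ range J, L (fun x => f x * g' (x + v + i / d)) := by
    rw [← Finset.sum_neg_distrib]
    refine Finset.sum_congr rfl fun i _ => ?_
    have hb : Bdf (fun x => f x * g' (x + v + i / d)) := by
      refine hf.mul ?_
      have := hg'b.shift (v + i / d)
      simpa only [← add_assoc] using this
    rw [← hL.neg hb]
    congr 1
    funext x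
    ring
  rw [e2, hL.neg hf] at h2
  -- the relation between `g` and `g'`
  have e3 : ∀ i ∈ range J, L (fun x => f x * g (x + v + i / d)) =
      2 * C * L (fun x => f x * g' (x + v + i / d)) + (-C) * L f := by
    intro i _
    have hb : Bdf (fun x => f x * g' (x + v + i / d)) := by
      refine hf.mul ?_
      have := hg'b.shift (v + i / d)
      simpa only [← add_assoc] using this
    rw [← hL.smul _ _ hb, ← hL.smul _ _ hf, ← hL.add _ _ ((Bdf.const _).mul hb)
      ((Bdf.const _).mul hf)]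
    congr 1
    funext x
    rw [hg']
    have hCne : C ≠ 0 := hCpos.ne'
    field_simp
    ring
  have e4 : L g = 2 * C * L g' + (-C) := by
    have h5 : L (fun x => 2 * C * g' x + (-C)) = 2 * C * L g' + (-C) := by
      rw [hL.add _ _ ((Bdf.const _).mul hg'b) (Bdf.const _), hL.smul _ _ hg'b, hL.toIM.const]
    rw [← h5]
    congr 1
    funext x
    rw [hg']
    have hCne : C ≠ 0 := hCpos.ne'
    field_simp
    ring
  have e5 : (∑ i ∈ range J, L (fun x => f x * g (x + v + i / d))) / J - L f * L g =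
      2 * C * ((∑ i ∈ range J, L (fun x => f x * g' (x + v + i / d))) / J - L f * L g') := by
    rw [Finset.sum_congr rfl e3, Finset.sum_add_distrib, ← Finset.mul_sum, Finset.sum_const,
      Finset.card_range, nsmul_eq_mul, e4]
    generalize ∑ i ∈ range J, L (fun x => f x * g' (x + v + i / d)) = s'
    have hJne : (J : ℝ) ≠ 0 := hJpos.ne'
    field_simp
    ring
  rw [e5, abs_mul, abs_of_pos (by linarith : (0 : ℝ) < 2 * C)]
  have h6 : |(∑ i ∈ range J, L (fun x => f x * g' (x + v + i / d))) / J - L f * L g'| ≤ η / (2 * C) := by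
    rw [abs_le]
    constructor
    · rw [neg_div] at h2
      linarith
    · linarith
  calc 2 * C * |(∑ i ∈ range J, L (fun x => f x * g' (x + v + i / d))) / J - L f * L g'|
      ≤ 2 * C * (η / (2 * C)) := mul_le_mul_of_nonneg_left h6 (by linarith)
    _ = η := by
      field_simp

end PGL
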