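import Pool.Agent.PGL.E4

/-! PGL / E5: the twisted mean ergodic theorem.

PROOF. Put `g x = conj (χ x) * h x`. Then `conj (χ(i/d)) h(x + i/d) = χ(x) g(x + i/d)`, so
`‖(1/J) ∑_i conj (χ(i/d)) h(x + i/d)‖² = ‖(1/J) ∑_i g(x + i/d)‖² = (A g₁)² + (A g₂)²`, `g₁, g₂` the real and the
imaginary part, `A g x = (1/J) ∑_i g(x + i/d)`. For real bounded `g` by invariance
`L((A g)²) = (1/J) ∑_{i'} (1/J) ∑_i L(g(x + i'/d) g(x + i/d)) = (1/J) ∑_{i'} (1/J) ∑_i L(g x * g(x - i'/d + i/d))`,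
each inner average is within `η` of `L(g)²` by `me` with `v = - i'/d`. And `‖Lc g‖² = L(g₁)² + L(g₂)²`.
`phi_sum`: expand the square and use invariance. -/

set_option autoImplicit false

open Finset

noncomputable section

namespace PGL

/-- the autocorrelation of `h` -/
def phi (L : (ℚ → ℝ) → ℝ) (h : ℚ → ℂ) (s : ℚ) : ℂ := Lc L (fun x => h (x + s) * (starRingEnd ℂ) (h x))

theorem phi_bdc {h : ℚ → ℂ} (hh : Bdc h) (s : ℚ) : Bdc (fun x => h (x + s) * (starRingEnd ℂ) (h x)) :=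
  (hh.shift s).mul hh.star

theorem phi_conj {L : (ℚ → ℝ) → ℝ} (hL : IM L) {h : ℚ → ℂ} (hh : Bdc h) (s : ℚ) :
    phi L h (-s) = (starRingEnd ℂ) (phi L h s) := by
  unfold phi
  rw [← Lc_conj hL.toPF (phi_bdc hh s), ← Lc_inv hL.toPF (phi_bdc hh (-s)) s]
  congr 1
  funext x
  rw [map_mul, Complex.conj_conj, add_neg_cancel_right]
  ring

theorem norm_phi_le {L : (ℚ → ℝ) → ℝ} (hL : IM L) {h : ℚ → ℂ} (hh : ∀ x, ‖h x‖ ≤ 1) (s : ℚ) :
    ‖phi L h s‖ ≤ 1 := by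
  have hb : Bdc h := ⟨1, hh⟩
  refine (norm_Lc_le hL.toPF (phi_bdc hb s)).trans ?_
  refine (le_abs_self _).trans (hL.abs_le fun x => ?_)
  rw [abs_norm, norm_mul, RCLike.norm_conj]
  have h1 := hh (x + s)
  have h2 := hh x
  have h3 := norm_nonneg (h (x + s))
  have h4 := norm_nonneg (h x)
  nlinarith

/-- the norm of a combination of translates -/
theorem phi_sum {L : (ℚ → ℝ) → ℝ} (hL : IM L) {h : ℚ → ℂ} (hh : Bdc h) (J : ℕ) (b : ℕ → ℂ) (s : ℕ → ℚ) :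
    (L (fun x => ‖∑ i ∈ range J, b i * h (x + s i)‖ ^ 2) : ℂ) =
      ∑ i ∈ range J, ∑ j ∈ range J, b i * (starRingEnd ℂ) (b j) * phi L h (s i - s j) := by
  rw [← Lc_ofReal hL.toPF]
  have e : (fun x => ((‖∑ i ∈ range J, b i * h (x + s i)‖ ^ 2 : ℝ) : ℂ)) =
      fun x => ∑ i ∈ range J, ∑ j ∈ range J,
        (b i * (starRingEnd ℂ) (b j)) * (h (x + s i) * (starRingEnd ℂ) (h (x + s j))) := by
    funext x
    rw [← Complex.normSq_eq_norm_sq, ← Complex.mul_conj, map_sum, Finset.sum_mul_sum]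
    refine Finset.sum_congr rfl fun i _ => Finset.sum_congr rfl fun j _ => ?_
    rw [map_mul]
    ring
  have hb : ∀ i j : ℕ, Bdc (fun x => h (x + s i) * (starRingEnd ℂ) (h (x + s j))) := fun i j =>
    (hh.shift (s i)).mul (hh.shift (s j)).star
  have hb2 : ∀ i j : ℕ, Bdc (fun x => (b i * (starRingEnd ℂ) (b j)) *
      (h (x + s i) * (starRingEnd ℂ) (h (x + s j)))) := fun i j => (Bdc.const _).mul (hb i j)
  rw [e, Lc_sum hL.toPF _ fun i _ => Bdc.sum _ fun j _ => hb2 i j]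
  refine Finset.sum_congr rfl fun i _ => ?_
  rw [Lc_sum hL.toPF _ fun j _ => hb2 i j]
  refine Finset.sum_congr rfl fun j _ => ?_
  rw [Lc_smul hL.toPF _ (hb i j)]
  congr 1
  unfold phi
  rw [← Lc_inv hL.toPF (phi_bdc hh (s i - s j)) (s j)]
  congr 1
  funext x
  rw [show x + s j + (s i - s j) = x + s i by ring]

/-- the real case -/
theorem me_sq {L : (ℚ → ℝ) → ℝ} (hL : Erg L) {g : ℚ → ℝ} (hg : Bdf g) (η : ℝ) (hη : 0 < η) :
    ∃ n₀ : ℕ, 0 < n₀ ∧ ∀ d J : ℕ, Nat.factorial n₀ ∣ d → 0 < d → n₀ * d ≤ J →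
      |L (fun x => ((∑ i ∈ range J, g (x + i / d)) / J) ^ 2) - L g ^ 2| ≤ η := by
  obtain ⟨n₀, hn₀, H⟩ := me hL hg hg η hη
  refine ⟨n₀, hn₀, fun d J hd hd0 hJ => ?_⟩
  have hJ0 : 0 < J := lt_of_lt_of_le (Nat.mul_pos hn₀ hd0) hJ
  have hJ' : (0 : ℝ) < J := by exact_mod_cast hJ0
  have hPF : PF L := hL.toIM.toPF
  have e : (fun x : ℚ => ((∑ i ∈ range J, g (x + i / d)) / J) ^ 2) =
      fun x => ((1 : ℝ) / J ^ 2) * ∑ i' ∈ range J, ∑ i ∈ range J, g (x + i' / d) * g (x + i / d) := by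
    funext x
    rw [div_pow, sq (∑ i ∈ range J, g (x + i / d)), Finset.sum_mul_sum]
    ring
  have hb : ∀ i' i : ℕ, Bdf (fun x : ℚ => g (x + i' / d) * g (x + i / d)) := fun i' i =>
    (hg.shift _).mul (hg.shift _)
  rw [e, hPF.smul _ _ (Bdf.sum _ fun i' _ => Bdf.sum _ fun i _ => hb i' i),
    hPF.sum _ fun i' _ => Bdf.sum _ fun i _ => hb i' i]
  have h1 : ∀ i' ∈ range J, |L (fun x : ℚ => ∑ i ∈ range J, g (x + i' / d) * g (x + i / d)) - J * L g ^ 2| ≤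
      J * η := by
    intro i' _
    have h2 := H d J hd hd0 hJ (-(i' : ℚ) / d)
    rw [hPF.sum _ fun i _ => hb i' i]
    have h3 : ∀ i ∈ range J, L (fun x : ℚ => g (x + i' / d) * g (x + i / d)) =
        L (fun x : ℚ => g x * g (x + (-(i' : ℚ) / d) + i / d)) := by
      intro i _
      rw [← hPF.inv (fun x : ℚ => g x * g (x + (-(i' : ℚ) / d) + i / d)) (i' / d)
        (by
          have e2 : (fun x : ℚ => g x * g (x + (-(i' : ℚ) / d) + i / d)) =
            fun x : ℚ => g x * g (x + ((-(i' : ℚ) / d) + i / d)) := by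
              funext x
              rw [add_assoc]
          rw [e2]
          exact hg.mul (hg.shift _))]
      congr 1
      funext x
      rw [show x + (i' : ℚ) / d + -(i' : ℚ) / d + (i : ℚ) / d = x + (i : ℚ) / d by ring]
    rw [Finset.sum_congr rfl h3]
    rw [← sq] at h2
    have h4 : (∑ i ∈ range J, L (fun x : ℚ => g x * g (x + (-(i' : ℚ) / d) + i / d))) - J * L g ^ 2 =
        J * ((∑ i ∈ range J, L (fun x : ℚ => g x * g (x + (-(i' : ℚ) / d) + i / d))) / J - L g ^ 2) := by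
      generalize (∑ i ∈ range J, L (fun x : ℚ => g x * g (x + (-(i' : ℚ) / d) + i / d))) = S
      field_simp
    rw [h4, abs_mul, abs_of_pos hJ']
    exact mul_le_mul_of_nonneg_left h2 hJ'.le
  have h5 : 1 / (J : ℝ) ^ 2 * ∑ i' ∈ range J, L (fun x : ℚ => ∑ i ∈ range J, g (x + i' / d) * g (x + i / d)) -
      L g ^ 2 = 1 / (J : ℝ) ^ 2 * ∑ i' ∈ range J,
        (L (fun x : ℚ => ∑ i ∈ range J, g (x + i' / d) * g (x + i / d)) - J * L g ^ 2) := by
    rw [Finset.sum_sub_distrib, Finset.sum_const, Finset.card_range, nsmul_eq_mul]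
    generalize (∑ i' ∈ range J, L (fun x : ℚ => ∑ i ∈ range J, g (x + i' / d) * g (x + i / d))) = S
    field_simp
  rw [h5, abs_mul]
  have h6 : |∑ i' ∈ range J,
        (L (fun x : ℚ => ∑ i ∈ range J, g (x + i' / d) * g (x + i / d)) - J * L g ^ 2)| ≤ J * (J * η) := by
    refine (Finset.abs_sum_le_sum_abs _ _).trans ?_
    refine (Finset.sum_le_sum h1).trans ?_
    rw [Finset.sum_const, Finset.card_range, nsmul_eq_mul]
  have h7 : |1 / (J : ℝ) ^ 2| = 1 / (J : ℝ) ^ 2 := abs_of_pos (by positivity)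
  rw [h7]
  calc 1 / (J : ℝ) ^ 2 * |∑ i' ∈ range J,
        (L (fun x : ℚ => ∑ i ∈ range J, g (x + i' / d) * g (x + i / d)) - J * L g ^ 2)|
      ≤ 1 / (J : ℝ) ^ 2 * (J * (J * η)) := mul_le_mul_of_nonneg_left h6 (by positivity)
    _ = η := by
      field_simp

theorem me_char {L : (ℚ → ℝ) → ℝ} (hL : Erg L) {h : ℚ → ℂ} (hh : Bdc h) (χ : Ch) (η : ℝ) (hη : 0 < η) :
    ∃ n₀ : ℕ, 0 < n₀ ∧ ∀ d J : ℕ, Nat.factorial n₀ ∣ d → 0 < d → n₀ * d ≤ J →
      |L (fun x => ‖(∑ i ∈ range J, (starRingEnd ℂ) (χ ((i : ℚ) / d) : ℂ) * h (x + i / d)) / J‖ ^ 2) -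
        ‖Lc L (fun x => h x * (starRingEnd ℂ) (χ x : ℂ))‖ ^ 2| ≤ η := by
  obtain ⟨g, hgdef⟩ : ∃ g : ℚ → ℂ, g = fun x => h x * (starRingEnd ℂ) (χ x : ℂ) := ⟨_, rfl⟩
  have hg : Bdc g := by
    rw [hgdef]
    exact hh.mul (Bdc.char χ).star
  obtain ⟨n₁, hn₁, H₁⟩ := me_sq hL hg.re (η / 2) (by linarith)
  obtain ⟨n₂, hn₂, H₂⟩ := me_sq hL hg.im (η / 2) (by linarith)
  refine ⟨max n₁ n₂, lt_of_lt_of_le hn₁ (le_max_left _ _), fun d J hd hd0 hJ => ?_⟩
  have hPF : PF L := hL.toIM.toPF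
  have K₁ := H₁ d J ((Nat.factorial_dvd_factorial (le_max_left _ _)).trans hd) hd0
    ((Nat.mul_le_mul_right d (le_max_left _ _)).trans hJ)
  have K₂ := H₂ d J ((Nat.factorial_dvd_factorial (le_max_right _ _)).trans hd) hd0
    ((Nat.mul_le_mul_right d (le_max_right _ _)).trans hJ)
  have e1 : (fun x : ℚ => ‖(∑ i ∈ range J, (starRingEnd ℂ) (χ ((i : ℚ) / d) : ℂ) * h (x + i / d)) / J‖ ^ 2) =
      fun x : ℚ => ((∑ i ∈ range J, (g (x + i / d)).re) / J) ^ 2 +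
        ((∑ i ∈ range J, (g (x + i / d)).im) / J) ^ 2 := by
    funext x
    have h1 : (∑ i ∈ range J, (starRingEnd ℂ) (χ ((i : ℚ) / d) : ℂ) * h (x + i / d)) / J =
        (χ x : ℂ) * ((∑ i ∈ range J, g (x + i / d)) / J) := by
      rw [← mul_div_assoc, Finset.mul_sum]
      congr 1
      refine Finset.sum_congr rfl fun i _ => ?_
      rw [hgdef]
      simp only
      rw [AddChar.map_add_eq_mul, Circle.coe_mul, map_mul]
      have h2 : (χ x : ℂ) * (starRingEnd ℂ) (χ x : ℂ) = 1 := by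
        rw [Complex.mul_conj, Complex.normSq_eq_norm_sq, Circle.norm_coe]
        norm_num
      linear_combination (-(starRingEnd ℂ) (χ ((i : ℚ) / d) : ℂ) * h (x + i / d)) * h2
    rw [h1, norm_mul, Circle.norm_coe, one_mul, ← Complex.normSq_eq_norm_sq, Complex.normSq_apply]
    rw [← Complex.re_sum, ← Complex.im_sum]
    rw [Complex.div_natCast_re, Complex.div_natCast_im]
    ring
  have hbA : ∀ {k : ℚ → ℝ}, Bdf k → Bdf (fun x : ℚ => ((∑ i ∈ range J, k (x + i / d)) / J) ^ 2) := by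
    intro k hk
    have e2 : (fun x : ℚ => ((∑ i ∈ range J, k (x + i / d)) / J) ^ 2) =
      fun x : ℚ => ((1 / J : ℝ) * (∑ i ∈ range J, k (x + i / d))) ^ 2 := by
        funext x
        congr 1
        ring
    rw [e2]
    exact ((Bdf.const _).mul (Bdf.sum _ fun i _ => hk.shift _)).pow 2
  rw [e1, hPF.add _ _ (hbA hg.re) (hbA hg.im)]
  have e3 : ‖Lc L (fun x => h x * (starRingEnd ℂ) (χ x : ℂ))‖ ^ 2 =
      L (fun x => (g x).re) ^ 2 + L (fun x => (g x).im) ^ 2 := by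
    rw [← hgdef, ← Complex.normSq_eq_norm_sq, Complex.normSq_apply]
    unfold Lc
    ring
  rw [e3]
  rw [abs_le] at K₁ K₂ ⊢
  constructor <;> linarith [K₁.1, K₁.2, K₂.1, K₂.2]

end PGL
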