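import Pool.Agent.PGL.E1

/-! PGL / E8: characters are orthonormal; Bessel and Parseval; Fejér kernels in characters.

PROOFS. `Lc_char_ne`: choose `v` with `χ v ≠ 1`; `Lc χ = Lc χ(· + v) = χ(v) Lc χ`. `parseval`: expand the square.
`hat_poly`: `Lc (ψ conj χ) = 0` for `ψ ≠ χ`. `bessel`: `0 ≤ L ‖f - ∑ hat f χ · χ‖²`, expand.
`spec_finite`: Bessel. `spec_tail`: let `s` be the supremum of `∑_{χ ∈ Ξ} ‖hat f χ‖²` over the finite sets `Ξ`, choose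
`Ξ₀` with `∑ ≥ s - η`.
`FJ`: `FJ M z = (1/M) ‖∑_{j<M} z^j‖²`. For `‖z‖ = 1`: `FJ M z = ∑_{|j|<M} (1 - |j|/M) z^j` (so `NN`),
`FJ M z (1 - Re z) = ‖1 - z^M‖² / (2M) ≤ 2 / M`, `FJ M z ≥ M / 2` if `‖z - 1‖ ≤ 1 / (2M)` (`‖∑ z^j - M‖ ≤ M² ‖z - 1‖ / 2`),
`FJ M (conj z) = FJ M z`.
`NN.mul`: multiply the sums, collect. `NN.hat`: `hat k ψ = c ψ` (or `0`), real, `≥ 0`, and `≤ L k` by
`‖Lc (k conj ψ)‖ ≤ L |k|`. `NN.le_mul`: `k' = ∑ c' ψ`, with `c' 1 ≥ 1`: `L (k k') = ∑ c'_ψ Lc (k ψ) ≥ c'_1 L k`. -/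

set_option autoImplicit false

open Finset

noncomputable section

namespace PGL

/-- Fourier coefficients -/
def hat (L : (ℚ → ℝ) → ℝ) (f : ℚ → ℂ) (χ : Ch) : ℂ := Lc L (fun x => f x * (starRingEnd ℂ) (χ x : ℂ))

/-- real trigonometric polynomials -/
def TPr (f : ℚ → ℝ) : Prop := ∃ (s : Finset Ch) (c : Ch → ℂ), ∀ x, (f x : ℂ) = ∑ ψ ∈ s, c ψ * (ψ x : ℂ)

/-- real trigonometric polynomials with nonnegative coefficients -/
def NN (f : ℚ → ℝ) : Prop :=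
  ∃ (s : Finset Ch) (c : Ch → ℝ), (∀ ψ, 0 ≤ c ψ) ∧ ∀ x, (f x : ℂ) = ∑ ψ ∈ s, (c ψ : ℂ) * (ψ x : ℂ)

/-- Fejér kernel -/
def FJ (M : ℕ) (z : ℂ) : ℝ := ‖∑ j ∈ range M, z ^ j‖ ^ 2 / M

section

variable {L : (ℚ → ℝ) → ℝ}

theorem Lc_char_ne (hL : IM L) {χ : Ch} (h : χ ≠ 1) : Lc L (fun x => (χ x : ℂ)) = 0 := by
  obtain ⟨v, hv⟩ := AddChar.ne_one_iff.1 h
  have h1 := Lc_inv hL.toPF (Bdc.char χ) v
  have h2 : (fun x => (χ (x + v) : ℂ)) = fun x => (χ v : ℂ) * (χ x : ℂ) := by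
    funext x
    rw [AddChar.map_add_eq_mul, Circle.coe_mul, mul_comm]
  rw [h2, Lc_smul hL.toPF (χ v : ℂ) (Bdc.char χ)] at h1
  have h3 : ((χ v : ℂ) - 1) * Lc L (fun x => (χ x : ℂ)) = 0 := by
    rw [sub_mul, one_mul, h1, sub_self]
  rcases mul_eq_zero.1 h3 with h4 | h4
  · exfalso
    apply hv
    apply Circle.ext
    rw [Circle.coe_one]
    exact sub_eq_zero.1 h4
  · exact h4

private theorem conj_ch (χ : Ch) (x : ℚ) : (starRingEnd ℂ) (χ x : ℂ) = ((χ⁻¹ : Ch) x : ℂ) := by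
  rw [AddChar.inv_apply', Circle.coe_inv_eq_conj]

private theorem orth (hL : IM L) (ψ χ : Ch) [Decidable (ψ = χ)] :
    Lc L (fun x => (ψ x : ℂ) * (starRingEnd ℂ) (χ x : ℂ)) = if ψ = χ then 1 else 0 := by
  have h1 : (fun x => (ψ x : ℂ) * (starRingEnd ℂ) (χ x : ℂ)) = fun x => ((ψ * χ⁻¹ : Ch) x : ℂ) := by
    funext x
    rw [conj_ch, AddChar.mul_apply, Circle.coe_mul]
  rw [h1]
  split_ifs with h
  · rw [h, mul_inv_cancel]
    simp only [AddChar.one_apply, Circle.coe_one]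
    exact Lc_one hL
  · refine Lc_char_ne hL fun h2 => h ?_
    exact mul_inv_eq_one.1 h2

theorem hat_poly (hL : IM L) (s : Finset Ch) (c : Ch → ℂ) {f : ℚ → ℂ}
    (hf : ∀ x, f x = ∑ ψ ∈ s, c ψ * (ψ x : ℂ)) (χ : Ch) [Decidable (χ ∈ s)] :
    hat L f χ = if χ ∈ s then c χ else 0 := by
  classical
  unfold hat
  have h1 : (fun x => f x * (starRingEnd ℂ) (χ x : ℂ)) =
      fun x => ∑ ψ ∈ s, c ψ * ((ψ x : ℂ) * (starRingEnd ℂ) (χ x : ℂ)) := by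
    funext x
    rw [hf x, sum_mul]
    exact sum_congr rfl fun ψ _ => mul_assoc _ _ _
  rw [h1, Lc_sum hL.toPF s (fun ψ _ => (Bdc.const _).mul ((Bdc.char ψ).mul (Bdc.char χ).star))]
  rw [sum_congr rfl (fun ψ _ => Lc_smul hL.toPF (c ψ) ((Bdc.char ψ).mul (Bdc.char χ).star))]
  rw [sum_congr rfl (fun ψ _ => by rw [orth hL ψ χ])]
  simp only [mul_ite, mul_one, mul_zero]
  rw [sum_ite_eq' s χ]
  by_cases h : χ ∈ s <;> simp [h]

private theorem bdc_of_poly (s : Finset Ch) (c : Ch → ℂ) {f : ℚ → ℂ}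
    (hf : ∀ x, f x = ∑ ψ ∈ s, c ψ * (ψ x : ℂ)) : Bdc f := by
  have : f = fun x => ∑ ψ ∈ s, c ψ * (ψ x : ℂ) := funext hf
  rw [this]
  exact Bdc.sum s fun ψ _ => (Bdc.const _).mul (Bdc.char ψ)

/-- the scalar product with a polynomial -/
private theorem inner_poly (hL : IM L) {f : ℚ → ℂ} (hf : Bdc f) (s : Finset Ch) (c : Ch → ℂ) {g : ℚ → ℂ}
    (hg : ∀ x, g x = ∑ ψ ∈ s, c ψ * (ψ x : ℂ)) :
    Lc L (fun x => f x * (starRingEnd ℂ) (g x)) = ∑ ψ ∈ s, (starRingEnd ℂ) (c ψ) * hat L f ψ := by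
  have h1 : (fun x => f x * (starRingEnd ℂ) (g x)) =
      fun x => ∑ ψ ∈ s, (starRingEnd ℂ) (c ψ) * (f x * (starRingEnd ℂ) (ψ x : ℂ)) := by
    funext x
    rw [hg x, map_sum, mul_sum]
    refine sum_congr rfl fun ψ _ => ?_
    rw [map_mul]
    ring
  rw [h1, Lc_sum hL.toPF s (fun ψ _ => (Bdc.const _).mul (hf.mul (Bdc.char ψ).star))]
  refine sum_congr rfl fun ψ _ => ?_
  rw [Lc_smul hL.toPF _ (hf.mul (Bdc.char ψ).star)]
  rfl

theorem parseval (hL : IM L) (s : Finset Ch) (c : Ch → ℂ) {f : ℚ → ℂ}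
    (hf : ∀ x, f x = ∑ ψ ∈ s, c ψ * (ψ x : ℂ)) : L (fun x => ‖f x‖ ^ 2) = ∑ ψ ∈ s, ‖c ψ‖ ^ 2 := by
  classical
  have h1 := inner_poly hL (bdc_of_poly s c hf) s c hf
  have h2 : (fun x => f x * (starRingEnd ℂ) (f x)) = fun x => ((‖f x‖ ^ 2 : ℝ) : ℂ) := by
    funext x
    rw [Complex.mul_conj, Complex.normSq_eq_norm_sq]
  rw [h2, Lc_ofReal hL.toPF] at h1
  have h3 : ∑ ψ ∈ s, (starRingEnd ℂ) (c ψ) * hat L f ψ = ((∑ ψ ∈ s, ‖c ψ‖ ^ 2 : ℝ) : ℂ) := by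
    rw [Complex.ofReal_sum]
    refine sum_congr rfl fun ψ hψ => ?_
    rw [hat_poly hL s c hf ψ, if_pos hψ, mul_comm, Complex.mul_conj, Complex.normSq_eq_norm_sq]
  rw [h3] at h1
  exact_mod_cast h1

theorem bessel (hL : IM L) {f : ℚ → ℂ} (hf : Bdc f) (s : Finset Ch) :
    ∑ χ ∈ s, ‖hat L f χ‖ ^ 2 ≤ L (fun x => ‖f x‖ ^ 2) := by
  set g : ℚ → ℂ := fun x => ∑ ψ ∈ s, hat L f ψ * (ψ x : ℂ) with hg
  have hgb : Bdc g := bdc_of_poly s (hat L f) (fun _ => rfl)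
  have h1 := parseval hL s (hat L f) (f := g) (fun _ => rfl)
  have h2 := inner_poly hL hf s (hat L f) (g := g) (fun _ => rfl)
  have h3 : (Lc L (fun x => f x * (starRingEnd ℂ) (g x))).re = ∑ χ ∈ s, ‖hat L f χ‖ ^ 2 := by
    rw [h2, Complex.re_sum]
    refine sum_congr rfl fun ψ _ => ?_
    rw [mul_comm, Complex.mul_conj, Complex.ofReal_re, Complex.normSq_eq_norm_sq]
  have h4 : (Lc L (fun x => f x * (starRingEnd ℂ) (g x))).re =
      L (fun x => (f x * (starRingEnd ℂ) (g x)).re) := rfl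
  rw [h4] at h3
  have hb1 : Bdf (fun x => ‖f x‖ ^ 2) := hf.norm.pow 2
  have hb2 : Bdf (fun x => ‖g x‖ ^ 2) := hgb.norm.pow 2
  have hb3 : Bdf (fun x => (f x * (starRingEnd ℂ) (g x)).re) := (hf.mul hgb.star).re
  have hb4 : Bdf (fun x => (-2) * (f x * (starRingEnd ℂ) (g x)).re) := (Bdf.const (-2)).mul hb3
  have h5 : 0 ≤ L (fun x => (‖f x‖ ^ 2 + ‖g x‖ ^ 2) + (-2) * (f x * (starRingEnd ℂ) (g x)).re) := by
    apply hL.pos _ ((hb1.add hb2).add hb4)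
    intro x
    have : (‖f x‖ ^ 2 + ‖g x‖ ^ 2) + (-2) * (f x * (starRingEnd ℂ) (g x)).re = ‖f x - g x‖ ^ 2 := by
      rw [← Complex.normSq_eq_norm_sq, ← Complex.normSq_eq_norm_sq, ← Complex.normSq_eq_norm_sq,
        Complex.normSq_sub]
      ring
    rw [this]
    positivity
  rw [hL.add _ _ (hb1.add hb2) hb4, hL.add _ _ hb1 hb2, hL.smul (-2) _ hb3, h1, h3] at h5
  linarith

theorem spec_finite (hL : IM L) {f : ℚ → ℂ} (hf : Bdc f) (σ : ℝ) (hσ : 0 < σ) :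
    {χ : Ch | σ ≤ ‖hat L f χ‖ ^ 2}.Finite := by
  by_contra h
  have hinf : {χ : Ch | σ ≤ ‖hat L f χ‖ ^ 2}.Infinite := h
  obtain ⟨n, hn⟩ := exists_nat_gt (L (fun x => ‖f x‖ ^ 2) / σ)
  obtain ⟨t, ht, hc⟩ := hinf.exists_subset_card_eq n
  have h1 := bessel hL hf t
  have h2 : (n : ℝ) * σ ≤ ∑ χ ∈ t, ‖hat L f χ‖ ^ 2 := by
    rw [← hc, ← nsmul_eq_mul, ← sum_const]
    exact sum_le_sum fun χ hχ => ht hχ
  rw [div_lt_iff₀ hσ] at hn
  linarith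

theorem spec_tail (hL : IM L) {f : ℚ → ℂ} (hf : Bdc f) (η : ℝ) (hη : 0 < η) :
    ∃ Ξ : Finset Ch, ∀ s : Finset Ch, Disjoint s Ξ → ∑ χ ∈ s, ‖hat L f χ‖ ^ 2 ≤ η := by
  classical
  set S : Set ℝ := Set.range (fun Ξ : Finset Ch => ∑ χ ∈ Ξ, ‖hat L f χ‖ ^ 2) with hS
  have hbdd : BddAbove S := by
    refine ⟨L (fun x => ‖f x‖ ^ 2), ?_⟩
    rintro _ ⟨Ξ, rfl⟩
    exact bessel hL hf Ξ
  have hne : S.Nonempty := Set.range_nonempty _
  obtain ⟨_, ⟨Ξ, rfl⟩, h2⟩ := exists_lt_of_lt_csSup hne (show sSup S - η < sSup S by linarith)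
  refine ⟨Ξ, fun s hs => ?_⟩
  have h3 : ∑ χ ∈ s ∪ Ξ, ‖hat L f χ‖ ^ 2 ≤ sSup S := le_csSup hbdd ⟨s ∪ Ξ, rfl⟩
  rw [sum_union hs] at h3
  simp only at h2
  linarith

end

theorem FJ_nonneg (M : ℕ) (z : ℂ) : 0 ≤ FJ M z := by
  unfold FJ
  positivity

theorem FJ_conj (M : ℕ) (z : ℂ) : FJ M ((starRingEnd ℂ) z) = FJ M z := by
  unfold FJ
  have : ∑ j ∈ range M, (starRingEnd ℂ) z ^ j = (starRingEnd ℂ) (∑ j ∈ range M, z ^ j) := by
    rw [map_sum]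
    exact sum_congr rfl fun j _ => (map_pow _ _ _).symm
  rw [this, Complex.norm_conj]

theorem FJ_conc {M : ℕ} (hM : 0 < M) {z : ℂ} (hz : ‖z‖ = 1) : FJ M z * (1 - z.re) ≤ 2 / M := by
  have hM' : (0 : ℝ) < M := by exact_mod_cast hM
  have h1 : ‖1 - z‖ ^ 2 = 2 * (1 - z.re) := by
    rw [← Complex.normSq_eq_norm_sq, Complex.normSq_sub, Complex.normSq_one,
      Complex.normSq_eq_norm_sq, hz]
    simp
    ring
  have h2 : (∑ j ∈ range M, z ^ j) * (1 - z) = 1 - z ^ M := by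
    have := geom_sum_mul_neg z M
    exact this
  have h3 : ‖∑ j ∈ range M, z ^ j‖ ^ 2 * ‖1 - z‖ ^ 2 = ‖1 - z ^ M‖ ^ 2 := by
    rw [← mul_pow, ← norm_mul, h2]
  have h4 : ‖1 - z ^ M‖ ≤ 2 := by
    calc ‖1 - z ^ M‖ ≤ ‖(1 : ℂ)‖ + ‖z ^ M‖ := norm_sub_le _ _
      _ = 2 := by rw [norm_one, norm_pow, hz, one_pow]; norm_num
  have h5 : ‖1 - z ^ M‖ ^ 2 ≤ 4 := by nlinarith [norm_nonneg (1 - z ^ M)]
  unfold FJ
  rw [div_mul_eq_mul_div, div_le_div_iff_of_pos_right hM']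
  rw [h1] at h3
  linarith

private theorem pow_sub_one_le {z : ℂ} (hz : ‖z‖ = 1) (j : ℕ) : ‖z ^ j - 1‖ ≤ j * ‖z - 1‖ := by
  induction j with
  | zero => simp
  | succ j ih =>
    have h : z ^ (j + 1) - 1 = z ^ j * (z - 1) + (z ^ j - 1) := by ring
    rw [h]
    calc ‖z ^ j * (z - 1) + (z ^ j - 1)‖ ≤ ‖z ^ j * (z - 1)‖ + ‖z ^ j - 1‖ := norm_add_le _ _
      _ ≤ ‖z - 1‖ + j * ‖z - 1‖ := by
          rw [norm_mul, norm_pow, hz, one_pow, one_mul]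
          linarith
      _ = ((j + 1 : ℕ) : ℝ) * ‖z - 1‖ := by push_cast; ring

theorem FJ_large {M : ℕ} (hM : 0 < M) {z : ℂ} (hz : ‖z‖ = 1) (h : ‖z - 1‖ ≤ 1 / (2 * M)) : (M : ℝ) / 2 ≤ FJ M z := by
  have hM' : (0 : ℝ) < M := by exact_mod_cast hM
  have h1 : ‖∑ j ∈ range M, z ^ j - M‖ ≤ (M : ℝ) ^ 2 / 2 * ‖z - 1‖ := by
    have e1 : ∑ j ∈ range M, z ^ j - M = ∑ j ∈ range M, (z ^ j - 1) := by
      rw [sum_sub_distrib, sum_const, card_range, nsmul_eq_mul, mul_one]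
    rw [e1]
    calc ‖∑ j ∈ range M, (z ^ j - 1)‖ ≤ ∑ j ∈ range M, ‖z ^ j - 1‖ := norm_sum_le _ _
      _ ≤ ∑ j ∈ range M, (j : ℝ) * ‖z - 1‖ := sum_le_sum fun j _ => pow_sub_one_le hz j
      _ = (∑ j ∈ range M, (j : ℝ)) * ‖z - 1‖ := (sum_mul _ _ _).symm
      _ ≤ (M : ℝ) ^ 2 / 2 * ‖z - 1‖ := by
          apply mul_le_mul_of_nonneg_right _ (norm_nonneg _)
          have e2 := Finset.sum_range_id_mul_two M
          have e3 : (∑ j ∈ range M, (j : ℝ)) * 2 = (M : ℝ) * ((M - 1 : ℕ) : ℝ) := by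
            rw [← Nat.cast_mul, ← e2, Nat.cast_mul, Nat.cast_sum]
            norm_num
          have e4 : ((M - 1 : ℕ) : ℝ) ≤ M := by exact_mod_cast Nat.sub_le M 1
          nlinarith
  have h2 : (M : ℝ) ^ 2 / 2 * ‖z - 1‖ ≤ M / 4 := by
    calc (M : ℝ) ^ 2 / 2 * ‖z - 1‖ ≤ (M : ℝ) ^ 2 / 2 * (1 / (2 * M)) :=
          mul_le_mul_of_nonneg_left h (by positivity)
      _ = M / 4 := by field_simp; ring
  have h3 : (M : ℝ) - M / 4 ≤ ‖∑ j ∈ range M, z ^ j‖ := by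
    have e1 : ‖(M : ℂ)‖ = M := by simp
    have e2 : ‖(M : ℂ)‖ ≤ ‖∑ j ∈ range M, z ^ j‖ + ‖∑ j ∈ range M, z ^ j - M‖ := by
      have : (M : ℂ) = (∑ j ∈ range M, z ^ j) - (∑ j ∈ range M, z ^ j - M) := by ring
      calc ‖(M : ℂ)‖ = ‖(∑ j ∈ range M, z ^ j) - (∑ j ∈ range M, z ^ j - M)‖ := by rw [← this]
        _ ≤ _ := norm_sub_le _ _
    rw [e1] at e2
    linarith
  unfold FJ
  rw [div_le_div_iff₀ (by norm_num) hM']
  have h4 : (3 / 4 * (M : ℝ)) ^ 2 ≤ ‖∑ j ∈ range M, z ^ j‖ ^ 2 := by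
    apply pow_le_pow_left₀ (by positivity)
    linarith
  nlinarith

theorem FJ_le {M : ℕ} (hM : 0 < M) {z : ℂ} (hz : ‖z‖ = 1) : FJ M z ≤ M := by
  have hM' : (0 : ℝ) < M := by exact_mod_cast hM
  have h1 : ‖∑ j ∈ range M, z ^ j‖ ≤ M := by
    calc ‖∑ j ∈ range M, z ^ j‖ ≤ ∑ j ∈ range M, ‖z ^ j‖ := norm_sum_le _ _
      _ = M := by
          rw [sum_congr rfl (fun j _ => by rw [norm_pow, hz, one_pow]), sum_const, card_range,
            nsmul_eq_mul, mul_one]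
  unfold FJ
  rw [div_le_iff₀ hM']
  nlinarith [norm_nonneg (∑ j ∈ range M, z ^ j)]

/-- counting pairs by their difference -/
private theorem diff_sum (g : ℤ → ℂ) (M : ℕ) :
    ∑ i ∈ range M, ∑ k ∈ range M, g ((i : ℤ) - k) =
      ∑ j ∈ Ioo (-(M : ℤ)) M, (((M : ℤ) - |j| : ℤ) : ℂ) * g j := by
  rw [← Finset.sum_product' (range M) (range M) (fun (i k : ℕ) => g ((i : ℤ) - k))]
  rw [← sum_fiberwise_of_maps_to (s := range M ×ˢ range M) (t := Ioo (-(M : ℤ)) M)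
    (g := fun x : ℕ × ℕ => (x.1 : ℤ) - x.2)]
  · refine sum_congr rfl fun j hj => ?_
    rw [mem_Ioo] at hj
    rw [sum_congr rfl (g := fun _ => g j) (fun x hx => by rw [(mem_filter.1 hx).2]), sum_const,
      nsmul_eq_mul]
    congr 1
    have hcard : ((range M ×ˢ range M).filter (fun x : ℕ × ℕ => (x.1 : ℤ) - x.2 = j)).card =
        M - j.natAbs := by
      rw [← card_range (M - j.natAbs)]
      symm
      refine card_nbij' (fun t => (t + j.toNat, t + (-j).toNat)) (fun x => min x.1 x.2) ?_ ?_ ?_ ?_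
      · intro t ht
        have ht' := mem_range.1 (mem_coe.1 ht)
        refine mem_coe.2 (mem_filter.2 ⟨mem_product.2 ⟨mem_range.2 ?_, mem_range.2 ?_⟩, ?_⟩)
        · show t + j.toNat < M
          omega
        · show t + (-j).toNat < M
          omega
        · show ((t + j.toNat : ℕ) : ℤ) - ((t + (-j).toNat : ℕ) : ℤ) = j
          omega
      · intro x hx
        have hx' := mem_filter.1 (mem_coe.1 hx)
        have h1 := mem_product.1 hx'.1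
        have h2 := mem_range.1 h1.1
        have h3 := mem_range.1 h1.2
        have h4 := hx'.2
        refine mem_coe.2 (mem_range.2 ?_)
        show min x.1 x.2 < M - j.natAbs
        omega
      · intro t _
        show min (t + j.toNat) (t + (-j).toNat) = t
        omega
      · intro x hx
        have hx' := mem_filter.1 (mem_coe.1 hx)
        have h4 := hx'.2
        show (min x.1 x.2 + j.toNat, min x.1 x.2 + (-j).toNat) = x
        apply Prod.ext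
        · show min x.1 x.2 + j.toNat = x.1
          omega
        · show min x.1 x.2 + (-j).toNat = x.2
          omega
    rw [hcard]
    have h5 : ((M - j.natAbs : ℕ) : ℤ) = (M : ℤ) - |j| := by
      rw [Int.abs_eq_natAbs]
      omega
    rw [← h5]
    push_cast
    rfl
  · intro x hx
    have h1 := mem_product.1 hx
    have h2 := mem_range.1 h1.1
    have h3 := mem_range.1 h1.2
    rw [mem_Ioo]
    omega

/-- the Fejér kernel of a character: nonnegative coefficients at the powers `χ ^ j`, `|j| < M`, coefficient one at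
the trivial character if `χ` has infinite order or is trivial -/
theorem FJ_expand {M : ℕ} (hM : 0 < M) (χ : Ch) (x : ℚ) :
    (FJ M (χ x : ℂ) : ℂ) = ∑ j ∈ Ioo (-(M : ℤ)) M, ((1 - |(j : ℝ)| / M : ℝ) : ℂ) * ((χ ^ j : Ch) x : ℂ) := by
  have hM' : (M : ℂ) ≠ 0 := by exact_mod_cast hM.ne'
  have hMr : (M : ℝ) ≠ 0 := by exact_mod_cast hM.ne'
  set z : Circle := χ x with hz
  have hz0 : (z : ℂ) ≠ 0 := by
    intro h0
    have := Circle.norm_coe z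
    rw [h0, norm_zero] at this
    exact zero_ne_one this
  have h1 : ((‖∑ j ∈ range M, (z : ℂ) ^ j‖ ^ 2 : ℝ) : ℂ) =
      ∑ i ∈ range M, ∑ k ∈ range M, (z : ℂ) ^ ((i : ℤ) - k) := by
    rw [← Complex.normSq_eq_norm_sq, ← Complex.mul_conj, map_sum, sum_mul_sum]
    refine sum_congr rfl fun i _ => sum_congr rfl fun k _ => ?_
    rw [map_pow, ← Circle.coe_inv_eq_conj, Circle.coe_inv, zpow_sub₀ hz0, zpow_natCast, zpow_natCast,
      inv_pow, div_eq_mul_inv]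
  unfold FJ
  rw [Complex.ofReal_div, Complex.ofReal_natCast]
  have h2 := diff_sum (fun j => (z : ℂ) ^ j) M
  rw [h1, h2, sum_div]
  refine sum_congr rfl fun j _ => ?_
  rw [AddChar.zpow_apply, Circle.coe_zpow]
  have h3 : ((((M : ℤ) - |j| : ℤ) : ℂ)) = ((M * (1 - |(j : ℝ)| / M) : ℝ) : ℂ) := by
    have : (((M : ℤ) - |j| : ℤ) : ℝ) = M * (1 - |(j : ℝ)| / M) := by
      push_cast
      field_simp
    rw [← this, Complex.ofReal_intCast]
  rw [h3]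
  push_cast
  rw [hz]
  field_simp

/-- sums over any finite family -/
private theorem NN.of_sum {ι : Type} (I : Finset ι) (c : ι → ℝ) (ψ : ι → Ch) (hc : ∀ i ∈ I, 0 ≤ c i)
    {f : ℚ → ℝ} (h : ∀ x, (f x : ℂ) = ∑ i ∈ I, (c i : ℂ) * (ψ i x : ℂ)) : NN f := by
  classical
  refine ⟨I.image ψ, fun χ => ∑ i ∈ I.filter (fun i => ψ i = χ), c i, ?_, ?_⟩
  · intro χ
    exact sum_nonneg fun i hi => hc i (mem_filter.1 hi).1
  · intro x
    rw [h x, ← sum_fiberwise_of_maps_to (s := I) (t := I.image ψ) (g := ψ)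
      (fun i hi => mem_image_of_mem ψ hi)]
    refine sum_congr rfl fun χ _ => ?_
    rw [Complex.ofReal_sum, sum_mul]
    refine sum_congr rfl fun i hi => ?_
    rw [(mem_filter.1 hi).2]

theorem NN.bdf {f : ℚ → ℝ} (h : NN f) : Bdf f := by
  obtain ⟨s, c, h1, h2⟩ := h
  refine ⟨∑ ψ ∈ s, c ψ, fun x => ?_⟩
  have h3 : |f x| = ‖(f x : ℂ)‖ := by rw [Complex.norm_real, Real.norm_eq_abs]
  rw [h3, h2 x]
  refine le_trans (norm_sum_le _ _) (sum_le_sum fun ψ _ => ?_)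
  rw [norm_mul, Circle.norm_coe, mul_one, Complex.norm_real, Real.norm_eq_abs,
    abs_of_nonneg (h1 ψ)]

theorem NN.tpr {f : ℚ → ℝ} (h : NN f) : TPr f := by
  obtain ⟨s, c, _, h2⟩ := h
  exact ⟨s, fun ψ => (c ψ : ℂ), h2⟩

theorem NN.one : NN (fun _ => 1) := by
  refine NN.of_sum ({()} : Finset Unit) (fun _ => 1) (fun _ => 1) (fun _ _ => zero_le_one) ?_
  intro x
  simp

theorem NN.mul {f g : ℚ → ℝ} (hf : NN f) (hg : NN g) : NN (fun x => f x * g x) := by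
  obtain ⟨s, c, h1, h2⟩ := hf
  obtain ⟨t, d, h3, h4⟩ := hg
  refine NN.of_sum (s ×ˢ t) (fun q => c q.1 * d q.2) (fun q => q.1 * q.2)
    (fun q _ => mul_nonneg (h1 _) (h3 _)) ?_
  intro x
  rw [Complex.ofReal_mul, h2 x, h4 x, sum_mul_sum, sum_product]
  refine sum_congr rfl fun ψ _ => sum_congr rfl fun φ _ => ?_
  rw [AddChar.mul_apply, Circle.coe_mul, Complex.ofReal_mul]
  ring

theorem NN.FJ {M : ℕ} (hM : 0 < M) (χ : Ch) : NN (fun x => PGL.FJ M (χ x : ℂ)) := by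
  have hM' : (0 : ℝ) < M := by exact_mod_cast hM
  refine NN.of_sum (Ioo (-(M : ℤ)) M) (fun j => 1 - |(j : ℝ)| / M) (fun j => χ ^ j) ?_
    (fun x => FJ_expand hM χ x)
  intro j hj
  rw [mem_Ioo] at hj
  rw [sub_nonneg, div_le_one hM']
  have : |j| ≤ (M : ℤ) := abs_le.2 ⟨hj.1.le, hj.2.le⟩
  exact_mod_cast this

theorem NN.hat {L : (ℚ → ℝ) → ℝ} (hL : IM L) {f : ℚ → ℝ} (h : NN f) (h0 : ∀ x, 0 ≤ f x) (ψ : Ch) :
    ∃ a : ℝ, 0 ≤ a ∧ a ≤ L f ∧ PGL.hat L (fun x => (f x : ℂ)) ψ = a := by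
  classical
  have hb := h.bdf
  obtain ⟨s, c, h1, h2⟩ := h
  have h3 := hat_poly hL s (fun ψ => (c ψ : ℂ)) (f := fun x => (f x : ℂ)) h2 ψ
  have hle : ‖PGL.hat L (fun x => (f x : ℂ)) ψ‖ ≤ L f := by
    unfold PGL.hat
    refine le_trans (norm_Lc_le hL.toPF (hb.toC.mul (Bdc.char ψ).star)) ?_
    refine le_of_eq ?_
    congr 1
    funext x
    rw [norm_mul, Complex.norm_conj, Circle.norm_coe, mul_one, Complex.norm_real, Real.norm_eq_abs,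
      abs_of_nonneg (h0 x)]
  refine ⟨if ψ ∈ s then c ψ else 0, ?_, ?_, ?_⟩
  · split_ifs
    · exact h1 ψ
    · exact le_rfl
  · have h4 : ‖PGL.hat L (fun x => (f x : ℂ)) ψ‖ = if ψ ∈ s then c ψ else 0 := by
      rw [h3]
      split_ifs
      · rw [Complex.norm_real, Real.norm_eq_abs, abs_of_nonneg (h1 ψ)]
      · exact norm_zero
    rw [← h4]
    exact hle
  · rw [h3]
    split_ifs
    · rfl
    · simp

theorem NN.le_mul {L : (ℚ → ℝ) → ℝ} (hL : IM L) {f : ℚ → ℝ} (h : NN f) {M : ℕ} (hM : 0 < M) (χ : Ch) :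
    L f ≤ L (fun x => f x * PGL.FJ M (χ x : ℂ)) := by
  classical
  have hM' : (0 : ℝ) < M := by exact_mod_cast hM
  have hb := h.bdf
  obtain ⟨s, c, h1, h2⟩ := h
  have hhat : ∀ ψ : Ch, PGL.hat L (fun x => (f x : ℂ)) ψ = ((if ψ ∈ s then c ψ else 0 : ℝ) : ℂ) := by
    intro ψ
    have h3 := hat_poly hL s (fun ψ => (c ψ : ℂ)) (f := fun x => (f x : ℂ)) h2 ψ
    rw [h3]
    split_ifs
    · rfl
    · simp
  have hnn : ∀ ψ : Ch, 0 ≤ (if ψ ∈ s then c ψ else 0 : ℝ) := by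
    intro ψ
    split_ifs
    · exact h1 ψ
    · exact le_rfl
  have e0 : ((L f : ℝ) : ℂ) = ((if (1 : Ch) ∈ s then c 1 else 0 : ℝ) : ℂ) := by
    rw [← hhat 1]
    unfold PGL.hat
    rw [← Lc_ofReal hL.toPF f]
    congr 1
    funext x
    simp
  have e0' : L f = (if (1 : Ch) ∈ s then c 1 else 0 : ℝ) := by exact_mod_cast e0
  have e1 : ((L (fun x => f x * PGL.FJ M (χ x : ℂ)) : ℝ) : ℂ) =
      ((∑ j ∈ Ioo (-(M : ℤ)) M, (1 - |(j : ℝ)| / M) *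
        (if (χ ^ (-j) : Ch) ∈ s then c (χ ^ (-j)) else 0) : ℝ) : ℂ) := by
    rw [← Lc_ofReal hL.toPF]
    have e2 : (fun x => ((f x * PGL.FJ M (χ x : ℂ) : ℝ) : ℂ)) = fun x =>
        ∑ j ∈ Ioo (-(M : ℤ)) M, ((1 - |(j : ℝ)| / M : ℝ) : ℂ) *
          ((f x : ℂ) * (starRingEnd ℂ) ((χ ^ (-j) : Ch) x : ℂ)) := by
      funext x
      rw [Complex.ofReal_mul, FJ_expand hM χ x, mul_sum]
      refine sum_congr rfl fun j _ => ?_
      rw [conj_ch, zpow_neg, inv_inv]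
      ring
    rw [e2, Lc_sum hL.toPF _ (fun j _ => (Bdc.const _).mul (hb.toC.mul (Bdc.char _).star)),
      Complex.ofReal_sum]
    refine sum_congr rfl fun j _ => ?_
    rw [Lc_smul hL.toPF _ (hb.toC.mul (Bdc.char _).star), Complex.ofReal_mul, ← hhat]
    rfl
  have e3 : L (fun x => f x * PGL.FJ M (χ x : ℂ)) =
      ∑ j ∈ Ioo (-(M : ℤ)) M, (1 - |(j : ℝ)| / M) *
        (if (χ ^ (-j) : Ch) ∈ s then c (χ ^ (-j)) else 0) := by exact_mod_cast e1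
  rw [e3, e0']
  have hmem : (0 : ℤ) ∈ Ioo (-(M : ℤ)) M := by
    rw [mem_Ioo]
    constructor <;> omega
  have e4 := single_le_sum (f := fun j : ℤ => (1 - |(j : ℝ)| / M) *
      (if (χ ^ (-j) : Ch) ∈ s then c (χ ^ (-j)) else 0 : ℝ)) (s := Ioo (-(M : ℤ)) M) ?_ hmem
  · simpa using e4
  · intro j hj
    rw [mem_Ioo] at hj
    apply mul_nonneg _ (hnn _)
    rw [sub_nonneg, div_le_one hM']
    have : |j| ≤ (M : ℤ) := abs_le.2 ⟨hj.1.le, hj.2.le⟩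
    exact_mod_cast this

end PGL
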