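import Pool.Agent.PGL.E8

/-! PGL / E9: Fejér-Bohr kernels and smoothing.

PROOFS. `Kf Ξ M = ∏_{χ ∈ Ξ} FJ M (χ x)`: `NN.mul`, `NN.FJ`, induction on `Ξ`. `Kf_ge_one`: induction with `NN.le_mul`,
`L 1 = 1`. `Kf_even`: `χ(-x) = conj (χ x)`, `FJ_conj`. `Kf_conc`: `Kf Ξ M (1 - Re χ) = Kf (Ξ \ χ) M · FJ M(χ) (1 - Re χ)
≤ (2/M) Kf (Ξ \ χ) M` (`FJ_conc`) and `L (Kf (Ξ \ χ) M) ≤ L (Kf Ξ M)` (`NN.le_mul`).
`Sm u Ξ M x = L_y (u(y) Kf(x - y)) / L Kf`. `Kf(x - y) = ∑ c_ψ ψ(x) conj ψ(y)`, so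
`Sm x = ∑ (c_ψ / L Kf) hat u ψ · ψ(x)` (with distinct `ψ`), a trigonometric polynomial with coefficients
`aK ψ * hat u ψ`, `aK ψ = Lc (Kf conj ψ) / L Kf ∈ [0, 1]` (`NN.hat`). `Sm_mem`: `0 ≤ u ≤ 1`, `Kf ≥ 0`, and
`L_y Kf(x - y) = L Kf` (invariance and evenness). `aK_conc`: `1 - aK ψ = L(Kf (1 - Re ψ)) / L Kf ≤ 2/M` for `ψ ∈ Ξ`
(the imaginary part vanishes, `NN.hat`). `hat_Sm`: `hat_poly`. -/

set_option autoImplicit false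

open Finset

noncomputable section

namespace PGL

/-- Fejér-Bohr kernel -/
def Kf (Ξ : Finset Ch) (M : ℕ) (x : ℚ) : ℝ := ∏ χ ∈ Ξ, FJ M (χ x : ℂ)

/-- smoothing with a Fejér-Bohr kernel -/
def Sm (L : (ℚ → ℝ) → ℝ) (u : ℚ → ℝ) (Ξ : Finset Ch) (M : ℕ) (x : ℚ) : ℝ :=
  L (fun y => u y * Kf Ξ M (x - y)) / L (Kf Ξ M)

/-- the multiplier of the smoothing -/
def aK (L : (ℚ → ℝ) → ℝ) (Ξ : Finset Ch) (M : ℕ) (ψ : Ch) : ℝ :=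
  (hat L (fun x => (Kf Ξ M x : ℂ)) ψ).re / L (Kf Ξ M)

variable {L : (ℚ → ℝ) → ℝ}

private theorem Kf_insert {χ : Ch} {Ξ : Finset Ch} (h : χ ∉ Ξ) (M : ℕ) :
    Kf (insert χ Ξ) M = fun x => Kf Ξ M x * FJ M (χ x : ℂ) := by
  funext x
  unfold Kf
  rw [Finset.prod_insert h, mul_comm]

private theorem Kf_erase {χ : Ch} {Ξ : Finset Ch} (h : χ ∈ Ξ) (M : ℕ) (x : ℚ) :
    Kf Ξ M x = Kf (Ξ.erase χ) M x * FJ M (χ x : ℂ) := by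
  unfold Kf
  rw [mul_comm]
  exact (Finset.mul_prod_erase Ξ (fun χ : Ch => FJ M (χ x : ℂ)) h).symm

private theorem char_neg (χ : Ch) (x : ℚ) : ((χ (-x) : Circle) : ℂ) = (starRingEnd ℂ) (χ x : ℂ) := by
  rw [AddChar.map_neg_eq_inv, Circle.coe_inv_eq_conj]

private theorem char_sub (χ : Ch) (x y : ℚ) :
    ((χ (x - y) : Circle) : ℂ) = (χ x : ℂ) * (starRingEnd ℂ) (χ y : ℂ) := by
  rw [sub_eq_add_neg, AddChar.map_add_eq_mul, Circle.coe_mul, char_neg]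

theorem Kf_NN (Ξ : Finset Ch) {M : ℕ} (hM : 0 < M) : NN (Kf Ξ M) := by
  induction Ξ using Finset.induction_on with
  | empty =>
    have : Kf ∅ M = fun _ => 1 := by
      funext x
      simp [Kf]
    rw [this]
    exact NN.one
  | insert χ Ξ h ih =>
    rw [Kf_insert h]
    exact ih.mul (NN.FJ hM χ)

theorem Kf_nonneg (Ξ : Finset Ch) (M : ℕ) (x : ℚ) : 0 ≤ Kf Ξ M x := by
  exact Finset.prod_nonneg fun χ _ => FJ_nonneg _ _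

theorem Kf_even (Ξ : Finset Ch) (M : ℕ) (x : ℚ) : Kf Ξ M (-x) = Kf Ξ M x := by
  unfold Kf
  refine Finset.prod_congr rfl fun χ _ => ?_
  rw [char_neg, FJ_conj]

theorem Kf_ge_one (hL : IM L) (Ξ : Finset Ch) {M : ℕ} (hM : 0 < M) : 1 ≤ L (Kf Ξ M) := by
  induction Ξ using Finset.induction_on with
  | empty =>
    have : Kf ∅ M = fun _ => 1 := by
      funext x
      simp [Kf]
    rw [this, hL.one]
  | insert χ Ξ h ih =>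
    rw [Kf_insert h]
    exact ih.trans (NN.le_mul hL (Kf_NN Ξ hM) hM χ)

theorem Kf_conc (hL : IM L) (Ξ : Finset Ch) {M : ℕ} (hM : 0 < M) {χ : Ch} (hχ : χ ∈ Ξ) :
    L (fun x => Kf Ξ M x * (1 - (χ x : ℂ).re)) ≤ 2 / M * L (Kf Ξ M) := by
  have hb : Bdf (Kf Ξ M) := (Kf_NN Ξ hM).bdf
  have hb' : Bdf (Kf (Ξ.erase χ) M) := (Kf_NN (Ξ.erase χ) hM).bdf
  have hc : Bdf (fun x => 1 - (χ x : ℂ).re) := (Bdf.const 1).sub (Bdc.char χ).re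
  have h1 : L (fun x => Kf Ξ M x * (1 - (χ x : ℂ).re)) ≤ L (fun x => (2 / (M : ℝ)) * Kf (Ξ.erase χ) M x) := by
    refine hL.toPF.mono (hb.mul hc) ((Bdf.const _).mul hb') fun x => ?_
    rw [Kf_erase hχ, mul_assoc]
    have h2 : FJ M (χ x : ℂ) * (1 - (χ x : ℂ).re) ≤ 2 / M := FJ_conc hM (by simp)
    calc Kf (Ξ.erase χ) M x * (FJ M (χ x : ℂ) * (1 - (χ x : ℂ).re)) ≤ Kf (Ξ.erase χ) M x * (2 / M) :=
          mul_le_mul_of_nonneg_left h2 (Kf_nonneg _ _ _)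
      _ = 2 / M * Kf (Ξ.erase χ) M x := mul_comm _ _
  rw [hL.toPF.smul _ _ hb'] at h1
  refine h1.trans (mul_le_mul_of_nonneg_left ?_ (by positivity))
  have h3 : Kf Ξ M = fun x => Kf (Ξ.erase χ) M x * FJ M (χ x : ℂ) := by
    funext x
    exact Kf_erase hχ M x
  rw [h3]
  exact NN.le_mul hL (Kf_NN _ hM) hM χ

theorem aK_mem (hL : IM L) (Ξ : Finset Ch) {M : ℕ} (hM : 0 < M) (ψ : Ch) :
    0 ≤ aK L Ξ M ψ ∧ aK L Ξ M ψ ≤ 1 := by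
  obtain ⟨a, h0, h1, h2⟩ := NN.hat hL (Kf_NN Ξ hM) (Kf_nonneg Ξ M) ψ
  have hp : 0 < L (Kf Ξ M) := lt_of_lt_of_le one_pos (Kf_ge_one hL Ξ hM)
  unfold aK
  rw [h2, Complex.ofReal_re]
  exact ⟨div_nonneg h0 hp.le, (div_le_one hp).2 h1⟩

theorem aK_one (hL : IM L) (Ξ : Finset Ch) {M : ℕ} (hM : 0 < M) : aK L Ξ M 1 = 1 := by
  have hp : 0 < L (Kf Ξ M) := lt_of_lt_of_le one_pos (Kf_ge_one hL Ξ hM)
  unfold aK hat Lc
  have h : (fun x : ℚ => ((Kf Ξ M x : ℂ) * (starRingEnd ℂ) (((1 : Ch) x : Circle) : ℂ)).re) = Kf Ξ M := by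
    funext x
    simp
  simp only [h]
  exact div_self hp.ne'

theorem aK_conc (hL : IM L) (Ξ : Finset Ch) {M : ℕ} (hM : 0 < M) {ψ : Ch} (hψ : ψ ∈ Ξ) :
    1 - 2 / M ≤ aK L Ξ M ψ := by
  have hp : 0 < L (Kf Ξ M) := lt_of_lt_of_le one_pos (Kf_ge_one hL Ξ hM)
  have hb : Bdf (Kf Ξ M) := (Kf_NN Ξ hM).bdf
  have hc : Bdf (fun x => 1 - (ψ x : ℂ).re) := (Bdf.const 1).sub (Bdc.char ψ).re
  have h : (hat L (fun x => (Kf Ξ M x : ℂ)) ψ).re =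
      L (fun x => Kf Ξ M x - Kf Ξ M x * (1 - (ψ x : ℂ).re)) := by
    unfold hat Lc
    have h : (fun x : ℚ => ((Kf Ξ M x : ℂ) * (starRingEnd ℂ) ((ψ x : Circle) : ℂ)).re) =
        fun x => Kf Ξ M x - Kf Ξ M x * (1 - (ψ x : ℂ).re) := by
      funext x
      rw [Complex.re_ofReal_mul, Complex.conj_re]
      ring
    simp only [h]
  have h2 := Kf_conc hL Ξ hM hψ
  unfold aK
  rw [h, hL.toPF.sub hb (hb.mul hc), le_div_iff₀ hp]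
  linarith

theorem Sm_mem (hL : IM L) {u : ℚ → ℝ} (hu : ∀ x, 0 ≤ u x ∧ u x ≤ 1) (Ξ : Finset Ch) {M : ℕ} (hM : 0 < M) (x : ℚ) :
    0 ≤ Sm L u Ξ M x ∧ Sm L u Ξ M x ≤ 1 := by
  have hp : 0 < L (Kf Ξ M) := lt_of_lt_of_le one_pos (Kf_ge_one hL Ξ hM)
  have hb : Bdf (Kf Ξ M) := (Kf_NN Ξ hM).bdf
  have hub : Bdf u := ⟨1, fun x => abs_le.2 ⟨by linarith [(hu x).1], (hu x).2⟩⟩
  have he : (fun y => Kf Ξ M (x - y)) = fun y => Kf Ξ M (y + -x) := by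
    funext y
    rw [← Kf_even Ξ M (x - y)]
    congr 1
    ring
  have hKb : Bdf (fun y => Kf Ξ M (x - y)) := by
    rw [he]
    exact hb.shift (-x)
  have hK : L (fun y => Kf Ξ M (x - y)) = L (Kf Ξ M) := by
    rw [he]
    exact hL.toPF.inv _ (-x) hb
  unfold Sm
  refine ⟨div_nonneg (hL.toPF.pos _ (hub.mul hKb) fun y => mul_nonneg (hu y).1 (Kf_nonneg _ _ _)) hp.le, ?_⟩
  rw [div_le_one hp, ← hK]
  refine hL.toPF.mono (hub.mul hKb) hKb fun y => ?_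
  exact mul_le_of_le_one_left (Kf_nonneg _ _ _) (hu y).2

private theorem Sm_poly' (hL : IM L) {u : ℚ → ℝ} (hu : Bdf u) (Ξ : Finset Ch) {M : ℕ} (hM : 0 < M) :
    ∃ s : Finset Ch, (∀ ψ, ψ ∉ s → aK L Ξ M ψ = 0) ∧ ∀ x, (Sm L u Ξ M x : ℂ) =
      ∑ ψ ∈ s, (aK L Ξ M ψ : ℂ) * hat L (fun x => (u x : ℂ)) ψ * (ψ x : ℂ) := by
  classical
  obtain ⟨s, c, _, hs⟩ := Kf_NN Ξ hM
  have hhat : ∀ ψ, hat L (fun x => (Kf Ξ M x : ℂ)) ψ = if ψ ∈ s then (c ψ : ℂ) else 0 :=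
    fun ψ => hat_poly hL s (fun ψ => (c ψ : ℂ)) hs ψ
  refine ⟨s, fun ψ hψ => ?_, fun x => ?_⟩
  · unfold aK
    rw [hhat, if_neg hψ]
    simp
  · have h1 : ((L (fun y => u y * Kf Ξ M (x - y)) : ℝ) : ℂ) =
        ∑ ψ ∈ s, ((c ψ : ℂ) * (ψ x : ℂ)) * hat L (fun x => (u x : ℂ)) ψ := by
      rw [← Lc_ofReal hL.toPF]
      have h2 : (fun y => (((u y * Kf Ξ M (x - y) : ℝ)) : ℂ)) = fun y =>
          ∑ ψ ∈ s, ((c ψ : ℂ) * (ψ x : ℂ)) * ((u y : ℂ) * (starRingEnd ℂ) (ψ y : ℂ)) := by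
        funext y
        rw [Complex.ofReal_mul, hs, Finset.mul_sum]
        refine Finset.sum_congr rfl fun ψ _ => ?_
        rw [char_sub]
        ring
      rw [h2, Lc_sum hL.toPF]
      · refine Finset.sum_congr rfl fun ψ _ => ?_
        rw [Lc_smul hL.toPF _ (hu.toC.mul (Bdc.char ψ).star)]
        rfl
      · intro ψ _
        exact (Bdc.const _).mul (hu.toC.mul (Bdc.char ψ).star)
    unfold Sm
    rw [Complex.ofReal_div, h1, Finset.sum_div]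
    refine Finset.sum_congr rfl fun ψ hψ => ?_
    unfold aK
    rw [hhat, if_pos hψ]
    push_cast
    simp only [Complex.ofReal_re]
    ring

theorem Sm_poly (hL : IM L) {u : ℚ → ℝ} (hu : Bdf u) (Ξ : Finset Ch) {M : ℕ} (hM : 0 < M) :
    ∃ s : Finset Ch, ∀ x, (Sm L u Ξ M x : ℂ) =
      ∑ ψ ∈ s, (aK L Ξ M ψ : ℂ) * hat L (fun x => (u x : ℂ)) ψ * (ψ x : ℂ) := by
  obtain ⟨s, _, hs⟩ := Sm_poly' hL hu Ξ hM
  exact ⟨s, hs⟩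

theorem hat_Sm (hL : IM L) {u : ℚ → ℝ} (hu : Bdf u) (Ξ : Finset Ch) {M : ℕ} (hM : 0 < M) (ψ : Ch) :
    hat L (fun x => (Sm L u Ξ M x : ℂ)) ψ = (aK L Ξ M ψ : ℂ) * hat L (fun x => (u x : ℂ)) ψ := by
  classical
  obtain ⟨s, h0, hs⟩ := Sm_poly' hL hu Ξ hM
  rw [hat_poly hL s (fun ψ => (aK L Ξ M ψ : ℂ) * hat L (fun x => (u x : ℂ)) ψ) hs ψ]
  split_ifs with h
  · rfl
  · rw [h0 ψ h]
    simp

end PGL
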