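import Pool.Agent.PGL.GS1
import Pool.Agent.PGB.Main

/-! PGL / GS2: the sum of products of Selberg weights over the primes of a progression.

PROOF. `lam_dl`: in `∑_{B ⊇ A} dl B / ph B` only `B = ∅` contributes. Hence `rho_dl`. Expand as in `gs1`: the sum is
`∑_{(D_i)} ∏ ρ_i(D_i) ∑_n fp(n + h i₀)` over `n ∈ (N, 2N]`, `n ≡ b (q)`, `p ∣ n + h_i` for `p ∈ D_i`. By `rho_dl` only
tuples with `D i₀ = ∅` matter, and by `hh` only pairwise disjoint ones. With `m = n + h i₀` the inner sum is
`∑ fp(m)` over `N + H < m ≤ 2N + H` (`H = h i₀`), `m ≡ b + H (q)`, `m ≡ H - h_i (p)` for `p ∈ D_i`: one class `a`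
modulo `q r`, `r = pr (⋃ D_i)` (Chinese remainder theorem), coprime to `q r` because of `hcop` and
`H ≢ h_i mod p`. `class_psi` compares it with `Psi N (q r) a` (shifting the range costs at most `H log (3N)` at each
end, `Λ ≥ fp` and the prime powers contribute at most `ψ(2N) - θ(2N) ≤ 2 √(2N) log (2N)`,
`Chebyshev.abs_psi_sub_theta_le_sqrt_mul_log`), and `hE` compares this with `X / φ(q r)`,
`φ(q r) = φ(q) ∏ ph (D_i)`; `al (1 / (p - 1)) D = 1 / ph D`. -/

set_option autoImplicit false

open Finset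

noncomputable section

namespace PGL

/-- the cost of the change from `fp` in a shifted range to `Λ` -/
def SE (N H : ℕ) : ℝ := 10 * (H + √N) * Real.log (3 * N)

theorem lam_dl (V A : Finset ℕ) : lam V dl A = if A = ∅ then 1 else 0 := by
  unfold lam
  by_cases h : A = ∅
  · subst h
    rw [if_pos rfl, Finset.sum_eq_single ∅]
    · simp [dl, ph, pr]
    · intro B _ hB
      simp [dl, hB]
    · intro h
      simp at h
  · rw [if_neg h]
    have h0 : ∑ B ∈ V.powerset with A ⊆ B, dl B / ph B = 0 := by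
      apply Finset.sum_eq_zero
      intro B hB
      rw [mem_filter] at hB
      have : B ≠ ∅ := by
        rintro rfl
        exact h (Finset.subset_empty.1 hB.2)
      simp [dl, this]
    rw [h0, mul_zero]

theorem rho_dl (V D : Finset ℕ) : rho V dl dl D = if D = ∅ then 1 else 0 := by
  unfold rho
  simp only [lam_dl]
  by_cases h : D = ∅
  · subst h
    rw [if_pos rfl, Finset.sum_eq_single (∅, ∅)]
    · simp
    · rintro ⟨a, b⟩ _ hab
      by_cases ha : a = ∅
      · by_cases hb : b = ∅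
        · subst ha hb
          exact absurd rfl hab
        · simp [hb]
      · simp [ha]
    · intro h
      simp at h
  · rw [if_neg h]
    apply Finset.sum_eq_zero
    rintro ⟨a, b⟩ hab
    rw [mem_filter] at hab
    by_cases ha : a = ∅
    · by_cases hb : b = ∅
      · subst ha hb
        exact absurd (by simpa using hab.2.symm) h
      · simp [hb]
    · simp [ha]

theorem Lam_dl (V : Finset ℕ) (n : ℕ) : Lam V dl n = 1 := by
  unfold Lam LamS
  rw [Finset.sum_eq_single ∅]
  · simp [dl, ph]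
  · intro B _ hB
    simp [dl, hB]
  · intro h
    simp at h

theorem fp_nonneg (m : ℕ) : 0 ≤ fp m := by
  unfold fp
  split_ifs with h
  · exact Real.log_nonneg (by exact_mod_cast h.one_le)
  · exact le_rfl

theorem fp_le (m : ℕ) : fp m ≤ ArithmeticFunction.vonMangoldt m := by
  unfold fp
  split_ifs with h
  · rw [ArithmeticFunction.vonMangoldt_apply_prime h]
  · exact ArithmeticFunction.vonMangoldt_nonneg

theorem fp_block {a k M : ℕ} (Q b : ℕ) (hM : a + k ≤ M) :
    0 ≤ ∑ m ∈ (Ioc a (a + k)).filter (· ≡ b [MOD Q]), fp m ∧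
      ∑ m ∈ (Ioc a (a + k)).filter (· ≡ b [MOD Q]), fp m ≤ k * Real.log M := by
  refine ⟨Finset.sum_nonneg fun m _ => fp_nonneg m, ?_⟩
  calc ∑ m ∈ (Ioc a (a + k)).filter (· ≡ b [MOD Q]), fp m
      ≤ ∑ m ∈ Ioc a (a + k), fp m :=
        Finset.sum_le_sum_of_subset_of_nonneg (Finset.filter_subset _ _)
          fun m _ _ => fp_nonneg m
    _ ≤ ∑ m ∈ Ioc a (a + k), Real.log M := by
        apply Finset.sum_le_sum
        intro m hm
        rw [mem_Ioc] at hm
        have h1 : (0 : ℝ) < m := by exact_mod_cast (by omega : 0 < m)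
        have h2 : (m : ℝ) ≤ M := by exact_mod_cast (by omega : m ≤ M)
        exact ((fp_le m).trans ArithmeticFunction.vonMangoldt_le_log).trans
          (Real.log_le_log h1 h2)
    _ = k * Real.log M := by
        rw [Finset.sum_const, Nat.card_Ioc, nsmul_eq_mul]
        congr 2
        omega

theorem fp_split {a b c : ℕ} (hab : a ≤ b) (hbc : b ≤ c) (Q r : ℕ) :
    ∑ m ∈ (Ioc a c).filter (· ≡ r [MOD Q]), fp m =
      ∑ m ∈ (Ioc a b).filter (· ≡ r [MOD Q]), fp m +
        ∑ m ∈ (Ioc b c).filter (· ≡ r [MOD Q]), fp m := by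
  rw [← Finset.sum_union]
  · apply Finset.sum_congr _ fun _ _ => rfl
    ext m
    simp only [mem_filter, mem_union, mem_Ioc]
    constructor
    · rintro ⟨⟨h1, h2⟩, h3⟩
      rcases le_or_gt m b with h | h
      · exact Or.inl ⟨⟨h1, h⟩, h3⟩
      · exact Or.inr ⟨⟨h, h2⟩, h3⟩
    · rintro (⟨⟨h1, h2⟩, h3⟩ | ⟨⟨h1, h2⟩, h3⟩)
      · exact ⟨⟨h1, by omega⟩, h3⟩
      · exact ⟨⟨by omega, h2⟩, h3⟩
  · rw [Finset.disjoint_left]
    intro m h1 h2
    rw [mem_filter, mem_Ioc] at h1 h2
    omega

theorem class_psi {N H : ℕ} (hN : 2 ≤ N) (hH : H ≤ N) (Q a : ℕ) :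
    |∑ m ∈ (Ioc (N + H) (2 * N + H)).filter (· ≡ a [MOD Q]), fp m - PGB.Psi N Q a| ≤ SE N H := by
  have hN0 : (0 : ℝ) < N := by exact_mod_cast (by omega : 0 < N)
  have hlog : 0 ≤ Real.log (3 * N) := by
    apply Real.log_nonneg
    have : (2 : ℝ) ≤ N := by exact_mod_cast hN
    linarith
  have s1 := fp_split (a := N) (b := N + H) (c := 2 * N + H) (by omega) (by omega) Q a
  have s2 := fp_split (a := N) (b := 2 * N) (c := 2 * N + H) (by omega) (by omega) Q a
  have b1 := fp_block (a := N) (k := H) (M := 3 * N) Q a (by omega)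
  have b2 := fp_block (a := 2 * N) (k := H) (M := 3 * N) Q a (by omega)
  push_cast at b1 b2
  have h3 : |∑ m ∈ (Ioc N (2 * N)).filter (· ≡ a [MOD Q]), fp m - PGB.Psi N Q a| ≤
      3 * √N * Real.log (3 * N) := by
    unfold PGB.Psi
    rw [← Finset.sum_sub_distrib]
    have h4 : ∀ m, |fp m - ArithmeticFunction.vonMangoldt m| =
        ArithmeticFunction.vonMangoldt m - fp m := by
      intro m
      rw [abs_sub_comm, abs_of_nonneg]
      linarith [fp_le m]
    have h5 : ∑ m ∈ Ioc 0 (2 * N), (ArithmeticFunction.vonMangoldt m - fp m) =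
        Chebyshev.psi (2 * N : ℕ) - Chebyshev.theta (2 * N : ℕ) := by
      rw [Chebyshev.psi_sub_theta_eq_sum_not_prime, Nat.floor_natCast, Finset.sum_filter]
      apply Finset.sum_congr rfl
      intro m _
      unfold fp
      by_cases hm : m.Prime
      · simp [hm, ArithmeticFunction.vonMangoldt_apply_prime]
      · simp [hm]
    have h6 : (1 : ℝ) ≤ ((2 * N : ℕ) : ℝ) := by exact_mod_cast (by omega : 1 ≤ 2 * N)
    have h7 := Chebyshev.psi_sub_theta_le h6
    calc |∑ m ∈ (Ioc N (2 * N)).filter (· ≡ a [MOD Q]),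
          (fp m - ArithmeticFunction.vonMangoldt m)|
        ≤ ∑ m ∈ (Ioc N (2 * N)).filter (· ≡ a [MOD Q]),
          |fp m - ArithmeticFunction.vonMangoldt m| := Finset.abs_sum_le_sum_abs _ _
      _ = ∑ m ∈ (Ioc N (2 * N)).filter (· ≡ a [MOD Q]),
          (ArithmeticFunction.vonMangoldt m - fp m) :=
          Finset.sum_congr rfl fun m _ => h4 m
      _ ≤ ∑ m ∈ Ioc 0 (2 * N), (ArithmeticFunction.vonMangoldt m - fp m) := by
          apply Finset.sum_le_sum_of_subset_of_nonneg
          · intro m hm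
            rw [mem_filter, mem_Ioc] at hm
            rw [mem_Ioc]
            omega
          · intro m _ _
            linarith [fp_le m]
      _ ≤ 2 * √((2 * N : ℕ) : ℝ) * Real.log ((2 * N : ℕ) : ℝ) := by rw [h5]; exact h7
      _ ≤ 3 * √N * Real.log (3 * N) := by
          have g1 : √((2 * N : ℕ) : ℝ) ≤ 3 / 2 * √N := by
            rw [Real.sqrt_le_left (by positivity), mul_pow, Real.sq_sqrt hN0.le]
            push_cast
            linarith
          have g2 : Real.log ((2 * N : ℕ) : ℝ) ≤ Real.log (3 * N) := by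
            apply Real.log_le_log (by linarith)
            push_cast
            linarith
          have g3 : 0 ≤ Real.log ((2 * N : ℕ) : ℝ) := Real.log_nonneg h6
          calc 2 * √((2 * N : ℕ) : ℝ) * Real.log ((2 * N : ℕ) : ℝ)
              ≤ 2 * (3 / 2 * √N) * Real.log (3 * N) :=
                mul_le_mul (mul_le_mul_of_nonneg_left g1 (by norm_num)) g2 g3 (by positivity)
            _ = 3 * √N * Real.log (3 * N) := by ring
  unfold SE
  have h8 : 0 ≤ (H : ℝ) * Real.log (3 * N) := by positivity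
  have h9 : 0 ≤ √(N : ℝ) * Real.log (3 * N) := by positivity
  rw [abs_le] at h3 ⊢
  constructor <;> nlinarith [h3.1, h3.2, b1.1, b1.2, b2.1, b2.2]

theorem lam_mul_expand (V : Finset ℕ) (y y' : Finset ℕ → ℝ) (n : ℕ) :
    Lam V y n * Lam V y' n =
      ∑ D ∈ V.powerset, if ∀ p ∈ D, p ∣ n then rho V y y' D else 0 := by
  unfold Lam
  rw [rho_sum V y y' (Finset.filter_subset _ _), ← Finset.sum_filter]
  apply Finset.sum_congr _ fun _ _ => rfl
  ext D
  rw [mem_powerset, mem_filter, mem_powerset, Finset.subset_iff]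
  simp only [mem_filter]
  constructor
  · intro h
    exact ⟨fun p hp => (h hp).1, fun p hp => (h hp).2⟩
  · rintro ⟨h1, h2⟩ p hp
    exact ⟨h1 hp, h2 p hp⟩

theorem pr_totient {V B : Finset ℕ} (hV : ∀ p ∈ V, p.Prime) (hB : B ⊆ V) :
    ((Nat.totient (pr B) : ℕ) : ℝ) = ∏ p ∈ B, ((p : ℝ) - 1) := by
  induction B using Finset.induction_on with
  | empty => simp [pr]
  | insert p B hp ih =>
    have hB' : B ⊆ V := fun x hx => hB (mem_insert_of_mem hx)
    have hpV := hV p (hB (mem_insert_self _ _))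
    have hco : Nat.Coprime p (pr B) := by
      unfold pr
      apply Nat.Coprime.prod_right
      intro r hr
      refine (Nat.coprime_primes hpV (hV r (hB' hr))).2 ?_
      rintro rfl
      exact hp hr
    have e1 : pr (insert p B) = p * pr B := by
      unfold pr
      rw [Finset.prod_insert hp]
    rw [e1, Nat.totient_mul hco, Finset.prod_insert hp, Nat.totient_prime hpV]
    push_cast
    rw [ih hB', Nat.cast_sub hpV.one_le]
    push_cast
    ring

theorem pr_coprime {V B : Finset ℕ} (hV : ∀ p ∈ V, p.Prime) (hB : B ⊆ V) {q : ℕ}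
    (hqV : ∀ p ∈ V, ¬ p ∣ q) : Nat.Coprime q (pr B) := by
  unfold pr
  apply Nat.Coprime.prod_right
  intro p hp
  exact ((hV p (hB hp)).coprime_iff_not_dvd.2 (hqV p (hB hp))).symm

theorem modEq_pr {V B : Finset ℕ} (hV : ∀ p ∈ V, p.Prime) (hB : B ⊆ V) {m a : ℕ} :
    m ≡ a [MOD pr B] ↔ ∀ p ∈ B, m ≡ a [MOD p] := by
  constructor
  · intro h p hp
    exact h.of_dvd (Finset.dvd_prod_of_mem _ hp)
  · intro h
    rw [Nat.modEq_iff_dvd]
    unfold pr
    push_cast
    apply Finset.prod_dvd_of_coprime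
    · intro p hp r hr hpr
      exact Nat.isCoprime_iff_coprime.2
        ((Nat.coprime_primes (hV p (hB hp)) (hV r (hB hr))).2 hpr)
    · intro p hp
      exact (Nat.modEq_iff_dvd).1 (h p hp)

/-- the Chinese remainder theorem for one tuple -/
theorem crt_class {ι : Type*} [Fintype ι] (i₀ : ι) (V : Finset ℕ) (hV : ∀ p ∈ V, p.Prime)
    (q b : ℕ) (hqV : ∀ p ∈ V, ¬ p ∣ q) (h : ι → ℕ)
    (hh : ∀ p ∈ V, ∀ i j, i ≠ j → ¬ h i ≡ h j [MOD p]) (hcop : (b + h i₀).Coprime q)
    {D : ι → Finset ℕ} (hD : D ∈ tup ι V) (hD0 : D i₀ = ∅) :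
    ∃ a : ℕ, a.Coprime (q * pr (univ.biUnion D)) ∧
      ∀ n : ℕ, (n ≡ b [MOD q] ∧ ∀ i, ∀ p ∈ D i, p ∣ n + h i) ↔
        n + h i₀ ≡ a [MOD q * pr (univ.biUnion D)] := by
  classical
  rw [mem_tup] at hD
  obtain ⟨hDV, hDd⟩ := hD
  set B := univ.biUnion D with hBdef
  have hBV : B ⊆ V := by
    intro p hp
    rw [hBdef, mem_biUnion] at hp
    obtain ⟨i, -, hi⟩ := hp
    exact hDV i hi
  have hidx : ∀ p ∈ B, ∃ i, p ∈ D i := by
    intro p hp
    rw [hBdef, mem_biUnion] at hp
    obtain ⟨i, -, hi⟩ := hp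
    exact ⟨i, hi⟩
  have : Nonempty ι := ⟨i₀⟩
  choose! ix hix using hidx
  have hmemB : ∀ i, ∀ p ∈ D i, p ∈ B := by
    intro i p hp
    rw [hBdef, mem_biUnion]
    exact ⟨i, mem_univ _, hp⟩
  have hixu : ∀ i, ∀ p ∈ D i, ix p = i := by
    intro i p hp
    by_contra hne
    exact Finset.disjoint_left.1 (hDd _ _ hne) (hix p (hmemB i p hp)) hp
  have hcopB : Nat.Coprime q (pr B) := pr_coprime hV hBV hqV
  obtain ⟨k, hk⟩ := Nat.chineseRemainderOfFinset
    (fun p => h i₀ + (p - 1) * h (ix p)) (fun p => p) B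
    (fun p hp => (hV p (hBV hp)).ne_zero)
    (fun p hp r hr hpr => (Nat.coprime_primes (hV p (hBV hp)) (hV r (hBV hr))).2 hpr)
  obtain ⟨a, ha1, ha2⟩ := Nat.chineseRemainder hcopB (b + h i₀) k
  have hap : ∀ i, ∀ p ∈ D i, a + h i ≡ h i₀ [MOD p] := by
    intro i p hp
    have hpB := hmemB i p hp
    have hpp := hV p (hBV hpB)
    have h1 : a ≡ k [MOD p] := ha2.of_dvd (Finset.dvd_prod_of_mem _ hpB)
    have h2 := hk p hpB
    rw [hixu i p hp] at h2
    have h3 : a + h i ≡ h i₀ + (p - 1) * h i + h i [MOD p] := (h1.trans h2).add_right _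
    refine h3.trans ?_
    have h4 : h i₀ + (p - 1) * h i + h i = h i₀ + p * h i := by
      obtain ⟨t, ht⟩ : ∃ t, p = t + 1 := ⟨p - 1, by have := hpp.one_le; omega⟩
      rw [ht]
      simp only [Nat.add_sub_cancel]
      ring
    rw [h4]
    have h5 : p * h i ≡ 0 [MOD p] := (Nat.modEq_zero_iff_dvd).2 (Dvd.intro _ rfl)
    simpa using (Nat.ModEq.refl (h i₀)).add h5
  refine ⟨a, ?_, ?_⟩
  · apply Nat.Coprime.mul_right
    · have : Nat.gcd a q = Nat.gcd (b + h i₀) q := ha1.gcd_eq
      rw [Nat.Coprime, this]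
      exact hcop
    · unfold pr
      apply Nat.Coprime.prod_right
      intro p hp
      have hpp := hV p (hBV hp)
      refine (hpp.coprime_iff_not_dvd.2 ?_).symm
      intro hdv
      have hi := hix p hp
      have hne : ix p ≠ i₀ := by
        intro he
        rw [he, hD0] at hi
        simp at hi
      have h1 := hap (ix p) p hi
      have h2 : a ≡ 0 [MOD p] := (Nat.modEq_zero_iff_dvd).2 hdv
      have h3 : h (ix p) ≡ h i₀ [MOD p] := by
        have h4 := (h2.symm.add_right (h (ix p))).trans h1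
        simpa using h4
      exact hh p (hBV hp) (ix p) i₀ hne h3
  · intro n
    rw [← Nat.modEq_and_modEq_iff_modEq_mul hcopB, modEq_pr hV hBV]
    constructor
    · rintro ⟨h1, h2⟩
      refine ⟨(h1.add_right _).trans ha1.symm, ?_⟩
      intro p hp
      have hi := hix p hp
      have h3 := hap (ix p) p hi
      have h4 : n + h (ix p) ≡ 0 [MOD p] := (Nat.modEq_zero_iff_dvd).2 (h2 _ p hi)
      have h5 : n + h i₀ + h (ix p) ≡ a + h (ix p) [MOD p] := by
        have h6 : n + h i₀ + h (ix p) = n + h (ix p) + h i₀ := by ring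
        rw [h6]
        have h7 := h4.add_right (h i₀)
        rw [Nat.zero_add] at h7
        exact h7.trans h3.symm
      exact Nat.ModEq.add_right_cancel' _ h5
    · rintro ⟨h1, h2⟩
      refine ⟨Nat.ModEq.add_right_cancel' (h i₀) (h1.trans ha1), ?_⟩
      intro i p hp
      have h3 := hap i p hp
      have h4 := h2 p (hmemB i p hp)
      have h5 : n + h i + h i₀ ≡ 0 + h i₀ [MOD p] := by
        have h6 : n + h i + h i₀ = n + h i₀ + h i := by ring
        rw [h6, Nat.zero_add]
        exact (h4.add_right (h i)).trans h3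
      exact (Nat.modEq_zero_iff_dvd).1 (Nat.ModEq.add_right_cancel' _ h5)

theorem gs2 {ι : Type*} [Fintype ι] (i₀ : ι) (V : Finset ℕ) (hV : ∀ p ∈ V, p.Prime) (q N b : ℕ) (hq : 0 < q)
    (hqV : ∀ p ∈ V, ¬ p ∣ q) (h : ι → ℕ) (hh : ∀ p ∈ V, ∀ i j, i ≠ j → ¬ h i ≡ h j [MOD p])
    (hcop : (b + h i₀).Coprime q) (hN : 2 ≤ N) (hH : h i₀ ≤ N)
    (y y' : ι → Finset ℕ → ℝ) (hy : y i₀ = dl) (hy' : y' i₀ = dl) (E : ℕ → ℝ)
    (hE : ∀ B ⊆ V, ∀ a : ℕ, a.Coprime (q * pr B) →
      |PGB.Psi N (q * pr B) a - PGB.Psi N 1 0 / (Nat.totient (q * pr B) : ℝ)| ≤ E (pr B)) :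
    |∑ n ∈ (Ioc N (2 * N)).filter (· ≡ b [MOD q]),
        fp (n + h i₀) * ∏ i, (Lam V (y i) (n + h i) * Lam V (y' i) (n + h i)) -
      PGB.Psi N 1 0 / (Nat.totient q : ℝ) *
        TT V (fun i D => rho V (y i) (y' i) D * al (fun p => 1 / ((p : ℝ) - 1)) D)| ≤
      ∑ D ∈ tup ι V, (∏ i, |rho V (y i) (y' i) (D i)|) * (E (pr (univ.biUnion D)) + SE N (h i₀)) := by
  classical
  -- the inner sums
  set S : (ι → Finset ℕ) → ℝ := fun D =>
    ∑ n ∈ (Ioc N (2 * N)).filter (fun n => n ≡ b [MOD q] ∧ ∀ i, ∀ p ∈ D i, p ∣ n + h i),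
      fp (n + h i₀) with hS
  have hmain : ∑ n ∈ (Ioc N (2 * N)).filter (· ≡ b [MOD q]),
        fp (n + h i₀) * ∏ i, (Lam V (y i) (n + h i) * Lam V (y' i) (n + h i)) =
      ∑ D ∈ tup ι V, (∏ i, rho V (y i) (y' i) (D i)) * S D := by
    have e1 : ∀ n, ∏ i, (Lam V (y i) (n + h i) * Lam V (y' i) (n + h i)) =
        ∑ D ∈ Fintype.piFinset fun _ : ι => V.powerset,
          if ∀ i, ∀ p ∈ D i, p ∣ n + h i then ∏ i, rho V (y i) (y' i) (D i) else 0 := by
      intro n
      have e2 : ∏ i, (Lam V (y i) (n + h i) * Lam V (y' i) (n + h i)) =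
          ∏ i, ∑ D ∈ V.powerset, if ∀ p ∈ D, p ∣ n + h i then rho V (y i) (y' i) D else 0 :=
        Finset.prod_congr rfl fun i _ => lam_mul_expand V (y i) (y' i) (n + h i)
      rw [e2, Finset.prod_univ_sum]
      apply Finset.sum_congr rfl
      intro D _
      rw [Finset.prod_ite_zero]
      simp
    have e3 : ∑ n ∈ (Ioc N (2 * N)).filter (· ≡ b [MOD q]),
        fp (n + h i₀) * ∏ i, (Lam V (y i) (n + h i) * Lam V (y' i) (n + h i)) =
        ∑ D ∈ Fintype.piFinset fun _ : ι => V.powerset,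
          (∏ i, rho V (y i) (y' i) (D i)) * S D := by
      calc _ = ∑ n ∈ (Ioc N (2 * N)).filter (· ≡ b [MOD q]),
            ∑ D ∈ Fintype.piFinset fun _ : ι => V.powerset,
              (∏ i, rho V (y i) (y' i) (D i)) *
                if ∀ i, ∀ p ∈ D i, p ∣ n + h i then fp (n + h i₀) else 0 := by
            apply Finset.sum_congr rfl
            intro n _
            rw [e1 n, Finset.mul_sum]
            apply Finset.sum_congr rfl
            intro D _
            split_ifs
            · ring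
            · simp
        _ = _ := by
            rw [Finset.sum_comm]
            apply Finset.sum_congr rfl
            intro D _
            rw [← Finset.mul_sum, hS]
            simp only
            rw [← Finset.sum_filter, Finset.filter_filter]
    rw [e3]
    unfold tup
    rw [Finset.sum_filter]
    apply Finset.sum_congr rfl
    intro D hD
    split_ifs with hP
    · rfl
    · have hS0 : S D = 0 := by
        rw [hS]
        simp only
        apply Finset.sum_eq_zero
        intro n hn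
        exfalso
        apply hP
        rw [mem_filter] at hn
        intro i j hij
        rw [Finset.disjoint_left]
        intro p hpi hpj
        have hpV : p ∈ V := by
          have := Fintype.mem_piFinset.1 hD i
          exact (mem_powerset.1 this) hpi
        have h1 := hn.2.2 i p hpi
        have h2 := hn.2.2 j p hpj
        apply hh p hpV i j hij
        have h3 : n + h i ≡ n + h j [MOD p] :=
          ((Nat.modEq_zero_iff_dvd).2 h1).trans ((Nat.modEq_zero_iff_dvd).2 h2).symm
        exact Nat.ModEq.add_left_cancel' n h3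
      rw [hS0, mul_zero]
  have hTT : PGB.Psi N 1 0 / (Nat.totient q : ℝ) *
        TT V (fun i D => rho V (y i) (y' i) D * al (fun p => 1 / ((p : ℝ) - 1)) D) =
      ∑ D ∈ tup ι V, (∏ i, rho V (y i) (y' i) (D i)) *
        (PGB.Psi N 1 0 / (Nat.totient q : ℝ) * ∏ i, al (fun p => 1 / ((p : ℝ) - 1)) (D i)) := by
    unfold TT
    rw [Finset.mul_sum]
    apply Finset.sum_congr rfl
    intro D _
    rw [Finset.prod_mul_distrib]
    ring
  rw [hmain, hTT, ← Finset.sum_sub_distrib]
  refine (Finset.abs_sum_le_sum_abs _ _).trans ?_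
  apply Finset.sum_le_sum
  intro D hD
  rw [← mul_sub, abs_mul, Finset.abs_prod]
  by_cases hD0 : D i₀ = ∅
  · apply mul_le_mul_of_nonneg_left _ (Finset.prod_nonneg fun _ _ => abs_nonneg _)
    obtain ⟨a, hacop, hacl⟩ := crt_class i₀ V hV q b hqV h hh hcop hD hD0
    have hDV := (mem_tup.1 hD).1
    have hDd := (mem_tup.1 hD).2
    have hBV : univ.biUnion D ⊆ V := by
      intro p hp
      rw [mem_biUnion] at hp
      obtain ⟨i, -, hi⟩ := hp
      exact hDV i hi
    set B := univ.biUnion D with hBdef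
    have hSD : S D = ∑ m ∈ (Ioc (N + h i₀) (2 * N + h i₀)).filter
        (· ≡ a [MOD q * pr B]), fp m := by
      rw [hS]
      simp only
      apply Finset.sum_nbij' (fun n => n + h i₀) (fun m => m - h i₀)
      · intro n hn
        rw [mem_filter, mem_Ioc] at hn
        rw [mem_filter, mem_Ioc]
        exact ⟨by omega, (hacl n).1 hn.2⟩
      · intro m hm
        rw [mem_filter, mem_Ioc] at hm
        rw [mem_filter, mem_Ioc]
        refine ⟨by omega, (hacl _).2 ?_⟩
        have : m - h i₀ + h i₀ = m := by omega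
        rw [this]
        exact hm.2
      · intro n _
        simp
      · intro m hm
        rw [mem_filter, mem_Ioc] at hm
        omega
      · intro n _
        rfl
    have hal : PGB.Psi N 1 0 / (Nat.totient q : ℝ) *
        ∏ i, al (fun p => 1 / ((p : ℝ) - 1)) (D i) =
        PGB.Psi N 1 0 / (Nat.totient (q * pr B) : ℝ) := by
      rw [Nat.totient_mul (pr_coprime hV hBV hqV)]
      push_cast
      rw [pr_totient hV hBV]
      have e4 : ∏ i, al (fun p => 1 / ((p : ℝ) - 1)) (D i) = 1 / ∏ p ∈ B, ((p : ℝ) - 1) := by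
        unfold al
        rw [hBdef, Finset.prod_biUnion]
        · rw [one_div, ← Finset.prod_inv_distrib]
          apply Finset.prod_congr rfl
          intro i _
          rw [← Finset.prod_inv_distrib]
          apply Finset.prod_congr rfl
          intro p _
          exact one_div _
        · intro i _ j _ hij
          exact hDd i j hij
      rw [e4]
      ring
    rw [hal, hSD]
    have k1 := class_psi hN hH (q * pr B) a
    have k2 := hE B hBV a hacop
    calc |∑ m ∈ (Ioc (N + h i₀) (2 * N + h i₀)).filter (· ≡ a [MOD q * pr B]), fp m -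
          PGB.Psi N 1 0 / (Nat.totient (q * pr B) : ℝ)|
        = |(∑ m ∈ (Ioc (N + h i₀) (2 * N + h i₀)).filter (· ≡ a [MOD q * pr B]), fp m -
            PGB.Psi N (q * pr B) a) + (PGB.Psi N (q * pr B) a -
          PGB.Psi N 1 0 / (Nat.totient (q * pr B) : ℝ))| := by
          congr 1
          ring
      _ ≤ _ := abs_add_le _ _
      _ ≤ SE N (h i₀) + E (pr B) := add_le_add k1 k2
      _ = _ := add_comm _ _
  · have hz : ∏ i, |rho V (y i) (y' i) (D i)| = 0 := by
      apply Finset.prod_eq_zero (mem_univ i₀)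
      rw [hy, hy', rho_dl, if_neg hD0, abs_zero]
    rw [hz, zero_mul, zero_mul]

end PGL
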