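import Pool.Agent.PGL.OM
import Pool.Agent.PGL.GS2

/-! PGL / ET: the error term with the weights `K^ω`.

PROOF. `ER_nonneg`, `ER_ge`: finite supremum (`le_ciSup`, `Set.finite_range`; use `a % (q r)`). `ER_att`: the supremum
over the nonempty finite type is attained (`exists_eq_ciSup_of_finite`); if it is attained at an `a` which is not
coprime it is `0`, then take `a = 1`.
`ER_triv`: for `q r ≤ N` (`r = pr B`) `Psi N (q r) a ≤ (N / (q r) + 1) log (2N) ≤ 2 N log (2N) / (q r)` and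
`Psi N 1 0 ≤ N log (2N)`, `φ(q r) = φ(q) ph B ≤ q r`, so `ER ≤ 3 N log (2N) / (φ(q) ph B)`.
`et`: `A = 2 A₁ + 2 K² + 10`. Let `S` be the set of the `B ⊆ V` with `pr B ≤ N^(1/2-δ)`, `E B = ER N q (pr B)`.
Cauchy-Schwarz: `∑ K^|B| E B ≤ (∑ K^(2|B|) E B)^(1/2) (∑ E B)^(1/2)`; the first factor by `ER_triv` and `om_ph`
(with `K²`): `∑ K^(2|B|) E B ≤ 3 N log (2N) (1 + log N)^(2K²) / φ(q)`; the second by the hypothesis with the `a` of
`ER_att` (choose `a` as a function of `r = pr B`; `pr` is injective on sets of primes, `pr_inj`):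
`≤ N / (φ(q) (log N)^A)`. Product: `≤ N / (φ(q) (log N)^A₁) / 2` for large `N`. The rest:
`∑ K^|B| SE N H ≤ N^(1/2-δ) (1 + log N)^K 20 √N log (3N) ≤ N^(1-δ/2) ≤ (N / N^(δ/4)) / (2 (log N)^A₁)` for large `N`
(`om_cnt`, `φ(q) ≤ q ≤ N^(δ/4)`). -/

set_option autoImplicit false

open Finset

noncomputable section

namespace PGL

/-- the maximal error for the modulus `q r` -/
def ER (N q r : ℕ) : ℝ := ⨆ a : Fin (q * r),
  if (a : ℕ).Coprime (q * r) then |PGB.Psi N (q * r) a - PGB.Psi N 1 0 / (Nat.totient (q * r) : ℝ)| else 0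

theorem ER_nonneg (N q r : ℕ) : 0 ≤ ER N q r := by
  unfold ER
  apply Real.iSup_nonneg
  intro a
  split_ifs
  · exact abs_nonneg _
  · exact le_rfl

private theorem Psi_mod (N q a : ℕ) : PGB.Psi N q (a % q) = PGB.Psi N q a := by
  unfold PGB.Psi
  apply Finset.sum_congr _ fun _ _ => rfl
  apply Finset.filter_congr
  intro n _
  constructor
  · intro h
    exact h.trans (Nat.mod_modEq a q)
  · intro h
    exact h.trans (Nat.mod_modEq a q).symm

theorem ER_ge {N q r : ℕ} (hqr : 0 < q * r) {a : ℕ} (ha : a.Coprime (q * r)) :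
    |PGB.Psi N (q * r) a - PGB.Psi N 1 0 / (Nat.totient (q * r) : ℝ)| ≤ ER N q r := by
  have h1 : (a % (q * r)).Coprime (q * r) := by
    rw [Nat.Coprime, (Nat.mod_modEq a (q * r)).gcd_eq]
    exact ha
  have h := le_ciSup (f := fun a : Fin (q * r) => if (a : ℕ).Coprime (q * r) then
    |PGB.Psi N (q * r) a - PGB.Psi N 1 0 / (Nat.totient (q * r) : ℝ)| else 0)
    (Set.finite_range _).bddAbove ⟨a % (q * r), Nat.mod_lt _ hqr⟩
  have h' : (if (a % (q * r)).Coprime (q * r) then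
      |PGB.Psi N (q * r) (a % (q * r)) - PGB.Psi N 1 0 / (Nat.totient (q * r) : ℝ)| else 0) ≤
      ER N q r := h
  rw [if_pos h1, Psi_mod] at h'
  exact h'

theorem ER_att {N q r : ℕ} (hqr : 0 < q * r) : ∃ a : ℕ, a.Coprime (q * r) ∧
    ER N q r = |PGB.Psi N (q * r) a - PGB.Psi N 1 0 / (Nat.totient (q * r) : ℝ)| := by
  have : Nonempty (Fin (q * r)) := ⟨⟨0, hqr⟩⟩
  obtain ⟨a, ha⟩ := exists_eq_ciSup_of_finite (f := fun a : Fin (q * r) =>
    if (a : ℕ).Coprime (q * r) then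
      |PGB.Psi N (q * r) a - PGB.Psi N 1 0 / (Nat.totient (q * r) : ℝ)| else 0)
  by_cases hc : (a : ℕ).Coprime (q * r)
  · refine ⟨a, hc, ?_⟩
    rw [ER, ← ha, if_pos hc]
  · have h0 : ER N q r = 0 := by
      rw [ER, ← ha, if_neg hc]
    refine ⟨1, Nat.coprime_one_left _, ?_⟩
    have h := ER_ge (N := N) hqr (a := 1) (Nat.coprime_one_left _)
    rw [h0] at h ⊢
    exact le_antisymm (abs_nonneg _) h

private theorem modcount (N r Q : ℕ) (hQ : 0 < Q) :
    ((((Ioc N (2 * N)).filter (· ≡ r [MOD Q])).card : ℕ) : ℝ) ≤ N / Q + 1 := by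
  have h := Nat.Ioc_filter_modEq_card N (2 * N) hQ r
  have hQ' : (0 : ℝ) < Q := by exact_mod_cast hQ
  have e1 : ((⌊(((2 * N : ℕ) : ℚ) - r) / Q⌋ : ℤ) : ℝ) = ((⌊(((2 * N : ℕ) : ℝ) - r) / Q⌋ : ℤ) : ℝ) := by
    congr 1
    have : ((((((2 * N : ℕ) : ℚ) - r) / Q : ℚ)) : ℝ) = (((2 * N : ℕ) : ℝ) - r) / Q := by
      push_cast
      ring
    rw [← this, Rat.floor_cast]
  have e2 : ((⌊(((N : ℕ) : ℚ) - r) / Q⌋ : ℤ) : ℝ) = ((⌊(((N : ℕ) : ℝ) - r) / Q⌋ : ℤ) : ℝ) := by
    congr 1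
    have : ((((((N : ℕ) : ℚ) - r) / Q : ℚ)) : ℝ) = (((N : ℕ) : ℝ) - r) / Q := by
      push_cast
      ring
    rw [← this, Rat.floor_cast]
  have h1 : ((((Ioc N (2 * N)).filter (· ≡ r [MOD Q])).card : ℕ) : ℝ) =
      max (((⌊(((2 * N : ℕ) : ℝ) - r) / Q⌋ : ℤ) : ℝ) - ((⌊(((N : ℕ) : ℝ) - r) / Q⌋ : ℤ) : ℝ)) 0 := by
    rw [← e1, ← e2]
    exact_mod_cast congrArg (fun z : ℤ => (z : ℝ)) h
  rw [h1]
  have f1 := Int.floor_le ((((2 * N : ℕ) : ℝ) - r) / Q)
  have f2 := Int.lt_floor_add_one ((((2 * N : ℕ) : ℝ) - r) / Q)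
  have f3 := Int.floor_le ((((N : ℕ) : ℝ) - r) / Q)
  have f4 := Int.lt_floor_add_one ((((N : ℕ) : ℝ) - r) / Q)
  have e3 : (((2 * N : ℕ) : ℝ) - r) / Q = (((N : ℕ) : ℝ) - r) / Q + N / Q := by
    push_cast
    ring
  have e4 : (0 : ℝ) ≤ N / Q := by positivity
  rw [e3] at f1 f2
  rw [e3]
  apply max_le
  · linarith
  · linarith

private theorem Psi_le (N a Q : ℕ) (hN : 2 ≤ N) (hQ : 0 < Q) :
    0 ≤ PGB.Psi N Q a ∧ PGB.Psi N Q a ≤ (N / Q + 1) * Real.log (2 * N) := by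
  have hN0 : (0 : ℝ) < N := by exact_mod_cast (by omega : 0 < N)
  have hlog : 0 ≤ Real.log (2 * N) := by
    apply Real.log_nonneg
    have : (2 : ℝ) ≤ N := by exact_mod_cast hN
    linarith
  unfold PGB.Psi
  refine ⟨Finset.sum_nonneg fun m _ => ArithmeticFunction.vonMangoldt_nonneg, ?_⟩
  calc ∑ n ∈ (Ioc N (2 * N)).filter (fun n => n ≡ a [MOD Q]), ArithmeticFunction.vonMangoldt n
      ≤ ∑ n ∈ (Ioc N (2 * N)).filter (fun n => n ≡ a [MOD Q]), Real.log (2 * N) := by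
        apply Finset.sum_le_sum
        intro m hm
        rw [mem_filter, mem_Ioc] at hm
        have h1 : (0 : ℝ) < m := by exact_mod_cast (by omega : 0 < m)
        have h2 : (m : ℝ) ≤ 2 * N := by exact_mod_cast hm.1.2
        exact ArithmeticFunction.vonMangoldt_le_log.trans (Real.log_le_log h1 h2)
    _ = ((((Ioc N (2 * N)).filter (· ≡ a [MOD Q])).card : ℕ) : ℝ) * Real.log (2 * N) := by
        rw [Finset.sum_const, nsmul_eq_mul]
    _ ≤ (N / Q + 1) * Real.log (2 * N) :=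
        mul_le_mul_of_nonneg_right (modcount N a Q hQ) hlog

private theorem pr_posN {B : Finset ℕ} (hB : ∀ p ∈ B, p.Prime) : 0 < pr B :=
  Finset.prod_pos fun p hp => (hB p hp).pos

private theorem ph_posR {B : Finset ℕ} (hB : ∀ p ∈ B, p.Prime) : 0 < ph B :=
  Finset.prod_pos fun p hp => by
    have : (2 : ℝ) ≤ p := by exact_mod_cast (hB p hp).two_le
    linarith

private theorem tot_mul {q : ℕ} {B : Finset ℕ} (hB : ∀ p ∈ B, p.Prime ∧ ¬ p ∣ q) :
    (Nat.totient (q * pr B) : ℝ) = (Nat.totient q : ℝ) * ph B := by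
  have h1 := pr_totient (V := B) (B := B) (fun p hp => (hB p hp).1) (Finset.Subset.refl B)
  have h2 := pr_coprime (V := B) (B := B) (fun p hp => (hB p hp).1) (Finset.Subset.refl B)
    (q := q) (fun p hp => (hB p hp).2)
  rw [Nat.totient_mul h2]
  push_cast
  rw [h1]
  rfl

theorem ER_triv {N q : ℕ} (hN : 2 ≤ N) (hq : 0 < q) {B : Finset ℕ} (hB : ∀ p ∈ B, p.Prime ∧ ¬ p ∣ q)
    (hqr : q * pr B ≤ N) : ER N q (pr B) ≤ 3 * N * Real.log (2 * N) / ((Nat.totient q : ℝ) * ph B) := by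
  have hN0 : (0 : ℝ) < N := by exact_mod_cast (by omega : 0 < N)
  have hlog : 0 ≤ Real.log (2 * N) := by
    apply Real.log_nonneg
    have : (2 : ℝ) ≤ N := by exact_mod_cast hN
    linarith
  have hr := pr_posN fun p hp => (hB p hp).1
  have hQ : 0 < q * pr B := Nat.mul_pos hq hr
  obtain ⟨a, -, ha⟩ := ER_att (N := N) hQ
  have p1 := Psi_le N a (q * pr B) hN hQ
  have p2 := Psi_le N 0 1 hN one_pos
  have p3 : PGB.Psi N 1 0 ≤ N * Real.log (2 * N) := by
    unfold PGB.Psi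
    calc ∑ n ∈ (Ioc N (2 * N)).filter (fun n => n ≡ 0 [MOD 1]), ArithmeticFunction.vonMangoldt n
        ≤ ∑ n ∈ Ioc N (2 * N), Real.log (2 * N) := by
          refine (Finset.sum_le_sum_of_subset_of_nonneg (Finset.filter_subset _ _)
            fun m _ _ => ArithmeticFunction.vonMangoldt_nonneg).trans ?_
          apply Finset.sum_le_sum
          intro m hm
          rw [mem_Ioc] at hm
          have h1 : (0 : ℝ) < m := by exact_mod_cast (by omega : 0 < m)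
          have h2 : (m : ℝ) ≤ 2 * N := by exact_mod_cast hm.2
          exact ArithmeticFunction.vonMangoldt_le_log.trans (Real.log_le_log h1 h2)
      _ = N * Real.log (2 * N) := by
          rw [Finset.sum_const, Nat.card_Ioc, nsmul_eq_mul]
          congr 2
          omega
  have ht := tot_mul hB
  have htot : (0 : ℝ) < (Nat.totient (q * pr B) : ℝ) := by
    exact_mod_cast Nat.totient_pos.2 hQ
  have htle : (Nat.totient (q * pr B) : ℝ) ≤ ((q * pr B : ℕ) : ℝ) := by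
    exact_mod_cast Nat.totient_le _
  have hQR : (0 : ℝ) < ((q * pr B : ℕ) : ℝ) := by exact_mod_cast hQ
  have hQN : ((q * pr B : ℕ) : ℝ) ≤ N := by exact_mod_cast hqr
  have k1 : (N : ℝ) / ((q * pr B : ℕ) : ℝ) ≤ N / (Nat.totient (q * pr B) : ℝ) :=
    div_le_div_of_nonneg_left hN0.le htot htle
  have k2 : (1 : ℝ) ≤ (N : ℝ) / ((q * pr B : ℕ) : ℝ) := by
    rw [le_div_iff₀ hQR]
    linarith
  rw [ha, ← ht]
  have k3 : PGB.Psi N (q * pr B) a ≤ 2 * (N / (Nat.totient (q * pr B) : ℝ)) * Real.log (2 * N) := by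
    refine p1.2.trans (mul_le_mul_of_nonneg_right ?_ hlog)
    linarith
  have k4 : PGB.Psi N 1 0 / (Nat.totient (q * pr B) : ℝ) ≤
      N / (Nat.totient (q * pr B) : ℝ) * Real.log (2 * N) := by
    rw [div_mul_eq_mul_div]
    exact div_le_div_of_nonneg_right p3 htot.le
  have k5 : 0 ≤ PGB.Psi N 1 0 / (Nat.totient (q * pr B) : ℝ) := div_nonneg p2.1 htot.le
  have k6 : 3 * (N : ℝ) * Real.log (2 * N) / (Nat.totient (q * pr B) : ℝ) =
      3 * (N / (Nat.totient (q * pr B) : ℝ) * Real.log (2 * N)) := by ring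
  have k7 : 0 ≤ (N : ℝ) / (Nat.totient (q * pr B) : ℝ) * Real.log (2 * N) := by positivity
  rw [k6, abs_le]
  constructor
  · linarith [p1.1]
  · linarith

private theorem large (δ : ℝ) (hδ : 0 < δ) (K : ℕ) (A₁ : ℝ) : ∃ N₀ : ℕ, ∀ N : ℕ, N₀ ≤ N →
    8 ≤ N ∧ 24 * 4 ^ (K ^ 2) ≤ Real.log N ∧
      80 * 2 ^ K * Real.log N ^ ((K : ℝ) + 1 + A₁) ≤ (N : ℝ) ^ (3 * δ / 4) := by
  have h1 : Filter.Tendsto (fun N : ℕ => Real.log N) Filter.atTop Filter.atTop :=
    Real.tendsto_log_atTop.comp tendsto_natCast_atTop_atTop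
  have h2 := (isLittleO_log_rpow_rpow_atTop (s := 3 * δ / 4) ((K : ℝ) + 1 + A₁) (by positivity)).bound
    (c := 1 / (80 * 2 ^ K)) (by positivity)
  have h3 := tendsto_natCast_atTop_atTop.eventually h2
  have h4 := h1.eventually (Filter.eventually_ge_atTop (24 * 4 ^ (K ^ 2) : ℝ))
  obtain ⟨N₀, hN₀⟩ := Filter.eventually_atTop.1 ((h3.and h4).and (Filter.eventually_ge_atTop 8))
  refine ⟨N₀, fun N hN => ?_⟩
  obtain ⟨⟨g3, g4⟩, g5⟩ := hN₀ N hN
  refine ⟨g5, g4, ?_⟩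
  have hN0 : (0 : ℝ) < N := by exact_mod_cast (by omega : 0 < N)
  have hl : 0 ≤ Real.log N := Real.log_natCast_nonneg N
  rw [Real.norm_of_nonneg (Real.rpow_nonneg hl _), Real.norm_of_nonneg (Real.rpow_nonneg hN0.le _)] at g3
  have : (0 : ℝ) < 80 * 2 ^ K := by positivity
  calc 80 * 2 ^ K * Real.log N ^ ((K : ℝ) + 1 + A₁)
      ≤ 80 * 2 ^ K * (1 / (80 * 2 ^ K) * (N : ℝ) ^ (3 * δ / 4)) :=
        mul_le_mul_of_nonneg_left g3 this.le
    _ = (N : ℝ) ^ (3 * δ / 4) := by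
        field_simp

theorem et (δ : ℝ) (hδ : 0 < δ) (hδ2 : δ < 1 / 2) (K : ℕ) (A₁ : ℝ) : ∃ A : ℝ, ∃ N₀ : ℕ, ∀ N : ℕ, N₀ ≤ N →
    ∀ q : ℕ, 0 < q → (q : ℝ) ≤ (N : ℝ) ^ (δ / 4) → ∀ V : Finset ℕ, Big V 1 → (∀ p ∈ V, ¬ p ∣ q) →
      (∀ a : ℕ → ℕ, (∀ B ⊆ V, (a (pr B)).Coprime (q * pr B)) →
        ∑ B ∈ V.powerset with (pr B : ℝ) ≤ (N : ℝ) ^ (1 / 2 - δ),
          |PGB.Psi N (q * pr B) (a (pr B)) - PGB.Psi N 1 0 / (Nat.totient (q * pr B) : ℝ)| ≤
            N / ((Nat.totient q : ℝ) * Real.log N ^ A)) →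
      ∀ H : ℕ, (H : ℝ) ≤ √N →
        ∑ B ∈ V.powerset with (pr B : ℝ) ≤ (N : ℝ) ^ (1 / 2 - δ),
          (K : ℝ) ^ B.card * (ER N q (pr B) + SE N H) ≤ N / ((Nat.totient q : ℝ) * Real.log N ^ A₁) := by
  obtain ⟨N₀, hN₀⟩ := large δ hδ K A₁
  refine ⟨2 * A₁ + 2 * (K : ℝ) ^ 2 + 2, N₀, fun N hN q hq hqN V hV hVq hyp H hH => ?_⟩
  obtain ⟨hN8, hL, hP⟩ := hN₀ N hN
  have hN0 : (0 : ℝ) < N := by exact_mod_cast (by omega : 0 < N)
  have hN1 : (1 : ℝ) ≤ N := by exact_mod_cast (by omega : 1 ≤ N)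
  set L := Real.log N with hLdef
  have h4K : (1 : ℝ) ≤ 4 ^ (K ^ 2) := one_le_pow₀ (by norm_num)
  have hL24 : 24 ≤ L := by linarith
  have hL0 : 0 < L := by linarith
  set x : ℝ := (N : ℝ) ^ (1 / 2 - δ) with hx
  have hx1 : 1 ≤ x := Real.one_le_rpow hN1 (by linarith)
  have hlx : Real.log x ≤ L := by
    rw [hx, Real.log_rpow hN0]
    nlinarith
  have hlx0 : 0 ≤ Real.log x := Real.log_nonneg hx1
  have hφ : (0 : ℝ) < (Nat.totient q : ℝ) := by exact_mod_cast Nat.totient_pos.2 hq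
  have hφq : (Nat.totient q : ℝ) ≤ (N : ℝ) ^ (δ / 4) :=
    le_trans (by exact_mod_cast Nat.totient_le q) hqN
  set S := V.powerset.filter (fun B => (pr B : ℝ) ≤ x) with hS
  have hSp : ∀ B ∈ S, B ⊆ V ∧ (pr B : ℝ) ≤ x := by
    intro B hB
    rw [hS, mem_filter, mem_powerset] at hB
    exact hB
  have hSprime : ∀ B ∈ S, ∀ p ∈ B, p.Prime ∧ ¬ p ∣ q := fun B hB p hp =>
    ⟨(hV p ((hSp B hB).1 hp)).1, hVq p ((hSp B hB).1 hp)⟩
  -- the sum of the errors
  have hE1 : ∑ B ∈ S, ER N q (pr B) ≤ N / ((Nat.totient q : ℝ) * L ^ (2 * A₁ + 2 * (K : ℝ) ^ 2 + 2)) := by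
    have hch : ∀ r : ℕ, ∃ a : ℕ, 0 < q * r → (a.Coprime (q * r) ∧
        ER N q r = |PGB.Psi N (q * r) a - PGB.Psi N 1 0 / (Nat.totient (q * r) : ℝ)|) := by
      intro r
      by_cases h : 0 < q * r
      · obtain ⟨a, ha⟩ := ER_att (N := N) h
        exact ⟨a, fun _ => ha⟩
      · exact ⟨0, fun h' => absurd h' h⟩
    choose a ha using hch
    have h := hyp a (fun B hB => (ha (pr B) (Nat.mul_pos hq
      (pr_posN fun p hp => (hV p (hB hp)).1))).1)
    refine le_trans (le_of_eq (Finset.sum_congr rfl fun B hB => ?_)) h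
    exact (ha (pr B) (Nat.mul_pos hq (pr_posN fun p hp => (hSprime B hB p hp).1))).2
  -- the weighted sum of the trivial bounds
  have hqr : ∀ B ∈ S, q * pr B ≤ N := by
    intro B hB
    have h1 : ((q * pr B : ℕ) : ℝ) ≤ (N : ℝ) ^ (δ / 4) * x := by
      push_cast
      exact mul_le_mul hqN (hSp B hB).2 (Nat.cast_nonneg _) (Real.rpow_nonneg hN0.le _)
    have h2 : (N : ℝ) ^ (δ / 4) * x ≤ N := by
      rw [hx, ← Real.rpow_add hN0]
      calc (N : ℝ) ^ (δ / 4 + (1 / 2 - δ)) ≤ (N : ℝ) ^ (1 : ℝ) :=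
            Real.rpow_le_rpow_of_exponent_le hN1 (by linarith)
        _ = N := Real.rpow_one _
    exact_mod_cast h1.trans h2
  have hlog2 : Real.log (2 * N) ≤ 2 * L := by
    rw [Real.log_mul (by norm_num) hN0.ne']
    have : Real.log 2 ≤ 1 := by
      have := Real.log_two_lt_d9
      linarith
    linarith
  have hlog3 : Real.log (3 * N) ≤ 2 * L := by
    rw [Real.log_mul (by norm_num) hN0.ne']
    have : Real.log 3 ≤ 3 - 1 := Real.log_le_sub_one_of_pos (by norm_num)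
    linarith
  have hlog20 : 0 ≤ Real.log (2 * N) := Real.log_nonneg (by linarith)
  have hlog30 : 0 ≤ Real.log (3 * N) := Real.log_nonneg (by linarith)
  have hE2 : ∑ B ∈ S, ((K : ℝ) ^ B.card) ^ 2 * ER N q (pr B) ≤
      6 * N * L / (Nat.totient q : ℝ) * (2 * L) ^ (2 * K ^ 2) := by
    have h1 := om_ph (K ^ 2) V hV hx1
    calc ∑ B ∈ S, ((K : ℝ) ^ B.card) ^ 2 * ER N q (pr B)
        ≤ ∑ B ∈ S, 6 * N * L / (Nat.totient q : ℝ) * (((K ^ 2 : ℕ) : ℝ) ^ B.card / ph B) := by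
          apply Finset.sum_le_sum
          intro B hB
          have h2 := ER_triv (by omega : 2 ≤ N) hq (hSprime B hB) (hqr B hB)
          have hph := ph_posR fun p hp => (hSprime B hB p hp).1
          have h3 : 3 * N * Real.log (2 * N) / ((Nat.totient q : ℝ) * ph B) ≤
              6 * N * L / (Nat.totient q : ℝ) / ph B := by
            rw [div_div]
            apply div_le_div_of_nonneg_right _ (by positivity)
            nlinarith
          have h4 : ((K : ℝ) ^ B.card) ^ 2 = ((K ^ 2 : ℕ) : ℝ) ^ B.card := by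
            push_cast
            rw [← pow_mul, ← pow_mul, mul_comm]
          rw [h4]
          calc ((K ^ 2 : ℕ) : ℝ) ^ B.card * ER N q (pr B)
              ≤ ((K ^ 2 : ℕ) : ℝ) ^ B.card * (6 * N * L / (Nat.totient q : ℝ) / ph B) :=
                mul_le_mul_of_nonneg_left (h2.trans h3) (by positivity)
            _ = 6 * N * L / (Nat.totient q : ℝ) * (((K ^ 2 : ℕ) : ℝ) ^ B.card / ph B) := by ring
      _ = 6 * N * L / (Nat.totient q : ℝ) * ∑ B ∈ S, (((K ^ 2 : ℕ) : ℝ) ^ B.card / ph B) := by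
          rw [Finset.mul_sum]
      _ ≤ 6 * N * L / (Nat.totient q : ℝ) * (1 + Real.log x) ^ (2 * K ^ 2) :=
          mul_le_mul_of_nonneg_left h1 (by positivity)
      _ ≤ 6 * N * L / (Nat.totient q : ℝ) * (2 * L) ^ (2 * K ^ 2) := by
          apply mul_le_mul_of_nonneg_left _ (by positivity)
          apply pow_le_pow_left₀ (by linarith)
          linarith
  -- Cauchy-Schwarz
  have hCS : (∑ B ∈ S, (K : ℝ) ^ B.card * ER N q (pr B)) ^ 2 ≤
      (∑ B ∈ S, ((K : ℝ) ^ B.card) ^ 2 * ER N q (pr B)) * ∑ B ∈ S, ER N q (pr B) := by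
    have h := Finset.sum_mul_sq_le_sq_mul_sq S (fun B => (K : ℝ) ^ B.card * √(ER N q (pr B)))
      (fun B => √(ER N q (pr B)))
    have e1 : ∀ B, (K : ℝ) ^ B.card * √(ER N q (pr B)) * √(ER N q (pr B)) =
        (K : ℝ) ^ B.card * ER N q (pr B) := by
      intro B
      rw [mul_assoc, Real.mul_self_sqrt (ER_nonneg _ _ _)]
    have e2 : ∀ B, ((K : ℝ) ^ B.card * √(ER N q (pr B))) ^ 2 =
        ((K : ℝ) ^ B.card) ^ 2 * ER N q (pr B) := by
      intro B
      rw [mul_pow, Real.sq_sqrt (ER_nonneg _ _ _)]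
    have e3 : ∀ B, √(ER N q (pr B)) ^ 2 = ER N q (pr B) := by
      intro B
      rw [Real.sq_sqrt (ER_nonneg _ _ _)]
    simp only [e1, e2, e3] at h
    exact h
  have hE0 : 0 ≤ ∑ B ∈ S, ER N q (pr B) := Finset.sum_nonneg fun B _ => ER_nonneg _ _ _
  have hmain : ∑ B ∈ S, (K : ℝ) ^ B.card * ER N q (pr B) ≤
      N / ((Nat.totient q : ℝ) * L ^ A₁) / 2 := by
    have hpos : 0 ≤ N / ((Nat.totient q : ℝ) * L ^ A₁) / 2 := by positivity
    apply le_of_sq_le_sq _ hpos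
    calc (∑ B ∈ S, (K : ℝ) ^ B.card * ER N q (pr B)) ^ 2
        ≤ (6 * N * L / (Nat.totient q : ℝ) * (2 * L) ^ (2 * K ^ 2)) *
          (N / ((Nat.totient q : ℝ) * L ^ (2 * A₁ + 2 * (K : ℝ) ^ 2 + 2))) :=
          hCS.trans (mul_le_mul hE2 hE1 hE0 (by positivity))
      _ ≤ (N / ((Nat.totient q : ℝ) * L ^ A₁) / 2) ^ 2 := by
          have r1 : L ^ (2 * A₁ + 2 * (K : ℝ) ^ 2 + 2) = (L ^ A₁) ^ 2 * L ^ (2 * K ^ 2) * L ^ 2 := by
            rw [Real.rpow_add hL0, Real.rpow_add hL0]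
            congr 1
            · congr 1
              · rw [mul_comm, Real.rpow_mul hL0.le]
                norm_num
              · have h := Real.rpow_natCast L (2 * K ^ 2)
                push_cast at h
                exact h
            · norm_num
          rw [r1, mul_pow]
          have r2 : (2 : ℝ) ^ (2 * K ^ 2) = 4 ^ (K ^ 2) := by
            rw [pow_mul]
            norm_num
          rw [r2]
          have hA : 0 < L ^ A₁ := Real.rpow_pos_of_pos hL0 _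
          have hLk : 0 < L ^ (2 * K ^ 2) := by positivity
          have r3 : 6 * N * L / (Nat.totient q : ℝ) * (4 ^ (K ^ 2) * L ^ (2 * K ^ 2)) *
              (N / ((Nat.totient q : ℝ) * ((L ^ A₁) ^ 2 * L ^ (2 * K ^ 2) * L ^ 2))) =
              (N / ((Nat.totient q : ℝ) * L ^ A₁) / 2) ^ 2 * (24 * 4 ^ (K ^ 2) / L) := by
            field_simp
            ring
          rw [r3]
          have r4 : 24 * 4 ^ (K ^ 2) / L ≤ 1 := by
            rw [div_le_one hL0]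
            exact hL
          calc (N / ((Nat.totient q : ℝ) * L ^ A₁) / 2) ^ 2 * (24 * 4 ^ (K ^ 2) / L)
              ≤ (N / ((Nat.totient q : ℝ) * L ^ A₁) / 2) ^ 2 * 1 :=
                mul_le_mul_of_nonneg_left r4 (by positivity)
            _ = _ := mul_one _
  -- the second part
  have hrest : ∑ B ∈ S, (K : ℝ) ^ B.card * SE N H ≤ N / ((Nat.totient q : ℝ) * L ^ A₁) / 2 := by
    have h1 := om_cnt K V hV hx1
    have hsq : √(N : ℝ) = (N : ℝ) ^ (1 / 2 : ℝ) := Real.sqrt_eq_rpow _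
    have hSE : SE N H ≤ 40 * √N * L := by
      unfold SE
      have g1 : 10 * ((H : ℝ) + √N) ≤ 20 * √N := by linarith
      calc 10 * ((H : ℝ) + √N) * Real.log (3 * N) ≤ 20 * √N * (2 * L) :=
            mul_le_mul g1 hlog3 hlog30 (by positivity)
        _ = 40 * √N * L := by ring
    have hSE0 : 0 ≤ SE N H := by
      unfold SE
      positivity
    have hA : 0 < L ^ A₁ := Real.rpow_pos_of_pos hL0 _
    rw [← Finset.sum_mul]
    calc (∑ B ∈ S, (K : ℝ) ^ B.card) * SE N H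
        ≤ (x * (1 + Real.log x) ^ K) * (40 * √N * L) :=
          mul_le_mul h1 hSE hSE0 (by positivity)
      _ ≤ (x * (2 * L) ^ K) * (40 * √N * L) := by
          apply mul_le_mul_of_nonneg_right _ (by positivity)
          apply mul_le_mul_of_nonneg_left _ (by linarith)
          apply pow_le_pow_left₀ (by linarith)
          linarith
      _ = (N : ℝ) ^ (1 - δ) * (40 * 2 ^ K * (L ^ (K : ℝ) * L)) := by
          have : x * √N = (N : ℝ) ^ (1 - δ) := by
            rw [hx, hsq, ← Real.rpow_add hN0]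
            congr 1
            ring
          rw [← this, Real.rpow_natCast, mul_pow]
          ring
      _ ≤ N / ((Nat.totient q : ℝ) * L ^ A₁) / 2 := by
          have e1 : L ^ ((K : ℝ) + 1 + A₁) = L ^ (K : ℝ) * L * L ^ A₁ := by
            rw [Real.rpow_add hL0, Real.rpow_add hL0, Real.rpow_one]
          rw [e1] at hP
          rw [div_div, le_div_iff₀ (by positivity)]
          have e2 : (N : ℝ) ^ (1 - δ) * (N : ℝ) ^ (δ / 4) * (N : ℝ) ^ (3 * δ / 4) = N := by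
            rw [← Real.rpow_add hN0, ← Real.rpow_add hN0]
            have : 1 - δ + δ / 4 + 3 * δ / 4 = 1 := by ring
            rw [this, Real.rpow_one]
          have hND : 0 ≤ (N : ℝ) ^ (1 - δ) := Real.rpow_nonneg hN0.le _
          have hND4 : 0 ≤ (N : ℝ) ^ (δ / 4) := Real.rpow_nonneg hN0.le _
          have hLK : 0 ≤ L ^ (K : ℝ) := Real.rpow_nonneg hL0.le _
          calc (N : ℝ) ^ (1 - δ) * (40 * 2 ^ K * (L ^ (K : ℝ) * L)) *
                ((Nat.totient q : ℝ) * L ^ A₁ * 2)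
              = (N : ℝ) ^ (1 - δ) * (Nat.totient q : ℝ) *
                (80 * 2 ^ K * (L ^ (K : ℝ) * L * L ^ A₁)) := by ring
            _ ≤ (N : ℝ) ^ (1 - δ) * (N : ℝ) ^ (δ / 4) * (N : ℝ) ^ (3 * δ / 4) := by
                apply mul_le_mul _ hP (by positivity) (by positivity)
                exact mul_le_mul_of_nonneg_left hφq hND
            _ = N := e2
  calc ∑ B ∈ S, (K : ℝ) ^ B.card * (ER N q (pr B) + SE N H)
      = ∑ B ∈ S, (K : ℝ) ^ B.card * ER N q (pr B) + ∑ B ∈ S, (K : ℝ) ^ B.card * SE N H := by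
        rw [← Finset.sum_add_distrib]
        exact Finset.sum_congr rfl fun B _ => mul_add _ _ _
    _ ≤ N / ((Nat.totient q : ℝ) * L ^ A₁) := by linarith

end PGL
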