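import Pool.Agent.PGL.OM
import Pool.Agent.Helper35.Primes

/-! PGL / GL: lower and upper bounds for `G_V(R)`, `V` the primes in `(y, N]`.

PROOFS. For a finite set `P` of primes and `x ≥ 1` let `F_P(x)` be the sum of `1 / n` over the `n ≤ x` all of whose
prime factors are in `P`. (i) `F_{P ∪ {p}}(x) ≤ F_P(x) / (1 - 1 / p)` for `p ∉ P` (write `n = p^j m`, `F_P` is
monotone in `x`, geometric series). (ii) `F_P(x) ≤ G_P(x)`: group the `n` according to their radical: for `B ⊆ P` the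
sum of `1 / n` over the `n` with set of prime factors `B` is at most `∏_{p ∈ B} 1 / (p - 1) = 1 / ph B`, and
`pr B ≤ n ≤ x` (or by induction on `P` with `n = p^j m`, `j = 0` or `j ≥ 1`, as in (i)).
`g_lower`: with `P₀ = VN y N` and all primes `≤ y` added by (i):
`log R ≤ ∑_{n ≤ R} 1 / n = F(R) ≤ ∏_{p ≤ y} (1 - 1 / p)^(-1) G_V(R)`.
`smooth_tail`: the numbers `n ≤ Z` all of whose prime factors are `≤ y`; let `S = ∏_{p ≤ y} (1 - 1/p)^(-1)`, the sum of
`1 / m` over all `y`-smooth numbers (`Nat.smoothNumbers`, Euler product), and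
`∑_{m smooth} log m / m = ∑_{p ≤ y, j ≥ 1} log p / p^j · S = S ∑_{p ≤ y} log p / (p - 1) ≤ S (log y + C)` (Mertens: from
`∑_p log p ⌊n / p⌋ ≤ log n! ≤ n log n` and `θ(n) ≤ n log 4`, so `∑_{p ≤ n} log p / p ≤ log n + log 4`, and
`∑ log p / (p (p - 1))` converges). So the sum over smooth `m > Z` is at most `S (log y + C) / log Z`. (A finite
version: avoid infinite sums by truncating at `X → ∞`, or use `Summable`.) -/

set_option autoImplicit false

open Finset

noncomputable section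

namespace PGL

/-- the primes `≤ y` -/
def PP (y : ℝ) : Finset ℕ := (range (⌊y⌋₊ + 1)).filter Nat.Prime

/-- the primes in `(y, N]` -/
def VN (y : ℝ) (N : ℕ) : Finset ℕ := (range (N + 1)).filter (fun p => p.Prime ∧ y < (p : ℝ))

/-- `∏_{p ≤ y} (1 - 1 / p)` -/
def MP (y : ℝ) : ℝ := ∏ p ∈ PP y, (1 - 1 / (p : ℝ))

theorem MP_pos (y : ℝ) : 0 < MP y := by
  unfold MP
  apply Finset.prod_pos
  intro p hp
  have hp1 : p.Prime := (Finset.mem_filter.1 hp).2
  have h2 : (2 : ℝ) ≤ p := by exact_mod_cast hp1.two_le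
  have h3 : 1 / (p : ℝ) ≤ 1 / 2 := one_div_le_one_div_of_le (by norm_num) h2
  linarith

/-- the numbers in `[1, n]` with all prime factors in `P` -/
private def SS (P : Finset ℕ) (n : ℕ) : Finset ℕ :=
  (Icc 1 n).filter (fun m => ∀ q ∈ m.primeFactors, q ∈ P)

private theorem mem_SS {P : Finset ℕ} {n m : ℕ} :
    m ∈ SS P n ↔ (1 ≤ m ∧ m ≤ n) ∧ ∀ q ∈ m.primeFactors, q ∈ P := by
  unfold SS
  rw [mem_filter, mem_Icc]

private theorem SS_mono (P : Finset ℕ) {m n : ℕ} (h : m ≤ n) : SS P m ⊆ SS P n := by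
  intro k hk
  rw [mem_SS] at hk ⊢
  exact ⟨⟨hk.1.1, hk.1.2.trans h⟩, hk.2⟩

private theorem SS_split (P : Finset ℕ) {p : ℕ} (hp : p.Prime) (hpP : p ∉ P) (f : ℕ → ℝ) (n : ℕ) :
    ∑ m ∈ SS (insert p P) n, f m = ∑ m ∈ SS P n, f m + ∑ m ∈ SS (insert p P) (n / p), f (p * m) := by
  rw [← Finset.sum_filter_add_sum_filter_not (SS (insert p P) n) (fun m => p ∣ m) f, add_comm]
  congr 1
  · apply Finset.sum_congr _ (fun _ _ => rfl)
    ext m
    rw [mem_filter, mem_SS, mem_SS]
    constructor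
    · rintro ⟨⟨h1, h2⟩, h3⟩
      refine ⟨h1, fun q hq => ?_⟩
      have h4 := h2 q hq
      rw [mem_insert] at h4
      rcases h4 with h4 | h4
      · exfalso
        apply h3
        rw [← h4]
        exact Nat.dvd_of_mem_primeFactors hq
      · exact h4
    · rintro ⟨h1, h2⟩
      refine ⟨⟨h1, fun q hq => mem_insert_of_mem (h2 q hq)⟩, fun h3 => ?_⟩
      apply hpP
      apply h2
      rw [Nat.mem_primeFactors]
      exact ⟨hp, h3, by omega⟩
  · symm
    apply Finset.sum_bij (fun m _ => p * m)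
    · intro m hm
      rw [mem_SS] at hm
      rw [mem_filter, mem_SS]
      have hm0 : m ≠ 0 := by omega
      refine ⟨⟨⟨?_, ?_⟩, ?_⟩, dvd_mul_right p m⟩
      · exact Nat.mul_pos hp.pos hm.1.1
      · calc p * m ≤ p * (n / p) := Nat.mul_le_mul_left _ hm.1.2
          _ ≤ n := Nat.mul_div_le n p
      · intro q hq
        rw [Nat.primeFactors_mul hp.ne_zero hm0, mem_union] at hq
        rcases hq with hq | hq
        · rw [hp.primeFactors, mem_singleton] at hq
          rw [hq]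
          exact mem_insert_self _ _
        · exact hm.2 q hq
    · intro a _ b _ hab
      exact Nat.eq_of_mul_eq_mul_left hp.pos hab
    · intro m hm
      rw [mem_filter, mem_SS] at hm
      obtain ⟨⟨⟨h1, h2⟩, h3⟩, ⟨k, rfl⟩⟩ := hm
      have hk0 : k ≠ 0 := by
        rintro rfl
        simp at h1
      refine ⟨k, ?_, rfl⟩
      rw [mem_SS]
      refine ⟨⟨Nat.one_le_iff_ne_zero.2 hk0, ?_⟩, fun q hq => ?_⟩
      · rw [Nat.le_div_iff_mul_le hp.pos]
        rw [mul_comm]
        exact h2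
      · apply h3
        rw [Nat.primeFactors_mul hp.ne_zero hk0, mem_union]
        exact Or.inr hq
    · intro m _
      rfl

/-- `∑ 1 / m` over `SS P n` -/
private def FF (P : Finset ℕ) (n : ℕ) : ℝ := ∑ m ∈ SS P n, (1 : ℝ) / m

/-- `∑ log m / m` over `SS P n` -/
private def TL (P : Finset ℕ) (n : ℕ) : ℝ := ∑ m ∈ SS P n, Real.log m / m

/-- `∑ 1 / ph B` over `pr B ≤ n` -/
private def GN (P : Finset ℕ) (n : ℕ) : ℝ := ∑ B ∈ P.powerset with pr B ≤ n, 1 / ph B

private theorem FF_nonneg (P : Finset ℕ) (n : ℕ) : 0 ≤ FF P n :=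
  Finset.sum_nonneg fun m _ => by positivity

private theorem TL_nonneg (P : Finset ℕ) (n : ℕ) : 0 ≤ TL P n :=
  Finset.sum_nonneg fun m _ => div_nonneg (Real.log_natCast_nonneg m) (Nat.cast_nonneg m)

private theorem FF_mono (P : Finset ℕ) {m n : ℕ} (h : m ≤ n) : FF P m ≤ FF P n :=
  Finset.sum_le_sum_of_subset_of_nonneg (SS_mono P h) fun m _ _ => by positivity

private theorem TL_mono (P : Finset ℕ) {m n : ℕ} (h : m ≤ n) : TL P m ≤ TL P n :=
  Finset.sum_le_sum_of_subset_of_nonneg (SS_mono P h) fun m _ _ =>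
    div_nonneg (Real.log_natCast_nonneg m) (Nat.cast_nonneg m)

private theorem FF_split (P : Finset ℕ) {p : ℕ} (hp : p.Prime) (hpP : p ∉ P) (n : ℕ) :
    FF (insert p P) n = FF P n + 1 / (p : ℝ) * FF (insert p P) (n / p) := by
  unfold FF
  rw [SS_split P hp hpP, mul_sum]
  congr 1
  apply Finset.sum_congr rfl
  intro m _
  push_cast
  rw [div_mul_div_comm, one_mul]

private theorem TL_split (P : Finset ℕ) {p : ℕ} (hp : p.Prime) (hpP : p ∉ P) (n : ℕ) :
    TL (insert p P) n = TL P n + (Real.log p / p * FF (insert p P) (n / p) +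
      1 / (p : ℝ) * TL (insert p P) (n / p)) := by
  unfold TL FF
  rw [SS_split P hp hpP, mul_sum, mul_sum, ← sum_add_distrib]
  congr 1
  apply Finset.sum_congr rfl
  intro m hm
  have hm1 : m ≠ 0 := by
    rw [mem_SS] at hm
    omega
  have hm2 : (m : ℝ) ≠ 0 := by exact_mod_cast hm1
  have hp2 : (p : ℝ) ≠ 0 := by exact_mod_cast hp.ne_zero
  push_cast
  rw [Real.log_mul hp2 hm2]
  field_simp

private theorem pfac {p : ℕ} (hp : p.Prime) : 0 < 1 - 1 / (p : ℝ) := by
  have h2 : (2 : ℝ) ≤ p := by exact_mod_cast hp.two_le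
  have h3 : 1 / (p : ℝ) ≤ 1 / 2 := one_div_le_one_div_of_le (by norm_num) h2
  linarith

private theorem FF_le_prod (V : Finset ℕ) (n : ℕ) (P : Finset ℕ) (hP : ∀ p ∈ P, p.Prime ∧ p ∉ V) :
    FF (P ∪ V) n ≤ (∏ p ∈ P, (1 - 1 / (p : ℝ))⁻¹) * FF V n := by
  classical
  induction P using Finset.induction_on with
  | empty => simp
  | insert p P hpP ih =>
    have hp := (hP p (mem_insert_self _ _)).1
    have hpV := (hP p (mem_insert_self _ _)).2
    have ih' := ih (fun q hq => hP q (mem_insert_of_mem hq))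
    rw [prod_insert hpP, insert_union]
    have hnot : p ∉ P ∪ V := by
      rw [mem_union]
      push Not
      exact ⟨hpP, hpV⟩
    have h1 := FF_split (P ∪ V) hp hnot n
    have h2 : FF (insert p (P ∪ V)) (n / p) ≤ FF (insert p (P ∪ V)) n :=
      FF_mono _ (Nat.div_le_self n p)
    have h3 := pfac hp
    have hp0 : 0 ≤ 1 / (p : ℝ) := by positivity
    have h4 : (1 - 1 / (p : ℝ)) * FF (insert p (P ∪ V)) n ≤ FF (P ∪ V) n := by
      nlinarith [mul_le_mul_of_nonneg_left h2 hp0]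
    have h5 : FF (insert p (P ∪ V)) n ≤ (1 - 1 / (p : ℝ))⁻¹ * FF (P ∪ V) n := by
      rw [← div_eq_inv_mul, le_div_iff₀ h3]
      linarith
    refine h5.trans ?_
    rw [mul_assoc]
    exact mul_le_mul_of_nonneg_left ih' (inv_nonneg.2 h3.le)

private theorem SS_empty_sub (n : ℕ) : SS ∅ n ⊆ {1} := by
  intro m hm
  rw [mem_SS] at hm
  rw [mem_singleton]
  by_contra h
  obtain ⟨q, hq1, hq2⟩ := Nat.exists_prime_and_dvd h
  have := hm.2 q (Nat.mem_primeFactors.2 ⟨hq1, hq2, by omega⟩)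
  simp at this

private theorem FF_empty (n : ℕ) : FF ∅ n ≤ 1 := by
  calc FF ∅ n ≤ ∑ m ∈ ({1} : Finset ℕ), (1 : ℝ) / m :=
        Finset.sum_le_sum_of_subset_of_nonneg (SS_empty_sub n) fun m _ _ => by positivity
    _ = 1 := by simp

private theorem TL_empty (n : ℕ) : TL ∅ n ≤ 0 := by
  calc TL ∅ n ≤ ∑ m ∈ ({1} : Finset ℕ), Real.log m / m :=
        Finset.sum_le_sum_of_subset_of_nonneg (SS_empty_sub n) fun m _ _ =>
          div_nonneg (Real.log_natCast_nonneg m) (Nat.cast_nonneg m)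
    _ = 0 := by simp

private theorem FF_le_S (P : Finset ℕ) (hP : ∀ p ∈ P, p.Prime) (n : ℕ) :
    FF P n ≤ ∏ p ∈ P, (1 - 1 / (p : ℝ))⁻¹ := by
  have h := FF_le_prod ∅ n P (fun p hp => ⟨hP p hp, by simp⟩)
  rw [union_empty] at h
  have h1 : 0 ≤ ∏ p ∈ P, (1 - 1 / (p : ℝ))⁻¹ :=
    Finset.prod_nonneg fun p hp => inv_nonneg.2 (pfac (hP p hp)).le
  calc FF P n ≤ _ := h
    _ ≤ (∏ p ∈ P, (1 - 1 / (p : ℝ))⁻¹) * 1 := mul_le_mul_of_nonneg_left (FF_empty n) h1
    _ = _ := mul_one _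

private theorem TL_le (P : Finset ℕ) (hP : ∀ p ∈ P, p.Prime) (n : ℕ) :
    TL P n ≤ (∑ p ∈ P, Real.log p / ((p : ℝ) - 1)) * ∏ p ∈ P, (1 - 1 / (p : ℝ))⁻¹ := by
  classical
  induction P using Finset.induction_on with
  | empty => simpa using TL_empty n
  | insert p P hpP ih =>
    have hp := hP p (mem_insert_self _ _)
    have ih' := ih (fun q hq => hP q (mem_insert_of_mem hq))
    have hS := FF_le_S (insert p P) hP (n / p)
    rw [prod_insert hpP] at hS ⊢
    rw [sum_insert hpP]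
    have h1 := TL_split P hp hpP n
    have h2 : TL (insert p P) (n / p) ≤ TL (insert p P) n := TL_mono _ (Nat.div_le_self n p)
    have h3 := pfac hp
    have hp0 : 0 ≤ 1 / (p : ℝ) := by positivity
    have hlp : 0 ≤ Real.log p / p := div_nonneg (Real.log_natCast_nonneg p) (Nat.cast_nonneg p)
    set S : ℝ := ∏ p ∈ P, (1 - 1 / (p : ℝ))⁻¹ with hSdef
    set A : ℝ := ∑ p ∈ P, Real.log p / ((p : ℝ) - 1) with hAdef
    have h4 : (1 - 1 / (p : ℝ)) * TL (insert p P) n ≤
        A * S + Real.log p / p * ((1 - 1 / (p : ℝ))⁻¹ * S) := by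
      have h5 := mul_le_mul_of_nonneg_left h2 hp0
      have h6 := mul_le_mul_of_nonneg_left hS hlp
      linarith
    have h7 : TL (insert p P) n ≤
        (A * S + Real.log p / p * ((1 - 1 / (p : ℝ))⁻¹ * S)) / (1 - 1 / (p : ℝ)) := by
      rw [le_div_iff₀ h3]
      linarith
    refine h7.trans (le_of_eq ?_)
    have hp2 : (p : ℝ) ≠ 0 := by exact_mod_cast hp.ne_zero
    have hp1 : (p : ℝ) - 1 ≠ 0 := by
      have : (2 : ℝ) ≤ p := by exact_mod_cast hp.two_le
      intro h
      linarith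
    have h8 : (1 - 1 / (p : ℝ))⁻¹ = p / ((p : ℝ) - 1) := by
      rw [eq_div_iff hp1, inv_mul_eq_iff_eq_mul₀ h3.ne']
      field_simp
    rw [div_eq_mul_inv, h8]
    field_simp
    ring

private theorem GN_split (P : Finset ℕ) (hP : ∀ q ∈ P, q.Prime) {p : ℕ} (hp : p.Prime) (hpP : p ∉ P) (n : ℕ) :
    GN (insert p P) n = GN P n + 1 / ((p : ℝ) - 1) * GN P (n / p) := by
  classical
  unfold GN
  rw [powerset_insert, filter_union, sum_union]
  · congr 1
    rw [mul_sum]
    have himg : ((P.powerset.image (insert p)).filter (fun B => pr B ≤ n)) =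
        (P.powerset.filter (fun B => pr B ≤ n / p)).image (insert p) := by
      ext B
      simp only [mem_filter, mem_image, mem_powerset]
      constructor
      · rintro ⟨⟨a, ha, rfl⟩, h2⟩
        refine ⟨a, ⟨ha, ?_⟩, rfl⟩
        have hpa : p ∉ a := fun h => hpP (ha h)
        unfold pr at h2 ⊢
        rw [prod_insert hpa] at h2
        rw [Nat.le_div_iff_mul_le hp.pos, mul_comm]
        exact h2
      · rintro ⟨a, ⟨ha, h2⟩, rfl⟩
        refine ⟨⟨a, ha, rfl⟩, ?_⟩
        have hpa : p ∉ a := fun h => hpP (ha h)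
        unfold pr at h2 ⊢
        rw [prod_insert hpa]
        rw [Nat.le_div_iff_mul_le hp.pos, mul_comm] at h2
        exact h2
    rw [himg, sum_image]
    · apply Finset.sum_congr rfl
      intro B hB
      rw [mem_filter, mem_powerset] at hB
      have hpB : p ∉ B := fun h => hpP (hB.1 h)
      unfold ph
      rw [prod_insert hpB, div_mul_div_comm, one_mul]
    · intro a ha b hb hab
      rw [Finset.mem_coe, mem_filter, mem_powerset] at ha hb
      have hpa : p ∉ a := fun h => hpP (ha.1 h)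
      have hpb : p ∉ b := fun h => hpP (hb.1 h)
      have h1 : (insert p a).erase p = (insert p b).erase p := by rw [hab]
      rwa [erase_insert hpa, erase_insert hpb] at h1
  · rw [Finset.disjoint_left]
    intro B hB hB'
    rw [mem_filter, mem_powerset] at hB
    rw [mem_filter, mem_image] at hB'
    obtain ⟨⟨a, _, rfl⟩, _⟩ := hB'
    exact hpP (hB.1 (mem_insert_self _ _))

private theorem ph_nonneg {B : Finset ℕ} (hB : ∀ p ∈ B, p.Prime) : 0 ≤ 1 / ph B := by
  apply div_nonneg zero_le_one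
  unfold ph
  apply Finset.prod_nonneg
  intro p hp
  have : (2 : ℝ) ≤ p := by exact_mod_cast (hB p hp).two_le
  linarith

private theorem GN_nonneg (P : Finset ℕ) (hP : ∀ q ∈ P, q.Prime) (n : ℕ) : 0 ≤ GN P n := by
  unfold GN
  apply Finset.sum_nonneg
  intro B hB
  rw [mem_filter, mem_powerset] at hB
  exact ph_nonneg fun p hp => hP p (hB.1 hp)

private theorem GN_mono (P : Finset ℕ) (hP : ∀ q ∈ P, q.Prime) {m n : ℕ} (h : m ≤ n) :
    GN P m ≤ GN P n := by
  unfold GN
  apply Finset.sum_le_sum_of_subset_of_nonneg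
  · intro B hB
    rw [mem_filter] at hB ⊢
    exact ⟨hB.1, hB.2.trans h⟩
  · intro B hB _
    rw [mem_filter, mem_powerset] at hB
    exact ph_nonneg fun p hp => hP p (hB.1 hp)

private theorem FF_le_GN (P : Finset ℕ) (hP : ∀ q ∈ P, q.Prime) : ∀ n, FF P n ≤ GN P n := by
  classical
  induction P using Finset.induction_on with
  | empty =>
    intro n
    rcases Nat.eq_zero_or_pos n with h0 | h0
    · subst h0
      have h1 : FF ∅ 0 = 0 := by
        unfold FF SS
        simp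
      rw [h1]
      exact GN_nonneg _ hP 0
    · refine (FF_empty n).trans ?_
      unfold GN
      rw [powerset_empty]
      have h2 : ({∅} : Finset (Finset ℕ)).filter (fun B => pr B ≤ n) = {∅} := by
        rw [filter_singleton, if_pos]
        unfold pr
        rw [prod_empty]
        exact h0
      rw [h2, sum_singleton]
      unfold ph
      simp
  | insert p P hpP ih =>
    have hp := hP p (mem_insert_self _ _)
    have hP' : ∀ q ∈ P, q.Prime := fun q hq => hP q (mem_insert_of_mem hq)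
    have ih' := ih hP'
    intro n
    induction n using Nat.strong_induction_on with
    | _ n ihn =>
      rcases Nat.eq_zero_or_pos n with h0 | h0
      · subst h0
        have h1 : FF (insert p P) 0 = 0 := by
          unfold FF SS
          simp
        rw [h1]
        exact GN_nonneg _ hP 0
      · have h1 := FF_split P hp hpP n
        have h2 := ihn (n / p) (Nat.div_lt_self h0 hp.one_lt)
        have h3 := GN_split P hP' hp hpP n
        have h4 := GN_split P hP' hp hpP (n / p)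
        have h5 : GN P (n / p / p) ≤ GN P (n / p) := GN_mono P hP' (Nat.div_le_self _ _)
        have h6 := ih' n
        have hp2 : (2 : ℝ) ≤ p := by exact_mod_cast hp.two_le
        have hp1 : (0 : ℝ) < (p : ℝ) - 1 := by linarith
        have hp0 : (0 : ℝ) < p := by linarith
        have h7 : 1 / ((p : ℝ) - 1) * GN P (n / p / p) ≤ 1 / ((p : ℝ) - 1) * GN P (n / p) :=
          mul_le_mul_of_nonneg_left h5 (by positivity)
        have h8 : FF (insert p P) (n / p) ≤ (1 + 1 / ((p : ℝ) - 1)) * GN P (n / p) := by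
          linarith
        have h9 : 1 / (p : ℝ) * FF (insert p P) (n / p) ≤
            1 / (p : ℝ) * ((1 + 1 / ((p : ℝ) - 1)) * GN P (n / p)) :=
          mul_le_mul_of_nonneg_left h8 (by positivity)
        have h10 : 1 / (p : ℝ) * ((1 + 1 / ((p : ℝ) - 1)) * GN P (n / p)) =
            1 / ((p : ℝ) - 1) * GN P (n / p) := by
          field_simp
          ring
        rw [h1, h3]
        linarith

private theorem GV_eq (V : Finset ℕ) {R : ℝ} (hR : 0 ≤ R) : GV V R = GN V ⌊R⌋₊ := by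
  unfold GV GN
  apply Finset.sum_congr _ (fun _ _ => rfl)
  apply Finset.filter_congr
  intro B _
  rw [Nat.le_floor_iff hR]

private theorem FF_full {P : Finset ℕ} {n : ℕ} (hP : ∀ p, p.Prime → p ≤ n → p ∈ P) :
    FF P n = ∑ m ∈ Icc 1 n, (1 : ℝ) / m := by
  unfold FF SS
  rw [Finset.filter_true_of_mem]
  intro m hm q hq
  rw [mem_Icc] at hm
  exact hP q (Nat.prime_of_mem_primeFactors hq)
    ((Nat.le_of_dvd (by omega) (Nat.dvd_of_mem_primeFactors hq)).trans hm.2)

private theorem FF_tendsto (P : Finset ℕ) (hP : ∀ q ∈ P, q.Prime) :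
    Filter.Tendsto (fun n => FF P n) Filter.atTop (nhds (∏ p ∈ P, (1 - 1 / (p : ℝ))⁻¹)) := by
  classical
  induction P using Finset.induction_on with
  | empty =>
    rw [prod_empty]
    apply tendsto_const_nhds.congr'
    filter_upwards [Filter.eventually_ge_atTop 1] with n hn
    apply le_antisymm _ (FF_empty n)
    unfold FF
    have h1 : (1 : ℕ) ∈ SS ∅ n := by
      rw [mem_SS]
      exact ⟨⟨le_refl _, hn⟩, by simp⟩
    calc (1 : ℝ) = 1 / ((1 : ℕ) : ℝ) := by simp
      _ ≤ ∑ m ∈ SS ∅ n, (1 : ℝ) / m :=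
        Finset.single_le_sum (f := fun m : ℕ => (1 : ℝ) / m) (fun m _ => by positivity) h1
  | insert p P hpP ih =>
    have hp := hP p (mem_insert_self _ _)
    have ih' := ih (fun q hq => hP q (mem_insert_of_mem hq))
    have hbdd : BddAbove (Set.range fun n => FF (insert p P) n) := by
      refine ⟨∏ q ∈ insert p P, (1 - 1 / (q : ℝ))⁻¹, ?_⟩
      rintro _ ⟨n, rfl⟩
      exact FF_le_S _ hP n
    have hlim := tendsto_atTop_ciSup (f := fun n => FF (insert p P) n) (fun a b hab => FF_mono _ hab) hbdd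
    set L : ℝ := ⨆ n, FF (insert p P) n with hL
    have hdiv : Filter.Tendsto (fun n : ℕ => n / p) Filter.atTop Filter.atTop :=
      Nat.tendsto_div_const_atTop hp.ne_zero
    have hlim2 : Filter.Tendsto (fun n => FF P n + 1 / (p : ℝ) * FF (insert p P) (n / p)) Filter.atTop
        (nhds ((∏ p ∈ P, (1 - 1 / (p : ℝ))⁻¹) + 1 / (p : ℝ) * L)) :=
      ih'.add ((hlim.comp hdiv).const_mul _)
    have hlim3 : Filter.Tendsto (fun n => FF (insert p P) n) Filter.atTop
        (nhds ((∏ p ∈ P, (1 - 1 / (p : ℝ))⁻¹) + 1 / (p : ℝ) * L)) := by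
      apply hlim2.congr
      intro n
      exact (FF_split P hp hpP n).symm
    have hEq := tendsto_nhds_unique hlim hlim3
    have h3 := pfac hp
    have hL2 : L = (1 - 1 / (p : ℝ))⁻¹ * ∏ p ∈ P, (1 - 1 / (p : ℝ))⁻¹ := by
      rw [← div_eq_inv_mul, eq_div_iff h3.ne']
      linarith
    rw [prod_insert hpP, ← hL2]
    exact hlim

theorem g_lower {y R : ℝ} {N : ℕ} (hy : 1 ≤ y) (hR : 1 ≤ R) (hRN : R ≤ N) :
    MP y * Real.log R ≤ GV (VN y N) R := by
  classical
  have hdisj : ∀ p ∈ PP y, p.Prime ∧ p ∉ VN y N := by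
    intro p hp
    have hp1 := Finset.mem_filter.1 hp
    refine ⟨hp1.2, fun h => ?_⟩
    have h2 := (Finset.mem_filter.1 h).2.2
    have h3 : p ≤ ⌊y⌋₊ := by
      have := Finset.mem_range.1 hp1.1
      omega
    have h4 : (p : ℝ) ≤ y := (Nat.le_floor_iff (by linarith)).1 h3
    linarith
  have hVprime : ∀ q ∈ VN y N, q.Prime := fun q hq => (Finset.mem_filter.1 hq).2.1
  have hRN' : ⌊R⌋₊ ≤ N := Nat.floor_le_of_le hRN
  have hfull : FF (PP y ∪ VN y N) ⌊R⌋₊ = ∑ m ∈ Icc 1 ⌊R⌋₊, (1 : ℝ) / m := by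
    apply FF_full
    intro p hp hpR
    rw [mem_union]
    by_cases h : (p : ℝ) ≤ y
    · left
      unfold PP
      rw [mem_filter, mem_range]
      exact ⟨by have := Nat.le_floor h; omega, hp⟩
    · right
      unfold VN
      rw [mem_filter, mem_range]
      exact ⟨by omega, hp, not_le.1 h⟩
  have h1 := FF_le_prod (VN y N) ⌊R⌋₊ (PP y) hdisj
  rw [hfull] at h1
  have h2 := FF_le_GN (VN y N) hVprime ⌊R⌋₊
  rw [← GV_eq _ (by linarith : (0 : ℝ) ≤ R)] at h2
  have h3 : Real.log R ≤ ∑ m ∈ Icc 1 ⌊R⌋₊, (1 : ℝ) / m := by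
    have h4 := log_le_harmonic_floor R (by linarith)
    refine h4.trans (le_of_eq ?_)
    rw [harmonic_eq_sum_Icc]
    push_cast
    apply Finset.sum_congr rfl
    intro m _
    rw [one_div]
  have hprod : (∏ p ∈ PP y, (1 - 1 / (p : ℝ))⁻¹) = (MP y)⁻¹ := by
    unfold MP
    rw [prod_inv_distrib]
  rw [hprod] at h1
  have hMP := MP_pos y
  have h5 : Real.log R ≤ (MP y)⁻¹ * GV (VN y N) R :=
    (h3.trans h1).trans (mul_le_mul_of_nonneg_left h2 (inv_nonneg.2 hMP.le))
  calc MP y * Real.log R ≤ MP y * ((MP y)⁻¹ * GV (VN y N) R) := mul_le_mul_of_nonneg_left h5 hMP.le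
    _ = GV (VN y N) R := by rw [← mul_assoc, mul_inv_cancel₀ hMP.ne', one_mul]

private theorem tele (n : ℕ) (hn : 2 ≤ n) :
    Real.log n / ((n : ℝ) * (n - 1)) ≤ 4 * (1 / √((n : ℝ) - 1) - 1 / √n) := by
  have hn2 : (2 : ℝ) ≤ n := by exact_mod_cast hn
  have h1 : (0 : ℝ) < (n : ℝ) - 1 := by linarith
  have ha : 0 < √((n : ℝ) - 1) := Real.sqrt_pos.2 h1
  have hb : 0 < √(n : ℝ) := Real.sqrt_pos.2 (by linarith)
  have ha2 : √((n : ℝ) - 1) ^ 2 = (n : ℝ) - 1 := Real.sq_sqrt h1.le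
  have hb2 : √(n : ℝ) ^ 2 = n := Real.sq_sqrt (by linarith)
  have ha1 : 1 ≤ √((n : ℝ) - 1) := by
    have h := Real.sqrt_le_sqrt (show (1 : ℝ) ≤ (n : ℝ) - 1 by linarith)
    rwa [Real.sqrt_one] at h
  have hab : √((n : ℝ) - 1) ≤ √(n : ℝ) := Real.sqrt_le_sqrt (by linarith)
  set a := √((n : ℝ) - 1) with hadef
  set b := √(n : ℝ) with hbdef
  have hlog : Real.log n ≤ 2 * a := by
    have h3 : Real.log n = 2 * Real.log b := by
      rw [← hb2, Real.log_pow]
      push_cast
      ring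
    have h4 : Real.log b ≤ b - 1 := Real.log_le_sub_one_of_pos hb
    have h5 : b ≤ 1 + a := by nlinarith
    rw [h3]
    linarith
  have hkey : 1 / a - 1 / b = 1 / (a * b * (a + b)) := by
    have hne : a ≠ 0 := ha.ne'
    have hne2 : b ≠ 0 := hb.ne'
    have hne3 : a + b ≠ 0 := by positivity
    field_simp
    nlinarith
  rw [hkey, ← ha2, ← hb2]
  have h6 : Real.log ((b : ℝ) ^ 2) ≤ 2 * a := by
    rw [hb2]
    exact hlog
  rw [mul_one_div, div_le_div_iff₀ (by positivity) (by positivity)]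
  have h7 : a + b ≤ 2 * b := by linarith
  have h8 : 0 ≤ Real.log (b ^ 2) := by
    rw [hb2]
    exact Real.log_nonneg (by linarith)
  calc Real.log (b ^ 2) * (a * b * (a + b)) ≤ (2 * a) * (a * b * (a + b)) :=
        mul_le_mul_of_nonneg_right h6 (by positivity)
    _ ≤ (2 * a) * (a * b * (2 * b)) := by
        apply mul_le_mul_of_nonneg_left _ (by positivity)
        exact mul_le_mul_of_nonneg_left h7 (by positivity)
    _ = 4 * (b ^ 2 * a ^ 2) := by ring

private theorem tele_sum (M : ℕ) (hM : 1 ≤ M) :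
    ∑ n ∈ Icc 2 M, Real.log n / ((n : ℝ) * (n - 1)) ≤ 4 * (1 - 1 / √(M : ℝ)) := by
  induction M, hM using Nat.le_induction with
  | base => simp
  | succ M hM ih =>
    rw [Finset.sum_Icc_succ_top (by omega)]
    have h := tele (M + 1) (by omega)
    have h2 : (((M + 1 : ℕ) : ℝ) - 1) = M := by push_cast; ring
    rw [h2] at h
    rw [h2]
    linarith

private theorem A_bound {y : ℝ} (hy : 2 ≤ y) :
    ∑ p ∈ PP y, Real.log p / ((p : ℝ) - 1) ≤ Real.log y + 6 := by
  have hfl : 2 ≤ ⌊y⌋₊ := Nat.le_floor (by exact_mod_cast hy)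
  have h1 : PP y = Pool.Agent.Helper35.prm 0 ⌊y⌋₊ := by
    ext p
    unfold PP
    rw [mem_filter, mem_range, Pool.Agent.Helper35.mem_prm]
    constructor
    · rintro ⟨h1, h2⟩
      exact ⟨⟨h2.pos, by omega⟩, h2⟩
    · rintro ⟨⟨_, h1⟩, h2⟩
      exact ⟨by omega, h2⟩
  have h2 := Pool.Agent.Helper35.mertens_upper ⌊y⌋₊ (by omega)
  rw [← h1] at h2
  have h3 : ∑ p ∈ PP y, Real.log p / ((p : ℝ) * (p - 1)) ≤ 4 := by
    have h4 := tele_sum ⌊y⌋₊ (by omega)
    have h5 : ∑ p ∈ PP y, Real.log p / ((p : ℝ) * (p - 1)) ≤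
        ∑ n ∈ Icc 2 ⌊y⌋₊, Real.log n / ((n : ℝ) * (n - 1)) := by
      apply Finset.sum_le_sum_of_subset_of_nonneg
      · intro p hp
        unfold PP at hp
        rw [mem_filter, mem_range] at hp
        rw [mem_Icc]
        exact ⟨hp.2.two_le, by omega⟩
      · intro n hn _
        rw [mem_Icc] at hn
        have : (2 : ℝ) ≤ n := by exact_mod_cast hn.1
        apply div_nonneg (Real.log_natCast_nonneg n)
        apply mul_nonneg (Nat.cast_nonneg n)
        linarith
    have h6 : 0 ≤ 1 / √((⌊y⌋₊ : ℕ) : ℝ) := by positivity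
    linarith
  have h4 : ∑ p ∈ PP y, Real.log p / ((p : ℝ) - 1) =
      ∑ p ∈ PP y, Real.log p / p + ∑ p ∈ PP y, Real.log p / ((p : ℝ) * (p - 1)) := by
    rw [← sum_add_distrib]
    apply Finset.sum_congr rfl
    intro p hp
    have hp1 := (Finset.mem_filter.1 hp).2
    have hp2 : (2 : ℝ) ≤ p := by exact_mod_cast hp1.two_le
    have hp0 : (p : ℝ) ≠ 0 := by linarith
    have hp3 : (p : ℝ) - 1 ≠ 0 := by
      intro h
      linarith
    field_simp
    ring
  have h5 : Real.log (⌊y⌋₊ : ℕ) ≤ Real.log y :=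
    Real.log_le_log (by exact_mod_cast (by omega : 0 < ⌊y⌋₊)) (Nat.floor_le (by linarith))
  rw [h4]
  linarith

theorem smooth_tail : ∃ C : ℝ, 0 < C ∧ ∀ (y Z : ℝ), 2 ≤ y → 1 < Z →
    1 - (Real.log y + C) / Real.log Z ≤
      MP y * ∑ m ∈ (Icc 1 ⌊Z⌋₊).filter (fun m => ∀ p ∈ m.primeFactors, p ≤ ⌊y⌋₊), (1 : ℝ) / m := by
  classical
  refine ⟨6, by norm_num, ?_⟩
  intro y Z hy hZ
  have hlogZ : 0 < Real.log Z := Real.log_pos hZ
  have hPprime : ∀ q ∈ PP y, q.Prime := fun q hq => (Finset.mem_filter.1 hq).2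
  have hset : (Icc 1 ⌊Z⌋₊).filter (fun m => ∀ p ∈ m.primeFactors, p ≤ ⌊y⌋₊) = SS (PP y) ⌊Z⌋₊ := by
    unfold SS
    apply Finset.filter_congr
    intro m _
    constructor
    · intro h q hq
      unfold PP
      rw [mem_filter, mem_range]
      exact ⟨by have := h q hq; omega, Nat.prime_of_mem_primeFactors hq⟩
    · intro h q hq
      have h2 := h q hq
      unfold PP at h2
      rw [mem_filter, mem_range] at h2
      omega
  rw [hset]
  have hprod : (∏ p ∈ PP y, (1 - 1 / (p : ℝ))⁻¹) = (MP y)⁻¹ := by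
    unfold MP
    rw [prod_inv_distrib]
  have hMP := MP_pos y
  have hA := A_bound hy
  set A : ℝ := ∑ p ∈ PP y, Real.log p / ((p : ℝ) - 1) with hAdef
  have hbound : ∀ X : ℕ, ⌊Z⌋₊ ≤ X →
      FF (PP y) X ≤ FF (PP y) ⌊Z⌋₊ + A * (MP y)⁻¹ / Real.log Z := by
    intro X hX
    have h1 : FF (PP y) X = FF (PP y) ⌊Z⌋₊ + ∑ m ∈ SS (PP y) X \ SS (PP y) ⌊Z⌋₊, (1 : ℝ) / m := by
      unfold FF
      rw [add_comm, Finset.sum_sdiff (SS_mono _ hX)]
    have h2 : ∑ m ∈ SS (PP y) X \ SS (PP y) ⌊Z⌋₊, (1 : ℝ) / m ≤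
        ∑ m ∈ SS (PP y) X \ SS (PP y) ⌊Z⌋₊, Real.log m / m / Real.log Z := by
      apply Finset.sum_le_sum
      intro m hm
      rw [mem_sdiff, mem_SS, mem_SS] at hm
      have hm1 : 1 ≤ m := hm.1.1.1
      have hm2 : ⌊Z⌋₊ < m := by
        by_contra hcon
        exact hm.2 ⟨⟨hm1, not_lt.1 hcon⟩, hm.1.2⟩
      have hm3 : Z ≤ m := ((Nat.floor_lt (by linarith)).1 hm2).le
      have hm4 : Real.log Z ≤ Real.log m := Real.log_le_log (by linarith) hm3
      have hm5 : (0 : ℝ) < m := by exact_mod_cast hm1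
      rw [div_div, div_le_div_iff₀ hm5 (by positivity)]
      nlinarith
    have h3 : ∑ m ∈ SS (PP y) X \ SS (PP y) ⌊Z⌋₊, Real.log m / m / Real.log Z ≤
        TL (PP y) X / Real.log Z := by
      rw [← Finset.sum_div]
      apply div_le_div_of_nonneg_right _ hlogZ.le
      unfold TL
      apply Finset.sum_le_sum_of_subset_of_nonneg sdiff_subset
      intro m _ _
      exact div_nonneg (Real.log_natCast_nonneg m) (Nat.cast_nonneg m)
    have h4 := TL_le (PP y) hPprime X
    rw [hprod] at h4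
    have h5 : TL (PP y) X / Real.log Z ≤ A * (MP y)⁻¹ / Real.log Z :=
      div_le_div_of_nonneg_right h4 hlogZ.le
    linarith
  have hlim := FF_tendsto (PP y) hPprime
  rw [hprod] at hlim
  have hfin : (MP y)⁻¹ ≤ FF (PP y) ⌊Z⌋₊ + A * (MP y)⁻¹ / Real.log Z := by
    apply le_of_tendsto hlim
    filter_upwards [Filter.eventually_ge_atTop ⌊Z⌋₊] with X hX
    exact hbound X hX
  have h6 := mul_le_mul_of_nonneg_left hfin hMP.le
  have h7 : MP y * (MP y)⁻¹ = 1 := mul_inv_cancel₀ hMP.ne'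
  have h8 : MP y * (FF (PP y) ⌊Z⌋₊ + A * (MP y)⁻¹ / Real.log Z) =
      MP y * FF (PP y) ⌊Z⌋₊ + A / Real.log Z := by
    field_simp
  rw [h7, h8] at h6
  have h9 : A / Real.log Z ≤ (Real.log y + 6) / Real.log Z := div_le_div_of_nonneg_right hA hlogZ.le
  have h10 : MP y * FF (PP y) ⌊Z⌋₊ = MP y * ∑ m ∈ SS (PP y) ⌊Z⌋₊, (1 : ℝ) / m := rfl
  rw [← h10]
  linarith

end PGL
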