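import Pool.Agent.PGL.AB

/-! PGL / GS1: the sum of products of Selberg weights over a progression.

PROOF. For `m = V.filter (· ∣ n)`: `Lam V y n * Lam V y' n = ∑_{D ⊆ m} ρ(D)` (`rho_sum`), i.e. the sum over the
`D ⊆ V` all of whose elements divide `n`. Expand the product over `i` (`Finset.prod_univ_sum`) and exchange the
sums: `∑_{(D_i)} ∏ ρ_i(D_i) #{n : N < n ≤ 2N, n ≡ b (q), p ∣ n + h_i for all p ∈ D_i}`. If the tuple is not pairwise
disjoint, some `p ∈ V` divides `n + h_i` and `n + h_j`, so `h_i ≡ h_j mod p`, excluded: the count is `0`. Otherwise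
the conditions are one residue class modulo `q ∏ pr D_i` (Chinese remainder theorem; `q` and the different primes
are coprime), and the number of `n ∈ (N, 2N]` in a class modulo `Q` is `N / Q + θ`, `|θ| ≤ 1` (`Nat.Ioc_filter_modEq_card`
or similar). `al (1 / p) D_i = 1 / pr D_i`. Error: `∑_{(D_i) ∈ tup} ∏ |ρ_i(D_i)| ≤ ∏_i ∑_D |ρ_i(D)|`. -/

set_option autoImplicit false

open Finset

noncomputable section

namespace PGL

private theorem modcount (N r Q : ℕ) (hQ : 0 < Q) :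
    |((((Ioc N (2 * N)).filter (· ≡ r [MOD Q])).card : ℕ) : ℝ) - N / Q| ≤ 1 := by
  have h := Nat.Ioc_filter_modEq_card N (2 * N) hQ r
  have hQ' : (0 : ℝ) < Q := by exact_mod_cast hQ
  have e1 : ((⌊(((2 * N : ℕ) : ℚ) - r) / Q⌋ : ℤ) : ℝ) = ((⌊(((2 * N : ℕ) : ℝ) - r) / Q⌋ : ℤ) : ℝ) := by
    congr 1
    have : ((((((2 * N : ℕ) : ℚ) - r) / Q : ℚ)) : ℝ) = (((2 * N : ℕ) : ℝ) - r) / Q := by
      push_cast
      ring
    rw [← this, Rat.floor_cast]
  have e2 : ((⌊(((N : ℕ) : ℚ) - r) / Q⌋ : ℤ) : ℝ) = ((⌊(((N : ℕ) : ℝ) - r) / Q⌋ : ℤ) : ℝ) := by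
    congr 1
    have : ((((((N : ℕ) : ℚ) - r) / Q : ℚ)) : ℝ) = (((N : ℕ) : ℝ) - r) / Q := by
      push_cast
      ring
    rw [← this, Rat.floor_cast]
  have h1 : ((((Ioc N (2 * N)).filter (· ≡ r [MOD Q])).card : ℕ) : ℝ) =
      max (((⌊(((2 * N : ℕ) : ℝ) - r) / Q⌋ : ℤ) : ℝ) - ((⌊(((N : ℕ) : ℝ) - r) / Q⌋ : ℤ) : ℝ)) 0 := by
    rw [← e1, ← e2]
    exact_mod_cast congrArg (fun z : ℤ => (z : ℝ)) h
  rw [h1]
  have f1 := Int.floor_le ((((2 * N : ℕ) : ℝ) - r) / Q)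
  have f2 := Int.lt_floor_add_one ((((2 * N : ℕ) : ℝ) - r) / Q)
  have f3 := Int.floor_le ((((N : ℕ) : ℝ) - r) / Q)
  have f4 := Int.lt_floor_add_one ((((N : ℕ) : ℝ) - r) / Q)
  have e3 : (((2 * N : ℕ) : ℝ) - r) / Q = (((N : ℕ) : ℝ) - r) / Q + N / Q := by
    push_cast
    ring
  have e4 : (0 : ℝ) ≤ N / Q := by positivity
  rw [e3] at f1 f2
  rw [e3]
  rw [abs_le]
  constructor
  · have := le_max_left (((⌊(((N : ℕ) : ℝ) - r) / Q + N / Q⌋ : ℤ) : ℝ) -
      ((⌊(((N : ℕ) : ℝ) - r) / Q⌋ : ℤ) : ℝ)) 0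
    linarith
  · have : max (((⌊(((N : ℕ) : ℝ) - r) / Q + N / Q⌋ : ℤ) : ℝ) -
      ((⌊(((N : ℕ) : ℝ) - r) / Q⌋ : ℤ) : ℝ)) 0 ≤ N / Q + 1 := by
      apply max_le
      · linarith
      · linarith
    linarith

private theorem crt (B : Finset ℕ) (hB : ∀ p ∈ B, p.Prime) (q b : ℕ) (hqB : ∀ p ∈ B, ¬ p ∣ q)
    (c : ℕ → ℕ) : ∃ r, ∀ n, (n ≡ b [MOD q] ∧ ∀ p ∈ B, n ≡ c p [MOD p]) ↔
      n ≡ r [MOD q * ∏ p ∈ B, p] := by
  classical
  induction B using Finset.induction_on with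
  | empty =>
    refine ⟨b, fun n => ?_⟩
    simp
  | @insert p B hp ih =>
    obtain ⟨r, hr⟩ := ih (fun x hx => hB x (mem_insert_of_mem hx))
      fun x hx => hqB x (mem_insert_of_mem hx)
    have hpp := hB p (mem_insert_self _ _)
    have hcop : Nat.Coprime (q * ∏ x ∈ B, x) p := by
      rw [Nat.coprime_comm]
      refine Nat.Coprime.mul_right ?_ ?_
      · exact (Nat.Prime.coprime_iff_not_dvd hpp).2 (hqB p (mem_insert_self _ _))
      · refine Nat.Coprime.prod_right fun x hx => ?_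
        refine (Nat.coprime_primes hpp (hB x (mem_insert_of_mem hx))).2 ?_
        rintro rfl
        exact hp hx
    refine ⟨Nat.chineseRemainder hcop r (c p), fun n => ?_⟩
    have hs := (Nat.chineseRemainder hcop r (c p)).2
    rw [Finset.prod_insert hp, mul_comm p, ← mul_assoc,
      ← Nat.modEq_and_modEq_iff_modEq_mul hcop]
    constructor
    · rintro ⟨h1, h2⟩
      refine ⟨((hr n).1 ⟨h1, fun x hx => h2 x (mem_insert_of_mem hx)⟩).trans hs.1.symm,
        (h2 p (mem_insert_self _ _)).trans hs.2.symm⟩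
    · rintro ⟨h1, h2⟩
      obtain ⟨h3, h4⟩ := (hr n).2 (h1.trans hs.1)
      refine ⟨h3, fun x hx => ?_⟩
      rcases mem_insert.1 hx with rfl | hx
      · exact h2.trans hs.2
      · exact h4 x hx

private theorem dvd_iff (p n h : ℕ) (hp : 0 < p) : p ∣ n + h ↔ n ≡ (p - 1) * h [MOD p] := by
  have h1 : (p - 1) * h + h = p * h := by
    obtain ⟨k, rfl⟩ := Nat.exists_eq_succ_of_ne_zero hp.ne'
    simp only [Nat.succ_eq_add_one, Nat.add_sub_cancel]
    ring
  constructor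
  · intro h2
    have h3 : n + h ≡ (p - 1) * h + h [MOD p] := by
      rw [h1]
      exact ((Nat.modEq_zero_iff_dvd).2 h2).trans
        ((Nat.modEq_zero_iff_dvd).2 (dvd_mul_right p h)).symm
    exact Nat.ModEq.add_right_cancel' h h3
  · intro h2
    have h3 : n + h ≡ (p - 1) * h + h [MOD p] := h2.add_right h
    rw [h1] at h3
    exact (Nat.modEq_zero_iff_dvd).1 (h3.trans ((Nat.modEq_zero_iff_dvd).2 (dvd_mul_right p h)))

/-- the number of `n ∈ (N, 2N]` in the class given by pairwise disjoint sets of primes -/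
theorem class_count {ι : Type*} [Fintype ι] (V : Finset ℕ) (hV : ∀ p ∈ V, p.Prime) (q N b : ℕ) (hq : 0 < q)
    (hqV : ∀ p ∈ V, ¬ p ∣ q) (h : ι → ℕ) {D : ι → Finset ℕ} (hD : D ∈ tup ι V) :
    |((((Ioc N (2 * N)).filter (fun n => n ≡ b [MOD q] ∧ ∀ i, ∀ p ∈ D i, p ∣ n + h i)).card : ℕ) : ℝ) -
      N / q * ∏ i, al (fun p => 1 / (p : ℝ)) (D i)| ≤ 1 := by
  classical
  obtain ⟨hDV, hPD⟩ := mem_tup.1 hD
  set B : Finset ℕ := univ.biUnion D with hBdef
  have hBV : ∀ p ∈ B, p ∈ V := by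
    intro p hp
    rw [hBdef, mem_biUnion] at hp
    obtain ⟨i, -, hi⟩ := hp
    exact hDV i hi
  set c : ℕ → ℕ := fun p => if H : ∃ i, p ∈ D i then (p - 1) * h H.choose else 0 with hc
  have hcp : ∀ i, ∀ p ∈ D i, c p = (p - 1) * h i := by
    intro i p hp
    have H : ∃ i, p ∈ D i := ⟨i, hp⟩
    have h1 : H.choose = i := by
      by_contra hne
      exact Finset.disjoint_left.1 (hPD _ _ hne) H.choose_spec hp
    rw [hc]
    simp only [dif_pos H]
    rw [h1]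
  obtain ⟨r, hr⟩ := crt B (fun p hp => hV p (hBV p hp)) q b (fun p hp => hqV p (hBV p hp)) c
  have hset : (Ioc N (2 * N)).filter (fun n => n ≡ b [MOD q] ∧ ∀ i, ∀ p ∈ D i, p ∣ n + h i) =
      (Ioc N (2 * N)).filter (· ≡ r [MOD q * ∏ p ∈ B, p]) := by
    refine Finset.filter_congr fun n _ => ?_
    rw [← hr n]
    refine and_congr Iff.rfl ?_
    constructor
    · intro h1 p hp
      rw [hBdef, mem_biUnion] at hp
      obtain ⟨i, -, hi⟩ := hp
      rw [hcp i p hi]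
      exact (dvd_iff p n (h i) (hV p (hDV i hi)).pos).1 (h1 i p hi)
    · intro h1 i p hi
      have h2 := h1 p (by rw [hBdef, mem_biUnion]; exact ⟨i, mem_univ _, hi⟩)
      rw [hcp i p hi] at h2
      exact (dvd_iff p n (h i) (hV p (hDV i hi)).pos).2 h2
  have hpos : 0 < q * ∏ p ∈ B, p :=
    Nat.mul_pos hq (Finset.prod_pos fun p hp => (hV p (hBV p hp)).pos)
  have key := modcount N r _ hpos
  have e1 : (N : ℝ) / q * ∏ i, al (fun p => 1 / (p : ℝ)) (D i) =
      N / ((q * ∏ p ∈ B, p : ℕ) : ℝ) := by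
    have e2 : ∏ i, al (fun p => 1 / (p : ℝ)) (D i) = 1 / ((∏ p ∈ B, p : ℕ) : ℝ) := by
      have e3 : ((∏ p ∈ B, p : ℕ) : ℝ) = ∏ i, ∏ p ∈ D i, (p : ℝ) := by
        rw [hBdef, Finset.prod_biUnion]
        · push_cast
          rfl
        · intro i _ j _ hij
          exact hPD i j hij
      rw [e3, one_div, ← Finset.prod_inv_distrib]
      refine Finset.prod_congr rfl fun i _ => ?_
      unfold al
      rw [← Finset.prod_inv_distrib]
      exact Finset.prod_congr rfl fun p _ => one_div _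
    rw [e2]
    push_cast
    rw [mul_one_div, div_div]
  rw [hset, e1]
  exact key

theorem gs1 {ι : Type*} [Fintype ι] (V : Finset ℕ) (hV : ∀ p ∈ V, p.Prime) (q N b : ℕ) (hq : 0 < q)
    (hqV : ∀ p ∈ V, ¬ p ∣ q) (h : ι → ℕ) (hh : ∀ p ∈ V, ∀ i j, i ≠ j → ¬ h i ≡ h j [MOD p])
    (y y' : ι → Finset ℕ → ℝ) :
    |∑ n ∈ (Ioc N (2 * N)).filter (· ≡ b [MOD q]), ∏ i, (Lam V (y i) (n + h i) * Lam V (y' i) (n + h i)) -
      N / q * TT V (fun i D => rho V (y i) (y' i) D * al (fun p => 1 / (p : ℝ)) D)| ≤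
      ∏ i, ∑ D ∈ V.powerset, |rho V (y i) (y' i) D| := by
  classical
  have hterm : ∀ n, ∏ i, (Lam V (y i) (n + h i) * Lam V (y' i) (n + h i)) =
      ∑ D ∈ tup ι V, if (∀ i, ∀ p ∈ D i, p ∣ n + h i) then ∏ i, rho V (y i) (y' i) (D i) else 0 := by
    intro n
    have h1 : ∀ i, Lam V (y i) (n + h i) * Lam V (y' i) (n + h i) =
        ∑ D ∈ (V.filter (· ∣ n + h i)).powerset, rho V (y i) (y' i) D := fun i =>
      rho_sum V (y i) (y' i) (Finset.filter_subset _ _)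
    rw [Finset.prod_congr rfl fun i _ => h1 i, Finset.prod_univ_sum, ← Finset.sum_filter]
    refine Finset.sum_congr ?_ fun _ _ => rfl
    ext D
    rw [Fintype.mem_piFinset, mem_filter, mem_tup]
    constructor
    · intro hD
      have h2 : ∀ i, ∀ p ∈ D i, p ∈ V ∧ p ∣ n + h i := by
        intro i p hp
        have h3 := mem_powerset.1 (hD i) hp
        exact mem_filter.1 h3
      refine ⟨⟨fun i p hp => (h2 i p hp).1, fun i j hij => ?_⟩, fun i p hp => (h2 i p hp).2⟩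
      rw [Finset.disjoint_left]
      intro p hp hp'
      obtain ⟨hpV, hp1⟩ := h2 i p hp
      obtain ⟨-, hp2⟩ := h2 j p hp'
      refine hh p hpV i j hij ?_
      have h3 : n + h i ≡ n + h j [MOD p] :=
        ((Nat.modEq_zero_iff_dvd).2 hp1).trans ((Nat.modEq_zero_iff_dvd).2 hp2).symm
      exact Nat.ModEq.add_left_cancel' n h3
    · rintro ⟨⟨h2, -⟩, h3⟩ i
      rw [mem_powerset]
      intro p hp
      exact mem_filter.2 ⟨h2 i hp, h3 i p hp⟩
  have hsum : ∑ n ∈ (Ioc N (2 * N)).filter (· ≡ b [MOD q]),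
      ∏ i, (Lam V (y i) (n + h i) * Lam V (y' i) (n + h i)) =
      ∑ D ∈ tup ι V, (∏ i, rho V (y i) (y' i) (D i)) *
        ((((Ioc N (2 * N)).filter (fun n => n ≡ b [MOD q] ∧ ∀ i, ∀ p ∈ D i, p ∣ n + h i)).card : ℕ) : ℝ) := by
    rw [Finset.sum_congr rfl fun n _ => hterm n, Finset.sum_comm]
    refine Finset.sum_congr rfl fun D _ => ?_
    rw [← Finset.sum_filter, Finset.filter_filter, Finset.sum_const, nsmul_eq_mul, mul_comm]
  have hTT : (N : ℝ) / q * TT V (fun i D => rho V (y i) (y' i) D * al (fun p => 1 / (p : ℝ)) D) =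
      ∑ D ∈ tup ι V, (∏ i, rho V (y i) (y' i) (D i)) *
        (N / q * ∏ i, al (fun p => 1 / (p : ℝ)) (D i)) := by
    unfold TT
    rw [Finset.mul_sum]
    refine Finset.sum_congr rfl fun D _ => ?_
    rw [Finset.prod_mul_distrib]
    ring
  rw [hsum, hTT, ← Finset.sum_sub_distrib]
  refine (Finset.abs_sum_le_sum_abs _ _).trans ?_
  rw [Finset.prod_univ_sum]
  have hsub : tup ι V ⊆ Fintype.piFinset fun _ : ι => V.powerset := by
    unfold tup
    exact Finset.filter_subset _ _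
  refine le_trans (Finset.sum_le_sum fun D hD => ?_) (Finset.sum_le_sum_of_subset_of_nonneg hsub
    fun D _ _ => Finset.prod_nonneg fun i _ => abs_nonneg _)
  rw [← mul_sub, abs_mul, Finset.abs_prod]
  have h1 := class_count V hV q N b hq hqV h hD
  calc (∏ i, |rho V (y i) (y' i) (D i)|) * _ ≤ (∏ i, |rho V (y i) (y' i) (D i)|) * 1 :=
        mul_le_mul_of_nonneg_left h1 (Finset.prod_nonneg fun i _ => abs_nonneg _)
    _ = _ := mul_one _

end PGL
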