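import Pool.Agent.PGL.GL

/-! PGL / GU: the asymptotics of `G_V(N^τ)`.

PROOFS. `g_upper`: let `y = ε log N`, `log Z = (log y)²`, `G'(R) = ∑_{B ⊆ V, pr B ≤ R} 1 / pr B`, `V = VN y N`. The
products `m * pr B`, `m ≤ Z` `y`-smooth, are different and `≤ R Z`, so
`G'(R) ∑_{m ≤ Z smooth} 1 / m ≤ ∑_{n ≤ R Z} 1 / n ≤ 1 + log R + log Z`, and by `smooth_tail`
`MP y ∑ ≥ 1 - (log y + C) / (log y)² ≥ 1 - 2 / log y`. For `pr B ≤ N` we have `|B| ≤ log N / log y` and
`pr B / ph B = ∏ (1 + 1 / (p - 1)) ≤ exp (|B| / (y - 1)) ≤ exp (2 / (ε log y))`, so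
`G(R) ≤ exp (2 / (ε log y)) G'(R)`. Altogether
`G(R) ≤ MP y (log R + 1 + (log y)²) exp (2 / (ε log y)) / (1 - 2 / log y) ≤ MP y (log R + η log N)` for large `N`,
uniformly in `R ≤ N`.
`g_asym`: `V ⊆ VN y N`, `G_V ≤ G_{VN}`; and `G_{VN}(R) ≤ G_V(R) ∏_{p ∈ VN \ V} (1 + 1 / (p - 1))
≤ G_V(R) (1 + 1 / (y - 1))^m` (a set `B ⊆ VN` is the union of a subset of `V` and one of `VN \ V`). So by
`g_lower`, `g_upper`: `τ (1 + 1 / (y-1))^(-m) ≤ G_V(N^τ) / Gam ≤ τ + η`.
`Gam_ge`: `MP y ≥ ∏_{2 ≤ n ≤ y} (1 - 1/n) = 1 / ⌊y⌋ ≥ 1 / (ε log N)` for `y ≥ 1`. -/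

set_option autoImplicit false

open Finset

noncomputable section

namespace PGL

/-- `Γ = ∏_{p ≤ ε log N} (1 - 1 / p) log N` -/
def Gam (ε : ℝ) (N : ℕ) : ℝ := MP (ε * Real.log N) * Real.log N

private theorem gu_nat (n : ℕ) (hn : 1 ≤ n) :
    1 / (n : ℝ) ≤ ∏ p ∈ (range (n + 1)).filter Nat.Prime, (1 - 1 / (p : ℝ)) := by
  induction n, hn using Nat.le_induction with
  | base =>
    have h : (range (1 + 1)).filter Nat.Prime = ∅ := by
      refine Finset.filter_eq_empty_iff.2 fun x hx hp => ?_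
      rw [mem_range] at hx
      have := hp.two_le
      omega
    rw [h, prod_empty]
    norm_num
  | succ n hn ih =>
    rw [range_add_one (n := n + 1), filter_insert]
    have hn0 : (0 : ℝ) < n := by exact_mod_cast hn
    split_ifs with hp
    · rw [prod_insert (by simp)]
      push_cast
      have e : 1 / ((n : ℝ) + 1) = (1 - 1 / ((n : ℝ) + 1)) * (1 / (n : ℝ)) := by
        field_simp
        ring
      refine e.trans_le (mul_le_mul_of_nonneg_left ih ?_)
      rw [sub_nonneg, div_le_one (by linarith)]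
      linarith
    · refine le_trans ?_ ih
      push_cast
      exact one_div_le_one_div_of_le hn0 (by linarith)

private theorem gu_mp_ge {y : ℝ} (hy : 1 ≤ y) : 1 / y ≤ MP y := by
  have h1 : 1 ≤ ⌊y⌋₊ := Nat.le_floor (by simpa using hy)
  have h2 := gu_nat ⌊y⌋₊ h1
  have h3 : (⌊y⌋₊ : ℝ) ≤ y := Nat.floor_le (by linarith)
  have h4 : (0 : ℝ) < ⌊y⌋₊ := by exact_mod_cast h1
  exact (one_div_le_one_div_of_le h4 h3).trans h2

private theorem gu_mp_le (y : ℝ) : MP y ≤ 1 := by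
  unfold MP
  refine prod_le_one (fun p hp => ?_) fun p hp => ?_
  · have h1 : (PP y).Nonempty := ⟨p, hp⟩
    have hp' : p.Prime := (mem_filter.1 hp).2
    have h2 : (2 : ℝ) ≤ p := by exact_mod_cast hp'.two_le
    rw [sub_nonneg, div_le_one (by linarith)]
    linarith
  · have h2 : (0 : ℝ) ≤ 1 / p := by positivity
    linarith

private theorem gu_ph {B : Finset ℕ} (hB : ∀ p ∈ B, p.Prime) : 0 < ph B := by
  refine prod_pos fun p hp => ?_
  have h2 : (2 : ℝ) ≤ p := by exact_mod_cast (hB p hp).two_le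
  linarith

private theorem gu_pr {B : Finset ℕ} (hB : ∀ p ∈ B, p.Prime) : 0 < pr B :=
  prod_pos fun p hp => (hB p hp).pos

private theorem gu_nonneg {V : Finset ℕ} (hV : ∀ p ∈ V, p.Prime) (R : ℝ) : 0 ≤ GV V R := by
  refine sum_nonneg fun B hB => ?_
  rw [mem_filter, mem_powerset] at hB
  exact one_div_nonneg.2 (gu_ph fun p hp => hV p (hB.1 hp)).le

private theorem gu_mono {V V' : Finset ℕ} (hV : ∀ p ∈ V', p.Prime) (h : V ⊆ V') (R : ℝ) :
    GV V R ≤ GV V' R := by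
  refine sum_le_sum_of_subset_of_nonneg (filter_subset_filter _ (powerset_mono.2 h))
    fun B hB _ => ?_
  rw [mem_filter, mem_powerset] at hB
  exact one_div_nonneg.2 (gu_ph fun p hp => hV p (hB.1 hp)).le

private theorem gu_insert {V : Finset ℕ} (hV : ∀ p ∈ V, p.Prime) {p : ℕ} (hp : p.Prime)
    (hpV : p ∉ V) (R : ℝ) : GV (insert p V) R ≤ GV V R * (1 + 1 / ((p : ℝ) - 1)) := by
  unfold GV
  rw [sum_filter, sum_powerset_insert hpV, sum_filter, mul_add, mul_one]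
  refine add_le_add le_rfl ?_
  rw [sum_mul]
  refine sum_le_sum fun B hB => ?_
  rw [mem_powerset] at hB
  have hpB : p ∉ B := fun h => hpV (hB h)
  have hB' : ∀ q ∈ B, q.Prime := fun q hq => hV q (hB hq)
  have h1 : pr (insert p B) = p * pr B := prod_insert hpB
  have h2 : ph (insert p B) = ((p : ℝ) - 1) * ph B := prod_insert hpB
  have h3 : (2 : ℝ) ≤ p := by exact_mod_cast hp.two_le
  have h4 := gu_ph hB'
  have h5 : (0 : ℝ) < pr B := by exact_mod_cast gu_pr hB'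
  have h6 : 0 < (p : ℝ) - 1 := by linarith
  by_cases hc : (pr (insert p B) : ℝ) ≤ R
  · have h7 : (pr B : ℝ) ≤ R := by
      refine le_trans ?_ hc
      rw [h1]
      push_cast
      nlinarith
    rw [if_pos hc, if_pos h7, h2]
    rw [one_div_mul_one_div_rev]
  · rw [if_neg hc]
    split_ifs
    · positivity
    · rw [zero_mul]

private theorem gu_union {V : Finset ℕ} (hV : ∀ p ∈ V, p.Prime) {y : ℝ} (hy : 1 < y) (R : ℝ)
    (D : Finset ℕ) (hD : ∀ p ∈ D, p.Prime ∧ y < (p : ℝ)) :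
    GV (V ∪ D) R ≤ GV V R * (1 + 1 / (y - 1)) ^ D.card := by
  classical
  have hy1 : 0 < y - 1 := by linarith
  have hc : 1 ≤ 1 + 1 / (y - 1) := by
    have : 0 < 1 / (y - 1) := by positivity
    linarith
  induction D using Finset.induction_on with
  | empty => simp
  | insert p D hpD ih =>
    have ih' := ih fun q hq => hD q (mem_insert_of_mem hq)
    have hp := hD p (mem_insert_self _ _)
    have hVD : ∀ q ∈ V ∪ D, q.Prime := by
      intro q hq
      rcases mem_union.1 hq with h | h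
      · exact hV q h
      · exact (hD q (mem_insert_of_mem h)).1
    rw [card_insert_of_notMem hpD, pow_succ, ← mul_assoc, union_insert]
    have h0 := gu_nonneg hVD R
    by_cases hm : p ∈ V ∪ D
    · rw [insert_eq_of_mem hm]
      calc GV (V ∪ D) R ≤ GV (V ∪ D) R * (1 + 1 / (y - 1)) := le_mul_of_one_le_right h0 hc
        _ ≤ _ := mul_le_mul_of_nonneg_right ih' (by linarith)
    · refine (gu_insert hVD hp.1 hm R).trans ?_
      refine mul_le_mul ih' ?_ ?_ ?_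
      · have : 1 / ((p : ℝ) - 1) ≤ 1 / (y - 1) := one_div_le_one_div_of_le hy1 (by linarith [hp.2])
        linarith
      · have h3 : (2 : ℝ) ≤ p := by exact_mod_cast hp.1.two_le
        have : 0 ≤ 1 / ((p : ℝ) - 1) := one_div_nonneg.2 (by linarith)
        linarith
      · exact mul_nonneg (gu_nonneg hV R) (by positivity)

private theorem gu_vn {y : ℝ} {N : ℕ} : ∀ p ∈ VN y N, p.Prime ∧ y < (p : ℝ) := by
  intro p hp
  exact (mem_filter.1 hp).2

/-- the products of smooth numbers and of products of large primes are different -/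
private theorem gu_prod {y Z R : ℝ} {N : ℕ} (hy : 1 ≤ y) (hZ : 1 ≤ Z) (hR : 1 ≤ R) :
    (∑ B ∈ (VN y N).powerset with (pr B : ℝ) ≤ R, 1 / (pr B : ℝ)) *
      (∑ m ∈ (Icc 1 ⌊Z⌋₊).filter (fun m => ∀ p ∈ m.primeFactors, p ≤ ⌊y⌋₊), (1 : ℝ) / m) ≤
      1 + Real.log (R * Z) := by
  classical
  have hy0 : 0 ≤ y := by linarith
  rw [sum_mul_sum, ← sum_product']
  have hinj : Set.InjOn (fun q : Finset ℕ × ℕ => pr q.1 * q.2)
      (((VN y N).powerset.filter (fun B => (pr B : ℝ) ≤ R)) ×ˢ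
        ((Icc 1 ⌊Z⌋₊).filter (fun m => ∀ p ∈ m.primeFactors, p ≤ ⌊y⌋₊)) :
          Finset (Finset ℕ × ℕ)) := by
    have key : ∀ (B B' : Finset ℕ) (m m' : ℕ), B ⊆ VN y N → B' ⊆ VN y N → 1 ≤ m' →
        (∀ p ∈ m'.primeFactors, p ≤ ⌊y⌋₊) → pr B * m = pr B' * m' → B ⊆ B' := by
      intro B B' m m' hB hB' hm1 hm' he p hp
      have hpp := gu_vn p (hB hp)
      have h1 : p ∣ pr B' * m' := by
        rw [← he]
        exact dvd_mul_of_dvd_left (dvd_prod_of_mem (fun p => p) hp) _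
      rcases (hpp.1.dvd_mul).1 h1 with h2 | h2
      · obtain ⟨q, hq, hpq⟩ := (hpp.1.prime.dvd_finsetProd_iff _).1 h2
        have hqq := gu_vn q (hB' hq)
        rw [(Nat.prime_dvd_prime_iff_eq hpp.1 hqq.1).1 hpq]
        exact hq
      · exfalso
        have h3 := hm' p (Nat.mem_primeFactors.2 ⟨hpp.1, h2, by omega⟩)
        have h4 : (p : ℝ) ≤ y := (Nat.cast_le.2 h3).trans (Nat.floor_le hy0)
        linarith [hpp.2]
    rintro ⟨B, m⟩ h ⟨B', m'⟩ h' he
    rw [mem_coe, mem_product, mem_filter, mem_filter, mem_powerset, mem_Icc] at h h'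
    have h1 := key B B' m m' h.1.1 h'.1.1 h'.2.1.1 h'.2.2 he
    have h2 := key B' B m' m h'.1.1 h.1.1 h.2.1.1 h.2.2 he.symm
    have h3 : B = B' := Subset.antisymm h1 h2
    subst h3
    have h4 : pr B * m = pr B * m' := he
    rw [Nat.eq_of_mul_eq_mul_left (gu_pr fun p hp => (gu_vn p (h.1.1 hp)).1) h4]
  have h1 : ∀ q ∈ (((VN y N).powerset.filter (fun B => (pr B : ℝ) ≤ R)) ×ˢ
      ((Icc 1 ⌊Z⌋₊).filter (fun m => ∀ p ∈ m.primeFactors, p ≤ ⌊y⌋₊))),
      1 / (pr q.1 : ℝ) * (1 / (q.2 : ℝ)) = ((pr q.1 * q.2 : ℕ) : ℝ)⁻¹ := by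
    intro q _
    push_cast
    rw [one_div, one_div, mul_inv]
  rw [sum_congr rfl h1, ← sum_image (f := fun n : ℕ => (n : ℝ)⁻¹) hinj]
  have h2 : 1 ≤ R * Z := one_le_mul_of_one_le_of_one_le hR hZ
  have h3 := harmonic_floor_le_one_add_log (R * Z) h2
  rw [harmonic_eq_sum_Icc] at h3
  push_cast at h3
  refine le_trans ?_ h3
  refine sum_le_sum_of_subset_of_nonneg ?_ fun n _ _ => by positivity
  intro n hn
  obtain ⟨⟨B, m⟩, hq, rfl⟩ := mem_image.1 hn
  rw [mem_product, mem_filter, mem_filter, mem_powerset, mem_Icc] at hq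
  have h4 : 0 < pr B := gu_pr fun p hp => (gu_vn p (hq.1.1 hp)).1
  have h5 : (m : ℝ) ≤ Z := (Nat.cast_le.2 hq.2.1.2).trans (Nat.floor_le (by linarith))
  rw [mem_Icc]
  refine ⟨Nat.mul_pos h4 (by have := hq.2.1.1; omega), Nat.le_floor ?_⟩
  push_cast
  exact mul_le_mul hq.1.2 h5 (Nat.cast_nonneg _) (by linarith)

private theorem gu_card {y R : ℝ} {N : ℕ} (hy : 1 < y) (hN : R ≤ N)
    {B : Finset ℕ} (hB : B ⊆ VN y N) (hR : (pr B : ℝ) ≤ R) :
    (B.card : ℝ) * Real.log y ≤ Real.log N := by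
  have h1 : y ^ B.card ≤ (pr B : ℝ) := by
    unfold pr
    push_cast
    rw [← prod_const]
    exact prod_le_prod (fun _ _ => by linarith) fun p hp => (gu_vn p (hB hp)).2.le
  have h2 := Real.log_le_log (pow_pos (by linarith) _) (h1.trans (hR.trans hN))
  rwa [Real.log_pow] at h2

private theorem gu_ph_le {y : ℝ} (hy : 1 < y) {B : Finset ℕ}
    (hB : ∀ p ∈ B, p.Prime ∧ y < (p : ℝ)) :
    1 / ph B ≤ 1 / (pr B : ℝ) * Real.exp (B.card / (y - 1)) := by
  have hy1 : 0 < y - 1 := by linarith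
  have e : 1 / ph B = 1 / (pr B : ℝ) * ∏ p ∈ B, (1 + 1 / ((p : ℝ) - 1)) := by
    unfold ph pr
    push_cast
    rw [one_div, one_div, ← prod_inv_distrib, ← prod_inv_distrib, ← prod_mul_distrib]
    refine prod_congr rfl fun p hp => ?_
    have h3 : (2 : ℝ) ≤ p := by exact_mod_cast (hB p hp).1.two_le
    have h4 : (p : ℝ) - 1 ≠ 0 := by linarith
    have h5 : (p : ℝ) ≠ 0 := by linarith
    field_simp
    ring
  rw [e]
  refine mul_le_mul_of_nonneg_left ?_ (by positivity)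
  have h1 : (B.card : ℝ) / (y - 1) = ∑ _p ∈ B, 1 / (y - 1) := by
    rw [sum_const, nsmul_eq_mul, mul_one_div]
  rw [h1, Real.exp_sum]
  refine prod_le_prod (fun p hp => ?_) fun p hp => ?_
  · have h3 : (2 : ℝ) ≤ p := by exact_mod_cast (hB p hp).1.two_le
    have : 0 ≤ 1 / ((p : ℝ) - 1) := one_div_nonneg.2 (by linarith)
    linarith
  · have h3 : 1 / ((p : ℝ) - 1) ≤ 1 / (y - 1) :=
      one_div_le_one_div_of_le hy1 (by linarith [(hB p hp).2])
    have h4 := Real.add_one_le_exp (1 / (y - 1))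
    linarith

private theorem gu_tend {ε : ℝ} (hε : 0 < ε) :
    Filter.Tendsto (fun N : ℕ => ε * Real.log N) Filter.atTop Filter.atTop :=
  (Real.tendsto_log_atTop.comp tendsto_natCast_atTop_atTop).const_mul_atTop hε

theorem Gam_ge (ε : ℝ) (hε : 0 < ε) : ∃ N₀ : ℕ, ∀ N : ℕ, N₀ ≤ N → 1 / ε ≤ Gam ε N := by
  obtain ⟨N₀, hN₀⟩ := Filter.eventually_atTop.1 ((gu_tend hε).eventually_ge_atTop 1)
  refine ⟨N₀, fun N hN => ?_⟩
  have h1 := hN₀ N hN
  have h2 := gu_mp_ge h1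
  unfold Gam
  have hL : 0 < Real.log N := by
    by_contra hc
    nlinarith
  calc 1 / ε = 1 / (ε * Real.log N) * Real.log N := by field_simp
    _ ≤ _ := mul_le_mul_of_nonneg_right h2 hL.le

theorem Gam_le {ε : ℝ} {N : ℕ} (hN : 1 ≤ N) : Gam ε N ≤ Real.log N := by
  unfold Gam
  have h1 : 0 ≤ Real.log N := Real.log_nonneg (by exact_mod_cast hN)
  calc MP (ε * Real.log N) * Real.log N ≤ 1 * Real.log N :=
        mul_le_mul_of_nonneg_right (gu_mp_le _) h1
    _ = Real.log N := one_mul _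

theorem g_upper (ε η : ℝ) (hε : 0 < ε) (hη : 0 < η) : ∃ N₀ : ℕ, ∀ N : ℕ, N₀ ≤ N → ∀ R : ℝ, 1 ≤ R → R ≤ N →
    GV (VN (ε * Real.log N) N) R ≤ MP (ε * Real.log N) * (Real.log R + η * Real.log N) := by
  obtain ⟨C, hC, hS⟩ := smooth_tail
  obtain ⟨κ, hκ0, hκ1, hκη⟩ : ∃ κ : ℝ, 0 < κ ∧ κ ≤ 1 / 4 ∧ 8 * κ ≤ η :=
    ⟨min (1 / 4) (η / 8), lt_min (by norm_num) (by linarith), min_le_left _ _, by
      have := min_le_right (1 / 4 : ℝ) (η / 8)
      linarith⟩
  have hlog := Real.tendsto_log_atTop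
  -- conditions on `t = y`
  have c1 : ∀ᶠ t : ℝ in Filter.atTop, 3 ≤ t := Filter.eventually_ge_atTop 3
  have c2 : ∀ᶠ t : ℝ in Filter.atTop, Real.exp (2 / (ε * Real.log t)) ≤ 1 + κ := by
    have h1 : Filter.Tendsto (fun t : ℝ => 2 / (ε * Real.log t)) Filter.atTop (nhds 0) :=
      (hlog.const_mul_atTop hε).const_div_atTop 2
    have h2 := (Real.continuous_exp.tendsto 0).comp h1
    rw [Real.exp_zero] at h2
    exact (h2.eventually_lt_const (by linarith : (1 : ℝ) < 1 + κ)).mono fun t ht => ht.le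
  have c3 : ∀ᶠ t : ℝ in Filter.atTop, (Real.log t + C) / Real.log t ^ 2 ≤ κ := by
    have h1 : ∀ᶠ u : ℝ in Filter.atTop, (u + C) / u ^ 2 ≤ κ := by
      filter_upwards [Filter.eventually_ge_atTop (2 / κ), Filter.eventually_ge_atTop C,
        Filter.eventually_gt_atTop 0] with u hu1 hu2 hu3
      rw [div_le_iff₀ (by positivity)]
      rw [div_le_iff₀ hκ0] at hu1
      nlinarith
    exact hlog.eventually h1
  have c4 : ∀ᶠ t : ℝ in Filter.atTop,
      (1 + Real.log t ^ 2) * (1 + η / 2) ≤ η / 2 * (t / ε) := by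
    have h1 : ∀ᶠ t : ℝ in Filter.atTop, ‖Real.log t ^ 2‖ ≤
        (η / (4 * ε * (1 + η / 2))) * ‖t‖ :=
      (Real.isLittleO_pow_log_id_atTop (n := 2)).bound (by positivity)
    filter_upwards [h1, Filter.eventually_ge_atTop (4 * ε * (1 + η / 2) / η),
      Filter.eventually_gt_atTop 0] with t ht1 ht2 ht3
    rw [Real.norm_of_nonneg (by positivity), Real.norm_of_nonneg ht3.le] at ht1
    rw [div_le_iff₀ hη] at ht2
    have e1 : (η / (4 * ε * (1 + η / 2)) * t) * (1 + η / 2) = η * t / (4 * ε) := by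
      field_simp
    have e2 : 1 * (1 + η / 2) ≤ η * t / (4 * ε) := by
      rw [le_div_iff₀ (by positivity)]
      linarith
    have e3 : Real.log t ^ 2 * (1 + η / 2) ≤ η * t / (4 * ε) := by
      rw [← e1]
      exact mul_le_mul_of_nonneg_right ht1 (by positivity)
    have e4 : η / 2 * (t / ε) = η * t / (4 * ε) + η * t / (4 * ε) := by
      field_simp
      ring
    rw [e4, add_mul]
    linarith
  obtain ⟨N₀, hN₀⟩ := Filter.eventually_atTop.1
    ((gu_tend hε).eventually (c1.and (c2.and (c3.and c4))))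
  refine ⟨N₀, fun N hN R hR1 hRN => ?_⟩
  obtain ⟨d1, d2, d3, d4⟩ := hN₀ N hN
  obtain ⟨y, hy⟩ : ∃ y, y = ε * Real.log N := ⟨_, rfl⟩
  rw [← hy] at d1 d2 d3 d4 ⊢
  have hL : Real.log N = y / ε := by
    rw [hy]
    field_simp
  have hly : 1 ≤ Real.log y := by
    rw [Real.le_log_iff_exp_le (by linarith)]
    have := Real.exp_one_lt_d9
    linarith
  have hlogR0 : 0 ≤ Real.log R := Real.log_nonneg hR1
  have hlogRN : Real.log R ≤ Real.log N := Real.log_le_log (by linarith) hRN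
  obtain ⟨Z, hZ⟩ : ∃ Z, Z = Real.exp (Real.log y ^ 2) := ⟨_, rfl⟩
  have hlZ : Real.log Z = Real.log y ^ 2 := by rw [hZ, Real.log_exp]
  have hZ1 : 1 < Z := by
    rw [hZ]
    exact Real.one_lt_exp_iff.2 (by positivity)
  have hS' := hS y Z (by linarith) hZ1
  rw [hlZ] at hS'
  have hP := gu_prod (y := y) (Z := Z) (R := R) (N := N) (by linarith) hZ1.le hR1
  rw [Real.log_mul (by linarith) (by linarith), hlZ] at hP
  obtain ⟨S, hSd⟩ : ∃ S, S = ∑ m ∈ (Icc 1 ⌊Z⌋₊).filter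
    (fun m => ∀ p ∈ m.primeFactors, p ≤ ⌊y⌋₊), (1 : ℝ) / m := ⟨_, rfl⟩
  obtain ⟨G, hG⟩ : ∃ G, G = ∑ B ∈ (VN y N).powerset with (pr B : ℝ) ≤ R,
    1 / (pr B : ℝ) := ⟨_, rfl⟩
  rw [← hSd] at hS' hP
  rw [← hG] at hP
  have hS0 : 0 ≤ S := by
    rw [hSd]
    exact sum_nonneg fun m _ => by positivity
  have hM := MP_pos y
  have hVP : ∀ p ∈ VN y N, p.Prime := fun p hp => (gu_vn p hp).1
  have hGV0 := gu_nonneg hVP R
  have hGV : GV (VN y N) R ≤ (1 + κ) * G := by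
    rw [hG, mul_sum]
    refine sum_le_sum fun B hB => ?_
    rw [mem_filter, mem_powerset] at hB
    have h1 := gu_ph_le (by linarith : 1 < y) (B := B) (fun p hp => gu_vn p (hB.1 hp))
    have h2 := gu_card (by linarith : 1 < y) hRN hB.1 hB.2
    have h3 : (B.card : ℝ) / (y - 1) ≤ 2 / (ε * Real.log y) := by
      rw [div_le_div_iff₀ (by linarith) (by positivity)]
      rw [hL] at h2
      have h4 : (B.card : ℝ) * (ε * Real.log y) ≤ y := by
        rw [le_div_iff₀ hε] at h2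
        linarith
      linarith
    have h4 := (Real.exp_le_exp.2 h3).trans d2
    have h5 : (0 : ℝ) ≤ 1 / (pr B : ℝ) := by positivity
    calc 1 / ph B ≤ 1 / (pr B : ℝ) * Real.exp (B.card / (y - 1)) := h1
      _ ≤ 1 / (pr B : ℝ) * (1 + κ) := mul_le_mul_of_nonneg_left h4 h5
      _ = (1 + κ) * (1 / (pr B : ℝ)) := mul_comm _ _
  -- combine
  have hH0 : 0 ≤ 1 + (Real.log R + Real.log y ^ 2) := by positivity
  have k1 : GV (VN y N) R * (1 - κ) ≤
      MP y * ((1 + κ) * (1 + (Real.log R + Real.log y ^ 2))) := by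
    have a1 : 1 - κ ≤ MP y * S := by linarith
    calc GV (VN y N) R * (1 - κ) ≤ GV (VN y N) R * (MP y * S) :=
          mul_le_mul_of_nonneg_left a1 hGV0
      _ ≤ ((1 + κ) * G) * (MP y * S) := mul_le_mul_of_nonneg_right hGV (by positivity)
      _ = MP y * ((1 + κ) * (G * S)) := by ring
      _ ≤ MP y * ((1 + κ) * (1 + (Real.log R + Real.log y ^ 2))) := by
          refine mul_le_mul_of_nonneg_left ?_ hM.le
          exact mul_le_mul_of_nonneg_left hP (by linarith)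
  have k2 : 1 + κ ≤ (1 + η / 2) * (1 - κ) := by nlinarith
  have k3 : GV (VN y N) R ≤ MP y * ((1 + η / 2) * (1 + (Real.log R + Real.log y ^ 2))) := by
    have a2 : MP y * ((1 + κ) * (1 + (Real.log R + Real.log y ^ 2))) ≤
        MP y * (((1 + η / 2) * (1 - κ)) * (1 + (Real.log R + Real.log y ^ 2))) :=
      mul_le_mul_of_nonneg_left (mul_le_mul_of_nonneg_right k2 hH0) hM.le
    have a3 : GV (VN y N) R * (1 - κ) ≤
        (MP y * ((1 + η / 2) * (1 + (Real.log R + Real.log y ^ 2)))) * (1 - κ) := by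
      refine (k1.trans a2).trans (le_of_eq ?_)
      ring
    exact le_of_mul_le_mul_right a3 (by linarith)
  refine k3.trans (mul_le_mul_of_nonneg_left ?_ hM.le)
  have k4 : η / 2 * Real.log R ≤ η / 2 * Real.log N :=
    mul_le_mul_of_nonneg_left hlogRN (by linarith)
  rw [← hL] at d4
  nlinarith

theorem g_asym (ε η τ : ℝ) (m : ℕ) (hε : 0 < ε) (hη : 0 < η) (hτ : 0 < τ) (hτ1 : τ ≤ 1) :
    ∃ N₀ : ℕ, ∀ N : ℕ, N₀ ≤ N → ∀ V : Finset ℕ, V ⊆ VN (ε * Real.log N) N →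
      ((VN (ε * Real.log N) N) \ V).card ≤ m →
        |GV V ((N : ℝ) ^ τ) - τ * Gam ε N| ≤ η * Gam ε N := by
  obtain ⟨N₁, hN₁⟩ := g_upper ε η hε hη
  have h1 : Filter.Tendsto (fun t : ℝ => (1 + 1 / (t - 1)) ^ m) Filter.atTop (nhds 1) := by
    have a1 : Filter.Tendsto (fun t : ℝ => 1 / (t - 1)) Filter.atTop (nhds 0) := by
      have a2 : Filter.Tendsto (fun t : ℝ => t - 1) Filter.atTop Filter.atTop :=
        Filter.tendsto_atTop_add_const_right _ (-1) Filter.tendsto_id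
      exact a2.const_div_atTop 1
    have a3 := (a1.const_add 1).pow m
    simpa using a3
  have h2 : ∀ᶠ t : ℝ in Filter.atTop, (1 + 1 / (t - 1)) ^ m ≤ 1 + η :=
    (h1.eventually_lt_const (by linarith : (1 : ℝ) < 1 + η)).mono fun t ht => ht.le
  obtain ⟨N₂, hN₂⟩ := Filter.eventually_atTop.1
    ((gu_tend hε).eventually ((Filter.eventually_ge_atTop 2).and h2))
  refine ⟨max (max N₁ N₂) 1, fun N hN V hV hm => ?_⟩
  have hN1 : N₁ ≤ N := (le_max_left _ _).trans ((le_max_left _ _).trans hN)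
  have hN2 : N₂ ≤ N := (le_max_right _ _).trans ((le_max_left _ _).trans hN)
  have hN3 : 1 ≤ N := (le_max_right _ _).trans hN
  obtain ⟨d1, d2⟩ := hN₂ N hN2
  have hNr : (1 : ℝ) ≤ N := by exact_mod_cast hN3
  have hR1 : 1 ≤ (N : ℝ) ^ τ := Real.one_le_rpow hNr hτ.le
  have hRN : (N : ℝ) ^ τ ≤ N := by
    have := Real.rpow_le_rpow_of_exponent_le hNr hτ1
    rwa [Real.rpow_one] at this
  have hlog : Real.log ((N : ℝ) ^ τ) = τ * Real.log N := Real.log_rpow (by linarith) τ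
  have hL0 : 0 ≤ Real.log N := Real.log_nonneg hNr
  have hMP := MP_pos (ε * Real.log N)
  have hG0 : 0 ≤ Gam ε N := mul_nonneg hMP.le hL0
  have hVP : ∀ p ∈ VN (ε * Real.log N) N, p.Prime := fun p hp => (gu_vn p hp).1
  have hVP' : ∀ p ∈ V, p.Prime := fun p hp => hVP p (hV hp)
  have u1 := gu_mono hVP hV ((N : ℝ) ^ τ)
  have u2 := hN₁ N hN1 ((N : ℝ) ^ τ) hR1 hRN
  rw [hlog] at u2
  have u3 : MP (ε * Real.log N) * (τ * Real.log N + η * Real.log N) = (τ + η) * Gam ε N := by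
    unfold Gam
    ring
  have l1 := g_lower (y := ε * Real.log N) (by linarith) hR1 hRN
  rw [hlog] at l1
  have l2 : MP (ε * Real.log N) * (τ * Real.log N) = τ * Gam ε N := by
    unfold Gam
    ring
  have l3 := gu_union hVP' (by linarith : 1 < ε * Real.log N) ((N : ℝ) ^ τ)
    ((VN (ε * Real.log N) N) \ V) (fun p hp => gu_vn p (mem_sdiff.1 hp).1)
  rw [union_sdiff_of_subset hV] at l3
  have hc1 : 1 ≤ 1 + 1 / (ε * Real.log N - 1) := by
    have : 0 < 1 / (ε * Real.log N - 1) := one_div_pos.2 (by linarith)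
    linarith
  have l4 : (1 + 1 / (ε * Real.log N - 1)) ^ ((VN (ε * Real.log N) N) \ V).card ≤ 1 + η :=
    (pow_le_pow_right₀ hc1 hm).trans d2
  have hV0 := gu_nonneg hVP' ((N : ℝ) ^ τ)
  have l5 : τ * Gam ε N ≤ GV V ((N : ℝ) ^ τ) * (1 + η) := by
    rw [← l2]
    exact l1.trans (l3.trans (mul_le_mul_of_nonneg_left l4 hV0))
  rw [abs_le]
  constructor
  · have l6 : GV V ((N : ℝ) ^ τ) ≥ τ * Gam ε N - η * Gam ε N := by
      by_contra hcon
      push Not at hcon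
      have hη1 : 0 < 1 + η := by linarith
      have l7 := mul_lt_mul_of_pos_right hcon hη1
      have l8 : (τ * Gam ε N - η * Gam ε N) * (1 + η) ≤ τ * Gam ε N := by
        have a1 : 0 ≤ η * Gam ε N := by positivity
        nlinarith [mul_nonneg a1 (by linarith : 0 ≤ 1 - τ), mul_nonneg a1 hη.le]
      linarith
    linarith
  · linarith

end PGL
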