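import Pool.Agent.PGL.Defs

/-! PGL / LM: bounds for the coefficients.

PROOFS. `lam_supp`: if `A ⊆ B` and `B ⊆ V` then `pr A ≤ pr B`, so `y B = 0`; if `¬ A ⊆ V` the sum is empty.
`lam_le`: `|∑_{B ⊇ A} y_B / ph B| ≤ c ∑_{A ⊆ B ⊆ V, pr B ≤ R} 1 / ph B = (c / ph A) ∑_{B' ⊆ V \ A, pr B' pr A ≤ R} 1 / ph B'
≤ (c / ph A) G_V(R)` (`pr A ≥ 1`) and `pr A / ph A = ∏ p / (p - 1) ≤ 2^|A|`.
`rho_supp`: a nonzero term has `A, A' ⊆ V`, `pr A ≤ R`, `pr A' ≤ R'`, `pr (A ∪ A') ≤ pr A pr A'` (all elements are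
`≥ 1`). `rho_le`: there are `3^|D|` pairs with `A ∪ A' = D` (or bound the number of pairs of subsets by `4^|D|`
restricted suitably: count exactly by `∑_{A ⊆ D} 2^|A| = 3^|D|`), `2^(|A| + |A'|) ≤ 4^|D|`. -/

set_option autoImplicit false

open Finset

noncomputable section

namespace PGL

private theorem pr_pos {V : Finset ℕ} (hV : Big V 1) {B : Finset ℕ} (hB : B ⊆ V) : 0 < pr B :=
  Finset.prod_pos fun p hp => (hV p (hB hp)).1.pos

private theorem two_le {V : Finset ℕ} (hV : Big V 1) {p : ℕ} (hp : p ∈ V) : (2 : ℝ) ≤ (p : ℝ) := by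
  exact_mod_cast (hV p hp).1.two_le

private theorem ph_pos {V : Finset ℕ} (hV : Big V 1) {B : Finset ℕ} (hB : B ⊆ V) : 0 < ph B :=
  Finset.prod_pos fun p hp => by
    have h := two_le hV (hB hp)
    linarith

private theorem pr_mono {V : Finset ℕ} (hV : Big V 1) {A B : Finset ℕ} (hB : B ⊆ V) (h : A ⊆ B) :
    pr A ≤ pr B :=
  Nat.le_of_dvd (pr_pos hV hB) (Finset.prod_dvd_prod_of_subset _ _ _ h)

private theorem GV_nonneg {V : Finset ℕ} (hV : Big V 1) (R : ℝ) : 0 ≤ GV V R :=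
  Finset.sum_nonneg fun B hB => by
    rw [mem_filter, mem_powerset] at hB
    exact (one_div_pos.2 (ph_pos hV hB.1)).le

theorem lam_supp (V : Finset ℕ) (hV : Big V 1) {y : Finset ℕ → ℝ} {c R : ℝ} (hy : Bd y c R) {A : Finset ℕ}
    (h : lam V y A ≠ 0) : A ⊆ V ∧ (pr A : ℝ) ≤ R := by
  unfold lam at h
  obtain ⟨B, hB, hB0⟩ := Finset.exists_ne_zero_of_sum_ne_zero (right_ne_zero_of_mul h)
  rw [mem_filter, mem_powerset] at hB
  refine ⟨hB.2.trans hB.1, ?_⟩
  have h1 : (pr B : ℝ) ≤ R := by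
    by_contra hc
    exact hB0 (by rw [(hy B).2 (not_le.1 hc), zero_div])
  have h2 : (pr A : ℝ) ≤ (pr B : ℝ) := by exact_mod_cast pr_mono hV hB.1 hB.2
  exact h2.trans h1

private theorem pr_le_ph {V : Finset ℕ} (hV : Big V 1) {A : Finset ℕ} (hA : A ⊆ V) :
    (pr A : ℝ) ≤ 2 ^ A.card * ph A := by
  unfold pr ph
  rw [Nat.cast_prod, ← Finset.prod_const, ← Finset.prod_mul_distrib]
  refine Finset.prod_le_prod (fun p _ => Nat.cast_nonneg p) fun p hp => ?_
  have h := two_le hV (hA hp)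
  linarith

/-- the sum over the sets containing `A` -/
private theorem sum_above {V : Finset ℕ} (hV : Big V 1) {A : Finset ℕ} (hA : A ⊆ V) (R : ℝ) :
    ∑ B ∈ V.powerset with (A ⊆ B ∧ (pr B : ℝ) ≤ R), 1 / ph B ≤ 1 / ph A * GV V R := by
  have h1 : ∀ B ∈ V.powerset.filter (fun B => A ⊆ B ∧ (pr B : ℝ) ≤ R),
      1 / ph B = 1 / ph A * (1 / ph (B \ A)) := by
    intro B hB
    rw [mem_filter, mem_powerset] at hB
    have h2 : ph (B \ A) * ph A = ph B := Finset.prod_sdiff hB.2.1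
    rw [← h2, one_div_mul_one_div, mul_comm]
  rw [Finset.sum_congr rfl h1, ← Finset.mul_sum]
  refine mul_le_mul_of_nonneg_left ?_ (one_div_pos.2 (ph_pos hV hA)).le
  have hinj : Set.InjOn (fun B : Finset ℕ => B \ A)
      (V.powerset.filter (fun B => A ⊆ B ∧ (pr B : ℝ) ≤ R) : Set (Finset ℕ)) := by
    intro B hB C hC h
    rw [mem_coe, mem_filter] at hB hC
    have h3 : B \ A = C \ A := h
    rw [← Finset.sdiff_union_of_subset hB.2.1, ← Finset.sdiff_union_of_subset hC.2.1, h3]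
  rw [← Finset.sum_image (f := fun B => 1 / ph B) hinj]
  unfold GV
  refine Finset.sum_le_sum_of_subset_of_nonneg ?_ ?_
  · intro B' hB'
    rw [mem_image] at hB'
    obtain ⟨B, hB, rfl⟩ := hB'
    rw [mem_filter, mem_powerset] at hB
    rw [mem_filter, mem_powerset]
    refine ⟨Finset.sdiff_subset.trans hB.1, ?_⟩
    have h4 : (pr (B \ A) : ℝ) ≤ (pr B : ℝ) := by
      exact_mod_cast pr_mono hV hB.1 Finset.sdiff_subset
    exact h4.trans hB.2.2
  · intro B hB _
    rw [mem_filter, mem_powerset] at hB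
    exact (one_div_pos.2 (ph_pos hV hB.1)).le

theorem lam_le (V : Finset ℕ) (hV : Big V 1) {y : Finset ℕ → ℝ} {c R : ℝ} (hc : 0 ≤ c) (hy : Bd y c R)
    (A : Finset ℕ) : |lam V y A| ≤ c * 2 ^ A.card * GV V R := by
  have hG := GV_nonneg hV R
  by_cases hA : A ⊆ V
  · have h1 : |∑ B ∈ V.powerset with A ⊆ B, y B / ph B| ≤ c * (1 / ph A * GV V R) := by
      calc |∑ B ∈ V.powerset with A ⊆ B, y B / ph B|
          ≤ ∑ B ∈ V.powerset with A ⊆ B, |y B / ph B| := Finset.abs_sum_le_sum_abs _ _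
        _ ≤ ∑ B ∈ V.powerset with A ⊆ B, if (pr B : ℝ) ≤ R then c * (1 / ph B) else 0 := by
            refine Finset.sum_le_sum fun B hB => ?_
            rw [mem_filter, mem_powerset] at hB
            have hp := ph_pos hV hB.1
            split_ifs with h2
            · rw [abs_div, abs_of_pos hp, mul_one_div]
              exact div_le_div_of_nonneg_right (hy B).1 hp.le
            · rw [(hy B).2 (not_le.1 h2), zero_div, abs_zero]
        _ = c * ∑ B ∈ V.powerset with (A ⊆ B ∧ (pr B : ℝ) ≤ R), 1 / ph B := by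
            rw [← Finset.sum_filter, Finset.filter_filter, Finset.mul_sum]
        _ ≤ c * (1 / ph A * GV V R) := mul_le_mul_of_nonneg_left (sum_above hV hA R) hc
    have hp := ph_pos hV hA
    have h3 : |lam V y A| = (pr A : ℝ) * |∑ B ∈ V.powerset with A ⊆ B, y B / ph B| := by
      unfold lam
      rw [abs_mul, abs_mul, abs_pow, abs_neg, abs_one, one_pow, one_mul, Nat.abs_cast]
    rw [h3]
    calc (pr A : ℝ) * |∑ B ∈ V.powerset with A ⊆ B, y B / ph B|
        ≤ (2 ^ A.card * ph A) * (c * (1 / ph A * GV V R)) :=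
          mul_le_mul (pr_le_ph hV hA) h1 (abs_nonneg _) (by positivity)
      _ = c * 2 ^ A.card * GV V R := by
          field_simp
  · have h1 : lam V y A = 0 := by
      by_contra h
      exact hA (lam_supp V hV hy h).1
    rw [h1, abs_zero]
    positivity

theorem rho_supp (V : Finset ℕ) (hV : Big V 1) {y y' : Finset ℕ → ℝ} {c c' R R' : ℝ} (hy : Bd y c R)
    (hy' : Bd y' c' R') (hR : 0 ≤ R) (hR' : 0 ≤ R') {D : Finset ℕ} (h : rho V y y' D ≠ 0) :
    D ⊆ V ∧ (pr D : ℝ) ≤ R * R' := by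
  unfold rho at h
  obtain ⟨q, hq, hq0⟩ := Finset.exists_ne_zero_of_sum_ne_zero h
  rw [mem_filter] at hq
  obtain ⟨h1, h2⟩ := lam_supp V hV hy (left_ne_zero_of_mul hq0)
  obtain ⟨h3, h4⟩ := lam_supp V hV hy' (right_ne_zero_of_mul hq0)
  have hD := hq.2
  subst hD
  refine ⟨Finset.union_subset h1 h3, ?_⟩
  have h5 : pr (q.1 ∪ q.2) * pr (q.1 ∩ q.2) = pr q.1 * pr q.2 := Finset.prod_union_inter
  have h6 : 0 < pr (q.1 ∩ q.2) := pr_pos hV (Finset.inter_subset_left.trans h1)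
  have h7 : pr (q.1 ∪ q.2) ≤ pr q.1 * pr q.2 := by
    rw [← h5]
    exact Nat.le_mul_of_pos_right _ h6
  calc (pr (q.1 ∪ q.2) : ℝ) ≤ ((pr q.1 * pr q.2 : ℕ) : ℝ) := by exact_mod_cast h7
    _ = (pr q.1 : ℝ) * (pr q.2 : ℝ) := Nat.cast_mul _ _
    _ ≤ R * R' := mul_le_mul h2 h4 (Nat.cast_nonneg _) hR

/-- the number of pairs with given union -/
private theorem card_pairs (V D : Finset ℕ) :
    ((V.powerset ×ˢ V.powerset).filter fun q : Finset ℕ × Finset ℕ => q.1 ∪ q.2 = D).card ≤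
      3 ^ D.card := by
  have h1 : (D.powerset.sigma fun A => A.powerset).card = 3 ^ D.card := by
    rw [Finset.card_sigma]
    have h2 := Finset.sum_pow_mul_eq_add_pow 2 1 D
    simp only [one_pow, mul_one] at h2
    rw [show (3 : ℕ) = 2 + 1 from rfl, ← h2]
    exact Finset.sum_congr rfl fun A _ => Finset.card_powerset A
  rw [← h1]
  refine Finset.card_le_card_of_injOn (fun q => ⟨q.1, q.2 ∩ q.1⟩) ?_ ?_
  · intro q hq
    rw [mem_coe, mem_filter] at hq
    rw [mem_coe, mem_sigma, mem_powerset, mem_powerset]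
    exact ⟨by rw [← hq.2]; exact Finset.subset_union_left, Finset.inter_subset_right⟩
  · intro q hq r hr h
    rw [mem_coe, mem_filter] at hq hr
    have hq2 := hq.2
    have hr2 := hr.2
    obtain ⟨A, B⟩ := q
    obtain ⟨A', B'⟩ := r
    have h3 : A = A' ∧ B ∩ A = B' ∩ A' := by
      have h4 := Sigma.mk.inj_iff.1 h
      exact ⟨h4.1, eq_of_heq h4.2⟩
    obtain ⟨rfl, h5⟩ := h3
    simp only at hq2 hr2
    have h6 : B = B' := by
      ext x
      by_cases hx : x ∈ A
      · have h7 := congrArg (fun S : Finset ℕ => x ∈ S) h5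
        simpa [hx] using h7
      · have h8 : x ∈ B ↔ x ∈ D := by
          rw [← hq2, mem_union]
          exact ⟨Or.inr, fun h9 => h9.resolve_left hx⟩
        have h10 : x ∈ B' ↔ x ∈ D := by
          rw [← hr2, mem_union]
          exact ⟨Or.inr, fun h9 => h9.resolve_left hx⟩
        rw [h8, h10]
    rw [h6]

theorem rho_le (V : Finset ℕ) (hV : Big V 1) {y y' : Finset ℕ → ℝ} {c c' R R' : ℝ} (hc : 0 ≤ c) (hc' : 0 ≤ c')
    (hy : Bd y c R) (hy' : Bd y' c' R') (D : Finset ℕ) :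
    |rho V y y' D| ≤ c * c' * 12 ^ D.card * (GV V R * GV V R') := by
  have hG := GV_nonneg hV R
  have hG' := GV_nonneg hV R'
  have h0 : 0 ≤ c * c' * 4 ^ D.card * (GV V R * GV V R') := by positivity
  unfold rho
  refine (Finset.abs_sum_le_sum_abs _ _).trans ?_
  have h1 : ∀ q ∈ (V.powerset ×ˢ V.powerset).filter fun q : Finset ℕ × Finset ℕ => q.1 ∪ q.2 = D,
      |lam V y q.1 * lam V y' q.2| ≤ c * c' * 4 ^ D.card * (GV V R * GV V R') := by
    intro q hq
    rw [mem_filter] at hq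
    have e1 : q.1.card ≤ D.card := Finset.card_le_card (by rw [← hq.2]; exact Finset.subset_union_left)
    have e2 : q.2.card ≤ D.card :=
      Finset.card_le_card (by rw [← hq.2]; exact Finset.subset_union_right)
    have e3 : (2 : ℝ) ^ q.1.card ≤ 2 ^ D.card := pow_le_pow_right₀ one_le_two e1
    have e4 : (2 : ℝ) ^ q.2.card ≤ 2 ^ D.card := pow_le_pow_right₀ one_le_two e2
    have f1 : |lam V y q.1| ≤ c * 2 ^ D.card * GV V R :=
      (lam_le V hV hc hy q.1).trans
        (mul_le_mul_of_nonneg_right (mul_le_mul_of_nonneg_left e3 hc) hG)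
    have f2 : |lam V y' q.2| ≤ c' * 2 ^ D.card * GV V R' :=
      (lam_le V hV hc' hy' q.2).trans
        (mul_le_mul_of_nonneg_right (mul_le_mul_of_nonneg_left e4 hc') hG')
    rw [abs_mul]
    calc |lam V y q.1| * |lam V y' q.2|
        ≤ (c * 2 ^ D.card * GV V R) * (c' * 2 ^ D.card * GV V R') :=
          mul_le_mul f1 f2 (abs_nonneg _) (by positivity)
      _ = c * c' * 4 ^ D.card * (GV V R * GV V R') := by
          have e5 : (4 : ℝ) ^ D.card = 2 ^ D.card * 2 ^ D.card := by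
            rw [← mul_pow]
            norm_num
          rw [e5]
          ring
  refine (Finset.sum_le_card_nsmul _ _ _ h1).trans ?_
  rw [nsmul_eq_mul]
  have h2 : (((V.powerset ×ˢ V.powerset).filter
      fun q : Finset ℕ × Finset ℕ => q.1 ∪ q.2 = D).card : ℝ) ≤ 3 ^ D.card := by
    exact_mod_cast card_pairs V D
  refine (mul_le_mul_of_nonneg_right h2 h0).trans (le_of_eq ?_)
  have e6 : (12 : ℝ) ^ D.card = 3 ^ D.card * 4 ^ D.card := by
    rw [← mul_pow]
    norm_num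
  rw [e6]
  ring

end PGL
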