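import Pool.Agent.PGL.PD
import Pool.Agent.PGL.AB

/-! PGL / MT: the main term of the sums over pairwise disjoint tuples.

PROOF. Let `P = ∏_{p ∈ V} (1 + 24 / p²)`, `P' = ∏_{p ∈ V} (1 + 4^k 256 / p²)`. The primes of `V` are `> z ≥ C`, so
`∑_{p ∈ V} 1 / p² ≤ ∑_{n > z} 1 / n² ≤ 2 / z` and `P ^ k - 1`, `P' - 1`, `P ^ k P' - 1 ≤ C' / z` (use
`1 + x ≤ exp x`, `exp x - 1 ≤ 2 x` for `0 ≤ x ≤ 1`; `C` large). We have `α p ≤ (1 + 2 / p) / p ≤ 2 / p`,
`x p := 8 α p ≤ 16 / p ≤ 1` for `p ∈ V` (take `x p = 0` outside `V`, or `x p = 8 |α p|`). Apply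
`pairwise_disjoint` with `φ_i D = ρ_i(D) α(D)`, `Γ_i = G_V(R_i) P`, `x`; the hypothesis is `a_bound` (`c = c' = 1`):
`|TT - ∏_i ∑_D ρ_i(D) α(D)| ≤ ∏ G_V(R_i) P^k (P' - 1)`. By `rho_ex` and `near_orth`
`|∑_D ρ_i(D) α(D) - dia_i| ≤ G_V(R_i) (P - 1)`, and `|dia_i| ≤ G_V(R_i)` (`|y|, |y'| ≤ 1`, support of `y`), so
`|∏ ∑ - ∏ dia| ≤ ∏ G_V(R_i) (P^k - 1)` (`|∏ (d_i + e_i) - ∏ d_i| ≤ ∏ (|d_i| + |e_i|) - ∏ |d_i|`, the difference
`∏ (g_i + g_i t) - ∏ g_i`; prove by induction on the finite set: `|∏ a_i - ∏ b_i| ≤ ∏ g_i (P^k - 1)` if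
`|b_i| ≤ g_i`, `|a_i - b_i| ≤ g_i (P - 1)`). -/

set_option autoImplicit false

open Finset

noncomputable section

namespace PGL

/-- a product of perturbed factors -/
theorem prod_pert {ι : Type*} (s : Finset ι) (a b g : ι → ℝ) {t : ℝ} (ht : 1 ≤ t)
    (hb : ∀ i ∈ s, |b i| ≤ g i) (hab : ∀ i ∈ s, |a i - b i| ≤ g i * (t - 1)) :
    |∏ i ∈ s, a i - ∏ i ∈ s, b i| ≤ (∏ i ∈ s, g i) * (t ^ s.card - 1) := by
  classical
  induction s using Finset.induction_on with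
  | empty => simp
  | insert j s hj ih =>
    have ih' := ih (fun i hi => hb i (Finset.mem_insert_of_mem hi))
      (fun i hi => hab i (Finset.mem_insert_of_mem hi))
    have hbj := hb j (Finset.mem_insert_self j s)
    have habj := hab j (Finset.mem_insert_self j s)
    have hgj : 0 ≤ g j := (abs_nonneg _).trans hbj
    have hG0 : 0 ≤ ∏ i ∈ s, g i := Finset.prod_nonneg fun i hi =>
      (abs_nonneg _).trans (hb i (Finset.mem_insert_of_mem hi))
    have hB : |∏ i ∈ s, b i| ≤ ∏ i ∈ s, g i := by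
      rw [Finset.abs_prod]
      exact Finset.prod_le_prod (fun i _ => abs_nonneg _)
        fun i hi => hb i (Finset.mem_insert_of_mem hi)
    have haj : |a j| ≤ g j * t := by
      have h1 : |a j| ≤ |a j - b j| + |b j| := by
        have h2 := abs_add_le (a j - b j) (b j)
        rwa [sub_add_cancel] at h2
      linarith
    rw [Finset.prod_insert hj, Finset.prod_insert hj, Finset.prod_insert hj,
      Finset.card_insert_of_notMem hj]
    have h3 : a j * ∏ i ∈ s, a i - b j * ∏ i ∈ s, b i =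
        a j * (∏ i ∈ s, a i - ∏ i ∈ s, b i) + (a j - b j) * ∏ i ∈ s, b i := by ring
    rw [h3]
    have ht0 : 0 ≤ t := by linarith
    calc |a j * (∏ i ∈ s, a i - ∏ i ∈ s, b i) + (a j - b j) * ∏ i ∈ s, b i|
        ≤ |a j| * |∏ i ∈ s, a i - ∏ i ∈ s, b i| + |a j - b j| * |∏ i ∈ s, b i| := by
          refine (abs_add_le _ _).trans ?_
          rw [abs_mul, abs_mul]
      _ ≤ (g j * t) * ((∏ i ∈ s, g i) * (t ^ s.card - 1)) +
            (g j * (t - 1)) * ∏ i ∈ s, g i := by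
          refine add_le_add ?_ ?_
          · exact mul_le_mul haj ih' (abs_nonneg _) (mul_nonneg hgj ht0)
          · exact mul_le_mul habj hB (abs_nonneg _) (mul_nonneg hgj (by linarith))
      _ = g j * (∏ i ∈ s, g i) * (t ^ (s.card + 1) - 1) := by ring

private theorem sum_sq69 {V : Finset ℕ} {z : ℝ} (hz : 0 < z) (hV : Big V z) :
    ∑ p ∈ V, 1 / (p : ℝ) ^ 2 ≤ 2 / z := by
  have h1 : V ⊆ Finset.Ioo ⌊z⌋₊ (V.sup id + 1) := by
    intro p hp
    rw [Finset.mem_Ioo]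
    refine ⟨?_, Nat.lt_succ_of_le (Finset.le_sup (f := id) hp)⟩
    rw [Nat.floor_lt hz.le]
    exact (hV p hp).2
  have h2 := sum_Ioo_inv_sq_le (α := ℝ) ⌊z⌋₊ (V.sup id + 1)
  calc ∑ p ∈ V, 1 / (p : ℝ) ^ 2 ≤ ∑ p ∈ Finset.Ioo ⌊z⌋₊ (V.sup id + 1), 1 / (p : ℝ) ^ 2 :=
        Finset.sum_le_sum_of_subset_of_nonneg h1 fun i _ _ => by positivity
    _ ≤ 2 / ((⌊z⌋₊ : ℝ) + 1) := by
        simpa only [one_div] using h2
    _ ≤ 2 / z := by
        apply div_le_div_of_nonneg_left (by norm_num) hz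
        exact (Nat.lt_floor_add_one z).le

private theorem ph_pos69 {V : Finset ℕ} {z : ℝ} (hV : Big V z) {B : Finset ℕ} (hB : B ⊆ V) :
    0 < ph B := by
  unfold ph
  refine Finset.prod_pos fun p hp => ?_
  have h1 := (hV p (hB hp)).1.two_le
  have h2 : (2 : ℝ) ≤ p := by exact_mod_cast h1
  linarith

private theorem GV_nonneg69 {V : Finset ℕ} {z : ℝ} (hV : Big V z) (R : ℝ) : 0 ≤ GV V R := by
  unfold GV
  refine Finset.sum_nonneg fun B hB => ?_
  have h1 := ph_pos69 hV (Finset.mem_powerset.1 (Finset.mem_filter.1 hB).1)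
  positivity

private theorem dia_le69 {V : Finset ℕ} {z : ℝ} (hV : Big V z) {y y' : Finset ℕ → ℝ} {R R' : ℝ}
    (hy : Bd y 1 R) (hy' : Bd y' 1 R') : |dia V y y'| ≤ GV V R := by
  unfold dia GV
  rw [Finset.sum_filter]
  refine (Finset.abs_sum_le_sum_abs _ _).trans (Finset.sum_le_sum fun B hB => ?_)
  have h1 := ph_pos69 hV (Finset.mem_powerset.1 hB)
  split_ifs with h2
  · rw [abs_div, abs_mul, abs_of_pos h1]
    apply div_le_div_of_nonneg_right _ h1.le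
    calc |y B| * |y' B| ≤ 1 * 1 := mul_le_mul (hy B).1 (hy' B).1 (abs_nonneg _) zero_le_one
      _ = 1 := one_mul 1
  · rw [(hy B).2 (not_le.1 h2)]
    simp

private theorem exp_le69 {u : ℝ} (h0 : 0 ≤ u) (h1 : u ≤ 1 / 2) : Real.exp u ≤ 1 + 2 * u := by
  have h2 := Real.one_sub_le_exp_neg u
  have h3 : Real.exp u * Real.exp (-u) = 1 := by
    rw [← Real.exp_add, add_neg_cancel, Real.exp_zero]
  have h4 : Real.exp u * (1 - u) ≤ 1 := by
    have h9 := mul_le_mul_of_nonneg_left h2 (Real.exp_pos u).le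
    rw [h3] at h9
    exact h9
  have h5 : 0 < 1 - u := by linarith
  have h6 : 1 ≤ (1 + 2 * u) * (1 - u) := by nlinarith
  by_contra h7
  rw [not_le] at h7
  have h8 := mul_lt_mul_of_pos_right h7 h5
  linarith

private theorem prod_exp69 (V : Finset ℕ) (f : ℕ → ℝ) (c : ℝ) (hf0 : ∀ p ∈ V, 0 ≤ f p)
    (hf : ∀ p ∈ V, f p ≤ c * (1 / (p : ℝ) ^ 2)) :
    1 ≤ ∏ p ∈ V, (1 + f p) ∧ ∏ p ∈ V, (1 + f p) ≤ Real.exp (c * ∑ p ∈ V, 1 / (p : ℝ) ^ 2) := by
  constructor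
  · have h1 := Finset.prod_le_prod (s := V) (f := fun _ => (1 : ℝ)) (g := fun p => 1 + f p)
      (fun _ _ => zero_le_one) fun p hp => by linarith [hf0 p hp]
    simpa using h1
  · rw [Finset.mul_sum, Real.exp_sum]
    refine Finset.prod_le_prod (fun p hp => by linarith [hf0 p hp]) fun p hp => ?_
    have h1 := Real.add_one_le_exp (c * (1 / (p : ℝ) ^ 2))
    linarith [hf p hp]

theorem main_term (k : ℕ) : ∃ C : ℝ, 0 < C ∧ ∀ {ι : Type} [Fintype ι], Fintype.card ι = k →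
    ∀ (V : Finset ℕ) (z : ℝ), C ≤ z → Big V z → ∀ α : ℕ → ℝ,
      (∀ p ∈ V, 0 ≤ α p ∧ α p ≤ 1 ∧ |p * α p - 1| ≤ 2 / p) →
      ∀ (y y' : ι → Finset ℕ → ℝ) (R R' : ι → ℝ), (∀ i, Bd (y i) 1 (R i)) → (∀ i, Bd (y' i) 1 (R' i)) →
        |TT V (fun i D => rho V (y i) (y' i) D * al α D) - ∏ i, dia V (y i) (y' i)| ≤
          C / z * ∏ i, GV V (R i) := by
  classical
  set E : ℝ := 24 * k + 4 ^ k * 256 with hE
  have hE0 : 256 ≤ E := by
    have h1 : (1 : ℝ) ≤ 4 ^ k := one_le_pow₀ (by norm_num)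
    have h2 : (0 : ℝ) ≤ k := Nat.cast_nonneg k
    rw [hE]
    linarith
  refine ⟨4 * E + 16, by linarith, ?_⟩
  intro ι _ hk V z hz hV α hα y y' R R' hy hy'
  have hz0 : 0 < z := by linarith
  have hV2 : Big V 2 := fun p hp => ⟨(hV p hp).1, by linarith [(hV p hp).2]⟩
  have hα2 : ∀ p ∈ V, α p ≤ 2 / p := by
    intro p hp
    have h1 := (hα p hp).2.2
    have h2 := (hV p hp).2
    have h3 : (16 : ℝ) ≤ p := by linarith
    have h4 : (0 : ℝ) < p := by linarith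
    have h5 : p * α p - 1 ≤ 2 / p := (le_abs_self _).trans h1
    have h6 : (2 : ℝ) / p ≤ 1 := by
      rw [div_le_one h4]
      linarith
    rw [le_div_iff₀ h4]
    linarith
  set P : ℝ := ∏ p ∈ V, (1 + 24 / (p : ℝ) ^ 2) with hP
  let x : ℕ → ℝ := fun p => if p ∈ V then 8 * α p else 0
  have hxV : ∀ p ∈ V, x p = 8 * α p := fun p hp => if_pos hp
  have hx0 : ∀ p, 0 ≤ x p := by
    intro p
    by_cases hp : p ∈ V
    · rw [hxV p hp]
      linarith [(hα p hp).1]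
    · exact (if_neg hp : x p = 0).ge
  have hx16 : ∀ p ∈ V, x p ≤ 16 / p := by
    intro p hp
    rw [hxV p hp]
    have h1 := hα2 p hp
    have h2 : (16 : ℝ) / p = 8 * (2 / p) := by ring
    rw [h2]
    linarith
  have hx1 : ∀ p ∈ V, x p ≤ 1 := by
    intro p hp
    refine (hx16 p hp).trans ?_
    have h2 := (hV p hp).2
    rw [div_le_one (by linarith)]
    linarith
  have hS := sum_sq69 hz0 hV
  have hP1 := prod_exp69 V (fun p => 24 / (p : ℝ) ^ 2) 24 (fun p _ => by positivity)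
    (fun p _ => by rw [mul_one_div])
  have hQ1 := prod_exp69 V (fun p => 4 ^ k * x p ^ 2) (4 ^ k * 256) (fun p _ => by positivity)
    (fun p hp => by
      have h1 := hx16 p hp
      have h2 : x p ^ 2 ≤ 256 * (1 / (p : ℝ) ^ 2) := by
        have h3 : 256 * (1 / (p : ℝ) ^ 2) = (16 / p) ^ 2 := by
          rw [div_pow]
          ring
        rw [h3]
        exact pow_le_pow_left₀ (hx0 p) h1 2
      have h4 : (0 : ℝ) < 4 ^ k := by positivity
      calc 4 ^ k * x p ^ 2 ≤ 4 ^ k * (256 * (1 / (p : ℝ) ^ 2)) :=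
            mul_le_mul_of_nonneg_left h2 h4.le
        _ = 4 ^ k * 256 * (1 / (p : ℝ) ^ 2) := by ring)
  set Q : ℝ := ∏ p ∈ V, (1 + 4 ^ k * x p ^ 2) with hQ
  have hGn : ∀ i, 0 ≤ GV V (R i) := fun i => GV_nonneg69 hV (R i)
  have hPP : 1 ≤ P := hP1.1
  have hPk : 1 ≤ P ^ k := one_le_pow₀ hPP
  -- first step
  have h1 := pairwise_disjoint V (fun i D => rho V (y i) (y' i) D * al α D)
    (fun i => GV V (R i) * P) x (fun i => mul_nonneg (hGn i) (by linarith)) hx0 hx1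
    (fun i a ha => by
      have ha' : a ⊆ V := Finset.mem_powerset.1 ha
      have h2 := a_bound V hV2 α hα zero_le_one zero_le_one (hy i) (hy' i) ha'
      have h3 : ∏ p ∈ a, x p = ∏ p ∈ a, (8 * α p) :=
        Finset.prod_congr rfl fun p hp => hxV p (ha' hp)
      rw [h3]
      calc _ ≤ _ := h2
        _ = _ := by ring)
  rw [Finset.prod_mul_distrib, Finset.prod_const, Finset.card_univ, hk, ← hQ] at h1
  -- second step
  have h2 := prod_pert (Finset.univ : Finset ι)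
    (fun i => ∑ D ∈ V.powerset, rho V (y i) (y' i) D * al α D)
    (fun i => dia V (y i) (y' i)) (fun i => GV V (R i)) hPP
    (fun i _ => dia_le69 hV (hy i) (hy' i))
    (fun i _ => by
      rw [rho_ex]
      have h3 := near_orth V hV2 α hα zero_le_one zero_le_one (hy i) (hy' i)
      rw [one_mul, one_mul] at h3
      exact h3)
  rw [Finset.card_univ, hk] at h2
  have hG : 0 ≤ ∏ i, GV V (R i) := Finset.prod_nonneg fun i _ => hGn i
  -- the size of the factors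
  have hu : E * ∑ p ∈ V, 1 / (p : ℝ) ^ 2 ≤ 2 * E / z := by
    calc E * ∑ p ∈ V, 1 / (p : ℝ) ^ 2 ≤ E * (2 / z) := mul_le_mul_of_nonneg_left hS (by linarith)
      _ = 2 * E / z := by ring
  have hS0 : 0 ≤ ∑ p ∈ V, 1 / (p : ℝ) ^ 2 := Finset.sum_nonneg fun p _ => by positivity
  have hPQ : P ^ k * Q - 1 ≤ (4 * E + 16) / z := by
    have h3 : P ^ k ≤ Real.exp (k * (24 * ∑ p ∈ V, 1 / (p : ℝ) ^ 2)) := by
      rw [Real.exp_nat_mul]
      exact pow_le_pow_left₀ (by linarith) hP1.2 k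
    have h4 : P ^ k * Q ≤ Real.exp (E * ∑ p ∈ V, 1 / (p : ℝ) ^ 2) := by
      calc P ^ k * Q ≤ Real.exp (k * (24 * ∑ p ∈ V, 1 / (p : ℝ) ^ 2)) *
            Real.exp (4 ^ k * 256 * ∑ p ∈ V, 1 / (p : ℝ) ^ 2) :=
            mul_le_mul h3 hQ1.2 (by linarith [hQ1.1]) (Real.exp_pos _).le
        _ = Real.exp (E * ∑ p ∈ V, 1 / (p : ℝ) ^ 2) := by
            rw [← Real.exp_add, hE]
            congr 1
            ring
    have h5 : 2 * E / z ≤ 1 / 2 := by
      rw [div_le_iff₀ hz0]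
      linarith
    have h6 := exp_le69 (mul_nonneg (by linarith) hS0) (hu.trans h5)
    have h7 : (4 * E + 16) / z = 2 * (2 * E / z) + 16 / z := by ring
    have h8 : 0 ≤ 16 / z := by positivity
    rw [h7]
    linarith
  have h9 : |TT V (fun i D => rho V (y i) (y' i) D * al α D) - ∏ i, dia V (y i) (y' i)| ≤
      (∏ i, GV V (R i)) * P ^ k * (Q - 1) + (∏ i, GV V (R i)) * (P ^ k - 1) := by
    have h10 : TT V (fun i D => rho V (y i) (y' i) D * al α D) - ∏ i, dia V (y i) (y' i) =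
        (TT V (fun i D => rho V (y i) (y' i) D * al α D) -
          ∏ i, ∑ D ∈ V.powerset, rho V (y i) (y' i) D * al α D) +
        (∏ i, ∑ D ∈ V.powerset, rho V (y i) (y' i) D * al α D - ∏ i, dia V (y i) (y' i)) := by
      ring
    rw [h10]
    exact (abs_add_le _ _).trans (add_le_add h1 h2)
  calc |TT V (fun i D => rho V (y i) (y' i) D * al α D) - ∏ i, dia V (y i) (y' i)|
      ≤ (∏ i, GV V (R i)) * P ^ k * (Q - 1) + (∏ i, GV V (R i)) * (P ^ k - 1) := h9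
    _ = (P ^ k * Q - 1) * ∏ i, GV V (R i) := by ring
    _ ≤ (4 * E + 16) / z * ∏ i, GV V (R i) := mul_le_mul_of_nonneg_right hPQ hG

end PGL
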