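import Pool.Agent.PGL.Defs

/-! PGL / NO: near-orthogonality of the local factors.

PROOF. Induction on `V`. `V = insert p V'`, `Y⁰ B = Y B`, `Y¹ B = Y (insert p B)` for `B ⊆ V'`. With
`E e = 1 - p α_p = -δ`, `E e² = 1 - 2 p α_p + p² α_p = (p - 1) + δ (p - 2)` (where `p α_p = 1 + δ`, `|δ| ≤ 2 / p`):
`E_V(Y, Y') = E_{V'}(Y⁰, Y'⁰) + (E e / (p - 1)) (E_{V'}(Y¹, Y'⁰) + E_{V'}(Y⁰, Y'¹)) + (E e² / (p - 1)²) E_{V'}(Y¹, Y'¹)`,
`S_V(Y, Y') = S_{V'}(Y⁰, Y'⁰) + (1 / (p - 1)) S_{V'}(Y¹, Y'¹)` (`S = dia`),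
`G_V(R) = G_{V'}(R) + (1 / (p - 1)) G_{V'}(R / p)`. If `Y` is `Bd c R` then on subsets of `V'` `Y⁰` is `Bd c R` and `Y¹` is
`Bd c (R / p)` (use only the values on subsets: state the induction for functions which satisfy the bounds on
subsets of `V`). Claim by induction: `|E_V - S_V| ≤ c c' G_V(R) (P_V - 1)`, `|E_V| ≤ c c' G_V(R) P_V`,
`P_V = ∏_{p ∈ V} (1 + 24 / p²)`: the new terms are at most
`(2 |δ| / (p - 1) + |δ| / (p - 1)) c c' G_{V'}(R) P_{V'} ≤ (24 / p²) c c' G_V(R) P_{V'}` (`p ≥ 3`; `|S| ≤ c c' G`). -/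

set_option autoImplicit false

open Finset

noncomputable section

namespace PGL

private theorem pr_insert' {p : ℕ} {B : Finset ℕ} (h : p ∉ B) : pr (insert p B) = p * pr B := by
  unfold pr
  exact prod_insert h

private theorem ph_insert' {p : ℕ} {B : Finset ℕ} (h : p ∉ B) :
    ph (insert p B) = ((p : ℝ) - 1) * ph B := by
  unfold ph
  exact prod_insert h

private theorem al_insert' {α : ℕ → ℝ} {p : ℕ} {B : Finset ℕ} (h : p ∉ B) :
    al α (insert p B) = α p * al α B := by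
  unfold al
  exact prod_insert h

private theorem LamS_insert {V : Finset ℕ} {p : ℕ} (hp : p ∉ V) (Y : Finset ℕ → ℝ)
    (m : Finset ℕ) : LamS (insert p V) Y m =
      LamS V Y m + ee m p / ((p : ℝ) - 1) * LamS V (fun B => Y (insert p B)) m := by
  unfold LamS
  rw [sum_powerset_insert hp, mul_sum]
  congr 1
  refine sum_congr rfl fun B hB => ?_
  have hpB : p ∉ B := fun h => hp (mem_powerset.1 hB h)
  rw [ph_insert' hpB, prod_insert hpB, div_eq_mul_inv, div_eq_mul_inv, div_eq_mul_inv, mul_inv]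
  ring

private theorem LamS_out {V : Finset ℕ} {p : ℕ} (hp : p ∉ V) (Y : Finset ℕ → ℝ)
    (m : Finset ℕ) : LamS V Y (insert p m) = LamS V Y m := by
  unfold LamS
  refine sum_congr rfl fun B hB => ?_
  congr 1
  refine prod_congr rfl fun q hq => ?_
  have hqp : q ≠ p := fun h => hp (h ▸ mem_powerset.1 hB hq)
  unfold ee
  simp only [mem_insert, hqp, false_or]

private theorem Ex_insert {V : Finset ℕ} {p : ℕ} (hp : p ∉ V) (α : ℕ → ℝ)
    (F : Finset ℕ → ℝ) : Ex (insert p V) α F =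
      (1 - α p) * Ex V α F + α p * Ex V α (fun m => F (insert p m)) := by
  unfold Ex
  rw [sum_powerset_insert hp, mul_sum, mul_sum]
  congr 1
  · refine sum_congr rfl fun m hm => ?_
    have hpm : p ∉ m := fun h => hp (mem_powerset.1 hm h)
    have e : insert p V \ m = insert p (V \ m) := by
      ext x
      simp only [mem_sdiff, mem_insert]
      constructor
      · rintro ⟨h1 | h1, h2⟩
        · exact Or.inl h1
        · exact Or.inr ⟨h1, h2⟩
      · rintro (h1 | ⟨h1, h2⟩)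
        · exact ⟨Or.inl h1, h1 ▸ hpm⟩
        · exact ⟨Or.inr h1, h2⟩
    have hp2 : p ∉ V \ m := fun h => hp (mem_sdiff.1 h).1
    rw [e, al_insert' hp2]
    ring
  · refine sum_congr rfl fun m hm => ?_
    have hpm : p ∉ m := fun h => hp (mem_powerset.1 hm h)
    have e : insert p V \ insert p m = V \ m := by
      ext x
      simp only [mem_sdiff, mem_insert, not_or]
      constructor
      · rintro ⟨h1 | h1, h2, h3⟩
        · exact absurd h1 h2
        · exact ⟨h1, h3⟩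
      · rintro ⟨h1, h2⟩
        exact ⟨Or.inr h1, fun h => hp (h ▸ h1), h2⟩
    rw [e, al_insert' hpm]
    ring

/-- the bilinear form -/
private def EE (V : Finset ℕ) (α : ℕ → ℝ) (Y Y' : Finset ℕ → ℝ) : ℝ :=
  Ex V α (fun m => LamS V Y m * LamS V Y' m)

private theorem EE_insert {V : Finset ℕ} {p : ℕ} (hp : p ∉ V) (hp1 : (p : ℝ) - 1 ≠ 0)
    (α : ℕ → ℝ) (Y Y' : Finset ℕ → ℝ) : EE (insert p V) α Y Y' =
      EE V α Y Y' + (1 - p * α p) / ((p : ℝ) - 1) *
        (EE V α (fun B => Y (insert p B)) Y' + EE V α Y (fun B => Y' (insert p B))) +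
      (1 / ((p : ℝ) - 1) + (p * α p - 1) * ((p : ℝ) - 2) / ((p : ℝ) - 1) ^ 2) *
        EE V α (fun B => Y (insert p B)) (fun B => Y' (insert p B)) := by
  have hfold : EE (insert p V) α Y Y' =
      (1 - α p) * Ex V α (fun m => LamS (insert p V) Y m * LamS (insert p V) Y' m) +
      α p * Ex V α (fun m => LamS (insert p V) Y (insert p m) *
        LamS (insert p V) Y' (insert p m)) := by
    unfold EE
    rw [Ex_insert hp]
  rw [hfold]
  unfold EE Ex
  simp only [mul_sum, ← sum_add_distrib]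
  refine sum_congr rfl fun m hm => ?_
  have hpm : p ∉ m := fun h => hp (mem_powerset.1 hm h)
  have e1 : ee m p = 1 := if_neg hpm
  have e2 : ee (insert p m) p = 1 - (p : ℝ) := if_pos (mem_insert_self _ _)
  rw [LamS_insert hp Y m, LamS_insert hp Y' m, LamS_insert hp Y (insert p m),
    LamS_insert hp Y' (insert p m), LamS_out hp, LamS_out hp, LamS_out hp, LamS_out hp, e1, e2]
  generalize al α m * al (fun p => 1 - α p) (V \ m) = w
  generalize LamS V Y m = a
  generalize LamS V Y' m = b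
  generalize LamS V (fun B => Y (insert p B)) m = c
  generalize LamS V (fun B => Y' (insert p B)) m = d
  field_simp
  ring

private theorem dia_insert {V : Finset ℕ} {p : ℕ} (hp : p ∉ V) (Y Y' : Finset ℕ → ℝ) :
    dia (insert p V) Y Y' = dia V Y Y' + 1 / ((p : ℝ) - 1) *
      dia V (fun B => Y (insert p B)) (fun B => Y' (insert p B)) := by
  unfold dia
  rw [sum_powerset_insert hp, mul_sum]
  congr 1
  refine sum_congr rfl fun B hB => ?_
  have hpB : p ∉ B := fun h => hp (mem_powerset.1 hB h)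
  rw [ph_insert' hpB, div_eq_mul_inv, div_eq_mul_inv, div_eq_mul_inv, mul_inv]
  ring

private theorem GV_insert {V : Finset ℕ} {p : ℕ} (hp : p ∉ V) (hp0 : (0 : ℝ) < p) (R : ℝ) :
    GV (insert p V) R = GV V R + 1 / ((p : ℝ) - 1) * GV V (R / p) := by
  unfold GV
  rw [sum_filter, sum_powerset_insert hp, sum_filter, sum_filter, mul_sum]
  congr 1
  refine sum_congr rfl fun B hB => ?_
  have hpB : p ∉ B := fun h => hp (mem_powerset.1 hB h)
  have hiff : ((pr (insert p B) : ℕ) : ℝ) ≤ R ↔ (pr B : ℝ) ≤ R / p := by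
    rw [pr_insert' hpB, le_div_iff₀ hp0, Nat.cast_mul, mul_comm]
  by_cases h : (pr B : ℝ) ≤ R / p
  · rw [if_pos h, if_pos (hiff.2 h), ph_insert' hpB, one_div_mul_one_div]
  · rw [if_neg h, if_neg (fun h' => h (hiff.1 h')), mul_zero]

private theorem ph_pos' {V : Finset ℕ} (hV : ∀ p ∈ V, (1 : ℝ) < p) {B : Finset ℕ}
    (hB : B ⊆ V) : 0 < ph B := by
  unfold ph
  exact prod_pos fun p hp => by linarith [hV p (hB hp)]

private theorem GV_nonneg' {V : Finset ℕ} (hV : ∀ p ∈ V, (1 : ℝ) < p) (R : ℝ) :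
    0 ≤ GV V R := by
  unfold GV
  refine sum_nonneg fun B hB => ?_
  have h := ph_pos' hV (mem_powerset.1 (mem_filter.1 hB).1)
  positivity

private theorem GV_div {V : Finset ℕ} (hV : ∀ p ∈ V, (1 : ℝ) < p) (R : ℝ) {p : ℕ}
    (hp : (1 : ℝ) ≤ p) : GV V (R / p) ≤ GV V R := by
  unfold GV
  refine sum_le_sum_of_subset_of_nonneg ?_ fun B hB _ => ?_
  · intro B hB
    rw [mem_filter] at hB ⊢
    refine ⟨hB.1, ?_⟩
    have h1 := hB.2
    rw [le_div_iff₀ (by linarith)] at h1
    have h2 : (0 : ℝ) ≤ pr B := Nat.cast_nonneg _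
    nlinarith
  · have h := ph_pos' hV (mem_powerset.1 (mem_filter.1 hB).1)
    positivity

private theorem dia_bound {V : Finset ℕ} (hV : ∀ p ∈ V, (1 : ℝ) < p) {Y Y' : Finset ℕ → ℝ}
    {c c' R : ℝ} (hc : 0 ≤ c)
    (hY : ∀ B ⊆ V, |Y B| ≤ c ∧ (R < (pr B : ℝ) → Y B = 0)) (hY' : ∀ B ⊆ V, |Y' B| ≤ c') :
    |dia V Y Y'| ≤ c * c' * GV V R := by
  unfold dia GV
  rw [mul_sum, sum_filter]
  refine (abs_sum_le_sum_abs _ _).trans (sum_le_sum fun B hB => ?_)
  have hBV := mem_powerset.1 hB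
  have h := ph_pos' hV hBV
  by_cases h1 : (pr B : ℝ) ≤ R
  · rw [if_pos h1, abs_div, abs_of_pos h, abs_mul, mul_one_div]
    exact div_le_div_of_nonneg_right
      (mul_le_mul (hY B hBV).1 (hY' B hBV) (abs_nonneg _) hc) h.le
  · rw [if_neg h1, (hY B hBV).2 (not_le.1 h1), zero_mul, zero_div, abs_zero]

private theorem PV_one {V : Finset ℕ} : 1 ≤ ∏ p ∈ V, (1 + 24 / (p : ℝ) ^ 2) := by
  refine prod_induction _ (fun x : ℝ => 1 ≤ x) (fun a b ha hb => one_le_mul_of_one_le_of_one_le ha hb)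
    le_rfl fun p _ => ?_
  have h : 0 ≤ 24 / (p : ℝ) ^ 2 := by positivity
  linarith

private theorem near_aux (α : ℕ → ℝ) (V : Finset ℕ) :
    (∀ p ∈ V, (2 : ℝ) < p) → (∀ p ∈ V, |p * α p - 1| ≤ 2 / p) →
    ∀ (Y Y' : Finset ℕ → ℝ) (c c' R : ℝ), 0 ≤ c → 0 ≤ c' →
      (∀ B ⊆ V, |Y B| ≤ c ∧ (R < (pr B : ℝ) → Y B = 0)) → (∀ B ⊆ V, |Y' B| ≤ c') →
      |EE V α Y Y' - dia V Y Y'| ≤
        c * c' * GV V R * (∏ p ∈ V, (1 + 24 / (p : ℝ) ^ 2) - 1) := by
  induction V using Finset.induction_on with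
  | empty =>
    intro _ _ Y Y' c c' R _ _ _ _
    have h1 : EE ∅ α Y Y' - dia ∅ Y Y' = 0 := by
      unfold EE Ex dia LamS ph al
      simp
    rw [h1, prod_empty, abs_zero, sub_self, mul_zero]
  | insert p V hp ih =>
    intro hV hα Y Y' c c' R hc hc' hY hY'
    have hV' : ∀ q ∈ V, (2 : ℝ) < q := fun q hq => hV q (mem_insert_of_mem hq)
    have hV1 : ∀ q ∈ V, (1 : ℝ) < q := fun q hq => by linarith [hV' q hq]
    have hα' : ∀ q ∈ V, |q * α q - 1| ≤ 2 / q := fun q hq => hα q (mem_insert_of_mem hq)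
    have hp2 : (2 : ℝ) < p := hV p (mem_insert_self _ _)
    have hδ : |p * α p - 1| ≤ 2 / p := hα p (mem_insert_self _ _)
    have hcc : 0 ≤ c * c' := mul_nonneg hc hc'
    have hsub : ∀ B ⊆ V, B ⊆ insert p V := fun B hB => hB.trans (subset_insert _ _)
    have hsub1 : ∀ B ⊆ V, insert p B ⊆ insert p V := fun B hB => insert_subset_insert _ hB
    -- the restrictions
    have hY0 : ∀ B ⊆ V, |Y B| ≤ c ∧ (R < (pr B : ℝ) → Y B = 0) := fun B hB => hY B (hsub B hB)
    have hY1 : ∀ B ⊆ V, |Y (insert p B)| ≤ c ∧ (R / p < (pr B : ℝ) → Y (insert p B) = 0) := by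
      intro B hB
      refine ⟨(hY _ (hsub1 B hB)).1, fun h => (hY _ (hsub1 B hB)).2 ?_⟩
      have hpB : p ∉ B := fun h => hp (hB h)
      rw [pr_insert' hpB, Nat.cast_mul, mul_comm]
      rwa [div_lt_iff₀ (by linarith)] at h
    have hY0' : ∀ B ⊆ V, |Y' B| ≤ c' := fun B hB => hY' B (hsub B hB)
    have hY1' : ∀ B ⊆ V, |Y' (insert p B)| ≤ c' := fun B hB => hY' _ (hsub1 B hB)
    have i00 := ih hV' hα' Y Y' c c' R hc hc' hY0 hY0'
    have i01 := ih hV' hα' Y (fun B => Y' (insert p B)) c c' R hc hc' hY0 hY1'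
    have i10 := ih hV' hα' (fun B => Y (insert p B)) Y' c c' (R / p) hc hc' hY1 hY0'
    have i11 := ih hV' hα' (fun B => Y (insert p B)) (fun B => Y' (insert p B)) c c' (R / p)
      hc hc' hY1 hY1'
    have d01 := dia_bound hV1 (Y := Y) (Y' := fun B => Y' (insert p B)) hc hY0 hY1'
    have d10 := dia_bound hV1 (Y := fun B => Y (insert p B)) (Y' := Y') hc hY1 hY0'
    have d11 := dia_bound hV1 (Y := fun B => Y (insert p B)) (Y' := fun B => Y' (insert p B))
      hc hY1 hY1'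
    rw [EE_insert hp (by linarith), dia_insert hp, GV_insert hp (by linarith), prod_insert hp]
    have hG0 := GV_nonneg' hV1 R
    have hG1 := GV_nonneg' hV1 (R / p)
    have hG2 := GV_div hV1 R (p := p) (by linarith)
    have hP := PV_one (V := V)
    generalize GV V R = G at *
    generalize GV V (R / p) = G' at *
    generalize ∏ q ∈ V, (1 + 24 / (q : ℝ) ^ 2) = P at *
    generalize EE V α Y Y' = a00 at *
    generalize EE V α Y (fun B => Y' (insert p B)) = a01 at *
    generalize EE V α (fun B => Y (insert p B)) Y' = a10 at *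
    generalize EE V α (fun B => Y (insert p B)) (fun B => Y' (insert p B)) = a11 at *
    generalize dia V Y Y' = s00 at *
    generalize dia V Y (fun B => Y' (insert p B)) = s01 at *
    generalize dia V (fun B => Y (insert p B)) Y' = s10 at *
    generalize dia V (fun B => Y (insert p B)) (fun B => Y' (insert p B)) = s11 at *
    have hA01 : |a01| ≤ c * c' * G * P := by
      have h1 : |a01| ≤ |a01 - s01| + |s01| := by
        have := abs_add_le (a01 - s01) s01
        rwa [sub_add_cancel] at this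
      calc |a01| ≤ c * c' * G * (P - 1) + c * c' * G := h1.trans (add_le_add i01 d01)
        _ = c * c' * G * P := by ring
    have hA10 : |a10| ≤ c * c' * G' * P := by
      have h1 : |a10| ≤ |a10 - s10| + |s10| := by
        have := abs_add_le (a10 - s10) s10
        rwa [sub_add_cancel] at this
      calc |a10| ≤ c * c' * G' * (P - 1) + c * c' * G' := h1.trans (add_le_add i10 d10)
        _ = c * c' * G' * P := by ring
    have hA11 : |a11| ≤ c * c' * G' * P := by
      have h1 : |a11| ≤ |a11 - s11| + |s11| := by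
        have := abs_add_le (a11 - s11) s11
        rwa [sub_add_cancel] at this
      calc |a11| ≤ c * c' * G' * (P - 1) + c * c' * G' := h1.trans (add_le_add i11 d11)
        _ = c * c' * G' * P := by ring
    have hGG : c * c' * G' * P ≤ c * c' * G * P :=
      mul_le_mul_of_nonneg_right (mul_le_mul_of_nonneg_left hG2 hcc) (by linarith)
    have hp1 : (0 : ℝ) < p - 1 := by linarith
    have hp0 : (0 : ℝ) < p := by linarith
    -- the decomposition
    have e1 : a00 + (1 - p * α p) / ((p : ℝ) - 1) * (a10 + a01) +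
        (1 / ((p : ℝ) - 1) + (p * α p - 1) * ((p : ℝ) - 2) / ((p : ℝ) - 1) ^ 2) * a11 -
        (s00 + 1 / ((p : ℝ) - 1) * s11) =
        (a00 - s00) + (1 / ((p : ℝ) - 1) * (a11 - s11) +
          ((1 - p * α p) / ((p : ℝ) - 1) * (a10 + a01) +
            (p * α p - 1) * ((p : ℝ) - 2) / ((p : ℝ) - 1) ^ 2 * a11)) := by ring
    rw [e1]
    have b1 : |1 / ((p : ℝ) - 1) * (a11 - s11)| ≤
        1 / ((p : ℝ) - 1) * (c * c' * G' * (P - 1)) := by
      rw [abs_mul, abs_of_pos (by positivity : (0 : ℝ) < 1 / ((p : ℝ) - 1))]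
      exact mul_le_mul_of_nonneg_left i11 (by positivity)
    have hq : 2 / (p : ℝ) / ((p : ℝ) - 1) ≤ 8 / (p : ℝ) ^ 2 := by
      rw [div_div, div_le_div_iff₀ (by positivity) (by positivity)]
      nlinarith
    have b2 : |(1 - p * α p) / ((p : ℝ) - 1) * (a10 + a01)| ≤
        8 / (p : ℝ) ^ 2 * (2 * (c * c' * G * P)) := by
      rw [abs_mul, abs_div, abs_of_pos hp1, abs_sub_comm]
      refine mul_le_mul ((div_le_div_of_nonneg_right hδ hp1.le).trans hq) ?_ (abs_nonneg _)
        (by positivity)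
      refine (abs_add_le _ _).trans ?_
      linarith
    have b3 : |(p * α p - 1) * ((p : ℝ) - 2) / ((p : ℝ) - 1) ^ 2 * a11| ≤
        8 / (p : ℝ) ^ 2 * (c * c' * G * P) := by
      rw [abs_mul, abs_div, abs_mul, abs_of_pos (by linarith : (0 : ℝ) < (p : ℝ) - 2),
        abs_of_pos (by positivity : (0 : ℝ) < ((p : ℝ) - 1) ^ 2)]
      refine mul_le_mul ?_ (hA11.trans hGG) (abs_nonneg _) (by positivity)
      refine le_trans ?_ ((div_le_div_of_nonneg_right hδ hp1.le).trans hq)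
      rw [div_le_div_iff₀ (by positivity) hp1]
      have h3 := abs_nonneg ((p : ℝ) * α p - 1)
      nlinarith [mul_nonneg h3 hp1.le]
    calc |(a00 - s00) + (1 / ((p : ℝ) - 1) * (a11 - s11) +
          ((1 - p * α p) / ((p : ℝ) - 1) * (a10 + a01) +
            (p * α p - 1) * ((p : ℝ) - 2) / ((p : ℝ) - 1) ^ 2 * a11))|
        ≤ c * c' * G * (P - 1) + (1 / ((p : ℝ) - 1) * (c * c' * G' * (P - 1)) +
          (8 / (p : ℝ) ^ 2 * (2 * (c * c' * G * P)) + 8 / (p : ℝ) ^ 2 * (c * c' * G * P))) := by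
          refine (abs_add_le _ _).trans (add_le_add i00 ?_)
          refine (abs_add_le _ _).trans (add_le_add b1 ?_)
          exact (abs_add_le _ _).trans (add_le_add b2 b3)
      _ = c * c' * (G + 1 / ((p : ℝ) - 1) * G') * (P - 1) +
          24 / (p : ℝ) ^ 2 * (c * c' * G * P) := by ring
      _ ≤ c * c' * (G + 1 / ((p : ℝ) - 1) * G') * (P - 1) +
          24 / (p : ℝ) ^ 2 * (c * c' * (G + 1 / ((p : ℝ) - 1) * G') * P) := by
          have h5 : 0 ≤ 1 / ((p : ℝ) - 1) * G' := mul_nonneg (by positivity) hG1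
          have h6 : c * c' * G * P ≤ c * c' * (G + 1 / ((p : ℝ) - 1) * G') * P :=
            mul_le_mul_of_nonneg_right (mul_le_mul_of_nonneg_left (by linarith) hcc)
              (by linarith)
          have h7 := mul_le_mul_of_nonneg_left h6 (by positivity : 0 ≤ 24 / (p : ℝ) ^ 2)
          linarith
      _ = c * c' * (G + 1 / ((p : ℝ) - 1) * G') * ((1 + 24 / (p : ℝ) ^ 2) * P - 1) := by ring

private theorem exact_aux (V : Finset ℕ) :
    (∀ p ∈ V, (1 : ℝ) < p) → ∀ (Y Y' : Finset ℕ → ℝ),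
      EE V (fun p => 1 / p) Y Y' = dia V Y Y' := by
  induction V using Finset.induction_on with
  | empty =>
    intro _ Y Y'
    unfold EE Ex dia LamS ph al
    simp
  | insert p V hp ih =>
    intro hV Y Y'
    have hV' : ∀ q ∈ V, (1 : ℝ) < q := fun q hq => hV q (mem_insert_of_mem hq)
    have hp1 : (1 : ℝ) < p := hV p (mem_insert_self _ _)
    have h0 : (p : ℝ) ≠ 0 := by linarith
    rw [EE_insert hp (by linarith), dia_insert hp, ih hV' Y Y',
      ih hV' (fun B => Y (insert p B)) (fun B => Y' (insert p B))]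
    have e : (p : ℝ) * (1 / p) = 1 := by
      field_simp
    rw [e]
    ring

theorem near_orth (V : Finset ℕ) (hV : Big V 2) (α : ℕ → ℝ)
    (hα : ∀ p ∈ V, 0 ≤ α p ∧ α p ≤ 1 ∧ |p * α p - 1| ≤ 2 / p) {Y Y' : Finset ℕ → ℝ} {c c' R R' : ℝ}
    (hc : 0 ≤ c) (hc' : 0 ≤ c') (hY : Bd Y c R) (hY' : Bd Y' c' R') :
    |Ex V α (fun m => LamS V Y m * LamS V Y' m) - dia V Y Y'| ≤
      c * c' * GV V R * (∏ p ∈ V, (1 + 24 / (p : ℝ) ^ 2) - 1) :=
  near_aux α V (fun p hp => (hV p hp).2) (fun p hp => (hα p hp).2.2) Y Y' c c' R hc hc'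
    (fun B _ => hY B) (fun B _ => (hY' B).1)

/-- exact orthogonality for `α p = 1 / p` -/
theorem exact_orth (V : Finset ℕ) (hV : Big V 1) (Y Y' : Finset ℕ → ℝ) :
    Ex V (fun p => 1 / p) (fun m => LamS V Y m * LamS V Y' m) = dia V Y Y' :=
  exact_aux V (fun p hp => (hV p hp).2) Y Y'

end PGL
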