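import Pool.Agent.PGL.Defs

/-! PGL / OM: sums over squarefree numbers with weights `K^ω`.

PROOFS. `om_sum`: let `H = ∑_{n ≤ x} 1 / n ≤ 1 + log x`. A squarefree number `pr B` with a map `f : B → Fin K` gives
the tuple `(n_j) = (pr (f⁻¹ j))` with `∏ n_j = pr B`, all `n_j ≤ x`, injectively. So the sum is at most `H^K`. (Or
induction on `K`: `∑_B (K+1)^|B| / pr B = ∑_B ∑_{B' ⊆ B} K^|B'| / (pr B' pr (B \ B'))
≤ (∑_{B'} K^|B'| / pr B') (∑_{B''} 1 / pr B'')`, and `∑_{B ⊆ V, pr B ≤ x} 1 / pr B ≤ ∑_{1 ≤ n ≤ x} 1 / n` since `pr` is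
injective on sets of primes.) `om_ph`: `1 / ph B ≤ 2^|B| / pr B`. `om_cnt`: `K^|B| ≤ x K^|B| / pr B`.
`GV_le` is `om_ph` with `K = 1`. -/

set_option autoImplicit false

open Finset

noncomputable section

namespace PGL

/-- `pr` is injective on sets of primes -/
theorem pr_inj {A B : Finset ℕ} (hA : ∀ p ∈ A, p.Prime) (hB : ∀ p ∈ B, p.Prime) (h : pr A = pr B) : A = B := by
  rw [← Nat.primeFactors_prod hA, ← Nat.primeFactors_prod hB]
  unfold pr at h
  rw [h]

private theorem pr_pos {B : Finset ℕ} (hB : ∀ p ∈ B, p.Prime) : 1 ≤ pr B :=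
  Finset.prod_pos fun p hp => (hB p hp).pos

private theorem pr_sdiff {B B' : Finset ℕ} (h : B' ⊆ B) : pr B' * pr (B \ B') = pr B := by
  unfold pr
  rw [mul_comm]
  exact Finset.prod_sdiff h

private theorem sum_inv_le (V : Finset ℕ) (hV : Big V 1) {x : ℝ} (hx : 1 ≤ x) :
    ∑ B ∈ V.powerset with (pr B : ℝ) ≤ x, 1 / (pr B : ℝ) ≤ 1 + Real.log x := by
  have hprime : ∀ B ∈ V.powerset.filter (fun B => (pr B : ℝ) ≤ x), ∀ p ∈ B, p.Prime := by
    intro B hB p hp
    exact (hV p (Finset.mem_powerset.1 (Finset.mem_filter.1 hB).1 hp)).1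
  have h1 : ∑ B ∈ V.powerset with (pr B : ℝ) ≤ x, 1 / (pr B : ℝ) =
      ∑ n ∈ (V.powerset.filter (fun B => (pr B : ℝ) ≤ x)).image pr, 1 / (n : ℝ) := by
    rw [Finset.sum_image]
    intro B hB B' hB' h
    exact pr_inj (hprime B (Finset.mem_coe.1 hB)) (hprime B' (Finset.mem_coe.1 hB')) h
  rw [h1]
  refine le_trans (Finset.sum_le_sum_of_subset_of_nonneg (t := Finset.Icc 1 ⌊x⌋₊) ?_ ?_) ?_
  · intro n hn
    obtain ⟨B, hB, rfl⟩ := Finset.mem_image.1 hn
    rw [Finset.mem_Icc]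
    exact ⟨pr_pos (hprime B hB), Nat.le_floor (Finset.mem_filter.1 hB).2⟩
  · intro n _ _
    positivity
  · have h2 := harmonic_floor_le_one_add_log x hx
    rw [harmonic_eq_sum_Icc] at h2
    push_cast at h2
    simpa [one_div] using h2

theorem om_sum (K : ℕ) (V : Finset ℕ) (hV : Big V 1) {x : ℝ} (hx : 1 ≤ x) :
    ∑ B ∈ V.powerset with (pr B : ℝ) ≤ x, (K : ℝ) ^ B.card / pr B ≤ (1 + Real.log x) ^ K := by
  classical
  have hlog : 0 ≤ Real.log x := Real.log_nonneg hx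
  induction K with
  | zero =>
    rw [pow_zero]
    have h1 : ∑ B ∈ V.powerset with (pr B : ℝ) ≤ x, ((0 : ℕ) : ℝ) ^ B.card / pr B ≤
        ∑ B ∈ V.powerset with (pr B : ℝ) ≤ x, if B = ∅ then (1 : ℝ) else 0 := by
      refine Finset.sum_le_sum fun B _ => ?_
      by_cases hB : B = ∅
      · subst hB
        simp [pr]
      · have : B.card ≠ 0 := fun h => hB (Finset.card_eq_zero.1 h)
        simp [this, hB]
    refine h1.trans ?_
    rw [Finset.sum_ite_eq']
    split_ifs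
    · exact le_refl _
    · exact zero_le_one
  | succ K ih =>
    set F := V.powerset.filter (fun B => (pr B : ℝ) ≤ x) with hF
    have hprime : ∀ B ∈ F, ∀ p ∈ B, p.Prime := by
      intro B hB p hp
      exact (hV p (Finset.mem_powerset.1 (Finset.mem_filter.1 hB).1 hp)).1
    have hdown : ∀ B ∈ F, ∀ C, C ⊆ B → C ∈ F := by
      intro B hB C hC
      have h2 := Finset.mem_filter.1 hB
      refine Finset.mem_filter.2 ⟨Finset.mem_powerset.2 (hC.trans (Finset.mem_powerset.1 h2.1)), ?_⟩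
      refine le_trans ?_ h2.2
      have h3 := pr_sdiff hC
      have h4 : 1 ≤ pr (B \ C) := pr_pos fun p hp => hprime B hB p (Finset.sdiff_subset hp)
      have h5 : pr C ≤ pr B := by
        rw [← h3]
        exact Nat.le_mul_of_pos_right _ h4
      exact_mod_cast h5
    let g : Finset ℕ × Finset ℕ → ℝ := fun r => (K : ℝ) ^ r.1.card / pr r.1 * (1 / pr r.2)
    let i : (Σ _ : Finset ℕ, Finset ℕ) → Finset ℕ × Finset ℕ := fun q => (q.2, q.1 \ q.2)
    have h1 : ∑ B ∈ F, ((K + 1 : ℕ) : ℝ) ^ B.card / pr B =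
        ∑ q ∈ F.sigma (fun B => B.powerset), g (i q) := by
      rw [Finset.sum_sigma]
      refine Finset.sum_congr rfl fun B hB => ?_
      have h2 := Finset.sum_pow_mul_eq_add_pow (K : ℝ) 1 B
      push_cast
      rw [← h2, Finset.sum_div]
      refine Finset.sum_congr rfl fun C hC => ?_
      rw [Finset.mem_powerset] at hC
      change _ = (K : ℝ) ^ C.card / pr C * (1 / pr (B \ C))
      rw [← pr_sdiff hC, one_pow, mul_one]
      push_cast
      rw [div_mul_div_comm, mul_one]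
    rw [h1]
    have hinj : Set.InjOn i (F.sigma (fun B => B.powerset) : Finset (Σ _ : Finset ℕ, Finset ℕ)) := by
      rintro ⟨B, C⟩ hq ⟨B', C'⟩ hq' h
      have h2 : C ⊆ B := Finset.mem_powerset.1 (Finset.mem_sigma.1 (Finset.mem_coe.1 hq)).2
      have h2' : C' ⊆ B' := Finset.mem_powerset.1 (Finset.mem_sigma.1 (Finset.mem_coe.1 hq')).2
      have h3 : C = C' := congrArg Prod.fst h
      have h4 : B \ C = B' \ C' := congrArg Prod.snd h
      subst h3
      have h5 : B = B' := by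
        rw [← Finset.union_sdiff_of_subset h2, h4, Finset.union_sdiff_of_subset h2']
      subst h5
      rfl
    rw [← Finset.sum_image (f := g) hinj]
    refine le_trans (Finset.sum_le_sum_of_subset_of_nonneg (t := F ×ˢ F) ?_ ?_) ?_
    · intro r hr
      obtain ⟨⟨B, C⟩, hq, rfl⟩ := Finset.mem_image.1 hr
      obtain ⟨hB, hC⟩ := Finset.mem_sigma.1 hq
      rw [Finset.mem_product]
      exact ⟨hdown B hB C (Finset.mem_powerset.1 hC), hdown B hB _ Finset.sdiff_subset⟩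
    · intro r _ _
      change 0 ≤ (K : ℝ) ^ r.1.card / pr r.1 * (1 / pr r.2)
      positivity
    · rw [Finset.sum_product]
      change ∑ B ∈ F, ∑ C ∈ F, (K : ℝ) ^ B.card / pr B * (1 / pr C) ≤ _
      rw [← Finset.sum_mul_sum, pow_succ]
      refine mul_le_mul ih (sum_inv_le V hV hx) ?_ (by positivity)
      exact Finset.sum_nonneg fun B _ => by positivity

private theorem ph_pos {B : Finset ℕ} (hB : ∀ p ∈ B, p.Prime) : 0 < ph B := by
  refine Finset.prod_pos fun p hp => ?_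
  have : (2 : ℝ) ≤ p := by exact_mod_cast (hB p hp).two_le
  linarith

private theorem pr_le_ph {B : Finset ℕ} (hB : ∀ p ∈ B, p.Prime) : (pr B : ℝ) ≤ 2 ^ B.card * ph B := by
  unfold pr ph
  rw [← Finset.prod_const, ← Finset.prod_mul_distrib]
  push_cast
  refine Finset.prod_le_prod (fun p _ => Nat.cast_nonneg p) fun p hp => ?_
  have : (2 : ℝ) ≤ p := by exact_mod_cast (hB p hp).two_le
  linarith

theorem om_ph (K : ℕ) (V : Finset ℕ) (hV : Big V 1) {x : ℝ} (hx : 1 ≤ x) :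
    ∑ B ∈ V.powerset with (pr B : ℝ) ≤ x, (K : ℝ) ^ B.card / ph B ≤ (1 + Real.log x) ^ (2 * K) := by
  refine le_trans (Finset.sum_le_sum fun B hB => ?_) (om_sum (2 * K) V hV hx)
  have hp : ∀ p ∈ B, p.Prime := fun p hp =>
    (hV p (Finset.mem_powerset.1 (Finset.mem_filter.1 hB).1 hp)).1
  have h1 := ph_pos hp
  have h2 := pr_le_ph hp
  have h3 : (0 : ℝ) < pr B := by exact_mod_cast pr_pos hp
  rw [div_le_div_iff₀ h1 h3]
  push_cast
  rw [mul_pow]
  have h4 : (0 : ℝ) ≤ (K : ℝ) ^ B.card := by positivity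
  calc (K : ℝ) ^ B.card * pr B ≤ (K : ℝ) ^ B.card * (2 ^ B.card * ph B) :=
        mul_le_mul_of_nonneg_left h2 h4
    _ = 2 ^ B.card * (K : ℝ) ^ B.card * ph B := by ring

theorem om_cnt (K : ℕ) (V : Finset ℕ) (hV : Big V 1) {x : ℝ} (hx : 1 ≤ x) :
    ∑ B ∈ V.powerset with (pr B : ℝ) ≤ x, (K : ℝ) ^ B.card ≤ x * (1 + Real.log x) ^ K := by
  refine le_trans (Finset.sum_le_sum (g := fun B => x * ((K : ℝ) ^ B.card / pr B)) fun B hB => ?_) ?_
  · have hp : ∀ p ∈ B, p.Prime := fun p hp =>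
      (hV p (Finset.mem_powerset.1 (Finset.mem_filter.1 hB).1 hp)).1
    have h3 : (0 : ℝ) < pr B := by exact_mod_cast pr_pos hp
    have h4 : (0 : ℝ) ≤ (K : ℝ) ^ B.card := by positivity
    have h5 := (Finset.mem_filter.1 hB).2
    rw [mul_div_assoc', le_div_iff₀ h3, mul_comm]
    exact mul_le_mul_of_nonneg_right h5 h4
  · rw [← Finset.mul_sum]
    exact mul_le_mul_of_nonneg_left (om_sum K V hV hx) (by linarith)

theorem GV_le (V : Finset ℕ) (hV : Big V 1) {R : ℝ} (hR : 1 ≤ R) : GV V R ≤ (1 + Real.log R) ^ 2 := by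
  have h := om_ph 1 V hV hR
  unfold GV
  simpa using h

end PGL
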