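import Pool.Agent.PGL.Defs

/-! PGL / PD: removing the pairwise disjointness.

`TT V φ = ∑_{D : ι → powerset V, pairwise disjoint} ∏ φ_i(D_i)`, `A_i(a) = ∑_{a ⊆ S ⊆ V} φ_i(S)`.
PROOF. Induction on `V`, for all families `φ` and all `Γ`. `V = insert v V'`: put `φ⁰ S = φ S`, `φ¹ S = φ (insert v S)`,
`φ⁺ = φ⁰ + φ¹` for `S ⊆ V'`. Splitting according to which `D_i` contains `v` (at most one):
`T_V(φ) = T_{V'}(φ⁰) + ∑_j T_{V'}(φ¹_j, φ⁰_i (i ≠ j))`; insert `φ⁰ = φ⁺ - φ¹` and expand multilinearly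
(`Finset.prod_add`): `T_V(φ) = T_{V'}(φ⁺) + ∑_{S ⊆ ι, |S| ≥ 2} κ_S T_{V'}(φ¹ on S, φ⁺ off S)`, `|κ_S| = |S| - 1`
(the terms `|S| = 1` cancel). The sums `A` of `φ⁺` on `V'` are `A_i(a)`, those of `φ¹` are `A_i(insert v a)`,
bounded by `Γ_i x_v ∏_{p ∈ a} x_p`. Induction hypothesis: `|T_{V'}(ψ) - ∏ A| ≤ ∏ Γ (P_{V'} - 1)`, hence
`|T_{V'}(ψ)| ≤ ∏ Γ P_{V'}`, where `P_V = ∏_{p ∈ V} (1 + 4^k x_p²)`, `k = card ι`. Finally
`∑_{|S| ≥ 2} (|S| - 1) x^{|S|} ≤ x² ∑_S |S| ≤ 4^k x²` for `0 ≤ x ≤ 1`. -/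

set_option autoImplicit false

open Finset

noncomputable section

namespace PGL

/-- the coefficients in the expansion of `1[at most one]` -/
private def kap {ι : Type*} (S : Finset ι) : ℝ := (-1) ^ S.card * (1 - (S.card : ℝ))

private theorem kap_empty {ι : Type*} : kap (∅ : Finset ι) = 1 := by simp [kap]

open Classical in
private theorem sum_kap {ι : Type*} (T : Finset ι) :
    ∑ S ∈ T.powerset, kap S = if T.card ≤ 1 then 1 else 0 := by
  have hE : ∀ T : Finset ι, ∑ S ∈ T.powerset, (-1 : ℝ) ^ S.card = if T = ∅ then 1 else 0 := by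
    intro T
    have h := Finset.sum_powerset_neg_one_pow_card (x := T)
    have h2 : ((∑ m ∈ T.powerset, (-1 : ℤ) ^ m.card : ℤ) : ℝ) =
        (((if T = ∅ then 1 else 0 : ℤ)) : ℝ) := by rw [h]
    push_cast at h2
    exact h2
  rcases T.eq_empty_or_nonempty with rfl | ⟨t, ht⟩
  · simp [kap]
  · obtain ⟨T', hT', rfl⟩ : ∃ T' : Finset ι, t ∉ T' ∧ insert t T' = T :=
      ⟨T.erase t, Finset.notMem_erase t T, Finset.insert_erase ht⟩
    rw [Finset.sum_powerset_insert hT', Finset.card_insert_of_notMem hT']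
    have h1 : ∀ S ∈ T'.powerset, kap (insert t S) = (-1 : ℝ) ^ S.card - kap S := by
      intro S hS
      have h2 : t ∉ S := fun h => hT' (Finset.mem_powerset.1 hS h)
      unfold kap
      rw [Finset.card_insert_of_notMem h2]
      push_cast
      ring
    rw [Finset.sum_congr rfl h1, Finset.sum_sub_distrib, add_sub_cancel, hE]
    have e : (T'.card + 1 ≤ 1) ↔ T' = ∅ := by
      rw [← Finset.card_eq_zero]
      omega
    simp only [e]

open Classical in
private theorem sum_kap' {ι : Type*} [Fintype ι] (T : Finset ι) :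
    ∑ S : Finset ι, kap S * (if S ⊆ T then 1 else 0) = if T.card ≤ 1 then 1 else 0 := by
  rw [← sum_kap T]
  simp only [mul_ite, mul_one, mul_zero]
  rw [← Finset.sum_filter]
  refine Finset.sum_congr ?_ fun _ _ => rfl
  ext S
  simp

private theorem abs_kap {ι : Type*} [Fintype ι] (S : Finset ι) {x : ℝ} (hx0 : 0 ≤ x)
    (hx1 : x ≤ 1) :
    |kap S| * x ^ S.card ≤ (if S.card = 0 then 1 else 0) + 2 ^ Fintype.card ι * x ^ 2 := by
  have hk : (S.card : ℝ) ≤ 2 ^ Fintype.card ι := by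
    have h1 : S.card ≤ Fintype.card ι := Finset.card_le_univ S
    have h2 : Fintype.card ι < 2 ^ Fintype.card ι := Nat.lt_two_pow_self
    exact_mod_cast (h1.trans h2.le)
  have hx2 : 0 ≤ x ^ 2 := sq_nonneg x
  unfold kap
  rw [abs_mul, abs_pow, abs_neg, abs_one, one_pow, one_mul]
  rcases Nat.lt_or_ge S.card 2 with h | h
  · interval_cases hS : S.card
    · simp
      positivity
    · simp
      positivity
  · have hS0 : S.card ≠ 0 := by omega
    rw [if_neg hS0, zero_add]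
    have h3 : (2 : ℝ) ≤ S.card := by exact_mod_cast h
    have h4 : |1 - (S.card : ℝ)| ≤ 2 ^ Fintype.card ι := by
      rw [abs_le]
      constructor <;> linarith
    exact mul_le_mul h4 (pow_le_pow_of_le_one hx0 hx1 h) (by positivity) (by positivity)

open Classical in
private theorem pdj_prod {ι : Type*} [Fintype ι] {V : Finset ℕ} {D : ι → Finset ℕ}
    (hD : ∀ i, D i ⊆ V) :
    (if PDj D then (1 : ℝ) else 0) =
      ∏ p : V, if (univ.filter fun i => (p : ℕ) ∈ D i).card ≤ 1 then (1 : ℝ) else 0 := by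
  rw [Finset.prod_ite_zero]
  have e : PDj D ↔ ∀ p ∈ (univ : Finset V), (univ.filter fun i => (p : ℕ) ∈ D i).card ≤ 1 := by
    constructor
    · intro h p _
      rw [Finset.card_le_one]
      intro a ha b hb
      by_contra hab
      rw [Finset.mem_filter] at ha hb
      exact (Finset.disjoint_left.1 (h a b hab)) ha.2 hb.2
    · intro h i j hij
      rw [Finset.disjoint_left]
      intro p hp hp'
      have h1 := h ⟨p, hD i hp⟩ (Finset.mem_univ _)
      rw [Finset.card_le_one] at h1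
      exact hij (h1 i (by simp [hp]) j (by simp [hp']))
  simp only [e, Finset.prod_const_one]

/-- the primes whose label contains `i` -/
private def aa {ι : Type*} [DecidableEq ι] {V : Finset ℕ} (σ : V → Finset ι) (i : ι) : Finset ℕ :=
  (univ.filter fun p : V => i ∈ σ p).map (Function.Embedding.subtype _)

open Classical in
private theorem prod_swap {ι : Type*} [Fintype ι] {V : Finset ℕ} (σ : V → Finset ι)
    (D : ι → Finset ℕ) :
    ∏ p : V, (if σ p ⊆ univ.filter (fun i => (p : ℕ) ∈ D i) then (1 : ℝ) else 0) =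
      ∏ i, if aa σ i ⊆ D i then (1 : ℝ) else 0 := by
  rw [Finset.prod_ite_zero, Finset.prod_ite_zero]
  have e : (∀ p ∈ (univ : Finset V), σ p ⊆ univ.filter (fun i => (p : ℕ) ∈ D i)) ↔
      ∀ i ∈ (univ : Finset ι), aa σ i ⊆ D i := by
    constructor
    · intro h i _ p hp
      unfold aa at hp
      rw [Finset.mem_map] at hp
      obtain ⟨q, hq, rfl⟩ := hp
      rw [Finset.mem_filter] at hq
      have h1 := h q (Finset.mem_univ _) hq.2
      rw [Finset.mem_filter] at h1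
      exact h1.2
    · intro h p _ i hi
      rw [Finset.mem_filter]
      refine ⟨Finset.mem_univ _, h i (Finset.mem_univ _) ?_⟩
      unfold aa
      rw [Finset.mem_map]
      exact ⟨p, by simp [hi], rfl⟩
  simp only [e, Finset.prod_const_one]

private theorem aa_sub {ι : Type*} [DecidableEq ι] {V : Finset ℕ} (σ : V → Finset ι) (i : ι) :
    aa σ i ⊆ V := by
  intro p hp
  unfold aa at hp
  rw [Finset.mem_map] at hp
  obtain ⟨q, _, rfl⟩ := hp
  exact q.2

open Classical in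
private theorem expand {ι : Type*} [Fintype ι] (V : Finset ℕ) (φ : ι → Finset ℕ → ℝ) :
    TT V φ = ∑ σ : V → Finset ι, (∏ p, kap (σ p)) *
      ∏ i, ∑ S ∈ V.powerset with aa σ i ⊆ S, φ i S := by
  have h1 : TT V φ = ∑ D ∈ Fintype.piFinset fun _ : ι => V.powerset,
      (∏ i, φ i (D i)) * if PDj D then (1 : ℝ) else 0 := by
    unfold TT tup
    rw [Finset.sum_filter]
    refine Finset.sum_congr rfl fun D _ => ?_
    split_ifs <;> simp
  rw [h1]
  have h2 : ∀ D ∈ Fintype.piFinset fun _ : ι => V.powerset,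
      (∏ i, φ i (D i)) * (if PDj D then (1 : ℝ) else 0) =
        ∑ σ : V → Finset ι, (∏ p, kap (σ p)) *
          ∏ i, (φ i (D i) * if aa σ i ⊆ D i then (1 : ℝ) else 0) := by
    intro D hD
    have hD' : ∀ i, D i ⊆ V := fun i => Finset.mem_powerset.1 (Fintype.mem_piFinset.1 hD i)
    rw [pdj_prod hD']
    have h3 : ∀ p ∈ (univ : Finset V),
        (if (univ.filter fun i => (p : ℕ) ∈ D i).card ≤ 1 then (1 : ℝ) else 0) =
          ∑ S ∈ (univ : Finset (Finset ι)),
            kap S * (if S ⊆ univ.filter (fun i => (p : ℕ) ∈ D i) then 1 else 0) := by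
      intro p _
      rw [sum_kap']
    rw [Finset.prod_congr rfl h3, Finset.prod_univ_sum, Fintype.piFinset_univ, Finset.mul_sum]
    refine Finset.sum_congr rfl fun σ _ => ?_
    rw [Finset.prod_mul_distrib, prod_swap, Finset.prod_mul_distrib]
    ring
  rw [Finset.sum_congr rfl h2, Finset.sum_comm]
  refine Finset.sum_congr rfl fun σ _ => ?_
  rw [← Finset.mul_sum]
  congr 1
  have h4 : ∀ i ∈ (univ : Finset ι), ∑ S ∈ V.powerset with aa σ i ⊆ S, φ i S =
      ∑ S ∈ V.powerset, φ i S * (if aa σ i ⊆ S then (1 : ℝ) else 0) := by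
    intro i _
    rw [Finset.sum_filter]
    refine Finset.sum_congr rfl fun S _ => ?_
    split_ifs <;> simp
  rw [Finset.prod_congr rfl h4, Finset.prod_univ_sum]

open Classical in
private theorem prod_aa {ι : Type*} [Fintype ι] {V : Finset ℕ} (σ : V → Finset ι) (x : ℕ → ℝ) :
    ∏ i, ∏ p ∈ aa σ i, x p = ∏ p : V, x p ^ (σ p).card := by
  have h1 : ∀ i ∈ (univ : Finset ι), ∏ p ∈ aa σ i, x p =
      ∏ p : V, if i ∈ σ p then x p else 1 := by
    intro i _
    unfold aa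
    rw [Finset.prod_map, Finset.prod_filter]
    rfl
  rw [Finset.prod_congr rfl h1, Finset.prod_comm]
  refine Finset.prod_congr rfl fun p _ => ?_
  rw [← Finset.prod_filter, Finset.prod_const]
  congr 2
  ext i
  simp

theorem pairwise_disjoint {ι : Type*} [Fintype ι] (V : Finset ℕ) (φ : ι → Finset ℕ → ℝ)
    (Γ : ι → ℝ) (x : ℕ → ℝ) (hΓ : ∀ i, 0 ≤ Γ i) (hx0 : ∀ p, 0 ≤ x p) (hx1 : ∀ p ∈ V, x p ≤ 1)
    (hA : ∀ i, ∀ a ∈ V.powerset, |∑ S ∈ V.powerset with a ⊆ S, φ i S| ≤ Γ i * ∏ p ∈ a, x p) :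
    |TT V φ - ∏ i, ∑ S ∈ V.powerset, φ i S| ≤
      (∏ i, Γ i) * (∏ p ∈ V, (1 + 4 ^ Fintype.card ι * x p ^ 2) - 1) := by
  classical
  set σ0 : V → Finset ι := fun _ => ∅ with hσ0
  have hΓ0 : 0 ≤ ∏ i, Γ i := Finset.prod_nonneg fun i _ => hΓ i
  have e0 : ∏ i, ∑ S ∈ V.powerset, φ i S = (∏ p, kap (σ0 p)) *
      ∏ i, ∑ S ∈ V.powerset with aa σ0 i ⊆ S, φ i S := by
    have h1 : ∀ i, aa σ0 i = ∅ := by
      intro i
      unfold aa
      simp [hσ0]
    have h2 : ∏ p, kap (σ0 p) = 1 := by simp [hσ0, kap_empty]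
    rw [h2, one_mul]
    refine Finset.prod_congr rfl fun i _ => ?_
    rw [h1 i]
    simp
  rw [expand V φ, e0, ← Finset.add_sum_erase _ _ (Finset.mem_univ σ0), add_sub_cancel_left]
  have h2 : ∀ σ : V → Finset ι, |(∏ p, kap (σ p)) *
      ∏ i, ∑ S ∈ V.powerset with aa σ i ⊆ S, φ i S| ≤
        (∏ i, Γ i) * ∏ p, (|kap (σ p)| * x p ^ (σ p).card) := by
    intro σ
    rw [abs_mul, Finset.abs_prod, Finset.abs_prod, Finset.prod_mul_distrib, ← prod_aa]
    have h3 : ∏ i, |∑ S ∈ V.powerset with aa σ i ⊆ S, φ i S| ≤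
        ∏ i, (Γ i * ∏ p ∈ aa σ i, x p) :=
      Finset.prod_le_prod (fun i _ => abs_nonneg _) fun i _ =>
        hA i _ (Finset.mem_powerset.2 (aa_sub σ i))
    rw [Finset.prod_mul_distrib] at h3
    calc (∏ p, |kap (σ p)|) * ∏ i, |∑ S ∈ V.powerset with aa σ i ⊆ S, φ i S| ≤
          (∏ p, |kap (σ p)|) * ((∏ i, Γ i) * ∏ i, ∏ p ∈ aa σ i, x p) :=
          mul_le_mul_of_nonneg_left h3 (Finset.prod_nonneg fun p _ => abs_nonneg _)
      _ = _ := by ring
  refine (Finset.abs_sum_le_sum_abs _ _).trans ((Finset.sum_le_sum fun σ _ => h2 σ).trans ?_)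
  rw [← Finset.mul_sum]
  refine mul_le_mul_of_nonneg_left ?_ hΓ0
  have h4 : ∑ σ : V → Finset ι, ∏ p, (|kap (σ p)| * x p ^ (σ p).card) =
      ∏ p : V, ∑ S : Finset ι, |kap S| * x p ^ S.card := by
    rw [Finset.prod_univ_sum, Fintype.piFinset_univ]
  have h5 : ∏ p : V, (|kap (σ0 p)| * x p ^ (σ0 p).card) = 1 := by
    simp [hσ0, kap_empty]
  have h6 : ∑ σ ∈ (univ : Finset (V → Finset ι)).erase σ0,
      ∏ p, (|kap (σ p)| * x p ^ (σ p).card) =
        ∏ p : V, (∑ S : Finset ι, |kap S| * x p ^ S.card) - 1 := by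
    rw [← h4, ← Finset.add_sum_erase _ _ (Finset.mem_univ σ0), h5, add_sub_cancel_left]
  rw [h6]
  refine sub_le_sub_right ?_ 1
  rw [← Finset.prod_coe_sort V fun p => (1 + 4 ^ Fintype.card ι * x p ^ 2)]
  refine Finset.prod_le_prod (fun p _ => Finset.sum_nonneg fun S _ =>
    mul_nonneg (abs_nonneg _) (pow_nonneg (hx0 p) _)) fun p _ => ?_
  refine (Finset.sum_le_sum fun S _ => abs_kap S (hx0 p) (hx1 p p.2)).trans (le_of_eq ?_)
  rw [Finset.sum_add_distrib, Finset.sum_const, Finset.card_univ, Fintype.card_finset,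
    nsmul_eq_mul]
  have h7 : ∑ S : Finset ι, (if S.card = 0 then (1 : ℝ) else 0) = 1 := by
    simp only [Finset.card_eq_zero]
    simp
  rw [h7]
  push_cast
  have h8 : (4 : ℝ) ^ Fintype.card ι = 2 ^ Fintype.card ι * 2 ^ Fintype.card ι := by
    rw [← mul_pow]
    norm_num
  rw [h8]
  ring

end PGL
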