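import Pool.Agent.PGL.SD
import Pool.Agent.PGL.LM
import Pool.Agent.PGL.GS1

/-! PGL / S1: asymptotics of the sums of products of two step weights over a progression.

PROOF. Let `q = qz (ε log N) D`, `z = ε log N`. `q` divides the primorial of `⌊z⌋₊`, so `q ≤ 4^z ≤ N^(1/8)`
(`primorial_le_four_pow`; `ε log 4 ≤ 1/8`): `q_le`. The primes of `V` are `> z`, so they do not divide `q`; by `Ctx.mem`
they divide no difference of the shifts. `gs1` gives the sum as `N / q * TT` with error at most `∏_i ∑_D |ρ_i(D)|`,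
and `∑_D |ρ_i(D)| ≤ (1 + log N)^4 ∑_{pr D ≤ N^(b_i + b'_i)} 12^|D| ≤ N^(b_i + b'_i) (1 + log N)^16` (`rho_le`,
`rho_supp`, `GV_le`, `om_cnt`), total `≤ N^(1/2) (1 + log N)^(16 k) ≤ (η / 2) N^(7/8) ≤ (η / 2) N / q Γ^k` as
`Γ ≥ 1 / ε ≥ 1` (`Gam_ge`). By `main_term` (`α p = 1 / p`, `k = card ι`)
`|TT - ∏ dia_i| ≤ (C / z) ∏ G_V(N^(b_i)) ≤ (C / z) (2 Γ)^k` (`g_asym` with `η = 1` and `Ctx_card`), and
`|dia_i - ov_i Γ| ≤ η' Γ` (`dia_step`), `0 ≤ ov_i ≤ 1`, so `|∏ dia_i - ∏ ov_i Γ| ≤ Γ^k ((1 + η')^k - 1)` (`prod_pert`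
with `g_i = Γ`, `t = 1 + η'`). -/

set_option autoImplicit false

open Finset

noncomputable section

namespace PGL

theorem qz_pos (y : ℝ) (D : Finset ℕ) : 0 < PGB.qz y D := by
  exact PGB.qz_pos y D

theorem q_le (ε γ : ℝ) (hε : 0 < ε) (hγ : 2 * ε ≤ γ) (N : ℕ) (hN : 1 ≤ N) (D : Finset ℕ) :
    (PGB.qz (ε * Real.log N) D : ℝ) ≤ (N : ℝ) ^ γ := by
  have hN1 : (1 : ℝ) ≤ N := by exact_mod_cast hN
  have hL : 0 ≤ Real.log N := Real.log_nonneg hN1
  have h1 : PGB.qz (ε * Real.log N) D ≤ primorial ⌊ε * Real.log N⌋₊ := by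
    unfold PGB.qz primorial
    refine Finset.prod_le_prod_of_subset_of_one_le' ?_ ?_
    · intro p hp
      rw [mem_filter] at hp ⊢
      exact ⟨hp.1, hp.2.1⟩
    · intro p hp _
      exact (mem_filter.1 hp).2.one_le
  have h2 : PGB.qz (ε * Real.log N) D ≤ 4 ^ ⌊ε * Real.log N⌋₊ := h1.trans (primorial_le_four_pow _)
  have h3 : (PGB.qz (ε * Real.log N) D : ℝ) ≤ (4 : ℝ) ^ ⌊ε * Real.log N⌋₊ := by exact_mod_cast h2
  refine h3.trans ?_
  have h4 : ((⌊ε * Real.log N⌋₊ : ℕ) : ℝ) ≤ ε * Real.log N := Nat.floor_le (by positivity)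
  rw [← Real.rpow_natCast]
  have h5 : (4 : ℝ) ^ ((⌊ε * Real.log N⌋₊ : ℕ) : ℝ) ≤ (4 : ℝ) ^ (ε * Real.log N) :=
    Real.rpow_le_rpow_of_exponent_le (by norm_num) h4
  refine h5.trans ?_
  rw [Real.rpow_def_of_pos (by norm_num : (0 : ℝ) < 4), Real.rpow_def_of_pos (by linarith : (0 : ℝ) < N)]
  refine Real.exp_le_exp.2 ?_
  have h6 : Real.log 4 ≤ 2 := by
    have h7 : Real.log 4 = 2 * Real.log 2 := by
      rw [show (4 : ℝ) = 2 ^ 2 by norm_num, Real.log_pow]
      norm_num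
    have h8 := Real.log_two_lt_d9
    rw [h7]
    linarith
  have h7 : Real.log 4 * ε ≤ γ := by nlinarith
  calc Real.log 4 * (ε * Real.log N) = Real.log N * (Real.log 4 * ε) := by ring
    _ ≤ Real.log N * γ := mul_le_mul_of_nonneg_left h7 hL

theorem q_cop {y : ℝ} {D : Finset ℕ} {p : ℕ} (hp : p.Prime) (hy : 0 ≤ y) (h : y < p) : ¬ p ∣ PGB.qz y D := by
  intro hd
  have h1 := ((PGB.dvd_qz hy hp).1 hd).1
  linarith

private theorem s1_GV_nonneg {V : Finset ℕ} (hV : Big V 1) (R : ℝ) : 0 ≤ GV V R := by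
  refine Finset.sum_nonneg fun B hB => ?_
  rw [mem_filter, mem_powerset] at hB
  refine one_div_nonneg.2 (Finset.prod_nonneg fun p hp => ?_)
  have h1 : (1 : ℝ) < p := (hV p (hB.1 hp)).2
  linarith

/-- the bound for the sums of the coefficients -/
theorem rho_l1 (V : Finset ℕ) (hV : Big V 1) (N : ℕ) (hN : 1 ≤ N) (a b a' b' : ℝ) (hb : 0 ≤ b) (hb1 : b ≤ 1)
    (hb' : 0 ≤ b') (hb1' : b' ≤ 1) :
    ∑ D ∈ V.powerset, |rho V (ys N a b) (ys N a' b') D| ≤ (N : ℝ) ^ (b + b') * (1 + 2 * Real.log N) ^ 16 := by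
  have hN1 : (1 : ℝ) ≤ N := by exact_mod_cast hN
  have hN0 : (0 : ℝ) < N := by linarith
  have hL : 0 ≤ Real.log N := Real.log_nonneg hN1
  have hR : (1 : ℝ) ≤ (N : ℝ) ^ b := Real.one_le_rpow hN1 hb
  have hR' : (1 : ℝ) ≤ (N : ℝ) ^ b' := Real.one_le_rpow hN1 hb'
  have hx : (1 : ℝ) ≤ (N : ℝ) ^ (b + b') := Real.one_le_rpow hN1 (by linarith)
  have hlR : Real.log ((N : ℝ) ^ b) ≤ 2 * Real.log N := by
    rw [Real.log_rpow hN0]
    nlinarith
  have hlR' : Real.log ((N : ℝ) ^ b') ≤ 2 * Real.log N := by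
    rw [Real.log_rpow hN0]
    nlinarith
  have hlx : Real.log ((N : ℝ) ^ (b + b')) ≤ 2 * Real.log N := by
    rw [Real.log_rpow hN0]
    nlinarith
  have hT : (0 : ℝ) ≤ 1 + 2 * Real.log N := by linarith
  have hG : GV V ((N : ℝ) ^ b) ≤ (1 + 2 * Real.log N) ^ 2 :=
    (GV_le V hV hR).trans (pow_le_pow_left₀ (by have := Real.log_nonneg hR; linarith) (by linarith) 2)
  have hG' : GV V ((N : ℝ) ^ b') ≤ (1 + 2 * Real.log N) ^ 2 :=
    (GV_le V hV hR').trans (pow_le_pow_left₀ (by have := Real.log_nonneg hR'; linarith) (by linarith) 2)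
  have hGG : GV V ((N : ℝ) ^ b) * GV V ((N : ℝ) ^ b') ≤
      (1 + 2 * Real.log N) ^ 2 * (1 + 2 * Real.log N) ^ 2 :=
    mul_le_mul hG hG' (s1_GV_nonneg hV _) (by positivity)
  have h1 : ∀ D ∈ V.powerset, |rho V (ys N a b) (ys N a' b') D| ≤
      if (pr D : ℝ) ≤ (N : ℝ) ^ (b + b') then
        ((12 : ℕ) : ℝ) ^ D.card * ((1 + 2 * Real.log N) ^ 2 * (1 + 2 * Real.log N) ^ 2) else 0 := by
    intro D hD
    split_ifs with hc
    · have h2 := rho_le V hV zero_le_one zero_le_one (ys_Bd N a b) (ys_Bd N a' b') D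
      refine h2.trans ?_
      rw [one_mul, one_mul]
      push_cast
      exact mul_le_mul_of_nonneg_left hGG (by positivity)
    · have h3 : rho V (ys N a b) (ys N a' b') D = 0 := by
        by_contra h0
        have h4 := (rho_supp V hV (ys_Bd N a b) (ys_Bd N a' b') (by linarith) (by linarith) h0).2
        rw [← Real.rpow_add hN0] at h4
        exact hc h4
      rw [h3, abs_zero]
  refine (Finset.sum_le_sum h1).trans ?_
  rw [← Finset.sum_filter, ← Finset.sum_mul]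
  have h5 := om_cnt 12 V hV hx
  have h6 : (1 + Real.log ((N : ℝ) ^ (b + b'))) ^ 12 ≤ (1 + 2 * Real.log N) ^ 12 :=
    pow_le_pow_left₀ (by have := Real.log_nonneg hx; linarith) (by linarith) 12
  calc (∑ B ∈ V.powerset with (pr B : ℝ) ≤ (N : ℝ) ^ (b + b'), ((12 : ℕ) : ℝ) ^ B.card) *
        ((1 + 2 * Real.log N) ^ 2 * (1 + 2 * Real.log N) ^ 2)
      ≤ ((N : ℝ) ^ (b + b') * (1 + 2 * Real.log N) ^ 12) *
        ((1 + 2 * Real.log N) ^ 2 * (1 + 2 * Real.log N) ^ 2) :=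
        mul_le_mul_of_nonneg_right (h5.trans (mul_le_mul_of_nonneg_left h6 (by linarith)))
          (by positivity)
    _ = (N : ℝ) ^ (b + b') * (1 + 2 * Real.log N) ^ 16 := by ring

private theorem ov_nonneg (a b a' b' : ℝ) : 0 ≤ ov a b a' b' := le_max_left _ _

private theorem ov_le_one {a b a' b' : ℝ} (h : b ≤ 1) : ov a b a' b' ≤ 1 := by
  unfold ov
  refine max_le zero_le_one ?_
  have h1 : min b b' ≤ b := min_le_left _ _
  have h2 : 0 ≤ max (max a a') 0 := le_max_right _ _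
  linarith

/-- powers of the logarithm are small -/
private theorem s1_log_small (k : ℕ) (η : ℝ) (hη : 0 < η) : ∀ᶠ N : ℕ in Filter.atTop,
    (N : ℝ) ^ (1 / 2 : ℝ) * (1 + 2 * Real.log N) ^ (16 * k) ≤ η * (N : ℝ) ^ (7 / 8 : ℝ) := by
  have h1 := (isLittleO_log_rpow_rpow_atTop ((16 * k : ℕ) : ℝ) (show (0 : ℝ) < 3 / 8 by norm_num)).def
    (show (0 : ℝ) < η / 4 ^ (16 * k) by positivity)
  have h3 : ∀ᶠ x : ℝ in Filter.atTop, x ^ (1 / 2 : ℝ) * (1 + 2 * Real.log x) ^ (16 * k) ≤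
      η * x ^ (7 / 8 : ℝ) := by
    filter_upwards [h1, Filter.eventually_ge_atTop (Real.exp 1)] with x h2 h3
    have hx0 : 0 < x := (Real.exp_pos 1).trans_le h3
    have hl : 1 ≤ Real.log x := by
      rw [Real.le_log_iff_exp_le hx0]
      exact h3
    rw [Real.rpow_natCast, Real.norm_of_nonneg (by positivity), Real.norm_of_nonneg (by positivity)] at h2
    have h4 : (1 + 2 * Real.log x) ^ (16 * k) ≤ 4 ^ (16 * k) * Real.log x ^ (16 * k) := by
      rw [← mul_pow]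
      exact pow_le_pow_left₀ (by linarith) (by linarith) _
    have h5 : (1 + 2 * Real.log x) ^ (16 * k) ≤ η * x ^ (3 / 8 : ℝ) := by
      refine h4.trans ?_
      calc (4 : ℝ) ^ (16 * k) * Real.log x ^ (16 * k)
          ≤ 4 ^ (16 * k) * (η / 4 ^ (16 * k) * x ^ (3 / 8 : ℝ)) :=
            mul_le_mul_of_nonneg_left h2 (by positivity)
        _ = η * x ^ (3 / 8 : ℝ) := by
            field_simp
    calc x ^ (1 / 2 : ℝ) * (1 + 2 * Real.log x) ^ (16 * k)
        ≤ x ^ (1 / 2 : ℝ) * (η * x ^ (3 / 8 : ℝ)) := mul_le_mul_of_nonneg_left h5 (by positivity)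
      _ = η * (x ^ (1 / 2 : ℝ) * x ^ (3 / 8 : ℝ)) := by ring
      _ = η * x ^ (7 / 8 : ℝ) := by
          rw [← Real.rpow_add hx0]
          norm_num
  exact tendsto_natCast_atTop_atTop.eventually h3

private theorem ev_of {P : ℕ → Prop} (h : ∃ N₀ : ℕ, ∀ N : ℕ, N₀ ≤ N → P N) :
    ∀ᶠ N : ℕ in Filter.atTop, P N := Filter.eventually_atTop.2 h

/-- a small `t` with `t ^ k` close to `1` -/
private theorem s1_root (k : ℕ) (η : ℝ) (hη : 0 < η) : ∃ t : ℝ, 0 < t ∧ (1 + t) ^ k - 1 ≤ η := by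
  have h1 : Filter.Tendsto (fun t : ℝ => (1 + t) ^ k - 1) (nhdsWithin 0 (Set.Ioi 0)) (nhds 0) := by
    have h2 : Continuous fun t : ℝ => (1 + t) ^ k - 1 := by fun_prop
    have h3 := h2.tendsto 0
    simp only [add_zero, one_pow, sub_self] at h3
    exact h3.mono_left nhdsWithin_le_nhds
  have h4 := (h1.eventually_le_const hη).and self_mem_nhdsWithin
  obtain ⟨t, ht, ht0⟩ := h4.exists
  exact ⟨t, ht0, ht⟩

theorem s1 {ι : Type} [Fintype ι] (ε C η : ℝ) (hε : 0 < ε) (hε1 : ε ≤ 1 / 16) (hη : 0 < η) (a b a' b' : ι → ℝ)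
    (hst : ∀ i, St (a i) (b i)) (hst' : ∀ i, St (a' i) (b' i)) (hlev : ∑ i, (b i + b' i) ≤ 1 / 2) :
    ∃ N₀ : ℕ, ∀ N : ℕ, N₀ ≤ N → ∀ (D D' V : Finset ℕ) (h : ι → ℕ) (c : ℕ), Ctx ε C N D D' V h c →
      |∑ n ∈ (Ioc N (2 * N)).filter (· ≡ c [MOD PGB.qz (ε * Real.log N) D]),
          ∏ i, (Lam V (ys N (a i) (b i)) (n + h i) * Lam V (ys N (a' i) (b' i)) (n + h i)) -
        N / (PGB.qz (ε * Real.log N) D : ℝ) * Gam ε N ^ Fintype.card ι * ∏ i, ov (a i) (b i) (a' i) (b' i)| ≤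
        η * (N / (PGB.qz (ε * Real.log N) D : ℝ) * Gam ε N ^ Fintype.card ι) := by
  set k := Fintype.card ι with hk
  obtain ⟨C₁, hC₁, hmain⟩ := main_term k
  obtain ⟨t, ht, htk⟩ := s1_root k (η / 4) (by positivity)
  have e1 := ev_of (Ctx_card (ι := ι) ε C hε)
  have e2 := Filter.eventually_all.2 fun i : ι =>
    ev_of (g_asym ε 1 (b i) (1 + k ^ 2) hε one_pos (hst i).2.2.1 (hst i).2.2.2)
  have e3 := Filter.eventually_all.2 fun i : ι =>
    ev_of (dia_step (ι := ι) ε C t (a i) (b i) (a' i) (b' i) hε ht (hst i) (hst' i))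
  have e4 := ev_of (Gam_ge ε hε)
  have e5 := s1_log_small k (η / 4) (by positivity)
  have hzt : Filter.Tendsto (fun N : ℕ => ε * Real.log N) Filter.atTop Filter.atTop :=
    (Real.tendsto_log_atTop.comp tendsto_natCast_atTop_atTop).const_mul_atTop hε
  have e6 := hzt.eventually_ge_atTop (max 1 (max C₁ (C₁ * 2 ^ k / (η / 4))))
  have e7 := Filter.eventually_ge_atTop (1 : ℕ)
  refine Filter.eventually_atTop.1 ?_
  filter_upwards [e1, e2, e3, e4, e5, e6, e7] with N e1 e2 e3 e4 e5 e6 e7 D D' V h c hctx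
  obtain ⟨hVN, hcard⟩ := e1 D D' V h c hctx
  rw [max_le_iff, max_le_iff] at e6
  obtain ⟨hz1, hzC, hzη⟩ := e6
  set z : ℝ := ε * Real.log N with hz
  set Γ : ℝ := Gam ε N with hΓdef
  have hN1 : (1 : ℝ) ≤ N := by exact_mod_cast e7
  have hN0 : (0 : ℝ) < N := by linarith
  have hL : 0 ≤ Real.log N := Real.log_nonneg hN1
  have hz0 : 0 < z := by linarith
  have hΓ1 : 1 ≤ Γ := by
    refine le_trans ?_ e4
    rw [le_div_iff₀ hε]
    linarith
  have hΓ0 : 0 < Γ := by linarith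
  set q : ℕ := PGB.qz z D with hq
  have hq0 : 0 < q := qz_pos z D
  have hqR : (0 : ℝ) < q := by exact_mod_cast hq0
  have hqN : (q : ℝ) ≤ (N : ℝ) ^ (1 / 8 : ℝ) := q_le ε (1 / 8) hε (by linarith) N e7 D
  have hbig : Big V z := by
    intro p hp
    have h1 := ((hctx.mem p).1 hp).1
    unfold VN at h1
    exact (mem_filter.1 h1).2
  have hbig1 : Big V 1 := fun p hp => ⟨(hbig p hp).1, by linarith [(hbig p hp).2]⟩
  have hVprime : ∀ p ∈ V, p.Prime := fun p hp => (hbig p hp).1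
  -- the first step
  have s1' := gs1 V hVprime q N c hq0 (fun p hp => q_cop (hbig p hp).1 hz0.le (hbig p hp).2) h
    (fun p hp => ((hctx.mem p).1 hp).2.2) (fun i => ys N (a i) (b i)) (fun i => ys N (a' i) (b' i))
  -- the error of the first step
  have hErr : ∏ i, ∑ D ∈ V.powerset, |rho V (ys N (a i) (b i)) (ys N (a' i) (b' i)) D| ≤
      η / 4 * (N / q * Γ ^ k) := by
    calc ∏ i, ∑ D ∈ V.powerset, |rho V (ys N (a i) (b i)) (ys N (a' i) (b' i)) D|
        ≤ ∏ i : ι, ((N : ℝ) ^ (b i + b' i) * (1 + 2 * Real.log N) ^ 16) :=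
          Finset.prod_le_prod (fun i _ => Finset.sum_nonneg fun D _ => abs_nonneg _) fun i _ =>
            rho_l1 V hbig1 N e7 _ _ _ _ (hst i).2.2.1.le (hst i).2.2.2 (hst' i).2.2.1.le (hst' i).2.2.2
      _ = (N : ℝ) ^ (∑ i, (b i + b' i)) * (1 + 2 * Real.log N) ^ (16 * k) := by
          rw [Finset.prod_mul_distrib, Finset.prod_const, Finset.card_univ, ← pow_mul,
            Real.rpow_sum_of_pos hN0]
      _ ≤ (N : ℝ) ^ (1 / 2 : ℝ) * (1 + 2 * Real.log N) ^ (16 * k) :=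
          mul_le_mul_of_nonneg_right (Real.rpow_le_rpow_of_exponent_le hN1 hlev) (by positivity)
      _ ≤ η / 4 * (N : ℝ) ^ (7 / 8 : ℝ) := e5
      _ ≤ η / 4 * (N / q * Γ ^ k) := by
          refine mul_le_mul_of_nonneg_left ?_ (by positivity)
          have h1 : (N : ℝ) ^ (7 / 8 : ℝ) ≤ N / q := by
            rw [le_div_iff₀ hqR]
            calc (N : ℝ) ^ (7 / 8 : ℝ) * q ≤ (N : ℝ) ^ (7 / 8 : ℝ) * (N : ℝ) ^ (1 / 8 : ℝ) :=
                  mul_le_mul_of_nonneg_left hqN (by positivity)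
              _ = N := by
                  rw [← Real.rpow_add hN0]
                  norm_num
          have h2 : (1 : ℝ) ≤ Γ ^ k := one_le_pow₀ hΓ1
          calc (N : ℝ) ^ (7 / 8 : ℝ) ≤ N / q := h1
            _ = N / q * 1 := (mul_one _).symm
            _ ≤ N / q * Γ ^ k := mul_le_mul_of_nonneg_left h2 (by positivity)
  -- the main term
  have hM1 : |TT V (fun i D => rho V (ys N (a i) (b i)) (ys N (a' i) (b' i)) D *
      al (fun p => 1 / (p : ℝ)) D) - ∏ i, dia V (ys N (a i) (b i)) (ys N (a' i) (b' i))| ≤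
      η / 4 * Γ ^ k := by
    have h1 := hmain (ι := ι) rfl V z hzC hbig (fun p => 1 / (p : ℝ)) (fun p hp => by
      have hp1 : (1 : ℝ) < p := by linarith [(hbig p hp).2]
      refine ⟨by positivity, ?_, ?_⟩
      · rw [div_le_one (by linarith)]
        linarith
      · rw [mul_one_div_cancel (by linarith), sub_self, abs_zero]
        positivity) (fun i => ys N (a i) (b i)) (fun i => ys N (a' i) (b' i))
      (fun i => (N : ℝ) ^ (b i)) (fun i => (N : ℝ) ^ (b' i)) (fun i => ys_Bd N _ _) (fun i => ys_Bd N _ _)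
    refine h1.trans ?_
    have h2 : ∏ i, GV V ((N : ℝ) ^ (b i)) ≤ (2 * Γ) ^ k := by
      calc ∏ i, GV V ((N : ℝ) ^ (b i)) ≤ ∏ _i : ι, (2 * Γ) :=
            Finset.prod_le_prod (fun i _ => s1_GV_nonneg hbig1 _) fun i _ => by
              have h3 := (abs_le.1 (e2 i V hVN hcard)).2
              have h4 := (hst i).2.2.2
              nlinarith
        _ = (2 * Γ) ^ k := by rw [Finset.prod_const, Finset.card_univ]
    calc C₁ / z * ∏ i, GV V ((N : ℝ) ^ (b i)) ≤ C₁ / z * (2 * Γ) ^ k :=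
          mul_le_mul_of_nonneg_left h2 (by positivity)
      _ = C₁ * 2 ^ k / z * Γ ^ k := by
          rw [mul_pow]
          ring
      _ ≤ η / 4 * Γ ^ k := by
          refine mul_le_mul_of_nonneg_right ?_ (by positivity)
          rw [div_le_iff₀ hz0]
          rw [div_le_iff₀ (by positivity)] at hzη
          linarith
  have hM2 : |∏ i, dia V (ys N (a i) (b i)) (ys N (a' i) (b' i)) -
      Γ ^ k * ∏ i, ov (a i) (b i) (a' i) (b' i)| ≤ η / 4 * Γ ^ k := by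
    have h1 := prod_pert (Finset.univ : Finset ι) (fun i => dia V (ys N (a i) (b i)) (ys N (a' i) (b' i)))
      (fun i => ov (a i) (b i) (a' i) (b' i) * Γ) (fun _ => Γ) (t := 1 + t) (by linarith)
      (fun i _ => by
        have h2 := ov_nonneg (a i) (b i) (a' i) (b' i)
        have h3 := ov_le_one (a := a i) (a' := a' i) (b' := b' i) (hst i).2.2.2
        show |ov (a i) (b i) (a' i) (b' i) * Γ| ≤ Γ
        rw [abs_of_nonneg (by positivity)]
        nlinarith)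
      (fun i _ => by
        have h2 := e3 i D D' V h c hctx
        show _ ≤ Γ * (1 + t - 1)
        rw [add_sub_cancel_left, mul_comm Γ t]
        exact h2)
    rw [Finset.prod_mul_distrib, Finset.prod_const, Finset.card_univ] at h1
    rw [mul_comm (Γ ^ k)]
    refine h1.trans ?_
    rw [mul_comm]
    exact mul_le_mul_of_nonneg_right htk (by positivity)
  have hNq : (0 : ℝ) ≤ N / q := by positivity
  -- assembly
  have h1 : |(N : ℝ) / q * TT V (fun i D => rho V (ys N (a i) (b i)) (ys N (a' i) (b' i)) D *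
      al (fun p => 1 / (p : ℝ)) D) - N / q * ∏ i, dia V (ys N (a i) (b i)) (ys N (a' i) (b' i))| ≤
      N / q * (η / 4 * Γ ^ k) := by
    rw [← mul_sub, abs_mul, abs_of_nonneg hNq]
    exact mul_le_mul_of_nonneg_left hM1 hNq
  have h2 : |(N : ℝ) / q * ∏ i, dia V (ys N (a i) (b i)) (ys N (a' i) (b' i)) -
      N / q * Γ ^ k * ∏ i, ov (a i) (b i) (a' i) (b' i)| ≤ N / q * (η / 4 * Γ ^ k) := by
    rw [mul_assoc, ← mul_sub, abs_mul, abs_of_nonneg hNq]
    exact mul_le_mul_of_nonneg_left hM2 hNq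
  have h3 := s1'.trans hErr
  have h4 : 0 ≤ (N : ℝ) / q * Γ ^ k := by positivity
  have h5 : N / q * (η / 4 * Γ ^ k) = η / 4 * (N / q * Γ ^ k) := by ring
  rw [h5] at h1 h2
  rw [abs_le] at h1 h2 h3 ⊢
  constructor <;> nlinarith [h1.1, h1.2, h2.1, h2.2, h3.1, h3.2]

end PGL
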