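import Pool.Agent.PGL.Defs

/-! PGL / TU: sums over tuples, collected according to the union.

PROOF. A pairwise disjoint tuple `(D_i)` with union `B` is a map `B → ι`: there are `(card ι)^|B|` of them. For such
a tuple with `∏ g_i(D_i) ≠ 0` we have `pr B = ∏ pr (D_i) ≤ ∏ Q_i`, and `∏ g_i(D_i) ≤ ∏ G_i 12^(∑ |D_i|) = ∏ G_i 12^|B|`.
Use `Finset.sum_fiberwise_of_maps_to` with the map `D ↦ univ.biUnion D` into `V.powerset`. -/

set_option autoImplicit false

open Finset

noncomputable section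

namespace PGL

theorem tup_fiber {ι : Type*} [Fintype ι] (V B : Finset ℕ) (hB : B ⊆ V) :
    ((tup ι V).filter (fun D => univ.biUnion D = B)).card = Fintype.card ι ^ B.card := by
  classical
  have h0 : Fintype.card ι ^ B.card = (univ : Finset ({x // x ∈ B} → ι)).card := by
    rw [Finset.card_univ, Fintype.card_fun, Fintype.card_coe]
  rw [h0]
  symm
  have hm : ∀ (f : {x // x ∈ B} → ι) (i : ι) (p : ℕ),
      p ∈ (univ.filter (fun x => f x = i)).map (Function.Embedding.subtype (· ∈ B)) ↔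
        ∃ h : p ∈ B, f ⟨p, h⟩ = i := by
    intro f i p
    simp
  refine Finset.card_bij (fun f _ i => (univ.filter (fun x => f x = i)).map
    (Function.Embedding.subtype (· ∈ B))) (fun f _ => ?_) (fun f _ g _ h => ?_) fun D hD => ?_
  · rw [mem_filter, mem_tup]
    refine ⟨⟨fun i p hp => ?_, fun i j hij => ?_⟩, ?_⟩
    · obtain ⟨h, -⟩ := (hm f i p).1 hp
      exact hB h
    · rw [Finset.disjoint_left]
      intro p hp hp'
      obtain ⟨h, h1⟩ := (hm f i p).1 hp
      obtain ⟨h', h2⟩ := (hm f j p).1 hp'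
      exact hij (h1.symm.trans h2)
    · ext p
      rw [mem_biUnion]
      constructor
      · rintro ⟨i, -, hp⟩
        obtain ⟨h, -⟩ := (hm f i p).1 hp
        exact h
      · intro h
        exact ⟨f ⟨p, h⟩, mem_univ _, (hm f _ p).2 ⟨h, rfl⟩⟩
  · funext x
    have h1 : x.1 ∈ (univ.filter (fun z => f z = f x)).map (Function.Embedding.subtype (· ∈ B)) :=
      (hm f _ _).2 ⟨x.2, rfl⟩
    have h2 := congrFun h (f x)
    change (univ.filter (fun z => f z = f x)).map (Function.Embedding.subtype (· ∈ B)) =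
      (univ.filter (fun z => g z = f x)).map (Function.Embedding.subtype (· ∈ B)) at h2
    rw [h2] at h1
    obtain ⟨h3, h4⟩ := (hm g _ _).1 h1
    exact h4.symm
  · rw [mem_filter, mem_tup] at hD
    obtain ⟨⟨h1, h2⟩, h3⟩ := hD
    have h4 : ∀ x : {x // x ∈ B}, ∃ i, x.1 ∈ D i := by
      intro x
      have h5 : ∀ p ∈ B, ∃ i, p ∈ D i := by
        intro p hp
        rw [← h3, mem_biUnion] at hp
        obtain ⟨i, -, hi⟩ := hp
        exact ⟨i, hi⟩
      exact h5 x.1 x.2
    choose f hf using h4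
    refine ⟨f, mem_univ _, ?_⟩
    funext i
    ext p
    rw [hm]
    constructor
    · rintro ⟨h, rfl⟩
      exact hf ⟨p, h⟩
    · intro hp
      have h : p ∈ B := by
        rw [← h3, mem_biUnion]
        exact ⟨i, mem_univ _, hp⟩
      refine ⟨h, ?_⟩
      by_contra hne
      exact Finset.disjoint_left.1 (h2 _ _ hne) (hf ⟨p, h⟩) hp

theorem tup_union {ι : Type*} [Fintype ι] (V : Finset ℕ) (hV : Big V 1) (g : ι → Finset ℕ → ℝ) (G Q : ι → ℝ)
    (F : Finset ℕ → ℝ) (hF : ∀ B ⊆ V, 0 ≤ F B) (hg0 : ∀ i D, 0 ≤ g i D) (hg : ∀ i D, g i D ≤ G i * 12 ^ D.card)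
    (hG : ∀ i, 0 ≤ G i) (hQ : ∀ i D, g i D ≠ 0 → (pr D : ℝ) ≤ Q i) (hQ0 : ∀ i, 0 ≤ Q i) :
    ∑ D ∈ tup ι V, (∏ i, g i (D i)) * F (univ.biUnion D) ≤
      (∏ i, G i) * ∑ B ∈ V.powerset with (pr B : ℝ) ≤ ∏ i, Q i,
        ((12 * Fintype.card ι : ℕ) : ℝ) ^ B.card * F B := by
  classical
  have hmap : ∀ D ∈ tup ι V, univ.biUnion D ∈ V.powerset := by
    intro D hD
    rw [mem_powerset]
    intro p hp
    rw [mem_biUnion] at hp
    obtain ⟨i, -, hi⟩ := hp
    exact (mem_tup.1 hD).1 i hi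
  rw [← Finset.sum_fiberwise_of_maps_to hmap, Finset.sum_filter, Finset.mul_sum]
  refine Finset.sum_le_sum fun B hB => ?_
  rw [mem_powerset] at hB
  have hpd : ∀ D ∈ tup ι V, Set.PairwiseDisjoint (↑(univ : Finset ι)) D := by
    intro D hD i _ j _ hij
    exact (mem_tup.1 hD).2 i j hij
  by_cases hpr : (pr B : ℝ) ≤ ∏ i, Q i
  · rw [if_pos hpr]
    calc ∑ D ∈ tup ι V with univ.biUnion D = B, (∏ i, g i (D i)) * F (univ.biUnion D)
        ≤ ∑ D ∈ tup ι V with univ.biUnion D = B, (∏ i, G i) * 12 ^ B.card * F B := by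
          refine Finset.sum_le_sum fun D hD => ?_
          rw [mem_filter] at hD
          rw [hD.2]
          refine mul_le_mul_of_nonneg_right ?_ (hF B hB)
          calc ∏ i, g i (D i) ≤ ∏ i, (G i * 12 ^ (D i).card) :=
                Finset.prod_le_prod (fun i _ => hg0 i _) fun i _ => hg i _
            _ = (∏ i, G i) * 12 ^ B.card := by
                rw [Finset.prod_mul_distrib, Finset.prod_pow_eq_pow_sum,
                  ← Finset.card_biUnion (fun i _ j _ hij => (mem_tup.1 hD.1).2 i j hij), hD.2]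
      _ = (∏ i, G i) * (((12 * Fintype.card ι : ℕ) : ℝ) ^ B.card * F B) := by
          rw [Finset.sum_const, tup_fiber V B hB, nsmul_eq_mul]
          push_cast
          rw [mul_pow]
          ring
  · rw [if_neg hpr, mul_zero]
    refine le_of_eq (Finset.sum_eq_zero fun D hD => ?_)
    rw [mem_filter] at hD
    by_contra hne
    apply hpr
    have h1 : ∏ i, g i (D i) ≠ 0 := left_ne_zero_of_mul hne
    rw [Finset.prod_ne_zero_iff] at h1
    have h2 : (pr B : ℝ) = ∏ i, (pr (D i) : ℝ) := by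
      rw [← hD.2]
      unfold pr
      rw [Finset.prod_biUnion (hpd D hD.1)]
      push_cast
      rfl
    rw [h2]
    exact Finset.prod_le_prod (fun i _ => Nat.cast_nonneg _) fun i hi => hQ i _ (h1 i hi)

end PGL
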