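import Pool.Agent.PGL.S1
import Pool.Agent.PGL.TU
import Pool.Agent.PGL.ET
import Pool.Agent.Helper6.PNT

/-! PGL / S2: asymptotics of the sums of products of two step weights over the primes of a progression.

PROOF. `psi_asym`: `Psi N 1 0 = ψ(2N) - ψ(N) ~ N` by the prime number theorem (`psi_ap` of `Helper6.PNT` with `q = 1`).
`s2`: let `k = card ι`, `A` from `et` with `δ`, `K = 12 k`, `A₁ = 8 k + 2`. Extend the data by `y i₀ = y' i₀ = dl`
(`Lam_dl`: the product over all `i` equals the product over `univ.erase i₀`). `gs2` with `q = qz (ε log N) D`,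
`E r = ER N q r` (`ER_ge`): the sum is `Psi N 1 0 / φ(q) * TT` up to
`∑_{D ∈ tup} (∏ |ρ_i(D_i)|) (ER N q (pr (⋃ D_i)) + SE N (h i₀))`, by `tup_union` with
`g_i D = |ρ_i(D)| ≤ 12^|D| G_V(N^(b_i)) G_V(N^(b'_i)) ≤ 12^|D| (1 + log N)^4` (`i ≠ i₀`), `Q_i = N^(b_i + b'_i)`, and
`G = 1`, `Q = 1` for `i₀` (`rho_dl`): at most `(1 + log N)^(4k) ∑_{pr B ≤ N^(1/2-δ)} K^|B| (ER + SE)
≤ (1 + log N)^(4k) N / (φ(q) (log N)^(8k+2)) ≤ (η / 4) N / φ(q)`; hypothesis of `et`: `MB` with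
`R = {pr B : B ⊆ V, pr B ≤ N^(1/2-δ)}` (`pr_inj`; `pr B` is squarefree, coprime to `q` and to `D`), where `a` may be
changed outside; `h i₀ ≤ C log N ≤ √N`, `q ≤ N^(δ/4)` (`q_le`, `2 ε ≤ δ / 4`). Main term: `main_term` with
`α p = 1 / (p - 1)` (`|p α p - 1| = 1 / (p - 1) ≤ 2 / p`), `R_i = N^(b_i)`, `R_{i₀} = 1` (`dl_Bd`, `G_V(1) = 1`,
`dia V dl dl = 1`), then as in `s1` with `k - 1` factors. `Psi N 1 0 = (1 + o(1)) N`. `Γ ≥ 1`. -/

set_option autoImplicit false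

open Finset

noncomputable section

namespace PGL

/-- the statement of `PGB.mbv` for one `D` -/
def MB (δ A ε : ℝ) (N : ℕ) (D : Finset ℕ) : Prop :=
  ∀ (R : Finset ℕ), (∀ r ∈ R, Squarefree r ∧ (r : ℝ) ≤ (N : ℝ) ^ (1 / 2 - δ) ∧
      r.Coprime (PGB.qz (ε * Real.log N) D) ∧ ∀ p ∈ D, ¬ p ∣ r) →
    ∀ a : ℕ → ℕ, (∀ r ∈ R, (a r).Coprime (PGB.qz (ε * Real.log N) D * r)) →
      ∑ r ∈ R, |PGB.Psi N (PGB.qz (ε * Real.log N) D * r) (a r) -
          PGB.Psi N 1 0 / (Nat.totient (PGB.qz (ε * Real.log N) D * r) : ℝ)| ≤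
        N / ((Nat.totient (PGB.qz (ε * Real.log N) D) : ℝ) * Real.log N ^ A)

private theorem psi_full (N : ℕ) : PGB.Psi N 1 0 =
    ∑ n ∈ Icc 1 (2 * N), ArithmeticFunction.vonMangoldt n -
      ∑ n ∈ Icc 1 N, ArithmeticFunction.vonMangoldt n := by
  unfold PGB.Psi
  have h1 : (Ioc N (2 * N)).filter (fun n => n ≡ 0 [MOD 1]) = Ioc N (2 * N) :=
    filter_true_of_mem fun n _ => Nat.modEq_one
  rw [h1]
  have h2 : Icc 1 (2 * N) = Icc 1 N ∪ Ioc N (2 * N) := by
    ext x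
    simp only [mem_Icc, mem_union, mem_Ioc]
    omega
  have h3 : Disjoint (Icc 1 N) (Ioc N (2 * N)) := by
    rw [disjoint_left]
    intro x hx hx'
    rw [mem_Icc] at hx
    rw [mem_Ioc] at hx'
    omega
  rw [h2, sum_union h3]
  ring

private theorem pnt1 : Filter.Tendsto
    (fun n : ℕ => (∑ k ∈ Icc 1 n, ArithmeticFunction.vonMangoldt k) / (n : ℝ))
    Filter.atTop (nhds 1) := by
  have h0 := Pool.Agent.Helper6.psi_ap (q := 1) (a := 1) isUnit_one
  have h1 := h0.comp tendsto_natCast_atTop_atTop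
  rw [Nat.totient_one, Nat.cast_one, div_one] at h1
  refine h1.congr fun n => ?_
  show (∑ k ∈ Icc 1 ⌊(n : ℝ)⌋₊, ArithmeticFunction.vonMangoldt.residueClass (1 : ZMod 1) k) /
    (n : ℝ) = _
  rw [Nat.floor_natCast]
  congr 1
  refine sum_congr rfl fun k _ => ?_
  have hk : k ∈ {n : ℕ | (n : ZMod 1) = 1} := Subsingleton.elim _ _
  exact Set.indicator_of_mem hk _

theorem psi_asym (η : ℝ) (hη : 0 < η) : ∃ N₀ : ℕ, ∀ N : ℕ, N₀ ≤ N → |PGB.Psi N 1 0 - N| ≤ η * N := by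
  obtain ⟨N₁, hN₁⟩ := Metric.tendsto_atTop.1 pnt1 (η / 3) (by positivity)
  have key : ∀ n : ℕ, N₁ ≤ n → 1 ≤ n →
      |∑ k ∈ Icc 1 n, ArithmeticFunction.vonMangoldt k - (n : ℝ)| ≤ η / 3 * n := by
    intro n h1 h2
    have hn : (0 : ℝ) < n := by exact_mod_cast h2
    have h3 := (hN₁ n h1).le
    rw [Real.dist_eq] at h3
    have h4 : (∑ k ∈ Icc 1 n, ArithmeticFunction.vonMangoldt k) / (n : ℝ) - 1 =
        (∑ k ∈ Icc 1 n, ArithmeticFunction.vonMangoldt k - (n : ℝ)) / n := by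
      rw [sub_div, div_self hn.ne']
    rw [h4, abs_div, abs_of_pos hn, div_le_iff₀ hn] at h3
    exact h3
  refine ⟨max N₁ 1, fun N hN => ?_⟩
  have h1 := key N (le_trans (le_max_left _ _) hN) (le_trans (le_max_right _ _) hN)
  have h2 := key (2 * N) (by have := le_trans (le_max_left _ _) hN; omega)
    (by have := le_trans (le_max_right _ _) hN; omega)
  push_cast at h2
  rw [psi_full, abs_le]
  rw [abs_le] at h1 h2
  constructor <;> linarith [h1.1, h1.2, h2.1, h2.2]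

/-- the sieve functions: `dl` at `i₀` -/
private def yy {ι : Type} [DecidableEq ι] (i₀ : ι) (N : ℕ) (a b : ι → ℝ) (i : ι) : Finset ℕ → ℝ :=
  if i = i₀ then dl else ys N (a i) (b i)

private theorem yy_self {ι : Type} [DecidableEq ι] (i₀ : ι) (N : ℕ) (a b : ι → ℝ) :
    yy i₀ N a b i₀ = dl := by
  unfold yy
  rw [if_pos rfl]

private theorem yy_ne {ι : Type} [DecidableEq ι] {i₀ i : ι} (h : i ≠ i₀) (N : ℕ) (a b : ι → ℝ) :
    yy i₀ N a b i = ys N (a i) (b i) := by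
  unfold yy
  rw [if_neg h]

private theorem yy_Bd {ι : Type} [DecidableEq ι] (i₀ : ι) (N : ℕ) (a b : ι → ℝ) (i : ι) :
    Bd (yy i₀ N a b i) 1 (if i = i₀ then 1 else (N : ℝ) ^ (b i)) := by
  by_cases h : i = i₀
  · subst h
    rw [yy_self, if_pos rfl]
    exact dl_Bd
  · rw [yy_ne h, if_neg h]
    exact ys_Bd _ _ _

private theorem dia_dl (V : Finset ℕ) : dia V dl dl = 1 := by
  unfold dia
  rw [sum_eq_single ∅]
  · simp [dl, ph]
  · intro B _ hB
    simp [dl, hB]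
  · intro h
    exact absurd (empty_mem_powerset V) h

private theorem GV_one {V : Finset ℕ} (hV : Big V 1) : GV V 1 = 1 := by
  unfold GV
  have h1 : V.powerset.filter (fun B => (pr B : ℝ) ≤ 1) = {∅} := by
    ext B
    rw [mem_filter, mem_powerset, mem_singleton]
    constructor
    · rintro ⟨h2, h3⟩
      by_contra hne
      obtain ⟨p, hp⟩ := nonempty_iff_ne_empty.2 hne
      have h4 : p ∣ pr B := dvd_prod_of_mem _ hp
      have h5 : 0 < pr B := prod_pos fun q hq => (hV q (h2 hq)).1.pos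
      have h6 := Nat.le_of_dvd h5 h4
      have h7 := (hV p (h2 hp)).1.two_le
      have h8 : pr B ≤ 1 := by exact_mod_cast h3
      omega
    · rintro rfl
      exact ⟨empty_subset _, by simp [pr]⟩
  rw [h1, sum_singleton]
  simp [ph]

private theorem GV_nn {V : Finset ℕ} (hV : Big V 1) (R : ℝ) : 0 ≤ GV V R :=
  sum_nonneg fun B hB => by
    rw [mem_filter, mem_powerset] at hB
    refine (one_div_pos.2 (prod_pos fun p hp => ?_)).le
    have h := (hV p (hB.1 hp)).1.one_lt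
    have h' : (1 : ℝ) < p := by exact_mod_cast h
    linarith

private theorem GV_pow {V : Finset ℕ} (hV : Big V 1) {N : ℕ} (hN : 1 ≤ N) {t : ℝ} (h0 : 0 ≤ t)
    (h1 : t ≤ 1) : GV V ((N : ℝ) ^ t) ≤ (1 + Real.log N) ^ 2 := by
  have hN' : (1 : ℝ) ≤ N := by exact_mod_cast hN
  have hL : 0 ≤ Real.log N := Real.log_nonneg hN'
  refine (GV_le V hV (Real.one_le_rpow hN' h0)).trans ?_
  rw [Real.log_rpow (by linarith)]
  refine pow_le_pow_left₀ (by positivity) ?_ 2
  nlinarith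

private theorem ov_nn (a b a' b' : ℝ) : 0 ≤ ov a b a' b' := le_max_left _ _

private theorem ov_le {a b a' b' : ℝ} (h : St a b) : ov a b a' b' ≤ 1 := by
  unfold ov
  refine max_le zero_le_one ?_
  have h1 := h.2.2.2
  have h2 : min b b' ≤ b := min_le_left _ _
  have h3 : (0 : ℝ) ≤ max (max a a') 0 := le_max_right _ _
  linarith

section Ctx
variable {ι : Type} [Fintype ι] {ε C : ℝ} {N : ℕ} {D D' V : Finset ℕ} {h : ι → ℕ} {c : ℕ}

private theorem ctx_big (hc : Ctx ε C N D D' V h c) : Big V (ε * Real.log N) := by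
  intro p hp
  have h1 := ((hc.mem p).1 hp).1
  unfold VN at h1
  exact (mem_filter.1 h1).2

private theorem ctx_big1 (hc : Ctx ε C N D D' V h c) (h1 : 1 ≤ ε * Real.log N) : Big V 1 :=
  fun p hp => ⟨(ctx_big hc p hp).1, h1.trans_lt (ctx_big hc p hp).2⟩

end Ctx

private theorem log_tt : Filter.Tendsto (fun N : ℕ => Real.log N) Filter.atTop Filter.atTop :=
  Real.tendsto_log_atTop.comp tendsto_natCast_atTop_atTop

private theorem exists_eta (m : ℕ) {η : ℝ} (hη : 0 < η) : ∃ η' : ℝ, 0 < η' ∧ (1 + η') ^ m - 1 ≤ η := by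
  have h1 : Continuous fun t : ℝ => (1 + t) ^ m := (continuous_const.add continuous_id).pow m
  have h2 := (h1.tendsto 0).eventually (gt_mem_nhds (show (1 + (0 : ℝ)) ^ m < 1 + η by simp [hη]))
  obtain ⟨r, hr, h3⟩ := Metric.eventually_nhds_iff.1 h2
  refine ⟨r / 2, by positivity, ?_⟩
  have h4 := h3 (y := r / 2) (by rw [Real.dist_eq, sub_zero, abs_of_pos (by positivity)]; linarith)
  linarith

private theorem main_asym {ι : Type} [Fintype ι] [DecidableEq ι] (i₀ : ι) (ε C η : ℝ) (hε : 0 < ε)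
    (hη : 0 < η) (a b a' b' : ι → ℝ) (hst : ∀ i, St (a i) (b i)) (hst' : ∀ i, St (a' i) (b' i)) :
    ∀ᶠ N : ℕ in Filter.atTop, ∀ (D D' V : Finset ℕ) (h : ι → ℕ) (c : ℕ), Ctx ε C N D D' V h c →
      |TT V (fun i D => rho V (yy i₀ N a b i) (yy i₀ N a' b' i) D *
          al (fun p => 1 / ((p : ℝ) - 1)) D) -
        Gam ε N ^ (Fintype.card ι - 1) * ∏ i ∈ univ.erase i₀, ov (a i) (b i) (a' i) (b' i)| ≤
        η * Gam ε N ^ (Fintype.card ι - 1) := by
  obtain ⟨C₀, hC₀, hmt⟩ := main_term (Fintype.card ι)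
  obtain ⟨η', hη', hη1⟩ := exists_eta (Fintype.card ι - 1) (show 0 < η / 2 by positivity)
  have e1 : ∀ᶠ N : ℕ in Filter.atTop, ∀ i : ι, ∀ (D D' V : Finset ℕ) (h : ι → ℕ) (c : ℕ),
      Ctx ε C N D D' V h c →
      |dia V (ys N (a i) (b i)) (ys N (a' i) (b' i)) - ov (a i) (b i) (a' i) (b' i) * Gam ε N| ≤
        η' * Gam ε N := Filter.eventually_all.2 fun i => Filter.eventually_atTop.2
          (dia_step ε C η' (a i) (b i) (a' i) (b' i) hε hη' (hst i) (hst' i))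
  have e2 : ∀ᶠ N : ℕ in Filter.atTop, ∀ i : ι, ∀ V : Finset ℕ, V ⊆ VN (ε * Real.log N) N →
      ((VN (ε * Real.log N) N) \ V).card ≤ 1 + Fintype.card ι ^ 2 →
        |GV V ((N : ℝ) ^ (b i)) - b i * Gam ε N| ≤ 1 * Gam ε N :=
    Filter.eventually_all.2 fun i => Filter.eventually_atTop.2
      (g_asym ε 1 (b i) (1 + Fintype.card ι ^ 2) hε one_pos (hst i).2.2.1 (hst i).2.2.2)
  have e3 := Filter.eventually_atTop.2 (Ctx_card (ι := ι) ε C hε)
  have e4 := Filter.eventually_atTop.2 (Gam_ge ε hε)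
  have e5 := log_tt.eventually (Filter.eventually_ge_atTop
    (max (C₀ / ε) (max (1 / ε) (C₀ * 2 ^ (Fintype.card ι - 1) / (ε * (η / 2))))))
  filter_upwards [e1, e2, e3, e4, e5] with N h1 h2 h3 h4 h5 D D' V h c hc
  set Γ := Gam ε N with hΓ
  have hΓ0 : 0 < Γ := lt_of_lt_of_le (by positivity) h4
  have hz0 : C₀ / ε ≤ Real.log N := (le_max_left _ _).trans h5
  have hz1 : 1 / ε ≤ Real.log N := ((le_max_left _ _).trans (le_max_right _ _)).trans h5
  have hz2 : C₀ * 2 ^ (Fintype.card ι - 1) / (ε * (η / 2)) ≤ Real.log N :=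
    ((le_max_right _ _).trans (le_max_right _ _)).trans h5
  rw [div_le_iff₀ hε] at hz0 hz1
  rw [div_le_iff₀ (by positivity)] at hz2
  have hz0' : C₀ ≤ ε * Real.log N := by linarith
  have hz1' : 1 ≤ ε * Real.log N := by linarith
  have hB := ctx_big hc
  have hB1 := ctx_big1 hc hz1'
  have hcard : (univ.erase i₀).card = Fintype.card ι - 1 := by
    rw [card_erase_of_mem (mem_univ _), card_univ]
  -- the main term
  have m1 := hmt (ι := ι) rfl V (ε * Real.log N) hz0' hB (fun p => 1 / ((p : ℝ) - 1)) ?_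
    (yy i₀ N a b) (yy i₀ N a' b') _ _ (yy_Bd i₀ N a b) (yy_Bd i₀ N a' b')
  swap
  · intro p hp
    have hp2 : (2 : ℝ) ≤ p := by exact_mod_cast (hB p hp).1.two_le
    have hp1 : (0 : ℝ) < (p : ℝ) - 1 := by linarith
    refine ⟨by positivity, ?_, ?_⟩
    · rw [div_le_one hp1]
      linarith
    · have e : (p : ℝ) * (1 / ((p : ℝ) - 1)) - 1 = 1 / ((p : ℝ) - 1) := by
        field_simp
        ring
      rw [e, abs_of_pos (by positivity), div_le_div_iff₀ hp1 (by linarith)]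
      linarith
  have m2 : ∏ i, dia V (yy i₀ N a b i) (yy i₀ N a' b' i) =
      ∏ i ∈ univ.erase i₀, dia V (ys N (a i) (b i)) (ys N (a' i) (b' i)) := by
    rw [← mul_prod_erase univ _ (mem_univ i₀), yy_self, yy_self, dia_dl, one_mul]
    refine prod_congr rfl fun i hi => ?_
    rw [yy_ne (ne_of_mem_erase hi), yy_ne (ne_of_mem_erase hi)]
  have m3 : ∏ i, GV V (if i = i₀ then 1 else (N : ℝ) ^ (b i)) ≤
      (2 * Γ) ^ (Fintype.card ι - 1) := by
    rw [← mul_prod_erase univ _ (mem_univ i₀), if_pos rfl, GV_one hB1, one_mul, ← hcard,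
      ← prod_const]
    refine prod_le_prod (fun i _ => GV_nn hB1 _) fun i hi => ?_
    rw [if_neg (ne_of_mem_erase hi)]
    have h6 := h3 D D' V h c hc
    have h7 := h2 i V h6.1 h6.2
    have h8 := (hst i).2.2.2
    rw [abs_le] at h7
    nlinarith [h7.2]
  rw [m2] at m1
  have m4 := prod_pert (univ.erase i₀) (fun i => dia V (ys N (a i) (b i)) (ys N (a' i) (b' i)))
    (fun i => ov (a i) (b i) (a' i) (b' i) * Γ) (fun _ => Γ) (t := 1 + η') (by linarith)
    (fun i _ => by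
      have := ov_nn (a i) (b i) (a' i) (b' i)
      have h9 := ov_le (a' := a' i) (b' := b' i) (hst i)
      rw [abs_of_nonneg (by positivity)]
      nlinarith)
    (fun i _ => by
      have := h1 i D D' V h c hc
      rw [add_sub_cancel_left]
      linarith)
  rw [prod_const, prod_mul_distrib, prod_const, hcard] at m4
  have m5 : C₀ / (ε * Real.log N) * ∏ i, GV V (if i = i₀ then 1 else (N : ℝ) ^ (b i)) ≤
      η / 2 * Γ ^ (Fintype.card ι - 1) := by
    refine (mul_le_mul_of_nonneg_left m3 (by positivity)).trans ?_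
    rw [mul_pow, ← mul_assoc]
    refine mul_le_mul_of_nonneg_right ?_ (by positivity)
    rw [div_mul_eq_mul_div, div_le_iff₀ (by positivity)]
    linarith
  have m6 : Γ ^ (Fintype.card ι - 1) * ((1 + η') ^ (Fintype.card ι - 1) - 1) ≤
      η / 2 * Γ ^ (Fintype.card ι - 1) := by
    have : 0 < Γ ^ (Fintype.card ι - 1) := by positivity
    nlinarith
  rw [mul_comm (∏ i ∈ univ.erase i₀, ov (a i) (b i) (a' i) (b' i))] at m4
  have m7 := m1.trans m5
  have m8 := m4.trans m6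
  rw [abs_le] at m7 m8 ⊢
  constructor <;> linarith [m7.1, m7.2, m8.1, m8.2]

private theorem prod_G {ι : Type} [Fintype ι] [DecidableEq ι] (i₀ : ι) {L : ℝ} (hL : 0 ≤ L) :
    ∏ i, (if i = i₀ then (1 : ℝ) else (1 + L) ^ 4) ≤ (1 + L) ^ (4 * Fintype.card ι) := by
  calc ∏ i, (if i = i₀ then (1 : ℝ) else (1 + L) ^ 4) ≤ ∏ _i : ι, (1 + L) ^ 4 := by
        refine prod_le_prod (fun i _ => ?_) fun i _ => ?_
        · split_ifs <;> positivity
        · split_ifs
          · exact one_le_pow₀ (by linarith)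
          · exact le_rfl
    _ = (1 + L) ^ (4 * Fintype.card ι) := by
        rw [prod_const, card_univ, ← pow_mul]

private theorem prod_Q {ι : Type} [Fintype ι] [DecidableEq ι] (i₀ : ι) {N : ℕ} (hN : 1 ≤ N)
    (b b' : ι → ℝ) {τ : ℝ} (h : ∑ i ∈ univ.erase i₀, (b i + b' i) ≤ τ) :
    ∏ i, (if i = i₀ then (1 : ℝ) else (N : ℝ) ^ (b i) * (N : ℝ) ^ (b' i)) ≤ (N : ℝ) ^ τ := by
  have hN' : (1 : ℝ) ≤ N := by exact_mod_cast hN
  rw [← mul_prod_erase univ _ (mem_univ i₀), if_pos rfl, one_mul]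
  have h1 : ∏ i ∈ univ.erase i₀, (if i = i₀ then (1 : ℝ) else (N : ℝ) ^ (b i) * (N : ℝ) ^ (b' i)) =
      ∏ i ∈ univ.erase i₀, (N : ℝ) ^ (b i + b' i) := by
    refine prod_congr rfl fun i hi => ?_
    rw [if_neg (ne_of_mem_erase hi), Real.rpow_add (by linarith)]
  rw [h1, ← Real.rpow_sum_of_pos (by linarith)]
  exact Real.rpow_le_rpow_of_exponent_le hN' h

private theorem sqrt_log (C : ℝ) : ∀ᶠ N : ℕ in Filter.atTop, C * Real.log N ≤ √(N : ℝ) := by
  have h1 := (isLittleO_log_rpow_atTop (show (0 : ℝ) < 1 / 2 by norm_num)).bound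
    (show 0 < 1 / (|C| + 1) by positivity)
  have h2 := (tendsto_natCast_atTop_atTop (R := ℝ)).eventually h1
  filter_upwards [h2, Filter.eventually_ge_atTop 1] with N hN hN1
  have hN' : (1 : ℝ) ≤ N := by exact_mod_cast hN1
  have hL : 0 ≤ Real.log N := Real.log_nonneg hN'
  rw [Real.norm_of_nonneg hL, Real.norm_of_nonneg (by positivity), ← Real.sqrt_eq_rpow,
    one_div, inv_mul_eq_div, le_div_iff₀ (by positivity)] at hN
  have h3 : C ≤ |C| + 1 := (le_abs_self C).trans (by linarith)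
  nlinarith

private theorem err_term {ι : Type} [Fintype ι] [DecidableEq ι] (δ : ℝ) (hδ : 0 < δ)
    (hδ2 : δ < 1 / 2) : ∃ A : ℝ, ∀ (i₀ : ι) (ε C : ℝ), 0 < ε → 8 * ε ≤ δ → ∀ a b a' b' : ι → ℝ,
      (∀ i, St (a i) (b i)) → (∀ i, St (a' i) (b' i)) →
      ∑ i ∈ univ.erase i₀, (b i + b' i) ≤ 1 / 2 - δ →
    ∀ᶠ N : ℕ in Filter.atTop, ∀ (D D' V : Finset ℕ) (h : ι → ℕ) (c : ℕ), Ctx ε C N D D' V h c →
      MB δ A ε N D →
      ∑ T ∈ tup ι V, (∏ i, |rho V (yy i₀ N a b i) (yy i₀ N a' b' i) (T i)|) *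
        (ER N (PGB.qz (ε * Real.log N) D) (pr (univ.biUnion T)) + SE N (h i₀)) ≤
        (1 + Real.log N) ^ (4 * Fintype.card ι) *
          (N / ((Nat.totient (PGB.qz (ε * Real.log N) D) : ℝ) *
            Real.log N ^ ((4 * Fintype.card ι + 1 : ℕ) : ℝ))) := by
  obtain ⟨A, N₁, hA⟩ := et δ hδ hδ2 (12 * Fintype.card ι) ((4 * Fintype.card ι + 1 : ℕ) : ℝ)
  refine ⟨A, fun i₀ ε C hε h8 a b a' b' hst hst' hlev => ?_⟩
  have e5 := log_tt.eventually (Filter.eventually_ge_atTop (max 1 (1 / ε)))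
  filter_upwards [Filter.eventually_ge_atTop N₁, Filter.eventually_ge_atTop 2, e5, sqrt_log C] with N
    hN1 hN2 h5 h6 D D' V h c hc hMB
  have hL1 : 1 ≤ Real.log N := (le_max_left _ _).trans h5
  have hz1 : 1 / ε ≤ Real.log N := (le_max_right _ _).trans h5
  rw [div_le_iff₀ hε] at hz1
  have hz : 1 ≤ ε * Real.log N := by linarith
  have hB := ctx_big hc
  have hB1 := ctx_big1 hc hz
  set q := PGB.qz (ε * Real.log N) D with hq
  have hq0 : 0 < q := qz_pos _ _
  have hqV : ∀ p ∈ V, ¬ p ∣ q := fun p hp => q_cop (hB p hp).1 (by linarith) (hB p hp).2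
  have hqle : (q : ℝ) ≤ (N : ℝ) ^ (δ / 4) := q_le ε (δ / 4) hε (by linarith) N (by omega) D
  have hSE : 0 ≤ SE N (h i₀) := by
    unfold SE
    have : 0 ≤ Real.log (3 * N) := Real.log_nonneg (by
      have : (2 : ℝ) ≤ N := by exact_mod_cast hN2
      linarith)
    positivity
  have hH : (h i₀ : ℝ) ≤ √(N : ℝ) := (hc.le i₀).trans h6
  -- the hypothesis of `et`
  have hyp : ∀ a : ℕ → ℕ, (∀ B ⊆ V, (a (pr B)).Coprime (q * pr B)) →
      ∑ B ∈ V.powerset with (pr B : ℝ) ≤ (N : ℝ) ^ (1 / 2 - δ),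
        |PGB.Psi N (q * pr B) (a (pr B)) - PGB.Psi N 1 0 / (Nat.totient (q * pr B) : ℝ)| ≤
          N / ((Nat.totient q : ℝ) * Real.log N ^ A) := by
    intro a ha
    have hinj : Set.InjOn pr
        ((V.powerset.filter fun B => (pr B : ℝ) ≤ (N : ℝ) ^ (1 / 2 - δ) : Finset (Finset ℕ)) :
          Set (Finset ℕ)) := by
      intro B hB' B' hB'' he
      rw [mem_coe, mem_filter, mem_powerset] at hB' hB''
      exact pr_inj (fun p hp => (hB p (hB'.1 hp)).1) (fun p hp => (hB p (hB''.1 hp)).1) he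
    have h7 := hMB ((V.powerset.filter fun B => (pr B : ℝ) ≤ (N : ℝ) ^ (1 / 2 - δ)).image pr) ?_ a ?_
    · rw [sum_image hinj] at h7
      exact h7
    · intro r hr
      obtain ⟨B, hB', rfl⟩ := mem_image.1 hr
      rw [mem_filter, mem_powerset] at hB'
      refine ⟨?_, hB'.2, ?_, ?_⟩
      · unfold pr
        refine Finset.squarefree_prod_of_pairwise_isCoprime ?_ ?_
        · intro p hp p' hp' hne
          exact Nat.coprime_iff_isRelPrime.1
            ((Nat.coprime_primes (hB p (hB'.1 hp)).1 (hB p' (hB'.1 hp')).1).2 hne)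
        · intro p hp
          exact (hB p (hB'.1 hp)).1.prime.squarefree
      · exact Nat.Coprime.prod_left fun p hp =>
          ((hB p (hB'.1 hp)).1.coprime_iff_not_dvd).2 (hqV p (hB'.1 hp))
      · intro p hp hdvd
        unfold pr at hdvd
        obtain ⟨p', hp', hd⟩ := ((hc.prime p hp).prime.dvd_finsetProd_iff _).1 hdvd
        have h8 : p = p' := (Nat.prime_dvd_prime_iff_eq (hc.prime p hp) (hB p' (hB'.1 hp')).1).1 hd
        subst h8
        exact ((hc.mem p).1 (hB'.1 hp')).2.1 hp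
    · intro r hr
      obtain ⟨B, hB', rfl⟩ := mem_image.1 hr
      rw [mem_filter, mem_powerset] at hB'
      exact ha B hB'.1
  have h9 := hA N hN1 q hq0 hqle V hB1 hqV hyp (h i₀) hH
  have h10 := tup_union V hB1 (fun i T => |rho V (yy i₀ N a b i) (yy i₀ N a' b' i) T|)
    (fun i => if i = i₀ then (1 : ℝ) else (1 + Real.log N) ^ 4)
    (fun i => if i = i₀ then (1 : ℝ) else (N : ℝ) ^ (b i) * (N : ℝ) ^ (b' i))
    (fun B => ER N q (pr B) + SE N (h i₀)) (fun B _ => add_nonneg (ER_nonneg _ _ _) hSE)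
    (fun i T => abs_nonneg _) ?_ ?_ ?_ ?_
  · refine h10.trans ?_
    refine mul_le_mul (prod_G i₀ (by linarith)) (le_trans ?_ h9) ?_ (by positivity)
    · refine sum_le_sum_of_subset_of_nonneg ?_ fun B _ _ =>
        mul_nonneg (by positivity) (add_nonneg (ER_nonneg _ _ _) hSE)
      intro B hB'
      rw [mem_filter] at hB' ⊢
      exact ⟨hB'.1, hB'.2.trans (prod_Q i₀ (by omega) b b' hlev)⟩
    · exact sum_nonneg fun B _ =>
        mul_nonneg (by positivity) (add_nonneg (ER_nonneg _ _ _) hSE)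
  · intro i T
    by_cases hi : i = i₀
    · subst hi
      simp only [yy_self, rho_dl, if_true, one_mul]
      split_ifs
      · rw [abs_one]
        exact one_le_pow₀ (by norm_num)
      · rw [abs_zero]
        positivity
    · simp only [yy_ne hi, if_neg hi]
      have h11 := rho_le V hB1 zero_le_one zero_le_one (ys_Bd N (a i) (b i)) (ys_Bd N (a' i) (b' i)) T
      have g1 := GV_pow hB1 (N := N) (by omega) (hst i).2.2.1.le (hst i).2.2.2
      have g2 := GV_pow hB1 (N := N) (by omega) (hst' i).2.2.1.le (hst' i).2.2.2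
      have g3 : GV V ((N : ℝ) ^ (b i)) * GV V ((N : ℝ) ^ (b' i)) ≤ (1 + Real.log N) ^ 4 := by
        calc _ ≤ (1 + Real.log N) ^ 2 * (1 + Real.log N) ^ 2 :=
              mul_le_mul g1 g2 (GV_nn hB1 _) (by positivity)
          _ = (1 + Real.log N) ^ 4 := by ring
      refine h11.trans ?_
      rw [one_mul, one_mul, mul_comm ((1 + Real.log N) ^ 4)]
      exact mul_le_mul_of_nonneg_left g3 (by positivity)
  · intro i
    show (0 : ℝ) ≤ if i = i₀ then (1 : ℝ) else (1 + Real.log N) ^ 4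
    split_ifs <;> positivity
  · intro i T hne
    have hne' := abs_ne_zero.1 hne
    by_cases hi : i = i₀
    · subst hi
      rw [yy_self, yy_self, rho_dl] at hne'
      have : T = ∅ := by
        by_contra hT
        exact hne' (if_neg hT)
      subst this
      simp [pr]
    · rw [yy_ne hi, yy_ne hi] at hne'
      have h12 := (rho_supp V hB1 (ys_Bd N (a i) (b i)) (ys_Bd N (a' i) (b' i)) (by positivity)
        (by positivity) hne').2
      simp only [if_neg hi]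
      exact h12
  · intro i
    show (0 : ℝ) ≤ if i = i₀ then (1 : ℝ) else (N : ℝ) ^ (b i) * (N : ℝ) ^ (b' i)
    split_ifs <;> positivity

/-- the numerical part of `err_term` -/
private theorem err_num {L η : ℝ} (k : ℕ) (hL : 1 ≤ L) (hη : 0 < η) (h : 2 ^ (4 * k) / η ≤ L) {N φ : ℝ}
    (hN : 0 ≤ N) (hφ : 0 < φ) :
    (1 + L) ^ (4 * k) * (N / (φ * L ^ ((4 * k + 1 : ℕ) : ℝ))) ≤ η * (N / φ) := by
  have hL0 : 0 < L := by linarith
  rw [Real.rpow_natCast]
  have h1 : (1 + L) ^ (4 * k) ≤ (2 * L) ^ (4 * k) := pow_le_pow_left₀ (by linarith) (by linarith) _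
  rw [div_le_iff₀ hη] at h
  have h2 : (2 * L) ^ (4 * k) ≤ η * L ^ (4 * k + 1) := by
    rw [mul_pow, pow_succ, ← mul_assoc, mul_right_comm]
    refine mul_le_mul_of_nonneg_right ?_ (by positivity)
    linarith
  have h3 : N / (φ * L ^ (4 * k + 1)) = N / φ / L ^ (4 * k + 1) := by rw [div_div]
  rw [h3, mul_div_assoc', div_le_iff₀ (by positivity)]
  have h4 : 0 ≤ N / φ := by positivity
  nlinarith [mul_le_mul_of_nonneg_right (h1.trans h2) h4]

private theorem fin_num {S Ψ T φ G O N η : ℝ} (hφ : 0 < φ) (hN : 0 ≤ N) (hG : 1 ≤ G) (hO : 0 ≤ O)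
    (hO1 : O ≤ 1) (hη : 0 < η) (hη1 : η ≤ 1) (h1 : |S - Ψ / φ * T| ≤ η * (N / φ))
    (h2 : |T - G * O| ≤ η * G) (h3 : |Ψ - N| ≤ η * N) :
    |S - N / φ * G * O| ≤ 4 * η * (N / φ * G) := by
  have hW : 0 ≤ N / φ := by positivity
  have e1 : S - N / φ * G * O = (S - Ψ / φ * T) + N / φ * (T - G * O) + (Ψ - N) / φ * (G * O) +
      (Ψ - N) / φ * (T - G * O) := by
    field_simp
    ring
  have e2 : |(Ψ - N) / φ| ≤ η * (N / φ) := by
    rw [abs_div, abs_of_pos hφ, div_le_iff₀ hφ]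
    calc |Ψ - N| ≤ η * N := h3
      _ = η * (N / φ) * φ := by field_simp
  rw [e1]
  refine (abs_add_le _ _).trans ?_
  have a1 : |N / φ * (T - G * O)| ≤ η * (N / φ * G) := by
    rw [abs_mul, abs_of_nonneg hW]
    nlinarith
  have a2 : |(Ψ - N) / φ * (G * O)| ≤ η * (N / φ * G) := by
    rw [abs_mul, abs_of_nonneg (show 0 ≤ G * O by positivity)]
    calc |(Ψ - N) / φ| * (G * O) ≤ η * (N / φ) * (G * 1) :=
          mul_le_mul e2 (by nlinarith) (by positivity) (by positivity)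
      _ = η * (N / φ * G) := by ring
  have a3 : |(Ψ - N) / φ * (T - G * O)| ≤ η * (N / φ * G) := by
    rw [abs_mul]
    calc |(Ψ - N) / φ| * |T - G * O| ≤ η * (N / φ) * (η * G) :=
          mul_le_mul e2 h2 (abs_nonneg _) (by positivity)
      _ ≤ η * (N / φ) * (1 * G) := by
          refine mul_le_mul_of_nonneg_left ?_ (by positivity)
          nlinarith
      _ = η * (N / φ * G) := by ring
  have a0 : |S - Ψ / φ * T| ≤ η * (N / φ * G) := by
    refine h1.trans (mul_le_mul_of_nonneg_left ?_ hη.le)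
    nlinarith
  have b1 := abs_add_le ((S - Ψ / φ * T) + N / φ * (T - G * O)) ((Ψ - N) / φ * (G * O))
  have b2 := abs_add_le (S - Ψ / φ * T) (N / φ * (T - G * O))
  linarith

theorem s2 {ι : Type} [Fintype ι] [DecidableEq ι] (δ : ℝ) (hδ : 0 < δ) (hδ2 : δ < 1 / 2) : ∃ A : ℝ,
    ∀ (i₀ : ι) (ε C η : ℝ), 0 < ε → 8 * ε ≤ δ → 0 < η → ∀ a b a' b' : ι → ℝ,
      (∀ i, St (a i) (b i)) → (∀ i, St (a' i) (b' i)) → ∑ i ∈ univ.erase i₀, (b i + b' i) ≤ 1 / 2 - δ →
    ∃ N₀ : ℕ, ∀ N : ℕ, N₀ ≤ N → ∀ (D D' V : Finset ℕ) (h : ι → ℕ) (c : ℕ), Ctx ε C N D D' V h c →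
      MB δ A ε N D →
      |∑ n ∈ (Ioc N (2 * N)).filter (· ≡ c [MOD PGB.qz (ε * Real.log N) D]), fp (n + h i₀) *
          ∏ i ∈ univ.erase i₀, (Lam V (ys N (a i) (b i)) (n + h i) * Lam V (ys N (a' i) (b' i)) (n + h i)) -
        N / (Nat.totient (PGB.qz (ε * Real.log N) D) : ℝ) * Gam ε N ^ (Fintype.card ι - 1) *
          ∏ i ∈ univ.erase i₀, ov (a i) (b i) (a' i) (b' i)| ≤
        η * (N / (Nat.totient (PGB.qz (ε * Real.log N) D) : ℝ) * Gam ε N ^ (Fintype.card ι - 1)) := by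
  obtain ⟨A, hA⟩ := err_term (ι := ι) δ hδ hδ2
  refine ⟨A, fun i₀ ε C η hε h8 hη a b a' b' hst hst' hlev => ?_⟩
  set η₂ : ℝ := min η 1 / 8 with hη₂
  have hm : 0 < min η 1 := lt_min hη one_pos
  have hη₂0 : 0 < η₂ := by positivity
  have hη₂1 : η₂ ≤ 1 := by
    have := min_le_right η 1
    rw [hη₂]
    linarith
  have e1 := hA i₀ ε C hε h8 a b a' b' hst hst' hlev
  have e2 := main_asym i₀ ε C η₂ hε hη₂0 a b a' b' hst hst'
  have e3 := Filter.eventually_atTop.2 (psi_asym η₂ hη₂0)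
  have e4 := Filter.eventually_atTop.2 (Gam_ge ε hε)
  have e5 := log_tt.eventually (Filter.eventually_ge_atTop
    (max 1 (max (1 / ε) (2 ^ (4 * Fintype.card ι) / η₂))))
  refine Filter.eventually_atTop.1 ?_
  filter_upwards [e1, e2, e3, e4, e5, sqrt_log C, Filter.eventually_ge_atTop 2] with N h1 h2 h3 h4 h5
    h6 hN2 D D' V h c hc hMB
  have hL1 : 1 ≤ Real.log N := (le_max_left _ _).trans h5
  have hz1 : 1 / ε ≤ Real.log N := ((le_max_left _ _).trans (le_max_right _ _)).trans h5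
  have hL2 : 2 ^ (4 * Fintype.card ι) / η₂ ≤ Real.log N :=
    ((le_max_right _ _).trans (le_max_right _ _)).trans h5
  rw [div_le_iff₀ hε] at hz1
  have hz : 1 ≤ ε * Real.log N := by linarith
  have hB := ctx_big hc
  set q := PGB.qz (ε * Real.log N) D with hq
  have hq0 : 0 < q := qz_pos _ _
  have hqV : ∀ p ∈ V, ¬ p ∣ q := fun p hp => q_cop (hB p hp).1 (by linarith) (hB p hp).2
  have hφ : (0 : ℝ) < Nat.totient q := by exact_mod_cast Nat.totient_pos.2 hq0
  have hΓ1 : 1 ≤ Gam ε N := by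
    refine le_trans ?_ h4
    rw [le_div_iff₀ hε]
    linarith
  have hHN : h i₀ ≤ N := by
    have g1 : (h i₀ : ℝ) ≤ √(N : ℝ) := (hc.le i₀).trans h6
    have g2 : √(N : ℝ) ≤ N := by
      rw [Real.sqrt_le_left (by positivity)]
      have : (2 : ℝ) ≤ N := by exact_mod_cast hN2
      nlinarith
    exact_mod_cast g1.trans g2
  have h7 := gs2 i₀ V (fun p hp => (hB p hp).1) q N c hq0 hqV h
    (fun p hp => ((hc.mem p).1 hp).2.2) (hc.cop i₀) hN2 hHN (yy i₀ N a b) (yy i₀ N a' b')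
    (yy_self _ _ _ _) (yy_self _ _ _ _) (ER N q)
    (fun B hB' a' ha' => ER_ge (Nat.mul_pos hq0 (prod_pos fun p hp => (hB p (hB' hp)).1.pos)) ha')
  have h8' : ∑ n ∈ (Ioc N (2 * N)).filter (· ≡ c [MOD q]), fp (n + h i₀) *
      ∏ i, (Lam V (yy i₀ N a b i) (n + h i) * Lam V (yy i₀ N a' b' i) (n + h i)) =
      ∑ n ∈ (Ioc N (2 * N)).filter (· ≡ c [MOD q]), fp (n + h i₀) *
        ∏ i ∈ univ.erase i₀, (Lam V (ys N (a i) (b i)) (n + h i) *
          Lam V (ys N (a' i) (b' i)) (n + h i)) := by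
    refine sum_congr rfl fun n _ => ?_
    congr 1
    rw [← mul_prod_erase univ _ (mem_univ i₀), yy_self, yy_self, Lam_dl, one_mul, one_mul]
    refine prod_congr rfl fun i hi => ?_
    rw [yy_ne (ne_of_mem_erase hi), yy_ne (ne_of_mem_erase hi)]
  rw [h8'] at h7
  have h9 := h7.trans ((h1 D D' V h c hc hMB).trans
    (err_num (Fintype.card ι) hL1 hη₂0 hL2 (Nat.cast_nonneg N) hφ))
  have hO : 0 ≤ ∏ i ∈ univ.erase i₀, ov (a i) (b i) (a' i) (b' i) :=
    prod_nonneg fun i _ => ov_nn _ _ _ _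
  have hO1 : ∏ i ∈ univ.erase i₀, ov (a i) (b i) (a' i) (b' i) ≤ 1 :=
    prod_le_one (fun i _ => ov_nn _ _ _ _) fun i _ => ov_le (hst i)
  have h10 := fin_num hφ (Nat.cast_nonneg N)
    (one_le_pow₀ hΓ1 : 1 ≤ Gam ε N ^ (Fintype.card ι - 1)) hO hO1 hη₂0 hη₂1 h9
    (h2 D D' V h c hc) h3
  refine h10.trans (mul_le_mul_of_nonneg_right ?_ (by positivity))
  have := min_le_left η 1
  rw [hη₂]
  linarith

end PGL
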