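import Pool.Agent.PGL.GU
import Pool.Agent.PGL.MT
import Pool.Agent.PGB.Main

/-! PGL / SD: the diagonal sums for step functions, and the standing assumptions of the sieve.

PROOFS. `ys_Bd`: values in `{0, 1}`. `dia_step`: `ys a b * ys a' b'` is the indicator of
`N^(max a a') < pr B ≤ N^(min b b')`, so `dia = G_V(N^(min b b')) - G_V(N^(max a a'))` if `max a a' ≤ min b b'`, else `0`;
`G_V(N^(-1)) = 0` (as `pr B ≥ 1`), and `g_asym` for the other exponents (with `η / 2`). If
`max a a' > min b b'` then `ov = 0`. `mass_step`: `mass V (ys N a b) = dia V (ys N a b) (ys N a b)`.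
`Ctx_card`: the primes of `VN \ V` are in `D` or divide a difference `h i - h j`; the primes of `D` which are
`> ε log N` are in `D \ D'` (one at most), and a nonzero difference is `≤ C log N < (ε log N)²`, so it has at most one
prime factor `> ε log N`. -/

set_option autoImplicit false

open Finset

noncomputable section

namespace PGL

/-- the length of the overlap of `(a, b]` and `(a', b']` in `[0, ∞)` -/
def ov (a b a' b' : ℝ) : ℝ := max 0 (min b b' - max (max a a') 0)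

/-- admissible end points of step functions -/
def St (a b : ℝ) : Prop := (a = -1 ∨ 0 < a) ∧ a ≤ b ∧ 0 < b ∧ b ≤ 1

/-- the standing assumptions of the sieve: `D` consists of `D'`, a set of primes `≤ y = ε log N`, and at most one more
prime, `V` is the set of the primes in `(y, N]` which are not in `D` and divide no difference of the shifts -/
structure Ctx {ι : Type} [Fintype ι] (ε C : ℝ) (N : ℕ) (D D' V : Finset ℕ) (h : ι → ℕ) (b : ℕ) : Prop where
  sub : D' ⊆ D
  one : (D \ D').card ≤ 1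
  prime : ∀ p ∈ D, p.Prime
  small : ∀ p ∈ D', (p : ℝ) ≤ ε * Real.log N
  mem : ∀ p, p ∈ V ↔ p ∈ VN (ε * Real.log N) N ∧ p ∉ D ∧ ∀ i j, i ≠ j → ¬ h i ≡ h j [MOD p]
  inj : Function.Injective h
  le : ∀ i, (h i : ℝ) ≤ C * Real.log N
  cop : ∀ i, (b + h i).Coprime (PGB.qz (ε * Real.log N) D)

theorem ys_Bd (N : ℕ) (a b : ℝ) : Bd (ys N a b) 1 ((N : ℝ) ^ b) := by
  intro B
  unfold ys
  refine ⟨?_, fun h => if_neg fun hc => absurd hc.2 (not_le.2 h)⟩
  split_ifs <;> simp

theorem dl_Bd : Bd dl 1 1 := by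
  intro B
  unfold dl
  refine ⟨by split_ifs <;> simp, fun h => if_neg fun hc => ?_⟩
  subst hc
  simp [pr] at h

theorem Ctx_card {ι : Type} [Fintype ι] (ε C : ℝ) (hε : 0 < ε) : ∃ N₀ : ℕ, ∀ N : ℕ, N₀ ≤ N →
    ∀ (D D' V : Finset ℕ) (h : ι → ℕ) (b : ℕ), Ctx ε C N D D' V h b →
      V ⊆ VN (ε * Real.log N) N ∧ ((VN (ε * Real.log N) N) \ V).card ≤ 1 + Fintype.card ι ^ 2 := by
  classical
  have ht : Filter.Tendsto (fun N : ℕ => Real.log N) Filter.atTop Filter.atTop :=
    Real.tendsto_log_atTop.comp tendsto_natCast_atTop_atTop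
  obtain ⟨N₀, hN₀⟩ := Filter.eventually_atTop.1
    ((ht.eventually_ge_atTop (C / ε ^ 2)).and (ht.eventually_gt_atTop 0))
  refine ⟨N₀, fun N hN D D' V h b hc => ?_⟩
  obtain ⟨hL1, hL0⟩ := hN₀ N hN
  have hCL : C * Real.log N ≤ (ε * Real.log N) * (ε * Real.log N) := by
    rw [div_le_iff₀ (by positivity)] at hL1
    nlinarith
  refine ⟨fun p hp => ((hc.mem p).1 hp).1, ?_⟩
  obtain ⟨W, hW⟩ : ∃ W : Finset ℕ, W = VN (ε * Real.log N) N := ⟨_, rfl⟩
  rw [← hW]
  have hWm : ∀ p ∈ W, p.Prime ∧ ε * Real.log N < (p : ℝ) := by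
    intro p hp
    rw [hW] at hp
    exact (mem_filter.1 hp).2
  let S : ι × ι → Finset ℕ := fun q => W.filter (fun p => q.1 ≠ q.2 ∧ h q.1 ≡ h q.2 [MOD p])
  have h1 : W \ V ⊆ (D \ D') ∪ (univ : Finset (ι × ι)).biUnion S := by
    intro p hp
    rw [mem_sdiff] at hp
    have hpp := hWm p hp.1
    by_cases hD : p ∈ D
    · refine mem_union_left _ (mem_sdiff.2 ⟨hD, fun hD' => ?_⟩)
      have := hc.small p hD'
      linarith
    · refine mem_union_right _ ?_
      have h2 : ¬ ∀ i j, i ≠ j → ¬ h i ≡ h j [MOD p] := fun h3 =>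
        hp.2 ((hc.mem p).2 ⟨hW ▸ hp.1, hD, h3⟩)
      push Not at h2
      obtain ⟨i, j, hij, h3⟩ := h2
      exact mem_biUnion.2 ⟨(i, j), mem_univ _, mem_filter.2 ⟨hp.1, hij, h3⟩⟩
  have h2 : ∀ q : ι × ι, (S q).card ≤ 1 := by
    rintro ⟨i, j⟩
    rw [card_le_one]
    intro p hp q hq
    by_contra hpq
    have hp1 := mem_filter.1 hp
    have hq1 := mem_filter.1 hq
    obtain ⟨hpW, hij, hpm⟩ := hp1
    obtain ⟨hqW, _, hqm⟩ := hq1
    simp only at hij hpm hqm
    have hpp := hWm p hpW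
    have hqp := hWm q hqW
    have hne : (h i : ℤ) - h j ≠ 0 := by
      intro h3
      exact hij (hc.inj (by omega))
    have d1 : (p : ℤ) ∣ (h j : ℤ) - h i := (Nat.modEq_iff_dvd).1 hpm
    have d2 : (q : ℤ) ∣ (h j : ℤ) - h i := (Nat.modEq_iff_dvd).1 hqm
    have hcop : IsCoprime (p : ℤ) (q : ℤ) :=
      Nat.isCoprime_iff_coprime.2 ((Nat.coprime_primes hpp.1 hqp.1).2 hpq)
    have d3 : (p : ℤ) * q ∣ (h j : ℤ) - h i := hcop.mul_dvd d1 d2
    have d4 : (p : ℤ) * q ≤ |(h j : ℤ) - h i| := by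
      refine Int.le_of_dvd (abs_pos.2 (by intro h3; exact hne (by omega))) ?_
      exact (dvd_abs _ _).2 d3
    have d5 : (p : ℝ) * q ≤ |(h j : ℝ) - h i| := by
      exact_mod_cast d4
    have d6 : |(h j : ℝ) - h i| ≤ C * Real.log N := by
      have e1 := hc.le i
      have e2 := hc.le j
      have e3 : (0 : ℝ) ≤ h i := Nat.cast_nonneg _
      have e4 : (0 : ℝ) ≤ h j := Nat.cast_nonneg _
      rw [abs_le]
      constructor <;> linarith
    have d7 : (ε * Real.log N) * (ε * Real.log N) < (p : ℝ) * q := by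
      have e1 : 0 < ε * Real.log N := by positivity
      exact mul_lt_mul'' hpp.2 hqp.2 e1.le e1.le
    linarith
  calc (W \ V).card ≤ ((D \ D') ∪ (univ : Finset (ι × ι)).biUnion S).card := card_le_card h1
    _ ≤ (D \ D').card + ((univ : Finset (ι × ι)).biUnion S).card := card_union_le _ _
    _ ≤ 1 + ∑ q : ι × ι, (S q).card := add_le_add hc.one card_biUnion_le
    _ ≤ 1 + ∑ q : ι × ι, 1 := by
        gcongr with q
        exact h2 q
    _ = 1 + Fintype.card ι ^ 2 := by
        rw [sum_const, card_univ, Fintype.card_prod, smul_eq_mul, mul_one, sq]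

private theorem pr_pos42 {B : Finset ℕ} (hB : ∀ p ∈ B, p.Prime) : 0 < pr B :=
  prod_pos fun p hp => (hB p hp).pos

/-- the product of two step functions -/
private theorem ys_mul42 {N : ℕ} (hN : 1 ≤ N) (a b a' b' : ℝ) (B : Finset ℕ) :
    ys N a b B * ys N a' b' B =
      if (N : ℝ) ^ (max a a') < (pr B : ℝ) ∧ (pr B : ℝ) ≤ (N : ℝ) ^ (min b b') then 1 else 0 := by
  have hN1 : (1 : ℝ) ≤ N := by exact_mod_cast hN
  have h1 : (N : ℝ) ^ (max a a') < (pr B : ℝ) ↔ (N : ℝ) ^ a < (pr B : ℝ) ∧ (N : ℝ) ^ a' < (pr B : ℝ) := by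
    constructor
    · intro h
      exact ⟨(Real.rpow_le_rpow_of_exponent_le hN1 (le_max_left _ _)).trans_lt h,
        (Real.rpow_le_rpow_of_exponent_le hN1 (le_max_right _ _)).trans_lt h⟩
    · rintro ⟨h2, h3⟩
      rcases max_choice a a' with h4 | h4 <;> rw [h4] <;> assumption
  have h2 : (pr B : ℝ) ≤ (N : ℝ) ^ (min b b') ↔ (pr B : ℝ) ≤ (N : ℝ) ^ b ∧ (pr B : ℝ) ≤ (N : ℝ) ^ b' := by
    constructor
    · intro h
      exact ⟨h.trans (Real.rpow_le_rpow_of_exponent_le hN1 (min_le_left _ _)),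
        h.trans (Real.rpow_le_rpow_of_exponent_le hN1 (min_le_right _ _))⟩
    · rintro ⟨h2, h3⟩
      rcases min_choice b b' with h4 | h4 <;> rw [h4] <;> assumption
  simp only [h1, h2]
  unfold ys
  by_cases c1 : (N : ℝ) ^ a < (pr B : ℝ) <;> by_cases c2 : (N : ℝ) ^ a' < (pr B : ℝ) <;>
    by_cases c3 : (pr B : ℝ) ≤ (N : ℝ) ^ b <;> by_cases c4 : (pr B : ℝ) ≤ (N : ℝ) ^ b' <;>
    simp [c1, c2, c3, c4]

/-- the diagonal sum as a difference -/
private theorem dia_sub42 {N : ℕ} (hN : 1 ≤ N) {a b a' b' : ℝ} (h : max a a' ≤ min b b') (V : Finset ℕ) :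
    dia V (ys N a b) (ys N a' b') = GV V ((N : ℝ) ^ (min b b')) - GV V ((N : ℝ) ^ (max a a')) := by
  have hN1 : (1 : ℝ) ≤ N := by exact_mod_cast hN
  unfold dia GV
  rw [sum_filter, sum_filter, ← sum_sub_distrib]
  refine sum_congr rfl fun B _ => ?_
  rw [ys_mul42 hN]
  have h1 := Real.rpow_le_rpow_of_exponent_le hN1 h
  by_cases c1 : (pr B : ℝ) ≤ (N : ℝ) ^ (max a a')
  · rw [if_neg (fun hc => absurd hc.1 (not_lt.2 c1)), if_pos (c1.trans h1), if_pos c1]
    simp
  · by_cases c2 : (pr B : ℝ) ≤ (N : ℝ) ^ (min b b')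
    · rw [if_pos ⟨not_le.1 c1, c2⟩, if_pos c2, if_neg c1, sub_zero]
    · rw [if_neg (fun hc => c2 hc.2), if_neg c2, if_neg c1]
      simp

theorem dia_step {ι : Type} [Fintype ι] (ε C η a b a' b' : ℝ) (hε : 0 < ε) (hη : 0 < η) (h1 : St a b)
    (h2 : St a' b') : ∃ N₀ : ℕ, ∀ N : ℕ, N₀ ≤ N →
    ∀ (D D' V : Finset ℕ) (h : ι → ℕ) (c : ℕ), Ctx ε C N D D' V h c →
      |dia V (ys N a b) (ys N a' b') - ov a b a' b' * Gam ε N| ≤ η * Gam ε N := by
  classical
  obtain ⟨N₁, hN₁⟩ := Ctx_card (ι := ι) ε C hε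
  obtain ⟨N₂, hN₂⟩ := Gam_ge ε hε
  obtain ⟨ha, hab, hb, hb1⟩ := h1
  obtain ⟨ha', hab', hb', hb1'⟩ := h2
  have hm0 : 0 < min b b' := lt_min hb hb'
  have hm1 : min b b' ≤ 1 := (min_le_left _ _).trans hb1
  obtain ⟨N₃, hN₃⟩ := g_asym ε (η / 2) (min b b') (1 + Fintype.card ι ^ 2) hε (by linarith) hm0 hm1
  have hM : max a a' = -1 ∨ 0 < max a a' := by
    rcases ha with ha | ha
    · rcases ha' with ha' | ha'
      · left
        rw [ha, ha', max_self]
      · right
        exact lt_of_lt_of_le ha' (le_max_right _ _)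
    · right
      exact lt_of_lt_of_le ha (le_max_left _ _)
  rcases hM with hM | hM
  · refine ⟨max (max N₁ N₂) (max N₃ 2), fun N hN D D' V h c hc => ?_⟩
    have e1 : N₁ ≤ N := (le_max_left _ _).trans ((le_max_left _ _).trans hN)
    have e2 : N₂ ≤ N := (le_max_right _ _).trans ((le_max_left _ _).trans hN)
    have e3 : N₃ ≤ N := (le_max_left _ _).trans ((le_max_right _ _).trans hN)
    have e4 : 2 ≤ N := (le_max_right _ _).trans ((le_max_right _ _).trans hN)
    obtain ⟨hV, hcard⟩ := hN₁ N e1 D D' V h c hc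
    have hG : 0 ≤ Gam ε N := (one_div_pos.2 hε).le.trans (hN₂ N e2)
    have h3 := hN₃ N e3 V hV hcard
    have h4 : max a a' ≤ min b b' := by rw [hM]; linarith
    rw [dia_sub42 (by omega) h4, hM]
    have h5 : GV V ((N : ℝ) ^ (-1 : ℝ)) = 0 := by
      unfold GV
      rw [sum_filter]
      refine sum_eq_zero fun B hB => if_neg ?_
      have h6 : 0 < pr B := pr_pos42 fun p hp =>
        ((mem_filter.1 (hV (mem_powerset.1 hB hp))).2).1
      have h7 : (1 : ℝ) ≤ pr B := by exact_mod_cast h6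
      have h8 : (2 : ℝ) ≤ N := by exact_mod_cast e4
      rw [not_le, Real.rpow_neg_one]
      have h9 : (N : ℝ)⁻¹ < 1 := inv_lt_one_of_one_lt₀ (by linarith)
      linarith
    have h6 : ov a b a' b' = min b b' := by
      unfold ov
      rw [hM, max_eq_right (by norm_num : (-1 : ℝ) ≤ 0), sub_zero, max_eq_right hm0.le]
    rw [h5, h6, sub_zero]
    refine h3.trans ?_
    nlinarith
  · by_cases hMm : max a a' ≤ min b b'
    · obtain ⟨N₄, hN₄⟩ := g_asym ε (η / 2) (max a a') (1 + Fintype.card ι ^ 2) hε (by linarith) hM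
        (hMm.trans hm1)
      refine ⟨max (max N₁ N₄) (max N₃ 2), fun N hN D D' V h c hc => ?_⟩
      have e1 : N₁ ≤ N := (le_max_left _ _).trans ((le_max_left _ _).trans hN)
      have e2 : N₄ ≤ N := (le_max_right _ _).trans ((le_max_left _ _).trans hN)
      have e3 : N₃ ≤ N := (le_max_left _ _).trans ((le_max_right _ _).trans hN)
      have e4 : 2 ≤ N := (le_max_right _ _).trans ((le_max_right _ _).trans hN)
      obtain ⟨hV, hcard⟩ := hN₁ N e1 D D' V h c hc
      have h3 := hN₃ N e3 V hV hcard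
      have h4 := hN₄ N e2 V hV hcard
      rw [dia_sub42 (by omega) hMm]
      have h6 : ov a b a' b' = min b b' - max a a' := by
        unfold ov
        rw [max_eq_left hM.le, max_eq_right (by linarith)]
      rw [h6]
      rw [abs_le] at h3 h4 ⊢
      constructor
      · linarith [h3.1, h4.2]
      · linarith [h3.2, h4.1]
    · refine ⟨max N₂ 2, fun N hN D D' V h c hc => ?_⟩
      have e2 : N₂ ≤ N := (le_max_left _ _).trans hN
      have e4 : 2 ≤ N := (le_max_right _ _).trans hN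
      have hG : 0 ≤ Gam ε N := (one_div_pos.2 hε).le.trans (hN₂ N e2)
      have h8 : (1 : ℝ) < N := by
        have : (2 : ℝ) ≤ N := by exact_mod_cast e4
        linarith
      have h5 : dia V (ys N a b) (ys N a' b') = 0 := by
        unfold dia
        refine sum_eq_zero fun B _ => ?_
        rw [ys_mul42 (by omega), if_neg, zero_div]
        rintro ⟨h6, h7⟩
        have h9 := Real.rpow_lt_rpow_of_exponent_lt h8 (not_le.1 hMm)
        linarith
      have h6 : ov a b a' b' = 0 := by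
        unfold ov
        rw [max_eq_left hM.le, max_eq_left (by linarith [not_le.1 hMm])]
      rw [h5, h6, zero_mul, sub_zero, abs_zero]
      exact mul_nonneg hη.le hG

theorem mass_step (V : Finset ℕ) (N : ℕ) (a b : ℝ) : mass V (ys N a b) = dia V (ys N a b) (ys N a b) := by
  unfold mass dia
  refine sum_congr rfl fun B _ => ?_
  unfold ys
  split_ifs <;> simp

end PGL
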