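import Pool.Agent.PGL.WD

/-! PGL / W1: the sum of the weight.

PROOF. Expand the square: `ww = ∑_{j, j' ∈ J} ∏ c(j_i) c(j'_i) ∏ Lam Lam'`, apply `s1` to every pair (finitely many pairs,
`N₀` the maximum, `η` divided by `∑_{j, j'} ∏ |c c'| + 1`); level: `∑ (b(j_i) + b(j'_i)) ≤ 1/4 + 1/4`. By `Dat.ov` the
limit `∏ ov` is `0` unless `j = j'`, and then `∏ t(j_i)`. The sum of the limits is `∑_j ∏ c(j_i)² t(j_i) = JJ J c t ∅`. -/

set_option autoImplicit false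

open Finset

noncomputable section

namespace PGL

theorem w1_JJ_empty {ι : Type} [Fintype ι] [DecidableEq ι] {L : ℕ} (J : Finset (ι → Fin L)) (c a b t : Fin L → ℝ)
    (hov : ∀ l l', ov (a l) (b l) (a l') (b l') = if l = l' then t l else 0) :
    JJ J c t ∅ = ∑ j ∈ J, ∑ j' ∈ J, (∏ i, c (j i)) * (∏ i, c (j' i)) *
      ∏ i, ov (a (j i)) (b (j i)) (a (j' i)) (b (j' i)) := by
  unfold JJ
  refine sum_congr rfl fun j hj => ?_
  have h1 : J.filter (fun j' => ∀ i, i ∉ (∅ : Finset ι) → j' i = j i) = {j} := by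
    ext j'
    simp only [mem_filter, notMem_empty, not_false_eq_true, forall_const, mem_singleton]
    constructor
    · rintro ⟨-, h⟩
      exact funext h
    · rintro rfl
      exact ⟨hj, fun _ => rfl⟩
  rw [h1, sum_singleton]
  simp only [notMem_empty, if_false]
  rw [sum_eq_single_of_mem j hj]
  · rw [← prod_mul_distrib, ← prod_mul_distrib]
    refine prod_congr rfl fun i _ => ?_
    rw [hov, if_pos rfl]
    ring
  · intro j' _ hne
    obtain ⟨i, hi⟩ := Function.ne_iff.1 hne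
    have h0 : ∏ i, ov (a (j i)) (b (j i)) (a (j' i)) (b (j' i)) = 0 := by
      refine prod_eq_zero (mem_univ i) ?_
      rw [hov, if_neg (fun h => hi h.symm)]
    rw [h0, mul_zero]

theorem w1_ww_eq {ι : Type} [Fintype ι] {L : ℕ} (J : Finset (ι → Fin L)) (c a b : Fin L → ℝ) (N : ℕ)
    (V : Finset ℕ) (h : ι → ℕ) (n : ℕ) :
    ww J c a b N V h n = ∑ j ∈ J, ∑ j' ∈ J, (∏ i, c (j i)) * (∏ i, c (j' i)) *
      ∏ i, (Lam V (ys N (a (j i)) (b (j i))) (n + h i) *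
        Lam V (ys N (a (j' i)) (b (j' i))) (n + h i)) := by
  unfold ww
  rw [pow_two, sum_mul_sum]
  refine sum_congr rfl fun j _ => sum_congr rfl fun j' _ => ?_
  rw [prod_mul_distrib, prod_mul_distrib, prod_mul_distrib]
  ring

theorem w1 {ι : Type} [Fintype ι] [DecidableEq ι] {L : ℕ} (J : Finset (ι → Fin L)) (c a b t : Fin L → ℝ)
    (hD : Dat (1 / 4) J a b t) (ε C η : ℝ) (hε : 0 < ε) (hε1 : ε ≤ 1 / 16) (hη : 0 < η) :
    ∃ N₀ : ℕ, ∀ N : ℕ, N₀ ≤ N → ∀ (D D' V : Finset ℕ) (h : ι → ℕ) (b₀ : ℕ), Ctx ε C N D D' V h b₀ →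
      |∑ n ∈ (Ioc N (2 * N)).filter (· ≡ b₀ [MOD PGB.qz (ε * Real.log N) D]), ww J c a b N V h n -
        N / (PGB.qz (ε * Real.log N) D : ℝ) * Gam ε N ^ Fintype.card ι * JJ J c t ∅| ≤
        η * (N / (PGB.qz (ε * Real.log N) D : ℝ) * Gam ε N ^ Fintype.card ι) := by
  set Cc : (ι → Fin L) → ℝ := fun j => ∏ i, c (j i) with hCc
  set M : ℝ := ∑ j ∈ J, ∑ j' ∈ J, |Cc j * Cc j'| with hM
  have hM0 : 0 ≤ M := sum_nonneg fun j _ => sum_nonneg fun j' _ => abs_nonneg _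
  have hM1 : 0 < M + 1 := by linarith
  have hη' : 0 < η / (M + 1) := div_pos hη hM1
  have hs : ∀ p : (ι → Fin L) × (ι → Fin L), ∃ N₀ : ℕ, p.1 ∈ J → p.2 ∈ J → ∀ N : ℕ, N₀ ≤ N →
      ∀ (D D' V : Finset ℕ) (h : ι → ℕ) (b₀ : ℕ), Ctx ε C N D D' V h b₀ →
      |∑ n ∈ (Ioc N (2 * N)).filter (· ≡ b₀ [MOD PGB.qz (ε * Real.log N) D]),
          ∏ i, (Lam V (ys N (a (p.1 i)) (b (p.1 i))) (n + h i) *
            Lam V (ys N (a (p.2 i)) (b (p.2 i))) (n + h i)) -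
        N / (PGB.qz (ε * Real.log N) D : ℝ) * Gam ε N ^ Fintype.card ι *
          ∏ i, ov (a (p.1 i)) (b (p.1 i)) (a (p.2 i)) (b (p.2 i))| ≤
        η / (M + 1) * (N / (PGB.qz (ε * Real.log N) D : ℝ) * Gam ε N ^ Fintype.card ι) := by
    intro p
    by_cases hp : p.1 ∈ J ∧ p.2 ∈ J
    · obtain ⟨N₀, hN₀⟩ := s1 ε C (η / (M + 1)) hε hε1 hη' (fun i => a (p.1 i)) (fun i => b (p.1 i))
        (fun i => a (p.2 i)) (fun i => b (p.2 i)) (fun i => hD.st _) (fun i => hD.st _) (by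
          rw [sum_add_distrib]
          have h1 := hD.lev _ hp.1
          have h2 := hD.lev _ hp.2
          linarith)
      exact ⟨N₀, fun _ _ => hN₀⟩
    · exact ⟨0, fun h1 h2 => absurd ⟨h1, h2⟩ hp⟩
  choose N₁ hN₁ using hs
  obtain ⟨N₂, hN₂⟩ := Gam_ge ε hε
  refine ⟨max N₂ ((J ×ˢ J).sup N₁), fun N hN D D' V h b₀ hctx => ?_⟩
  have hΓ : 0 ≤ Gam ε N := le_trans (by positivity) (hN₂ N (le_trans (le_max_left _ _) hN))
  set W : ℝ := N / (PGB.qz (ε * Real.log N) D : ℝ) * Gam ε N ^ Fintype.card ι with hW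
  have hW0 : 0 ≤ W := mul_nonneg (by positivity) (pow_nonneg hΓ _)
  have hpair : ∀ j ∈ J, ∀ j' ∈ J,
      |Cc j * Cc j' * (∑ n ∈ (Ioc N (2 * N)).filter (· ≡ b₀ [MOD PGB.qz (ε * Real.log N) D]),
          ∏ i, (Lam V (ys N (a (j i)) (b (j i))) (n + h i) *
            Lam V (ys N (a (j' i)) (b (j' i))) (n + h i))) -
        W * (Cc j * Cc j' * ∏ i, ov (a (j i)) (b (j i)) (a (j' i)) (b (j' i)))| ≤
        |Cc j * Cc j'| * (η / (M + 1) * W) := by
    intro j hj j' hj'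
    have h1 := hN₁ (j, j') hj hj' N (le_trans (le_trans (le_sup (f := N₁)
      (mem_product.2 ⟨hj, hj'⟩ : ((j, j') : (ι → Fin L) × (ι → Fin L)) ∈ J ×ˢ J))
      (le_max_right _ _)) hN) D D' V h b₀ hctx
    rw [← mul_assoc, mul_comm W, mul_assoc (Cc j * Cc j'), ← mul_sub, abs_mul]
    exact mul_le_mul_of_nonneg_left h1 (abs_nonneg _)
  have hsum : ∑ n ∈ (Ioc N (2 * N)).filter (· ≡ b₀ [MOD PGB.qz (ε * Real.log N) D]),
        ww J c a b N V h n - W * JJ J c t ∅ = ∑ j ∈ J, ∑ j' ∈ J,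
      (Cc j * Cc j' * (∑ n ∈ (Ioc N (2 * N)).filter (· ≡ b₀ [MOD PGB.qz (ε * Real.log N) D]),
          ∏ i, (Lam V (ys N (a (j i)) (b (j i))) (n + h i) *
            Lam V (ys N (a (j' i)) (b (j' i))) (n + h i))) -
        W * (Cc j * Cc j' * ∏ i, ov (a (j i)) (b (j i)) (a (j' i)) (b (j' i)))) := by
    rw [w1_JJ_empty J c a b t hD.ov, mul_sum]
    simp only [w1_ww_eq]
    rw [sum_comm, ← sum_sub_distrib]
    refine sum_congr rfl fun j _ => ?_
    rw [sum_comm, mul_sum, ← sum_sub_distrib]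
    refine sum_congr rfl fun j' _ => ?_
    rw [mul_sum]
  rw [hsum]
  calc |∑ j ∈ J, ∑ j' ∈ J,
      (Cc j * Cc j' * (∑ n ∈ (Ioc N (2 * N)).filter (· ≡ b₀ [MOD PGB.qz (ε * Real.log N) D]),
          ∏ i, (Lam V (ys N (a (j i)) (b (j i))) (n + h i) *
            Lam V (ys N (a (j' i)) (b (j' i))) (n + h i))) -
        W * (Cc j * Cc j' * ∏ i, ov (a (j i)) (b (j i)) (a (j' i)) (b (j' i))))|
      ≤ ∑ j ∈ J, ∑ j' ∈ J, |Cc j * Cc j'| * (η / (M + 1) * W) :=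
        (abs_sum_le_sum_abs _ _).trans (sum_le_sum fun j hj =>
          (abs_sum_le_sum_abs _ _).trans (sum_le_sum fun j' hj' => hpair j hj j' hj'))
    _ = M * (η / (M + 1) * W) := by
        rw [hM, sum_mul]
        refine sum_congr rfl fun j _ => ?_
        rw [sum_mul]
    _ ≤ (M + 1) * (η / (M + 1) * W) :=
        mul_le_mul_of_nonneg_right (by linarith) (mul_nonneg hη'.le hW0)
    _ = η * W := by
        field_simp

end PGL
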