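import Pool.Agent.PGL.WD

/-! PGL / W2: the sum of the weight over the primes.

PROOF. If `m = n + h i₀` is a prime, `m > N`, then no prime of `V` (all `≤ N`) divides `m`, so
`Lam V y m = LamS V y ∅ = mass V y`. Hence `ww n * fp (n + h i₀) = fp (n + h i₀) ∑_{j, j'} ∏ c c' mass(y_{j i₀})
mass(y_{j' i₀}) ∏_{i ≠ i₀} Lam Lam'`. Apply `s2` to every pair, `mass_step`, `dia_step`: `mass = (t + o(1)) Γ`
(`Dat.ov` with `l = l'`). The limit of the pair is `0` unless `j i = j' i` for all `i ≠ i₀`. Level: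
`∑_{i ≠ i₀} (b(j_i) + b(j'_i)) ≤ 2 ρ` as `b ≥ 0`. `Γ^(k-1) Γ² = Γ^(k+1)`. -/

set_option autoImplicit false

open Finset

noncomputable section

namespace PGL

theorem Lam_prime {ι : Type} [Fintype ι] {ε C : ℝ} {N : ℕ} {D D' V : Finset ℕ} {h : ι → ℕ} {c : ℕ}
    (hC : Ctx ε C N D D' V h c) (y : Finset ℕ → ℝ) {m : ℕ} (hm : m.Prime) (hN : N < m) :
    Lam V y m = mass V y := by
  have h1 : V.filter (· ∣ m) = ∅ := by
    rw [Finset.filter_eq_empty_iff]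
    intro p hp hpm
    have h2 := ((hC.mem p).1 hp).1
    unfold VN at h2
    rw [mem_filter, mem_range] at h2
    have h3 := (Nat.prime_dvd_prime_iff_eq h2.2.1 hm).1 hpm
    omega
  unfold Lam
  rw [h1]
  unfold LamS mass
  refine sum_congr rfl fun B _ => ?_
  have h2 : ∏ p ∈ B, ee ∅ p = 1 := prod_eq_one fun p _ => by
    unfold ee
    rw [if_neg (Finset.notMem_empty p)]
  rw [h2, mul_one]

/-- the coefficient of a pair -/
private def w2C {ι : Type} [Fintype ι] {L : ℕ} (c : Fin L → ℝ) (p : (ι → Fin L) × (ι → Fin L)) : ℝ :=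
  (∏ i, c (p.1 i)) * ∏ i, c (p.2 i)

private theorem w2_expand {ι : Type} [Fintype ι] [DecidableEq ι] {L : ℕ} (J : Finset (ι → Fin L))
    (c a b : Fin L → ℝ) (i₀ : ι) {ε C : ℝ} {N : ℕ} {D D' V : Finset ℕ} {h : ι → ℕ} {b₀ : ℕ}
    (hC : Ctx ε C N D D' V h b₀) {n : ℕ} (hn : N < n) :
    ww J c a b N V h n * fp (n + h i₀) = ∑ p ∈ J ×ˢ J, w2C c p *
      (mass V (ys N (a (p.1 i₀)) (b (p.1 i₀))) * mass V (ys N (a (p.2 i₀)) (b (p.2 i₀)))) *
      (fp (n + h i₀) * ∏ i ∈ univ.erase i₀, (Lam V (ys N (a (p.1 i)) (b (p.1 i))) (n + h i) *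
        Lam V (ys N (a (p.2 i)) (b (p.2 i))) (n + h i))) := by
  by_cases hp : (n + h i₀).Prime
  · unfold ww
    rw [pow_two, Finset.sum_mul_sum, ← Finset.sum_product', Finset.sum_mul]
    refine sum_congr rfl fun p _ => ?_
    have e1 : ∀ y : Finset ℕ → ℝ, Lam V y (n + h i₀) = mass V y := fun y =>
      Lam_prime hC y hp (by omega)
    rw [← e1, ← e1, Finset.prod_mul_distrib, Finset.prod_mul_distrib, Finset.prod_mul_distrib,
      ← mul_prod_erase univ (fun i => Lam V (ys N (a (p.1 i)) (b (p.1 i))) (n + h i)) (mem_univ i₀),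
      ← mul_prod_erase univ (fun i => Lam V (ys N (a (p.2 i)) (b (p.2 i))) (n + h i)) (mem_univ i₀)]
    unfold w2C
    ring
  · have h0 : fp (n + h i₀) = 0 := by
      unfold fp
      rw [if_neg hp]
    rw [h0, mul_zero]
    symm
    refine sum_eq_zero fun p _ => ?_
    rw [zero_mul, mul_zero]

private theorem w2_JJ {ι : Type} [Fintype ι] [DecidableEq ι] {L : ℕ} {ρ : ℝ} (J : Finset (ι → Fin L))
    (c : Fin L → ℝ) {a b t : Fin L → ℝ} (hD : Dat ρ J a b t) (i₀ : ι) :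
    JJ J c t {i₀} = ∑ p ∈ J ×ˢ J, w2C c p * (t (p.1 i₀) * t (p.2 i₀)) *
      ∏ i ∈ univ.erase i₀, ov (a (p.1 i)) (b (p.1 i)) (a (p.2 i)) (b (p.2 i)) := by
  unfold JJ
  rw [Finset.sum_product]
  refine sum_congr rfl fun j _ => ?_
  rw [Finset.sum_filter]
  refine sum_congr rfl fun j' _ => ?_
  have hov : ∀ i, ov (a (j i)) (b (j i)) (a (j' i)) (b (j' i)) =
      if j i = j' i then t (j i) else 0 := fun i => hD.ov _ _
  simp only [hov]
  by_cases hc : ∀ i, i ∉ ({i₀} : Finset ι) → j' i = j i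
  · rw [if_pos hc]
    rw [← mul_prod_erase univ _ (mem_univ i₀)]
    unfold w2C
    simp only
    rw [← mul_prod_erase univ (fun i => c (j i)) (mem_univ i₀),
      ← mul_prod_erase univ (fun i => c (j' i)) (mem_univ i₀)]
    have e1 : ∏ i ∈ univ.erase i₀, c (j' i) = ∏ i ∈ univ.erase i₀, c (j i) :=
      prod_congr rfl fun i hi => by
        rw [hc i (by rw [Finset.mem_singleton]; exact (Finset.mem_erase.1 hi).1)]
    have e2 : (∏ i ∈ univ.erase i₀, if j i = j' i then t (j i) else 0) =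
        ∏ i ∈ univ.erase i₀, t (j i) :=
      prod_congr rfl fun i hi => by
        rw [hc i (by rw [Finset.mem_singleton]; exact (Finset.mem_erase.1 hi).1), if_pos rfl]
    have e3 : (∏ x ∈ univ.erase i₀, if x ∈ ({i₀} : Finset ι) then
        c (j x) * t (j x) * (c (j' x) * t (j' x)) else c (j x) ^ 2 * t (j x)) =
        (∏ i ∈ univ.erase i₀, c (j i)) ^ 2 * ∏ i ∈ univ.erase i₀, t (j i) := by
      rw [← Finset.prod_pow, ← Finset.prod_mul_distrib]
      refine prod_congr rfl fun i hi => ?_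
      rw [if_neg (by rw [Finset.mem_singleton]; exact (Finset.mem_erase.1 hi).1)]
    rw [e1, e2, e3, if_pos (Finset.mem_singleton_self i₀)]
    ring
  · rw [if_neg hc]
    push Not at hc
    obtain ⟨i, hi, hne⟩ := hc
    rw [Finset.mem_singleton] at hi
    symm
    rw [Finset.prod_eq_zero (Finset.mem_erase.2 ⟨hi, mem_univ i⟩), mul_zero]
    rw [if_neg (Ne.symm hne)]

/-- elementary perturbation estimate -/
private theorem w2_est {S m m' M G o t t' η : ℝ} (hG : 0 ≤ G) (hM : 0 ≤ M) (hη0 : 0 ≤ η)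
    (hη1 : η ≤ 1) (hS : |S - M * o| ≤ η * M) (hm : |m - t * G| ≤ η * G)
    (hm' : |m' - t' * G| ≤ η * G) :
    |m * m' * S - M * G ^ 2 * (t * t' * o)| ≤
      η * (M * G ^ 2) * ((|t| + 1) * (|t'| + 1) + |o| * (|t'| + 1) + |o| * |t|) := by
  have e : m * m' * S - M * G ^ 2 * (t * t' * o) =
      (S - M * o) * (m * m') + M * o * ((m - t * G) * m') + M * o * (t * G * (m' - t' * G)) := by
    ring
  have b1 : |m| ≤ (|t| + 1) * G := by
    have h1 : |m| ≤ |m - t * G| + |t * G| := by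
      have := abs_add_le (m - t * G) (t * G)
      rwa [sub_add_cancel] at this
    rw [abs_mul, abs_of_nonneg hG] at h1
    nlinarith
  have b2 : |m'| ≤ (|t'| + 1) * G := by
    have h1 : |m'| ≤ |m' - t' * G| + |t' * G| := by
      have := abs_add_le (m' - t' * G) (t' * G)
      rwa [sub_add_cancel] at this
    rw [abs_mul, abs_of_nonneg hG] at h1
    nlinarith
  have p1 : |(S - M * o) * (m * m')| ≤ η * M * (((|t| + 1) * G) * ((|t'| + 1) * G)) := by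
    rw [abs_mul, abs_mul]
    have : 0 ≤ |t| := abs_nonneg t
    exact mul_le_mul hS (mul_le_mul b1 b2 (abs_nonneg _) (by positivity))
      (mul_nonneg (abs_nonneg _) (abs_nonneg _)) (by positivity)
  have p2 : |M * o * ((m - t * G) * m')| ≤ M * |o| * (η * G * ((|t'| + 1) * G)) := by
    rw [abs_mul, abs_mul, abs_mul, abs_of_nonneg hM]
    exact mul_le_mul_of_nonneg_left (mul_le_mul hm b2 (abs_nonneg _) (by positivity))
      (by positivity)
  have p3 : |M * o * (t * G * (m' - t' * G))| ≤ M * |o| * (|t| * G * (η * G)) := by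
    rw [abs_mul, abs_mul, abs_mul, abs_mul, abs_of_nonneg hM, abs_of_nonneg hG]
    exact mul_le_mul_of_nonneg_left (mul_le_mul_of_nonneg_left hm' (by positivity))
      (by positivity)
  rw [e]
  refine (abs_add_le _ _).trans ((add_le_add ((abs_add_le _ _).trans (add_le_add p1 p2)) p3).trans
    (le_of_eq ?_))
  ring

theorem w2 {ι : Type} [Fintype ι] [DecidableEq ι] (δ ρ : ℝ) (hδ : 0 < δ) (hδ2 : δ < 1 / 2)
    (hρ : 2 * ρ ≤ 1 / 2 - δ) : ∃ A : ℝ,
    ∀ {L : ℕ} (J : Finset (ι → Fin L)) (c a b t : Fin L → ℝ), Dat ρ J a b t →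
    ∀ (i₀ : ι) (ε C η : ℝ), 0 < ε → 8 * ε ≤ δ → 0 < η →
    ∃ N₀ : ℕ, ∀ N : ℕ, N₀ ≤ N → ∀ (D D' V : Finset ℕ) (h : ι → ℕ) (b₀ : ℕ), Ctx ε C N D D' V h b₀ →
      MB δ A ε N D →
      |∑ n ∈ (Ioc N (2 * N)).filter (· ≡ b₀ [MOD PGB.qz (ε * Real.log N) D]),
          ww J c a b N V h n * fp (n + h i₀) -
        N / (Nat.totient (PGB.qz (ε * Real.log N) D) : ℝ) * Gam ε N ^ (Fintype.card ι + 1) * JJ J c t {i₀}| ≤
        η * (N / (Nat.totient (PGB.qz (ε * Real.log N) D) : ℝ) * Gam ε N ^ (Fintype.card ι + 1)) := by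
  obtain ⟨A, hA⟩ := s2 (ι := ι) δ hδ hδ2
  refine ⟨A, ?_⟩
  intro L J c a b t hD i₀ ε C η hε hε8 hη
  -- the error weights
  obtain ⟨B, hB⟩ : ∃ B : (ι → Fin L) × (ι → Fin L) → ℝ, B = fun p =>
      (|t (p.1 i₀)| + 1) * (|t (p.2 i₀)| + 1) +
      |∏ i ∈ univ.erase i₀, ov (a (p.1 i)) (b (p.1 i)) (a (p.2 i)) (b (p.2 i))| *
        (|t (p.2 i₀)| + 1) +
      |∏ i ∈ univ.erase i₀, ov (a (p.1 i)) (b (p.1 i)) (a (p.2 i)) (b (p.2 i))| *
        |t (p.1 i₀)| := ⟨_, rfl⟩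
  have hB0 : ∀ p, 0 ≤ B p := by
    intro p
    rw [hB]
    positivity
  obtain ⟨T, hT⟩ : ∃ T : ℝ, T = ∑ p ∈ J ×ˢ J, |w2C c p| * B p := ⟨_, rfl⟩
  have hT0 : 0 ≤ T := by
    rw [hT]
    exact sum_nonneg fun p _ => mul_nonneg (abs_nonneg _) (hB0 p)
  obtain ⟨ξ, hξ⟩ : ∃ ξ : ℝ, ξ = min 1 (η / (T + 1)) := ⟨_, rfl⟩
  have hξ0 : 0 < ξ := by
    rw [hξ]
    exact lt_min one_pos (div_pos hη (by linarith))
  have hξ1 : ξ ≤ 1 := by
    rw [hξ]
    exact min_le_left _ _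
  have hξT : ξ * T ≤ η := by
    have h1 : ξ ≤ η / (T + 1) := by
      rw [hξ]
      exact min_le_right _ _
    rw [le_div_iff₀ (by linarith)] at h1
    nlinarith
  have hb0 : ∀ l, 0 < b l := fun l => (hD.st l).2.2.1
  -- the sums of the pairs
  have hE : ∀ᶠ N : ℕ in Filter.atTop, ∀ p ∈ J ×ˢ J,
      ∀ (D D' V : Finset ℕ) (h : ι → ℕ) (b₀ : ℕ), Ctx ε C N D D' V h b₀ → MB δ A ε N D →
      |∑ n ∈ (Ioc N (2 * N)).filter (· ≡ b₀ [MOD PGB.qz (ε * Real.log N) D]), fp (n + h i₀) *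
          ∏ i ∈ univ.erase i₀, (Lam V (ys N (a (p.1 i)) (b (p.1 i))) (n + h i) *
            Lam V (ys N (a (p.2 i)) (b (p.2 i))) (n + h i)) -
        N / (Nat.totient (PGB.qz (ε * Real.log N) D) : ℝ) * Gam ε N ^ (Fintype.card ι - 1) *
          ∏ i ∈ univ.erase i₀, ov (a (p.1 i)) (b (p.1 i)) (a (p.2 i)) (b (p.2 i))| ≤
        ξ * (N / (Nat.totient (PGB.qz (ε * Real.log N) D) : ℝ) *
          Gam ε N ^ (Fintype.card ι - 1)) := by
    rw [Filter.eventually_all_finset]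
    intro p hp
    rw [Finset.mem_product] at hp
    obtain ⟨N₀, hN₀⟩ := hA i₀ ε C ξ hε hε8 hξ0 (fun i => a (p.1 i)) (fun i => b (p.1 i))
      (fun i => a (p.2 i)) (fun i => b (p.2 i)) (fun i => hD.st _) (fun i => hD.st _) (by
        have h1 : ∑ i ∈ univ.erase i₀, (b (p.1 i) + b (p.2 i)) ≤ ∑ i, (b (p.1 i) + b (p.2 i)) :=
          sum_le_sum_of_subset_of_nonneg (erase_subset _ _) fun i _ _ =>
            (add_pos (hb0 _) (hb0 _)).le
        rw [Finset.sum_add_distrib (s := univ)] at h1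
        have h2 := hD.lev p.1 hp.1
        have h3 := hD.lev p.2 hp.2
        linarith)
    filter_upwards [Filter.eventually_ge_atTop N₀] with N hN
    intro D D' V h b₀ hC hM
    exact hN₀ N hN D D' V h b₀ hC hM
  have hMs : ∀ᶠ N : ℕ in Filter.atTop, ∀ l ∈ (univ : Finset (Fin L)),
      ∀ (D D' V : Finset ℕ) (h : ι → ℕ) (b₀ : ℕ), Ctx ε C N D D' V h b₀ →
        |mass V (ys N (a l) (b l)) - t l * Gam ε N| ≤ ξ * Gam ε N := by
    rw [Filter.eventually_all_finset]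
    intro l _
    obtain ⟨N₀, hN₀⟩ := dia_step (ι := ι) ε C ξ (a l) (b l) (a l) (b l) hε hξ0 (hD.st l) (hD.st l)
    filter_upwards [Filter.eventually_ge_atTop N₀] with N hN
    intro D D' V h b₀ hC
    have h1 := hN₀ N hN D D' V h b₀ hC
    rw [hD.ov l l, if_pos rfl, ← mass_step] at h1
    exact h1
  obtain ⟨N₁, hN₁⟩ := Gam_ge ε hε
  obtain ⟨N₂, hN₂⟩ := Filter.eventually_atTop.1 (hE.and hMs)
  refine ⟨max N₁ N₂, fun N hN D D' V h b₀ hC hM => ?_⟩
  obtain ⟨hE', hM'⟩ := hN₂ N ((le_max_right _ _).trans hN)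
  have hG : 0 < Gam ε N :=
    lt_of_lt_of_le (by positivity) (hN₁ N ((le_max_left _ _).trans hN))
  obtain ⟨G, hGdef⟩ : ∃ G, G = Gam ε N := ⟨_, rfl⟩
  obtain ⟨Q, hQ⟩ : ∃ Q : ℝ, Q = N / (Nat.totient (PGB.qz (ε * Real.log N) D) : ℝ) := ⟨_, rfl⟩
  have hQ0 : 0 ≤ Q := by
    rw [hQ]
    positivity
  have hk : 1 ≤ Fintype.card ι := Fintype.card_pos_iff.2 ⟨i₀⟩
  have hpow : Gam ε N ^ (Fintype.card ι + 1) = Gam ε N ^ (Fintype.card ι - 1) * Gam ε N ^ 2 := by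
    rw [← pow_add]
    congr 1
    omega
  have hsum : ∑ n ∈ (Ioc N (2 * N)).filter (· ≡ b₀ [MOD PGB.qz (ε * Real.log N) D]),
      ww J c a b N V h n * fp (n + h i₀) = ∑ p ∈ J ×ˢ J, w2C c p *
      (mass V (ys N (a (p.1 i₀)) (b (p.1 i₀))) * mass V (ys N (a (p.2 i₀)) (b (p.2 i₀))) *
      ∑ n ∈ (Ioc N (2 * N)).filter (· ≡ b₀ [MOD PGB.qz (ε * Real.log N) D]),
      (fp (n + h i₀) * ∏ i ∈ univ.erase i₀, (Lam V (ys N (a (p.1 i)) (b (p.1 i))) (n + h i) *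
        Lam V (ys N (a (p.2 i)) (b (p.2 i))) (n + h i)))) := by
    have h1 : ∀ n ∈ (Ioc N (2 * N)).filter (· ≡ b₀ [MOD PGB.qz (ε * Real.log N) D]),
        ww J c a b N V h n * fp (n + h i₀) = _ := fun n hn =>
      w2_expand J c a b i₀ hC (Finset.mem_Ioc.1 (Finset.mem_filter.1 hn).1).1
    rw [sum_congr rfl h1, Finset.sum_comm]
    refine sum_congr rfl fun p _ => ?_
    rw [← Finset.mul_sum]
    ring
  rw [hsum, w2_JJ J c hD i₀, Finset.mul_sum, ← Finset.sum_sub_distrib]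
  refine (Finset.abs_sum_le_sum_abs _ _).trans ?_
  have hterm : ∀ p ∈ J ×ˢ J, |w2C c p *
      (mass V (ys N (a (p.1 i₀)) (b (p.1 i₀))) * mass V (ys N (a (p.2 i₀)) (b (p.2 i₀))) *
      ∑ n ∈ (Ioc N (2 * N)).filter (· ≡ b₀ [MOD PGB.qz (ε * Real.log N) D]),
      (fp (n + h i₀) * ∏ i ∈ univ.erase i₀, (Lam V (ys N (a (p.1 i)) (b (p.1 i))) (n + h i) *
        Lam V (ys N (a (p.2 i)) (b (p.2 i))) (n + h i)))) -
      N / (Nat.totient (PGB.qz (ε * Real.log N) D) : ℝ) * Gam ε N ^ (Fintype.card ι + 1) *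
      (w2C c p * (t (p.1 i₀) * t (p.2 i₀)) *
      ∏ i ∈ univ.erase i₀, ov (a (p.1 i)) (b (p.1 i)) (a (p.2 i)) (b (p.2 i)))| ≤
      |w2C c p| * B p * (ξ * (N / (Nat.totient (PGB.qz (ε * Real.log N) D) : ℝ) *
        Gam ε N ^ (Fintype.card ι + 1))) := by
    intro p hp
    have h1 := hE' p hp D D' V h b₀ hC hM
    have h2 := hM' (p.1 i₀) (mem_univ _) D D' V h b₀ hC
    have h3 := hM' (p.2 i₀) (mem_univ _) D D' V h b₀ hC
    have h4 := w2_est hG.le (mul_nonneg hQ0 (pow_nonneg hG.le (Fintype.card ι - 1))) hξ0.le hξ1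
      (by rw [hQ]; exact h1) h2 h3
    rw [hpow, ← hQ, hB]
    have e : ∀ X P o : ℝ, w2C c p * X - Q * (Gam ε N ^ (Fintype.card ι - 1) * Gam ε N ^ 2) *
        (w2C c p * P * o) = w2C c p * (X - Q * Gam ε N ^ (Fintype.card ι - 1) * Gam ε N ^ 2 *
          (P * o)) := by
      intro X P o
      ring
    rw [e, abs_mul]
    refine (mul_le_mul_of_nonneg_left h4 (abs_nonneg _)).trans (le_of_eq ?_)
    ring
  refine (sum_le_sum hterm).trans ?_
  rw [← Finset.sum_mul, ← hT]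
  have hU : 0 ≤ N / (Nat.totient (PGB.qz (ε * Real.log N) D) : ℝ) *
      Gam ε N ^ (Fintype.card ι + 1) := by positivity
  calc T * (ξ * (N / (Nat.totient (PGB.qz (ε * Real.log N) D) : ℝ) *
        Gam ε N ^ (Fintype.card ι + 1))) = ξ * T * (N /
        (Nat.totient (PGB.qz (ε * Real.log N) D) : ℝ) * Gam ε N ^ (Fintype.card ι + 1)) := by ring
    _ ≤ _ := mul_le_mul_of_nonneg_right hξT hU

end PGL
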