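import Pool.Agent.PGL.S2

/-! PGL / WD: the weights, the limits of the normalised sums. -/

set_option autoImplicit false

open Finset

noncomputable section

namespace PGL

/-- the weight: the square of a combination of products of step weights -/
def ww {ι : Type} [Fintype ι] {L : ℕ} (J : Finset (ι → Fin L)) (c a b : Fin L → ℝ) (N : ℕ) (V : Finset ℕ)
    (h : ι → ℕ) (n : ℕ) : ℝ :=
  (∑ j ∈ J, ∏ i, (c (j i) * Lam V (ys N (a (j i)) (b (j i))) (n + h i))) ^ 2

/-- the limit of the normalised sum of the weight, where the coordinates in `I` are evaluated at primes -/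
def JJ {ι : Type} [Fintype ι] [DecidableEq ι] {L : ℕ} (J : Finset (ι → Fin L)) (c t : Fin L → ℝ)
    (I : Finset ι) : ℝ :=
  ∑ j ∈ J, ∑ j' ∈ J.filter (fun j' => ∀ i, i ∉ I → j' i = j i),
    ∏ i, if i ∈ I then c (j i) * t (j i) * (c (j' i) * t (j' i)) else c (j i) ^ 2 * t (j i)

/-- data of a weight -/
structure Dat {ι : Type} [Fintype ι] {L : ℕ} (ρ : ℝ) (J : Finset (ι → Fin L)) (a b t : Fin L → ℝ) : Prop where
  st : ∀ l, St (a l) (b l)
  ov : ∀ l l', ov (a l) (b l) (a l') (b l') = if l = l' then t l else 0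
  lev : ∀ j ∈ J, ∑ i, b (j i) ≤ ρ

end PGL
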